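import Mathlib

set_option autoImplicit false

/-!
Definitions used in the statements: the field `ℚ(q)`, `q`-shifted factorials, `q`-integers and
congruences of rational functions of `q` modulo a polynomial.
-/

namespace Pool.Agent.R439

open Finset Polynomial

/-- The field `ℚ(q)` of rational functions in one variable. -/
abbrev K : Type := RatFunc ℚ

/-- The variable `q` of `ℚ(q)`. -/
noncomputable def q : K := RatFunc.X

/-- The `q`-shifted factorial `(a;b)_k = (1-a)(1-ab)⋯(1-ab^(k-1))` with base `b`. -/
def poch {F : Type*} [Field F] (a b : F) (k : ℕ) : F := ∏ i ∈ range k, (1 - a * b ^ i)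

/-- The `q`-integer `[m] = (1 - q^m)/(1 - q)` for an integer `m`. -/
noncomputable def qint (m : ℤ) : K := (1 - q ^ m) / (1 - q)

/-- Congruence of rational functions modulo a polynomial `P`: the numerator of `f - g` (written
in lowest terms) is divisible by `P`. -/
def Cong (P : ℚ[X]) (f g : K) : Prop := P ∣ (f - g).num

end Pool.Agent.R439
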