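import Mathlib
import Pool.Agent.R439.QDefs

set_option autoImplicit false

/-!
Elementary facts on `q`-shifted factorials and terminating `q`-sums over a field.
-/

namespace Pool.Agent.R439

open Finset Polynomial

section
variable {F : Type*} [Field F]

theorem poch_zero (a b : F) : poch a b 0 = 1 := by simp [poch]

theorem poch_succ (a b : F) (k : ℕ) : poch a b (k + 1) = poch a b k * (1 - a * b ^ k) := by
  simp [poch, prod_range_succ]

theorem poch_one (a b : F) : poch a b 1 = 1 - a := by simp [poch]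

theorem poch_succ' (a b : F) (k : ℕ) : poch a b (k + 1) = (1 - a) * poch (a * b) b k := by
  rw [poch, prod_range_succ']
  rw [poch, pow_zero, mul_one, mul_comm]
  congr 1
  refine prod_congr rfl fun i _ => ?_
  ring

theorem poch_add (a b : F) (k l : ℕ) :
    poch a b (k + l) = poch a b k * poch (a * b ^ k) b l := by
  rw [poch, prod_range_add, poch, poch]
  congr 1
  refine prod_congr rfl fun i _ => ?_
  ring

theorem poch_ne {a b : F} {k : ℕ} (h : ∀ i < k, a * b ^ i ≠ 1) : poch a b k ≠ 0 := by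
  rw [poch, prod_ne_zero_iff]
  intro i hi
  exact sub_ne_zero.2 (h i (mem_range.1 hi)).symm

theorem poch_self_ne {b : F} (hb : ∀ i : ℕ, 0 < i → b ^ i ≠ 1) (k : ℕ) : poch b b k ≠ 0 :=
  poch_ne fun i _ => by rw [← pow_succ']; exact hb _ (Nat.succ_pos _)

theorem poch_eq_zero {a b : F} {k i : ℕ} (hi : i < k) (h : a * b ^ i = 1) : poch a b k = 0 := by
  rw [poch, prod_eq_zero_iff]
  exact ⟨i, mem_range.2 hi, by rw [h, sub_self]⟩

/-- `(b^{-M};b)_k` vanishes for `k > M` -/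
theorem poch_neg_eq_zero {b : F} (hb : b ≠ 0) {M k : ℕ} (h : M < k) :
    poch (b ^ (-(M : ℤ))) b k = 0 :=
  poch_eq_zero h (by rw [zpow_neg, zpow_natCast, inv_mul_cancel₀ (pow_ne_zero _ hb)])

/-- the coefficients `(b^{-M};b)_k/(b;b)_k` -/
def tc (b : F) (M k : ℕ) : F := poch (b ^ (-(M : ℤ))) b k / poch b b k

theorem tc_zero (b : F) (M : ℕ) : tc b M 0 = 1 := by simp [tc, poch]

theorem tc_gt {b : F} (hb : b ≠ 0) {M k : ℕ} (h : M < k) : tc b M k = 0 := by
  rw [tc, poch_neg_eq_zero hb h, zero_div]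

theorem tc_succ_mul {b : F} (hb : ∀ i : ℕ, 0 < i → b ^ i ≠ 1) (M k : ℕ) :
    tc b M (k + 1) * (1 - b ^ (k + 1)) = tc b M k * (1 - b ^ (-(M : ℤ)) * b ^ k) := by
  have h1 := poch_self_ne hb k
  have h2 : 1 - b ^ (k + 1) ≠ 0 := sub_ne_zero.2 (hb _ (Nat.succ_pos _)).symm
  rw [tc, tc, poch_succ, poch_succ, ← pow_succ']
  field_simp

/-- Pascal-type recurrence -/
theorem tc_rec {b : F} (hb0 : b ≠ 0) (hb : ∀ i : ℕ, 0 < i → b ^ i ≠ 1) (M k : ℕ) :
    tc b (M + 1) (k + 1) = tc b M (k + 1) - b ^ (-((M : ℤ) + 1)) * tc b M k := by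
  have key : ∀ k : ℕ, poch (b ^ (-((M + 1 : ℕ) : ℤ))) b (k + 1) =
      poch (b ^ (-(M : ℤ))) b (k + 1) -
        b ^ (-((M : ℤ) + 1)) * poch (b ^ (-(M : ℤ))) b k * (1 - b ^ (k + 1)) := by
    intro k
    have e : b ^ (-((M + 1 : ℕ) : ℤ)) * b = b ^ (-(M : ℤ)) := by
      rw [← zpow_add_one₀ hb0]; congr 1; push_cast; ring
    have e' : b ^ (-((M + 1 : ℕ) : ℤ)) = b ^ (-((M : ℤ) + 1)) := by push_cast; rfl
    have e2 : b ^ (-(M : ℤ)) = b ^ (-((M : ℤ) + 1)) * b := by rw [← e', e]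
    rw [poch_succ', e, poch_succ, e', e2, pow_succ]
    ring
  have h1 := poch_self_ne hb k
  have h2 : 1 - b ^ (k + 1) ≠ 0 := sub_ne_zero.2 (hb _ (Nat.succ_pos _)).symm
  rw [tc, key, tc, tc, poch_succ (b) b k, ← pow_succ']
  field_simp

/-- the terminating `q`-binomial theorem -/
theorem qbinom {b : F} (hb0 : b ≠ 0) (hb : ∀ i : ℕ, 0 < i → b ^ i ≠ 1) (M : ℕ) (z : F) :
    ∀ N, M < N → ∑ k ∈ range N, tc b M k * z ^ k = poch (z * b ^ (-(M : ℤ))) b M := by
  induction M with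
  | zero =>
    intro N hN
    rw [poch_zero]
    obtain ⟨N, rfl⟩ := Nat.exists_eq_succ_of_ne_zero hN.ne'
    rw [Nat.succ_eq_add_one, sum_range_succ', tc_zero, pow_zero, mul_one,
      sum_eq_zero (fun k _ => by rw [tc_gt hb0 (Nat.succ_pos _), zero_mul]), zero_add]
  | succ M ih =>
    intro N hN
    obtain ⟨N, rfl⟩ := Nat.exists_eq_succ_of_ne_zero (Nat.zero_lt_of_lt hN).ne'
    rw [Nat.succ_eq_add_one, sum_range_succ', tc_zero]
    have h1 := ih (N + 1) (by omega)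
    rw [sum_range_succ', tc_zero] at h1
    have h2 := ih N (by omega)
    have h3 : ∑ k ∈ range N, tc b (M + 1) (k + 1) * z ^ (k + 1) =
        ∑ k ∈ range N, tc b M (k + 1) * z ^ (k + 1) -
        (z * b ^ (-((M : ℤ) + 1))) * ∑ k ∈ range N, tc b M k * z ^ k := by
      rw [mul_sum, ← sum_sub_distrib]
      refine sum_congr rfl fun k _ => ?_
      rw [tc_rec hb0 hb]; ring
    rw [h3, h2, poch_succ']
    have e : z * b ^ (-((M + 1 : ℕ) : ℤ)) * b = z * b ^ (-(M : ℤ)) := by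
      rw [mul_assoc, ← zpow_add_one₀ hb0]; congr 2; push_cast; ring
    rw [e, ← h1]
    rw [show (((M + 1 : ℕ) : ℤ)) = (M : ℤ) + 1 by push_cast; rfl]
    ring

theorem tc_mono_zero {b : F} (hb0 : b ≠ 0) (hb : ∀ i : ℕ, 0 < i → b ^ i ≠ 1) {M l N : ℕ}
    (hl : l < M) (hN : M < N) : ∑ k ∈ range N, tc b M k * (b ^ k * (b ^ k) ^ l) = 0 := by
  have h := qbinom hb0 hb M (b ^ (l + 1)) N hN
  have h1 : ∑ k ∈ range N, tc b M k * (b ^ k * (b ^ k) ^ l) =
      ∑ k ∈ range N, tc b M k * (b ^ (l + 1)) ^ k := by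
    refine sum_congr rfl fun k _ => ?_
    congr 1
    rw [← pow_succ', ← pow_mul, ← pow_mul, mul_comm]
  rw [h1, h]
  apply poch_eq_zero (i := M - 1 - l) (by omega)
  have e : (b ^ (l + 1) : F) = b ^ ((l + 1 : ℕ) : ℤ) := (zpow_natCast b (l + 1)).symm
  have e2 : (b ^ (M - 1 - l) : F) = b ^ ((M - 1 - l : ℕ) : ℤ) := (zpow_natCast b _).symm
  rw [e, e2, ← zpow_add₀ hb0, ← zpow_add₀ hb0]
  have : ((l + 1 : ℕ) : ℤ) + -(M : ℤ) + ((M - 1 - l : ℕ) : ℤ) = 0 := by
    omega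
  rw [this, zpow_zero]

/-- annihilation of polynomials of degree `< M` -/
theorem tc_poly_zero {b : F} (hb0 : b ≠ 0) (hb : ∀ i : ℕ, 0 < i → b ^ i ≠ 1) {M N : ℕ}
    (hN : M < N) (R : F[X]) (hR : R.natDegree < M) :
    ∑ k ∈ range N, tc b M k * (b ^ k * R.eval (b ^ k)) = 0 := by
  have : ∀ k, tc b M k * (b ^ k * R.eval (b ^ k)) =
      ∑ l ∈ range M, R.coeff l * (tc b M k * (b ^ k * (b ^ k) ^ l)) := by
    intro k
    rw [Polynomial.eval_eq_sum_range' hR, mul_sum, mul_sum]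
    refine sum_congr rfl fun l _ => ?_
    ring
  rw [sum_congr rfl fun k _ => this k, sum_comm]
  refine sum_eq_zero fun l hl => ?_
  rw [← mul_sum, tc_mono_zero hb0 hb (mem_range.1 hl) hN, mul_zero]

/-- `(b^c;b)_k/(b;b)_k` as a polynomial in `b^k`, `c ≥ 1`. -/
noncomputable def Rp (b : F) (c : ℕ) : F[X] :=
  C (poch b b (c - 1))⁻¹ * ∏ l ∈ range (c - 1), (1 - C (b ^ (l + 1)) * X)

theorem Rp_eval {b : F} (hb : ∀ i : ℕ, 0 < i → b ^ i ≠ 1) {c : ℕ} (hc : 0 < c) (k : ℕ) :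
    poch (b ^ c) b k / poch b b k = (Rp b c).eval (b ^ k) := by
  obtain ⟨c, rfl⟩ := Nat.exists_eq_succ_of_ne_zero hc.ne'
  have h1 := poch_self_ne hb k
  have h2 := poch_self_ne hb c
  have h3 : poch b b c * poch (b ^ (c + 1)) b k = poch b b k * poch (b ^ (k + 1)) b c := by
    have := poch_add b b c k
    rw [Nat.add_comm c k, poch_add b b k c, ← pow_succ', ← pow_succ'] at this
    rw [this]
  have h4 : (Rp b (c + 1)).eval (b ^ k) = (poch b b c)⁻¹ * poch (b ^ (k + 1)) b c := by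
    rw [Rp, eval_mul, eval_C, eval_prod]
    congr 1
    refine prod_congr rfl fun i _ => ?_
    simp only [eval_sub, eval_one, eval_mul, eval_C, eval_X]
    rw [← pow_add, ← pow_add]
    congr 2; omega
  rw [Nat.succ_eq_add_one, h4]
  field_simp
  rw [mul_comm, h3]

theorem Rp_deg (b : F) (c : ℕ) : (Rp b c).natDegree ≤ c - 1 := by
  unfold Rp
  refine (natDegree_C_mul_le _ _).trans ?_
  refine (natDegree_prod_le _ _).trans ?_
  refine (sum_le_card_nsmul _ _ 1 fun i _ => ?_).trans (by simp)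
  refine (natDegree_sub_le _ _).trans ?_
  rw [natDegree_one, max_le_iff]
  exact ⟨Nat.zero_le _, (natDegree_C_mul_le _ _).trans natDegree_X_le⟩

/-- the terminating `q`-Chu-Vandermonde sum -/
theorem qvand {b : F} (hb0 : b ≠ 0) (hb : ∀ i : ℕ, 0 < i → b ^ i ≠ 1) (M : ℕ) :
    ∀ (u c : F), (∀ i < M, c * b ^ i ≠ 1) → ∀ N, M < N →
      ∑ k ∈ range N, tc b M k * (poch u b k / poch c b k) * b ^ k =
        (∏ i ∈ range M, (u - c * b ^ i)) / poch c b M := by
  induction M with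
  | zero =>
    intro u c _ N hN
    obtain ⟨N, rfl⟩ := Nat.exists_eq_succ_of_ne_zero hN.ne'
    rw [Nat.succ_eq_add_one, sum_range_succ', tc_zero,
      sum_eq_zero (fun k _ => by rw [tc_gt hb0 (Nat.succ_pos _), zero_mul, zero_mul]), zero_add]
    simp [poch_zero]
  | succ M ih =>
    intro u c hc N hN
    have hc0 : 1 - c ≠ 0 := by
      have := hc 0 (Nat.succ_pos _)
      rw [pow_zero, mul_one] at this
      exact sub_ne_zero.2 this.symm
    have hcM : ∀ i < M, c * b * b ^ i ≠ 1 := by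
      intro i hi
      have := hc (i + 1) (by omega)
      rwa [pow_succ', ← mul_assoc] at this
    have hcM' : ∀ i < M, c * b ^ i ≠ 1 := fun i hi => hc i (by omega)
    obtain ⟨N, rfl⟩ := Nat.exists_eq_succ_of_ne_zero (Nat.zero_lt_of_lt hN).ne'
    rw [Nat.succ_eq_add_one, sum_range_succ', tc_zero]
    have h1 := ih u c hcM' (N + 1) (by omega)
    rw [sum_range_succ', tc_zero] at h1
    have h2 := ih (u * b) (c * b) hcM N (by omega)
    have h3 : ∑ k ∈ range N, tc b (M + 1) (k + 1) * (poch u b (k + 1) / poch c b (k + 1)) *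
          b ^ (k + 1) =
        ∑ k ∈ range N, tc b M (k + 1) * (poch u b (k + 1) / poch c b (k + 1)) * b ^ (k + 1) -
        (b ^ (-((M : ℤ) + 1)) * b * ((1 - u) / (1 - c))) *
          ∑ k ∈ range N, tc b M k * (poch (u * b) b k / poch (c * b) b k) * b ^ k := by
      rw [mul_sum, ← sum_sub_distrib]
      refine sum_congr rfl fun k _ => ?_
      rw [tc_rec hb0 hb, poch_succ' u, poch_succ' c, pow_succ, mul_div_mul_comm]; ring
    rw [h3, h2]
    have h4 : ∑ k ∈ range N, tc b M (k + 1) * (poch u b (k + 1) / poch c b (k + 1)) *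
        b ^ (k + 1) = (∏ i ∈ range M, (u - c * b ^ i)) / poch c b M -
          1 * (poch u b 0 / poch c b 0) * b ^ 0 := by
      rw [← h1]; ring
    rw [h4]
    have e1 : b ^ (-((M : ℤ) + 1)) * b = b ^ (-(M : ℤ)) := by
      rw [← zpow_add_one₀ hb0]; congr 1; ring
    have e2 : ∏ i ∈ range M, (u * b - c * b * b ^ i) = b ^ M * ∏ i ∈ range M, (u - c * b ^ i) := by
      have : ∀ i ∈ range M, u * b - c * b * b ^ i = b * (u - c * b ^ i) := fun i _ => by ring
      rw [prod_congr rfl this, prod_mul_distrib, prod_const, card_range]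
    have e3 : b ^ (-(M : ℤ)) * b ^ M = 1 := by
      rw [zpow_neg, zpow_natCast, inv_mul_cancel₀ (pow_ne_zero _ hb0)]
    have hp1 : poch c b M ≠ 0 := poch_ne hcM'
    have hp2 : poch (c * b) b M ≠ 0 := poch_ne hcM
    have hlast : 1 - c * b ^ M ≠ 0 := sub_ne_zero.2 (hc M (by omega)).symm
    have e4 : (1 - c) * poch (c * b) b M = poch c b M * (1 - c * b ^ M) := by
      rw [← poch_succ', poch_succ]
    rw [e1, e2, prod_range_succ, poch_succ c]
    have e5 : b ^ (-(M : ℤ)) * ((1 - u) / (1 - c)) *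
        (b ^ M * (∏ i ∈ range M, (u - c * b ^ i)) / poch (c * b) b M) =
        (1 - u) * (∏ i ∈ range M, (u - c * b ^ i)) / ((1 - c) * poch (c * b) b M) := by
      calc _ = (b ^ (-(M : ℤ)) * b ^ M) * ((1 - u) * (∏ i ∈ range M, (u - c * b ^ i)) /
            ((1 - c) * poch (c * b) b M)) := by field_simp
        _ = _ := by rw [e3, one_mul]
    rw [e5, e4]
    field_simp
    ring

end

end Pool.Agent.R439
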