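import Mathlib
import Pool.Agent.R439.QH

set_option autoImplicit false

/-!
First order recurrences in `b` for the truncated sums `∑ [4j+1] …` and `∑ [3j+1] …` with two
free parameters `a, b` (generic field version).
-/

namespace Pool.Agent.R439.AB

open Finset

variable {F : Type*} [Field F]

/-- the product part of the `[4j+1]`-summand -/
def PL (q a b : F) (N : ℕ) : F :=
  b ^ N * (poch q (q ^ 2) N * poch (a * q) (q ^ 2) N * poch (q / a) (q ^ 2) N *
    poch (q / b) (q ^ 2) N) /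
  (poch (q ^ 2) (q ^ 2) N * poch (a * q ^ 2) (q ^ 2) N * poch (q ^ 2 / a) (q ^ 2) N *
    poch (b * q ^ 2) (q ^ 2) N)

/-- the boundary term of the `[4j+1]`-sum -/
def BL (q a b : F) (N : ℕ) : F :=
  b * (1 - b * q ^ 2) / (1 - b * q ^ (2 * N + 2)) * ((1 - q ^ (2 * N + 1)) *
    (1 - a * q ^ (2 * N + 1)) * (1 - q ^ (2 * N + 1) / a)) * PL q a b N

/-- the product part of the `[3j+1]`-summand, with `(1/b;q)_N` in place of `(q/b;q)_N` -/
def PR' (q a b : F) (N : ℕ) : F :=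
  b ^ N / q ^ (N * (N + 1) / 2) * (poch q (q ^ 2) N * poch (a * q) (q ^ 2) N *
    poch (q / a) (q ^ 2) N * poch (1 / b) q N) /
  (poch q q N * poch (a * q) q N * poch (q / a) q N * poch (b * q ^ 2) (q ^ 2) N)

/-- the product part of the `[3j+1]`-summand -/
def PR (q a b : F) (N : ℕ) : F :=
  b ^ N / q ^ (N * (N + 1) / 2) * (poch q (q ^ 2) N * poch (a * q) (q ^ 2) N *
    poch (q / a) (q ^ 2) N * poch (q / b) q N) /
  (poch q q N * poch (a * q) q N * poch (q / a) q N * poch (b * q ^ 2) (q ^ 2) N)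

/-- the boundary term of the `[3j+1]`-sum -/
def BR (q a b : F) (N : ℕ) : F :=
  b * (1 - b * q ^ 2) / (1 - b * q ^ (2 * N + 2)) * ((1 - q ^ (2 * N + 1)) *
    (1 - a * q ^ (2 * N + 1)) * (1 - q ^ (2 * N + 1) / a)) * PR' q a b N

/-- the coefficients of the recurrence -/
def XX (q a b : F) : F := (1 - b * q / a) * (1 - a * b * q)
def YY (q b : F) : F := (1 - b) * (1 - b * q ^ 2)

theorem bq_poch (q b : F) (hb : b ≠ 0) (hq : q ≠ 0) (N : ℕ) :
    poch (q / (b * q ^ 2)) (q ^ 2) (N + 1) = (1 - 1 / (q * b)) * poch (q / b) (q ^ 2) N := by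
  rw [poch_succ']
  congr 1
  · congr 1; field_simp
  · congr 1; field_simp

theorem PL_succ {q a b : F} (N : ℕ) :
    PL q a b (N + 1) = PL q a b N * (b * ((1 - q ^ (2 * N + 1)) * (1 - a * q ^ (2 * N + 1)) *
      (1 - q ^ (2 * N + 1) / a) * (1 - q ^ (2 * N + 1) / b)) /
      ((1 - q ^ (2 * N + 2)) * (1 - a * q ^ (2 * N + 2)) * (1 - q ^ (2 * N + 2) / a) *
        (1 - b * q ^ (2 * N + 2)))) := by
  have q2 : (q ^ 2) ^ N = q ^ (2 * N) := by rw [pow_mul]
  simp only [PL, poch_succ, q2]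
  have e1 : q * q ^ (2 * N) = q ^ (2 * N + 1) := by ring
  have e2 : a * q * q ^ (2 * N) = a * q ^ (2 * N + 1) := by ring
  have e3 : q / a * q ^ (2 * N) = q ^ (2 * N + 1) / a := by ring
  have e4 : q / b * q ^ (2 * N) = q ^ (2 * N + 1) / b := by ring
  have e5 : q ^ 2 * q ^ (2 * N) = q ^ (2 * N + 2) := by ring
  have e6 : a * q ^ 2 * q ^ (2 * N) = a * q ^ (2 * N + 2) := by ring
  have e7 : q ^ 2 / a * q ^ (2 * N) = q ^ (2 * N + 2) / a := by ring
  have e8 : b * q ^ 2 * q ^ (2 * N) = b * q ^ (2 * N + 2) := by ring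
  rw [e1, e2, e3, e4, e5, e6, e7, e8, pow_succ b N, div_mul_div_comm]
  congr 1
  · ring
  · ring

theorem PL_shift {q a b : F} (hq : q ≠ 0) (hb : b ≠ 0)
    (h4 : 1 - b * q ^ 2 ≠ 0) (N : ℕ) :
    PL q a (b * q ^ 2) (N + 1) = PL q a b N * (b * q ^ (2 * N + 2) * ((1 - q ^ (2 * N + 1)) *
      (1 - a * q ^ (2 * N + 1)) * (1 - q ^ (2 * N + 1) / a) * (1 - 1 / (q * b)) * (1 - b * q ^ 2)) /
      ((1 - q ^ (2 * N + 2)) * (1 - a * q ^ (2 * N + 2)) * (1 - q ^ (2 * N + 2) / a) *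
        ((1 - b * q ^ (2 * N + 2)) * (1 - b * q ^ (2 * N + 4))))) := by
  have q2 : (q ^ 2) ^ N = q ^ (2 * N) := by rw [pow_mul]
  have e1' := bq_poch q b hb hq N
  have e2' : poch (b * q ^ 2 * q ^ 2) (q ^ 2) (N + 1) =
      poch (b * q ^ 2) (q ^ 2) N * ((1 - b * q ^ (2 * N + 2)) * (1 - b * q ^ (2 * N + 4))) /
        (1 - b * q ^ 2) := by
    rw [eq_div_iff h4]
    have := poch_succ' (b * q ^ 2) (q ^ 2) (N + 1)
    rw [mul_comm, ← this, poch_succ, poch_succ]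
    ring
  have e1 : q * q ^ (2 * N) = q ^ (2 * N + 1) := by ring
  have e2 : a * q * q ^ (2 * N) = a * q ^ (2 * N + 1) := by ring
  have e3 : q / a * q ^ (2 * N) = q ^ (2 * N + 1) / a := by ring
  have e5 : q ^ 2 * q ^ (2 * N) = q ^ (2 * N + 2) := by ring
  have e6 : a * q ^ 2 * q ^ (2 * N) = a * q ^ (2 * N + 2) := by ring
  have e7 : q ^ 2 / a * q ^ (2 * N) = q ^ (2 * N + 2) / a := by ring
  have hbN : (b * q ^ 2) ^ (N + 1) = b ^ N * (b * q ^ (2 * N + 2)) := by ring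
  simp only [PL]
  rw [e1', e2', hbN]
  simp only [poch_succ, q2]
  rw [e1, e2, e3, e5, e6, e7, div_mul_div_comm, mul_div_assoc', div_div_eq_mul_div]
  congr 1
  · ring
  · ring

theorem algL {P A D c4 c5 c6 b X Y L Qv S1 S2 A3 : F} (hD : D ≠ 0) (h4 : c4 ≠ 0) (h5 : c5 ≠ 0)
    (core : X * L * Qv * S1 - Y * L * S2 * c5 = A3 * b * S2 - D * c5) :
    X * (L * (P * (b * Qv * (A * S1 * c6) / (D * (c4 * c5))))) -
      Y * c6 * (L * (P * (b * (A * S2) / (D * c4)))) =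
    b * c6 / c5 * A3 * (P * (b * (A * S2) / (D * c4))) - b * c6 / c4 * A * P := by
  field_simp
  linear_combination (P * b * A * c6) * core

theorem coreL {q a b Q : F} (hq : q ≠ 0) (ha : a ≠ 0) (hb : b ≠ 0) :
    (1 - b * q / a) * (1 - a * b * q) * (1 - Q ^ 2 * q ^ 5) * (Q * q ^ 2) * (1 - 1 / (q * b)) -
      (1 - b) * (1 - Q ^ 2 * q ^ 5) * (1 - Q * q / b) * (1 - b * (Q * q ^ 4)) =
    (1 - Q * q ^ 3) * (1 - a * (Q * q ^ 3)) * (1 - Q * q ^ 3 / a) * b * (1 - Q * q / b) -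
      (1 - Q * q ^ 2) * (1 - a * (Q * q ^ 2)) * (1 - Q * q ^ 2 / a) * (1 - b * (Q * q ^ 4)) := by
  field_simp
  ring

theorem L_rec {q a b : F} (hq : q ≠ 0) (ha : a ≠ 0) (hb : b ≠ 0) {T : ℕ}
    (h1 : ∀ i : ℕ, 0 < i → i ≤ T → q ^ (2 * i) ≠ 1) (h2 : ∀ i : ℕ, 0 < i → i ≤ T → a * q ^ (2 * i) ≠ 1)
    (h3 : ∀ i : ℕ, 0 < i → i ≤ T → q ^ (2 * i) / a ≠ 1)
    (h4 : ∀ i : ℕ, 0 < i → i ≤ T + 1 → b * q ^ (2 * i) ≠ 1) (N : ℕ) (hN : N ≤ T) :
    XX q a b * ∑ j ∈ range (N + 1), (1 - q ^ (4 * j + 1)) * PL q a (b * q ^ 2) j -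
      YY q b * ∑ j ∈ range (N + 1), (1 - q ^ (4 * j + 1)) * PL q a b j = BL q a b N := by
  induction N with
  | zero =>
    have h := h4 1 one_pos (by omega)
    simp only [PL, BL, XX, YY, poch_zero, sum_range_succ, sum_range_zero, pow_zero, mul_zero,
      zero_add, mul_one, div_one, pow_one]
    rw [mul_one] at h
    have h' : 1 - b * q ^ 2 ≠ 0 := sub_ne_zero.2 (Ne.symm h)
    field_simp
    ring
  | succ N ih =>
    have ih := ih (by omega)
    rw [sum_range_succ, sum_range_succ (fun j => (1 - q ^ (4 * j + 1)) * PL q a b j)]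
    have key : XX q a b * ((1 - q ^ (4 * (N + 1) + 1)) * PL q a (b * q ^ 2) (N + 1)) -
        YY q b * ((1 - q ^ (4 * (N + 1) + 1)) * PL q a b (N + 1)) =
        BL q a b (N + 1) - BL q a b N := by
      have c1 := sub_ne_zero.2 (Ne.symm (h1 (N + 1) (by omega) hN))
      have c2 := sub_ne_zero.2 (Ne.symm (h2 (N + 1) (by omega) hN))
      have c3 := sub_ne_zero.2 (Ne.symm (h3 (N + 1) (by omega) hN))
      have c4 := sub_ne_zero.2 (Ne.symm (h4 (N + 1) (by omega) (by omega)))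
      have c5 := sub_ne_zero.2 (Ne.symm (h4 (N + 2) (by omega) (by omega)))
      have c6 := sub_ne_zero.2 (Ne.symm (h4 1 (by omega) (by omega)))
      rw [mul_one] at c6
      rw [BL, BL, PL_shift hq hb c6, PL_succ]
      simp only [XX, YY]
      rw [show 2 * (N + 1) = 2 * N + 2 by ring] at c1 c2 c3 c4
      rw [show 2 * (N + 2) = 2 * N + 4 by ring] at c5
      rw [show 2 * (N + 1) + 2 = 2 * N + 4 by ring, show 2 * (N + 1) + 1 = 2 * N + 3 by ring,
        show 4 * (N + 1) + 1 = 4 * N + 5 by ring]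
      generalize PL q a b N = P at *
      have p1 : q ^ (2 * N + 1) = q ^ (2 * N) * q := pow_succ _ _
      have p2 : q ^ (2 * N + 2) = q ^ (2 * N) * q ^ 2 := pow_add _ _ _
      have p3 : q ^ (2 * N + 3) = q ^ (2 * N) * q ^ 3 := pow_add _ _ _
      have p4 : q ^ (2 * N + 4) = q ^ (2 * N) * q ^ 4 := pow_add _ _ _
      have p5 : q ^ (4 * N + 5) = (q ^ (2 * N)) ^ 2 * q ^ 5 := by ring
      rw [p2] at c1 c2 c3 c4
      rw [p4] at c5
      rw [p1, p2, p3, p4, p5]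
      generalize q ^ (2 * N) = Q at *
      exact algL (mul_ne_zero (mul_ne_zero c1 c2) c3) c4 c5 (coreL hq ha hb)
    linear_combination ih + key

theorem tri_succ (N : ℕ) : (N + 1) * (N + 1 + 1) / 2 = N * (N + 1) / 2 + (N + 1) := by
  have h : (N + 1) * (N + 1 + 1) = N * (N + 1) + (N + 1) * 2 := by ring
  rw [h, Nat.add_mul_div_right _ _ two_pos]

theorem PR'_succ {q a b : F} (N : ℕ) :
    PR' q a b (N + 1) = PR' q a b N * (b * (((1 - q ^ (2 * N + 1)) * (1 - a * q ^ (2 * N + 1)) *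
      (1 - q ^ (2 * N + 1) / a)) * (1 / q ^ (N + 1) * (1 - q ^ N / b))) /
      (((1 - q ^ (N + 1)) * (1 - a * q ^ (N + 1)) * (1 - q ^ (N + 1) / a)) *
        (1 - b * q ^ (2 * N + 2)))) := by
  have q2 : (q ^ 2) ^ N = q ^ (2 * N) := by rw [pow_mul]
  simp only [PR', poch_succ, q2, tri_succ, pow_add q (N * (N + 1) / 2) (N + 1)]
  have e1 : q * q ^ (2 * N) = q ^ (2 * N + 1) := by ring
  have e2 : a * q * q ^ (2 * N) = a * q ^ (2 * N + 1) := by ring
  have e3 : q / a * q ^ (2 * N) = q ^ (2 * N + 1) / a := by ring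
  have e4 : 1 / b * q ^ N = q ^ N / b := by ring
  have e5 : q * q ^ N = q ^ (N + 1) := by ring
  have e6 : a * q * q ^ N = a * q ^ (N + 1) := by ring
  have e7 : q / a * q ^ N = q ^ (N + 1) / a := by ring
  have e8 : b * q ^ 2 * q ^ (2 * N) = b * q ^ (2 * N + 2) := by ring
  rw [e1, e2, e3, e4, e5, e6, e7, e8, pow_succ b N, div_mul_div_comm]
  generalize (1 - q ^ (2 * N + 1)) = x1
  generalize (1 - a * q ^ (2 * N + 1)) = x2
  generalize (1 - q ^ (2 * N + 1) / a) = x3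
  generalize (1 - q ^ N / b) = x4
  generalize (1 - q ^ (N + 1)) = x5
  generalize (1 - a * q ^ (N + 1)) = x6
  generalize (1 - q ^ (N + 1) / a) = x7
  generalize (1 - b * q ^ (2 * N + 2)) = x8
  generalize q ^ (N * (N + 1) / 2) = t
  generalize q ^ (N + 1) = u
  congr 1
  · rw [one_div, div_eq_mul_inv, mul_inv]
    ring
  · ring

theorem PR_succ {q a b : F} (hb : b ≠ 0) (N : ℕ) :
    (1 - b) * PR q a b (N + 1) = PR' q a b N * (b * (((1 - q ^ (2 * N + 1)) *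
      (1 - a * q ^ (2 * N + 1)) * (1 - q ^ (2 * N + 1) / a)) *
      (1 / q ^ (N + 1) * (-b * ((1 - q ^ N / b) * (1 - q ^ (N + 1) / b))))) /
      (((1 - q ^ (N + 1)) * (1 - a * q ^ (N + 1)) * (1 - q ^ (N + 1) / a)) *
        (1 - b * q ^ (2 * N + 2)))) := by
  have q2 : (q ^ 2) ^ N = q ^ (2 * N) := by rw [pow_mul]
  have hp : (1 - b) * poch (q / b) q (N + 1) =
      poch (1 / b) q N * (-b * ((1 - q ^ N / b) * (1 - q ^ (N + 1) / b))) := by
    have h1 := poch_succ' (1 / b) q (N + 1)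
    rw [one_div_mul_eq_div] at h1
    have h2 : (1 - b) * poch (q / b) q (N + 1) = -b * ((1 - 1 / b) * poch (q / b) q (N + 1)) := by
      field_simp
      ring
    rw [h2, ← h1, poch_succ, poch_succ]
    ring
  have hN : (1 - b) * PR q a b (N + 1) = b ^ (N + 1) / q ^ ((N + 1) * (N + 1 + 1) / 2) *
      (poch q (q ^ 2) (N + 1) * poch (a * q) (q ^ 2) (N + 1) *
    poch (q / a) (q ^ 2) (N + 1) * ((1 - b) * poch (q / b) q (N + 1))) /
  (poch q q (N + 1) * poch (a * q) q (N + 1) * poch (q / a) q (N + 1) *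
    poch (b * q ^ 2) (q ^ 2) (N + 1)) := by
    rw [PR]; ring
  rw [hN, hp]
  simp only [PR', poch_succ, q2, tri_succ, pow_add q (N * (N + 1) / 2) (N + 1)]
  have e1 : q * q ^ (2 * N) = q ^ (2 * N + 1) := by ring
  have e2 : a * q * q ^ (2 * N) = a * q ^ (2 * N + 1) := by ring
  have e3 : q / a * q ^ (2 * N) = q ^ (2 * N + 1) / a := by ring
  have e5 : q * q ^ N = q ^ (N + 1) := by ring
  have e6 : a * q * q ^ N = a * q ^ (N + 1) := by ring
  have e7 : q / a * q ^ N = q ^ (N + 1) / a := by ring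
  have e8 : b * q ^ 2 * q ^ (2 * N) = b * q ^ (2 * N + 2) := by ring
  rw [e1, e2, e3, e5, e6, e7, e8, pow_succ b N, div_mul_div_comm]
  generalize (1 - q ^ (2 * N + 1)) = x1
  generalize (1 - a * q ^ (2 * N + 1)) = x2
  generalize (1 - q ^ (2 * N + 1) / a) = x3
  generalize (1 - q ^ N / b) = x4
  generalize (1 - q ^ (N + 1) / b) = x9
  generalize (1 - q ^ (N + 1)) = x5
  generalize (1 - a * q ^ (N + 1)) = x6
  generalize (1 - q ^ (N + 1) / a) = x7
  generalize (1 - b * q ^ (2 * N + 2)) = x8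
  generalize q ^ (N * (N + 1) / 2) = t
  generalize q ^ (N + 1) = u
  congr 1
  · rw [one_div, div_eq_mul_inv, mul_inv]
    ring
  · ring

theorem PR_shift {q a b : F} (hq : q ≠ 0) (hb : b ≠ 0)
    (h4 : 1 - b * q ^ 2 ≠ 0) (N : ℕ) :
    PR q a (b * q ^ 2) (N + 1) = PR' q a b N * (b * q ^ (N + 1) * (((1 - q ^ (2 * N + 1)) *
      (1 - a * q ^ (2 * N + 1)) * (1 - q ^ (2 * N + 1) / a)) * (1 - 1 / (q * b)) * (1 - b * q ^ 2)) /
      (((1 - q ^ (N + 1)) * (1 - a * q ^ (N + 1)) * (1 - q ^ (N + 1) / a)) *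
        ((1 - b * q ^ (2 * N + 2)) * (1 - b * q ^ (2 * N + 4))))) := by
  have q2 : (q ^ 2) ^ N = q ^ (2 * N) := by rw [pow_mul]
  have e1' : poch (q / (b * q ^ 2)) q (N + 1) = (1 - 1 / (q * b)) * poch (1 / b) q N := by
    rw [poch_succ']
    congr 1
    · congr 1; field_simp
    · congr 1; field_simp
  have e2' : poch (b * q ^ 2 * q ^ 2) (q ^ 2) (N + 1) =
      poch (b * q ^ 2) (q ^ 2) N * ((1 - b * q ^ (2 * N + 2)) * (1 - b * q ^ (2 * N + 4))) /
        (1 - b * q ^ 2) := by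
    rw [eq_div_iff h4]
    have := poch_succ' (b * q ^ 2) (q ^ 2) (N + 1)
    rw [mul_comm, ← this, poch_succ, poch_succ]
    ring
  have e1 : q * q ^ (2 * N) = q ^ (2 * N + 1) := by ring
  have e2 : a * q * q ^ (2 * N) = a * q ^ (2 * N + 1) := by ring
  have e3 : q / a * q ^ (2 * N) = q ^ (2 * N + 1) / a := by ring
  have e5 : q * q ^ N = q ^ (N + 1) := by ring
  have e6 : a * q * q ^ N = a * q ^ (N + 1) := by ring
  have e7 : q / a * q ^ N = q ^ (N + 1) / a := by ring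
  have hbN : (b * q ^ 2) ^ (N + 1) = b ^ N * (b * (q ^ (N + 1) * q ^ (N + 1))) := by ring
  simp only [PR, PR']
  rw [e1', e2', hbN]
  simp only [poch_succ, q2, tri_succ, pow_add q (N * (N + 1) / 2) (N + 1)]
  rw [e1, e2, e3, e5, e6, e7, div_mul_div_comm, mul_div_assoc', div_div_eq_mul_div]
  have hu : q ^ (N + 1) ≠ 0 := pow_ne_zero _ hq
  have ht : q ^ (N * (N + 1) / 2) ≠ 0 := pow_ne_zero _ hq
  generalize (1 - q ^ (2 * N + 1)) = x1
  generalize (1 - a * q ^ (2 * N + 1)) = x2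
  generalize (1 - q ^ (2 * N + 1) / a) = x3
  generalize (1 - 1 / (q * b)) = x4
  generalize (1 - q ^ (N + 1)) = x5
  generalize (1 - a * q ^ (N + 1)) = x6
  generalize (1 - q ^ (N + 1) / a) = x7
  generalize (1 - b * q ^ (2 * N + 2)) = x8
  generalize (1 - b * q ^ (2 * N + 4)) = x9
  generalize q ^ (N * (N + 1) / 2) = t at *
  generalize q ^ (N + 1) = u at *
  congr 1
  · have : b ^ N * (b * (u * u)) / (t * u) = b ^ N / t * (b * u) := by
      field_simp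
    rw [this]
    ring
  · ring

theorem algR {P A D c4 c5 c6 b X L Qv S1 S2 S3 A3 : F} (hD : D ≠ 0) (h4 : c4 ≠ 0) (h5 : c5 ≠ 0)
    (core : X * L * Qv * S1 - L * S2 * c5 = A3 * b * S3 - D * c5) :
    X * (L * (P * (b * Qv * (A * S1 * c6) / (D * (c4 * c5))))) -
      c6 * (L * (P * (b * (A * S2) / (D * c4)))) =
    b * c6 / c5 * A3 * (P * (b * (A * S3) / (D * c4))) - b * c6 / c4 * A * P := by
  field_simp
  linear_combination (P * b * A * c6) * core

theorem coreR {q a b Q : F} (hq : q ≠ 0) (ha : a ≠ 0) (hb : b ≠ 0) (hQ : Q ≠ 0) :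
    (1 - b * q / a) * (1 - a * b * q) * (1 - Q ^ 3 * q ^ 4) * (Q * q) * (1 - 1 / (q * b)) -
      (1 - Q ^ 3 * q ^ 4) * (1 / (Q * q) * (-b * ((1 - Q / b) * (1 - Q * q / b)))) *
        (1 - b * (Q ^ 2 * q ^ 4)) =
    ((1 - Q ^ 2 * q ^ 3) * (1 - a * (Q ^ 2 * q ^ 3)) * (1 - Q ^ 2 * q ^ 3 / a)) * b *
        (1 / (Q * q) * (1 - Q / b)) -
      ((1 - Q * q) * (1 - a * (Q * q)) * (1 - Q * q / a)) * (1 - b * (Q ^ 2 * q ^ 4)) := by
  field_simp
  ring

theorem R_rec {q a b : F} (hq : q ≠ 0) (ha : a ≠ 0) (hb : b ≠ 0) {T : ℕ}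
    (h1 : ∀ i : ℕ, 0 < i → i ≤ T → q ^ i ≠ 1) (h2 : ∀ i : ℕ, 0 < i → i ≤ T → a * q ^ i ≠ 1)
    (h3 : ∀ i : ℕ, 0 < i → i ≤ T → q ^ i / a ≠ 1)
    (h4 : ∀ i : ℕ, 0 < i → i ≤ T + 1 → b * q ^ (2 * i) ≠ 1) (N : ℕ) (hN : N ≤ T) :
    XX q a b * ∑ j ∈ range (N + 1), (1 - q ^ (3 * j + 1)) * PR q a (b * q ^ 2) j -
      YY q b * ∑ j ∈ range (N + 1), (1 - q ^ (3 * j + 1)) * PR q a b j = BR q a b N := by
  induction N with
  | zero =>
    have h := h4 1 one_pos (by omega)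
    simp only [PR, PR', BR, XX, YY, poch_zero, sum_range_succ, sum_range_zero, pow_zero, mul_zero,
      zero_add, mul_one, div_one, pow_one, zero_mul, Nat.zero_div]
    rw [mul_one] at h
    have h' : 1 - b * q ^ 2 ≠ 0 := sub_ne_zero.2 (Ne.symm h)
    field_simp
    ring
  | succ N ih =>
    have ih := ih (by omega)
    rw [sum_range_succ, sum_range_succ (fun j => (1 - q ^ (3 * j + 1)) * PR q a b j)]
    have key : XX q a b * ((1 - q ^ (3 * (N + 1) + 1)) * PR q a (b * q ^ 2) (N + 1)) -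
        YY q b * ((1 - q ^ (3 * (N + 1) + 1)) * PR q a b (N + 1)) =
        BR q a b (N + 1) - BR q a b N := by
      have c1 := sub_ne_zero.2 (Ne.symm (h1 (N + 1) (by omega) hN))
      have c2 := sub_ne_zero.2 (Ne.symm (h2 (N + 1) (by omega) hN))
      have c3 := sub_ne_zero.2 (Ne.symm (h3 (N + 1) (by omega) hN))
      have c4 := sub_ne_zero.2 (Ne.symm (h4 (N + 1) (by omega) (by omega)))
      have c5 := sub_ne_zero.2 (Ne.symm (h4 (N + 2) (by omega) (by omega)))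
      have c6 := sub_ne_zero.2 (Ne.symm (h4 1 (by omega) (by omega)))
      rw [mul_one] at c6
      have hY : YY q b * ((1 - q ^ (3 * (N + 1) + 1)) * PR q a b (N + 1)) =
          (1 - b * q ^ 2) * ((1 - q ^ (3 * (N + 1) + 1)) * ((1 - b) * PR q a b (N + 1))) := by
        rw [YY]; ring
      rw [hY, BR, BR, PR_shift hq hb c6, PR_succ hb, PR'_succ]
      simp only [XX]
      rw [show 2 * (N + 1) = 2 * N + 2 by ring] at c4
      rw [show 2 * (N + 2) = 2 * N + 4 by ring] at c5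
      rw [show 2 * (N + 1) + 2 = 2 * N + 4 by ring, show 2 * (N + 1) + 1 = 2 * N + 3 by ring,
        show 3 * (N + 1) + 1 = 3 * N + 4 by ring]
      generalize PR' q a b N = P at *
      have p0 : q ^ (N + 1) = q ^ N * q := pow_succ _ _
      have p1 : q ^ (2 * N + 1) = (q ^ N) ^ 2 * q := by ring
      have p2 : q ^ (2 * N + 2) = (q ^ N) ^ 2 * q ^ 2 := by ring
      have p3 : q ^ (2 * N + 3) = (q ^ N) ^ 2 * q ^ 3 := by ring
      have p4 : q ^ (2 * N + 4) = (q ^ N) ^ 2 * q ^ 4 := by ring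
      have p5 : q ^ (3 * N + 4) = (q ^ N) ^ 3 * q ^ 4 := by ring
      have hQ : q ^ N ≠ 0 := pow_ne_zero _ hq
      rw [p0] at c1 c2 c3
      rw [p2] at c4
      rw [p4] at c5
      rw [p0, p1, p2, p3, p4, p5]
      generalize q ^ N = Q at *
      exact algR (mul_ne_zero (mul_ne_zero c1 c2) c3) c4 c5 (coreR hq ha hb hQ)
    linear_combination ih + key

end Pool.Agent.R439.AB
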