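import Mathlib
import Pool.Agent.R439.QH

set_option autoImplicit false

/-!
Divisibility by `[n]` and by `[n] Φ_n^2`.
-/

namespace Pool.Agent.R439

open Finset Polynomial

theorem geom_dvd {n : ℕ} (hn : 0 < n) {A : ℚ[X]} (h : ∀ m, m ∣ n → 1 < m → cyclotomic m ℚ ∣ A) :
    (∑ i ∈ range n, (X : ℚ[X]) ^ i) ∣ A := by
  rw [← prod_cyclotomic_eq_geom_sum hn ℚ]
  refine Finset.prod_dvd_of_coprime ?_ fun i hi => ?_
  · intro i _ j _ hij
    exact cyclotomic.isCoprime_rat hij
  · have h1 := mem_erase.1 hi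
    have h2 := Nat.dvd_of_mem_divisors h1.2
    have h3 : 0 < i := Nat.pos_of_mem_divisors h1.2
    exact h i h2 (by omega)

theorem geom_sq_dvd {n : ℕ} (hn : 1 < n) {A : ℚ[X]} (h : ∀ m, m ∣ n → 1 < m → cyclotomic m ℚ ∣ A)
    (h3 : cyclotomic n ℚ ^ 3 ∣ A) :
    (∑ i ∈ range n, (X : ℚ[X]) ^ i) * cyclotomic n ℚ ^ 2 ∣ A := by
  have hmem : n ∈ n.divisors.erase 1 := by
    rw [mem_erase, Nat.mem_divisors]
    exact ⟨by omega, dvd_rfl, by omega⟩
  have e1 : (∑ i ∈ range n, (X : ℚ[X]) ^ i) * cyclotomic n ℚ ^ 2 =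
      ∏ i ∈ n.divisors.erase 1, (if i = n then cyclotomic i ℚ ^ 3 else cyclotomic i ℚ) := by
    rw [← prod_cyclotomic_eq_geom_sum (by omega : 0 < n) ℚ, ← mul_prod_erase _ _ hmem,
      ← mul_prod_erase _ (fun i => if i = n then cyclotomic i ℚ ^ 3 else cyclotomic i ℚ) hmem,
      if_pos rfl]
    have : ∏ x ∈ (n.divisors.erase 1).erase n, (if x = n then cyclotomic x ℚ ^ 3 else
        cyclotomic x ℚ) = ∏ x ∈ (n.divisors.erase 1).erase n, cyclotomic x ℚ :=
      prod_congr rfl fun x hx => if_neg (mem_erase.1 hx).1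
    rw [this]
    ring
  rw [e1]
  refine Finset.prod_dvd_of_coprime ?_ fun i hi => ?_
  · intro i _ j _ hij
    have hc := cyclotomic.isCoprime_rat hij
    show IsCoprime (if i = n then cyclotomic i ℚ ^ 3 else cyclotomic i ℚ)
      (if j = n then cyclotomic j ℚ ^ 3 else cyclotomic j ℚ)
    split_ifs
    · exact hc.pow
    · exact hc.pow_left
    · exact hc.pow_right
    · exact hc
  · split_ifs with hin
    · subst hin; exact h3
    · have h1 := mem_erase.1 hi
      have h2 := Nat.dvd_of_mem_divisors h1.2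
      have h3 : 0 < i := Nat.pos_of_mem_divisors h1.2
      exact h i h2 (by omega)

theorem poch_double {F : Type*} [Field F] (a b : F) (k : ℕ) :
    poch a b (2 * k) = poch a (b ^ 2) k * poch (a * b) (b ^ 2) k := by
  induction k with
  | zero => simp [poch]
  | succ k ih =>
    rw [show 2 * (k + 1) = 2 * k + 1 + 1 by ring, poch_succ, poch_succ, ih, poch_succ, poch_succ]
    have e1 : a * (b ^ 2) ^ k = a * b ^ (2 * k) := by rw [← pow_mul]
    have e2 : a * b * (b ^ 2) ^ k = a * b ^ (2 * k + 1) := by rw [← pow_mul]; ring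
    rw [e1, e2]
    ring

end Pool.Agent.R439
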