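import Mathlib
import Pool.Agent.R439.Geom

set_option autoImplicit false

/-!
Gaussian binomials and the products `(q;q^2)_j/(q;q)_j`, `(q;q^2)_j/(q^2;q^2)_j`.
-/

namespace Pool.Agent.R439

open Finset

/-- Gaussian binomial coefficients -/
def gb {R : Type*} [CommRing R] (x : R) : ℕ → ℕ → R
  | _, 0 => 1
  | 0, _ + 1 => 0
  | n + 1, k + 1 => gb x n k + x ^ (k + 1) * gb x n (k + 1)

theorem gb_zero {R : Type*} [CommRing R] (x : R) (n : ℕ) : gb x n 0 = 1 := by cases n <;> rfl

theorem gb_gt {R : Type*} [CommRing R] (x : R) : ∀ n k : ℕ, n < k → gb x n k = 0 := by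
  intro n
  induction n with
  | zero => intro k hk; obtain ⟨k, rfl⟩ : ∃ m, k = m + 1 := ⟨k - 1, by omega⟩; rfl
  | succ n ih =>
    intro k hk
    obtain ⟨k, rfl⟩ : ∃ m, k = m + 1 := ⟨k - 1, by omega⟩
    rw [gb, ih k (by omega), ih (k + 1) (by omega)]; ring

theorem gb_map {R S : Type*} [CommRing R] [CommRing S] (f : R →+* S) (x : R) :
    ∀ n k : ℕ, f (gb x n k) = gb (f x) n k := by
  intro n
  induction n with
  | zero => intro k; cases k <;> simp [gb]
  | succ n ih =>
    intro k
    cases k with
    | zero => simp [gb]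
    | succ k => rw [gb, gb, map_add, map_mul, map_pow, ih, ih]

theorem gb_mem {R : Type*} [CommRing R] (S : Subring R) {x : R} (hx : x ∈ S) :
    ∀ n k : ℕ, gb x n k ∈ S := by
  intro n
  induction n with
  | zero => intro k; cases k <;> simp [gb, one_mem, zero_mem]
  | succ n ih =>
    intro k
    cases k with
    | zero => simp [gb, one_mem]
    | succ k => exact add_mem (ih k) (mul_mem (pow_mem hx _) (ih (k + 1)))

theorem gb_poch {F : Type*} [Field F] (x : F) : ∀ n k : ℕ, k ≤ n →
    gb x n k * (poch x x k * poch x x (n - k)) = poch x x n := by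
  intro n
  induction n with
  | zero => intro k hk; obtain rfl : k = 0 := by omega
            simp [gb, poch]
  | succ n ih =>
    intro k hk
    cases k with
    | zero => simp [gb, poch]
    | succ k =>
      have h1 := ih k (by omega)
      rw [gb, show n + 1 - (k + 1) = n - k by omega]
      rcases Nat.lt_or_ge k n with h | h
      · have h2 := ih (k + 1) (by omega)
        obtain ⟨m, hm⟩ : ∃ m, n - k = m + 1 := ⟨n - k - 1, by omega⟩
        rw [show n - (k + 1) = m by omega] at h2
        rw [hm] at h1 ⊢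
        rw [poch_succ x x k, poch_succ x x m] at *
        rw [poch_succ x x n]
        have hn : n = k + m + 1 := by omega
        have e1 : x * x ^ n = x ^ (k + 1) * x ^ (m + 1) := by rw [hn]; ring
        have e2 : x * x ^ k = x ^ (k + 1) := by ring
        have e3 : x * x ^ m = x ^ (m + 1) := by ring
        rw [e1]
        rw [e2, e3] at *
        linear_combination (1 - x ^ (k + 1)) * h1 + x ^ (k + 1) * (1 - x ^ (m + 1)) * h2
      · obtain rfl : k = n := by omega
        rw [gb_gt x k (k + 1) (by omega)]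
        rw [Nat.sub_self] at h1 ⊢
        rw [poch_succ, poch_zero] at *
        linear_combination (1 - x * x ^ k) * h1

theorem poch_neg {F : Type*} [Field F] (x : F) (j : ℕ) :
    poch (x ^ 2) (x ^ 2) j = poch x x j * poch (-x) x j := by
  induction j with
  | zero => simp [poch]
  | succ j ih =>
    rw [poch_succ, poch_succ, poch_succ, ih]
    ring

theorem poch_two {F : Type*} [Field F] (x : F) (j : ℕ) :
    poch x x (2 * j) = poch x (x ^ 2) j * poch (x ^ 2) (x ^ 2) j := by
  induction j with
  | zero => simp [poch]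
  | succ j ih =>
    rw [show 2 * (j + 1) = 2 * j + 1 + 1 by ring, poch_succ, poch_succ, ih, poch_succ, poch_succ]
    ring

/-- `(x;x^2)_j/(x;x)_j` -/
theorem ratio_one {F : Type*} [Field F] {x : F} (hx : ∀ i : ℕ, 0 < i → x ^ i ≠ 1) (j : ℕ) :
    poch x (x ^ 2) j / poch x x j * poch (-x) x j = gb x (2 * j) j := by
  have h1 := gb_poch x (2 * j) j (by omega)
  rw [show 2 * j - j = j by omega, poch_two, poch_neg] at h1
  have h2 := poch_self_ne hx j
  have h3 : poch (-x) x j * poch x x j ≠ 0 := by
    rw [mul_comm, ← poch_neg]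
    exact poch_self_ne (fun i hi => by rw [← pow_mul]; exact hx _ (by omega)) j
  have h4 := left_ne_zero_of_mul h3
  field_simp
  apply mul_right_cancel₀ h2
  linear_combination (-1) * h1

/-- `(x;x^2)_j/(x^2;x^2)_j` -/
theorem ratio_two {F : Type*} [Field F] {x : F} (hx : ∀ i : ℕ, 0 < i → x ^ i ≠ 1) (j : ℕ) :
    poch x (x ^ 2) j / poch (x ^ 2) (x ^ 2) j * poch (-x) x j ^ 2 = gb x (2 * j) j := by
  rw [← ratio_one hx, poch_neg]
  have h3 : poch (-x) x j * poch x x j ≠ 0 := by
    rw [mul_comm, ← poch_neg]
    exact poch_self_ne (fun i hi => by rw [← pow_mul]; exact hx _ (by omega)) j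
  have h4 := left_ne_zero_of_mul h3
  have h2 := poch_self_ne hx j
  field_simp

end Pool.Agent.R439
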