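import Mathlib

set_option autoImplicit false

/-!
Congruences modulo powers of a prime element in the fraction field of a domain.
-/

namespace Pool.Agent.R439.GL

open Finset

variable {R : Type*} [CommRing R] [IsDomain R] {K : Type*} [Field K] [Algebra R K]
  [IsFractionRing R K]

theorem am_ne {d : R} (hd : d ≠ 0) : algebraMap R K d ≠ 0 := by
  rwa [Ne, IsFractionRing.to_map_eq_zero_iff]

/-- the local ring at `π` -/
def O (K : Type*) [Field K] [Algebra R K] [IsFractionRing R K] (π : R) [hπ : Fact (Prime π)] :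
    Subring K where
  carrier := {x | ∃ c d : R, ¬ π ∣ d ∧ x = algebraMap R K c / algebraMap R K d}
  zero_mem' := ⟨0, 1, hπ.out.not_dvd_one, by simp⟩
  one_mem' := ⟨1, 1, hπ.out.not_dvd_one, by simp⟩
  add_mem' := by
    rintro x y ⟨c, d, hd, rfl⟩ ⟨c', d', hd', rfl⟩
    refine ⟨c * d' + d * c', d * d', fun h => (hπ.out.dvd_or_dvd h).elim hd hd', ?_⟩
    have h1 : algebraMap R K d ≠ 0 := am_ne (fun h => hd (h ▸ dvd_zero _))
    have h2 : algebraMap R K d' ≠ 0 := am_ne (fun h => hd' (h ▸ dvd_zero _))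
    rw [div_add_div _ _ h1 h2, map_add, map_mul, map_mul, map_mul]
  mul_mem' := by
    rintro x y ⟨c, d, hd, rfl⟩ ⟨c', d', hd', rfl⟩
    refine ⟨c * c', d * d', fun h => (hπ.out.dvd_or_dvd h).elim hd hd', ?_⟩
    rw [map_mul, map_mul, div_mul_div_comm]
  neg_mem' := by
    rintro x ⟨c, d, hd, rfl⟩
    exact ⟨-c, d, hd, by rw [map_neg, neg_div]⟩

variable {π : R} [hπ : Fact (Prime π)]

theorem mem_am (c : R) : algebraMap R K c ∈ O K π := ⟨c, 1, hπ.out.not_dvd_one, by simp⟩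

theorem inv_mem_am {d : R} (hd : ¬ π ∣ d) : (algebraMap R K d)⁻¹ ∈ O K π :=
  ⟨1, d, hd, by simp⟩

/-- divisibility by `π^k` in the local ring -/
def I (K : Type*) [Field K] [Algebra R K] [IsFractionRing R K] (π : R) [Fact (Prime π)] (k : ℕ)
    (x : K) : Prop := ∃ y ∈ O K π, x = algebraMap R K π ^ k * y

variable {k l : ℕ} {x y z : K}

theorem I.zero : I K π k (0 : K) := ⟨0, zero_mem _, by ring⟩

theorem I.add (hx : I K π k x) (hy : I K π k y) : I K π k (x + y) := by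
  obtain ⟨a, ha, rfl⟩ := hx
  obtain ⟨b, hb, rfl⟩ := hy
  exact ⟨a + b, add_mem ha hb, by ring⟩

theorem I.neg (hx : I K π k x) : I K π k (-x) := by
  obtain ⟨a, ha, rfl⟩ := hx
  exact ⟨-a, neg_mem ha, by ring⟩

theorem I.sub (hx : I K π k x) (hy : I K π k y) : I K π k (x - y) := by
  rw [sub_eq_add_neg]; exact hx.add hy.neg

theorem I.mul (hx : I K π k x) (hy : I K π l y) : I K π (k + l) (x * y) := by
  obtain ⟨a, ha, rfl⟩ := hx
  obtain ⟨b, hb, rfl⟩ := hy
  exact ⟨a * b, mul_mem ha hb, by ring⟩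

theorem I.mulL (hx : x ∈ O K π) (hy : I K π k y) : I K π k (x * y) := by
  obtain ⟨b, hb, rfl⟩ := hy
  exact ⟨x * b, mul_mem hx hb, by ring⟩

theorem I.mulR (hx : I K π k x) (hy : y ∈ O K π) : I K π k (x * y) := by
  rw [mul_comm]; exact hx.mulL hy

theorem pi_mem : algebraMap R K π ∈ O K π := mem_am π

theorem I.mono (h : l ≤ k) (hx : I K π k x) : I K π l x := by
  obtain ⟨a, ha, rfl⟩ := hx
  refine ⟨algebraMap R K π ^ (k - l) * a, mul_mem (pow_mem pi_mem _) ha, ?_⟩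
  rw [← mul_assoc, ← pow_add, Nat.add_sub_cancel' h]

theorem I_zero_iff : I K π 0 x ↔ x ∈ O K π := by
  constructor
  · rintro ⟨a, ha, rfl⟩; simpa using ha
  · intro h; exact ⟨x, h, by ring⟩

theorem I.mem (hx : I K π k x) : x ∈ O K π := I_zero_iff.1 (hx.mono (Nat.zero_le _))

theorem I.sum {ι : Type*} {s : Finset ι} {f : ι → K} (h : ∀ i ∈ s, I K π k (f i)) :
    I K π k (∑ i ∈ s, f i) := by
  classical
  induction s using Finset.induction_on with
  | empty => simpa using I.zero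
  | insert a s ha ih =>
    rw [sum_insert ha]
    exact (h a (mem_insert_self _ _)).add (ih fun i hi => h i (mem_insert_of_mem hi))

theorem I_am {c : R} (h : π ^ k ∣ c) : I K π k (algebraMap R K c) := by
  obtain ⟨d, rfl⟩ := h
  exact ⟨algebraMap R K d, mem_am d, by rw [map_mul, map_pow]⟩

theorem pi_ne : algebraMap R K π ≠ 0 := am_ne hπ.out.ne_zero

theorem I_pi_mul (h : I K π (k + 1) (algebraMap R K π * x)) : I K π k x := by
  obtain ⟨a, ha, h⟩ := h
  refine ⟨a, ha, mul_left_cancel₀ (pi_ne (π := π) (K := K)) ?_⟩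
  rw [h]; ring

/-- units of the local ring -/
def U (K : Type*) [Field K] [Algebra R K] [IsFractionRing R K] (π : R) [Fact (Prime π)]
    (x : K) : Prop := x ≠ 0 ∧ x ∈ O K π ∧ x⁻¹ ∈ O K π

theorem U.one : U K π (1 : K) := ⟨one_ne_zero, one_mem _, by rw [inv_one]; exact one_mem _⟩

theorem U.mul (hx : U K π x) (hy : U K π y) : U K π (x * y) :=
  ⟨mul_ne_zero hx.1 hy.1, mul_mem hx.2.1 hy.2.1, by rw [mul_inv]; exact mul_mem hx.2.2 hy.2.2⟩

theorem U.inv (hx : U K π x) : U K π x⁻¹ :=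
  ⟨inv_ne_zero hx.1, hx.2.2, by rw [inv_inv]; exact hx.2.1⟩

theorem U.div (hx : U K π x) (hy : U K π y) : U K π (x / y) := by
  rw [div_eq_mul_inv]; exact hx.mul hy.inv

theorem U.neg (hx : U K π x) : U K π (-x) :=
  ⟨neg_ne_zero.2 hx.1, neg_mem hx.2.1, by rw [inv_neg]; exact neg_mem hx.2.2⟩

theorem U.pow (hx : U K π x) (k : ℕ) : U K π (x ^ k) := by
  induction k with
  | zero => rw [pow_zero]; exact U.one
  | succ k ih => rw [pow_succ]; exact ih.mul hx

theorem U.prod {ι : Type*} {s : Finset ι} {f : ι → K} (h : ∀ i ∈ s, U K π (f i)) :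
    U K π (∏ i ∈ s, f i) := by
  classical
  induction s using Finset.induction_on with
  | empty => simpa using U.one
  | insert a s ha ih =>
    rw [prod_insert ha]
    exact (h a (mem_insert_self _ _)).mul (ih fun i hi => h i (mem_insert_of_mem hi))

theorem U_am {d : R} (hd : ¬ π ∣ d) : U K π (algebraMap R K d) :=
  ⟨am_ne (fun h => hd (h ▸ dvd_zero _)), mem_am d, inv_mem_am hd⟩

theorem mem_div (hx : x ∈ O K π) (hy : U K π y) : x / y ∈ O K π := by
  rw [div_eq_mul_inv]; exact mul_mem hx hy.2.2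

theorem I.div (hx : I K π k x) (hy : U K π y) : I K π k (x / y) := by
  rw [div_eq_mul_inv]; exact hx.mulR hy.2.2

theorem I.of_mul_U (h : I K π k (x * y)) (hy : U K π y) : I K π k x := by
  have h1 := h.mulR hy.2.2
  rwa [mul_assoc, mul_inv_cancel₀ hy.1, mul_one] at h1

theorem not_I_of_U (hx : U K π x) : ¬ I K π 1 x := by
  rintro ⟨y, ⟨c, d, hd, rfl⟩, h⟩
  have h1 : (1 : K) = algebraMap R K π * (algebraMap R K c / algebraMap R K d) * x⁻¹ := by
    rw [← pow_one (algebraMap R K π), ← h, mul_inv_cancel₀ hx.1]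
  obtain ⟨c', d', hd', h2⟩ := hx.2.2
  rw [h2] at h1
  have e1 : algebraMap R K d ≠ 0 := am_ne (fun h => hd (h ▸ dvd_zero _))
  have e2 : algebraMap R K d' ≠ 0 := am_ne (fun h => hd' (h ▸ dvd_zero _))
  have h3 : algebraMap R K (d * d') = algebraMap R K (π * (c * c')) := by
    rw [map_mul, map_mul, map_mul]
    field_simp at h1
    rw [h1]; ring
  have h4 : d * d' = π * (c * c') := IsFractionRing.injective R K h3
  exact (hπ.out.dvd_or_dvd ⟨_, h4⟩).elim hd hd'

/-- congruence -/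
def EQ (K : Type*) [Field K] [Algebra R K] [IsFractionRing R K] (π : R) [Fact (Prime π)]
    (k : ℕ) (x y : K) : Prop := x ∈ O K π ∧ y ∈ O K π ∧ I K π k (x - y)

variable {x' y' : K}

theorem EQ.refl (hx : x ∈ O K π) : EQ K π k x x := ⟨hx, hx, by rw [sub_self]; exact I.zero⟩

theorem EQ.symm (h : EQ K π k x y) : EQ K π k y x :=
  ⟨h.2.1, h.1, by rw [← neg_sub]; exact h.2.2.neg⟩

theorem EQ.trans (h : EQ K π k x y) (h' : EQ K π k y z) : EQ K π k x z :=
  ⟨h.1, h'.2.1, by rw [← sub_add_sub_cancel x y z]; exact h.2.2.add h'.2.2⟩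

theorem EQ.mono (hl : l ≤ k) (h : EQ K π k x y) : EQ K π l x y := ⟨h.1, h.2.1, h.2.2.mono hl⟩

theorem EQ.add (h : EQ K π k x x') (h' : EQ K π k y y') : EQ K π k (x + y) (x' + y') :=
  ⟨add_mem h.1 h'.1, add_mem h.2.1 h'.2.1, by
    have : x + y - (x' + y') = (x - x') + (y - y') := by ring
    rw [this]; exact h.2.2.add h'.2.2⟩

theorem EQ.neg (h : EQ K π k x x') : EQ K π k (-x) (-x') :=
  ⟨neg_mem h.1, neg_mem h.2.1, by
    have : -x - -x' = -(x - x') := by ring
    rw [this]; exact h.2.2.neg⟩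

theorem EQ.sub (h : EQ K π k x x') (h' : EQ K π k y y') : EQ K π k (x - y) (x' - y') := by
  rw [sub_eq_add_neg, sub_eq_add_neg]; exact h.add h'.neg

theorem EQ.mul (h : EQ K π k x x') (h' : EQ K π k y y') : EQ K π k (x * y) (x' * y') :=
  ⟨mul_mem h.1 h'.1, mul_mem h.2.1 h'.2.1, by
    have : x * y - x' * y' = (x - x') * y + x' * (y - y') := by ring
    rw [this]; exact (h.2.2.mulR h'.1).add (h'.2.2.mulL h.2.1)⟩

theorem EQ.pow (h : EQ K π k x y) (l : ℕ) : EQ K π k (x ^ l) (y ^ l) := by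
  induction l with
  | zero => rw [pow_zero, pow_zero]; exact EQ.refl (one_mem _)
  | succ l ih => rw [pow_succ, pow_succ]; exact ih.mul h

theorem EQ.sum {ι : Type*} {s : Finset ι} {f g : ι → K} (h : ∀ i ∈ s, EQ K π k (f i) (g i)) :
    EQ K π k (∑ i ∈ s, f i) (∑ i ∈ s, g i) := by
  classical
  induction s using Finset.induction_on with
  | empty => exact EQ.refl (zero_mem _)
  | insert a s ha ih =>
    rw [sum_insert ha, sum_insert ha]
    exact (h a (mem_insert_self _ _)).add (ih fun i hi => h i (mem_insert_of_mem hi))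

theorem EQ.prod {ι : Type*} {s : Finset ι} {f g : ι → K} (h : ∀ i ∈ s, EQ K π k (f i) (g i)) :
    EQ K π k (∏ i ∈ s, f i) (∏ i ∈ s, g i) := by
  classical
  induction s using Finset.induction_on with
  | empty => exact EQ.refl (one_mem _)
  | insert a s ha ih =>
    rw [prod_insert ha, prod_insert ha]
    exact (h a (mem_insert_self _ _)).mul (ih fun i hi => h i (mem_insert_of_mem hi))

theorem U_of_not_I (hx : x ∈ O K π) (h : ¬ I K π 1 x) : U K π x := by
  obtain ⟨c, d, hd, rfl⟩ := hx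
  have hc : ¬ π ∣ c := by
    rintro ⟨e, rfl⟩
    exact h ⟨algebraMap R K e / algebraMap R K d, ⟨e, d, hd, rfl⟩, by rw [map_mul, pow_one]; ring⟩
  refine ⟨div_ne_zero (am_ne (fun h => hc (h ▸ dvd_zero _))) (am_ne (fun h => hd (h ▸ dvd_zero _))),
    ⟨c, d, hd, rfl⟩, ⟨d, c, hc, by rw [inv_div]⟩⟩

theorem EQ.unit (hk : 0 < k) (h : EQ K π k x y) (hx : U K π x) : U K π y := by
  refine U_of_not_I h.2.1 fun hy => not_I_of_U hx ?_
  have := (h.2.2.mono hk : I K π 1 (x - y)).add hy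
  rwa [sub_add_cancel] at this

theorem EQ.inv (hk : 0 < k) (h : EQ K π k x y) (hx : U K π x) : EQ K π k x⁻¹ y⁻¹ := by
  have hy := h.unit hk hx
  refine ⟨hx.2.2, hy.2.2, ?_⟩
  have h1 := hx.1
  have h2 := hy.1
  have : x⁻¹ - y⁻¹ = (y - x) * (x⁻¹ * y⁻¹) := by field_simp
  rw [this]
  exact (h.symm.2.2).mulR (mul_mem hx.2.2 hy.2.2)

theorem EQ.div (hk : 0 < k) (h : EQ K π k x x') (h' : EQ K π k y y') (hy : U K π y) :
    EQ K π k (x / y) (x' / y') := by
  rw [div_eq_mul_inv, div_eq_mul_inv]; exact h.mul (h'.inv hk hy)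

theorem EQ.of_I (h : I K π k x) : EQ K π k x 0 := ⟨h.mem, zero_mem _, by rwa [sub_zero]⟩

/-- the numerator in lowest terms -/
theorem I_num {c d : R} (hd0 : d ≠ 0) (hcd : IsRelPrime c d) {k : ℕ} (hk : 0 < k)
    (h : I K π k (algebraMap R K c / algebraMap R K d)) : π ^ k ∣ c ∧ ¬ π ∣ d := by
  obtain ⟨y, ⟨c', d', hd', rfl⟩, h⟩ := h
  have e1 : algebraMap R K d ≠ 0 := am_ne hd0
  have e2 : algebraMap R K d' ≠ 0 := am_ne (fun h => hd' (h ▸ dvd_zero _))
  have h1 : algebraMap R K (c * d') = algebraMap R K (π ^ k * (c' * d)) := by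
    rw [map_mul, map_mul, map_mul, map_pow]
    rw [div_eq_iff e1, mul_comm _ (algebraMap R K d), ← mul_assoc] at h
    field_simp at h
    rw [h]; ring
  have h2 : c * d' = π ^ k * (c' * d) := IsFractionRing.injective R K h1
  have h3 : π ^ k ∣ c := hπ.out.pow_dvd_of_dvd_mul_right k hd' ⟨_, h2⟩
  refine ⟨h3, fun h4 => ?_⟩
  have h5 : π ∣ c := (dvd_pow_self π hk.ne').trans h3
  exact hπ.out.not_isUnit (hcd h5 h4)

end Pool.Agent.R439.GL
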