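import Mathlib
import Pool.Agent.R439.QDefs

set_option autoImplicit false

/-!
Local ring of `ℚ(q)` at a cyclotomic polynomial `Φ_n(q)`, and congruences modulo its powers.
-/

namespace Pool.Agent.R439

open Finset Polynomial

/-- the embedding of polynomials -/
noncomputable abbrev emb : ℚ[X] →+* K := algebraMap ℚ[X] K

theorem emb_inj : Function.Injective emb := RatFunc.algebraMap_injective ℚ

theorem emb_X : emb X = q := by simp [q]

theorem emb_ne {V : ℚ[X]} (h : V ≠ 0) : emb V ≠ 0 := by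
  rwa [Ne, map_eq_zero_iff _ emb_inj]

theorem q_ne : q ≠ 0 := RatFunc.X_ne_zero

theorem P_prime (n : ℕ) [NeZero n] : Prime (cyclotomic n ℚ) :=
  (cyclotomic.irreducible_rat (Nat.pos_of_ne_zero (NeZero.ne n))).prime

/-- the local ring of `ℚ(q)` at `Φ_n(q)` -/
noncomputable def O (n : ℕ) [NeZero n] : Subring K where
  carrier := {x | ∃ U V : ℚ[X], ¬ cyclotomic n ℚ ∣ V ∧ x = emb U / emb V}
  zero_mem' := ⟨0, 1, fun h => (P_prime n).not_isUnit (isUnit_of_dvd_one h), by simp⟩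
  one_mem' := ⟨1, 1, fun h => (P_prime n).not_isUnit (isUnit_of_dvd_one h), by simp⟩
  add_mem' := by
    rintro x y ⟨U, V, hV, rfl⟩ ⟨U', V', hV', rfl⟩
    refine ⟨U * V' + U' * V, V * V', fun h => ?_, ?_⟩
    · rcases (P_prime n).dvd_or_dvd h with h | h
      · exact hV h
      · exact hV' h
    · have h1 : emb V ≠ 0 := emb_ne (fun h => hV (h ▸ dvd_zero _))
      have h2 : emb V' ≠ 0 := emb_ne (fun h => hV' (h ▸ dvd_zero _))
      rw [map_add, map_mul, map_mul, map_mul]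
      field_simp
  mul_mem' := by
    rintro x y ⟨U, V, hV, rfl⟩ ⟨U', V', hV', rfl⟩
    refine ⟨U * U', V * V', fun h => ?_, ?_⟩
    · rcases (P_prime n).dvd_or_dvd h with h | h
      · exact hV h
      · exact hV' h
    · rw [map_mul, map_mul, div_mul_div_comm]
  neg_mem' := by
    rintro x ⟨U, V, hV, rfl⟩
    exact ⟨-U, V, hV, by rw [map_neg, neg_div]⟩

variable {n : ℕ} [NeZero n]

theorem mem_O_iff (x : K) :
    x ∈ O n ↔ ∃ U V : ℚ[X], ¬ cyclotomic n ℚ ∣ V ∧ x = emb U / emb V := Iff.rfl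

theorem emb_mem (U : ℚ[X]) : emb U ∈ O n :=
  ⟨U, 1, fun h => (P_prime n).not_isUnit (isUnit_of_dvd_one h), by simp⟩

theorem emb_inv_mem {V : ℚ[X]} (hV : ¬ cyclotomic n ℚ ∣ V) : (emb V)⁻¹ ∈ O n :=
  ⟨1, V, hV, by simp⟩

theorem q_mem : q ∈ O n := by rw [← emb_X]; exact emb_mem _

/-- a primitive root kills the cyclotomic polynomial -/
theorem aeval_cyc (n : ℕ) [NeZero n] : ∃ z : ℂ, IsPrimitiveRoot z n ∧
    aeval z (cyclotomic n ℚ) = 0 := by
  refine ⟨Complex.exp (2 * Real.pi * Complex.I / n),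
    Complex.isPrimitiveRoot_exp n (NeZero.ne n), ?_⟩
  have h := (Complex.isPrimitiveRoot_exp n (NeZero.ne n)).isRoot_cyclotomic
    (Nat.pos_of_ne_zero (NeZero.ne n))
  rw [← map_cyclotomic n (algebraMap ℚ ℂ), IsRoot.def, eval_map] at h
  exact h

theorem cyc_not_dvd_X : ¬ cyclotomic n ℚ ∣ X := by
  intro h
  obtain ⟨z, hz, h0⟩ := aeval_cyc n
  obtain ⟨W, hW⟩ := h
  have := congrArg (aeval z) hW
  rw [map_mul, h0, zero_mul, aeval_X] at this
  exact hz.ne_zero (NeZero.ne n) this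

theorem cyc_not_dvd_one_sub {j : ℕ} (hj : ¬ n ∣ j) : ¬ cyclotomic n ℚ ∣ 1 - X ^ j := by
  intro h
  obtain ⟨z, hz, h0⟩ := aeval_cyc n
  obtain ⟨W, hW⟩ := h
  have := congrArg (aeval z) hW
  rw [map_mul, h0, zero_mul, map_sub, map_one, map_pow, aeval_X] at this
  exact hj (hz.dvd_of_pow_eq_one j (sub_eq_zero.1 this).symm)

theorem q_inv_mem : q⁻¹ ∈ O n := by rw [← emb_X]; exact emb_inv_mem cyc_not_dvd_X

theorem zpow_mem (j : ℤ) : q ^ j ∈ O n := by
  rcases j with j | j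
  · rw [Int.ofNat_eq_natCast, zpow_natCast]; exact pow_mem q_mem _
  · rw [zpow_negSucc, ← inv_pow]; exact pow_mem q_inv_mem _

theorem pow_mem' (j : ℕ) : q ^ j ∈ O n := pow_mem q_mem _

theorem rat_mem (c : ℚ) : (c : K) ∈ O n := by
  have : (c : K) = emb (C c) := by
    rw [RatFunc.algebraMap_C]
    exact (map_ratCast (RatFunc.C : ℚ →+* K) c).symm.trans (by simp)
  rw [this]; exact emb_mem _

theorem ratinv_mem (c : ℚ) : (c : K)⁻¹ ∈ O n := by
  rw [← Rat.cast_inv]; exact rat_mem _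

theorem natinv_mem (c : ℕ) : (c : K)⁻¹ ∈ O n := by
  have := ratinv_mem (n := n) (c : ℚ)
  rwa [Rat.cast_natCast] at this

theorem intinv_mem (c : ℤ) : (c : K)⁻¹ ∈ O n := by
  have := ratinv_mem (n := n) (c : ℚ)
  rwa [Rat.cast_intCast] at this

theorem q_pow_ne_one {j : ℕ} (hj : j ≠ 0) : q ^ j ≠ 1 := by
  intro h
  have : emb (X ^ j) = emb 1 := by rw [map_pow, emb_X, h, map_one]
  have := emb_inj this
  have := congrArg (Polynomial.eval 0) this
  simp [hj] at this

theorem one_sub_pow_ne {j : ℕ} (hj : j ≠ 0) : 1 - q ^ j ≠ 0 :=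
  sub_ne_zero.2 (q_pow_ne_one hj).symm

theorem q_zpow_ne_one {j : ℤ} (hj : j ≠ 0) : q ^ j ≠ 1 := by
  rcases j with j | j
  · rw [Int.ofNat_eq_natCast, zpow_natCast]
    apply q_pow_ne_one
    intro h; apply hj; simp [h]
  · rw [zpow_negSucc]
    intro h
    exact q_pow_ne_one (Nat.succ_ne_zero j) (by rwa [inv_eq_one] at h)

theorem one_sub_zpow_ne {j : ℤ} (hj : j ≠ 0) : 1 - q ^ j ≠ 0 :=
  sub_ne_zero.2 (q_zpow_ne_one hj).symm

theorem inv_one_sub_mem {j : ℕ} (hj : ¬ n ∣ j) : (1 - q ^ j)⁻¹ ∈ O n := by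
  have := emb_inv_mem (n := n) (cyc_not_dvd_one_sub hj)
  rwa [map_sub, map_one, map_pow, emb_X] at this

theorem inv_one_sub_zmem {j : ℤ} (hj : ¬ (n : ℤ) ∣ j) : (1 - q ^ j)⁻¹ ∈ O n := by
  rcases j with j | j
  · rw [Int.ofNat_eq_natCast, zpow_natCast]
    exact inv_one_sub_mem (by rwa [Int.ofNat_eq_natCast, Int.natCast_dvd_natCast] at hj)
  · have h1 : ¬ n ∣ (j + 1) := by
      intro h; apply hj
      rw [Int.negSucc_eq, dvd_neg]
      exact_mod_cast Int.natCast_dvd_natCast.2 h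
    have h2 : (1 - q ^ (Int.negSucc j))⁻¹ = -(q ^ (j + 1) * (1 - q ^ (j + 1))⁻¹) := by
      rw [zpow_negSucc]
      have h3 := one_sub_pow_ne (Nat.succ_ne_zero j)
      have h4 : q ^ (j + 1) ≠ 0 := pow_ne_zero _ q_ne
      have h5 : q ^ (j + 1) - 1 ≠ 0 := by
        intro h; apply h3; rw [Nat.succ_eq_add_one, ← neg_sub, h, neg_zero]
      rw [Nat.succ_eq_add_one] at h3
      have : 1 - (q ^ (j + 1))⁻¹ = - ((1 - q ^ (j + 1)) * (q ^ (j + 1))⁻¹) := by
        field_simp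
        ring
      rw [this, inv_neg, mul_inv, inv_inv]
      ring
    rw [h2]
    exact neg_mem (mul_mem (pow_mem' _) (inv_one_sub_mem h1))

/-- the uniformizer `1 - q^n` -/
noncomputable def w (n : ℕ) : K := 1 - q ^ n

theorem w_mem : w n ∈ O n := sub_mem (one_mem _) (pow_mem' _)

theorem w_ne : w n ≠ 0 := one_sub_pow_ne (NeZero.ne n)

/-- `x` is divisible by `(1 - q^n)^k` in the local ring at `Φ_n`. -/
def I (n : ℕ) [NeZero n] (k : ℕ) (x : K) : Prop := ∃ y ∈ O n, x = w n ^ k * y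

theorem I.zero {k : ℕ} : I n k 0 := ⟨0, zero_mem _, by ring⟩

theorem I.add {k : ℕ} {x y : K} (hx : I n k x) (hy : I n k y) : I n k (x + y) := by
  obtain ⟨a, ha, rfl⟩ := hx
  obtain ⟨b, hb, rfl⟩ := hy
  exact ⟨a + b, add_mem ha hb, by ring⟩

theorem I.neg {k : ℕ} {x : K} (hx : I n k x) : I n k (-x) := by
  obtain ⟨a, ha, rfl⟩ := hx
  exact ⟨-a, neg_mem ha, by ring⟩

theorem I.sub {k : ℕ} {x y : K} (hx : I n k x) (hy : I n k y) : I n k (x - y) := by
  rw [sub_eq_add_neg]; exact hx.add hy.neg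

theorem I.sum {ι : Type*} {k : ℕ} {s : Finset ι} {f : ι → K} (h : ∀ i ∈ s, I n k (f i)) :
    I n k (∑ i ∈ s, f i) := by
  classical
  induction s using Finset.induction_on with
  | empty => simpa using I.zero
  | insert a s ha ih =>
    rw [sum_insert ha]
    exact (h a (mem_insert_self _ _)).add (ih fun i hi => h i (mem_insert_of_mem hi))

theorem I.mul {k l : ℕ} {x y : K} (hx : I n k x) (hy : I n l y) : I n (k + l) (x * y) := by
  obtain ⟨a, ha, rfl⟩ := hx
  obtain ⟨b, hb, rfl⟩ := hy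
  exact ⟨a * b, mul_mem ha hb, by ring⟩

theorem I.mulL {k : ℕ} {x y : K} (hx : x ∈ O n) (hy : I n k y) : I n k (x * y) := by
  obtain ⟨b, hb, rfl⟩ := hy
  exact ⟨x * b, mul_mem hx hb, by ring⟩

theorem I.mulR {k : ℕ} {x y : K} (hx : I n k x) (hy : y ∈ O n) : I n k (x * y) := by
  rw [mul_comm]; exact hx.mulL hy

theorem I.mono {k l : ℕ} (h : l ≤ k) {x : K} (hx : I n k x) : I n l x := by
  obtain ⟨a, ha, rfl⟩ := hx
  exact ⟨w n ^ (k - l) * a, mul_mem (pow_mem w_mem _) ha, by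
    rw [← mul_assoc, ← pow_add]; congr 2; omega⟩

theorem I_zero_iff {x : K} : I n 0 x ↔ x ∈ O n := by
  constructor
  · rintro ⟨a, ha, rfl⟩; simpa using ha
  · intro h; exact ⟨x, h, by ring⟩

theorem I.mem {k : ℕ} {x : K} (hx : I n k x) : x ∈ O n := I_zero_iff.1 (hx.mono (Nat.zero_le _))

theorem I_w : I n 1 (w n) := ⟨1, one_mem _, by ring⟩

theorem I_w_mul_iff {k : ℕ} {x : K} : I n (k + 1) (w n * x) ↔ I n k x := by
  constructor
  · rintro ⟨a, ha, h⟩
    refine ⟨a, ha, ?_⟩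
    apply mul_left_cancel₀ (w_ne (n := n))
    rw [h]; ring
  · intro h
    rw [add_comm]
    exact I_w.mul h

/-- cancel a unit -/
theorem I.cancel {k : ℕ} {x y : K} (hx0 : x ≠ 0) (hx : x⁻¹ ∈ O n) (h : I n k (x * y)) :
    I n k y := by
  have : y = x⁻¹ * (x * y) := by rw [← mul_assoc, inv_mul_cancel₀ hx0, one_mul]
  rw [this]; exact h.mulL hx

/-- transitivity of congruence -/
theorem I.trans {k : ℕ} {x y z : K} (h1 : I n k (x - y)) (h2 : I n k (y - z)) :
    I n k (x - z) := by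
  have : x - z = (x - y) + (y - z) := by ring
  rw [this]; exact h1.add h2

theorem I.symm {k : ℕ} {x y : K} (h1 : I n k (x - y)) : I n k (y - x) := by
  rw [← neg_sub]; exact h1.neg

theorem I.mul_congr {k : ℕ} {x y x' y' : K} (hx : x ∈ O n) (hy' : y' ∈ O n)
    (h1 : I n k (x - x')) (h2 : I n k (y - y')) : I n k (x * y - x' * y') := by
  have : x * y - x' * y' = x * (y - y') + (x - x') * y' := by ring
  rw [this]; exact (h2.mulL hx).add (h1.mulR hy')

/-- relation between `1 - q^n` and `Φ_n` -/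
theorem w_eq : ∃ W : ℚ[X], ¬ cyclotomic n ℚ ∣ W ∧ (1 - X ^ n : ℚ[X]) = cyclotomic n ℚ * W := by
  have hn : 0 < n := Nat.pos_of_ne_zero (NeZero.ne n)
  obtain ⟨W, hW⟩ : cyclotomic n ℚ ∣ (1 - X ^ n : ℚ[X]) := by
    have := cyclotomic.dvd_X_pow_sub_one n ℚ
    rw [← neg_sub]; exact (dvd_neg.2 this)
  refine ⟨W, fun ⟨W', hW'⟩ => ?_, hW⟩
  have h1 := congrArg derivative hW
  rw [derivative_sub, derivative_one, derivative_X_pow, derivative_mul, hW'] at h1
  have h2 : cyclotomic n ℚ ∣ C (n : ℚ) * X ^ (n - 1) := by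
    refine ⟨-(derivative (cyclotomic n ℚ) * W' + derivative (cyclotomic n ℚ * W')), ?_⟩
    linear_combination -h1
  rcases (P_prime n).dvd_or_dvd h2 with h | h
  · have hu : IsUnit (C (n : ℚ)) := by
      rw [isUnit_C]; exact (Ne.isUnit (by exact_mod_cast (NeZero.ne n)))
    exact (P_prime n).not_isUnit (isUnit_of_dvd_unit h hu)
  · exact cyc_not_dvd_X ((P_prime n).dvd_of_dvd_pow h)

theorem w_emb : ∃ W : ℚ[X], ¬ cyclotomic n ℚ ∣ W ∧ w n = emb (cyclotomic n ℚ) * emb W := by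
  obtain ⟨W, hW, hw⟩ := w_eq (n := n)
  exact ⟨W, hW, by rw [w, ← map_mul, ← hw, map_sub, map_one, map_pow, emb_X]⟩

theorem num_of_I {k : ℕ} {x : K} (h : I n k x) : cyclotomic n ℚ ^ k ∣ x.num := by
  obtain ⟨W, hW, hw'⟩ := w_emb (n := n)
  obtain ⟨y, ⟨U, V, hV, rfl⟩, hx⟩ := h
  have hV0 : V ≠ 0 := fun h => hV (h ▸ dvd_zero _)
  have h1 : x.num * V = cyclotomic n ℚ ^ k * (W ^ k * U * x.denom) := by
    apply emb_inj
    have hd : emb x.denom ≠ 0 := emb_ne x.denom_ne_zero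
    have h2 : emb x.num = x * emb x.denom := by
      have := RatFunc.num_div_denom x
      exact (div_eq_iff hd).1 this
    have hVe : emb V ≠ 0 := emb_ne hV0
    rw [map_mul, map_mul, map_mul, map_mul, map_pow, map_pow, h2]
    generalize emb x.denom = d
    rw [hx, hw', mul_pow]
    field_simp
  exact (P_prime n).pow_dvd_of_dvd_mul_right k hV ⟨_, h1⟩

theorem I_of_num {k : ℕ} (hk : k ≠ 0) {x : K} (h : cyclotomic n ℚ ^ k ∣ x.num) : I n k x := by
  obtain ⟨W, hW, hw'⟩ := w_emb (n := n)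
  have hW0 : W ≠ 0 := fun h => hW (h ▸ dvd_zero _)
  obtain ⟨U, hU⟩ := h
  have hd : ¬ cyclotomic n ℚ ∣ x.denom := by
    intro h
    have hc := RatFunc.isCoprime_num_denom x
    have : cyclotomic n ℚ ∣ x.num := (dvd_pow_self _ hk).trans ⟨U, hU⟩
    exact (P_prime n).not_isUnit (hc.isUnit_of_dvd' this h)
  refine ⟨emb U / emb (W ^ k * x.denom), ⟨U, W ^ k * x.denom, fun h => ?_, rfl⟩, ?_⟩
  · rcases (P_prime n).dvd_or_dvd h with h | h
    · exact hW ((P_prime n).dvd_of_dvd_pow h)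
    · exact hd h
  · have h2 := RatFunc.num_div_denom x
    have hWe : emb W ≠ 0 := emb_ne hW0
    have hde : emb x.denom ≠ 0 := emb_ne x.denom_ne_zero
    rw [map_mul, map_pow, hw']
    conv_lhs => rw [← h2, hU]
    change emb _ / emb _ = _
    rw [map_mul, map_pow, mul_pow]
    field_simp

/-- `q^(n t) ≡ 1 - t (1 - q^n)` modulo `(1 - q^n)^2`, for every integer `t`. -/
theorem qn_zpow (t : ℤ) : I n 2 (q ^ ((n : ℤ) * t) - (1 - (t : K) * w n)) := by
  have hq : q ^ (n : ℤ) = 1 - w n := by rw [zpow_natCast, w]; ring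
  induction t using Int.induction_on with
  | zero => simp [I.zero]
  | succ t ih =>
    have e : q ^ ((n : ℤ) * ((t : ℤ) + 1)) = q ^ ((n : ℤ) * (t : ℤ)) * (1 - w n) := by
      rw [mul_add, mul_one, zpow_add₀ q_ne, hq]
    have h2 : q ^ ((n : ℤ) * ((t : ℤ) + 1)) - (1 - (((t : ℤ) + 1 : ℤ) : K) * w n) =
        (q ^ ((n : ℤ) * (t : ℤ)) - (1 - ((t : ℤ) : K) * w n)) * (1 - w n) + (t : K) * w n ^ 2 := by
      rw [e]; push_cast; ring
    rw [h2]
    exact (ih.mulR (sub_mem (one_mem _) w_mem)).add ⟨(t : K), natCast_mem _ _, by ring⟩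
  | pred t ih =>
    have h0 : (1 - w n) ≠ 0 := by rw [← hq]; exact zpow_ne_zero _ q_ne
    have h0' : (1 - w n)⁻¹ ∈ O n := by
      rw [← hq, ← zpow_neg]; exact zpow_mem _
    have e : q ^ ((n : ℤ) * (-(t : ℤ) - 1)) * (1 - w n) = q ^ ((n : ℤ) * (-(t : ℤ))) := by
      rw [← hq, ← zpow_add₀ q_ne]; congr 1; ring
    apply I.cancel h0 h0'
    have h2 : (1 - w n) * (q ^ ((n : ℤ) * (-(t : ℤ) - 1)) - (1 - ((-(t : ℤ) - 1 : ℤ) : K) * w n)) =
        (q ^ ((n : ℤ) * (-(t : ℤ))) - (1 - ((-(t : ℤ) : ℤ) : K) * w n)) + ((t : K) + 1) * w n ^ 2 := by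
      rw [← e]; push_cast; ring
    rw [h2]
    exact ih.add ⟨(t : K) + 1, add_mem (natCast_mem _ _) (one_mem _), by ring⟩

/-! ### Affine functions modulo `(1-q^n)^2` -/

section aff

variable {M : Type*} [AddCommGroup M]

/-- `g` is, modulo `(1-q^n)^2`, of the form `a + (1-q^n) L(s)` with `L` additive. -/
def Aff (n : ℕ) [NeZero n] (g : M → K) : Prop :=
  ∃ a ∈ O n, ∃ L : M →+ K, (∀ s, L s ∈ O n) ∧ ∀ s, I n 2 (g s - (a + w n * L s))

theorem Aff.const {a : K} (ha : a ∈ O n) : Aff n (fun _ : M => a) :=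
  ⟨a, ha, 0, fun _ => zero_mem _, fun s => by simpa using I.zero⟩

theorem Aff.add {g h : M → K} (hg : Aff n g) (hh : Aff n h) : Aff n (fun s => g s + h s) := by
  obtain ⟨a, ha, L, hL, H⟩ := hg
  obtain ⟨a', ha', L', hL', H'⟩ := hh
  refine ⟨a + a', add_mem ha ha', L + L', fun s => add_mem (hL s) (hL' s), fun s => ?_⟩
  have : g s + h s - (a + a' + w n * (L + L') s) =
      (g s - (a + w n * L s)) + (h s - (a' + w n * L' s)) := by
    rw [AddMonoidHom.add_apply]; ring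
  rw [this]; exact (H s).add (H' s)

theorem Aff.mul {g h : M → K} (hg : Aff n g) (hh : Aff n h) : Aff n (fun s => g s * h s) := by
  obtain ⟨a, ha, L, hL, H⟩ := hg
  obtain ⟨a', ha', L', hL', H'⟩ := hh
  refine ⟨a * a', mul_mem ha ha', (AddMonoidHom.mulLeft a).comp L' + (AddMonoidHom.mulLeft a').comp L,
    fun s => add_mem (mul_mem ha (hL' s)) (mul_mem ha' (hL s)), fun s => ?_⟩
  have : g s * h s - (a * a' + w n * ((AddMonoidHom.mulLeft a).comp L' +
      (AddMonoidHom.mulLeft a').comp L) s) =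
      (g s - (a + w n * L s)) * (h s - (a' + w n * L' s)) +
      (a + w n * L s) * (h s - (a' + w n * L' s)) +
      (g s - (a + w n * L s)) * (a' + w n * L' s) + w n ^ 2 * (L s * L' s) := by
    simp only [AddMonoidHom.add_apply, AddMonoidHom.comp_apply, AddMonoidHom.coe_mulLeft]; ring
  rw [this]
  have m1 : a + w n * L s ∈ O n := add_mem ha (mul_mem w_mem (hL s))
  have m2 : a' + w n * L' s ∈ O n := add_mem ha' (mul_mem w_mem (hL' s))
  exact ((((H s).mulR (H' s).mem).add ((H' s).mulL m1)).add ((H s).mulR m2)).add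
    ⟨L s * L' s, mul_mem (hL s) (hL' s), rfl⟩

theorem Aff.neg {g : M → K} (hg : Aff n g) : Aff n (fun s => - g s) := by
  have := (Aff.const (M := M) (neg_mem (one_mem (O n)))).mul hg
  simpa using this

theorem Aff.sub {g h : M → K} (hg : Aff n g) (hh : Aff n h) : Aff n (fun s => g s - h s) := by
  simpa [sub_eq_add_neg] using hg.add hh.neg

theorem Aff.sum {ι : Type*} {t : Finset ι} {f : ι → M → K} (h : ∀ i ∈ t, Aff n (f i)) :
    Aff n (fun s => ∑ i ∈ t, f i s) := by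
  classical
  induction t using Finset.induction_on with
  | empty => simpa using Aff.const (zero_mem _)
  | insert a t ha ih =>
    simp only [sum_insert ha]
    exact (h a (mem_insert_self _ _)).add (ih fun i hi => h i (mem_insert_of_mem hi))

theorem Aff.prod {ι : Type*} {t : Finset ι} {f : ι → M → K} (h : ∀ i ∈ t, Aff n (f i)) :
    Aff n (fun s => ∏ i ∈ t, f i s) := by
  classical
  induction t using Finset.induction_on with
  | empty => simpa using Aff.const (one_mem _)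
  | insert a t ha ih =>
    simp only [prod_insert ha]
    exact (h a (mem_insert_self _ _)).mul (ih fun i hi => h i (mem_insert_of_mem hi))

theorem Aff.pow {g : M → K} (hg : Aff n g) (k : ℕ) : Aff n (fun s => g s ^ k) := by
  induction k with
  | zero => simpa using Aff.const (one_mem _)
  | succ k ih => simpa [pow_succ] using ih.mul hg

/-- the basic affine function `q^(e + n l(s))` -/
theorem Aff.qpow (e : ℤ) (l : M →+ ℤ) : Aff n (fun s => q ^ (e + (n : ℤ) * l s)) := by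
  refine ⟨q ^ e, zpow_mem _, (AddMonoidHom.mulLeft (-q ^ e)).comp
    ((Int.castAddHom K).comp l), fun s => ?_, fun s => ?_⟩
  · simp only [AddMonoidHom.comp_apply, AddMonoidHom.coe_mulLeft, Int.coe_castAddHom]
    exact mul_mem (neg_mem (zpow_mem _)) (intCast_mem _ _)
  · have h := (qn_zpow (n := n) (l s)).mulL (zpow_mem (n := n) e)
    have : q ^ (e + (n : ℤ) * l s) - (q ^ e + w n * ((AddMonoidHom.mulLeft (-q ^ e)).comp
        ((Int.castAddHom K).comp l)) s) =
        q ^ e * (q ^ ((n : ℤ) * l s) - (1 - ((l s : ℤ) : K) * w n)) := by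
      simp only [AddMonoidHom.comp_apply, AddMonoidHom.coe_mulLeft, Int.coe_castAddHom]
      rw [zpow_add₀ q_ne]; ring
    rw [this]; exact h

/-- evaluation principle: an affine function is determined modulo `(1-q^n)^2` by linearity -/
theorem Aff.lin {g : M → K} (hg : Aff n g) : ∃ L : M →+ K, (∀ s, L s ∈ O n) ∧
    g 0 ∈ O n ∧ ∀ s, I n 2 (g s - (g 0 + w n * L s)) := by
  obtain ⟨a, ha, L, hL, H⟩ := hg
  have h0 := H 0
  rw [map_zero, mul_zero, add_zero] at h0
  have hg0 : g 0 ∈ O n := by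
    have := add_mem h0.mem ha
    simpa using this
  refine ⟨L, hL, hg0, fun s => ?_⟩
  have : g s - (g 0 + w n * L s) = (g s - (a + w n * L s)) - (g 0 - a) := by ring
  rw [this]; exact (H s).sub h0

end aff

/-- an affine function on `ℤ` vanishing mod `(1-q^n)^2` at `0` and at `m ≠ 0` vanishes everywhere -/
theorem Aff.vanish {g : ℤ → K} (hg : Aff n g) {m : ℤ} (hm : m ≠ 0) (h0 : I n 2 (g 0))
    (h1 : I n 2 (g m)) (s : ℤ) : I n 2 (g s) := by
  obtain ⟨L, hL, hg0, H⟩ := hg.lin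
  have hLs : ∀ s : ℤ, L s = (s : K) * L 1 := by
    intro s
    have := map_zsmul L s 1
    rw [zsmul_one, zsmul_eq_mul] at this
    simpa using this
  have h2 : I n 2 (w n * L m) := by
    have : w n * L m = g m - (g m - (g 0 + w n * L m)) - g 0 := by ring
    rw [this]; exact (h1.sub (H m)).sub h0
  have hm' : (m : K) ≠ 0 := by exact_mod_cast hm
  have h3 : I n 2 (w n * L 1) := by
    apply I.cancel hm' (intinv_mem m)
    have : (m : K) * (w n * L 1) = w n * L m := by rw [hLs m]; ring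
    rw [this]; exact h2
  have : g s = (g s - (g 0 + w n * L s)) + g 0 + (s : K) * (w n * L 1) := by
    rw [hLs s]; ring
  rw [this]
  exact ((H s).add h0).add (h3.mulL (intCast_mem _ _))

theorem not_I_one : ¬ I n 1 (1 : K) := by
  intro h
  have := num_of_I h
  rw [pow_one, RatFunc.num_one] at this
  exact (P_prime n).not_isUnit (isUnit_of_dvd_one this)

theorem not_I_of_inv {x : K} (hx0 : x ≠ 0) (hx : x⁻¹ ∈ O n) {k : ℕ} (hk : 0 < k) : ¬ I n k x := by
  intro h
  apply not_I_one (n := n)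
  apply I.cancel hx0 hx
  rw [mul_one]; exact h.mono hk

/-- `q^e ≡ 1` modulo `(1-q^n)^2` only for `e = 0` -/
theorem eq_zero_of_I_two {e : ℤ} (h : I n 2 (1 - q ^ e)) : e = 0 := by
  by_contra he
  by_cases hd : (n : ℤ) ∣ e
  · obtain ⟨t, rfl⟩ := hd
    have ht : t ≠ 0 := by rintro rfl; simp at he
    have h1 := h.add (qn_zpow (n := n) t)
    have e1 : 1 - q ^ ((n : ℤ) * t) + (q ^ ((n : ℤ) * t) - (1 - (t : K) * w n)) = w n * (t : K) := by
      ring
    rw [e1] at h1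
    have h2 : I n 1 (t : K) := I_w_mul_iff.1 h1
    have ht' : (t : K) ≠ 0 := by exact_mod_cast ht
    exact not_I_of_inv ht' (intinv_mem t) one_pos h2
  · exact not_I_of_inv (one_sub_zpow_ne he) (inv_one_sub_zmem hd) two_pos h

end Pool.Agent.R439
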