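import Mathlib
import Pool.Agent.R439.GLoc
import Pool.Agent.R439.ABRec
import Pool.Agent.R439.Geom
import Pool.Agent.R439.QLoc

set_option autoImplicit false

/-!
The field `ℚ(q, a, b)`, the local rings at `Φ_n(q)`, and the substitution `b ↦ b q^2`.
-/

namespace Pool.Agent.R439.GL.AB3

open Polynomial Finset Pool.Agent.R439.GL Pool.Agent.R439.AB

/-- `ℚ[q]` -/
abbrev A1 : Type := ℚ[X]
/-- `ℚ[q][a]` -/
def A2 : Type := A1[X]

noncomputable instance : CommRing A2 := inferInstanceAs (CommRing A1[X])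
instance : IsDomain A2 := inferInstanceAs (IsDomain A1[X])
instance : UniqueFactorizationMonoid A2 := inferInstanceAs (UniqueFactorizationMonoid A1[X])

/-- `ℚ[q] → ℚ[q][a]` -/
noncomputable def c2 : A1 →+* A2 := (C : A1 →+* A1[X])
/-- the variable `a` in `ℚ[q][a]` -/
noncomputable def xa : A2 := (X : A1[X])

/-- `ℚ[q][a][b]` -/
abbrev A3 : Type := A2[X]
/-- `ℚ(q,a,b)` -/
abbrev F3 : Type := FractionRing A3

noncomputable abbrev am : A3 →+* F3 := algebraMap A3 F3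

/-- polynomials in `q` -/
noncomputable def jq : A1 →+* A3 := (C : A2 →+* A3).comp c2

noncomputable def q : F3 := am (jq X)
noncomputable def a : F3 := am (C xa)
noncomputable def b : F3 := am X

theorem am_inj : Function.Injective am := IsFractionRing.injective A3 F3

noncomputable def Phi (n : ℕ) : A3 := jq (cyclotomic n ℚ)

theorem c2_inj : Function.Injective c2 := (C_injective : Function.Injective (C : A1 →+* A1[X]))

theorem prime_c2 {r : A1} (h : Prime r) : Prime (c2 r) := (prime_C_iff.2 h : Prime (C r : A1[X]))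

theorem prime_jq {r : A1} (h : Prime r) : Prime (jq r) := by
  rw [jq, RingHom.comp_apply, prime_C_iff]; exact prime_c2 h

instance factPhi (n : ℕ) [NeZero n] : Fact (Prime (Phi n)) :=
  ⟨prime_jq (cyclotomic.irreducible_rat (Nat.pos_of_ne_zero (NeZero.ne n))).prime⟩

/-- evaluation at complex numbers -/
noncomputable def ev2 (z u : ℂ) : A2 →+* ℂ :=
  (eval₂RingHom (eval₂RingHom (algebraMap ℚ ℂ) z) u : A1[X] →+* ℂ)

theorem ev2_c2 (z u : ℂ) (r : A1) : ev2 z u (c2 r) = aeval z r := by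
  change eval₂ (eval₂RingHom (algebraMap ℚ ℂ) z) u (C r : A1[X]) = _
  rw [eval₂_C]; rfl

theorem ev2_xa (z u : ℂ) : ev2 z u xa = u := by
  change eval₂ (eval₂RingHom (algebraMap ℚ ℂ) z) u (X : A1[X]) = _
  rw [eval₂_X]

noncomputable def ev (z u v : ℂ) : A3 →+* ℂ := eval₂RingHom (ev2 z u) v

theorem ev_jq (z u v : ℂ) (r : A1) : ev z u v (jq r) = aeval z r := by
  rw [ev, jq, RingHom.comp_apply, coe_eval₂RingHom, eval₂_C, ev2_c2]

theorem ev_a (z u v : ℂ) : ev z u v (C xa) = u := by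
  rw [ev, coe_eval₂RingHom, eval₂_C, ev2_xa]

theorem ev_b (z u v : ℂ) : ev z u v X = v := by
  rw [ev, coe_eval₂RingHom, eval₂_X]

theorem exists_root (n : ℕ) [NeZero n] : ∃ z : ℂ, IsPrimitiveRoot z n ∧
    ∀ u v, ev z u v (Phi n) = 0 := by
  obtain ⟨z, hz, h⟩ := Pool.Agent.R439.aeval_cyc n
  exact ⟨z, hz, fun u v => by rw [Phi, ev_jq, h]⟩

variable {n : ℕ} [NeZero n]

theorem not_dvd_of_ev {x : A3} (h : ∀ z : ℂ, IsPrimitiveRoot z n → ∃ u v, ev z u v x ≠ 0) :
    ¬ Phi n ∣ x := by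
  intro hd
  obtain ⟨z, hz, h0⟩ := exists_root n
  obtain ⟨u, v, huv⟩ := h z hz
  obtain ⟨y, rfl⟩ := hd
  exact huv (by rw [map_mul, h0, zero_mul])

theorem root_norm {z : ℂ} (hz : IsPrimitiveRoot z n) (k : ℕ) : ‖z ^ k‖ = 1 := by
  rw [norm_pow, hz.norm'_eq_one (NeZero.ne n), one_pow]

theorem U_a : U F3 (Phi n) a := U_am (not_dvd_of_ev fun z _ => ⟨1, 1, by rw [ev_a]; norm_num⟩)

theorem U_b : U F3 (Phi n) b := U_am (not_dvd_of_ev fun z _ => ⟨1, 1, by rw [ev_b]; norm_num⟩)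

theorem U_q : U F3 (Phi n) q := U_am (not_dvd_of_ev fun z hz => ⟨1, 1, by
  rw [ev_jq, aeval_X]; exact hz.ne_zero (NeZero.ne n)⟩)

theorem q_ne : q ≠ 0 := (U_q (n := 1)).1
theorem a_ne : a ≠ 0 := (U_a (n := 1)).1
theorem b_ne : b ≠ 0 := (U_b (n := 1)).1

theorem U_one_sub_aq (k : ℕ) : U F3 (Phi n) (1 - a * q ^ k) := by
  have e : 1 - a * q ^ k = am (1 - C xa * jq X ^ k) := by simp [a, q]
  rw [e]
  refine U_am (not_dvd_of_ev fun z hz => ⟨2, 1, ?_⟩)
  rw [map_sub, map_one, map_mul, map_pow, ev_a, ev_jq, aeval_X]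
  intro h
  have h1 : (2 : ℂ) * z ^ k = 1 := (sub_eq_zero.1 h).symm
  have h2 := congrArg norm h1
  rw [norm_mul, root_norm hz] at h2
  norm_num at h2

theorem U_one_sub_bq (k : ℕ) : U F3 (Phi n) (1 - b * q ^ k) := by
  have e : 1 - b * q ^ k = am (1 - X * jq X ^ k) := by simp [b, q]
  rw [e]
  refine U_am (not_dvd_of_ev fun z hz => ⟨1, 2, ?_⟩)
  rw [map_sub, map_one, map_mul, map_pow, ev_b, ev_jq, aeval_X]
  intro h
  have h1 : (2 : ℂ) * z ^ k = 1 := (sub_eq_zero.1 h).symm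
  have h2 := congrArg norm h1
  rw [norm_mul, root_norm hz] at h2
  norm_num at h2

theorem U_one_sub_qa (k : ℕ) : U F3 (Phi n) (1 - q ^ k / a) := by
  have e : 1 - q ^ k / a = am (C xa - jq X ^ k) / a := by
    have h := a_ne
    rw [map_sub, map_pow]
    change 1 - q ^ k / a = (a - q ^ k) / a
    field_simp
  rw [e]
  refine (U_am (not_dvd_of_ev fun z hz => ⟨2, 1, ?_⟩)).div U_a
  rw [map_sub, map_pow, ev_a, ev_jq, aeval_X]
  intro h
  have h1 : (2 : ℂ) = z ^ k := sub_eq_zero.1 h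
  have h2 := congrArg norm h1
  rw [root_norm hz] at h2
  norm_num at h2

theorem U_one_sub_an {k : ℕ} (hk : 0 < k) : U F3 (Phi n) (1 - a ^ k) := by
  have e : 1 - a ^ k = am (1 - C xa ^ k) := by simp [a]
  rw [e]
  refine U_am (not_dvd_of_ev fun z hz => ⟨2, 1, ?_⟩)
  rw [map_sub, map_one, map_pow, ev_a]
  intro h
  have h1 : (2 : ℂ) ^ k = 1 := (sub_eq_zero.1 h).symm
  have h2 := congrArg norm h1
  rw [norm_pow] at h2
  norm_num at h2
  have : (1 : ℝ) < 2 ^ k := one_lt_pow₀ (by norm_num) hk.ne'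
  linarith

theorem U_one_sub_bn {k : ℕ} (hk : 0 < k) : U F3 (Phi n) (1 - b ^ k) := by
  have e : 1 - b ^ k = am (1 - X ^ k) := by simp [b]
  rw [e]
  refine U_am (not_dvd_of_ev fun z hz => ⟨1, 2, ?_⟩)
  rw [map_sub, map_one, map_pow, ev_b]
  intro h
  have h1 : (2 : ℂ) ^ k = 1 := (sub_eq_zero.1 h).symm
  have h2 := congrArg norm h1
  rw [norm_pow] at h2
  norm_num at h2
  have : (1 : ℝ) < 2 ^ k := one_lt_pow₀ (by norm_num) hk.ne'
  linarith

theorem U_one_add_q (hn : n % 2 = 1) (k : ℕ) : U F3 (Phi n) (1 + q ^ k) := by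
  have e : 1 + q ^ k = am (1 + jq X ^ k) := by simp [q]
  rw [e]
  refine U_am (not_dvd_of_ev fun z hz => ⟨1, 1, ?_⟩)
  rw [map_add, map_one, map_pow, ev_jq, aeval_X]
  intro h
  have h1 : z ^ k = -1 := by linear_combination h
  have h2 : (z ^ k) ^ n = 1 := by rw [← pow_mul, mul_comm, pow_mul, hz.pow_eq_one, one_pow]
  rw [h1] at h2
  have h3 : Odd n := Nat.odd_iff.2 hn
  rw [h3.neg_one_pow] at h2
  norm_num at h2

theorem U_one_sub_q {k : ℕ} (hk : ¬ n ∣ k) : U F3 (Phi n) (1 - q ^ k) := by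
  have e : 1 - q ^ k = am (1 - jq X ^ k) := by simp [q]
  rw [e]
  refine U_am (not_dvd_of_ev fun z hz => ⟨1, 1, ?_⟩)
  rw [map_sub, map_one, map_pow, ev_jq, aeval_X]
  intro h
  exact hk (hz.dvd_of_pow_eq_one k (sub_eq_zero.1 h).symm)

theorem I_one_sub_q {k : ℕ} (hk : n ∣ k) : I F3 (Phi n) 1 (1 - q ^ k) := by
  have e : 1 - q ^ k = am (jq (1 - X ^ k)) := by simp [q, jq]
  rw [e]
  refine I_am ?_
  rw [pow_one, Phi]
  refine _root_.map_dvd jq ?_
  obtain ⟨c, rfl⟩ := hk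
  have h1 : cyclotomic n ℚ ∣ X ^ n - 1 := cyclotomic.dvd_X_pow_sub_one n ℚ
  have h2 : (X ^ n - 1 : ℚ[X]) ∣ X ^ (n * c) - 1 := by
    have := sub_dvd_pow_sub_pow (X ^ n : ℚ[X]) 1 c
    rwa [one_pow, ← pow_mul] at this
  have h3 : (1 - X ^ (n * c) : ℚ[X]) = -(X ^ (n * c) - 1) := by ring
  rw [h3]
  exact (h1.trans h2).neg_right

theorem q_ne_one {k : ℕ} (hk : 0 < k) : q ^ k ≠ 1 := by
  have h := (U_one_sub_q (n := k + 1) (k := k) (fun h => by
    have := Nat.le_of_dvd hk h; omega)).1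
  exact fun h' => h (by rw [h', sub_self])

/-! ### The substitution `b ↦ b q^2` -/

noncomputable def sA : A3 →+* A3 := compRingHom (C (c2 X ^ 2) * X)

theorem sA_coeff (x : A3) (i : ℕ) : (sA x).coeff i = x.coeff i * (c2 X ^ 2) ^ i := by
  rw [sA, coe_compRingHom_apply, comp_C_mul_X_coeff]

theorem sA_iter_coeff (k : ℕ) (x : A3) (i : ℕ) :
    ((sA^[k]) x).coeff i = x.coeff i * c2 X ^ (2 * i * k) := by
  induction k with
  | zero => simp
  | succ k ih =>
    rw [Function.iterate_succ', Function.comp_apply, sA_coeff, ih]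
    ring

theorem sA_inj : Function.Injective sA := by
  rw [injective_iff_map_eq_zero]
  intro x hx
  ext1 i
  have h := congrArg (fun y : A3 => y.coeff i) hx
  simp only [sA_coeff, coeff_zero] at h
  rw [coeff_zero]
  rcases mul_eq_zero.1 h with h | h
  · exact h
  · exact absurd h (pow_ne_zero _ (pow_ne_zero _ ((map_ne_zero_iff c2 c2_inj).2 X_ne_zero)))

theorem sA_jq (r : A1) : sA (jq r) = jq r := by
  simp [sA, jq]

theorem sA_Phi (n : ℕ) : sA (Phi n) = Phi n := sA_jq _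

theorem sA_period (x : A3) : Phi n ∣ (sA^[n]) x - x := by
  rw [Phi, jq, RingHom.comp_apply, C_dvd_iff_dvd_coeff]
  intro i
  rw [coeff_sub, sA_iter_coeff]
  have h1 : cyclotomic n ℚ ∣ X ^ n - 1 := cyclotomic.dvd_X_pow_sub_one n ℚ
  have h2 : (X ^ n - 1 : ℚ[X]) ∣ X ^ (2 * i * n) - 1 := by
    have := sub_dvd_pow_sub_pow (X ^ n : ℚ[X]) 1 (2 * i)
    rwa [one_pow, ← pow_mul, mul_comm n] at this
  have h3 : x.coeff i * c2 X ^ (2 * i * n) - x.coeff i =
      c2 (X ^ (2 * i * n) - 1 : ℚ[X]) * x.coeff i := by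
    rw [map_sub, map_pow, map_one]; ring
  rw [h3]
  exact (_root_.map_dvd c2 (h1.trans h2)).mul_right _

theorem sA_iter_dvd (k : ℕ) {x : A3} (h : Phi n ∣ x) : Phi n ∣ (sA^[k]) x := by
  induction k with
  | zero => exact h
  | succ k ih =>
    rw [Function.iterate_succ', Function.comp_apply]
    obtain ⟨y, hy⟩ := ih
    rw [hy, map_mul, sA_Phi]
    exact dvd_mul_right _ _

theorem sA_not_dvd {x : A3} (h : ¬ Phi n ∣ x) : ¬ Phi n ∣ sA x := by
  intro h1
  apply h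
  obtain ⟨k, rfl⟩ : ∃ k, n = k + 1 := Nat.exists_eq_succ_of_ne_zero (NeZero.ne n)
  have h2 := sA_iter_dvd k h1
  rw [← Function.comp_apply (f := (sA^[k])), ← Function.iterate_succ] at h2
  have h3 := sA_period (n := k + 1) x
  have h4 := dvd_sub h2 h3
  have h5 : (sA^[k.succ]) x - ((sA^[k + 1]) x - x) = x := sub_sub_cancel _ _
  rwa [h5] at h4

noncomputable def sF : F3 →+* F3 :=
  IsFractionRing.lift (A := A3) (K := F3) (L := F3) (g := am.comp sA)
    (am_inj.comp sA_inj)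

theorem sF_am (x : A3) : sF (am x) = am (sA x) := by
  rw [sF, IsFractionRing.lift_algebraMap]; rfl

theorem sF_q : sF q = q := by rw [q, sF_am, sA_jq]

theorem sF_a : sF a = a := by
  rw [a, sF_am]; simp [sA]

theorem sF_b : sF b = b * q ^ 2 := by
  rw [b, sF_am, q, ← map_pow, ← map_mul]
  congr 1
  simp [sA, jq]
  ring

theorem sF_mem {x : F3} (hx : x ∈ O F3 (Phi n)) : sF x ∈ O F3 (Phi n) := by
  obtain ⟨c, d, hd, rfl⟩ := hx
  exact ⟨sA c, sA d, sA_not_dvd hd, by rw [map_div₀, sF_am, sF_am]⟩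

theorem sF_I {k : ℕ} {x : F3} (hx : I F3 (Phi n) k x) : I F3 (Phi n) k (sF x) := by
  obtain ⟨y, hy, rfl⟩ := hx
  exact ⟨sF y, sF_mem hy, by rw [map_mul, map_pow, sF_am, sA_Phi]⟩

theorem sF_iter_mem (k : ℕ) {x : F3} (hx : x ∈ O F3 (Phi n)) : (sF^[k]) x ∈ O F3 (Phi n) := by
  induction k with
  | zero => exact hx
  | succ k ih => rw [Function.iterate_succ', Function.comp_apply]; exact sF_mem ih

theorem sF_iter_am (k : ℕ) (x : A3) : (sF^[k]) (am x) = am ((sA^[k]) x) := by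
  induction k with
  | zero => rfl
  | succ k ih =>
    rw [Function.iterate_succ', Function.comp_apply, ih, sF_am, Function.iterate_succ',
      Function.comp_apply]

theorem sF_iter_div (k : ℕ) (x y : F3) : (sF^[k]) (x / y) = (sF^[k]) x / (sF^[k]) y := by
  induction k with
  | zero => rfl
  | succ k ih =>
    rw [Function.iterate_succ', Function.comp_apply, ih, map_div₀, Function.comp_apply,
      Function.comp_apply]

theorem sA_iter_not_dvd (k : ℕ) {x : A3} (h : ¬ Phi n ∣ x) : ¬ Phi n ∣ (sA^[k]) x := by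
  induction k with
  | zero => exact h
  | succ k ih => rw [Function.iterate_succ', Function.comp_apply]; exact sA_not_dvd ih

theorem sF_period {x : F3} (hx : x ∈ O F3 (Phi n)) : EQ F3 (Phi n) 1 ((sF^[n]) x) x := by
  obtain ⟨c, d, hd, rfl⟩ := hx
  rw [sF_iter_div, sF_iter_am, sF_iter_am]
  have h1 : ∀ y : A3, EQ F3 (Phi n) 1 (am ((sA^[n]) y)) (am y) := fun y =>
    ⟨mem_am _, mem_am _, by rw [← map_sub]; exact I_am (by rw [pow_one]; exact sA_period y)⟩
  exact (h1 c).div one_pos (h1 d) (U_am (sA_iter_not_dvd n hd))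

/-- the iterated recurrence -/
theorem cyc_step {X Y f : F3} (hX : X ∈ O F3 (Phi n)) (hY : Y ∈ O F3 (Phi n))
    (hf : f ∈ O F3 (Phi n)) (h : I F3 (Phi n) 1 (X * sF f - Y * f)) (k : ℕ) :
    I F3 (Phi n) 1 ((∏ i ∈ range k, (sF^[i]) X) * (sF^[k]) f -
      (∏ i ∈ range k, (sF^[i]) Y) * f) := by
  induction k with
  | zero => simpa using I.zero
  | succ k ih =>
    rw [prod_range_succ, prod_range_succ]
    have h1 : (sF^[k]) (X * sF f - Y * f) =
        (sF^[k]) X * (sF^[k + 1]) f - (sF^[k]) Y * (sF^[k]) f := by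
      have hh : ∀ m, ∀ x y z w : F3, (sF^[m]) (x * y - z * w) =
          (sF^[m]) x * (sF^[m]) y - (sF^[m]) z * (sF^[m]) w := by
        intro m
        induction m with
        | zero => intro x y z w; rfl
        | succ m ihm =>
          intro x y z w
          simp only [Function.iterate_succ', Function.comp_apply, ihm, map_sub, map_mul]
      rw [hh, Function.iterate_succ, Function.comp_apply]
    have h2 : I F3 (Phi n) 1 ((sF^[k]) (X * sF f - Y * f)) := by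
      have : ∀ m, ∀ x : F3, I F3 (Phi n) 1 x → I F3 (Phi n) 1 ((sF^[m]) x) := by
        intro m
        induction m with
        | zero => intro x hx; exact hx
        | succ m ihm => intro x hx; rw [Function.iterate_succ', Function.comp_apply]
                        exact sF_I (ihm x hx)
      exact this k _ h
    rw [h1] at h2
    have m1 : (∏ i ∈ range k, (sF^[i]) X) ∈ O F3 (Phi n) := prod_mem fun i _ => sF_iter_mem i hX
    have m2 : (sF^[k]) Y ∈ O F3 (Phi n) := sF_iter_mem k hY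
    have e : (∏ i ∈ range k, (sF^[i]) X) * (sF^[k]) X * (sF^[k + 1]) f -
        (∏ i ∈ range k, (sF^[i]) Y) * (sF^[k]) Y * f =
        (∏ i ∈ range k, (sF^[i]) X) * ((sF^[k]) X * (sF^[k + 1]) f - (sF^[k]) Y * (sF^[k]) f) +
        (sF^[k]) Y * ((∏ i ∈ range k, (sF^[i]) X) * (sF^[k]) f -
          (∏ i ∈ range k, (sF^[i]) Y) * f) := by ring
    rw [e]
    exact (h2.mulL m1).add (ih.mulL m2)

theorem cyc_zero {X Y f : F3} (hX : X ∈ O F3 (Phi n)) (hY : Y ∈ O F3 (Phi n))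
    (hf : f ∈ O F3 (Phi n)) (h : I F3 (Phi n) 1 (X * sF f - Y * f))
    (hU : U F3 (Phi n) (∏ i ∈ range n, (sF^[i]) X - ∏ i ∈ range n, (sF^[i]) Y)) :
    I F3 (Phi n) 1 f := by
  have h1 := cyc_step hX hY hf h n
  have h2 := (sF_period hf).2.2
  have m1 : (∏ i ∈ range n, (sF^[i]) X) ∈ O F3 (Phi n) := prod_mem fun i _ => sF_iter_mem i hX
  have e : f * (∏ i ∈ range n, (sF^[i]) X - ∏ i ∈ range n, (sF^[i]) Y) =
      ((∏ i ∈ range n, (sF^[i]) X) * (sF^[n]) f - (∏ i ∈ range n, (sF^[i]) Y) * f) -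
      (∏ i ∈ range n, (sF^[i]) X) * ((sF^[n]) f - f) := by ring
  refine I.of_mul_U ?_ hU
  rw [e]
  exact h1.sub (h2.mulL m1)

end Pool.Agent.R439.GL.AB3
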