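import Mathlib
import Pool.Agent.R439.QAB
import Pool.Agent.R439.GBin

set_option autoImplicit false

/-!
The cyclic products modulo `Φ_n(q)` and the unit `∏ X - ∏ Y`.
-/

namespace Pool.Agent.R439.GL.AB3

open Polynomial Finset Pool.Agent.R439.GL Pool.Agent.R439.AB

variable {n : ℕ} [NeZero n]

theorem prod_root {R : Type*} [CommRing R] [IsDomain R] {z : R} (hz : IsPrimitiveRoot z n)
    (x y : R) : ∏ i ∈ range n, (x - z ^ i * y) = x ^ n - y ^ n := by
  have hn : 0 < n := Nat.pos_of_ne_zero (NeZero.ne n)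
  rw [hz.pow_sub_pow_eq_prod_sub_mul x y hn]
  refine Finset.prod_bij (fun i _ => z ^ i) ?_ ?_ ?_ ?_
  · intro i _
    rw [mem_nthRootsFinset hn]
    rw [← pow_mul, mul_comm, pow_mul, hz.pow_eq_one, one_pow]
  · intro i hi j hj h
    exact hz.pow_inj (mem_range.1 hi) (mem_range.1 hj) h
  · intro w hw
    rw [mem_nthRootsFinset hn] at hw
    obtain ⟨i, hi, h⟩ := hz.eq_pow_of_pow_eq_one hw
    exact ⟨i, mem_range.2 hi, h⟩
  · intro i _; rfl

/-- the polynomial form of the cyclic product -/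
theorem cyc_poly : C (cyclotomic n ℚ) ∣
    (∏ r ∈ range n, (1 - C (X ^ r : ℚ[X]) * X) - (1 - X ^ n) : ℚ[X][X]) := by
  rw [C_dvd_iff_dvd_coeff]
  intro i
  set z : ℂ := Complex.exp (2 * Real.pi * Complex.I / n) with hz
  have hzp : IsPrimitiveRoot z n := Complex.isPrimitiveRoot_exp n (NeZero.ne n)
  rw [cyclotomic_eq_minpoly_rat hzp (Nat.pos_of_ne_zero (NeZero.ne n))]
  apply minpoly.dvd
  have h1 : (∏ r ∈ range n, (1 - C (X ^ r : ℚ[X]) * X) - (1 - X ^ n) : ℚ[X][X]).map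
      (aeval z : ℚ[X] →ₐ[ℚ] ℂ).toRingHom = 0 := by
    have hC : IsPrimitiveRoot (C z : ℂ[X]) n := hzp.map_of_injective C_injective
    have h2 := prod_root hC 1 X
    rw [one_pow] at h2
    have e : (aeval z : ℚ[X] →ₐ[ℚ] ℂ).toRingHom X = z := aeval_X z
    simp only [Polynomial.map_sub, Polynomial.map_prod, Polynomial.map_one, Polynomial.map_mul,
      Polynomial.map_pow, map_X, map_C, map_pow, e, h2, sub_self]
  have h3 := congrArg (fun p => coeff p i) h1
  simp only [coeff_map, coeff_zero] at h3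
  exact h3

theorem cyc_base {y : F3} (hy : y ∈ O F3 (Phi n)) :
    EQ F3 (Phi n) 1 (∏ r ∈ range n, (1 - y * q ^ r)) (1 - y ^ n) := by
  have hq : ∀ k : ℕ, q ^ k ∈ O F3 (Phi n) := fun k => pow_mem U_q.2.1 k
  refine ⟨prod_mem fun r _ => sub_mem (one_mem _) (mul_mem hy (hq r)),
    sub_mem (one_mem _) (pow_mem hy n), ?_⟩
  obtain ⟨E, hE⟩ := cyc_poly (n := n)
  have h1 := congrArg (eval₂ (am.comp jq) y) hE
  rw [eval₂_mul, eval₂_C] at h1
  have h2 : eval₂ (am.comp jq) y (∏ r ∈ range n, (1 - C (X ^ r : ℚ[X]) * X) - (1 - X ^ n) : ℚ[X][X]) =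
      ∏ r ∈ range n, (1 - y * q ^ r) - (1 - y ^ n) := by
    rw [eval₂_sub, eval₂_sub, eval₂_one, eval₂_X_pow, eval₂_finset_prod]
    congr 1
    refine prod_congr rfl fun r _ => ?_
    rw [eval₂_sub, eval₂_one, eval₂_mul, eval₂_C, eval₂_X, map_pow, mul_comm]
    rfl
  rw [h2] at h1
  rw [h1]
  have m : eval₂ (am.comp jq) y E ∈ O F3 (Phi n) := by
    rw [eval₂_eq_sum_range]
    exact sum_mem fun i _ => mul_mem (mem_am _) (pow_mem hy i)
  exact ⟨_, m, by rw [pow_one]; rfl⟩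

theorem q_mod (k : ℕ) : EQ F3 (Phi n) 1 (q ^ k) (q ^ (k % n)) := by
  refine ⟨pow_mem U_q.2.1 _, pow_mem U_q.2.1 _, ?_⟩
  have h : q ^ k - q ^ (k % n) = -(q ^ (k % n) * (1 - q ^ (n * (k / n)))) := by
    have : q ^ k = q ^ (k % n) * q ^ (n * (k / n)) := by rw [← pow_add, Nat.mod_add_div]
    rw [this]; ring
  rw [h]
  exact (((I_one_sub_q (dvd_mul_right n _)).mulL (pow_mem U_q.2.1 _))).neg

theorem cyc_gen {y : F3} (hy : y ∈ O F3 (Phi n)) (f : ℕ → ℕ)
    (hf : ∀ i < n, ∀ j < n, f i % n = f j % n → i = j) :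
    EQ F3 (Phi n) 1 (∏ i ∈ range n, (1 - y * q ^ f i)) (1 - y ^ n) := by
  have hn : 0 < n := Nat.pos_of_ne_zero (NeZero.ne n)
  have h1 : EQ F3 (Phi n) 1 (∏ i ∈ range n, (1 - y * q ^ f i))
      (∏ i ∈ range n, (1 - y * q ^ (f i % n))) :=
    EQ.prod fun i _ => (EQ.refl (one_mem _)).sub ((EQ.refl hy).mul (q_mod _))
  have h2 : ∏ i ∈ range n, (1 - y * q ^ (f i % n)) = ∏ r ∈ range n, (1 - y * q ^ r) := by
    have hinj : Set.InjOn (fun i => f i % n) (range n) := fun i hi j hj h =>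
      hf i (by simpa using hi) j (by simpa using hj) h
    have himg : (range n).image (fun i => f i % n) = range n := by
      apply Finset.eq_of_subset_of_card_le
      · intro x hx
        obtain ⟨i, _, rfl⟩ := mem_image.1 hx
        exact mem_range.2 (Nat.mod_lt _ hn)
      · rw [card_image_of_injOn hinj]
    conv_rhs => rw [← himg]
    rw [prod_image hinj]
  rw [h2] at h1
  exact h1.trans (cyc_base hy)

theorem odd_inj (hn : n % 2 = 1) (c : ℕ) : ∀ i < n, ∀ j < n, (2 * i + c) % n = (2 * j + c) % n →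
    i = j := by
  intro i hi j hj h
  have h1 : (2 * i + c) ≡ (2 * j + c) [MOD n] := h
  have h2 : 2 * i ≡ 2 * j [MOD n] := Nat.ModEq.add_right_cancel' c h1
  have hc : Nat.gcd n 2 = 1 := by
    rw [← Nat.Coprime, Nat.coprime_comm, Nat.coprime_two_left, Nat.odd_iff]; exact hn
  have h3 : i ≡ j [MOD n] := Nat.ModEq.cancel_left_of_coprime hc h2
  rwa [Nat.ModEq, Nat.mod_eq_of_lt hi, Nat.mod_eq_of_lt hj] at h3

theorem one_inj (c : ℕ) : ∀ i < n, ∀ j < n, (i + c) % n = (j + c) % n → i = j := by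
  intro i hi j hj h
  have h1 : (i + c) ≡ (j + c) [MOD n] := h
  have h3 : i ≡ j [MOD n] := Nat.ModEq.add_right_cancel' c h1
  rwa [Nat.ModEq, Nat.mod_eq_of_lt hi, Nat.mod_eq_of_lt hj] at h3

theorem sF_iter_XX (i : ℕ) : (sF^[i]) (XX q a b) =
    (1 - b / a * q ^ (2 * i + 1)) * (1 - a * b * q ^ (2 * i + 1)) := by
  induction i with
  | zero => rw [Function.iterate_zero, id, XX]; ring
  | succ i ih =>
    rw [Function.iterate_succ', Function.comp_apply, ih]
    simp only [map_mul, map_sub, map_one, map_div₀, map_pow, sF_q, sF_a, sF_b]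
    ring

theorem sF_iter_YY (i : ℕ) : (sF^[i]) (YY q b) =
    (1 - b * q ^ (2 * i)) * (1 - b * q ^ (2 * i + 2)) := by
  induction i with
  | zero => rw [Function.iterate_zero, id, YY]; ring
  | succ i ih =>
    rw [Function.iterate_succ', Function.comp_apply, ih]
    simp only [map_mul, map_sub, map_one, map_pow, sF_q, sF_b]
    ring

theorem XX_mem : XX q a b ∈ O F3 (Phi n) := by
  rw [XX]
  exact mul_mem (sub_mem (one_mem _) (mem_div (mul_mem U_b.2.1 U_q.2.1) U_a))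
    (sub_mem (one_mem _) (mul_mem (mul_mem U_a.2.1 U_b.2.1) U_q.2.1))

theorem YY_mem : YY q b ∈ O F3 (Phi n) := by
  rw [YY]
  exact mul_mem (sub_mem (one_mem _) U_b.2.1)
    (sub_mem (one_mem _) (mul_mem U_b.2.1 (pow_mem U_q.2.1 2)))

theorem XY_unit (hn : n % 2 = 1) :
    U F3 (Phi n) (∏ i ∈ range n, (sF^[i]) (XX q a b) - ∏ i ∈ range n, (sF^[i]) (YY q b)) := by
  have hn0 : 0 < n := Nat.pos_of_ne_zero (NeZero.ne n)
  simp only [sF_iter_XX, sF_iter_YY, prod_mul_distrib]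
  have hba : b / a ∈ O F3 (Phi n) := mem_div U_b.2.1 U_a
  have hab : a * b ∈ O F3 (Phi n) := mul_mem U_a.2.1 U_b.2.1
  have h1 := cyc_gen hba (fun i => 2 * i + 1) (odd_inj hn 1)
  have h2 := cyc_gen hab (fun i => 2 * i + 1) (odd_inj hn 1)
  have h3 := cyc_gen (U_b (n := n)).2.1 (fun i => 2 * i) (odd_inj hn 0)
  have h4 := cyc_gen (U_b (n := n)).2.1 (fun i => 2 * i + 2) (odd_inj hn 2)
  have h5 := (h1.mul h2).sub (h3.mul h4)
  refine h5.symm.unit one_pos ?_
  have e : (1 - (b / a) ^ n) * (1 - (a * b) ^ n) - (1 - b ^ n) * (1 - b ^ n) =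
      -(b ^ n / a ^ n * ((1 - a ^ n) * (1 - a ^ n))) := by
    have := pow_ne_zero n a_ne
    rw [div_pow, mul_pow]
    field_simp
    ring
  rw [e]
  exact (((U_b.pow n).div (U_a.pow n)).mul
    ((U_one_sub_an hn0).mul (U_one_sub_an hn0))).neg

end Pool.Agent.R439.GL.AB3
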