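import Mathlib
import Pool.Agent.R439.QAB2

set_option autoImplicit false

/-!
The two sums modulo `Φ_d(q)` (`d ∣ n`) and `Φ_n(q)^2`.
-/

namespace Pool.Agent.R439.GL.AB3

open Polynomial Finset Pool.Agent.R439.GL Pool.Agent.R439.AB

variable {d n : ℕ} [NeZero d] [NeZero n]

/-- the `[4j+1]`-sum times `1-q` -/
noncomputable def SL (m : ℕ) : F3 := ∑ j ∈ range (m + 1), (1 - q ^ (4 * j + 1)) * PL q a b j
/-- the `[3j+1]`-sum times `1-q` -/
noncomputable def SR (N : ℕ) : F3 := ∑ j ∈ range (N + 1), (1 - q ^ (3 * j + 1)) * PR q a b j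

theorem aq_ne (i : ℕ) : a * q ^ i ≠ 1 := by
  have h := (U_one_sub_aq (n := 1) i).1
  exact fun h' => h (by rw [h', sub_self])

theorem bq_ne (i : ℕ) : b * q ^ i ≠ 1 := by
  have h := (U_one_sub_bq (n := 1) i).1
  exact fun h' => h (by rw [h', sub_self])

theorem qa_ne (i : ℕ) : q ^ i / a ≠ 1 := by
  have h := (U_one_sub_qa (n := 1) i).1
  exact fun h' => h (by rw [h', sub_self])

theorem sF_poch (x y : F3) (N : ℕ) : sF (poch x y N) = poch (sF x) (sF y) N := by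
  rw [poch, poch, map_prod]
  exact prod_congr rfl fun i _ => by rw [map_sub, map_one, map_mul, map_pow]

theorem sF_PL (j : ℕ) : sF (PL q a b j) = PL q a (b * q ^ 2) j := by
  simp only [PL, map_mul, map_div₀, map_pow, sF_poch, sF_q, sF_a, sF_b]

theorem sF_PR (j : ℕ) : sF (PR q a b j) = PR q a (b * q ^ 2) j := by
  simp only [PR, map_mul, map_div₀, map_pow, sF_poch, sF_q, sF_a, sF_b]

theorem SL_rec (m : ℕ) : XX q a b * sF (SL m) - YY q b * SL m = BL q a b m := by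
  have h := L_rec (q := q) (a := a) (b := b) q_ne a_ne b_ne (T := m)
    (fun i hi _ => q_ne_one (by omega)) (fun i _ _ => aq_ne _) (fun i _ _ => qa_ne _)
    (fun i _ _ => bq_ne _) m le_rfl
  rw [← h, SL, map_sum]
  congr 2
  refine sum_congr rfl fun j _ => ?_
  rw [map_mul, sF_PL, map_sub, map_one, map_pow, sF_q]

theorem SR_rec (N : ℕ) : XX q a b * sF (SR N) - YY q b * SR N = BR q a b N := by
  have h := R_rec (q := q) (a := a) (b := b) q_ne a_ne b_ne (T := N)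
    (fun i hi _ => q_ne_one (by omega)) (fun i _ _ => aq_ne _) (fun i _ _ => qa_ne _)
    (fun i _ _ => bq_ne _) N le_rfl
  rw [← h, SR, map_sum]
  congr 2
  refine sum_congr rfl fun j _ => ?_
  rw [map_mul, sF_PR, map_sub, map_one, map_pow, sF_q]

/-! ### Membership -/

theorem poch_aq (B : ℕ) (s k : ℕ) : U F3 (Phi n) (poch (a * q ^ s) (q ^ B) k) :=
  U.prod fun i _ => by
    rw [mul_assoc, ← pow_mul, ← pow_add]; exact U_one_sub_aq _

theorem poch_bq (B : ℕ) (s k : ℕ) : U F3 (Phi n) (poch (b * q ^ s) (q ^ B) k) :=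
  U.prod fun i _ => by
    rw [mul_assoc, ← pow_mul, ← pow_add]; exact U_one_sub_bq _

theorem poch_qa (B : ℕ) (s k : ℕ) : U F3 (Phi n) (poch (q ^ s / a) (q ^ B) k) :=
  U.prod fun i _ => by
    rw [div_mul_eq_mul_div, ← pow_mul, ← pow_add]; exact U_one_sub_qa _

theorem qb_mem (s : ℕ) : q ^ s / b ∈ O F3 (Phi n) := mem_div (pow_mem U_q.2.1 s) U_b

theorem poch_qb (B : ℕ) (s k : ℕ) : poch (q ^ s / b) (q ^ B) k ∈ O F3 (Phi n) :=
  prod_mem fun i _ => sub_mem (one_mem _)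
    (mul_mem (qb_mem s) (pow_mem (pow_mem U_q.2.1 _) _))

theorem poch_negq (hd : d % 2 = 1) (k : ℕ) : U F3 (Phi d) (poch (-q) q k) :=
  U.prod fun i _ => by
    have : 1 - -q * q ^ i = 1 + q ^ (i + 1) := by ring
    rw [this]; exact U_one_add_q hd _

theorem E1_mem (hd : d % 2 = 1) (k : ℕ) : poch q (q ^ 2) k / poch q q k ∈ O F3 (Phi d) := by
  have h := ratio_one (x := q) (fun i hi => q_ne_one hi) k
  have hU := poch_negq hd k
  have e : poch q (q ^ 2) k / poch q q k = gb q (2 * k) k / poch (-q) q k := by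
    rw [eq_div_iff hU.1, h]
  rw [e]
  exact mem_div (gb_mem _ U_q.2.1 _ _) hU

theorem E2_mem (hd : d % 2 = 1) (k : ℕ) :
    poch q (q ^ 2) k / poch (q ^ 2) (q ^ 2) k ∈ O F3 (Phi d) := by
  have h := ratio_two (x := q) (fun i hi => q_ne_one hi) k
  have hU := (poch_negq hd k).pow 2
  have e : poch q (q ^ 2) k / poch (q ^ 2) (q ^ 2) k = gb q (2 * k) k / poch (-q) q k ^ 2 := by
    rw [eq_div_iff hU.1, h]
  rw [e]
  exact mem_div (gb_mem _ U_q.2.1 _ _) hU

theorem PL_mem (hd : d % 2 = 1) (k : ℕ) : PL q a b k ∈ O F3 (Phi d) := by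
  have e : PL q a b k = b ^ k * (poch q (q ^ 2) k / poch (q ^ 2) (q ^ 2) k) *
      (poch (a * q ^ 1) (q ^ 2) k / poch (a * q ^ 2) (q ^ 2) k) *
      (poch (q ^ 1 / a) (q ^ 2) k / poch (q ^ 2 / a) (q ^ 2) k) *
      (poch (q ^ 1 / b) (q ^ 2) k / poch (b * q ^ 2) (q ^ 2) k) := by
    rw [PL, pow_one]
    simp only [div_eq_mul_inv, mul_inv]
    ring
  rw [e]
  exact mul_mem (mul_mem (mul_mem (mul_mem (pow_mem U_b.2.1 k) (E2_mem hd k))
    ((poch_aq 2 1 k).div (poch_aq 2 2 k)).2.1) ((poch_qa 2 1 k).div (poch_qa 2 2 k)).2.1)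
    (mem_div (poch_qb 2 1 k) (poch_bq 2 2 k))

theorem PR_mem (hd : d % 2 = 1) (k : ℕ) : PR q a b k ∈ O F3 (Phi d) := by
  have e : PR q a b k = b ^ k / q ^ (k * (k + 1) / 2) * (poch q (q ^ 2) k / poch q q k) *
      (poch (a * q ^ 1) (q ^ 2) k / poch (a * q ^ 1) (q ^ 1) k) *
      (poch (q ^ 1 / a) (q ^ 2) k / poch (q ^ 1 / a) (q ^ 1) k) *
      (poch (q ^ 1 / b) (q ^ 1) k / poch (b * q ^ 2) (q ^ 2) k) := by
    rw [PR, pow_one]
    simp only [div_eq_mul_inv, mul_inv]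
    ring
  rw [e]
  exact mul_mem (mul_mem (mul_mem (mul_mem (mem_div (pow_mem U_b.2.1 k) (U_q.pow _)) (E1_mem hd k))
    ((poch_aq 2 1 k).div (poch_aq 1 1 k)).2.1) ((poch_qa 2 1 k).div (poch_qa 1 1 k)).2.1)
    (mem_div (poch_qb 1 1 k) (poch_bq 2 2 k))

theorem oneq_mem (k : ℕ) : 1 - q ^ k ∈ O F3 (Phi d) := sub_mem (one_mem _) (pow_mem U_q.2.1 k)

theorem SL_mem (hd : d % 2 = 1) (m : ℕ) : SL m ∈ O F3 (Phi d) :=
  sum_mem fun j _ => mul_mem (oneq_mem _) (PL_mem hd j)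

theorem SR_mem (hd : d % 2 = 1) (N : ℕ) : SR N ∈ O F3 (Phi d) :=
  sum_mem fun j _ => mul_mem (oneq_mem _) (PR_mem hd j)

/-! ### The boundary terms -/

/-- the cofactor of `1 - q^n` in the boundary term of the first sum -/
noncomputable def uL (m : ℕ) : F3 :=
  b * (1 - b * q ^ 2) / (1 - b * q ^ (2 * m + 2)) * ((1 - a * q ^ (2 * m + 1)) *
    (1 - q ^ (2 * m + 1) / a)) * PL q a b m

theorem BL_eq (m : ℕ) : BL q a b m = (1 - q ^ (2 * m + 1)) * uL m := by
  rw [BL, uL]; ring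

theorem uL_mem (hd : d % 2 = 1) (m : ℕ) : uL m ∈ O F3 (Phi d) :=
  mul_mem (mul_mem (mem_div (mul_mem U_b.2.1 (U_one_sub_bq 2).2.1) (U_one_sub_bq _))
    (mul_mem (U_one_sub_aq _).2.1 (U_one_sub_qa _).2.1)) (PL_mem hd m)

/-- the cofactor of `1 - q^n` in the boundary term of the second sum (`n = N + 1`) -/
noncomputable def uR (N : ℕ) : F3 :=
  b * (1 - b * q ^ 2) / (1 - b * q ^ (2 * N + 2)) * (b ^ N / q ^ (N * (N + 1) / 2)) *
    (poch q (q ^ 2) (N + 1) / poch q q (N + 1)) *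
    (poch (a * q ^ 1) (q ^ 2) (N + 1) / poch (a * q ^ 1) (q ^ 1) N) *
    (poch (q ^ 1 / a) (q ^ 2) (N + 1) / poch (q ^ 1 / a) (q ^ 1) N) *
    (poch (q ^ 0 / b) (q ^ 1) N / poch (b * q ^ 2) (q ^ 2) N)

theorem BR_eq (N : ℕ) : BR q a b N = (1 - q ^ (N + 1)) * uR N := by
  have h1 : (1 - q ^ (N + 1)) ≠ 0 := sub_ne_zero.2 (Ne.symm (q_ne_one (by omega)))
  have h2 : poch q q N ≠ 0 := poch_self_ne (fun i hi => q_ne_one hi) N
  rw [BR, PR', uR]
  simp only [pow_one, pow_zero]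
  rw [poch_succ q (q ^ 2), poch_succ q q, poch_succ (a * q) (q ^ 2), poch_succ (q / a) (q ^ 2)]
  have e1 : q * (q ^ 2) ^ N = q ^ (2 * N + 1) := by ring
  have e2 : q * q ^ N = q ^ (N + 1) := by ring
  have e3 : a * q * (q ^ 2) ^ N = a * q ^ (2 * N + 1) := by ring
  have e4 : q / a * (q ^ 2) ^ N = q ^ (2 * N + 1) / a := by ring
  rw [e1, e2, e3, e4]
  generalize (1 - q ^ (2 * N + 1)) = x1
  generalize (1 - a * q ^ (2 * N + 1)) = x2
  generalize (1 - q ^ (2 * N + 1) / a) = x3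
  have key : (1 - q ^ (N + 1)) * (poch q (q ^ 2) N * x1 / (poch q q N * (1 - q ^ (N + 1)))) =
      poch q (q ^ 2) N * x1 / poch q q N := by
    field_simp
  have e5 : (1 - q ^ (N + 1)) * (b * (1 - b * q ^ 2) / (1 - b * q ^ (2 * N + 2)) *
      (b ^ N / q ^ (N * (N + 1) / 2)) * (poch q (q ^ 2) N * x1 / (poch q q N * (1 - q ^ (N + 1)))) *
      (poch (a * q) (q ^ 2) N * x2 / poch (a * q) q N) *
      (poch (q / a) (q ^ 2) N * x3 / poch (q / a) q N) *
      (poch (1 / b) q N / poch (b * q ^ 2) (q ^ 2) N)) =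
      b * (1 - b * q ^ 2) / (1 - b * q ^ (2 * N + 2)) *
      (b ^ N / q ^ (N * (N + 1) / 2)) *
      ((1 - q ^ (N + 1)) * (poch q (q ^ 2) N * x1 / (poch q q N * (1 - q ^ (N + 1))))) *
      (poch (a * q) (q ^ 2) N * x2 / poch (a * q) q N) *
      (poch (q / a) (q ^ 2) N * x3 / poch (q / a) q N) *
      (poch (1 / b) q N / poch (b * q ^ 2) (q ^ 2) N) := by ring
  rw [e5, key]
  simp only [div_eq_mul_inv, mul_inv]
  ring

theorem uR_mem (hd : d % 2 = 1) (N : ℕ) : uR N ∈ O F3 (Phi d) :=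
  mul_mem (mul_mem (mul_mem (mul_mem (mul_mem
    (mem_div (mul_mem U_b.2.1 (U_one_sub_bq 2).2.1) (U_one_sub_bq _))
    (mem_div (pow_mem U_b.2.1 N) (U_q.pow _))) (E1_mem hd _))
    ((poch_aq 2 1 _).div (poch_aq 1 1 _)).2.1) ((poch_qa 2 1 _).div (poch_qa 1 1 _)).2.1)
    (mem_div (poch_qb 1 0 _) (poch_bq 2 2 _))

theorem SL_I (hd : d % 2 = 1) {m : ℕ} (h : d ∣ 2 * m + 1) : I F3 (Phi d) 1 (SL m) := by
  refine cyc_zero XX_mem YY_mem (SL_mem hd m) ?_ (XY_unit hd)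
  rw [SL_rec, BL_eq]
  exact (I_one_sub_q h).mulR (uL_mem hd m)

theorem SR_I (hd : d % 2 = 1) {N : ℕ} (h : d ∣ N + 1) : I F3 (Phi d) 1 (SR N) := by
  refine cyc_zero XX_mem YY_mem (SR_mem hd N) ?_ (XY_unit hd)
  rw [SR_rec, BR_eq]
  exact (I_one_sub_q h).mulR (uR_mem hd N)

/-- second order version of `cyc_zero` -/
theorem cyc_zero2 {X Y f : F3} (hX : X ∈ O F3 (Phi n)) (hY : Y ∈ O F3 (Phi n))
    (hf : I F3 (Phi n) 1 f) (h : I F3 (Phi n) 2 (X * sF f - Y * f))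
    (hU : U F3 (Phi n) (∏ i ∈ range n, (sF^[i]) X - ∏ i ∈ range n, (sF^[i]) Y)) :
    I F3 (Phi n) 2 f := by
  obtain ⟨g, hg, rfl⟩ := hf
  rw [pow_one] at h ⊢
  have e : X * sF (am (Phi n) * g) - Y * (am (Phi n) * g) = am (Phi n) * (X * sF g - Y * g) := by
    rw [map_mul, sF_am, sA_Phi]; ring
  rw [e] at h
  have h1 : I F3 (Phi n) 1 (X * sF g - Y * g) := I_pi_mul h
  have h2 := cyc_zero hX hY hg h1 hU
  have h3 : I F3 (Phi n) 1 (am (Phi n)) := ⟨1, one_mem _, by rw [pow_one, mul_one]⟩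
  exact h3.mul h2

/-! ### Values of the cofactors modulo `Φ_n(q)` -/

theorem refl_poch {m : ℕ} (hn : n = 2 * m + 1) {x : F3} (hx : U F3 (Phi n) x) :
    EQ F3 (Phi n) 1 (poch (x * q) (q ^ 2) m)
      ((∏ i ∈ range m, (-x / q ^ (2 * i + 2))) * poch (q ^ 2 / x) (q ^ 2) m) := by
  rw [poch, poch, ← prod_range_reflect, ← prod_mul_distrib]
  refine EQ.prod fun i hi => ?_
  have hi' := mem_range.1 hi
  have m1 : 1 - x * q * (q ^ 2) ^ (m - 1 - i) ∈ O F3 (Phi n) := sub_mem (one_mem _)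
    (mul_mem (mul_mem hx.2.1 U_q.2.1) (pow_mem (pow_mem U_q.2.1 _) _))
  have m2 : -x / q ^ (2 * i + 2) ∈ O F3 (Phi n) := mem_div (neg_mem hx.2.1) (U_q.pow _)
  have m3 : 1 - q ^ 2 / x * (q ^ 2) ^ i ∈ O F3 (Phi n) := sub_mem (one_mem _)
    (mul_mem (mem_div (pow_mem U_q.2.1 2) hx) (pow_mem (pow_mem U_q.2.1 _) _))
  refine ⟨m1, mul_mem m2 m3, ?_⟩
  have hq := pow_ne_zero (2 * i + 2) q_ne
  have e0 : x * q * (q ^ 2) ^ (m - 1 - i) = x * q ^ n / q ^ (2 * i + 2) := by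
    rw [eq_div_iff hq, ← pow_mul, mul_assoc x q, ← pow_succ', mul_assoc, ← pow_add]
    congr 2; omega
  have e : 1 - x * q * (q ^ 2) ^ (m - 1 - i) -
      -x / q ^ (2 * i + 2) * (1 - q ^ 2 / x * (q ^ 2) ^ i) =
      (1 - q ^ n) * (x / q ^ (2 * i + 2)) := by
    rw [e0]
    have e1 : (q ^ 2) ^ i * q ^ 2 = q ^ (2 * i + 2) := by ring
    have e2 : -x / q ^ (2 * i + 2) * (1 - q ^ 2 / x * (q ^ 2) ^ i) =
        -x / q ^ (2 * i + 2) + ((q ^ 2) ^ i * q ^ 2) / q ^ (2 * i + 2) := by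
      have := hx.1
      field_simp
      ring
    rw [e2, e1, div_self hq]
    ring
  rw [e]
  exact (I_one_sub_q dvd_rfl).mulR (mem_div hx.2.1 (U_q.pow _))

theorem prod_shift_pow (m : ℕ) : (∏ i ∈ range m, q ^ (2 * i + 2)) = q ^ (m * (m + 1)) := by
  rw [prod_pow_eq_pow_sum]
  congr 1
  induction m with
  | zero => rfl
  | succ m ih => rw [sum_range_succ, ih]; ring

theorem PL_val {m : ℕ} (hn : n = 2 * m + 1) : EQ F3 (Phi n) 1 (PL q a b m) q := by
  have ha' : U F3 (Phi n) (1 / a) := U.one.div U_a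
  have hb' : U F3 (Phi n) (1 / b) := U.one.div U_b
  have r1 := refl_poch hn (U.one (K := F3) (π := Phi n))
  have r2 := refl_poch hn (U_a (n := n))
  have r3 := refl_poch hn ha'
  have r4 := refl_poch hn hb'
  have q2U : U F3 (Phi n) (poch (q ^ 2) (q ^ 2) m) := U.prod fun i hi => by
    have hi' := mem_range.1 hi
    rw [← pow_mul, ← pow_add]
    exact U_one_sub_q fun h => by have := Nat.le_of_dvd (by omega) h; omega
  have hden : U F3 (Phi n) (poch (q ^ 2) (q ^ 2) m * poch (a * q ^ 2) (q ^ 2) m *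
      poch (q ^ 2 / a) (q ^ 2) m * poch (b * q ^ 2) (q ^ 2) m) :=
    ((q2U.mul (poch_aq 2 2 m)).mul (poch_qa 2 2 m)).mul (poch_bq 2 2 m)
  have h1 := ((EQ.refl (K := F3) (π := Phi n) (k := 1) (pow_mem U_b.2.1 m)).mul
    (((r1.mul r2).mul r3).mul r4)).div one_pos (EQ.refl hden.2.1) hden
  have e1 : b ^ m * (poch (1 * q) (q ^ 2) m * poch (a * q) (q ^ 2) m * poch (1 / a * q) (q ^ 2) m *
      poch (1 / b * q) (q ^ 2) m) / (poch (q ^ 2) (q ^ 2) m * poch (a * q ^ 2) (q ^ 2) m *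
      poch (q ^ 2 / a) (q ^ 2) m * poch (b * q ^ 2) (q ^ 2) m) = PL q a b m := by
    rw [PL, one_mul, one_div_mul_eq_div, one_div_mul_eq_div]
  rw [e1] at h1
  refine h1.trans ?_
  have hQ : ∀ x : F3, ∏ i ∈ range m, (-x / q ^ (2 * i + 2)) = (-x) ^ m / q ^ (m * (m + 1)) := by
    intro x
    rw [prod_div_distrib, prod_const, card_range, prod_shift_pow]
  have d1 := hden.1
  have hs : (-1 : F3) ^ m * (-1) ^ m = 1 := by rw [← mul_pow]; norm_num
  have e2 : b ^ m * ((∏ i ∈ range m, (-1 / q ^ (2 * i + 2))) * poch (q ^ 2 / 1) (q ^ 2) m *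
      ((∏ i ∈ range m, (-a / q ^ (2 * i + 2))) * poch (q ^ 2 / a) (q ^ 2) m) *
      ((∏ i ∈ range m, (-(1 / a) / q ^ (2 * i + 2))) * poch (q ^ 2 / (1 / a)) (q ^ 2) m) *
      ((∏ i ∈ range m, (-(1 / b) / q ^ (2 * i + 2))) * poch (q ^ 2 / (1 / b)) (q ^ 2) m)) /
      (poch (q ^ 2) (q ^ 2) m * poch (a * q ^ 2) (q ^ 2) m *
      poch (q ^ 2 / a) (q ^ 2) m * poch (b * q ^ 2) (q ^ 2) m) =
      1 / (q ^ (m * (m + 1))) ^ 4 := by
    rw [hQ, hQ, hQ, hQ, div_one]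
    have f1 : q ^ 2 / (1 / a) = a * q ^ 2 := by rw [div_div_eq_mul_div, div_one, mul_comm]
    have f2 : q ^ 2 / (1 / b) = b * q ^ 2 := by rw [div_div_eq_mul_div, div_one, mul_comm]
    rw [f1, f2, div_eq_div_iff d1 (pow_ne_zero _ (pow_ne_zero _ q_ne))]
    have g1 : (-a) ^ m = (-1) ^ m * a ^ m := by rw [← mul_pow]; ring
    have g2 : (-(1 / a)) ^ m = (-1) ^ m / a ^ m := by rw [← div_pow]; ring
    have g3 : (-(1 / b)) ^ m = (-1) ^ m / b ^ m := by rw [← div_pow]; ring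
    rw [g1, g2, g3]
    have n1 := pow_ne_zero m a_ne
    have n2 := pow_ne_zero m b_ne
    have n3 := pow_ne_zero (m * (m + 1)) q_ne
    generalize (-1 : F3) ^ m = s at *
    generalize a ^ m = am' at *
    generalize b ^ m = bm' at *
    generalize q ^ (m * (m + 1)) = Q at *
    generalize poch (q ^ 2) (q ^ 2) m = P1 at *
    generalize poch (a * q ^ 2) (q ^ 2) m = P2 at *
    generalize poch (q ^ 2 / a) (q ^ 2) m = P3 at *
    generalize poch (b * q ^ 2) (q ^ 2) m = P4 at *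
    field_simp
    have : s ^ 4 = 1 := by
      have : s ^ 4 = (s * s) ^ 2 := by ring
      rw [this, hs, one_pow]
    linear_combination (P1 * P2 * P3 * P4) * this
  rw [e2]
  have n3 : U F3 (Phi n) ((q ^ (m * (m + 1))) ^ 4) := (U_q.pow _).pow 4
  refine ⟨mem_div (one_mem _) n3, U_q.2.1, ?_⟩
  have e3 : 1 / (q ^ (m * (m + 1))) ^ 4 - q = (1 - q ^ (n * n)) / (q ^ (m * (m + 1))) ^ 4 := by
    have : q ^ (n * n) = q * (q ^ (m * (m + 1))) ^ 4 := by
      rw [← pow_mul, ← pow_succ']; congr 1; rw [hn]; ring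
    rw [this, eq_div_iff n3.1, sub_mul, one_div_mul_cancel n3.1]
  rw [e3]
  exact (I_one_sub_q (dvd_mul_right n n)).div n3

theorem q_add_n (k : ℕ) : EQ F3 (Phi n) 1 (q ^ (n + k)) (q ^ k) := by
  refine ⟨pow_mem U_q.2.1 _, pow_mem U_q.2.1 _, ?_⟩
  have : q ^ (n + k) - q ^ k = -(q ^ k * (1 - q ^ n)) := by rw [pow_add]; ring
  rw [this]
  exact ((I_one_sub_q dvd_rfl).mulL (pow_mem U_q.2.1 _)).neg

theorem uL_val {m : ℕ} (hn : n = 2 * m + 1) : EQ F3 (Phi n) 1 (uL m)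
    (b * (1 - b * q ^ 2) / (1 - b * q ^ 1) * ((1 - a) * (1 - 1 / a)) * q) := by
  have h1 := q_add_n (n := n) 1
  have h0 := q_add_n (n := n) 0
  rw [add_zero, pow_zero] at h0
  have hb : b * (1 - b * q ^ 2) ∈ O F3 (Phi n) := mul_mem U_b.2.1 (U_one_sub_bq 2).2.1
  have e1 : EQ F3 (Phi n) 1 (1 - b * q ^ (2 * m + 2)) (1 - b * q ^ 1) := by
    rw [show 2 * m + 2 = n + 1 by omega]
    exact (EQ.refl (one_mem _)).sub ((EQ.refl U_b.2.1).mul h1)
  have e2 : EQ F3 (Phi n) 1 (1 - a * q ^ (2 * m + 1)) (1 - a * 1) := by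
    rw [← hn]
    exact (EQ.refl (one_mem _)).sub ((EQ.refl U_a.2.1).mul h0)
  have e3 : EQ F3 (Phi n) 1 (1 - q ^ (2 * m + 1) / a) (1 - 1 / a) := by
    rw [← hn]
    exact (EQ.refl (one_mem _)).sub (h0.div one_pos (EQ.refl U_a.2.1) U_a)
  have e4 := PL_val (n := n) hn
  have h := ((((EQ.refl hb).div one_pos e1 (U_one_sub_bq _)).mul (e2.mul e3))).mul e4
  rw [mul_one a] at h
  exact h

theorem E_val {m : ℕ} (hn : n = 2 * m + 1) :
    EQ F3 (Phi n) 1 (poch q (q ^ 2) (2 * m + 1) / poch q q (2 * m + 1)) 1 := by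
  have hpow : ∀ k, (q ^ 2) ^ k = q ^ (2 * k) := fun k => by rw [pow_mul]
  have h1 : poch q (q ^ 2) (2 * m + 1) = poch q (q ^ 2) m * (1 - q ^ n) *
      ∏ i ∈ range m, (1 - q ^ (n + (2 * i + 2))) := by
    rw [show 2 * m + 1 = (m + 1) + m by ring, poch_add, poch_succ]
    congr 1
    · congr 2
      rw [hpow, ← pow_succ', ← hn]
    · rw [poch]
      refine prod_congr rfl fun i _ => ?_
      congr 1
      rw [hpow, hpow, ← pow_succ', ← pow_add]
      congr 1; omega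
  have h2 : poch q q (2 * m + 1) = poch q (q ^ 2) m * poch (q ^ 2) (q ^ 2) m * (1 - q ^ n) := by
    rw [poch_succ, poch_two, ← pow_succ', ← hn]
  have qU : U F3 (Phi n) (poch q (q ^ 2) m) := U.prod fun i hi => by
    have hi' := mem_range.1 hi
    rw [hpow, ← pow_succ']
    exact U_one_sub_q fun h => by have := Nat.le_of_dvd (by omega) h; omega
  have q2U : U F3 (Phi n) (poch (q ^ 2) (q ^ 2) m) := U.prod fun i hi => by
    have hi' := mem_range.1 hi
    rw [← pow_mul, ← pow_add]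
    exact U_one_sub_q fun h => by have := Nat.le_of_dvd (by omega) h; omega
  have hne : (1 - q ^ n) ≠ 0 := sub_ne_zero.2 (Ne.symm (q_ne_one (by omega)))
  have e : poch q (q ^ 2) (2 * m + 1) / poch q q (2 * m + 1) =
      (∏ i ∈ range m, (1 - q ^ (n + (2 * i + 2)))) / poch (q ^ 2) (q ^ 2) m := by
    rw [h1, h2]
    have f1 := qU.1
    have f2 := q2U.1
    field_simp
  rw [e]
  have h3 : EQ F3 (Phi n) 1 (∏ i ∈ range m, (1 - q ^ (n + (2 * i + 2))))
      (poch (q ^ 2) (q ^ 2) m) := by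
    rw [poch]
    refine EQ.prod fun i _ => ?_
    rw [← pow_mul, ← pow_add, show 2 + 2 * i = 2 * i + 2 by ring]
    exact (EQ.refl (one_mem _)).sub (q_add_n _)
  have h4 := h3.div one_pos (EQ.refl q2U.2.1) q2U |>.trans (EQ.refl (by
    rw [div_self q2U.1]; exact one_mem _))
  rwa [div_self q2U.1] at h4

theorem uR_val {m : ℕ} (hn : n = 2 * m + 1) : EQ F3 (Phi n) 1 (uR (2 * m))
    (b * (1 - b * q ^ 2) / (1 - b * q ^ 1) * ((1 - a) * (1 - 1 / a)) * q) := by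
  have hno : n % 2 = 1 := by omega
  have hn0 : 0 < n := by omega
  have h0 := q_add_n (n := n) 0
  rw [add_zero, pow_zero] at h0
  have hb : b * (1 - b * q ^ 2) ∈ O F3 (Phi n) := mul_mem U_b.2.1 (U_one_sub_bq 2).2.1
  have hU1b : U F3 (Phi n) (1 - b * 1) := by
    have := U_one_sub_bq (n := n) 0
    rwa [pow_zero] at this
  have hU1a : U F3 (Phi n) (1 - a * 1) := by
    have := U_one_sub_aq (n := n) 0
    rwa [pow_zero] at this
  have hU1a' : U F3 (Phi n) (1 - 1 / a) := by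
    have := U_one_sub_qa (n := n) 0
    rwa [pow_zero] at this
  -- `1 - b q^{4m+2}`
  have e1 : EQ F3 (Phi n) 1 (1 - b * q ^ (2 * (2 * m) + 2)) (1 - b * 1) := by
    have : q ^ (2 * (2 * m) + 2) = q ^ n * q ^ n := by rw [← pow_add]; congr 1; omega
    rw [this]
    have h := h0.mul h0
    rw [one_mul] at h
    exact (EQ.refl (one_mem _)).sub ((EQ.refl U_b.2.1).mul h)
  -- `q^{N(N+1)/2}`
  have e2 : EQ F3 (Phi n) 1 (q ^ (2 * m * (2 * m + 1) / 2)) 1 := by
    have : 2 * m * (2 * m + 1) / 2 = n * m := by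
      rw [mul_assoc, Nat.mul_div_cancel_left _ two_pos, hn]; ring
    rw [this, pow_mul]
    have h := h0.pow m
    rwa [one_pow] at h
  have e3 := E_val (n := n) hn
  have ho := odd_inj (n := n) hno
  have h1i := one_inj (n := n)
  have ha1 : a * q ^ 1 ∈ O F3 (Phi n) := mul_mem U_a.2.1 (pow_mem U_q.2.1 1)
  -- products in `a`
  have e4 : EQ F3 (Phi n) 1 (poch (a * q ^ 1) (q ^ 2) (2 * m + 1) / poch (a * q ^ 1) (q ^ 1) (2 * m))
      (1 - a * 1) := by
    have g1 : EQ F3 (Phi n) 1 (poch (a * q ^ 1) (q ^ 2) (2 * m + 1)) (1 - a ^ n) := by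
      have h := cyc_gen (n := n) U_a.2.1 (fun i => 2 * i + 1) (ho 1)
      rw [← hn, poch]
      convert h using 3 with i
      ring
    have g2 : EQ F3 (Phi n) 1 (poch (a * q ^ 1) (q ^ 1) (2 * m) * (1 - a * q ^ n)) (1 - a ^ n) := by
      have h := cyc_gen (n := n) U_a.2.1 (fun i => i + 1) (h1i 1)
      have hp : poch (a * q ^ 1) (q ^ 1) (2 * m) * (1 - a * q ^ n) = ∏ i ∈ range n, (1 - a * q ^ (i + 1)) := by
        rw [hn, prod_range_succ, poch]
        congr 1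
        refine prod_congr rfl fun i _ => ?_
        ring
      rw [hp]; exact h
    have g3 : EQ F3 (Phi n) 1 (1 - a * q ^ n) (1 - a * 1) :=
      (EQ.refl (one_mem _)).sub ((EQ.refl U_a.2.1).mul h0)
    have hUp := poch_aq (n := n) 1 1 (2 * m)
    have hUq := U_one_sub_aq (n := n) n
    have g4 := g1.div one_pos g2 (hUp.mul hUq)
    rw [div_self (U_one_sub_an (n := n) hn0).1] at g4
    have g5 := g4.mul g3
    rw [one_mul] at g5
    have : poch (a * q ^ 1) (q ^ 2) (2 * m + 1) / (poch (a * q ^ 1) (q ^ 1) (2 * m) *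
        (1 - a * q ^ n)) * (1 - a * q ^ n) =
        poch (a * q ^ 1) (q ^ 2) (2 * m + 1) / poch (a * q ^ 1) (q ^ 1) (2 * m) := by
      have f1 := hUp.1
      have f2 := hUq.1
      field_simp
    rwa [this] at g5
  have hia : 1 / a ∈ O F3 (Phi n) := mem_div (one_mem _) U_a
  have hUan : U F3 (Phi n) (1 - (1 / a) ^ n) := by
    have : 1 - (1 / a) ^ n = -(1 - a ^ n) / a ^ n := by
      have := pow_ne_zero n a_ne
      rw [div_pow, one_pow]; field_simp; ring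
    rw [this]; exact (U_one_sub_an hn0).neg.div (U_a.pow n)
  have e5 : EQ F3 (Phi n) 1 (poch (q ^ 1 / a) (q ^ 2) (2 * m + 1) / poch (q ^ 1 / a) (q ^ 1) (2 * m))
      (1 - 1 / a) := by
    have g1 : EQ F3 (Phi n) 1 (poch (q ^ 1 / a) (q ^ 2) (2 * m + 1)) (1 - (1 / a) ^ n) := by
      have h := cyc_gen (n := n) hia (fun i => 2 * i + 1) (ho 1)
      rw [← hn, poch]
      convert h using 3 with i
      ring
    have g2 : EQ F3 (Phi n) 1 (poch (q ^ 1 / a) (q ^ 1) (2 * m) * (1 - q ^ n / a))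
        (1 - (1 / a) ^ n) := by
      have h := cyc_gen (n := n) hia (fun i => i + 1) (h1i 1)
      have hp : poch (q ^ 1 / a) (q ^ 1) (2 * m) * (1 - q ^ n / a) =
          ∏ i ∈ range n, (1 - 1 / a * q ^ (i + 1)) := by
        rw [hn, prod_range_succ, poch]
        congr 1
        · refine prod_congr rfl fun i _ => ?_
          ring
        · ring
      rw [hp]; exact h
    have g3 : EQ F3 (Phi n) 1 (1 - q ^ n / a) (1 - 1 / a) :=
      (EQ.refl (one_mem _)).sub (h0.div one_pos (EQ.refl U_a.2.1) U_a)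
    have hUp := poch_qa (n := n) 1 1 (2 * m)
    have hUq := U_one_sub_qa (n := n) n
    have g4 := g1.div one_pos g2 (hUp.mul hUq)
    rw [div_self hUan.1] at g4
    have g5 := g4.mul g3
    rw [one_mul] at g5
    have : poch (q ^ 1 / a) (q ^ 2) (2 * m + 1) / (poch (q ^ 1 / a) (q ^ 1) (2 * m) *
        (1 - q ^ n / a)) * (1 - q ^ n / a) =
        poch (q ^ 1 / a) (q ^ 2) (2 * m + 1) / poch (q ^ 1 / a) (q ^ 1) (2 * m) := by
      have f1 := hUp.1
      have f2 := hUq.1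
      field_simp
    rwa [this] at g5
  have hib : 1 / b ∈ O F3 (Phi n) := mem_div (one_mem _) U_b
  -- products in `b`
  have hUq1 : U F3 (Phi n) (1 - q ^ (2 * m) / b) := by
    have e : 1 - q ^ (2 * m) / b = am (X - jq X ^ (2 * m)) / b := by
      have h := b_ne
      rw [map_sub, map_pow]
      change 1 - q ^ (2 * m) / b = (b - q ^ (2 * m)) / b
      field_simp
    rw [e]
    have hnd : ¬ Phi n ∣ (X - jq X ^ (2 * m) : A3) := by
      refine not_dvd_of_ev fun z hz => ⟨1, 2, ?_⟩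
      rw [map_sub, map_pow, ev_b, ev_jq, aeval_X]
      intro h
      have h1 : (2 : ℂ) = z ^ (2 * m) := sub_eq_zero.1 h
      have h2 := congrArg norm h1
      rw [root_norm hz] at h2
      norm_num at h2
    exact (U_am hnd).div U_b
  have hUqb : U F3 (Phi n) (1 - b * q) := by
    have := U_one_sub_bq (n := n) 1
    rwa [pow_one] at this
  have e6 : EQ F3 (Phi n) 1 (b ^ (2 * m) * (poch (q ^ 0 / b) (q ^ 1) (2 * m) /
      poch (b * q ^ 2) (q ^ 2) (2 * m)))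
      ((1 - b * 1) * q / (1 - b * q ^ 1)) := by
    have g1 : EQ F3 (Phi n) 1 (poch (q ^ 0 / b) (q ^ 1) (2 * m) * (1 - q ^ (2 * m) / b))
        (1 - (1 / b) ^ n) := by
      have h := cyc_gen (n := n) hib (fun i => i + 0) (h1i 0)
      have hp : poch (q ^ 0 / b) (q ^ 1) (2 * m) * (1 - q ^ (2 * m) / b) =
          ∏ i ∈ range n, (1 - 1 / b * q ^ (i + 0)) := by
        rw [hn, prod_range_succ, poch]
        congr 1
        · refine prod_congr rfl fun i _ => ?_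
          ring
        · ring
      rw [hp]; exact h
    have g2 : EQ F3 (Phi n) 1 (poch (b * q ^ 2) (q ^ 2) (2 * m) * (1 - b * q ^ (2 * (2 * m) + 2)))
        (1 - b ^ n) := by
      have h := cyc_gen (n := n) U_b.2.1 (fun i => 2 * i + 2) (ho 2)
      have hp : poch (b * q ^ 2) (q ^ 2) (2 * m) * (1 - b * q ^ (2 * (2 * m) + 2)) =
          ∏ i ∈ range n, (1 - b * q ^ (2 * i + 2)) := by
        rw [hn, prod_range_succ, poch]
        congr 1
        refine prod_congr rfl fun i _ => ?_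
        ring
      rw [hp]; exact h
    have hUp := poch_bq (n := n) 2 2 (2 * m)
    have hUq := U_one_sub_bq (n := n) (2 * (2 * m) + 2)
    have hUbn := U_one_sub_bn (n := n) hn0
    have g3 := g1.div one_pos g2 (hUp.mul hUq)
    -- `1 - q^{2m}/b ≡ 1 - 1/(qb)`
    have g4 : EQ F3 (Phi n) 1 (b * (1 - q ^ (2 * m) / b)) (-(1 - b * q ^ 1) / q) := by
      refine ⟨mul_mem U_b.2.1 hUq1.2.1, mem_div (neg_mem (U_one_sub_bq 1).2.1) U_q, ?_⟩
      have : b * (1 - q ^ (2 * m) / b) - -(1 - b * q ^ 1) / q = (1 - q ^ n) / q := by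
        have h1 := b_ne
        have h2 := q_ne
        rw [hn, pow_succ]
        field_simp
        ring
      rw [this]
      exact (I_one_sub_q dvd_rfl).div U_q
    have hU4 : U F3 (Phi n) (b * (1 - q ^ (2 * m) / b)) := U_b.mul hUq1
    have g5 := (((EQ.refl (K := F3) (π := Phi n) (k := 1) (pow_mem U_b.2.1 n)).mul g3).mul e1).div
      one_pos g4 hU4
    have s1 : b ^ n * (poch (q ^ 0 / b) (q ^ 1) (2 * m) * (1 - q ^ (2 * m) / b) /
        (poch (b * q ^ 2) (q ^ 2) (2 * m) * (1 - b * q ^ (2 * (2 * m) + 2)))) *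
        (1 - b * q ^ (2 * (2 * m) + 2)) / (b * (1 - q ^ (2 * m) / b)) =
        b ^ (2 * m) * (poch (q ^ 0 / b) (q ^ 1) (2 * m) / poch (b * q ^ 2) (q ^ 2) (2 * m)) := by
      have f1 := hUp.1
      have f2 := hUq.1
      have f3 := hUq1.1
      have f4 := b_ne
      rw [hn, pow_succ]
      generalize (1 - q ^ (2 * m) / b) = x1 at *
      generalize (1 - b * q ^ (2 * (2 * m) + 2)) = x2 at *
      generalize poch (b * q ^ 2) (q ^ 2) (2 * m) = x3 at *
      field_simp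
    have s2 : b ^ n * ((1 - (1 / b) ^ n) / (1 - b ^ n)) * (1 - b * 1) / (-(1 - b * q ^ 1) / q) =
        (1 - b * 1) * q / (1 - b * q ^ 1) := by
      have f1 := hUbn.1
      have f2 := pow_ne_zero n b_ne
      have f3 := q_ne
      have f4 := (U_one_sub_bq (n := n) 1).1
      rw [div_pow, one_pow]
      generalize b ^ n = B at *
      generalize (1 - b * q ^ 1) = x1 at *
      generalize (1 - b * 1) = x2 at *
      field_simp
      ring
    rw [s1, s2] at g5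
    exact g5
  have h := ((((((EQ.refl hb).div one_pos e1 (U_one_sub_bq _)).mul
    ((EQ.refl (K := F3) (π := Phi n) (k := 1) (one_mem _)).div one_pos e2 (U_q.pow _))).mul e3).mul e4).mul e5).mul e6
  have s : uR (2 * m) = b * (1 - b * q ^ 2) / (1 - b * q ^ (2 * (2 * m) + 2)) *
      (1 / q ^ (2 * m * (2 * m + 1) / 2)) *
      (poch q (q ^ 2) (2 * m + 1) / poch q q (2 * m + 1)) *
      (poch (a * q ^ 1) (q ^ 2) (2 * m + 1) / poch (a * q ^ 1) (q ^ 1) (2 * m)) *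
      (poch (q ^ 1 / a) (q ^ 2) (2 * m + 1) / poch (q ^ 1 / a) (q ^ 1) (2 * m)) *
      (b ^ (2 * m) * (poch (q ^ 0 / b) (q ^ 1) (2 * m) / poch (b * q ^ 2) (q ^ 2) (2 * m))) := by
    rw [uR]; ring
  rw [s]
  have t : b * (1 - b * q ^ 2) / (1 - b * 1) * (1 / 1) * 1 * (1 - a * 1) * (1 - 1 / a) *
      ((1 - b * 1) * q / (1 - b * q ^ 1)) =
      b * (1 - b * q ^ 2) / (1 - b * q ^ 1) * ((1 - a) * (1 - 1 / a)) * q := by
    have f1 := hU1b.1
    have f2 := (U_one_sub_bq (n := n) 1).1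
    rw [mul_one a]
    generalize (1 - b * 1) = x1 at *
    generalize (1 - b * q ^ 1) = x2 at *
    field_simp
  rw [t] at h
  exact h

/-- the two sums agree modulo `Φ_n(q)^2` -/
theorem SLR_I2 {m : ℕ} (hn : n = 2 * m + 1) : I F3 (Phi n) 2 (SL m - SR (2 * m)) := by
  have hno : n % 2 = 1 := by omega
  have hd : n ∣ 2 * m + 1 := by rw [hn]
  refine cyc_zero2 XX_mem YY_mem ((SL_I hno hd).sub (SR_I hno hd)) ?_ (XY_unit hno)
  have e : XX q a b * sF (SL m - SR (2 * m)) - YY q b * (SL m - SR (2 * m)) =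
      (1 - q ^ n) * (uL m - uR (2 * m)) := by
    have h1 := SL_rec m
    have h2 := SR_rec (2 * m)
    rw [BL_eq] at h1
    rw [BR_eq] at h2
    rw [hn, map_sub]
    linear_combination h1 - h2
  rw [e]
  exact (I_one_sub_q dvd_rfl).mul ((uL_val hn).trans (uR_val hn).symm).2.2

end Pool.Agent.R439.GL.AB3
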