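import Mathlib
import Pool.Agent.R439.QAB3

set_option autoImplicit false

/-!
The linear factors `1 - a q^n`, `a - q^n`, `b - q^n`, and the final divisibility.
-/

namespace Pool.Agent.R439.GL.AB3

open Polynomial Finset Pool.Agent.R439.GL Pool.Agent.R439.AB

/-! ### Specialisation relation -/

section Sp

variable {R : Type*} [CommRing R] [IsDomain R] {K : Type*} [Field K] [Algebra R K]
  [IsFractionRing R K] {E : Type*} [Field E]

/-- `x ∈ Frac R` specialises to `e` under `φ` -/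
def Sp (φ : R →+* E) (x : K) (e : E) : Prop :=
  ∃ c d : R, φ d ≠ 0 ∧ x = algebraMap R K c / algebraMap R K d ∧ e = φ c / φ d

variable {φ : R →+* E} {x y : K} {e f : E}

theorem ne_of_map {d : R} (h : φ d ≠ 0) : algebraMap R K d ≠ 0 :=
  am_ne (fun h' => h (by rw [h', map_zero]))

theorem Sp.am (c : R) : Sp φ (algebraMap R K c) (φ c) :=
  ⟨c, 1, by simp, by simp, by simp⟩

theorem Sp.one : Sp φ (1 : K) (1 : E) := by
  have := Sp.am (K := K) (φ := φ) 1
  rwa [map_one, map_one] at this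

theorem Sp.add (h : Sp φ x e) (h' : Sp φ y f) : Sp φ (x + y) (e + f) := by
  obtain ⟨c, d, hd, rfl, rfl⟩ := h
  obtain ⟨c', d', hd', rfl, rfl⟩ := h'
  refine ⟨c * d' + d * c', d * d', by rw [map_mul]; exact mul_ne_zero hd hd', ?_, ?_⟩
  · rw [div_add_div _ _ (ne_of_map hd) (ne_of_map hd')]; simp
  · rw [div_add_div _ _ hd hd']; simp

theorem Sp.mul (h : Sp φ x e) (h' : Sp φ y f) : Sp φ (x * y) (e * f) := by
  obtain ⟨c, d, hd, rfl, rfl⟩ := h
  obtain ⟨c', d', hd', rfl, rfl⟩ := h'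
  refine ⟨c * c', d * d', by rw [map_mul]; exact mul_ne_zero hd hd', ?_, ?_⟩
  · rw [div_mul_div_comm]; simp
  · rw [div_mul_div_comm]; simp

theorem Sp.neg (h : Sp φ x e) : Sp φ (-x) (-e) := by
  obtain ⟨c, d, hd, rfl, rfl⟩ := h
  exact ⟨-c, d, hd, by rw [map_neg, neg_div], by rw [map_neg, neg_div]⟩

theorem Sp.sub (h : Sp φ x e) (h' : Sp φ y f) : Sp φ (x - y) (e - f) := by
  rw [sub_eq_add_neg, sub_eq_add_neg]; exact h.add h'.neg

theorem Sp.inv (h : Sp φ x e) (he : e ≠ 0) : Sp φ x⁻¹ e⁻¹ := by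
  obtain ⟨c, d, hd, rfl, rfl⟩ := h
  refine ⟨d, c, fun h => he (by rw [h, zero_div]), ?_, ?_⟩
  · rw [inv_div]
  · rw [inv_div]

theorem Sp.div (h : Sp φ x e) (h' : Sp φ y f) (hf : f ≠ 0) : Sp φ (x / y) (e / f) := by
  rw [div_eq_mul_inv, div_eq_mul_inv]; exact h.mul (h'.inv hf)

theorem Sp.pow (h : Sp φ x e) (k : ℕ) : Sp φ (x ^ k) (e ^ k) := by
  induction k with
  | zero => rw [pow_zero, pow_zero]; exact Sp.one
  | succ k ih => rw [pow_succ, pow_succ]; exact ih.mul h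

theorem Sp.sum {ι : Type*} {s : Finset ι} {u : ι → K} {v : ι → E}
    (h : ∀ i ∈ s, Sp φ (u i) (v i)) : Sp φ (∑ i ∈ s, u i) (∑ i ∈ s, v i) := by
  classical
  induction s using Finset.induction_on with
  | empty =>
    have := Sp.am (K := K) (φ := φ) 0
    simpa using this
  | insert a s ha ih =>
    rw [sum_insert ha, sum_insert ha]
    exact (h a (mem_insert_self _ _)).add (ih fun i hi => h i (mem_insert_of_mem hi))

theorem Sp.prod {ι : Type*} {s : Finset ι} {u : ι → K} {v : ι → E}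
    (h : ∀ i ∈ s, Sp φ (u i) (v i)) : Sp φ (∏ i ∈ s, u i) (∏ i ∈ s, v i) := by
  classical
  induction s using Finset.induction_on with
  | empty => simpa using Sp.one
  | insert a s ha ih =>
    rw [prod_insert ha, prod_insert ha]
    exact (h a (mem_insert_self _ _)).mul (ih fun i hi => h i (mem_insert_of_mem hi))

theorem Sp.poch (h : Sp φ x e) (h' : Sp φ y f) (k : ℕ) :
    Sp φ (poch x y k) (Pool.Agent.R439.poch e f k) :=
  Sp.prod fun i _ => Sp.one.sub (h.mul (h'.pow i))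

/-- specialising to zero means divisible by the kernel element -/
theorem Sp.I {π : R} [hπ : Fact (Prime π)] (hk : ∀ c, φ c = 0 → π ∣ c) (h0 : φ π = 0)
    (h : Sp φ x 0) : I K π 1 x := by
  obtain ⟨c, d, hd, rfl, he⟩ := h
  have hc : φ c = 0 := by
    rcases div_eq_zero_iff.1 he.symm with h | h
    · exact h
    · exact absurd h hd
  obtain ⟨c', rfl⟩ := hk c hc
  refine ⟨algebraMap R K c' / algebraMap R K d, ⟨c', d, ?_, rfl⟩, by rw [pow_one, map_mul]; ring⟩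
  rintro ⟨d', rfl⟩
  exact hd (by rw [map_mul, h0, zero_mul])

theorem prime_of_ker {π : R} (hk : ∀ c, φ c = 0 → π ∣ c) (h0 : φ π = 0) (hne : π ≠ 0) :
    Prime π := by
  refine ⟨hne, fun hu => ?_, fun x y h => ?_⟩
  · have := hu.map φ
    rw [h0] at this
    exact not_isUnit_zero this
  · obtain ⟨z, hz⟩ := h
    have : φ x * φ y = 0 := by rw [← map_mul, hz, map_mul, h0, zero_mul]
    rcases mul_eq_zero.1 this with h | h
    · exact Or.inl (hk _ h)
    · exact Or.inr (hk _ h)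

variable {q a b : K} {q' a' b' : E}

theorem Sp.PL (hq : Sp φ q q') (ha : Sp φ a a') (hb : Sp φ b b') (ha0 : a' ≠ 0) (hb0 : b' ≠ 0)
    {j : ℕ} (h1 : Pool.Agent.R439.poch (q' ^ 2) (q' ^ 2) j ≠ 0)
    (h2 : Pool.Agent.R439.poch (a' * q' ^ 2) (q' ^ 2) j ≠ 0)
    (h3 : Pool.Agent.R439.poch (q' ^ 2 / a') (q' ^ 2) j ≠ 0)
    (h4 : Pool.Agent.R439.poch (b' * q' ^ 2) (q' ^ 2) j ≠ 0) :
    Sp φ (PL q a b j) (PL q' a' b' j) := by
  have q2 := hq.pow 2
  exact ((hb.pow j).mul ((((hq.poch q2 j).mul ((ha.mul hq).poch q2 j)).mul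
    ((hq.div ha ha0).poch q2 j)).mul ((hq.div hb hb0).poch q2 j))).div
    ((((q2.poch q2 j).mul ((ha.mul q2).poch q2 j)).mul ((q2.div ha ha0).poch q2 j)).mul
      ((hb.mul q2).poch q2 j)) (mul_ne_zero (mul_ne_zero (mul_ne_zero h1 h2) h3) h4)

theorem Sp.PR (hq : Sp φ q q') (ha : Sp φ a a') (hb : Sp φ b b') (hq0 : q' ≠ 0) (ha0 : a' ≠ 0)
    (hb0 : b' ≠ 0) {j : ℕ} (h1 : Pool.Agent.R439.poch q' q' j ≠ 0)
    (h2 : Pool.Agent.R439.poch (a' * q') q' j ≠ 0)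
    (h3 : Pool.Agent.R439.poch (q' / a') q' j ≠ 0)
    (h4 : Pool.Agent.R439.poch (b' * q' ^ 2) (q' ^ 2) j ≠ 0) :
    Sp φ (PR q a b j) (PR q' a' b' j) := by
  have q2 := hq.pow 2
  exact (((hb.pow j).div (hq.pow _) (pow_ne_zero _ hq0)).mul ((((hq.poch q2 j).mul
    ((ha.mul hq).poch q2 j)).mul
    ((hq.div ha ha0).poch q2 j)).mul ((hq.div hb hb0).poch hq j))).div
    ((((hq.poch hq j).mul ((ha.mul hq).poch hq j)).mul ((hq.div ha ha0).poch hq j)).mul
      ((hb.mul q2).poch q2 j)) (mul_ne_zero (mul_ne_zero (mul_ne_zero h1 h2) h3) h4)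

end Sp

/-! ### Equality of the two sums at special points -/

section Eq

variable {E : Type*} [Field E]

/-- the `[4j+1]`-sum -/
def SLg (q a b : E) (m : ℕ) : E := ∑ j ∈ range (m + 1), (1 - q ^ (4 * j + 1)) * PL q a b j
/-- the `[3j+1]`-sum -/
def SRg (q a b : E) (N : ℕ) : E := ∑ j ∈ range (N + 1), (1 - q ^ (3 * j + 1)) * PR q a b j

theorem poch_one_zero (y : E) (j : ℕ) : poch (1 : E) y (j + 1) = 0 := by
  rw [poch_succ']; ring

theorem SLg_start {q a : E} (hq : q ≠ 0) (m : ℕ) : SLg q a q m = 1 - q := by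
  rw [SLg, sum_range_succ', sum_eq_zero]
  · simp [PL, poch]
  · intro j _
    rw [PL, div_self hq, poch_one_zero]; ring

theorem SRg_start {q a : E} (hq : q ≠ 0) (N : ℕ) : SRg q a q N = 1 - q := by
  rw [SRg, sum_range_succ', sum_eq_zero]
  · simp [PR, poch]
  · intro j _
    rw [PR, div_self hq, poch_one_zero]; ring

theorem S_eq {q a : E} (hq : q ≠ 0) (ha : a ≠ 0) (hroot : ∀ i : ℕ, 0 < i → q ^ i ≠ 1) {m : ℕ}
    (h2 : ∀ i : ℕ, 0 < i → i ≤ 2 * m → a * q ^ i ≠ 1)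
    (h2' : ∀ i : ℕ, 0 < i → i ≤ m → a * q ^ (2 * i) ≠ 1)
    (h3 : ∀ i : ℕ, 0 < i → i ≤ 2 * m → q ^ i / a ≠ 1)
    (h3' : ∀ i : ℕ, 0 < i → i ≤ m → q ^ (2 * i) / a ≠ 1)
    (hX : ∀ k : ℕ, XX q a (q ^ (2 * k + 1)) ≠ 0)
    (k : ℕ) (hB : ∀ l < k, BL q a (q ^ (2 * l + 1)) m = 0 ∧ BR q a (q ^ (2 * l + 1)) (2 * m) = 0) :
    SLg q a (q ^ (2 * k + 1)) m = SRg q a (q ^ (2 * k + 1)) (2 * m) := by
  induction k with
  | zero => rw [mul_zero, zero_add, pow_one, SLg_start hq, SRg_start hq]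
  | succ k ih =>
    have ih := ih fun l hl => hB l (by omega)
    obtain ⟨b1, b2⟩ := hB k (by omega)
    have hb : q ^ (2 * k + 1) ≠ 0 := pow_ne_zero _ hq
    have hbq : ∀ i : ℕ, 0 < i → q ^ (2 * k + 1) * q ^ (2 * i) ≠ 1 := fun i hi => by
      rw [← pow_add]; exact hroot _ (by omega)
    have r1 := L_rec (q := q) (a := a) (b := q ^ (2 * k + 1)) hq ha hb (T := m)
      (fun i hi _ => hroot _ (by omega)) h2' h3' (fun i hi _ => hbq i hi) m le_rfl
    have r2 := R_rec (q := q) (a := a) (b := q ^ (2 * k + 1)) hq ha hb (T := 2 * m)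
      (fun i hi _ => hroot _ (by omega)) h2 h3 (fun i hi _ => hbq i hi) (2 * m) le_rfl
    rw [b1] at r1
    rw [b2] at r2
    have e : q ^ (2 * k + 1) * q ^ 2 = q ^ (2 * (k + 1) + 1) := by rw [← pow_add]; congr 1
    rw [e] at r1 r2
    rw [SLg, SRg] at ih ⊢
    apply mul_left_cancel₀ (hX k)
    rw [ih] at r1
    linear_combination r1 - r2

end Eq

end Pool.Agent.R439.GL.AB3
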