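import Mathlib
import Pool.Agent.R439.QAB4

set_option autoImplicit false

/-!
The difference of the two sums at `a = q^{±n}` and `b = q^n`.
-/

namespace Pool.Agent.R439.GL.AB3

open Polynomial Finset Pool.Agent.R439.GL Pool.Agent.R439.AB

/-! ### `b = q^n` -/

abbrev Eb : Type := FractionRing A2

noncomputable abbrev alb : A2 →+* Eb := algebraMap A2 Eb

theorem alb_inj : Function.Injective alb := IsFractionRing.injective A2 Eb

noncomputable def phb (n : ℕ) : A3 →+* Eb := eval₂RingHom alb (alb (c2 X ^ n))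

noncomputable def pib (n : ℕ) : A3 := X - jq X ^ n

theorem phb_C (n : ℕ) (x : A2) : phb n (C x) = alb x := by rw [phb, coe_eval₂RingHom, eval₂_C]
theorem phb_jq (n : ℕ) (r : A1) : phb n (jq r) = alb (c2 r) := by
  rw [jq, RingHom.comp_apply, phb_C]
theorem phb_X (n : ℕ) : phb n X = alb (c2 X) ^ n := by
  rw [phb, coe_eval₂RingHom, eval₂_X, map_pow]

theorem phb_pib (n : ℕ) : phb n (pib n) = 0 := by
  rw [pib, map_sub, map_pow, phb_X, phb_jq, sub_self]

theorem phb_ker (n : ℕ) (c : A3) (h : phb n c = 0) : pib n ∣ c := by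
  rw [phb, coe_eval₂RingHom, eval₂_at_apply] at h
  have h1 : c.eval (c2 X ^ n) = 0 := alb_inj (by rw [h, map_zero])
  have h2 : pib n = X - C (c2 X ^ n) := by
    rw [pib, jq, RingHom.comp_apply, C_pow]
  rw [h2, dvd_iff_isRoot]
  exact h1

theorem pib_ne (n : ℕ) : pib n ≠ 0 := by
  have h2 : pib n = X - C (c2 X ^ n) := by
    rw [pib, jq, RingHom.comp_apply, C_pow]
  rw [h2]; exact X_sub_C_ne_zero _

instance factb (n : ℕ) : Fact (Prime (pib n)) :=
  ⟨prime_of_ker (phb_ker n) (phb_pib n) (pib_ne n)⟩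

noncomputable def qb : Eb := alb (c2 X)
noncomputable def ab : Eb := alb xa

theorem A2_ne {x y : A2} (z u : ℂ) (h : ev2 z u x ≠ ev2 z u y) : x ≠ y := fun h' => h (by rw [h'])

theorem qb_ne : qb ≠ 0 := by
  rw [qb, Ne, map_eq_zero_iff _ alb_inj]
  exact (map_ne_zero_iff c2 c2_inj).2 X_ne_zero

theorem ab_ne : ab ≠ 0 := by
  rw [ab, Ne, map_eq_zero_iff _ alb_inj]
  exact A2_ne 1 1 (by rw [ev2_xa, map_zero]; norm_num)

theorem qb_pow_ne (i : ℕ) (hi : 0 < i) : qb ^ i ≠ 1 := by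
  intro h
  rw [qb, ← map_pow, ← map_one alb] at h
  refine A2_ne 2 1 ?_ (alb_inj h)
  rw [map_pow, ev2_c2, aeval_X, map_one]
  intro h'
  have h2 := congrArg norm h'
  rw [norm_pow] at h2
  norm_num at h2
  have : (1 : ℝ) < 2 ^ i := one_lt_pow₀ (by norm_num) hi.ne'
  linarith

theorem ab_q_ne (i : ℕ) : ab * qb ^ i ≠ 1 := by
  intro h
  rw [qb, ab, ← map_pow, ← map_mul, ← map_one alb] at h
  refine A2_ne 1 2 ?_ (alb_inj h)
  rw [map_mul, map_pow, ev2_c2, aeval_X, map_one, ev2_xa]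
  norm_num

theorem qb_a_ne (i : ℕ) : qb ^ i / ab ≠ 1 := by
  intro h
  rw [div_eq_one_iff_eq ab_ne, qb, ab, ← map_pow] at h
  refine A2_ne 1 2 ?_ (alb_inj h)
  rw [map_pow, ev2_c2, aeval_X, ev2_xa]
  norm_num

theorem Spq (n : ℕ) : Sp (phb n) q qb := by
  have := Sp.am (K := F3) (φ := phb n) (jq X)
  rwa [phb_jq] at this
theorem Spa (n : ℕ) : Sp (phb n) a ab := by
  have := Sp.am (K := F3) (φ := phb n) (C xa)
  rwa [phb_C] at this
theorem Spb (n : ℕ) : Sp (phb n) b (qb ^ n) := by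
  have := Sp.am (K := F3) (φ := phb n) X
  rwa [phb_X] at this

theorem eqb (m : ℕ) : SLg qb ab (qb ^ (2 * m + 1)) m = SRg qb ab (qb ^ (2 * m + 1)) (2 * m) := by
  refine S_eq qb_ne ab_ne qb_pow_ne (fun i _ _ => ab_q_ne i) (fun i _ _ => ab_q_ne _)
    (fun i _ _ => qb_a_ne i) (fun i _ _ => qb_a_ne _) ?_ m ?_
  · intro k
    rw [XX]
    have h1 := qb_a_ne (2 * k + 1 + 1)
    have h2 := ab_q_ne (2 * k + 1 + 1)
    refine mul_ne_zero (sub_ne_zero.2 fun h => h1 ?_) (sub_ne_zero.2 fun h => h2 ?_)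
    · rw [pow_succ]; exact h.symm
    · rw [pow_succ, ← mul_assoc]; exact h.symm
  · intro l hl
    constructor
    · have hz : poch (qb / qb ^ (2 * l + 1)) (qb ^ 2) m = 0 := by
        refine poch_eq_zero hl ?_
        rw [pow_succ qb (2 * l), ← pow_mul]
        have := pow_ne_zero (2 * l) qb_ne
        have := qb_ne
        field_simp
      rw [BL, PL, hz]; ring
    · have hz : poch (1 / qb ^ (2 * l + 1)) qb (2 * m) = 0 := by
        refine poch_eq_zero (i := 2 * l + 1) (by omega) ?_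
        have := pow_ne_zero (2 * l + 1) qb_ne
        field_simp
      rw [BR, PR', hz]; ring

theorem SLR_b (m : ℕ) : I F3 (pib (2 * m + 1)) 1 (SL m - SR (2 * m)) := by
  refine Sp.I (φ := phb (2 * m + 1)) (phb_ker _) (phb_pib _) ?_
  have h1 : Sp (phb (2 * m + 1)) (SL m) (SLg qb ab (qb ^ (2 * m + 1)) m) := by
    refine Sp.sum fun j _ => (Sp.one.sub ((Spq _).pow _)).mul
      (Sp.PL (Spq _) (Spa _) (Spb _) ab_ne (pow_ne_zero _ qb_ne) ?_ ?_ ?_ ?_)
    · exact poch_self_ne (fun i hi => by rw [← pow_mul]; exact qb_pow_ne _ (by omega)) j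
    · exact poch_ne fun i _ => by rw [mul_assoc, ← pow_mul, ← pow_add]; exact ab_q_ne _
    · exact poch_ne fun i _ => by
        rw [div_mul_eq_mul_div, ← pow_mul, ← pow_add]; exact qb_a_ne _
    · exact poch_ne fun i _ => by
        rw [← pow_mul, ← pow_add, ← pow_add]; exact qb_pow_ne _ (by omega)
  have h2 : Sp (phb (2 * m + 1)) (SR (2 * m)) (SRg qb ab (qb ^ (2 * m + 1)) (2 * m)) := by
    refine Sp.sum fun j _ => (Sp.one.sub ((Spq _).pow _)).mul
      (Sp.PR (Spq _) (Spa _) (Spb _) qb_ne ab_ne (pow_ne_zero _ qb_ne) ?_ ?_ ?_ ?_)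
    · exact poch_self_ne (fun i hi => qb_pow_ne _ hi) j
    · exact poch_ne fun i _ => by rw [mul_assoc, ← pow_succ']; exact ab_q_ne _
    · exact poch_ne fun i _ => by
        rw [div_mul_eq_mul_div, ← pow_succ']; exact qb_a_ne _
    · exact poch_ne fun i _ => by
        rw [← pow_mul, ← pow_add, ← pow_add]; exact qb_pow_ne _ (by omega)
  have h3 := h1.sub h2
  rwa [eqb, sub_self] at h3

/-! ### `a = q^{±n}` -/

abbrev KX : Type := Polynomial K
abbrev Ea : Type := FractionRing KX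

noncomputable abbrev ala : KX →+* Ea := algebraMap KX Ea

theorem ala_inj : Function.Injective ala := IsFractionRing.injective KX Ea

/-- evaluation `a ↦ t` of `ℚ[q][a]` -/
noncomputable def th (t : K) : A2 →+* K := (eval₂RingHom emb t : A1[X] →+* K)

theorem th_c2 (t : K) (r : A1) : th t (c2 r) = emb r := by
  change eval₂ emb t (C r : A1[X]) = _
  rw [eval₂_C]

theorem th_xa (t : K) : th t xa = t := by
  change eval₂ emb t (X : A1[X]) = _
  rw [eval₂_X]

noncomputable def pha (t : K) : A3 →+* Ea := ala.comp (mapRingHom (th t))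

theorem pha_C (t : K) (x : A2) : pha t (C x) = ala (C (th t x)) := by
  rw [pha, RingHom.comp_apply, coe_mapRingHom, map_C]
theorem pha_jq (t : K) (r : A1) : pha t (jq r) = ala (C (emb r)) := by
  rw [jq, RingHom.comp_apply, pha_C, th_c2]
theorem pha_X (t : K) : pha t X = ala X := by
  rw [pha, RingHom.comp_apply, coe_mapRingHom, map_X]

theorem pha_ker {t : K} {p : A2} (hp : ∀ x : A2, th t x = 0 → p ∣ x) (c : A3)
    (h : pha t c = 0) : C p ∣ c := by
  rw [pha, RingHom.comp_apply, map_eq_zero_iff _ ala_inj, coe_mapRingHom] at h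
  rw [C_dvd_iff_dvd_coeff]
  intro i
  apply hp
  have := congrArg (fun y => coeff y i) h
  simpa [coeff_map] using this

/-- `a - q^n` in `ℚ[q][a]` -/
noncomputable def pp (n : ℕ) : A2 := xa - c2 X ^ n
/-- `1 - a q^n` in `ℚ[q][a]` -/
noncomputable def pm (n : ℕ) : A2 := 1 - xa * c2 X ^ n

theorem K_q_pow (n : ℕ) : (Pool.Agent.R439.q : K) ^ n = emb (X ^ n) := by rw [map_pow, emb_X]

theorem pp_ker' (n : ℕ) (x : A1[X]) (h : eval₂ emb (Pool.Agent.R439.q ^ n) x = 0) :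
    (X - C X ^ n : A1[X]) ∣ x := by
  rw [K_q_pow, eval₂_at_apply] at h
  have h1 : x.eval (X ^ n) = 0 := emb_inj (by rw [h, map_zero])
  rw [← C_pow]
  exact dvd_iff_isRoot.2 h1

theorem pp_ker (n : ℕ) (x : A2) (h : th (Pool.Agent.R439.q ^ n) x = 0) : pp n ∣ x :=
  pp_ker' n x h

theorem pm_ker' (n : ℕ) (x : A1[X]) (h : eval₂ emb (Pool.Agent.R439.q ^ n)⁻¹ x = 0) :
    (1 - X * C X ^ n : A1[X]) ∣ x := by
  have hq : (Pool.Agent.R439.q : K) ^ n ≠ 0 := pow_ne_zero _ Pool.Agent.R439.q_ne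
  have hprim : (1 - X * C X ^ n : A1[X]).IsPrimitive := by
    intro r hr
    have h1 := (C_dvd_iff_dvd_coeff r (1 - X * C X ^ n : A1[X])).1 hr 0
    have : (1 - X * C X ^ n : A1[X]).coeff 0 = 1 := by simp
    rw [this] at h1
    exact isUnit_of_dvd_one h1
  have h1 : (1 - X * C X ^ n : A1[X]).map (algebraMap ℚ[X] K) ∣ x.map (algebraMap ℚ[X] K) := by
    have e : (1 - X * C X ^ n : A1[X]).map (algebraMap ℚ[X] K) =
        (X - C ((Pool.Agent.R439.q ^ n)⁻¹)) * C (-(Pool.Agent.R439.q ^ n)) := by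
      simp only [Polynomial.map_sub, Polynomial.map_one, Polynomial.map_mul, map_X,
        Polynomial.map_pow, map_C]
      have hX : (algebraMap ℚ[X] K) X = Pool.Agent.R439.q := emb_X
      have h2 : C ((Pool.Agent.R439.q ^ n)⁻¹) * C (Pool.Agent.R439.q ^ n) = (1 : K[X]) := by
        rw [← C_mul, inv_mul_cancel₀ hq, C_1]
      rw [hX, ← C_pow, C_neg]
      linear_combination (-1) * h2
    have hr : (X - C ((Pool.Agent.R439.q ^ n)⁻¹)) ∣ x.map (algebraMap ℚ[X] K) := by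
      rw [dvd_iff_isRoot, IsRoot.def, eval_map]; exact h
    rw [e]
    have hu : IsUnit (C (-(Pool.Agent.R439.q ^ n : K)) : K[X]) :=
      isUnit_C.2 (isUnit_iff_ne_zero.2 (neg_ne_zero.2 hq))
    exact (hu.mul_right_dvd).2 hr
  exact hprim.dvd_of_fraction_map_dvd_fraction_map h1

theorem pm_ker (n : ℕ) (x : A2) (h : th (Pool.Agent.R439.q ^ n)⁻¹ x = 0) : pm n ∣ x :=
  pm_ker' n x h

theorem th_pp (n : ℕ) : th (Pool.Agent.R439.q ^ n) (pp n) = 0 := by
  rw [pp, map_sub, map_pow, th_xa, th_c2, emb_X, sub_self]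
theorem th_pm (n : ℕ) : th (Pool.Agent.R439.q ^ n)⁻¹ (pm n) = 0 := by
  have hq : (Pool.Agent.R439.q : K) ^ n ≠ 0 := pow_ne_zero _ Pool.Agent.R439.q_ne
  rw [pm, map_sub, map_one, map_mul, map_pow, th_xa, th_c2, emb_X, inv_mul_cancel₀ hq, sub_self]

theorem pp_ne (n : ℕ) : pp n ≠ 0 := A2_ne 1 2 (by
  rw [pp, map_sub, map_pow, ev2_xa, ev2_c2, aeval_X, map_zero]; norm_num)
theorem pm_ne (n : ℕ) : pm n ≠ 0 := A2_ne 1 2 (by
  rw [pm, map_sub, map_one, map_mul, map_pow, ev2_xa, ev2_c2, aeval_X, map_zero]; norm_num)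

instance factp (n : ℕ) : Fact (Prime (C (pp n) : A3)) :=
  ⟨prime_of_ker (φ := pha (Pool.Agent.R439.q ^ n)) (pha_ker (pp_ker n))
    (by rw [pha_C, th_pp]; simp) (C_ne_zero.2 (pp_ne n))⟩
instance factm (n : ℕ) : Fact (Prime (C (pm n) : A3)) :=
  ⟨prime_of_ker (φ := pha (Pool.Agent.R439.q ^ n)⁻¹) (pha_ker (pm_ker n))
    (by rw [pha_C, th_pm]; simp) (C_ne_zero.2 (pm_ne n))⟩


/-! second level: specialising `b` -/

noncomputable def psk (k : ℕ) : KX →+* K := evalRingHom (Pool.Agent.R439.q ^ (2 * k + 1))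

theorem zero_of_Sp (f : Ea) (h : ∀ k, Sp (psk k) f 0) : f = 0 := by
  obtain ⟨c0, d0, hd0, rfl⟩ := IsFractionRing.div_surjective (A := KX) f
  have hd0' : d0 ≠ 0 := nonZeroDivisors.ne_zero hd0
  have hroot : ∀ k : ℕ, c0.IsRoot (Pool.Agent.R439.q ^ (2 * k + 1)) := by
    intro k
    obtain ⟨c, d, hd, he, h0⟩ := h k
    have hc : psk k c = 0 := by
      rcases div_eq_zero_iff.1 h0.symm with h | h
      · exact h
      · exact absurd h hd
    have e1 : ala d0 ≠ 0 := am_ne hd0'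
    have e2 : ala d ≠ 0 := ne_of_map hd
    rw [div_eq_div_iff e1 e2, ← map_mul, ← map_mul] at he
    have h2 := congrArg (psk k) (ala_inj he)
    rw [map_mul, map_mul, hc, zero_mul] at h2
    rcases mul_eq_zero.1 h2 with h3 | h3
    · exact h3
    · exact absurd h3 hd
  have hc0 : c0 = 0 := by
    refine eq_zero_of_infinite_isRoot c0 ?_
    refine Set.infinite_of_injective_forall_mem (f := fun k : ℕ => Pool.Agent.R439.q ^ (2 * k + 1))
      ?_ hroot
    intro k l hkl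
    have hkl' : Pool.Agent.R439.q ^ (2 * k + 1) = Pool.Agent.R439.q ^ (2 * l + 1) := hkl
    have h4 : Pool.Agent.R439.q ^ (((2 * k + 1 : ℕ) : ℤ) - ((2 * l + 1 : ℕ) : ℤ)) = 1 := by
      rw [zpow_sub₀ Pool.Agent.R439.q_ne, zpow_natCast, zpow_natCast, hkl',
        div_self (pow_ne_zero _ Pool.Agent.R439.q_ne)]
    by_contra hne
    exact q_zpow_ne_one (by omega) h4
  rw [hc0]; simp

section
variable {m : ℕ} {s : ℤ}

/-- the variable of `ℚ(q)` -/
noncomputable abbrev qK : K := Pool.Agent.R439.q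

theorem K1 {e : ℤ} (he : e ≠ 0) : qK ^ e ≠ 1 := q_zpow_ne_one he

theorem K_aq (hs : s = 2 * m + 1 ∨ s = -(2 * m + 1)) (i : ℕ) (h : s + i ≠ 0) :
    qK ^ s * qK ^ i ≠ 1 := by
  rw [← zpow_natCast, ← zpow_add₀ Pool.Agent.R439.q_ne]; exact K1 h

theorem K_qa (hs : s = 2 * m + 1 ∨ s = -(2 * m + 1)) (i : ℕ) (h : (i : ℤ) - s ≠ 0) :
    qK ^ i / qK ^ s ≠ 1 := by
  rw [← zpow_natCast, ← zpow_sub₀ Pool.Agent.R439.q_ne]; exact K1 h

theorem eqa_K (hm : 0 < m) (hs : s = 2 * m + 1 ∨ s = -(2 * m + 1)) (k : ℕ) :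
    SLg qK (qK ^ s) (qK ^ (2 * k + 1)) m = SRg qK (qK ^ s) (qK ^ (2 * k + 1)) (2 * m) := by
  have hq := Pool.Agent.R439.q_ne
  refine S_eq hq (zpow_ne_zero _ hq) (fun i hi => q_pow_ne_one hi.ne')
    (fun i _ _ => K_aq hs i (by omega)) (fun i _ _ => K_aq hs _ (by omega))
    (fun i _ _ => K_qa hs i (by omega)) (fun i _ _ => K_qa hs _ (by omega)) ?_ k ?_
  · intro k
    rw [XX]
    refine mul_ne_zero (sub_ne_zero.2 fun h => K_qa hs (2 * k + 1 + 1) (by omega) ?_)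
      (sub_ne_zero.2 fun h => K_aq hs (2 * k + 1 + 1) (by omega) ?_)
    · rw [pow_succ]; exact h.symm
    · rw [pow_succ, ← mul_assoc]; exact h.symm
  · intro l _
    have hz : (1 - qK ^ s * qK ^ (2 * m + 1)) * (1 - qK ^ (2 * m + 1) / qK ^ s) = 0 := by
      rcases hs with h | h
      · have : qK ^ (2 * m + 1) / qK ^ s = 1 := by
          rw [h]
          have : qK ^ (2 * (m : ℤ) + 1) = qK ^ (2 * m + 1) := by
            rw [← zpow_natCast]; push_cast; rfl
          rw [this]; exact div_self (pow_ne_zero _ hq)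
        rw [this]; ring
      · have : qK ^ s * qK ^ (2 * m + 1) = 1 := by
          rw [h, zpow_neg]
          have : qK ^ (2 * (m : ℤ) + 1) = qK ^ (2 * m + 1) := by
            rw [← zpow_natCast]; push_cast; rfl
          rw [this]; exact inv_mul_cancel₀ (pow_ne_zero _ hq)
        rw [this]; ring
    constructor
    · rw [BL]
      have e : ∀ x y z w v : K, x / y * (z * (1 - qK ^ s * qK ^ (2 * m + 1)) *
          (1 - qK ^ (2 * m + 1) / qK ^ s)) * w =
          x / y * z * w * ((1 - qK ^ s * qK ^ (2 * m + 1)) *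
          (1 - qK ^ (2 * m + 1) / qK ^ s)) := by intros; ring
      rw [e _ _ _ _ 0, hz, mul_zero]
    · have hz2 : poch (qK ^ s * qK) (qK ^ 2) (2 * m) * poch (qK / qK ^ s) (qK ^ 2) (2 * m) = 0 := by
        rcases mul_eq_zero.1 hz with h | h
        · rw [poch_eq_zero (a := qK ^ s * qK) (i := m) (by omega)
            (by rw [mul_assoc, ← pow_mul, ← pow_succ']; exact (sub_eq_zero.1 h).symm), zero_mul]
        · rw [poch_eq_zero (a := qK / qK ^ s) (i := m) (by omega)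
            (by rw [div_mul_eq_mul_div, ← pow_mul, ← pow_succ']; exact (sub_eq_zero.1 h).symm),
            mul_zero]
      rw [BR, PR']
      have e : ∀ x1 x2 x3 x4 x5 x6 x7 : K, x1 * (x2 * (x3 * poch (qK ^ s * qK) (qK ^ 2) (2 * m) *
          poch (qK / qK ^ s) (qK ^ 2) (2 * m) * x4) / x5) =
          x1 * x2 * x3 * x4 / x5 * (poch (qK ^ s * qK) (qK ^ 2) (2 * m) *
          poch (qK / qK ^ s) (qK ^ 2) (2 * m)) := by intros; ring
      rw [e _ _ _ _ _ 0 0, hz2, mul_zero]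

theorem K_polys (hs : s = 2 * m + 1 ∨ s = -(2 * m + 1)) (j : ℕ) (hj : j ≤ 2 * m) :
    poch (qK ^ 2) (qK ^ 2) j ≠ 0 ∧ poch (qK ^ s * qK ^ 2) (qK ^ 2) j ≠ 0 ∧
    poch (qK ^ 2 / qK ^ s) (qK ^ 2) j ≠ 0 ∧ poch qK qK j ≠ 0 ∧ poch (qK ^ s * qK) qK j ≠ 0 ∧
    poch (qK / qK ^ s) qK j ≠ 0 := by
  refine ⟨?_, ?_, ?_, ?_, ?_, ?_⟩
  · exact poch_self_ne (fun i hi => by rw [← pow_mul]; exact q_pow_ne_one (by omega)) j
  · exact poch_ne fun i _ => by
      rw [mul_assoc, ← pow_mul, ← pow_add]; exact K_aq hs _ (by omega)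
  · exact poch_ne fun i _ => by
      rw [div_mul_eq_mul_div, ← pow_mul, ← pow_add]; exact K_qa hs _ (by omega)
  · exact poch_self_ne (fun i hi => q_pow_ne_one hi.ne') j
  · exact poch_ne fun i _ => by rw [mul_assoc, ← pow_succ']; exact K_aq hs _ (by omega)
  · exact poch_ne fun i _ => by
      rw [div_mul_eq_mul_div, ← pow_succ']; exact K_qa hs _ (by omega)

/-- `q`, `a = q^s`, `b` in `Frac ℚ(q)[b]` -/
noncomputable def qe : Ea := ala (C qK)
noncomputable def be : Ea := ala X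

theorem qe_zpow (s : ℤ) : qe ^ s = ala (C (qK ^ s)) := by
  rcases s with s | s
  · rw [Int.ofNat_eq_natCast, zpow_natCast, zpow_natCast, C_pow, map_pow]; rfl
  · rw [zpow_negSucc, zpow_negSucc]
    have h : ala (C ((qK ^ (s + 1))⁻¹)) * qe ^ (s + 1) = 1 := by
      rw [qe, ← map_pow, ← C_pow, ← map_mul, ← C_mul,
        inv_mul_cancel₀ (pow_ne_zero _ Pool.Agent.R439.q_ne), C_1, map_one]
    exact (eq_inv_of_mul_eq_one_left h).symm

theorem qe_ne : qe ≠ 0 := by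
  rw [qe, Ne, map_eq_zero_iff _ ala_inj, C_eq_zero]; exact Pool.Agent.R439.q_ne
theorem be_ne : be ≠ 0 := by
  rw [be, Ne, map_eq_zero_iff _ ala_inj]; exact X_ne_zero

theorem qe_zpow_ne {e : ℤ} (he : e ≠ 0) : qe ^ e ≠ 1 := by
  rw [qe_zpow, ← map_one ala, ← C_1]
  exact fun h => q_zpow_ne_one he (C_injective (ala_inj h))

theorem E_aq (i : ℕ) (h : s + i ≠ 0) : qe ^ s * qe ^ i ≠ 1 := by
  rw [← zpow_natCast, ← zpow_add₀ qe_ne]; exact qe_zpow_ne h

theorem E_qa (i : ℕ) (h : (i : ℤ) - s ≠ 0) : qe ^ i / qe ^ s ≠ 1 := by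
  rw [← zpow_natCast, ← zpow_sub₀ qe_ne]; exact qe_zpow_ne h

theorem E_q (i : ℕ) (h : 0 < i) : qe ^ i ≠ 1 := by
  rw [← zpow_natCast]; exact qe_zpow_ne (by omega)

theorem E_bq (i : ℕ) (hi : 0 < i) : be * qe ^ i ≠ 1 := by
  intro h
  rw [be, ← zpow_natCast, qe_zpow, ← map_mul, ← map_one ala] at h
  have h2 := congrArg (eval 0) (ala_inj h)
  simp at h2

theorem Spk_q (k : ℕ) : Sp (psk k) qe qK := by
  have := Sp.am (K := Ea) (φ := psk k) (C qK)
  rwa [psk, coe_evalRingHom, eval_C] at this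
theorem Spk_a (k : ℕ) : Sp (psk k) (qe ^ s) (qK ^ s) := by
  have := Sp.am (K := Ea) (φ := psk k) (C (qK ^ s))
  rw [psk, coe_evalRingHom, eval_C] at this
  rw [qe_zpow]; exact this
theorem Spk_b (k : ℕ) : Sp (psk k) be (qK ^ (2 * k + 1)) := by
  have := Sp.am (K := Ea) (φ := psk k) X
  rwa [psk, coe_evalRingHom, eval_X] at this

theorem eqa (hm : 0 < m) (hs : s = 2 * m + 1 ∨ s = -(2 * m + 1)) :
    SLg qe (qe ^ s) be m = SRg qe (qe ^ s) be (2 * m) := by
  rw [← sub_eq_zero]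
  refine zero_of_Sp _ fun k => ?_
  have hq := Pool.Agent.R439.q_ne
  have hb : ∀ j, poch (qK ^ (2 * k + 1) * qK ^ 2) (qK ^ 2) j ≠ 0 := fun j =>
    poch_ne fun i _ => by
      rw [← pow_mul, ← pow_add, ← pow_add]; exact q_pow_ne_one (by omega)
  have h1 : Sp (psk k) (SLg qe (qe ^ s) be m) (SLg qK (qK ^ s) (qK ^ (2 * k + 1)) m) := by
    refine Sp.sum fun j hj => (Sp.one.sub ((Spk_q k).pow _)).mul ?_
    obtain ⟨n1, n2, n3, n4, n5, n6⟩ := K_polys hs j (by have := mem_range.1 hj; omega)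
    exact Sp.PL (Spk_q k) (Spk_a k) (Spk_b k) (zpow_ne_zero _ hq) (pow_ne_zero _ hq) n1 n2 n3 (hb j)
  have h2 : Sp (psk k) (SRg qe (qe ^ s) be (2 * m))
      (SRg qK (qK ^ s) (qK ^ (2 * k + 1)) (2 * m)) := by
    refine Sp.sum fun j hj => (Sp.one.sub ((Spk_q k).pow _)).mul ?_
    obtain ⟨n1, n2, n3, n4, n5, n6⟩ := K_polys hs j (by have := mem_range.1 hj; omega)
    exact Sp.PR (Spk_q k) (Spk_a k) (Spk_b k) hq (zpow_ne_zero _ hq) (pow_ne_zero _ hq)
      n4 n5 n6 (hb j)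
  have h3 := h1.sub h2
  rwa [eqa_K hm hs, sub_self] at h3

theorem Sp3_q (t : K) : Sp (pha t) q qe := by
  have := Sp.am (K := F3) (φ := pha t) (jq X)
  rw [pha_jq, emb_X] at this
  exact this
theorem Sp3_a : Sp (pha (qK ^ s)) a (qe ^ s) := by
  have := Sp.am (K := F3) (φ := pha (qK ^ s)) (C xa)
  rw [pha_C, th_xa] at this
  rw [qe_zpow]; exact this
theorem Sp3_b (t : K) : Sp (pha t) b be := by
  have := Sp.am (K := F3) (φ := pha t) X
  rwa [pha_X] at this

theorem Sp3_zero (hm : 0 < m) (hs : s = 2 * m + 1 ∨ s = -(2 * m + 1)) :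
    Sp (pha (qK ^ s)) (SL m - SR (2 * m)) 0 := by
  have hb : ∀ j, poch (be * qe ^ 2) (qe ^ 2) j ≠ 0 := fun j =>
    poch_ne fun i _ => by
      rw [mul_assoc, ← pow_mul, ← pow_add]; exact E_bq _ (by omega)
  have h1 : Sp (pha (qK ^ s)) (SL m) (SLg qe (qe ^ s) be m) := by
    refine Sp.sum fun j hj => (Sp.one.sub ((Sp3_q _).pow _)).mul
      (Sp.PL (Sp3_q _) Sp3_a (Sp3_b _) (zpow_ne_zero _ qe_ne) be_ne ?_ ?_ ?_ (hb j))
    · exact poch_self_ne (fun i hi => by rw [← pow_mul]; exact E_q _ (by omega)) j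
    · exact poch_ne fun i _ => by
        rw [mul_assoc, ← pow_mul, ← pow_add]; exact E_aq _ (by omega)
    · exact poch_ne fun i _ => by
        rw [div_mul_eq_mul_div, ← pow_mul, ← pow_add]; exact E_qa _ (by omega)
  have h2 : Sp (pha (qK ^ s)) (SR (2 * m)) (SRg qe (qe ^ s) be (2 * m)) := by
    refine Sp.sum fun j hj => (Sp.one.sub ((Sp3_q _).pow _)).mul
      (Sp.PR (Sp3_q _) Sp3_a (Sp3_b _) qe_ne (zpow_ne_zero _ qe_ne) be_ne ?_ ?_ ?_ (hb j))
    · exact poch_self_ne (fun i hi => E_q _ hi) j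
    · have hj' := mem_range.1 hj
      exact poch_ne fun i _ => by rw [mul_assoc, ← pow_succ']; exact E_aq _ (by omega)
    · have hj' := mem_range.1 hj
      exact poch_ne fun i _ => by
        rw [div_mul_eq_mul_div, ← pow_succ']; exact E_qa _ (by omega)
  have h3 := h1.sub h2
  rwa [eqa hm hs, sub_self] at h3

theorem SLR_p (hm : 0 < m) : I F3 (C (pp (2 * m + 1)) : A3) 1 (SL m - SR (2 * m)) := by
  have h := Sp3_zero (m := m) (s := 2 * m + 1) hm (Or.inl rfl)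
  have e : qK ^ (2 * (m : ℤ) + 1) = qK ^ (2 * m + 1) := by rw [← zpow_natCast]; push_cast; rfl
  rw [e] at h
  exact Sp.I (pha_ker (pp_ker _)) (by rw [pha_C, th_pp]; simp) h

theorem SLR_m (hm : 0 < m) : I F3 (C (pm (2 * m + 1)) : A3) 1 (SL m - SR (2 * m)) := by
  have h := Sp3_zero (m := m) (s := -(2 * m + 1)) hm (Or.inr rfl)
  have e : qK ^ (-(2 * (m : ℤ) + 1)) = (qK ^ (2 * m + 1))⁻¹ := by
    rw [zpow_neg, ← zpow_natCast]; push_cast; rfl
  rw [e] at h
  exact Sp.I (pha_ker (pm_ker _)) (by rw [pha_C, th_pm]; simp) h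

end

end Pool.Agent.R439.GL.AB3
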