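import Mathlib
import Pool.Agent.R439.QAB5

set_option autoImplicit false

/-!
Assembling the divisibility of the difference of the two sums by
`[n] Φ_n(q) (1 - a q^n)(a - q^n)(b - q^n)`.
-/

namespace Pool.Agent.R439.GL.AB3

open Polynomial Finset Pool.Agent.R439.GL Pool.Agent.R439.AB

theorem geom_pow_dvd {n k : ℕ} (hn : 1 < n) {A : ℚ[X]}
    (h : ∀ m, m ∣ n → 1 < m → cyclotomic m ℚ ∣ A) (h3 : cyclotomic n ℚ ^ (k + 1) ∣ A) :
    (∑ i ∈ range n, (X : ℚ[X]) ^ i) * cyclotomic n ℚ ^ k ∣ A := by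
  have hmem : n ∈ n.divisors.erase 1 := by
    rw [mem_erase, Nat.mem_divisors]
    exact ⟨by omega, dvd_rfl, by omega⟩
  have e1 : (∑ i ∈ range n, (X : ℚ[X]) ^ i) * cyclotomic n ℚ ^ k =
      ∏ i ∈ n.divisors.erase 1, (if i = n then cyclotomic i ℚ ^ (k + 1) else cyclotomic i ℚ) := by
    rw [← prod_cyclotomic_eq_geom_sum (by omega : 0 < n) ℚ, ← mul_prod_erase _ _ hmem,
      ← mul_prod_erase _ (fun i => if i = n then cyclotomic i ℚ ^ (k + 1) else cyclotomic i ℚ)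
      hmem, if_pos rfl]
    have : ∏ x ∈ (n.divisors.erase 1).erase n, (if x = n then cyclotomic x ℚ ^ (k + 1) else
        cyclotomic x ℚ) = ∏ x ∈ (n.divisors.erase 1).erase n, cyclotomic x ℚ :=
      prod_congr rfl fun x hx => if_neg (mem_erase.1 hx).1
    rw [this]
    ring
  rw [e1]
  refine Finset.prod_dvd_of_coprime ?_ fun i hi => ?_
  · intro i _ j _ hij
    have hc := cyclotomic.isCoprime_rat hij
    show IsCoprime (if i = n then cyclotomic i ℚ ^ (k + 1) else cyclotomic i ℚ)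
      (if j = n then cyclotomic j ℚ ^ (k + 1) else cyclotomic j ℚ)
    split_ifs
    · exact hc.pow
    · exact hc.pow_left
    · exact hc.pow_right
    · exact hc
  · split_ifs with hin
    · subst hin; exact h3
    · have h1 := mem_erase.1 hi
      have h2 := Nat.dvd_of_mem_divisors h1.2
      have h3 : 0 < i := Nat.pos_of_mem_divisors h1.2
      exact h i h2 (by omega)

theorem c2_dvd_iff (r : A1) (x : A2) : c2 r ∣ x ↔ ∀ i, r ∣ (x : A1[X]).coeff i :=
  C_dvd_iff_dvd_coeff r (x : A1[X])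

theorem jq_dvd_iff (r : A1) (x : A3) : jq r ∣ x ↔ ∀ i j, r ∣ (x.coeff i : A1[X]).coeff j := by
  rw [jq, RingHom.comp_apply, C_dvd_iff_dvd_coeff]
  exact forall_congr' fun i => c2_dvd_iff r _

/-- the modulus -/
noncomputable def MM (n : ℕ) : A3 :=
  jq ((∑ i ∈ range n, X ^ i) * cyclotomic n ℚ) *
    ((1 - C xa * jq X ^ n) * (C xa - jq X ^ n) * (X - jq X ^ n))

theorem MM_eq (n : ℕ) : MM n = jq ((∑ i ∈ range n, X ^ i) * cyclotomic n ℚ) *
    (C (pm n) * C (pp n) * pib n) := by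
  have h1 : (C (pm n) : A3) = 1 - C xa * jq X ^ n := by
    rw [pm, C_sub, C_1, C_mul, C_pow]; rfl
  have h2 : (C (pp n) : A3) = C xa - jq X ^ n := by
    rw [pp, C_sub, C_pow]; rfl
  rw [MM, h1, h2]; rfl

theorem not_dvd_of_map {R E : Type*} [CommRing R] [Field E] (φ : R →+* E) {π x : R}
    (h0 : φ π = 0) (hx : φ x ≠ 0) : ¬ π ∣ x := by
  rintro ⟨y, rfl⟩
  exact hx (by rw [map_mul, h0, zero_mul])

theorem jq_ne {r : A1} (hr : r ≠ 0) (t : K) : pha t (jq r) ≠ 0 := by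
  rw [pha_jq, Ne, map_eq_zero_iff _ ala_inj, C_eq_zero]
  exact emb_ne hr

theorem jq_ne' {r : A1} (hr : r ≠ 0) (n : ℕ) : phb n (jq r) ≠ 0 := by
  rw [phb_jq, Ne, map_eq_zero_iff _ alb_inj]
  exact (map_ne_zero_iff c2 c2_inj).2 hr

theorem pp_jq {r : A1} (hr : r ≠ 0) (n : ℕ) : ¬ (C (pp n) : A3) ∣ jq r :=
  not_dvd_of_map (pha (Pool.Agent.R439.q ^ n)) (by rw [pha_C, th_pp]; simp) (jq_ne hr _)
theorem pm_jq {r : A1} (hr : r ≠ 0) (n : ℕ) : ¬ (C (pm n) : A3) ∣ jq r :=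
  not_dvd_of_map (pha (Pool.Agent.R439.q ^ n)⁻¹) (by rw [pha_C, th_pm]; simp) (jq_ne hr _)
theorem pb_jq {r : A1} (hr : r ≠ 0) (n : ℕ) : ¬ pib n ∣ jq r :=
  not_dvd_of_map (phb n) (phb_pib n) (jq_ne' hr _)

theorem pp_pm {n : ℕ} (hn : 0 < n) : ¬ (C (pp n) : A3) ∣ C (pm n) := by
  refine not_dvd_of_map (pha (Pool.Agent.R439.q ^ n)) (by rw [pha_C, th_pp]; simp) ?_
  rw [pha_C, pm, map_sub, map_one, map_mul, map_pow, th_xa, th_c2, emb_X, Ne,
    map_eq_zero_iff _ ala_inj, C_eq_zero, ← pow_add, sub_eq_zero]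
  exact fun h => q_pow_ne_one (by omega) h.symm

theorem pb_pm (n : ℕ) : ¬ pib n ∣ (C (pm n) : A3) := by
  refine not_dvd_of_map (phb n) (phb_pib n) ?_
  rw [phb_C, Ne, map_eq_zero_iff _ alb_inj]; exact pm_ne n
theorem pb_pp (n : ℕ) : ¬ pib n ∣ (C (pp n) : A3) := by
  refine not_dvd_of_map (phb n) (phb_pib n) ?_
  rw [phb_C, Ne, map_eq_zero_iff _ alb_inj]; exact pp_ne n

theorem relPrime_of_not_dvd {π x : A3} (hπ : Prime π) (h : ¬ π ∣ x) : IsRelPrime x π := by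
  intro y hyx hyπ
  rcases hπ.irreducible.dvd_iff.1 hyπ with hu | ha
  · exact hu
  · exact absurd (ha.dvd.trans hyx) h

/-- combination of the local statements -/
theorem combine {m : ℕ} (hm : 0 < m) {x : F3}
    (h1 : ∀ d : ℕ, [NeZero d] → d ∣ 2 * m + 1 → 1 < d → I F3 (Phi d) 1 x)
    (h2 : I F3 (Phi (2 * m + 1)) 2 x)
    (hp : I F3 (C (pp (2 * m + 1)) : A3) 1 x) (hmm : I F3 (C (pm (2 * m + 1)) : A3) 1 x)
    (hb : I F3 (pib (2 * m + 1)) 1 x) {c d : A3} (hd0 : d ≠ 0) (hcd : IsRelPrime c d)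
    (hx : x = am c / am d) :
    MM (2 * m + 1) ∣ c ∧ IsRelPrime d (MM (2 * m + 1)) := by
  set n := 2 * m + 1 with hn
  have hn1 : 1 < n := by omega
  rw [hx] at h2 hp hmm hb
  have h1' : ∀ e : ℕ, [NeZero e] → e ∣ n → 1 < e → Phi e ∣ c ∧ ¬ Phi e ∣ d := by
    intro e _ he he1
    have := h1 e he he1
    rw [hx] at this
    have h := I_num hd0 hcd one_pos this
    rwa [pow_one] at h
  obtain ⟨g2, _⟩ := I_num hd0 hcd two_pos h2
  obtain ⟨gp, gp'⟩ := I_num hd0 hcd one_pos hp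
  obtain ⟨gm, gm'⟩ := I_num hd0 hcd one_pos hmm
  obtain ⟨gb, gb'⟩ := I_num hd0 hcd one_pos hb
  rw [pow_one] at gp gm gb
  set r : A1 := (∑ i ∈ range n, X ^ i) * cyclotomic n ℚ with hr
  have hrprod : r = (∏ i ∈ n.divisors.erase 1, cyclotomic i ℚ) * cyclotomic n ℚ := by
    rw [hr, prod_cyclotomic_eq_geom_sum (by omega : 0 < n) ℚ]
  have hr0 : r ≠ 0 := by
    rw [hrprod]
    exact mul_ne_zero (prod_ne_zero_iff.2 fun i _ => cyclotomic_ne_zero _ _) (cyclotomic_ne_zero _ _)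
  have gr : jq r ∣ c := by
    rw [jq_dvd_iff]
    intro i j
    have := geom_pow_dvd (k := 1) hn1 (A := (c.coeff i : A1[X]).coeff j) (fun e he he1 => ?_) ?_
    · rwa [pow_one] at this
    · have : NeZero e := ⟨by omega⟩
      exact (jq_dvd_iff _ _).1 (h1' e he he1).1 i j
    · have h : jq (cyclotomic n ℚ ^ 2) ∣ c := by rw [map_pow]; exact g2
      exact (jq_dvd_iff _ _).1 h i j
  constructor
  · obtain ⟨c1, hc1⟩ := gr
    rw [hc1] at gm gp gb
    have gm1 := ((factm n).out.dvd_or_dvd gm).resolve_left (pm_jq hr0 n)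
    have gp1 := ((factp n).out.dvd_or_dvd gp).resolve_left (pp_jq hr0 n)
    have gb1 := ((factb n).out.dvd_or_dvd gb).resolve_left (pb_jq hr0 n)
    obtain ⟨c2', hc2⟩ := gm1
    rw [hc2] at gp1 gb1
    have gp2 := ((factp n).out.dvd_or_dvd gp1).resolve_left (pp_pm (by omega))
    have gb2 := ((factb n).out.dvd_or_dvd gb1).resolve_left (pb_pm n)
    obtain ⟨c3, hc3⟩ := gp2
    rw [hc3] at gb2
    have gb3 := ((factb n).out.dvd_or_dvd gb2).resolve_left (pb_pp n)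
    obtain ⟨c4, hc4⟩ := gb3
    rw [MM_eq, hc1, hc2, hc3, hc4]
    exact ⟨c4, by ring⟩
  · rw [MM_eq]
    refine IsRelPrime.mul_right ?_ (IsRelPrime.mul_right (IsRelPrime.mul_right ?_ ?_) ?_)
    · rw [← hr, hrprod, map_mul, map_prod]
      refine IsRelPrime.mul_right ?_ ?_
      · refine IsRelPrime.prod_right fun i hi => ?_
        have hi1 := mem_erase.1 hi
        have hi2 := Nat.dvd_of_mem_divisors hi1.2
        have hi3 : 0 < i := Nat.pos_of_mem_divisors hi1.2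
        have : NeZero i := ⟨hi3.ne'⟩
        exact relPrime_of_not_dvd (factPhi i).out (h1' i hi2 (by omega)).2
      · have : NeZero n := ⟨by omega⟩
        exact relPrime_of_not_dvd (factPhi n).out (h1' n dvd_rfl hn1).2
    · exact relPrime_of_not_dvd (factm n).out gm'
    · exact relPrime_of_not_dvd (factp n).out gp'
    · exact relPrime_of_not_dvd (factb n).out gb'

/-- the difference, divided by `1 - q` -/
theorem main {m : ℕ} (hm : 0 < m) :
    ∃ c d : A3, d ≠ 0 ∧ IsRelPrime d (MM (2 * m + 1)) ∧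
      (SL m - SR (2 * m)) / (1 - q) = am (MM (2 * m + 1)) * (am c / am d) := by
  set x := (SL m - SR (2 * m)) / (1 - q) with hx
  obtain ⟨c, d, hcd, hcdx⟩ := IsFractionRing.exists_reduced_fraction (A := A3) (K := F3) x
  have hd0 : (d : A3) ≠ 0 := nonZeroDivisors.coe_ne_zero d
  have hxcd : x = am c / am d := by
    rw [← hcdx, IsFractionRing.mk'_eq_div]
  have q1 : (1 - q : F3) = am (jq (1 - X)) := by simp [q, jq]
  have hX1 : (1 - X : A1) ≠ 0 := by
    intro h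
    have := congrArg (eval 0) h
    simp at this
  have uni : ∀ π : A3, [Fact (Prime π)] → ¬ π ∣ jq (1 - X) → U F3 π (1 - q) := by
    intro π _ h
    rw [q1]; exact U_am h
  have k1 : ∀ e : ℕ, [NeZero e] → e ∣ 2 * m + 1 → 1 < e → I F3 (Phi e) 1 x := by
    intro e _ he he1
    have he2 : e % 2 = 1 := by
      rcases Nat.mod_two_eq_zero_or_one e with h | h
      · obtain ⟨k, hk⟩ := he
        have : (2 * m + 1) % 2 = 0 := by rw [hk, Nat.mul_mod, h, zero_mul, Nat.zero_mod]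
        omega
      · exact h
    have hu : U F3 (Phi e) (1 - q) := by
      have := U_one_sub_q (n := e) (k := 1) (fun h => by have := Nat.le_of_dvd one_pos h; omega)
      rwa [pow_one] at this
    exact ((SL_I he2 he).sub (SR_I he2 he)).div hu
  have k2 : I F3 (Phi (2 * m + 1)) 2 x := by
    have hu : U F3 (Phi (2 * m + 1)) (1 - q) := by
      have := U_one_sub_q (n := 2 * m + 1) (k := 1)
        (fun h => by have := Nat.le_of_dvd one_pos h; omega)
      rwa [pow_one] at this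
    exact (SLR_I2 rfl).div hu
  have k3 := (SLR_p hm).div (uni _ (pp_jq hX1 _))
  have k4 := (SLR_m hm).div (uni _ (pm_jq hX1 _))
  have k5 := (SLR_b m).div (uni _ (pb_jq hX1 _))
  obtain ⟨g1, g2⟩ := combine (x := x) hm k1 k2 k3 k4 k5 hd0 hcd hxcd
  obtain ⟨c', hc'⟩ := g1
  exact ⟨c', d, hd0, g2, by rw [hxcd, hc', map_mul]; ring⟩

end Pool.Agent.R439.GL.AB3
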