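import Mathlib
import Pool.Agent.R439.QLoc
import Pool.Agent.R439.QH

set_option autoImplicit false

/-!
Calculus of congruences and units in the local ring at `Φ_n`.
-/

namespace Pool.Agent.R439

open Finset Polynomial

variable {n : ℕ} [NeZero n]

/-! ### Units -/

/-- `x` is a unit of the local ring -/
def U (n : ℕ) [NeZero n] (x : K) : Prop := x ≠ 0 ∧ x ∈ O n ∧ x⁻¹ ∈ O n

theorem U.one : U n 1 := ⟨one_ne_zero, one_mem _, by rw [inv_one]; exact one_mem _⟩

theorem U.mul {x y : K} (hx : U n x) (hy : U n y) : U n (x * y) :=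
  ⟨mul_ne_zero hx.1 hy.1, mul_mem hx.2.1 hy.2.1, by rw [mul_inv]; exact mul_mem hx.2.2 hy.2.2⟩

theorem U.inv {x : K} (hx : U n x) : U n x⁻¹ :=
  ⟨inv_ne_zero hx.1, hx.2.2, by rw [inv_inv]; exact hx.2.1⟩

theorem U.div {x y : K} (hx : U n x) (hy : U n y) : U n (x / y) := by
  rw [div_eq_mul_inv]; exact hx.mul hy.inv

theorem U.neg {x : K} (hx : U n x) : U n (-x) :=
  ⟨neg_ne_zero.2 hx.1, neg_mem hx.2.1, by rw [inv_neg]; exact neg_mem hx.2.2⟩

theorem U.pow {x : K} (hx : U n x) (k : ℕ) : U n (x ^ k) := by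
  induction k with
  | zero => rw [pow_zero]; exact U.one
  | succ k ih => rw [pow_succ]; exact ih.mul hx

theorem U.prod {ι : Type*} {s : Finset ι} {f : ι → K} (h : ∀ i ∈ s, U n (f i)) :
    U n (∏ i ∈ s, f i) := by
  classical
  induction s using Finset.induction_on with
  | empty => simpa using U.one
  | insert a s ha ih =>
    rw [prod_insert ha]
    exact (h a (mem_insert_self _ _)).mul (ih fun i hi => h i (mem_insert_of_mem hi))

theorem U_q (e : ℤ) : U n (q ^ e) :=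
  ⟨zpow_ne_zero _ q_ne, zpow_mem _, by rw [← zpow_neg]; exact zpow_mem _⟩

theorem U_qpow (e : ℕ) : U n (q ^ e) := by rw [← zpow_natCast]; exact U_q _

theorem U_rat {c : ℚ} (hc : c ≠ 0) : U n (c : K) :=
  ⟨by exact_mod_cast hc, rat_mem _, ratinv_mem _⟩

theorem U_one_sub {e : ℤ} (he : ¬ (n : ℤ) ∣ e) : U n (1 - q ^ e) :=
  ⟨one_sub_zpow_ne (by rintro rfl; exact he (dvd_zero _)), sub_mem (one_mem _) (zpow_mem _),
    inv_one_sub_zmem he⟩

theorem U.not_I {x : K} (hx : U n x) {k : ℕ} (hk : 0 < k) : ¬ I n k x :=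
  not_I_of_inv hx.1 hx.2.2 hk

theorem U_of_not_I {x : K} (hx : x ∈ O n) (h : ¬ I n 1 x) : U n x := by
  obtain ⟨A, B, hB, rfl⟩ := hx
  have hB0 : emb B ≠ 0 := emb_ne fun h => hB (h ▸ dvd_zero _)
  have hA : ¬ cyclotomic n ℚ ∣ A := by
    rintro ⟨A', rfl⟩
    apply h
    obtain ⟨W, hW, hw⟩ := w_emb (n := n)
    have hW0 : emb W ≠ 0 := emb_ne fun h => hW (h ▸ dvd_zero _)
    refine ⟨emb A' * (emb W)⁻¹ * (emb B)⁻¹, mul_mem (mul_mem (emb_mem _) (emb_inv_mem hW))
      (emb_inv_mem hB), ?_⟩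
    rw [hw, map_mul]
    field_simp
  have hA0 : emb A ≠ 0 := emb_ne fun h => hA (h ▸ dvd_zero _)
  refine ⟨div_ne_zero hA0 hB0, ⟨A, B, hB, rfl⟩, ?_⟩
  rw [inv_div]
  exact ⟨B, A, hA, rfl⟩

/-! ### Congruences with membership -/

/-- `x ≡ y` modulo `(1-q^n)^k` in the local ring. -/
def EQ (n : ℕ) [NeZero n] (k : ℕ) (x y : K) : Prop := x ∈ O n ∧ y ∈ O n ∧ I n k (x - y)

variable {k : ℕ}

theorem EQ.refl {x : K} (hx : x ∈ O n) : EQ n k x x := ⟨hx, hx, by rw [sub_self]; exact I.zero⟩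

theorem EQ.symm {x y : K} (h : EQ n k x y) : EQ n k y x := ⟨h.2.1, h.1, h.2.2.symm⟩

theorem EQ.trans {x y z : K} (h : EQ n k x y) (h' : EQ n k y z) : EQ n k x z :=
  ⟨h.1, h'.2.1, h.2.2.trans h'.2.2⟩

theorem EQ.mono {l : ℕ} (hl : l ≤ k) {x y : K} (h : EQ n k x y) : EQ n l x y :=
  ⟨h.1, h.2.1, h.2.2.mono hl⟩

theorem EQ.add {x y x' y' : K} (h : EQ n k x x') (h' : EQ n k y y') :
    EQ n k (x + y) (x' + y') :=
  ⟨add_mem h.1 h'.1, add_mem h.2.1 h'.2.1, by
    have : x + y - (x' + y') = (x - x') + (y - y') := by ring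
    rw [this]; exact h.2.2.add h'.2.2⟩

theorem EQ.neg {x x' : K} (h : EQ n k x x') : EQ n k (-x) (-x') :=
  ⟨neg_mem h.1, neg_mem h.2.1, by
    have : -x - -x' = -(x - x') := by ring
    rw [this]; exact h.2.2.neg⟩

theorem EQ.sub {x y x' y' : K} (h : EQ n k x x') (h' : EQ n k y y') :
    EQ n k (x - y) (x' - y') := by
  rw [sub_eq_add_neg, sub_eq_add_neg]; exact h.add h'.neg

theorem EQ.mul {x y x' y' : K} (h : EQ n k x x') (h' : EQ n k y y') :
    EQ n k (x * y) (x' * y') :=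
  ⟨mul_mem h.1 h'.1, mul_mem h.2.1 h'.2.1, I.mul_congr h.1 h'.2.1 h.2.2 h'.2.2⟩

theorem EQ.pow {x y : K} (h : EQ n k x y) (l : ℕ) : EQ n k (x ^ l) (y ^ l) := by
  induction l with
  | zero => rw [pow_zero, pow_zero]; exact EQ.refl (one_mem _)
  | succ l ih => rw [pow_succ, pow_succ]; exact ih.mul h

theorem EQ.sum {ι : Type*} {s : Finset ι} {f g : ι → K} (h : ∀ i ∈ s, EQ n k (f i) (g i)) :
    EQ n k (∑ i ∈ s, f i) (∑ i ∈ s, g i) := by
  classical
  induction s using Finset.induction_on with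
  | empty => simpa using EQ.refl (zero_mem (O n))
  | insert a s ha ih =>
    rw [sum_insert ha, sum_insert ha]
    exact (h a (mem_insert_self _ _)).add (ih fun i hi => h i (mem_insert_of_mem hi))

theorem EQ.prod {ι : Type*} {s : Finset ι} {f g : ι → K} (h : ∀ i ∈ s, EQ n k (f i) (g i)) :
    EQ n k (∏ i ∈ s, f i) (∏ i ∈ s, g i) := by
  classical
  induction s using Finset.induction_on with
  | empty => simpa using EQ.refl (one_mem (O n))
  | insert a s ha ih =>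
    rw [prod_insert ha, prod_insert ha]
    exact (h a (mem_insert_self _ _)).mul (ih fun i hi => h i (mem_insert_of_mem hi))

theorem EQ.unit {x y : K} (hk : 0 < k) (h : EQ n k x y) (hx : U n x) : U n y := by
  apply U_of_not_I h.2.1
  intro hy
  apply hx.not_I one_pos
  have : x = (x - y) + y := by ring
  rw [this]
  exact (h.2.2.mono hk).add hy

theorem EQ.inv {x y : K} (hk : 0 < k) (h : EQ n k x y) (hx : U n x) : EQ n k x⁻¹ y⁻¹ := by
  have hy := h.unit hk hx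
  refine ⟨hx.2.2, hy.2.2, ?_⟩
  have h1 := hx.1
  have h2 := hy.1
  have : x⁻¹ - y⁻¹ = (x⁻¹ * y⁻¹) * (-(x - y)) := by field_simp; ring
  rw [this]
  exact h.2.2.neg.mulL (mul_mem hx.2.2 hy.2.2)

theorem EQ.div {x y x' y' : K} (hk : 0 < k) (h : EQ n k x x') (h' : EQ n k y y') (hy : U n y) :
    EQ n k (x / y) (x' / y') := by
  rw [div_eq_mul_inv, div_eq_mul_inv]; exact h.mul (h'.inv hk hy)

theorem EQ.of_I {x : K} (h : I n k x) : EQ n k x 0 := ⟨h.mem, zero_mem _, by rwa [sub_zero]⟩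

theorem EQ.w_mul {x y : K} (h : EQ n k x y) : EQ n (k + 1) (w n * x) (w n * y) :=
  ⟨mul_mem w_mem h.1, mul_mem w_mem h.2.1, by
    rw [← mul_sub]; exact I_w_mul_iff.2 h.2.2⟩

/-! ### The `Q`-integers `(1 - q^(n s))/(1 - q^n)` -/

/-- `(1 - q^(n s))/(1 - q^n)` -/
noncomputable def qi (n : ℕ) (s : ℤ) : K := (1 - q ^ ((n : ℤ) * s)) / w n

theorem w_qi (s : ℤ) : w n * qi n s = 1 - q ^ ((n : ℤ) * s) := by
  rw [qi, mul_div_cancel₀ _ w_ne]

theorem qi_eq (s : ℤ) : EQ n 1 (qi n s) (s : K) := by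
  have h := qn_zpow (n := n) s
  have h1 : I n 2 (w n * (qi n s - s)) := by
    have : w n * (qi n s - s) = -(q ^ ((n : ℤ) * s) - (1 - (s : K) * w n)) := by
      rw [mul_sub, w_qi]; ring
    rw [this]; exact h.neg
  have h2 : I n 1 (qi n s - s) := I_w_mul_iff.1 h1
  have hs : (s : K) ∈ O n := intCast_mem _ _
  refine ⟨?_, hs, h2⟩
  have := add_mem h2.mem hs
  simpa using this

theorem qi_U {s : ℤ} (hs : s ≠ 0) : U n (qi n s) := by
  have h : U n (s : K) := by
    have := U_rat (n := n) (c := (s : ℚ)) (by exact_mod_cast hs)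
    simpa using this
  exact (qi_eq s).symm.unit one_pos h

/-- `q^(n s) ≡ 1` modulo `1 - q^n` -/
theorem Q_eq (s : ℤ) : EQ n 1 (q ^ ((n : ℤ) * s)) 1 := by
  refine ⟨zpow_mem _, one_mem _, ?_⟩
  have : q ^ ((n : ℤ) * s) - 1 = w n * (-(qi n s)) := by rw [mul_neg, w_qi]; ring
  rw [this]
  exact I_w_mul_iff.2 (I_zero_iff.2 (neg_mem (qi_eq s).1))

theorem q_shift (e s : ℤ) : EQ n 1 (q ^ (e + (n : ℤ) * s)) (q ^ e) := by
  rw [zpow_add₀ q_ne]
  have := (EQ.refl (n := n) (k := 1) (zpow_mem e)).mul (Q_eq s)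
  simpa using this

/-! ### One-parameter shifted factorials -/

/-- `(q^(e+nt); B)_i` -/
noncomputable def gp (n : ℕ) (e : ℤ) (B : K) (i : ℕ) (t : ℤ) : K :=
  poch (q ^ (e + (n : ℤ) * t)) B i

theorem gp_aff {B : K} (hB : B ∈ O n) (e : ℤ) (i : ℕ) : Aff n (gp n e B i) := by
  unfold gp poch
  exact Aff.prod fun j _ => (Aff.const (one_mem _)).sub
    ((Aff.qpow e (AddMonoidHom.id ℤ)).mul (Aff.const (pow_mem hB _)))

theorem Aff.mem {M : Type*} [AddCommGroup M] {g : M → K} (hg : Aff n g) (s : M) : g s ∈ O n := by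
  obtain ⟨L, hL, h0, H⟩ := hg.lin
  have := (H s).mem
  have h2 := add_mem this (add_mem h0 (mul_mem w_mem (hL s)))
  simpa using h2

theorem Aff.eq_one {M : Type*} [AddCommGroup M] {g : M → K} (hg : Aff n g) (s t : M) :
    EQ n 1 (g s) (g t) := by
  obtain ⟨a, ha, L, hL, H⟩ := hg
  have key : ∀ s, EQ n 1 (g s) a := by
    intro s
    have h1 := (H s)
    have h2 : I n 1 (w n * L s) := I_w_mul_iff.2 (I_zero_iff.2 (hL s))
    have h3 : I n 1 (g s - a) := by
      have : g s - a = (g s - (a + w n * L s)) + w n * L s := by ring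
      rw [this]; exact (h1.mono one_le_two).add h2
    refine ⟨?_, ha, h3⟩
    have := add_mem h3.mem ha
    simpa using this
  exact (key s).trans (key t).symm

/-- products of two values of an affine function depend only on the sum of the arguments -/
theorem Aff.mul_two {g : ℤ → K} (hg : Aff n g) (x y x' y' : ℤ) (h : x + y = x' + y') :
    EQ n 2 (g x * g y) (g x' * g y') := by
  refine ⟨mul_mem (hg.mem _) (hg.mem _), mul_mem (hg.mem _) (hg.mem _), ?_⟩
  obtain ⟨a, ha, L, hL, H⟩ := hg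
  have key : ∀ x y : ℤ, I n 2 (g x * g y - (a * a + w n * (a * L (x + y)))) := by
    intro x y
    have m1 : a + w n * L x ∈ O n := add_mem ha (mul_mem w_mem (hL x))
    have m2 : g y ∈ O n := by
      have := add_mem (H y).mem (add_mem ha (mul_mem w_mem (hL y)))
      simpa using this
    have : g x * g y - (a * a + w n * (a * L (x + y))) =
        (g x - (a + w n * L x)) * g y + (a + w n * L x) * (g y - (a + w n * L y)) +
        w n ^ 2 * (L x * L y) := by
      rw [map_add]; ring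
    rw [this]
    exact (((H x).mulR m2).add ((H y).mulL m1)).add ⟨_, mul_mem (hL x) (hL y), rfl⟩
  have h1 := key x y
  have h2 := key x' y'
  rw [← h] at h2
  exact I.trans h1 h2.symm

theorem Aff.mul_three {g : ℤ → K} (hg : Aff n g) (x y z x' y' z' : ℤ)
    (h : x + y + z = x' + y' + z') :
    EQ n 2 (g x * g y * g z) (g x' * g y' * g z') := by
  -- move step by step
  have s1 : EQ n 2 (g x * g y * g z) (g x' * g (x + y - x') * g z) :=
    (hg.mul_two x y x' (x + y - x') (by ring)).mul (EQ.refl (hg.mem z))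
  have s2 : EQ n 2 (g x' * (g (x + y - x') * g z)) (g x' * (g y' * g z')) :=
    (EQ.refl (hg.mem x')).mul (hg.mul_two (x + y - x') z y' z' (by linarith))
  rw [← mul_assoc, ← mul_assoc] at s2
  exact s1.trans s2

theorem Aff.inv {M : Type*} [AddCommGroup M] {g : M → K} (hg : Aff n g) (hU : ∀ s, U n (g s)) :
    Aff n (fun s => (g s)⁻¹) := by
  obtain ⟨L, hL, h0, H⟩ := hg.lin
  have u0 := hU 0
  set a := g 0 with ha
  refine ⟨a⁻¹, u0.2.2, (AddMonoidHom.mulLeft (-(a⁻¹ ^ 2))).comp L,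
    fun s => mul_mem (neg_mem (pow_mem u0.2.2 _)) (hL s), fun s => ?_⟩
  have us := hU s
  have ha0 := u0.1
  have hs0 := us.1
  have : (g s)⁻¹ - (a⁻¹ + w n * ((AddMonoidHom.mulLeft (-(a⁻¹ ^ 2))).comp L) s) =
      (g s)⁻¹ * (-(a⁻¹ - w n * (a⁻¹ ^ 2 * L s)) * (g s - (a + w n * L s)) +
        w n ^ 2 * (a⁻¹ ^ 2 * L s ^ 2)) := by
    simp only [AddMonoidHom.comp_apply, AddMonoidHom.coe_mulLeft]
    field_simp
    ring
  rw [this]
  refine I.mulL us.2.2 ((I.mulL ?_ (H s)).add ⟨_, ?_, rfl⟩)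
  · exact neg_mem (sub_mem u0.2.2 (mul_mem w_mem (mul_mem (pow_mem u0.2.2 _) (hL s))))
  · exact mul_mem (pow_mem u0.2.2 _) (pow_mem (hL s) _)

end Pool.Agent.R439
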