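import Mathlib

set_option autoImplicit false

/-!
The rising factorial of a rational number.
-/

namespace Pool.Agent.R439

open Finset

/-- The rising factorial `(x)_k = x(x+1)⋯(x+k-1)` of a rational number. -/
def rf (x : ℚ) (k : ℕ) : ℚ := ∏ i ∈ range k, (x + i)

end Pool.Agent.R439
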