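import Mathlib
import Pool.Agent.R439.QEq
import Pool.Agent.R439.RfDefs

set_option autoImplicit false

/-!
Block structure of `(q^r;q^(2r))_k/(q^(2r);q^(2r))_k` with respect to `n = 2M+1`.
-/

namespace Pool.Agent.R439

open Finset Polynomial

/-- `(1/2)_k/k!` -/
def ch (k : ℕ) : ℚ := rf (1 / 2) k / (k.factorial : ℚ)

theorem ch_zero : ch 0 = 1 := by simp [ch, rf]

theorem ch_succ (k : ℕ) : ch (k + 1) = ch k * ((2 * k + 1) / (2 * k + 2)) := by
  have : (k.factorial : ℚ) ≠ 0 := by positivity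
  rw [ch, ch, rf, rf, prod_range_succ, Nat.factorial_succ]
  push_cast
  field_simp
  ring

section
variable {n M r : ℕ} [NeZero n]

/-- `(q^r;q^(2r))_i` shifted by `t` -/
noncomputable abbrev g1 (n r : ℕ) (i : ℕ) (t : ℤ) : K := gp n (r : ℤ) (q ^ (2 * r)) i t

/-- `(q^(2r);q^(2r))_i` shifted by `t` -/
noncomputable abbrev g2 (n r : ℕ) (i : ℕ) (t : ℤ) : K := gp n ((2 * r : ℕ) : ℤ) (q ^ (2 * r)) i t

theorem gfac (e : ℤ) (r : ℕ) (l : ℕ) (t : ℤ) :
    q ^ (e + (n : ℤ) * t) * (q ^ (2 * r)) ^ l = q ^ (e + 2 * r * l + (n : ℤ) * t) := by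
  rw [← pow_mul, ← zpow_natCast q (2 * r * l), ← zpow_add₀ q_ne]
  congr 1; push_cast; ring

theorem not_dvd_aux {e : ℤ} (hr : Nat.Coprime n r) {l : ℕ} (hl : 0 < l) (hln : l < n) (t : ℤ)
    (he : e = r * l + n * t) : ¬ (n : ℤ) ∣ e := by
  intro h
  rw [he] at h
  have h1 : (n : ℤ) ∣ r * l := by
    have := dvd_sub h (dvd_mul_right (n : ℤ) t)
    simpa using this
  have h2 : n ∣ r * l := by exact_mod_cast h1
  have h3 : n ∣ l := hr.dvd_of_dvd_mul_left h2
  exact absurd (Nat.le_of_dvd hl h3) (by omega)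

theorem g1_U (hn : n = 2 * M + 1) (hr : Nat.Coprime n r) {i : ℕ} (hi : i ≤ M) (t : ℤ) :
    U n (g1 n r i t) := by
  unfold g1 gp poch
  refine U.prod fun l hl => ?_
  have := mem_range.1 hl
  rw [gfac]
  refine U_one_sub (not_dvd_aux (l := 2 * l + 1) hr (by omega) (by omega) t ?_)
  push_cast; ring

theorem g2_U (hn : n = 2 * M + 1) (hr : Nat.Coprime n r) {i : ℕ} (hi : i < n) (t : ℤ) :
    U n (g2 n r i t) := by
  unfold g2 gp poch
  refine U.prod fun l hl => ?_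
  have := mem_range.1 hl
  rw [gfac]
  have h2 : ¬ n ∣ 2 * (l + 1) := by
    intro h
    have hc : Nat.Coprime n 2 := by
      rw [Nat.coprime_two_right]; exact ⟨M, by omega⟩
    have h3 : n ∣ l + 1 := hc.dvd_of_dvd_mul_left h
    exact absurd (Nat.le_of_dvd (Nat.succ_pos _) h3) (by omega)
  refine U_one_sub ?_
  intro h
  have h1 : (n : ℤ) ∣ ((r * (2 * (l + 1)) : ℕ) : ℤ) := by
    have := dvd_sub h (dvd_mul_right (n : ℤ) t)
    have e : ((2 * r : ℕ) : ℤ) + 2 * r * l + n * t - n * t = ((r * (2 * (l + 1)) : ℕ) : ℤ) := by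
      push_cast; ring
    rwa [e] at this
  have h2' : n ∣ r * (2 * (l + 1)) := by exact_mod_cast h1
  exact h2 (hr.dvd_of_dvd_mul_left h2')

/-- the quotient at multiples of `n` -/
noncomputable def RR (n r j : ℕ) : K :=
  poch (q ^ r) (q ^ (2 * r)) (j * n) / poch (q ^ (2 * r)) (q ^ (2 * r)) (j * n)

theorem qB_ne {r : ℕ} (hr : 0 < r) : ∀ i : ℕ, 0 < i → ((q ^ (2 * r) : K)) ^ i ≠ 1 := by
  intro i hi
  rw [← pow_mul]
  exact q_pow_ne_one (Nat.mul_pos (Nat.mul_pos two_pos hr) hi).ne'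

/-- one block of the numerator -/
theorem block_num (hn : n = 2 * M + 1) (j : ℕ) :
    poch (q ^ r * (q ^ (2 * r)) ^ (j * n)) (q ^ (2 * r)) n =
      g1 n r M (2 * j * r) * g2 n r M (r * (2 * j + 1)) *
        (1 - q ^ ((n : ℤ) * (r * (2 * j + 1)))) := by
  conv_lhs => rw [hn]
  rw [show 2 * M + 1 = M + 1 + M by ring, poch_add, poch_add, poch_one, g1, g2, gp, gp]
  have e1 : q ^ r * (q ^ (2 * r)) ^ (j * (M + 1 + M)) = q ^ ((r : ℤ) + (n : ℤ) * (2 * j * r)) := by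
    rw [← pow_mul, ← zpow_natCast q r, ← zpow_natCast q (2 * r * (j * (M + 1 + M))),
      ← zpow_add₀ q_ne, hn]
    congr 1; push_cast; ring
  rw [e1]
  have e2 : q ^ ((r : ℤ) + (n : ℤ) * (2 * j * r)) * (q ^ (2 * r)) ^ M =
      q ^ ((n : ℤ) * (r * (2 * j + 1))) := by
    rw [gfac]; congr 1; rw [hn]; push_cast; ring
  have e3 : q ^ ((r : ℤ) + (n : ℤ) * (2 * j * r)) * (q ^ (2 * r)) ^ (M + 1) =
      q ^ (((2 * r : ℕ) : ℤ) + (n : ℤ) * (r * (2 * j + 1))) := by
    rw [gfac]; congr 1; rw [hn]; push_cast; ring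
  rw [e2, e3]
  ring

/-- one block of the denominator -/
theorem block_den (hn : n = 2 * M + 1) (j : ℕ) :
    poch (q ^ (2 * r) * (q ^ (2 * r)) ^ (j * n)) (q ^ (2 * r)) n =
      g2 n r M (2 * j * r) * g1 n r M (r * (2 * j + 1)) *
        (1 - q ^ ((n : ℤ) * (r * (2 * j + 2)))) := by
  conv_lhs => rw [hn]
  rw [show 2 * M + 1 = M + (M + 1) by ring, poch_add, poch_succ, g1, g2, gp, gp]
  have e1 : q ^ (2 * r) * (q ^ (2 * r)) ^ (j * (M + (M + 1))) =
      q ^ (((2 * r : ℕ) : ℤ) + (n : ℤ) * (2 * j * r)) := by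
    rw [← pow_mul, ← zpow_natCast q (2 * r), ← zpow_natCast q (2 * r * (j * (M + (M + 1)))),
      ← zpow_add₀ q_ne, hn]
    congr 1; push_cast; ring
  rw [e1]
  have e2 : q ^ (((2 * r : ℕ) : ℤ) + (n : ℤ) * (2 * j * r)) * (q ^ (2 * r)) ^ M =
      q ^ ((r : ℤ) + (n : ℤ) * (r * (2 * j + 1))) := by
    rw [gfac]; congr 1; rw [hn]; push_cast; ring
  rw [e2]
  have e3 : q ^ ((r : ℤ) + (n : ℤ) * (r * (2 * j + 1))) * (q ^ (2 * r)) ^ M =
      q ^ ((n : ℤ) * (r * (2 * j + 2))) := by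
    rw [gfac]; congr 1; rw [hn]; push_cast; ring
  rw [e3]
  ring

theorem RR_zero (n r : ℕ) : RR n r 0 = 1 := by simp [RR, poch]

theorem RR_succ (hn : n = 2 * M + 1) (hr0 : 0 < r) (hr : Nat.Coprime n r) (j : ℕ) :
    RR n r (j + 1) = RR n r j *
      ((g1 n r M (2 * j * r) * g2 n r M (r * (2 * j + 1))) /
        (g2 n r M (2 * j * r) * g1 n r M (r * (2 * j + 1))) *
        (qi n (r * (2 * j + 1)) / qi n (r * (2 * j + 2)))) := by
  have hM : M < n := by omega
  have h1 := (g2_U hn hr hM (2 * j * r)).1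
  have h2 := (g1_U hn hr le_rfl (r * (2 * j + 1))).1
  have hr' : (r : ℤ) ≠ 0 := by exact_mod_cast hr0.ne'
  have h3 := (qi_U (n := n) (s := r * (2 * j + 2)) (mul_ne_zero hr' (by positivity))).1
  have h4 := poch_self_ne (qB_ne hr0) (j * n)
  rw [RR, RR, Nat.succ_mul j n, poch_add, poch_add, block_num hn, block_den hn, ← w_qi, ← w_qi]
  have h5 := w_ne (n := n)
  field_simp

theorem RR_eq (hn : n = 2 * M + 1) (hr0 : 0 < r) (hr : Nat.Coprime n r) (j : ℕ) :
    EQ n 1 (RR n r j) (ch j : K) := by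
  induction j with
  | zero => rw [RR_zero, ch_zero]; simpa using EQ.refl (one_mem (O n))
  | succ j ih =>
    rw [RR_succ hn hr0 hr, ch_succ, Rat.cast_mul]
    refine ih.mul ?_
    have hM : M < n := by omega
    have hr' : (r : ℤ) ≠ 0 := by exact_mod_cast hr0.ne'
    have hB : (q ^ (2 * r) : K) ∈ O n := pow_mem' _
    have a1 : EQ n 1 (g1 n r M (2 * j * r)) (g1 n r M (r * (2 * j + 1))) := (gp_aff hB _ _).eq_one _ _
    have a2 : EQ n 1 (g2 n r M (r * (2 * j + 1))) (g2 n r M (2 * j * r)) := (gp_aff hB _ _).eq_one _ _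
    have u1 := g1_U hn hr le_rfl (r * (2 * j + 1))
    have u2 := g2_U hn hr hM (2 * j * r)
    have b1 : EQ n 1 ((g1 n r M (2 * j * r) * g2 n r M (r * (2 * j + 1))) /
        (g2 n r M (2 * j * r) * g1 n r M (r * (2 * j + 1)))) 1 := by
      have := (a1.mul a2).div one_pos (EQ.refl (u2.mul u1).2.1) (u2.mul u1)
      have e : g1 n r M (r * (2 * j + 1)) * g2 n r M (2 * j * r) /
          (g2 n r M (2 * j * r) * g1 n r M (r * (2 * j + 1))) = 1 := by
        rw [mul_comm (g1 n r M (r * (2 * j + 1)))]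
        exact div_self (u2.mul u1).1
      rwa [e] at this
    have b2 : EQ n 1 (qi n (r * (2 * j + 1)) / qi n (r * (2 * j + 2)))
        ((((2 * j + 1) / (2 * j + 2) : ℚ)) : K) := by
      have := (qi_eq (n := n) (r * (2 * j + 1))).div one_pos (qi_eq (n := n) (r * (2 * j + 2)))
        (qi_U (mul_ne_zero hr' (by positivity)))
      have e : (((r * (2 * j + 1) : ℤ)) : K) / (((r * (2 * j + 2) : ℤ)) : K) =
          ((((2 * j + 1) / (2 * j + 2) : ℚ)) : K) := by
        have h1 : ((r : K)) ≠ 0 := by exact_mod_cast hr0.ne'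
        have h2 : ((2 * j + 2 : K)) ≠ 0 := by
          have : ((2 * j + 2 : ℕ) : K) ≠ 0 := Nat.cast_ne_zero.2 (by omega)
          push_cast at this; exact this
        push_cast
        rw [mul_div_mul_left _ _ h1]
      rwa [e] at this
    have := b1.mul b2
    rwa [one_mul] at this

/-- reflection of the numerator to the denominator -/
theorem g12_eq (hn : n = 2 * M + 1) (r : ℕ) (t t' : ℤ) :
    EQ n 1 (g1 n r M t) ((-1) ^ M * q ^ (r * M ^ 2) * g2 n r M t') := by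
  have h1 : EQ n 1 (g1 n r M t)
      (∏ l ∈ range M, ((-1) * q ^ (r * (2 * l + 1)) *
        (1 - q ^ (((2 * r : ℕ) : ℤ) + (n : ℤ) * t') * (q ^ (2 * r)) ^ (M - 1 - l)))) := by
    rw [g1, gp, poch]
    refine EQ.prod fun l hl => ?_
    have hl' := mem_range.1 hl
    rw [gfac, gfac]
    have e1 := q_shift (n := n) ((r : ℤ) + 2 * r * l) t
    have e2 := Q_eq (n := n) (r + t')
    have e3 : (-1) * q ^ (r * (2 * l + 1)) * (1 - q ^ (((2 * r : ℕ) : ℤ) + 2 * r * ((M - 1 - l : ℕ) : ℤ) +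
        (n : ℤ) * t')) = q ^ ((n : ℤ) * (r + t')) - q ^ ((r : ℤ) + 2 * r * l) := by
      have e4 : q ^ (r * (2 * l + 1)) = q ^ ((r : ℤ) + 2 * r * l) := by
        rw [← zpow_natCast]; congr 1; push_cast; ring
      have e5 : q ^ ((r : ℤ) + 2 * r * l) * q ^ (((2 * r : ℕ) : ℤ) + 2 * r * ((M - 1 - l : ℕ) : ℤ) +
        (n : ℤ) * t') = q ^ ((n : ℤ) * (r + t')) := by
        rw [← zpow_add₀ q_ne]
        congr 1
        have : ((M - 1 - l : ℕ) : ℤ) = M - 1 - l := by omega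
        rw [this, hn]; push_cast; ring
      rw [e4, ← e5]; ring
    rw [e3]
    exact e2.symm.sub e1
  have hs : ∑ l ∈ range M, (2 * l + 1) = M ^ 2 := by
    clear hn h1
    induction M with
    | zero => rfl
    | succ k ih => rw [sum_range_succ, ih]; ring
  have h2 : (∏ l ∈ range M, ((-1) * q ^ (r * (2 * l + 1)) *
        (1 - q ^ (((2 * r : ℕ) : ℤ) + (n : ℤ) * t') * (q ^ (2 * r)) ^ (M - 1 - l)))) =
      (-1) ^ M * q ^ (r * M ^ 2) * g2 n r M t' := by
    rw [prod_mul_distrib, prod_mul_distrib, prod_const, card_range, prod_pow_eq_pow_sum,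
      ← mul_sum, hs, g2, gp, poch]
    congr 1
    exact prod_range_reflect (fun l => 1 - q ^ (((2 * r : ℕ) : ℤ) + (n : ℤ) * t') * (q ^ (2 * r)) ^ l) M
  rwa [h2] at h1

/-- decomposition of a sum into blocks -/
theorem sum_blocks {A : Type*} [AddCommMonoid A] (f : ℕ → A) (m n : ℕ) :
    ∑ k ∈ range (m * n), f k = ∑ j ∈ range m, ∑ i ∈ range n, f (j * n + i) := by
  induction m with
  | zero => simp
  | succ m ih => rw [Nat.succ_mul, sum_range_add, ih, sum_range_succ]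

/-- factor-wise splitting of shifted factorials in block `j` -/
theorem poch_block1 (r j i : ℕ) :
    poch (q ^ r) (q ^ (2 * r)) (j * n + i) =
      poch (q ^ r) (q ^ (2 * r)) (j * n) * g1 n r i (2 * j * r) := by
  rw [poch_add, g1, gp]
  congr 2
  rw [← pow_mul, ← zpow_natCast q r, ← zpow_natCast q (2 * r * (j * n)), ← zpow_add₀ q_ne]
  congr 1; push_cast; ring

theorem poch_block2 (r j i : ℕ) :
    poch (q ^ (2 * r)) (q ^ (2 * r)) (j * n + i) =
      poch (q ^ (2 * r)) (q ^ (2 * r)) (j * n) * g2 n r i (2 * j * r) := by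
  rw [poch_add, g2, gp]
  congr 2
  rw [← pow_mul, ← zpow_natCast q (2 * r), ← zpow_natCast q (2 * r * (j * n)), ← zpow_add₀ q_ne]
  congr 1; push_cast; ring

theorem ratio_block (j i : ℕ) :
    poch (q ^ r) (q ^ (2 * r)) (j * n + i) / poch (q ^ (2 * r)) (q ^ (2 * r)) (j * n + i) =
      RR n r j * (g1 n r i (2 * j * r) / g2 n r i (2 * j * r)) := by
  rw [poch_block1, poch_block2, RR, mul_div_mul_comm]

/-- beyond the middle of the block the numerator is divisible by `1 - q^n` -/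
theorem g1_I (hn : n = 2 * M + 1) (r : ℕ) {i : ℕ} (hi : M < i) (t : ℤ) : I n 1 (g1 n r i t) := by
  rw [g1, gp, poch, ← mul_prod_erase (range i) _ (mem_range.2 hi)]
  refine I.mulR ?_ (prod_mem fun l _ => ?_)
  · rw [gfac]
    have : q ^ ((r : ℤ) + 2 * r * M + (n : ℤ) * t) = q ^ ((n : ℤ) * (r + t)) := by
      congr 1; rw [hn]; push_cast; ring
    rw [this]
    exact (Q_eq (n := n) (r + t)).symm.2.2
  · rw [gfac]; exact sub_mem (one_mem _) (zpow_mem _)

end

end Pool.Agent.R439
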