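import Mathlib
import Pool.Agent.R439.QAB6
import Pool.Agent.R439.QBlock

set_option autoImplicit false

/-!
Specialisation `a = b = 1` of the two-parameter congruence.
-/

namespace Pool.Agent.R439.C42

open Polynomial Finset Pool.Agent.R439

/-- `a = 1` -/
noncomputable def ps1 : GL.AB3.A2 →+* ℚ[X] := (evalRingHom (1 : ℚ[X]) : ℚ[X][X] →+* ℚ[X])

/-- `a = b = 1` -/
noncomputable def ps : GL.AB3.A3 →+* ℚ[X] := ps1.comp (evalRingHom (1 : GL.AB3.A2))

theorem ps1_c2 (r : ℚ[X]) : ps1 (GL.AB3.c2 r) = r := by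
  change evalRingHom (1 : ℚ[X]) (C r : ℚ[X][X]) = r
  rw [coe_evalRingHom, eval_C]

theorem ps1_xa : ps1 GL.AB3.xa = 1 := by
  change evalRingHom (1 : ℚ[X]) (X : ℚ[X][X]) = 1
  rw [coe_evalRingHom, eval_X]

theorem ps_C (r : GL.AB3.A2) : ps (C r) = ps1 r := by
  rw [ps, RingHom.comp_apply, coe_evalRingHom, eval_C]

theorem ps_jq (r : ℚ[X]) : ps (GL.AB3.jq r) = r := by
  rw [GL.AB3.jq, RingHom.comp_apply, ps_C, ps1_c2]

theorem ps_a : ps (C GL.AB3.xa) = 1 := by rw [ps_C, ps1_xa]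

theorem ps_b : ps (X : GL.AB3.A3) = 1 := by
  rw [ps, RingHom.comp_apply, coe_evalRingHom, eval_X, map_one]

variable {n : ℕ} [NeZero n]

/-- `x` specialises to `e` at `a = b = 1`, the denominator staying prime to `Φ_n` -/
def SU (n : ℕ) (x : GL.AB3.F3) (e : K) : Prop :=
  ∃ c d : GL.AB3.A3, ¬ cyclotomic n ℚ ∣ ps d ∧ x = GL.AB3.am c / GL.AB3.am d ∧
    e = emb (ps c) / emb (ps d)

variable {x y : GL.AB3.F3} {e f : K}

theorem ps_ne {d : GL.AB3.A3} (h : ¬ cyclotomic n ℚ ∣ ps d) : GL.AB3.am d ≠ 0 := by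
  refine GL.am_ne fun h' => h ?_
  rw [h', map_zero]; exact dvd_zero _

theorem emb_ps_ne {d : GL.AB3.A3} (h : ¬ cyclotomic n ℚ ∣ ps d) : emb (ps d) ≠ 0 := by
  refine emb_ne fun h' => h ?_
  rw [h']; exact dvd_zero _

theorem not_dvd_mul {u v : ℚ[X]} (hu : ¬ cyclotomic n ℚ ∣ u) (hv : ¬ cyclotomic n ℚ ∣ v) :
    ¬ cyclotomic n ℚ ∣ u * v := fun h => ((P_prime n).dvd_or_dvd h).elim hu hv

theorem SU.am (c : GL.AB3.A3) : SU n (GL.AB3.am c) (emb (ps c)) :=
  ⟨c, 1, by rw [map_one]; exact (P_prime n).not_dvd_one, by rw [map_one, div_one],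
    by rw [map_one, map_one, div_one]⟩

theorem SU.one : SU n 1 1 := by
  have := SU.am (n := n) 1
  rwa [map_one, map_one, map_one] at this

theorem SU.add (h : SU n x e) (h' : SU n y f) : SU n (x + y) (e + f) := by
  obtain ⟨c, d, hd, rfl, rfl⟩ := h
  obtain ⟨c', d', hd', rfl, rfl⟩ := h'
  refine ⟨c * d' + d * c', d * d', by rw [map_mul]; exact not_dvd_mul hd hd', ?_, ?_⟩
  · rw [div_add_div _ _ (ps_ne hd) (ps_ne hd')]; simp
  · rw [div_add_div _ _ (emb_ps_ne hd) (emb_ps_ne hd')]; simp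

theorem SU.mul (h : SU n x e) (h' : SU n y f) : SU n (x * y) (e * f) := by
  obtain ⟨c, d, hd, rfl, rfl⟩ := h
  obtain ⟨c', d', hd', rfl, rfl⟩ := h'
  refine ⟨c * c', d * d', by rw [map_mul]; exact not_dvd_mul hd hd', ?_, ?_⟩
  · rw [div_mul_div_comm]; simp
  · rw [div_mul_div_comm]; simp

theorem SU.neg (h : SU n x e) : SU n (-x) (-e) := by
  obtain ⟨c, d, hd, rfl, rfl⟩ := h
  exact ⟨-c, d, hd, by rw [map_neg, neg_div], by rw [map_neg, map_neg, neg_div]⟩

theorem SU.sub (h : SU n x e) (h' : SU n y f) : SU n (x - y) (e - f) := by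
  rw [sub_eq_add_neg, sub_eq_add_neg]; exact h.add h'.neg

theorem SU.inv (h : SU n x e) (he : U n e) : SU n x⁻¹ e⁻¹ := by
  obtain ⟨c, d, hd, rfl, rfl⟩ := h
  refine ⟨d, c, fun hc => ?_, ?_, ?_⟩
  · obtain ⟨h0, _, h2⟩ := he
    rw [inv_div] at h2
    obtain ⟨u, v, hv, huv⟩ := h2
    have hv0 : emb v ≠ 0 := emb_ne fun h' => hv (by rw [h']; exact dvd_zero _)
    have hc0 : emb (ps c) ≠ 0 := fun h' => h0 (by rw [h', zero_div])
    have h3 : emb (ps d * v) = emb (u * ps c) := by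
      rw [div_eq_div_iff hc0 hv0] at huv
      rw [map_mul, map_mul, huv]
    have h4 := emb_inj h3
    exact not_dvd_mul hd hv (by rw [h4]; exact hc.mul_left _)
  · rw [inv_div]
  · rw [inv_div]

theorem SU.div (h : SU n x e) (h' : SU n y f) (hf : U n f) : SU n (x / y) (e / f) := by
  rw [div_eq_mul_inv, div_eq_mul_inv]; exact h.mul (h'.inv hf)

theorem SU.pow (h : SU n x e) (k : ℕ) : SU n (x ^ k) (e ^ k) := by
  induction k with
  | zero => rw [pow_zero, pow_zero]; exact SU.one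
  | succ k ih => rw [pow_succ, pow_succ]; exact ih.mul h

theorem SU.sum {ι : Type*} {s : Finset ι} {u : ι → GL.AB3.F3} {v : ι → K}
    (h : ∀ i ∈ s, SU n (u i) (v i)) : SU n (∑ i ∈ s, u i) (∑ i ∈ s, v i) := by
  classical
  induction s using Finset.induction_on with
  | empty =>
    have := SU.am (n := n) 0
    simpa using this
  | insert a s ha ih =>
    rw [sum_insert ha, sum_insert ha]
    exact (h a (mem_insert_self _ _)).add (ih fun i hi => h i (mem_insert_of_mem hi))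

theorem SU.prod {ι : Type*} {s : Finset ι} {u : ι → GL.AB3.F3} {v : ι → K}
    (h : ∀ i ∈ s, SU n (u i) (v i)) : SU n (∏ i ∈ s, u i) (∏ i ∈ s, v i) := by
  classical
  induction s using Finset.induction_on with
  | empty => simpa using SU.one
  | insert a s ha ih =>
    rw [prod_insert ha, prod_insert ha]
    exact (h a (mem_insert_self _ _)).mul (ih fun i hi => h i (mem_insert_of_mem hi))

theorem SU.poch (h : SU n x e) (h' : SU n y f) (k : ℕ) :
    SU n (poch x y k) (Pool.Agent.R439.poch e f k) :=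
  SU.prod fun i _ => SU.one.sub (h.mul (h'.pow i))

/-- divisibility by `P` is kept -/
theorem SU.div_of {P c d : GL.AB3.A3} (hd : d ≠ 0) (h1 : IsRelPrime d P)
    (hx : x = GL.AB3.am P * (GL.AB3.am c / GL.AB3.am d)) (hs : SU n x e) :
    ∃ y ∈ O n, e = emb (ps P) * y := by
  obtain ⟨c0, d0, hd0, rfl, rfl⟩ := hs
  have hdn : GL.AB3.am d ≠ 0 := GL.am_ne hd
  have hd0n := ps_ne hd0
  have h2 : GL.AB3.am (c0 * d) = GL.AB3.am (P * (c * d0)) := by
    rw [map_mul, map_mul, map_mul]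
    rw [div_eq_iff hd0n] at hx
    rw [hx]
    generalize GL.AB3.am P = p1
    generalize GL.AB3.am c = c1
    generalize GL.AB3.am d0 = d1 at hd0n
    generalize GL.AB3.am d = d2 at hdn
    field_simp
  have h3 : c0 * d = P * (c * d0) := GL.AB3.am_inj h2
  have h4 : P ∣ c0 := h1.symm.dvd_of_dvd_mul_right ⟨_, h3⟩
  obtain ⟨c0', rfl⟩ := h4
  exact ⟨emb (ps c0') / emb (ps d0), ⟨ps c0', ps d0, hd0, rfl⟩, by rw [map_mul, map_mul]; ring⟩

theorem SU.q : SU n GL.AB3.q q := by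
  have := SU.am (n := n) (GL.AB3.jq X)
  rwa [ps_jq, emb_X] at this

theorem SU.a : SU n GL.AB3.a 1 := by
  have := SU.am (n := n) (C GL.AB3.xa)
  rwa [ps_a, map_one] at this

theorem SU.b : SU n GL.AB3.b 1 := by
  have := SU.am (n := n) X
  rwa [ps_b, map_one] at this

theorem U_pochq {e f k : ℕ} (h : ∀ i < k, ¬ n ∣ e + f * i) : U n (Pool.Agent.R439.poch (q ^ e) (q ^ f) k) := by
  refine U.prod fun i hi => ?_
  have h1 := h i (mem_range.1 hi)
  have e1 : q ^ e * (q ^ f) ^ i = q ^ ((e + f * i : ℕ) : ℤ) := by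
    rw [zpow_natCast, pow_add, pow_mul]
  rw [e1]
  exact U_one_sub fun h2 => h1 (by exact_mod_cast h2)

theorem U_pochqq {k : ℕ} (hk : k < n) : U n (Pool.Agent.R439.poch q q k) := by
  have := U_pochq (n := n) (e := 1) (f := 1) (k := k) (fun i hi h => by
    have := Nat.le_of_dvd (by omega) h
    omega)
  simpa using this

theorem U_poch22 {k : ℕ} (hn : n % 2 = 1) (hk : k < n) :
    U n (Pool.Agent.R439.poch (q ^ 2) (q ^ 2) k) := by
  refine U_pochq fun i hi h => ?_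
  have hc : Nat.Coprime n 2 := by
    rw [Nat.coprime_two_right, Nat.odd_iff]; exact hn
  have h2 : n ∣ 2 * (i + 1) := by
    have : 2 + 2 * i = 2 * (i + 1) := by ring
    rwa [this] at h
  have := Nat.le_of_dvd (by omega) (hc.dvd_of_dvd_mul_left h2)
  omega

theorem SU.PL (hn : n % 2 = 1) {j : ℕ} (hj : j < n) :
    SU n (AB.PL GL.AB3.q GL.AB3.a GL.AB3.b j) (AB.PL Pool.Agent.R439.q 1 1 j) := by
  have q2 := (SU.q (n := n)).pow 2
  have u := U_poch22 hn hj
  have ha := SU.a (n := n)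
  have hb := SU.b (n := n)
  have hq := SU.q (n := n)
  refine ((hb.pow j).mul ((((hq.poch q2 j).mul ((ha.mul hq).poch q2 j)).mul
    ((hq.div ha U.one).poch q2 j)).mul ((hq.div hb U.one).poch q2 j))).div
    ((((q2.poch q2 j).mul ((ha.mul q2).poch q2 j)).mul ((q2.div ha U.one).poch q2 j)).mul
      ((hb.mul q2).poch q2 j)) ?_
  rw [one_mul, div_one]
  exact ((u.mul u).mul u).mul u

theorem SU.PR (hn : n % 2 = 1) {j : ℕ} (hj : j < n) :
    SU n (AB.PR GL.AB3.q GL.AB3.a GL.AB3.b j) (AB.PR Pool.Agent.R439.q 1 1 j) := by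
  have q2 := (SU.q (n := n)).pow 2
  have u := U_poch22 hn hj
  have v := U_pochqq hj
  have ha := SU.a (n := n)
  have hb := SU.b (n := n)
  have hq := SU.q (n := n)
  refine (((hb.pow j).div (hq.pow _) (U_qpow _)).mul ((((hq.poch q2 j).mul
    ((ha.mul hq).poch q2 j)).mul
    ((hq.div ha U.one).poch q2 j)).mul ((hq.div hb U.one).poch hq j))).div
    ((((hq.poch hq j).mul ((ha.mul hq).poch hq j)).mul ((hq.div ha U.one).poch hq j)).mul
      ((hb.mul q2).poch q2 j)) ?_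
  rw [one_mul, div_one, one_mul]
  exact ((v.mul v).mul v).mul u

/-- the two sums at `a = b = 1` -/
noncomputable def tL (j : ℕ) : K := (1 - q ^ (4 * j + 1)) * AB.PL q 1 1 j
noncomputable def tR (j : ℕ) : K := (1 - q ^ (3 * j + 1)) * AB.PR q 1 1 j

theorem SU.SL {m : ℕ} (hn : n = 2 * m + 1) :
    SU n (GL.AB3.SL m) (∑ j ∈ range (m + 1), tL j) := by
  refine SU.sum fun j hj => ?_
  have hj' := mem_range.1 hj
  exact (SU.one.sub (SU.q.pow _)).mul (SU.PL (by omega) (by omega))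

theorem SU.SR {m : ℕ} (hn : n = 2 * m + 1) :
    SU n (GL.AB3.SR (2 * m)) (∑ j ∈ range n, tR j) := by
  rw [hn]
  refine SU.sum fun j hj => ?_
  have hj' := mem_range.1 hj
  exact (SU.one.sub (SU.q.pow _)).mul (SU.PR (by omega) (by omega))

theorem I_cyc : I n 1 (emb (cyclotomic n ℚ)) := by
  obtain ⟨W, hW, h⟩ := w_emb (n := n)
  refine ⟨(emb W)⁻¹, emb_inv_mem hW, ?_⟩
  have : emb W ≠ 0 := emb_ne fun h' => hW (by rw [h']; exact dvd_zero _)
  rw [h, pow_one]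
  field_simp

theorem U_1q (hn : 1 < n) : U n (1 - q) := by
  have := U_one_sub (n := n) (e := 1) (fun h => by
    have := Int.le_of_dvd one_pos h
    omega)
  rwa [zpow_one] at this

theorem I_geom (hn : 1 < n) : I n 1 (emb (∑ i ∈ range n, X ^ i)) := by
  have h := mul_neg_geom_sum (q : K) n
  have h2 : emb (∑ i ∈ range n, X ^ i) = ∑ i ∈ range n, q ^ i := by
    rw [map_sum]; exact sum_congr rfl fun i _ => by rw [map_pow, emb_X]
  rw [h2]
  have hu := U_1q hn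
  refine I.cancel hu.1 hu.2.2 ?_
  rw [h]
  exact I_w

theorem key5 {m : ℕ} (hm : 0 < m) (hn : n = 2 * m + 1) :
    I n 5 ((∑ j ∈ range (m + 1), tL j - ∑ j ∈ range n, tR j) / (1 - q)) := by
  obtain ⟨c, d, h1, h2, h3⟩ := GL.AB3.main hm
  rw [← hn] at h2 h3
  have hs : SU n ((GL.AB3.SL m - GL.AB3.SR (2 * m)) / (1 - GL.AB3.q))
      ((∑ j ∈ range (m + 1), tL j - ∑ j ∈ range n, tR j) / (1 - q)) :=
    ((SU.SL hn).sub (SU.SR hn)).div (SU.one.sub SU.q) (U_1q (by omega))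
  obtain ⟨y, hy, he⟩ := hs.div_of h1 h2 h3
  rw [he]
  have h4 : ps (GL.AB3.MM n) = ((∑ i ∈ range n, X ^ i) * cyclotomic n ℚ) *
      ((1 - X ^ n) * (1 - X ^ n) * (1 - X ^ n)) := by
    rw [GL.AB3.MM]
    simp only [map_mul, map_sub, map_pow, ps_jq, ps_a, ps_b, map_one, one_mul]
  have h5 : emb (1 - X ^ n) = w n := by rw [w, map_sub, map_one, map_pow, emb_X]
  rw [h4, map_mul, map_mul, map_mul, map_mul, h5]
  exact ((((I_geom (by omega)).mul I_cyc).mul ((I_w.mul I_w).mul I_w))).mulR hy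

theorem relPrime_of {d : GL.AB3.A3} (h : ¬ GL.AB3.Phi n ∣ d) : IsRelPrime d (GL.AB3.Phi n) :=
  GL.AB3.relPrime_of_not_dvd (GL.AB3.factPhi n).out h

theorem keyL {m : ℕ} (hn : n = 2 * m + 1) : I n 1 (∑ j ∈ range (m + 1), tL j) := by
  have h : GL.I GL.AB3.F3 (GL.AB3.Phi n) 1 (GL.AB3.SL m) :=
    GL.AB3.SL_I (d := n) (by omega) (by rw [hn])
  obtain ⟨y, ⟨c, d, hd, rfl⟩, hx⟩ := h
  rw [pow_one] at hx
  obtain ⟨z, hz, he⟩ := (SU.SL hn).div_of (fun h' => hd (by rw [h']; exact dvd_zero _))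
    (relPrime_of hd) hx
  rw [he, GL.AB3.Phi, ps_jq]
  exact I_cyc.mulR hz

theorem keyR {m : ℕ} (hn : n = 2 * m + 1) : I n 1 (∑ j ∈ range n, tR j) := by
  have h : GL.I GL.AB3.F3 (GL.AB3.Phi n) 1 (GL.AB3.SR (2 * m)) :=
    GL.AB3.SR_I (d := n) (by omega) (by rw [hn])
  obtain ⟨y, ⟨c, d, hd, rfl⟩, hx⟩ := h
  rw [pow_one] at hx
  obtain ⟨z, hz, he⟩ := (SU.SR hn).div_of (fun h' => hd (by rw [h']; exact dvd_zero _))
    (relPrime_of hd) hx
  rw [he, GL.AB3.Phi, ps_jq]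
  exact I_cyc.mulR hz

end Pool.Agent.R439.C42
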