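import Mathlib
import Pool.Agent.R439.C42A
import Pool.Agent.R439.GBin

set_option autoImplicit false

/-!
Vanishing of both sums modulo `Φ_d` for the divisors `d` of `n`.
-/

namespace Pool.Agent.R439.C42

open Polynomial Finset Pool.Agent.R439

/-- `(q;q^2)_k/(q^2;q^2)_k` -/
noncomputable def rho (k : ℕ) : K := poch q (q ^ 2) k / poch (q ^ 2) (q ^ 2) k

/-- `(-q;q)_k` -/
noncomputable def sg (k : ℕ) : K := poch (-q) q k

theorem q_pow_ne' : ∀ i : ℕ, 0 < i → (q : K) ^ i ≠ 1 := fun i hi => q_pow_ne_one hi.ne'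

theorem tL_eq (j : ℕ) : tL j = (1 - q ^ (4 * j + 1)) * rho j ^ 4 := by
  rw [tL, AB.PL, rho, one_pow, one_mul, one_mul, one_mul, div_one, div_one, div_pow]
  congr 1
  congr 1 <;> ring

theorem tR_eq (j : ℕ) : tR j = (1 - q ^ (3 * j + 1)) * ((q ^ (j * (j + 1) / 2))⁻¹ * rho j ^ 3 *
    sg j ^ 2) := by
  have h1 : poch (q ^ 2) (q ^ 2) j = poch q q j * sg j := poch_neg q j
  have h2 : poch (q ^ 2 : K) (q ^ 2) j ≠ 0 :=
    poch_self_ne (fun i hi => by rw [← pow_mul]; exact q_pow_ne' _ (by omega)) j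
  have h3 : poch (q : K) q j ≠ 0 := poch_self_ne q_pow_ne' j
  rw [tR, AB.PR, rho, one_pow, one_mul, one_mul, div_one]
  have h4 : sg j ≠ 0 := fun h => h2 (by rw [h1, h, mul_zero])
  rw [h1]
  have h5 : (q : K) ^ (j * (j + 1) / 2) ≠ 0 := pow_ne_zero _ q_ne
  field_simp

variable {n M : ℕ} [NeZero n]

theorem rho_block (hn : n = 2 * M + 1) (j : ℕ) {i : ℕ} (hi : i < n) :
    EQ n 1 (rho (j * n + i)) (RR n 1 j * rho i) := by
  have hc : Nat.Coprime n 1 := Nat.coprime_one_right n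
  have h := ratio_block (n := n) (r := 1) j i
  rw [pow_one, mul_one] at h
  rw [rho, h]
  have hB : (q ^ 2 : K) ∈ O n := pow_mem' _
  have e1 : g1 n 1 i 0 = poch q (q ^ 2) i := by
    rw [g1, gp]; congr 1; simp
  have e2 : g2 n 1 i 0 = poch (q ^ 2) (q ^ 2) i := by
    rw [g2, gp, mul_one, mul_zero, add_zero, zpow_natCast]
  have a1 : EQ n 1 (g1 n 1 i (2 * j * 1)) (g1 n 1 i 0) :=
    (gp_aff (n := n) (by simpa using hB) _ _).eq_one _ _
  have a2 : EQ n 1 (g2 n 1 i (2 * j * 1)) (g2 n 1 i 0) :=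
    (gp_aff (n := n) (by simpa using hB) _ _).eq_one _ _
  have u := g2_U hn hc hi 0
  have a3 := a1.div one_pos a2 (g2_U hn hc hi _)
  rw [e1, e2] at a3
  rw [rho]
  push_cast
  exact (EQ.refl (RR_eq hn one_pos hc j).1).mul a3

theorem rho_mem (hn : n = 2 * M + 1) {i : ℕ} (hi : i < n) : rho i ∈ O n := by
  have u : U n (poch (q ^ 2) (q ^ 2) i) := U_poch22 (by omega) hi
  rw [rho, div_eq_mul_inv]
  refine mul_mem (prod_mem fun l _ => sub_mem (one_mem _) (mul_mem q_mem (pow_mem (pow_mem' _) _)))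
    u.2.2

theorem rho_I (hn : n = 2 * M + 1) {i : ℕ} (h1 : M < i) (hi : i < n) : I n 1 (rho i) := by
  have u : U n (poch (q ^ 2) (q ^ 2) i) := U_poch22 (by omega) hi
  have h := g1_I hn 1 h1 0
  have e1 : g1 n 1 i 0 = poch q (q ^ 2) i := by
    rw [g1, gp]; congr 1; simp
  rw [e1] at h
  rw [rho, div_eq_mul_inv]
  exact h.mulR u.2.2

theorem q_add (j e : ℕ) : EQ n 1 (q ^ (j * n + e)) (q ^ e) := by
  have h := q_shift (n := n) (e : ℤ) j
  have e1 : (q : K) ^ ((e : ℤ) + (n : ℤ) * j) = q ^ (j * n + e) := by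
    rw [← zpow_natCast]; congr 1; push_cast; ring
  rwa [e1, zpow_natCast] at h

theorem sg_mem (k : ℕ) : sg k ∈ O n := by
  rw [sg, poch]
  exact prod_mem fun _ _ => sub_mem (one_mem _) (mul_mem (neg_mem q_mem) (pow_mem' _))

theorem sg_block (j i : ℕ) : EQ n 1 (sg (j * n + i)) (sg (j * n) * sg i) := by
  rw [sg, poch_add]
  refine (EQ.refl (sg_mem _)).mul ?_
  rw [sg, poch, poch]
  refine EQ.prod fun l _ => ?_
  have e1 : (-q * q ^ (j * n) * q ^ l : K) = - q ^ (j * n + (l + 1)) := by rw [pow_add]; ring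
  have e2 : (-q * q ^ l : K) = - q ^ (l + 1) := by ring
  rw [e1, e2]
  exact (EQ.refl (one_mem _)).sub (q_add _ _).neg

theorem tri (A i : ℕ) : (A + i) * (A + i + 1) / 2 = A * (A + 1) / 2 + i * (i + 1) / 2 + A * i := by
  have h1 := Nat.even_mul_succ_self (A + i)
  have h2 := Nat.even_mul_succ_self A
  have h3 := Nat.even_mul_succ_self i
  obtain ⟨a, ha⟩ := h1
  obtain ⟨b, hb⟩ := h2
  obtain ⟨c, hc⟩ := h3
  rw [ha, hb, hc]
  have h4 : (A + i) * (A + i + 1) = A * (A + 1) + i * (i + 1) + 2 * (A * i) := by ring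
  omega

theorem tL_block (hn : n = 2 * M + 1) (j : ℕ) {i : ℕ} (hi : i < n) :
    EQ n 1 (tL (j * n + i)) (RR n 1 j ^ 4 * tL i) := by
  rw [tL_eq, tL_eq]
  have h1 := (rho_block hn j hi).pow 4
  have h2 : EQ n 1 (1 - q ^ (4 * (j * n + i) + 1)) (1 - q ^ (4 * i + 1)) := by
    have : 4 * (j * n + i) + 1 = (4 * j) * n + (4 * i + 1) := by ring
    rw [this]
    exact (EQ.refl (one_mem _)).sub (q_add _ _)
  have h3 := h2.mul h1
  have e : RR n 1 j ^ 4 * ((1 - q ^ (4 * i + 1)) * rho i ^ 4) =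
      (1 - q ^ (4 * i + 1)) * (RR n 1 j * rho i) ^ 4 := by ring
  rwa [e]

/-- the factor of block `j` for the second sum -/
noncomputable def cR (n j : ℕ) : K :=
  RR n 1 j ^ 3 * sg (j * n) ^ 2 * (q ^ ((j * n) * (j * n + 1) / 2))⁻¹

theorem tR_block (hn : n = 2 * M + 1) (j : ℕ) {i : ℕ} (hi : i < n) :
    EQ n 1 (tR (j * n + i)) (cR n j * tR i) := by
  rw [tR_eq, tR_eq, tri]
  have h1 := (rho_block hn j hi).pow 3
  have h2 : EQ n 1 (1 - q ^ (3 * (j * n + i) + 1)) (1 - q ^ (3 * i + 1)) := by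
    have : 3 * (j * n + i) + 1 = (3 * j) * n + (3 * i + 1) := by ring
    rw [this]
    exact (EQ.refl (one_mem _)).sub (q_add _ _)
  have h3 := (sg_block (n := n) j i).pow 2
  have h4 : EQ n 1 ((q ^ ((j * n) * (j * n + 1) / 2 + i * (i + 1) / 2 + j * n * i))⁻¹ : K)
      ((q ^ ((j * n) * (j * n + 1) / 2))⁻¹ * (q ^ (i * (i + 1) / 2))⁻¹) := by
    have h5 := q_add (n := n) (j * i) ((j * n) * (j * n + 1) / 2 + i * (i + 1) / 2)
    have h6 : j * i * n + ((j * n) * (j * n + 1) / 2 + i * (i + 1) / 2) =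
      (j * n) * (j * n + 1) / 2 + i * (i + 1) / 2 + j * n * i := by ring
    rw [h6] at h5
    have h7 := h5.inv one_pos (U_qpow _)
    rwa [pow_add q ((j * n) * (j * n + 1) / 2) (i * (i + 1) / 2), mul_inv] at h7
  have h8 := h2.mul ((h4.mul h1).mul h3)
  have e : cR n j * ((1 - q ^ (3 * i + 1)) * ((q ^ (i * (i + 1) / 2))⁻¹ * rho i ^ 3 * sg i ^ 2)) =
      (1 - q ^ (3 * i + 1)) * ((q ^ ((j * n) * (j * n + 1) / 2))⁻¹ * (q ^ (i * (i + 1) / 2))⁻¹ *
        (RR n 1 j * rho i) ^ 3 * (sg (j * n) * sg i) ^ 2) := by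
    rw [cR]; ring
  rwa [e]

theorem RR_mem (hn : n = 2 * M + 1) (j : ℕ) : RR n 1 j ∈ O n :=
  (RR_eq hn one_pos (Nat.coprime_one_right n) j).1

theorem cR_mem (hn : n = 2 * M + 1) (j : ℕ) : cR n j ∈ O n :=
  mul_mem (mul_mem (pow_mem (RR_mem hn j) _) (pow_mem (sg_mem _) _)) (U_qpow _).2.2

theorem sumL_full (hn : n = 2 * M + 1) : I n 1 (∑ i ∈ range n, tL i) := by
  have h1 := keyL hn
  have h2 : ∑ i ∈ range n, tL i = ∑ i ∈ range (M + 1), tL i + ∑ i ∈ range M, tL (M + 1 + i) := by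
    rw [← sum_range_add]; congr 1; rw [hn]; congr 1; ring
  rw [h2]
  refine h1.add (I.sum fun i hi => ?_)
  have hi' := mem_range.1 hi
  rw [tL_eq]
  have h3 := rho_I hn (i := M + 1 + i) (by omega) (by omega)
  rw [pow_succ (rho (M + 1 + i)) 3]
  exact (h3.mulL (pow_mem (rho_mem hn (by omega)) 3)).mulL
    (sub_mem (one_mem _) (pow_mem' _))

theorem I_of_EQ {x y : K} (h : EQ n 1 x y) (hy : I n 1 y) : I n 1 x := by
  have := h.2.2.add hy
  rwa [sub_add_cancel] at this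

theorem sumL_I (hn : n = 2 * M + 1) (e : ℕ) : I n 1 (∑ i ∈ range (e * n + (M + 1)), tL i) := by
  rw [sum_range_add, sum_blocks]
  refine I.add (I.sum fun j _ => ?_) ?_
  · refine I_of_EQ (EQ.sum fun i hi => tL_block hn j (mem_range.1 hi)) ?_
    rw [← mul_sum]
    exact (sumL_full hn).mulL (pow_mem (RR_mem hn j) 4)
  · refine I_of_EQ (EQ.sum fun i hi => tL_block hn e (by have := mem_range.1 hi; omega)) ?_
    rw [← mul_sum]
    exact (keyL hn).mulL (pow_mem (RR_mem hn e) 4)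

theorem sumR_I (hn : n = 2 * M + 1) (e : ℕ) : I n 1 (∑ i ∈ range (e * n), tR i) := by
  rw [sum_blocks]
  refine I.sum fun j _ => ?_
  refine I_of_EQ (EQ.sum fun i hi => tR_block hn j (mem_range.1 hi)) ?_
  rw [← mul_sum]
  exact (keyR hn).mulL (cR_mem hn j)

omit [NeZero n] in
theorem key1 {m d : ℕ} [NeZero d] (hn : n = 2 * m + 1) (hd : d ∣ n) (hd1 : 1 < d) :
    I d 1 ((∑ j ∈ range (m + 1), tL j - ∑ j ∈ range n, tR j) / (1 - q)) := by
  obtain ⟨e, he⟩ := hd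
  have hodd : (d * e) % 2 = 1 := by omega
  have hd2 : d % 2 = 1 := by
    rcases Nat.mod_two_eq_zero_or_one d with h | h
    · rw [Nat.mul_mod, h, zero_mul, Nat.zero_mod] at hodd; omega
    · exact h
  have he2 : e % 2 = 1 := by
    rcases Nat.mod_two_eq_zero_or_one e with h | h
    · rw [Nat.mul_mod, h, mul_zero, Nat.zero_mod] at hodd; omega
    · exact h
  obtain ⟨M, hM⟩ : ∃ M, d = 2 * M + 1 := ⟨d / 2, by omega⟩
  obtain ⟨E, hE⟩ : ∃ E, e = 2 * E + 1 := ⟨e / 2, by omega⟩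
  have hm : m + 1 = E * d + (M + 1) := by
    have h1 : 2 * m + 1 = d * (2 * E + 1) := by rw [← hn, he, hE]
    have h2 : d * (2 * E + 1) = 2 * (E * d) + d := by ring
    omega
  have h1 : I d 1 (∑ j ∈ range (m + 1), tL j) := by rw [hm]; exact sumL_I hM E
  have h2 : I d 1 (∑ j ∈ range n, tR j) := by rw [he, mul_comm]; exact sumR_I hM e
  rw [div_eq_mul_inv]
  exact (h1.sub h2).mulR (U_1q hd1).2.2

end Pool.Agent.R439.C42
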