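import Mathlib
import Pool.Agent.R439.C42B

set_option autoImplicit false

/-!
Integrality, and the limit `q → 1`.
-/

namespace Pool.Agent.R439.C42

open Polynomial Finset Pool.Agent.R439

/-- `ℤ[q] → ℚ(q)` -/
noncomputable def ez : ℤ[X] →+* K := emb.comp (mapRingHom (Int.castRingHom ℚ))

theorem ez_X : ez X = q := by rw [ez, RingHom.comp_apply, coe_mapRingHom, map_X, emb_X]

theorem ez_apply (P : ℤ[X]) : ez P = emb (P.map (Int.castRingHom ℚ)) := rfl

/-- `∏_{k ≤ i < N} (1 + q^(i+1))` -/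
noncomputable def sz (k N : ℕ) : ℤ[X] := ∏ i ∈ Ico k N, (1 + X ^ (i + 1))

theorem ez_sz {k N : ℕ} (h : k ≤ N) : sg k * ez (sz k N) = sg N := by
  have h1 : sg N = ∏ i ∈ range N, (1 + q ^ (i + 1)) := by
    rw [sg, poch]; exact prod_congr rfl fun i _ => by ring
  have h2 : sg k = ∏ i ∈ range k, (1 + q ^ (i + 1)) := by
    rw [sg, poch]; exact prod_congr rfl fun i _ => by ring
  rw [h1, h2, sz, map_prod, ← prod_range_mul_prod_Ico _ h]
  congr 1
  exact prod_congr rfl fun i _ => by rw [map_add, map_one, map_pow, ez_X]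

theorem eval_sz {k N : ℕ} : (sz k N).eval 1 = 2 ^ (N - k) := by
  rw [sz, eval_prod]
  simp only [eval_add, eval_one, eval_pow, eval_X, one_pow]
  rw [prod_const, Nat.card_Ico]; norm_num

theorem ez_gb (n k : ℕ) : ez (gb X n k) = gb q n k := by rw [gb_map, ez_X]

theorem gb_one (n : ℕ) : ∀ k : ℕ, gb (1 : ℤ) n k = n.choose k := by
  induction n with
  | zero => intro k; cases k <;> simp [gb]
  | succ n ih =>
    intro k
    cases k with
    | zero => simp [gb]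
    | succ k => rw [gb, ih, ih, Nat.choose_succ_succ]; push_cast; ring

theorem eval_gb (n k : ℕ) : (gb (X : ℤ[X]) n k).eval 1 = n.choose k := by
  have h := gb_map (evalRingHom (1 : ℤ)) X n k
  rw [coe_evalRingHom, eval_X, gb_one] at h
  exact h

theorem ez_geom (m : ℕ) : ez (∑ i ∈ range m, X ^ i) = (1 - q ^ m) / (1 - q) := by
  have h : (1 - q : K) ≠ 0 := by
    have := one_sub_pow_ne (j := 1) one_ne_zero
    rwa [pow_one] at this
  rw [map_sum, eq_div_iff h, mul_comm, ← mul_neg_geom_sum]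
  congr 1
  exact sum_congr rfl fun i _ => by rw [map_pow, ez_X]

theorem eval_geom (m : ℕ) : (∑ i ∈ range m, (X : ℤ[X]) ^ i).eval 1 = m := by
  rw [eval_finsetSum]; simp

theorem rho_sg (k : ℕ) : rho k * sg k ^ 2 = ez (gb X (2 * k) k) := by
  rw [ez_gb]; exact ratio_two q_pow_ne' k

theorem sg_ne (k : ℕ) : sg k ≠ 0 := by
  have h1 : poch (q ^ 2 : K) (q ^ 2) k = poch q q k * sg k := poch_neg q k
  have h2 : poch (q ^ 2 : K) (q ^ 2) k ≠ 0 :=
    poch_self_ne (fun i hi => by rw [← pow_mul]; exact q_pow_ne' _ (by omega)) k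
  intro h
  exact h2 (by rw [h1, h, mul_zero])

/-- the common denominator -/
noncomputable def wz (N : ℕ) : ℤ[X] := X ^ (N * (N + 1) / 2) * sz 0 N ^ 8

noncomputable def zL (N k : ℕ) : ℤ[X] :=
  X ^ (N * (N + 1) / 2) * (∑ i ∈ range (4 * k + 1), X ^ i) * gb X (2 * k) k ^ 4 * sz k N ^ 8

noncomputable def zR (N k : ℕ) : ℤ[X] :=
  X ^ (N * (N + 1) / 2 - k * (k + 1) / 2) * (∑ i ∈ range (3 * k + 1), X ^ i) *
    gb X (2 * k) k ^ 3 * sz k N ^ 4 * sz 0 N ^ 4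

theorem ez_sz0 (N : ℕ) : ez (sz 0 N) = sg N := by
  have := ez_sz (Nat.zero_le N)
  rwa [sg, poch_zero, one_mul] at this

theorem ez_zL {N k : ℕ} (h : k ≤ N) : ez (zL N k) = ez (wz N) * (tL k / (1 - q)) := by
  rw [zL, wz, map_mul, map_mul, map_mul, map_mul, map_pow, map_pow, map_pow, map_pow, ez_geom,
    ← rho_sg, tL_eq, ez_X, ez_sz0, ← ez_sz h]
  ring

theorem ez_zR {N k : ℕ} (h : k ≤ N) : ez (zR N k) = ez (wz N) * (tR k / (1 - q)) := by
  have hle : k * (k + 1) / 2 ≤ N * (N + 1) / 2 :=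
    Nat.div_le_div_right (Nat.mul_le_mul h (by omega))
  have h1 : (q : K) ^ (N * (N + 1) / 2) =
      q ^ (N * (N + 1) / 2 - k * (k + 1) / 2) * q ^ (k * (k + 1) / 2) := by
    rw [← pow_add]; congr 1; omega
  have h2 : (q : K) ^ (k * (k + 1) / 2) ≠ 0 := pow_ne_zero _ q_ne
  rw [zR, wz, map_mul, map_mul, map_mul, map_mul, map_mul, map_pow, map_pow, map_pow, map_pow,
    map_pow, map_pow, ez_geom, ← rho_sg, tR_eq, ez_X, ez_sz0, ← ez_sz h, h1]
  generalize (q : K) ^ (k * (k + 1) / 2) = y at h2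
  field_simp

/-- the difference, as a polynomial with integer coefficients -/
noncomputable def Z (m : ℕ) : ℤ[X] :=
  ∑ k ∈ range (m + 1), zL (2 * m) k - ∑ k ∈ range (2 * m + 1), zR (2 * m) k

theorem ez_Z (m : ℕ) : ez (Z m) = ez (wz (2 * m)) *
    ((∑ k ∈ range (m + 1), tL k - ∑ k ∈ range (2 * m + 1), tR k) / (1 - q)) := by
  rw [Z, map_sub, map_sum, map_sum, sub_div, sum_div, sum_div, mul_sub, mul_sum, mul_sum]
  congr 1
  · exact sum_congr rfl fun k hk => ez_zL (by have := mem_range.1 hk; omega)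
  · exact sum_congr rfl fun k hk => ez_zR (by have := mem_range.1 hk; omega)

theorem dvd_of_I {n k : ℕ} [NeZero n] {P : ℤ[X]} (h : I n k (ez P)) :
    cyclotomic n ℚ ^ k ∣ P.map (Int.castRingHom ℚ) := by
  have h1 := num_of_I h
  rw [ez_apply] at h1
  have h2 : (emb (P.map (Int.castRingHom ℚ))).num = P.map (Int.castRingHom ℚ) :=
    RatFunc.num_algebraMap _
  rwa [h2] at h1

theorem ez_mem {n : ℕ} [NeZero n] (P : ℤ[X]) : ez P ∈ O n := emb_mem _

theorem Z_dvd {m : ℕ} (hm : 0 < m) :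
    (∑ i ∈ range (2 * m + 1), (X : ℤ[X]) ^ i) * cyclotomic (2 * m + 1) ℤ ^ 4 ∣ Z m := by
  have hmon : ((∑ i ∈ range (2 * m + 1), (X : ℤ[X]) ^ i) * cyclotomic (2 * m + 1) ℤ ^ 4).Monic :=
    (Polynomial.monic_geom_sum_X (by omega)).mul ((cyclotomic.monic _ ℤ).pow 4)
  have hinj : Function.Injective (Int.castRingHom ℚ) := Int.cast_injective
  rw [← Polynomial.map_dvd_map (Int.castRingHom ℚ) hinj hmon]
  rw [Polynomial.map_mul, Polynomial.map_pow, map_cyclotomic_int, Polynomial.map_sum]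
  simp only [Polynomial.map_pow, Polynomial.map_X]
  refine GL.AB3.geom_pow_dvd (k := 4) (by omega) (fun d hd hd1 => ?_) ?_
  · have : NeZero d := ⟨by omega⟩
    have h1 : I d 1 (ez (Z m)) := by
      rw [ez_Z]
      exact (key1 (n := 2 * m + 1) (d := d) rfl hd hd1).mulL (ez_mem _)
    have h2 := dvd_of_I h1
    rwa [pow_one] at h2
  · have : NeZero (2 * m + 1) := ⟨by omega⟩
    refine dvd_of_I ?_
    rw [ez_Z]
    exact (key5 (n := 2 * m + 1) hm rfl).mulL (ez_mem _)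

theorem Z_eval (m : ℕ) : ((Z m).eval 1 : ℤ) =
    ∑ k ∈ range (m + 1), (4 * k + 1) * ((2 * k).choose k : ℤ) ^ 4 * (2 ^ (2 * m - k)) ^ 8 -
    ∑ k ∈ range (2 * m + 1), (3 * k + 1) * ((2 * k).choose k : ℤ) ^ 3 * (2 ^ (2 * m - k)) ^ 4 *
      (2 ^ (2 * m)) ^ 4 := by
  rw [Z, eval_sub, eval_finsetSum, eval_finsetSum]
  congr 1
  · refine sum_congr rfl fun k _ => ?_
    rw [zL, eval_mul, eval_mul, eval_mul, eval_pow, eval_pow, eval_pow, eval_geom, eval_gb, eval_sz,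
      eval_X, one_pow]
    push_cast; ring
  · refine sum_congr rfl fun k _ => ?_
    rw [zR, eval_mul, eval_mul, eval_mul, eval_mul, eval_pow, eval_pow, eval_pow, eval_pow,
      eval_geom, eval_gb, eval_sz, eval_sz, eval_X, one_pow, Nat.sub_zero]
    push_cast; ring

/-- `(1/2)_k/k! = C(2k,k)/4^k` -/
theorem ch_eq (k : ℕ) : ch k = ((2 * k).choose k : ℚ) / 4 ^ k := by
  induction k with
  | zero => simp [ch_zero]
  | succ k ih =>
    rw [ch_succ, ih]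
    have h := Nat.succ_mul_centralBinom_succ k
    rw [Nat.centralBinom, Nat.centralBinom] at h
    have h1 : ((k : ℚ) + 1) * ((2 * (k + 1)).choose (k + 1) : ℚ) =
        2 * (2 * k + 1) * ((2 * k).choose k : ℚ) := by exact_mod_cast h
    have h2 : ((k : ℚ) + 1) ≠ 0 := by positivity
    have h3 : ((2 : ℚ) * k + 2) ≠ 0 := by positivity
    rw [pow_succ]
    field_simp
    linear_combination (-2) * h1

theorem Z_rat (m : ℕ) : (((Z m).eval 1 : ℤ) : ℚ) = 2 ^ (16 * m) *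
    (∑ k ∈ range (m + 1), (4 * k + 1) * ch k ^ 4 -
      ∑ k ∈ range (2 * m + 1), (3 * k + 1) * ch k ^ 3 * 2 ^ (2 * k)) := by
  rw [Z_eval, mul_sub, mul_sum, mul_sum]
  push_cast
  congr 1
  · refine sum_congr rfl fun k hk => ?_
    have hk' := mem_range.1 hk
    rw [ch_eq, div_pow]
    have h1 : (2 : ℚ) ^ (16 * m) = (2 ^ (2 * m - k)) ^ 8 * (4 ^ k) ^ 4 := by
      have : (4 : ℚ) = 2 ^ 2 := by norm_num
      rw [this, ← pow_mul, ← pow_mul, ← pow_mul, ← pow_add]; congr 1; omega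
    rw [h1]
    have h2 : ((4 : ℚ) ^ k) ≠ 0 := by positivity
    field_simp
  · refine sum_congr rfl fun k hk => ?_
    have hk' := mem_range.1 hk
    rw [ch_eq, div_pow]
    have h1 : (2 : ℚ) ^ (16 * m) * 2 ^ (2 * k) = (2 ^ (2 * m - k)) ^ 4 * (2 ^ (2 * m)) ^ 4 * (4 ^ k) ^ 3 := by
      have : (4 : ℚ) = 2 ^ 2 := by norm_num
      rw [this, ← pow_mul, ← pow_mul, ← pow_mul, ← pow_mul, ← pow_add, ← pow_add, ← pow_add]
      congr 1; omega
    have h2 : ((4 : ℚ) ^ k) ≠ 0 := by positivity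
    have h3 : (2 : ℚ) ^ (16 * m) * ((3 * (k : ℚ) + 1) * ((((2 * k).choose k : ℕ) : ℚ) ^ 3 / (4 ^ k) ^ 3) *
        2 ^ (2 * k)) = ((2 : ℚ) ^ (16 * m) * 2 ^ (2 * k)) * ((3 * (k : ℚ) + 1) *
        ((((2 * k).choose k : ℕ) : ℚ) ^ 3 / (4 ^ k) ^ 3)) := by ring
    rw [h3, h1]
    field_simp

/-- the congruence modulo `p^(r+4)`, for an odd prime `p` -/
theorem final {p r : ℕ} (hp : p.Prime) (hp2 : p ≠ 2) (hr : 0 < r) :
    ∃ t : ℚ, ∑ k ∈ range ((p ^ r - 1) / 2 + 1), (4 * (k : ℚ) + 1) * ch k ^ 4 -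
      ∑ k ∈ range (p ^ r), (3 * (k : ℚ) + 1) * ch k ^ 3 * 2 ^ (2 * k) = (p : ℚ) ^ (r + 4) * t ∧
      ¬ p ∣ t.den := by
  have hodd : Odd (p ^ r) := (hp.odd_of_ne_two hp2).pow
  obtain ⟨m, hm⟩ := hodd
  have hpr : 1 < p ^ r := Nat.one_lt_pow hr.ne' hp.one_lt
  have hm0 : 0 < m := by omega
  have h1 : (p ^ r - 1) / 2 + 1 = m + 1 := by omega
  rw [h1]
  obtain ⟨c, hc⟩ := Z_dvd hm0
  have h2 := congrArg (eval 1) hc
  obtain ⟨s, hs⟩ : ∃ s, r = s + 1 := ⟨r - 1, by omega⟩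
  have : Fact p.Prime := ⟨hp⟩
  rw [eval_mul, eval_mul, eval_pow, eval_geom, ← hm, hs, eval_one_cyclotomic_prime_pow] at h2
  have h3 := Z_rat m
  rw [h2] at h3
  rw [← hs] at h3
  have h4 : ((2 : ℚ) ^ (16 * m)) ≠ 0 := by positivity
  refine ⟨(c.eval 1 : ℤ) / 2 ^ (16 * m), ?_, ?_⟩
  · rw [hm]
    have h5 : (p : ℚ) ^ (r + 4) = (p : ℚ) ^ r * (p : ℚ) ^ 4 := pow_add _ _ _
    rw [h5]
    rw [← mul_div_assoc, eq_div_iff h4, mul_comm, ← h3]
    push_cast
    ring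
  · intro hd
    have h6 : ((((c.eval 1 : ℤ) : ℚ) / 2 ^ (16 * m)).den : ℤ) ∣ 2 ^ (16 * m) := by
      have := Rat.den_dvd (c.eval 1) (2 ^ (16 * m))
      rw [Rat.divInt_eq_div] at this
      push_cast at this
      exact this
    have h7 : ((((c.eval 1 : ℤ) : ℚ) / 2 ^ (16 * m)).den) ∣ 2 ^ (16 * m) := by
      exact_mod_cast h6
    have h8 := hp.dvd_of_dvd_pow (hd.trans h7)
    have h9 := (Nat.prime_dvd_prime_iff_eq hp Nat.prime_two).1 h8
    exact hp2 h9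

end Pool.Agent.R439.C42
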