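import Mathlib
import Pool.Agent.R439.QH

set_option autoImplicit false

/-!
A terminating very-well-poised summation (limit case of the terminating `6φ5` sum).
-/

namespace Pool.Agent.R439

open Finset Polynomial

section
variable {F : Type*} [Field F]

/-- telescoping principle -/
theorem wz_sum (T : ℕ → ℕ → F) (G : ℕ → ℕ → F) (M : ℕ)
    (h : ∀ m < M, ∀ k, T (m + 1) k - T m k = G m (k + 1) - G m k) (h0 : ∀ m < M, G m 0 = 0)
    (h1 : ∀ m < M, ∀ k, m + 1 < k → G m k = 0) (hT : ∀ k, 0 < k → T 0 k = 0) (N : ℕ)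
    (hN : M < N) : ∑ k ∈ range N, T M k = T 0 0 := by
  induction M with
  | zero =>
    obtain ⟨N, rfl⟩ := Nat.exists_eq_succ_of_ne_zero hN.ne'
    rw [Nat.succ_eq_add_one, sum_range_succ', sum_eq_zero (fun k _ => hT _ (Nat.succ_pos k)),
      zero_add]
  | succ M ih =>
    have ih' := ih (fun m hm => h m (by omega)) (fun m hm => h0 m (by omega))
      (fun m hm => h1 m (by omega)) (by omega)
    rw [← ih', ← sub_eq_zero, ← sum_sub_distrib, sum_congr rfl fun k _ => h M (by omega) k,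
      sum_range_sub, h0 M (by omega), h1 M (by omega) N (by omega), sub_zero]

theorem tc_shift {b : F} (hb0 : b ≠ 0) (M k : ℕ) (hb : ∀ i : ℕ, 0 < i → b ^ i ≠ 1) :
    tc b (M + 1) k * (b ^ k - b ^ (M + 1)) = tc b M k * (1 - b ^ (M + 1)) := by
  induction k with
  | zero => rw [tc_zero, tc_zero, pow_zero]
  | succ k ih =>
    have h1 := tc_succ_mul hb (M + 1) k
    have h2 := tc_succ_mul hb M k
    have hk : 1 - b ^ (k + 1) ≠ 0 := sub_ne_zero.2 (hb _ (Nat.succ_pos _)).symm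
    have hM : (b ^ (M + 1) : F) ≠ 0 := pow_ne_zero _ hb0
    have hM' : (b ^ M : F) ≠ 0 := pow_ne_zero _ hb0
    apply mul_right_cancel₀ hk
    have e1 : b ^ (-((M + 1 : ℕ) : ℤ)) = (b ^ (M + 1))⁻¹ := by rw [zpow_neg, zpow_natCast]
    have e2 : b ^ (-((M : ℕ) : ℤ)) = (b ^ M)⁻¹ := by rw [zpow_neg, zpow_natCast]
    rw [e1] at h1
    rw [e2] at h2
    have h3 : tc b (M + 1) (k + 1) * (b ^ (k + 1) - b ^ (M + 1)) * (1 - b ^ (k + 1)) =
        (tc b (M + 1) k * (b ^ k - b ^ (M + 1))) * (1 - (b ^ M)⁻¹ * b ^ k) := by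
      rw [mul_assoc, mul_comm (b ^ (k + 1) - b ^ (M + 1)), ← mul_assoc, h1]
      rw [pow_succ b M, pow_succ b k]
      field_simp
      ring
    rw [h3, ih]
    linear_combination (-(1 - b ^ (M + 1))) * h2

/-- factors not depending on `M` -/
def uu (b a c : F) (k : ℕ) : F :=
  poch a b k * poch c b k / poch (a * b / c) b k * (-1) ^ k * (∏ i ∈ range k, b ^ i) * (a / c) ^ k

/-- normalized term -/
def T5 (b a c : F) (M k : ℕ) : F :=
  (1 - a * (b ^ k) ^ 2) * uu b a c k * tc b M k * (b ^ (M + 1)) ^ k / poch (a * b ^ (M + 1)) b k *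
    (poch (a * b / c) b M / poch a b (M + 1))

def G5 (b a c : F) (M k : ℕ) : F :=
  -(b ^ (M + 1)) * (1 - b ^ k) * (1 - a * b ^ k / c) * uu b a c k * tc b (M + 1) k /
    (1 - b ^ (M + 1)) * (b ^ (M + 1)) ^ k / poch (a * b ^ (M + 1)) b k *
    (poch (a * b / c) b M / poch a b (M + 1))

theorem phi5lim {b a c : F} (hb0 : b ≠ 0) (hb : ∀ i : ℕ, 0 < i → b ^ i ≠ 1) (hc : c ≠ 0)
    (ha : ∀ i : ℕ, a * b ^ i ≠ 1) (hac : ∀ i : ℕ, a * b / c * b ^ i ≠ 1) (M N : ℕ) (hN : M < N) :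
    ∑ k ∈ range N, T5 b a c M k = 1 := by
  have h0 : T5 b a c 0 0 = 1 := by
    have := ha 0
    rw [pow_zero, mul_one] at this
    have h1 : 1 - a ≠ 0 := sub_ne_zero.2 this.symm
    simp [T5, uu, tc, poch]
    field_simp
  rw [← h0]
  refine wz_sum (T5 b a c) (G5 b a c) M ?_ ?_ ?_ ?_ N hN
  · intro m _ k
    have hτ := tc_shift hb0 m k hb
    have hτ' := tc_succ_mul hb (m + 1) k
    have e1 : b ^ (-((m + 1 : ℕ) : ℤ)) = (b ^ (m + 1))⁻¹ := by rw [zpow_neg, zpow_natCast]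
    rw [e1] at hτ'
    have hP1 : 1 - b ^ (m + 1) ≠ 0 := sub_ne_zero.2 (hb _ (Nat.succ_pos _)).symm
    have hk1 : 1 - b ^ (k + 1) ≠ 0 := sub_ne_zero.2 (hb _ (Nat.succ_pos _)).symm
    have hP0 : (b ^ (m + 1) : F) ≠ 0 := pow_ne_zero _ hb0
    have ht0 : tc b m k = tc b (m + 1) k * (b ^ k - b ^ (m + 1)) / (1 - b ^ (m + 1)) := by
      rw [eq_div_iff hP1, hτ]
    have ht1 : tc b (m + 1) (k + 1) =
        tc b (m + 1) k * (1 - (b ^ (m + 1))⁻¹ * b ^ k) / (1 - b ^ (k + 1)) := by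
      rw [eq_div_iff hk1, hτ']
    have hack : 1 - a * b / c * b ^ k ≠ 0 := sub_ne_zero.2 (hac k).symm
    have hacm : 1 - a * b / c * b ^ m ≠ 0 := sub_ne_zero.2 (hac m).symm
    have hu : uu b a c (k + 1) = uu b a c k *
        ((1 - a * b ^ k) * (1 - c * b ^ k) / (1 - a * b / c * b ^ k) * (-(b ^ k)) * (a / c)) := by
      have : poch (a * b / c) b k ≠ 0 := poch_ne fun i _ => hac i
      rw [uu, uu, poch_succ, poch_succ, poch_succ, prod_range_succ, pow_succ, pow_succ]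
      field_simp
    -- the denominators
    have haP : ∀ i : ℕ, a * b ^ (m + 1) * b ^ i ≠ 1 := fun i => by
      rw [mul_assoc, ← pow_add]; exact ha _
    have hd : poch (a * b ^ (m + 1)) b k ≠ 0 := poch_ne fun i _ => haP i
    have hd1 : 1 - a * b ^ (m + 1) * b ^ k ≠ 0 := sub_ne_zero.2 (haP k).symm
    have hd0 : 1 - a * b ^ (m + 1) ≠ 0 := by
      have := haP 0; rw [pow_zero, mul_one] at this; exact sub_ne_zero.2 this.symm
    have hd2 : poch (a * b ^ (m + 1 + 1)) b k =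
        poch (a * b ^ (m + 1)) b k * (1 - a * b ^ (m + 1) * b ^ k) / (1 - a * b ^ (m + 1)) := by
      rw [eq_div_iff hd0]
      have := poch_succ' (a * b ^ (m + 1)) b k
      rw [poch_succ] at this
      rw [this, mul_comm, pow_succ b (m + 1), mul_assoc a]
    have hpa : poch a b (m + 1) ≠ 0 := poch_ne fun i _ => ha i
    have hpac : poch (a * b / c) b m ≠ 0 := poch_ne fun i _ => hac i
    rw [T5, T5, G5, G5, ht0, ht1, hu, hd2, poch_succ (a * b ^ (m + 1)) b k,
      poch_succ a b (m + 1), poch_succ (a * b / c) b m]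
    generalize poch (a * b ^ (m + 1)) b k = D at hd ⊢
    generalize poch a b (m + 1) = E at hpa ⊢
    generalize poch (a * b / c) b m = E' at hpac ⊢
    generalize tc b (m + 1) k = τ
    generalize uu b a c k = U
    have e3 : b ^ (m + 1 + 1) = b ^ (m + 1) * b := pow_succ _ _
    have e4 : b ^ (k + 1) = b ^ k * b := pow_succ _ _
    have e5 : (b ^ (m + 1 + 1)) ^ k = (b ^ (m + 1)) ^ k * b ^ k := by rw [e3, mul_pow]
    have e6 : (b ^ (m + 1)) ^ (k + 1) = (b ^ (m + 1)) ^ k * b ^ (m + 1) := pow_succ _ _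
    have e7 : a * b / c * b ^ m = a * b ^ (m + 1) / c := by rw [pow_succ]; ring
    rw [e7] at hacm ⊢
    rw [e5, e6]
    rw [e4] at hk1 ⊢
    generalize (b ^ (m + 1)) ^ k = W
    generalize b ^ (m + 1) = P at *
    generalize b ^ k = Kk at *
    have hd1' : 1 - a * Kk * P ≠ 0 := by rw [mul_right_comm]; exact hd1
    have hack' : c - a * Kk * b ≠ 0 := by
      intro h; apply hack; field_simp; linear_combination h
    have hacm' : c - a * P ≠ 0 := by
      intro h; apply hacm; field_simp; linear_combination h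
    field_simp
    ring
  · intro m _
    rw [G5, pow_zero, sub_self]; ring
  · intro m _ k hk
    rw [G5, tc_gt hb0 hk]; ring
  · intro k hk
    rw [T5, tc_gt hb0 hk]; ring

/-! ### The terminating `6φ5` sum -/

/-- telescoping principle with coefficients -/
theorem wz_rec (T : ℕ → ℕ → F) (G : ℕ → ℕ → F) (A B : ℕ → F) (M : ℕ)
    (h : ∀ m < M, ∀ k, A m * T (m + 1) k - B m * T m k = G m (k + 1) - G m k)
    (hA : ∀ m < M, A m ≠ 0) (h0 : ∀ m < M, G m 0 = 0)
    (h1 : ∀ m < M, ∀ k, m + 1 < k → G m k = 0) (hT : ∀ k, 0 < k → T 0 k = 0) (N : ℕ)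
    (hN : M < N) : ∑ k ∈ range N, T M k = T 0 0 * ∏ m ∈ range M, (B m / A m) := by
  induction M with
  | zero =>
    obtain ⟨N, rfl⟩ := Nat.exists_eq_succ_of_ne_zero hN.ne'
    rw [Nat.succ_eq_add_one, sum_range_succ', sum_eq_zero (fun k _ => hT _ (Nat.succ_pos k)),
      zero_add, range_zero, prod_empty, mul_one]
  | succ M ih =>
    have ih' := ih (fun m hm => h m (by omega)) (fun m hm => hA m (by omega))
      (fun m hm => h0 m (by omega)) (fun m hm => h1 m (by omega)) (by omega)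
    have hs : A M * ∑ k ∈ range N, T (M + 1) k - B M * ∑ k ∈ range N, T M k = 0 := by
      rw [mul_sum, mul_sum, ← sum_sub_distrib, sum_congr rfl fun k _ => h M (by omega) k,
        sum_range_sub, h0 M (by omega), h1 M (by omega) N (by omega), sub_zero]
    have hAM := hA M (by omega)
    rw [prod_range_succ, ← mul_assoc, ← ih', ← mul_div_assoc, eq_div_iff hAM]
    linear_combination hs

/-- factors of the `6φ5` term -/
def hh (b a c d : F) (k : ℕ) : F :=
  poch a b k * poch c b k * poch d b k / (poch (a * b / c) b k * poch (a * b / d) b k)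

/-- term of the terminating `6φ5` sum (times `1 - a`) -/
def T6 (b a c d : F) (M k : ℕ) : F :=
  (1 - a * (b ^ k) ^ 2) * hh b a c d k * tc b M k * (a * b ^ (M + 1) / (c * d)) ^ k /
    poch (a * b ^ (M + 1)) b k

def G6 (b a c d : F) (M k : ℕ) : F :=
  -(b ^ (M + 1)) * (1 - a * b ^ (M + 1)) * (1 - b ^ k) * (1 - a * b ^ k / c) *
    (1 - a * b ^ k / d) * hh b a c d k * tc b (M + 1) k * (a * b ^ (M + 1) / (c * d)) ^ k /
    ((1 - b ^ (M + 1)) * poch (a * b ^ (M + 1)) b k)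

theorem phi65 {b a c d : F} (hb0 : b ≠ 0) (hb : ∀ i : ℕ, 0 < i → b ^ i ≠ 1) (hc : c ≠ 0)
    (hd : d ≠ 0) (ha : ∀ i : ℕ, a * b ^ i ≠ 1) (hac : ∀ i : ℕ, a * b / c * b ^ i ≠ 1)
    (had : ∀ i : ℕ, a * b / d * b ^ i ≠ 1) (M N : ℕ) (hN : M < N) :
    ∑ k ∈ range N, T6 b a c d M k =
      poch a b (M + 1) * poch (a * b / (c * d)) b M /
        (poch (a * b / c) b M * poch (a * b / d) b M) := by
  have h0 : T6 b a c d 0 0 = 1 - a := by
    simp [T6, hh, tc, poch]
  have hR : poch a b (M + 1) * poch (a * b / (c * d)) b M /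
        (poch (a * b / c) b M * poch (a * b / d) b M) =
      (1 - a) * ∏ m ∈ range M, (((1 - a * b ^ (m + 1)) * (1 - a * b ^ (m + 1) / (c * d))) /
        ((1 - a * b ^ (m + 1) / c) * (1 - a * b ^ (m + 1) / d))) := by
    rw [poch_succ', prod_div_distrib, prod_mul_distrib, prod_mul_distrib, poch, poch, poch, poch]
    have e1 : ∀ x : F, ∏ i ∈ range M, (1 - x * b * b ^ i) = ∏ m ∈ range M, (1 - x * b ^ (m + 1)) := by
      intro x; refine prod_congr rfl fun i _ => ?_; rw [pow_succ]; ring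
    have e2 : ∀ x : F, ∏ i ∈ range M, (1 - a * b / x * b ^ i) =
        ∏ m ∈ range M, (1 - a * b ^ (m + 1) / x) := by
      intro x; refine prod_congr rfl fun i _ => ?_; rw [pow_succ]; ring
    rw [e1, e2, e2, e2]
    ring
  rw [hR, ← h0]
  refine wz_rec (T6 b a c d) (G6 b a c d) (fun m => (1 - a * b ^ (m + 1) / c) *
    (1 - a * b ^ (m + 1) / d)) (fun m => (1 - a * b ^ (m + 1)) * (1 - a * b ^ (m + 1) / (c * d)))
    M ?_ ?_ ?_ ?_ ?_ N hN
  · intro m _ k
    have hτ := tc_shift hb0 m k hb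
    have hτ' := tc_succ_mul hb (m + 1) k
    have e1 : b ^ (-((m + 1 : ℕ) : ℤ)) = (b ^ (m + 1))⁻¹ := by rw [zpow_neg, zpow_natCast]
    rw [e1] at hτ'
    have hP1 : 1 - b ^ (m + 1) ≠ 0 := sub_ne_zero.2 (hb _ (Nat.succ_pos _)).symm
    have hk1 : 1 - b ^ (k + 1) ≠ 0 := sub_ne_zero.2 (hb _ (Nat.succ_pos _)).symm
    have hP0 : (b ^ (m + 1) : F) ≠ 0 := pow_ne_zero _ hb0
    have ht0 : tc b m k = tc b (m + 1) k * (b ^ k - b ^ (m + 1)) / (1 - b ^ (m + 1)) := by
      rw [eq_div_iff hP1, hτ]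
    have ht1 : tc b (m + 1) (k + 1) =
        tc b (m + 1) k * (1 - (b ^ (m + 1))⁻¹ * b ^ k) / (1 - b ^ (k + 1)) := by
      rw [eq_div_iff hk1, hτ']
    have hack : 1 - a * b / c * b ^ k ≠ 0 := sub_ne_zero.2 (hac k).symm
    have hadk : 1 - a * b / d * b ^ k ≠ 0 := sub_ne_zero.2 (had k).symm
    have hu : hh b a c d (k + 1) = hh b a c d k *
        ((1 - a * b ^ k) * (1 - c * b ^ k) * (1 - d * b ^ k) /
          ((1 - a * b / c * b ^ k) * (1 - a * b / d * b ^ k))) := by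
      have h1 : poch (a * b / c) b k ≠ 0 := poch_ne fun i _ => hac i
      have h2 : poch (a * b / d) b k ≠ 0 := poch_ne fun i _ => had i
      rw [hh, hh, poch_succ, poch_succ, poch_succ, poch_succ, poch_succ]
      field_simp
    have haP : ∀ i : ℕ, a * b ^ (m + 1) * b ^ i ≠ 1 := fun i => by
      rw [mul_assoc, ← pow_add]; exact ha _
    have hdd : poch (a * b ^ (m + 1)) b k ≠ 0 := poch_ne fun i _ => haP i
    have hd1 : 1 - a * b ^ (m + 1) * b ^ k ≠ 0 := sub_ne_zero.2 (haP k).symm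
    have hd0 : 1 - a * b ^ (m + 1) ≠ 0 := by
      have := haP 0; rw [pow_zero, mul_one] at this; exact sub_ne_zero.2 this.symm
    have hd2 : poch (a * b ^ (m + 1 + 1)) b k =
        poch (a * b ^ (m + 1)) b k * (1 - a * b ^ (m + 1) * b ^ k) / (1 - a * b ^ (m + 1)) := by
      rw [eq_div_iff hd0]
      have := poch_succ' (a * b ^ (m + 1)) b k
      rw [poch_succ] at this
      rw [this, mul_comm, pow_succ b (m + 1), mul_assoc a]
    rw [T6, T6, G6, G6, ht0, ht1, hu, hd2, poch_succ (a * b ^ (m + 1)) b k]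
    generalize poch (a * b ^ (m + 1)) b k = D at hdd ⊢
    generalize tc b (m + 1) k = τ
    generalize hh b a c d k = H
    have e3 : b ^ (m + 1 + 1) = b ^ (m + 1) * b := pow_succ _ _
    have e4 : b ^ (k + 1) = b ^ k * b := pow_succ _ _
    have e5 : (a * b ^ (m + 1 + 1) / (c * d)) ^ k = (a * b ^ (m + 1) / (c * d)) ^ k * b ^ k := by
      rw [e3, ← mul_pow]; congr 1; ring
    have e6 : (a * b ^ (m + 1) / (c * d)) ^ (k + 1) =
        (a * b ^ (m + 1) / (c * d)) ^ k * (a * b ^ (m + 1) / (c * d)) := pow_succ _ _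
    rw [e5, e6]
    rw [e4] at hk1 ⊢
    generalize (a * b ^ (m + 1) / (c * d)) ^ k = W
    generalize b ^ (m + 1) = P at hP1 hP0 hd1 hd0 ⊢
    generalize b ^ k = Kk at hk1 hack hadk hd1 ⊢
    have hd1' : 1 - a * Kk * P ≠ 0 := by rw [mul_right_comm]; exact hd1
    have hack' : c - a * Kk * b ≠ 0 := by
      intro h; apply hack; field_simp; linear_combination h
    have hadk' : d - a * Kk * b ≠ 0 := by
      intro h; apply hadk; field_simp; linear_combination h
    clear hτ hτ' ht0 ht1 hu hd2 e1 e3 e4 e5 e6 haP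
    field_simp
    ring
  · intro m _
    have e : ∀ x : F, a * b ^ (m + 1) / x = a * b / x * b ^ m := by
      intro x; rw [pow_succ]; ring
    rw [e, e]
    exact mul_ne_zero (sub_ne_zero.2 (hac m).symm) (sub_ne_zero.2 (had m).symm)
  · intro m _
    rw [G6, pow_zero, sub_self]; ring
  · intro m _ k hk
    rw [G6, tc_gt hb0 hk]; ring
  · intro k hk
    rw [T6, tc_gt hb0 hk]; ring

end

end Pool.Agent.R439
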