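import Mathlib
import Pool.Agent.R439.Phi5
import Pool.Agent.R439.RfDefs

set_option autoImplicit false

/-!
Dougall's terminating `5F4` sum.
-/

namespace Pool.Agent.R439

open Finset

theorem rf_zero (x : ℚ) : rf x 0 = 1 := by simp [rf]

theorem rf_succ (x : ℚ) (k : ℕ) : rf x (k + 1) = rf x k * (x + k) := by
  rw [rf, rf, prod_range_succ]

theorem rf_succ' (x : ℚ) (k : ℕ) : rf x (k + 1) = x * rf (x + 1) k := by
  rw [rf, prod_range_succ', rf, mul_comm]
  congr 1
  · simp
  · refine prod_congr rfl fun i _ => ?_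
    push_cast; ring

theorem rf_ne {x : ℚ} {k : ℕ} (h : ∀ i < k, x + i ≠ 0) : rf x k ≠ 0 := by
  rw [rf, prod_ne_zero_iff]
  intro i hi
  exact h i (mem_range.1 hi)

theorem rf_one (k : ℕ) : rf 1 k = k.factorial := by
  induction k with
  | zero => simp [rf]
  | succ k ih => rw [rf_succ, ih, Nat.factorial_succ]; push_cast; ring

theorem rf_one_ne (k : ℕ) : rf 1 k ≠ 0 := by rw [rf_one]; positivity

/-- `(-M)_k/k!` -/
def ta (M k : ℕ) : ℚ := rf (-(M : ℚ)) k / rf 1 k

theorem ta_succ (M k : ℕ) : ta M (k + 1) = ta M k * ((k - M) / (k + 1)) := by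
  have h1 := rf_one_ne k
  have h2 : (k + 1 : ℚ) ≠ 0 := by positivity
  rw [ta, ta, rf_succ, rf_succ]
  have h3 : (1 + (k : ℚ)) ≠ 0 := by positivity
  field_simp
  ring

theorem ta_shift (M k : ℕ) : ta M k * (M + 1) = ta (M + 1) k * (M + 1 - k) := by
  induction k with
  | zero => simp [ta, rf]
  | succ k ih =>
    rw [ta_succ, ta_succ]
    have h2 : (k + 1 : ℚ) ≠ 0 := by positivity
    push_cast
    field_simp
    have : ta M k * (↑k - ↑M) * (↑M + 1) = (ta M k * (M + 1)) * (k - M) := by ring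
    rw [this, ih]
    ring

theorem ta_gt {M k : ℕ} (h : M < k) : ta M k = 0 := by
  rw [ta, rf, prod_eq_zero (mem_range.2 h) (by ring), zero_div]

/-- well-poised part -/
def hC (a b c : ℚ) (k : ℕ) : ℚ :=
  rf a k * rf b k * rf c k / (rf (a + 1 - b) k * rf (a + 1 - c) k)

/-- term of the sum, times `a` -/
def TC (a b c : ℚ) (M k : ℕ) : ℚ :=
  (a + 2 * k) * hC a b c k * ta M k / rf (a + M + 1) k

def GC (a b c : ℚ) (M k : ℕ) : ℚ :=
  -((a + M + 1) * k * (a + k - b) * (a + k - c) * hC a b c k * ta (M + 1) k) /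
    ((M + 1) * rf (a + M + 1) k)

theorem dougall5 {a b c : ℚ} (ha : ∀ i : ℕ, a + i ≠ 0) (hb : ∀ i : ℕ, a + 1 - b + i ≠ 0)
    (hc : ∀ i : ℕ, a + 1 - c + i ≠ 0) (M : ℕ) :
    ∑ k ∈ range (M + 1), TC a b c M k =
      rf a (M + 1) * rf (a + 1 - b - c) M / (rf (a + 1 - b) M * rf (a + 1 - c) M) := by
  have h0 : TC a b c 0 0 = a := by
    simp [TC, hC, ta, rf]
  have hR : rf a (M + 1) * rf (a + 1 - b - c) M / (rf (a + 1 - b) M * rf (a + 1 - c) M) =
      a * ∏ m ∈ range M, (((a + m + 1) * (a + m + 1 - b - c)) /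
        ((a + m + 1 - b) * (a + m + 1 - c))) := by
    rw [rf_succ', prod_div_distrib, prod_mul_distrib, prod_mul_distrib, rf, rf, rf, rf]
    have e1 : ∏ i ∈ range M, (a + 1 + (i : ℚ)) = ∏ m ∈ range M, (a + m + 1) :=
      prod_congr rfl fun i _ => by ring
    have e2 : ∀ x : ℚ, ∏ i ∈ range M, (a + 1 - x + (i : ℚ)) = ∏ m ∈ range M, (a + m + 1 - x) :=
      fun x => prod_congr rfl fun i _ => by ring
    have e3 : ∏ i ∈ range M, (a + 1 - b - c + (i : ℚ)) = ∏ m ∈ range M, (a + m + 1 - b - c) :=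
      prod_congr rfl fun i _ => by ring
    rw [e1, e2, e2, e3]
    ring
  rw [hR]
  have hrec := wz_rec (TC a b c) (GC a b c) (fun m => (a + m + 1 - b) * (a + m + 1 - c))
    (fun m => (a + m + 1) * (a + m + 1 - b - c)) M ?_ ?_ ?_ ?_ ?_ (M + 1) (Nat.lt_succ_self M)
  · rw [hrec, h0]
  · intro m _ k
    have hb' : rf (a + 1 - b) k ≠ 0 := rf_ne fun i _ => hb i
    have hc' : rf (a + 1 - c) k ≠ 0 := rf_ne fun i _ => hc i
    have hm : (m + 1 : ℚ) ≠ 0 := by positivity
    have hk : (k + 1 : ℚ) ≠ 0 := by positivity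
    have haP : ∀ i : ℕ, a + m + 1 + i ≠ 0 := fun i => by
      have := ha (m + 1 + i)
      push_cast at this
      intro h; apply this; linear_combination h
    have hdd : rf (a + m + 1) k ≠ 0 := rf_ne fun i _ => haP i
    have hd0 : a + m + 1 ≠ 0 := by have := haP 0; simpa using this
    have hd1 := haP k
    have ht0 : ta m k = ta (m + 1) k * (m + 1 - k) / (m + 1) := by
      rw [eq_div_iff hm, ta_shift]
    have ht1 : ta (m + 1) (k + 1) = ta (m + 1) k * ((k - (m + 1)) / (k + 1)) := by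
      rw [ta_succ]; push_cast; ring
    have hu : hC a b c (k + 1) = hC a b c k * ((a + k) * (b + k) * (c + k) /
        ((a + 1 - b + k) * (a + 1 - c + k))) := by
      have h1 := hb k
      have h2 := hc k
      rw [hC, hC, rf_succ, rf_succ, rf_succ, rf_succ, rf_succ]
      field_simp
    have hd2 : rf (a + (m + 1 : ℕ) + 1) k = rf (a + m + 1) k * (a + m + 1 + k) / (a + m + 1) := by
      rw [eq_div_iff hd0]
      have := rf_succ' (a + m + 1) k
      rw [rf_succ] at this
      push_cast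
      have e : a + (m + 1 : ℚ) + 1 = a + m + 1 + 1 := by ring
      rw [e]
      linear_combination -this
    rw [TC, TC, GC, GC, ht0, ht1, hu, hd2, rf_succ (a + m + 1) k]
    have hbk := hb k
    have hck := hc k
    generalize rf (a + m + 1) k = D at hdd ⊢
    generalize ta (m + 1) k = τ
    generalize hC a b c k = H
    push_cast
    generalize (m : ℚ) = P at *
    generalize (k : ℚ) = Kk at *
    have hd1' : a + P + 1 + Kk ≠ 0 := hd1
    clear ht0 ht1 hu hd2 haP hb hc ha hb' hc'
    field_simp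
    ring
  · intro m _
    refine mul_ne_zero ?_ ?_
    · have := hb m
      intro h; apply this; linear_combination h
    · have := hc m
      intro h; apply this; linear_combination h
  · intro m _
    simp [GC]
  · intro m _ k hk
    rw [GC, ta_gt hk]; ring
  · intro k hk
    rw [TC, ta_gt hk]; ring

end Pool.Agent.R439
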