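import Mathlib
import Pool.Agent.R439.QDefs

set_option autoImplicit false

/-!
Definitions used in the statements on the exponent `f_{p,m,r}`.
-/

namespace Pool.Agent.R439

open Finset Polynomial

/-- The least nonnegative residue `⟨-r/m⟩_p` of `-r/m` modulo `p`. -/
def res (p m r : ℕ) : ℕ := (-(r : ZMod p) * (m : ZMod p)⁻¹).val

/-- The coefficient `c_k = ∏_{j<k} (1-q^(r+jm))(1-q^(m-r+jm))/(1-q^((j+1)m))^2`. -/
noncomputable def cc (m r k : ℕ) : K :=
  ∏ j ∈ range k, (1 - q ^ (r + j * m)) * (1 - q ^ ((m : ℤ) - (r : ℤ) + (j : ℤ) * (m : ℤ))) /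
    (1 - q ^ ((j + 1) * m)) ^ 2

/-- The polynomial `∑_{k<p} c_k x^k` in `x` over `ℚ(q)`. -/
noncomputable def SS (p m r : ℕ) : K[X] := ∑ k ∈ range p, C (cc m r k) * X ^ k

/-- The polynomial `∑_{k<p} c_k q^(mk) ∏_{j<k} (1 - x q^(jm))` in `x` over `ℚ(q)`. -/
noncomputable def TT (p m r : ℕ) : K[X] :=
  ∑ k ∈ range p, C (cc m r k * q ^ (m * k)) * ∏ j ∈ range k, (1 - C (q ^ (j * m)) * X)

/-- Coefficientwise congruence of polynomials in `x` over `ℚ(q)` modulo a polynomial in `q`. -/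
def CongX (P : ℚ[X]) (A B : K[X]) : Prop := ∀ j, Cong P (A.coeff j) (B.coeff j)

/-- The right-hand side `(-1)^⟨-r/m⟩_p q^f T_{p,m,r}(x)`. -/
noncomputable def RHS (p m r : ℕ) (f : ℤ) : K[X] := C ((-1) ^ res p m r * q ^ f) * TT p m r

end Pool.Agent.R439
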