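import Mathlib
import Pool.Agent.R439.ExpDefs
import Pool.Agent.R439.QLoc
import Pool.Agent.R439.QH

set_option autoImplicit false

namespace Pool.Agent.R439

open Finset Polynomial

/-! ### Exact identity -/

section
variable {F : Type*} [Field F]

/-- `(b^{-a};b)_k (b^{a+1};b)_k/(b;b)_k^2` -/
def cA (b : F) (a k : ℕ) : F := tc b a k * (poch (b ^ (a + 1)) b k / poch b b k)

/-- coefficient of `x^j` in `(x;b)_k` -/
def ek (b : F) (k j : ℕ) : F := (∏ i ∈ range j, (b ^ k - b ^ i)) / poch b b j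

theorem ek_lt {b : F} {k j : ℕ} (h : k < j) : ek b k j = 0 := by
  rw [ek, prod_eq_zero (mem_range.2 h) (sub_self _), zero_div]

theorem ek_add {b : F} (hb : ∀ i : ℕ, 0 < i → b ^ i ≠ 1) (j i : ℕ) :
    ek b (j + i) j = (-1) ^ j * (∏ l ∈ range j, b ^ l) * (poch b b (j + i) / (poch b b i * poch b b j)) := by
  have h1 : ∏ l ∈ range j, (b ^ (j + i) - b ^ l) =
      (-1) ^ j * (∏ l ∈ range j, b ^ l) * poch (b * b ^ i) b j := by
    have e1 : ∀ l ∈ range j, (b ^ (j + i) - b ^ l) = (-1) * b ^ l * (1 - b ^ (i + (j - l))) := by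
      intro l hl
      have := mem_range.1 hl
      have e : b ^ (j + i) = b ^ l * b ^ (i + (j - l)) := by rw [← pow_add]; congr 1; omega
      rw [e]; ring
    rw [prod_congr rfl e1, prod_mul_distrib, prod_mul_distrib, prod_const, card_range]
    congr 1
    rw [← prod_range_reflect, poch]
    refine prod_congr rfl fun l hl => ?_
    have := mem_range.1 hl
    rw [← pow_succ', ← pow_add]
    congr 2; omega
  have h2 : poch b b (j + i) = poch b b i * poch (b * b ^ i) b j := by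
    rw [add_comm, poch_add]
  have h3 := poch_self_ne hb i
  have h4 := poch_self_ne hb j
  rw [ek, h1, h2]
  field_simp

/-- the polynomial `(x;b)_k` -/
theorem coeff_pochX {b : F} [Infinite F] (hb0 : b ≠ 0) (hb : ∀ i : ℕ, 0 < i → b ^ i ≠ 1) (k j : ℕ) :
    (∏ i ∈ range k, (1 - C (b ^ i) * X : F[X])).coeff j = ek b k j := by
  have h : (∏ i ∈ range k, (1 - C (b ^ i) * X : F[X])) =
      ∑ l ∈ range (k + 1), C (ek b k l) * X ^ l := by
    apply Polynomial.funext
    intro z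
    have h1 := qbinom hb0 hb k (z * b ^ k) (k + 1) (Nat.lt_succ_self k)
    have e : z * b ^ k * b ^ (-(k : ℤ)) = z := by
      rw [zpow_neg, zpow_natCast, mul_assoc, mul_inv_cancel₀ (pow_ne_zero _ hb0), mul_one]
    rw [e] at h1
    rw [eval_prod, eval_finsetSum]
    have e1 : ∏ i ∈ range k, eval z (1 - C (b ^ i) * X : F[X]) = poch z b k := by
      rw [poch]
      refine prod_congr rfl fun i _ => ?_
      simp only [eval_sub, eval_one, eval_mul, eval_C, eval_X]
      ring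
    rw [e1, ← h1]
    refine sum_congr rfl fun l _ => ?_
    simp only [eval_mul, eval_C, eval_pow, eval_X]
    have e2 : tc b k l * (b ^ k) ^ l = ek b k l := by
      rw [tc, ek, poch, div_mul_eq_mul_div]
      congr 1
      have : (b ^ k) ^ l = ∏ i ∈ range l, b ^ k := by rw [prod_const, card_range]
      rw [this, ← prod_mul_distrib]
      refine prod_congr rfl fun i _ => ?_
      have e3 : b ^ (-(k : ℤ)) * b ^ k = 1 := by
        rw [zpow_neg, zpow_natCast, inv_mul_cancel₀ (pow_ne_zero _ hb0)]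
      calc (1 - b ^ (-(k : ℤ)) * b ^ i) * b ^ k = b ^ k - (b ^ (-(k : ℤ)) * b ^ k) * b ^ i := by ring
        _ = _ := by rw [e3, one_mul]
    rw [← e2]; ring
  rw [h, finsetSum_coeff]
  by_cases hj : j < k + 1
  · rw [sum_eq_single j]
    · rw [coeff_C_mul, coeff_X_pow_self, mul_one]
    · intro l _ hl
      rw [coeff_C_mul, coeff_X_pow, if_neg hl.symm, mul_zero]
    · intro h; exact absurd (mem_range.2 hj) h
  · rw [ek_lt (by omega)]
    refine sum_eq_zero fun l hl => ?_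
    have := mem_range.1 hl
    rw [coeff_C_mul, coeff_X_pow, if_neg (by omega), mul_zero]

/-- the exact identity -/
theorem exact_id {b : F} (hb0 : b ≠ 0) (hb : ∀ i : ℕ, 0 < i → b ^ i ≠ 1) (a N : ℕ) (ha : a < N)
    (j : ℕ) :
    ∑ k ∈ range N, cA b a k * b ^ k * ek b k j =
      (-1) ^ a * (∏ l ∈ range (a + 1), b ^ l) * cA b a j := by
  by_cases hj : a < j
  · rw [cA, tc_gt hb0 hj, zero_mul, mul_zero]
    refine sum_eq_zero fun k _ => ?_
    by_cases hk : a < k
    · rw [cA, tc_gt hb0 hk]; ring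
    · rw [ek_lt (by omega)]; ring
  · obtain ⟨M, rfl⟩ : ∃ M, a = j + M := ⟨a - j, by omega⟩
    obtain ⟨N, rfl⟩ : ∃ N', N = j + N' := ⟨N - j, by omega⟩
    rw [sum_range_add, sum_eq_zero (fun k hk => by
      rw [ek_lt (mem_range.1 hk)]; ring), zero_add]
    have hc : ∀ i < M, b ^ (j + 1) * b ^ i ≠ 1 := fun i _ => by
      rw [← pow_add]; exact hb _ (by omega)
    have hV := qvand hb0 hb M (b ^ (j + M + 1) * b ^ j) (b ^ (j + 1)) hc N (by omega)
    have hterm : ∀ i ∈ range N, cA b (j + M) (j + i) * b ^ (j + i) * ek b (j + i) j =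
        ((-1) ^ j * (∏ l ∈ range j, b ^ l) * b ^ j * cA b (j + M) j) *
        (tc b M i * (poch (b ^ (j + M + 1) * b ^ j) b i / poch (b ^ (j + 1)) b i) * b ^ i) := by
      intro i _
      have h1 := poch_self_ne hb i
      have h2 := poch_self_ne hb j
      have h3 := poch_self_ne hb (j + i)
      have h4 : poch b b (j + i) = poch b b j * poch (b ^ (j + 1)) b i := by
        rw [poch_add, ← pow_succ']
      have h5 : poch (b ^ (j + 1)) b i ≠ 0 := by
        intro h; rw [h4, h, mul_zero] at h3; exact h3 rfl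
      have h6 : poch (b ^ (-((j + M : ℕ) : ℤ))) b (j + i) =
          poch (b ^ (-((j + M : ℕ) : ℤ))) b j * poch (b ^ (-(M : ℤ))) b i := by
        rw [poch_add]
        congr 2
        rw [← zpow_natCast b j, ← zpow_add₀ hb0]; congr 1; push_cast; ring
      rw [ek_add hb, cA, cA, tc, tc, tc, h6, poch_add (b ^ (j + M + 1)) b j i, h4]
      generalize poch (b ^ (j + M + 1) * b ^ j) b i = X1
      generalize poch (b ^ (j + 1)) b i = X2 at h5 ⊢
      rw [pow_add b j i]
      field_simp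
    rw [sum_congr rfl hterm, ← mul_sum, hV]
    have hP : ∏ i ∈ range M, (b ^ (j + M + 1) * b ^ j - b ^ (j + 1) * b ^ i) =
        (-1) ^ M * (∏ i ∈ range M, b ^ (j + (1 + i))) * poch (b ^ (j + 1)) b M := by
      have e1 : ∀ l ∈ range M, (b ^ (j + M + 1) * b ^ j - b ^ (j + 1) * b ^ l) =
          (-1) * b ^ (j + (1 + l)) * (1 - b ^ (j + (M - l))) := by
        intro l hl
        have := mem_range.1 hl
        have e : b ^ (j + M + 1) * b ^ j = b ^ (j + (1 + l)) * b ^ (j + (M - l)) := by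
          rw [← pow_add, ← pow_add]; congr 1; omega
        have e' : b ^ (j + 1) * b ^ l = b ^ (j + (1 + l)) := by
          rw [← pow_add]; congr 1; omega
        rw [e, e']; ring
      rw [prod_congr rfl e1, prod_mul_distrib, prod_mul_distrib, prod_const, card_range]
      congr 1
      rw [← prod_range_reflect, poch]
      refine prod_congr rfl fun l hl => ?_
      have := mem_range.1 hl
      rw [← pow_add]
      congr 2; omega
    have hne : poch (b ^ (j + 1)) b M ≠ 0 := poch_ne hc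
    rw [hP, mul_div_assoc, div_self hne, mul_one]
    have hU : ∏ l ∈ range (j + M + 1), b ^ l =
        (∏ l ∈ range j, b ^ l) * b ^ j * ∏ i ∈ range M, b ^ (j + (1 + i)) := by
      rw [add_assoc, prod_range_add, Nat.add_comm M 1, prod_range_add]
      simp only [range_one, prod_singleton, add_zero]
      ring
    rw [hU, pow_add]
    ring

end

/-! ### The parametrized sums -/

section
variable {p : ℕ} [Fact p.Prime]

theorem cyc_p : cyclotomic p ℚ = ∑ i ∈ range p, X ^ i := cyclotomic_prime ℚ p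

/-- `c_k` with parameter `s` -/
noncomputable def cs (p m a : ℕ) (k : ℕ) (s : ℤ) : K :=
  (∏ j ∈ range k, (1 - q ^ (-((m * a : ℕ) : ℤ) + (p : ℤ) * s) * (q ^ m) ^ j)) *
    (∏ j ∈ range k, (1 - q ^ (((m * (a + 1) : ℕ) : ℤ) + (p : ℤ) * (-s)) * (q ^ m) ^ j)) *
    ((poch (q ^ m) (q ^ m) k)⁻¹ ^ 2)

theorem poch_inv_mem {m k : ℕ} (hm : ¬ p ∣ m) (hk : k < p) :
    (poch (q ^ m) (q ^ m) k)⁻¹ ∈ O p := by
  rw [poch, ← Finset.prod_inv_distrib]
  refine prod_mem fun j hj => ?_
  rw [← pow_succ', ← pow_mul]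
  apply inv_one_sub_mem
  intro h
  rcases (Fact.out : p.Prime).dvd_mul.1 h with h | h
  · exact hm h
  · have := Nat.le_of_dvd (Nat.succ_pos _) h
    have := mem_range.1 hj
    omega

theorem aff_cs {m : ℕ} (hm : ¬ p ∣ m) (a : ℕ) {k : ℕ} (hk : k < p) : Aff p (cs p m a k) := by
  refine Aff.mul (Aff.mul (Aff.prod fun j _ => ?_) (Aff.prod fun j _ => ?_))
    (Aff.const (pow_mem (poch_inv_mem hm hk) _))
  · exact (Aff.const (one_mem _)).sub
      ((Aff.qpow _ (AddMonoidHom.id ℤ)).mul (Aff.const (pow_mem (pow_mem' _) _)))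
  · exact (Aff.const (one_mem _)).sub
      ((Aff.qpow _ (-AddMonoidHom.id ℤ)).mul (Aff.const (pow_mem (pow_mem' _) _)))

theorem ek_mem {m k j : ℕ} (hm : ¬ p ∣ m) (hk : k < p) : ek (q ^ m) k j ∈ O p := by
  by_cases h : k < j
  · rw [ek_lt h]; exact zero_mem _
  · rw [ek, div_eq_mul_inv]
    exact mul_mem (prod_mem fun i _ => sub_mem (pow_mem (pow_mem' _) _) (pow_mem (pow_mem' _) _))
      (poch_inv_mem hm (by omega))

/-- triangular numbers -/
def tri (a : ℕ) : ℕ := ∑ l ∈ range (a + 1), l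

theorem tri_two (a : ℕ) : (tri a : ℤ) * 2 = (a : ℤ) * (a + 1) := by
  have := Finset.sum_range_id_mul_two (a + 1)
  rw [tri]
  have h : ((∑ l ∈ range (a + 1), l : ℕ) : ℤ) * 2 = ((a + 1 : ℕ) : ℤ) * ((a + 1 - 1 : ℕ) : ℤ) := by
    exact_mod_cast this
  rw [h, Nat.add_sub_cancel]; push_cast; ring

/-- the exponent as a function of `s` -/
def gexp (p m a : ℕ) (s : ℤ) : ℤ := -((m * tri a : ℕ) : ℤ) + (p : ℤ) * (-(((p / 2 : ℕ) : ℤ) - a) * s)

/-- difference of coefficients of `x^j` -/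
noncomputable def DD (p m a j : ℕ) (s : ℤ) : K :=
  cs p m a j s - (-1) ^ a * q ^ (gexp p m a s) *
    ∑ k ∈ range p, cs p m a k s * ((q ^ m) ^ k * ek (q ^ m) k j)

theorem aff_DD {m : ℕ} (hm : ¬ p ∣ m) (a : ℕ) {j : ℕ} (hj : j < p) : Aff p (DD p m a j) := by
  refine (aff_cs hm a hj).sub (Aff.mul (Aff.mul (Aff.const (pow_mem (neg_mem (one_mem _)) _)) ?_)
    (Aff.sum fun k hk => (aff_cs hm a (mem_range.1 hk)).mul
      (Aff.const (mul_mem (pow_mem (pow_mem' _) _) (ek_mem hm (mem_range.1 hk))))))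
  exact Aff.qpow _ (AddMonoidHom.mulLeft (-(((p / 2 : ℕ) : ℤ) - a)))

theorem qm_ne {m : ℕ} (hm : 0 < m) : ∀ i : ℕ, 0 < i → (q ^ m) ^ i ≠ 1 := by
  intro i hi
  rw [← pow_mul]
  exact q_pow_ne_one (Nat.mul_pos hm hi).ne'

theorem cs_zero (m a k : ℕ) : cs p m a k 0 = cA (q ^ m) a k := by
  rw [cs, cA, tc]
  have e1 : q ^ (-((m * a : ℕ) : ℤ) + (p : ℤ) * 0) = (q ^ m) ^ (-(a : ℤ)) := by
    rw [← zpow_natCast, ← zpow_mul]; congr 1; push_cast; ring
  have e2 : q ^ (((m * (a + 1) : ℕ) : ℤ) + (p : ℤ) * (-0)) = (q ^ m) ^ (a + 1) := by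
    rw [← pow_mul, ← zpow_natCast q (m * (a + 1)), neg_zero, mul_zero, add_zero]
  rw [e1, e2]
  simp only [poch]
  ring

theorem cs_m {m a : ℕ} (ha : a < p) (k : ℕ) : cs p m a k (m : ℤ) = cA (q ^ m) (p - 1 - a) k := by
  obtain ⟨a', ha'⟩ : ∃ a', p = a + a' + 1 := ⟨p - 1 - a, by omega⟩
  have h1 : p - 1 - a = a' := by omega
  rw [h1, cs, cA, tc]
  have e1 : q ^ (-((m * a : ℕ) : ℤ) + (p : ℤ) * (m : ℤ)) = (q ^ m) ^ (a' + 1) := by
    rw [← pow_mul, ← zpow_natCast q (m * (a' + 1))]; congr 1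
    have : (p : ℤ) = a + a' + 1 := by exact_mod_cast ha'
    rw [this]; push_cast; ring
  have e2 : q ^ (((m * (a + 1) : ℕ) : ℤ) + (p : ℤ) * (-(m : ℤ))) = (q ^ m) ^ (-(a' : ℤ)) := by
    rw [← zpow_natCast q m, ← zpow_mul]; congr 1
    have : (p : ℤ) = a + a' + 1 := by exact_mod_cast ha'
    rw [this]; push_cast; ring
  rw [e1, e2]
  simp only [poch]
  ring

theorem U_eq (m a : ℕ) : ∏ l ∈ range (a + 1), (q ^ m) ^ l = q ^ (m * tri a) := by
  rw [tri, Finset.mul_sum, ← Finset.prod_pow_eq_pow_sum]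
  exact prod_congr rfl fun l _ => (pow_mul q m l).symm

theorem DD_vanish {m a : ℕ} (hp2 : p ≠ 2) (hm : ¬ p ∣ m) (ha : a < p) {j : ℕ} (hj : j < p) (s : ℤ) :
    I p 2 (DD p m a j s) := by
  have hm0 : 0 < m := Nat.pos_of_ne_zero fun h => hm (h ▸ dvd_zero _)
  have hB0 : (q ^ m : K) ≠ 0 := pow_ne_zero _ q_ne
  have hB := qm_ne hm0
  have hpodd : p % 2 = 1 := (Fact.out : p.Prime).eq_two_or_odd.resolve_left hp2
  have key : ∀ b : ℕ, b < p → cA (q ^ m) b j - (-1) ^ b * q ^ (-((m * tri b : ℕ) : ℤ)) *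
      ∑ k ∈ range p, cA (q ^ m) b k * ((q ^ m) ^ k * ek (q ^ m) k j) = 0 := by
    intro b hb
    have h := exact_id hB0 hB b p hb j
    rw [U_eq] at h
    have h' : ∑ k ∈ range p, cA (q ^ m) b k * ((q ^ m) ^ k * ek (q ^ m) k j) =
        (-1) ^ b * q ^ (m * tri b) * cA (q ^ m) b j := by
      rw [← h]; exact sum_congr rfl fun k _ => by ring
    rw [h', zpow_neg, zpow_natCast]
    have h1 : (q ^ (m * tri b) : K) ≠ 0 := pow_ne_zero _ q_ne
    have h2 : ((-1 : K) ^ b) * (-1) ^ b = 1 := by rw [← mul_pow]; simp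
    calc cA (q ^ m) b j - (-1) ^ b * (q ^ (m * tri b))⁻¹ *
          ((-1) ^ b * q ^ (m * tri b) * cA (q ^ m) b j)
        = cA (q ^ m) b j - (((-1 : K) ^ b) * (-1) ^ b) * ((q ^ (m * tri b))⁻¹ * q ^ (m * tri b)) *
          cA (q ^ m) b j := by ring
      _ = 0 := by rw [h2, inv_mul_cancel₀ h1]; ring
  refine (aff_DD hm a hj).vanish (m := (m : ℤ)) (by exact_mod_cast hm0.ne') ?_ ?_ s
  · have : DD p m a j 0 = 0 := by
      rw [← key a ha, DD, gexp]
      simp only [cs_zero, mul_zero, add_zero]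
    rw [this]; exact I.zero
  · have : DD p m a j (m : ℤ) = 0 := by
      rw [← key (p - 1 - a) (by omega), DD, gexp]
      simp only [cs_m ha]
      obtain ⟨a', ha'⟩ : ∃ a', p = a + a' + 1 := ⟨p - 1 - a, by omega⟩
      have h1 : p - 1 - a = a' := by omega
      rw [h1]
      have hsgn : ((-1 : K) ^ a) = (-1) ^ a' := by
        rw [neg_one_pow_eq_pow_mod_two, neg_one_pow_eq_pow_mod_two (n := a')]
        congr 1; omega
      have hexp : -((m * tri a : ℕ) : ℤ) + (p : ℤ) * (-(((p / 2 : ℕ) : ℤ) - a) * (m : ℤ)) =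
          -((m * tri a' : ℕ) : ℤ) := by
        have t1 := tri_two a
        have t2 := tri_two a'
        have hp : (p : ℤ) = a + a' + 1 := by exact_mod_cast ha'
        have hh : 2 * ((p / 2 : ℕ) : ℤ) = a + a' := by
          have : 2 * (p / 2) = a + a' := by omega
          exact_mod_cast this
        have : 2 * (-((m * tri a : ℕ) : ℤ) + (p : ℤ) * (-(((p / 2 : ℕ) : ℤ) - a) * (m : ℤ))) =
          2 * (-((m * tri a' : ℕ) : ℤ)) := by
          push_cast
          push_cast at hh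
          linear_combination (-(m : ℤ)) * t1 + (m : ℤ) * t2 - (m : ℤ) * (p : ℤ) * hh +
            (-(m : ℤ) * (a' - a)) * hp
        exact mul_left_cancel₀ two_ne_zero this
      rw [hsgn, hexp]
    rw [this]; exact I.zero

theorem res_lt (m r : ℕ) : res p m r < p := ZMod.val_lt _

theorem res_dvd {m r : ℕ} (hm : ¬ p ∣ m) : p ∣ r + m * res p m r := by
  rw [← ZMod.natCast_eq_zero_iff]
  push_cast
  rw [res, ZMod.natCast_zmod_val]
  have hm' : (m : ZMod p) ≠ 0 := by rwa [Ne, ZMod.natCast_eq_zero_iff]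
  field_simp
  ring

theorem cc_eq {m r a : ℕ} {s : ℤ} (h : (p : ℤ) * s = r + m * a) (k : ℕ) :
    cc m r k = cs p m a k s := by
  rw [cc, cs, prod_div_distrib, prod_mul_distrib, prod_pow, inv_pow, ← div_eq_mul_inv]
  congr 1
  · congr 1
    · refine prod_congr rfl fun j _ => ?_
      congr 1
      rw [← pow_mul, ← zpow_natCast q (r + j * m), ← zpow_natCast q (m * j), ← zpow_add₀ q_ne]
      congr 1; push_cast; linear_combination -h
    · refine prod_congr rfl fun j _ => ?_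
      congr 1
      rw [← pow_mul, ← zpow_natCast q (m * j), ← zpow_add₀ q_ne]
      congr 1; push_cast; linear_combination h
  · rw [poch]
    congr 1
    refine prod_congr rfl fun j _ => ?_
    rw [← pow_succ', ← pow_mul, mul_comm m]

theorem SS_coeff (p m r : ℕ) (j : ℕ) : (SS p m r).coeff j = if j < p then cc m r j else 0 := by
  rw [SS, finsetSum_coeff]
  by_cases hj : j < p
  · rw [if_pos hj, sum_eq_single j]
    · rw [coeff_C_mul, coeff_X_pow_self, mul_one]
    · intro l _ hl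
      rw [coeff_C_mul, coeff_X_pow, if_neg hl.symm, mul_zero]
    · intro h; exact absurd (mem_range.2 hj) h
  · rw [if_neg hj]
    refine sum_eq_zero fun l hl => ?_
    have := mem_range.1 hl
    rw [coeff_C_mul, coeff_X_pow, if_neg (by omega), mul_zero]

theorem TT_coeff (p : ℕ) {m : ℕ} (hm : 0 < m) (r j : ℕ) : (TT p m r).coeff j =
    ∑ k ∈ range p, cc m r k * ((q ^ m) ^ k * ek (q ^ m) k j) := by
  rw [TT, finsetSum_coeff]
  refine sum_congr rfl fun k _ => ?_
  rw [coeff_C_mul, ← pow_mul]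
  have h := coeff_pochX (b := (q ^ m : K)) (pow_ne_zero _ q_ne) (qm_ne hm) k j
  have e : ∏ j ∈ range k, (1 - C (q ^ (j * m)) * X : K[X]) =
      ∏ i ∈ range k, (1 - C ((q ^ m) ^ i) * X : K[X]) := by
    refine prod_congr rfl fun i _ => ?_
    rw [← pow_mul, mul_comm m]
  rw [e, h]
  ring

/-- coefficientwise membership -/
def XI (p : ℕ) [Fact p.Prime] (A B : K[X]) : Prop := ∀ j, I p 2 (A.coeff j - B.coeff j)

theorem CongX_iff {A B : K[X]} : CongX ((∑ i ∈ range p, X ^ i : ℚ[X]) ^ 2) A B ↔ XI p A B := by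
  rw [← cyc_p]
  constructor
  · intro h j; exact I_of_num two_ne_zero (h j)
  · intro h j; exact num_of_I (h j)

theorem exists_s {m r : ℕ} (hm : ¬ p ∣ m) : ∃ s : ℤ, (p : ℤ) * s = r + m * res p m r := by
  obtain ⟨s, hs⟩ := res_dvd (p := p) (r := r) hm
  exact ⟨s, by exact_mod_cast hs.symm⟩

theorem star_exists {m r : ℕ} (hp2 : p ≠ 2) (hm : ¬ p ∣ m) {s : ℤ}
    (hs : (p : ℤ) * s = r + m * res p m r) :
    XI p (SS p m r) (RHS p m r (gexp p m (res p m r) s)) := by
  have hm0 : 0 < m := Nat.pos_of_ne_zero fun h => hm (h ▸ dvd_zero _)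
  intro j
  rw [SS_coeff, RHS, coeff_C_mul, TT_coeff p hm0]
  by_cases hj : j < p
  · rw [if_pos hj]
    have h := DD_vanish hp2 hm (res_lt m r) hj s
    rw [DD] at h
    simp only [cc_eq hs]
    exact h
  · rw [if_neg hj, sum_eq_zero, mul_zero, sub_zero]
    · exact I.zero
    · intro k hk
      have := mem_range.1 hk
      rw [ek_lt (by omega)]; ring

theorem star_iff {m r : ℕ} (hp2 : p ≠ 2) (hm : ¬ p ∣ m) {s : ℤ}
    (hs : (p : ℤ) * s = r + m * res p m r) (f : ℤ) :
    XI p (SS p m r) (RHS p m r f) ↔ f = gexp p m (res p m r) s := by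
  constructor
  · intro h
    have h0 := h 0
    have h1 := star_exists hp2 hm hs 0
    have hpp : 0 < p := (Fact.out : p.Prime).pos
    rw [SS_coeff, if_pos hpp, cc, range_zero, prod_empty, RHS, coeff_C_mul] at h0 h1
    set T0 := (TT p m r).coeff 0
    set f0 := gexp p m (res p m r) s
    set X0 : K := (-1) ^ res p m r * q ^ f0 * T0 with hX0
    have e1 : q ^ f = q ^ (f - f0) * q ^ f0 := by rw [← zpow_add₀ q_ne]; congr 1; ring
    have h2 : I p 2 ((1 - q ^ (f - f0)) * X0) := by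
      have : (1 - q ^ (f - f0)) * X0 = (1 - (-1) ^ res p m r * q ^ f * T0) - (1 - X0) := by
        rw [e1, hX0]; ring
      rw [this]; exact h0.sub h1
    have h3 : I p 2 (1 - q ^ (f - f0)) := by
      have : 1 - q ^ (f - f0) = (1 - q ^ (f - f0)) * (1 - X0) + (1 - q ^ (f - f0)) * X0 := by ring
      rw [this]
      exact (h1.mulL (sub_mem (one_mem _) (zpow_mem _))).add h2
    have := eq_zero_of_I_two h3
    linarith
  · rintro rfl
    exact star_exists hp2 hm hs

/-- twice the exponent -/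
theorem gexp_two {m r : ℕ} (hp2 : p ≠ 2) {a : ℕ} {s : ℤ} (hs : (p : ℤ) * s = r + m * a) :
    2 * gexp p m a s = -((m : ℤ) * a * (a + 1) + (r + m * a) * (p - 1 - 2 * a)) := by
  have hpodd : p % 2 = 1 := (Fact.out : p.Prime).eq_two_or_odd.resolve_left hp2
  have t1 := tri_two a
  have hh : 2 * ((p / 2 : ℕ) : ℤ) = (p : ℤ) - 1 := by omega
  rw [gexp]
  push_cast
  push_cast at hh
  linear_combination (-(m : ℤ)) * t1 - (p : ℤ) * s * hh + (-((p : ℤ) - 1 - 2 * a)) * hs

end

end Pool.Agent.R439
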