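import Mathlib
import Pool.Agent.R439.ExpDefs

set_option autoImplicit false

/-!
Two more definitions used in the statements on the exponent `f_{p,m,r}`.
-/

namespace Pool.Agent.R439

open Finset Polynomial

/-- Admissible triples `(p,m,r)`: `p` an odd prime, `m, r ≥ 1`, `m ∤ r`, `p ∤ m`. -/
def Admissible (p m r : ℕ) : Prop := p.Prime ∧ p ≠ 2 ∧ 1 ≤ m ∧ 1 ≤ r ∧ ¬ m ∣ r ∧ ¬ p ∣ m

/-- The congruence `S_{p,m,r}(x) ≡ (-1)^⟨-r/m⟩_p q^f T_{p,m,r}(x) (mod [p]^2)`, coefficientwise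
in `x`, where `[p] = 1 + q + ⋯ + q^(p-1)`. -/
def SumCong (p m r : ℕ) (f : ℤ) : Prop :=
  CongX ((∑ i ∈ range p, X ^ i) ^ 2) (SS p m r) (RHS p m r f)

end Pool.Agent.R439
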