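import Mathlib
import Pool.Agent.R439.Phi5

set_option autoImplicit false

/-!
A terminating very-well-poised sum with six equal parameters (two-step recurrence).
-/

namespace Pool.Agent.R439

open Finset Polynomial

section
variable {F : Type*} [Field F]

/-- product of the shifted factorials of the summand, `P = v^(2M)` -/
def HV (v P : F) (k : ℕ) : F :=
  (poch (P * v ^ 2) (v ^ 2) k * poch v (v ^ 2) k ^ 2 * poch (v ^ 2) ((v ^ 2) ^ 2) k) /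
    (poch (v / P) (v ^ 2) k * poch (P * v ^ 2 * v) (v ^ 2) k * poch (v ^ 2) (v ^ 2) k *
      poch ((v ^ 2) ^ 2) ((v ^ 2) ^ 2) k)

/-- summand -/
def TV (v : F) (m k : ℕ) : F :=
  tc (v ^ 2) (2 * m) k * ((-v) ^ k * (1 - v * ((v ^ 2) ^ k) ^ 2)) * HV v ((v ^ 2) ^ (2 * m)) k

/-- certificate -/
def GV (v P : F) (m k : ℕ) : F :=
  (-(1 - v) * (1 - P ^ 2 * v ^ 6) * (1 - P * v ^ 5) / v ^ 2) * (1 - (v ^ 2) ^ k) ^ 2 *
    (1 - ((v ^ 2) ^ k) ^ 2) * (1 - (v ^ 2) ^ k / (P * v)) / (1 - P * v ^ 3 * (v ^ 2) ^ k) *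
    (tc (v ^ 2) (2 * m + 2) k / ((1 - 1 / (P * v ^ 4)) * (1 - 1 / (P * v ^ 2)))) * (-v) ^ k * HV v P k

theorem poch_two_shift {b X : F} (k : ℕ) (h0 : 1 - X ≠ 0) (h1 : 1 - X * b ≠ 0) :
    poch (X * b * b) b k = poch X b k * ((1 - X * b ^ k) * (1 - X * b * b ^ k)) /
      ((1 - X) * (1 - X * b)) := by
  have s2 : poch X b (k + 2) = poch X b k * (1 - X * b ^ k) * (1 - X * b ^ (k + 1)) := by
    rw [poch_succ, poch_succ]
  have s3 : poch X b (k + 2) = (1 - X) * ((1 - X * b) * poch (X * b * b) b k) := by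
    rw [poch_succ', poch_succ']
  rw [s2, pow_succ] at s3
  rw [eq_div_iff (mul_ne_zero h0 h1)]
  linear_combination (-1 : F) * s3

theorem key40 {v P K t0 : F} (hv : v ≠ 0) (hP : P ≠ 0) (hK : K ≠ 0)
    (a1 : 1 - P * v ^ 2 ≠ 0) (a2 : 1 - P * v ^ 4 ≠ 0) (a3 : P * v - 1 ≠ 0) (a4 : P * v ^ 3 - 1 ≠ 0)
    (a5 : P * v ^ 3 - K ≠ 0) (a6 : P * v - K ≠ 0) (a7 : 1 - P * v ^ 3 * K ≠ 0)
    (a8 : 1 - P * v ^ 5 * K ≠ 0) (a9 : 1 - v ^ 2 * K ≠ 0) (a10 : 1 - v ^ 4 * K ^ 2 ≠ 0)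
    (a11 : P - v * K ≠ 0) (a12 : 1 - P * v ^ 3 ≠ 0) (a13 : 1 - P * v ^ 5 ≠ 0) :
    (1 - v * P) * (1 - v ^ 4 * P) ^ 2 * (t0 * (1 - v * K ^ 2) *
        ((1 - P * v ^ 2 * K) * (1 - P * v ^ 4 * K) / ((1 - P * v ^ 2) * (1 - P * v ^ 4)) *
          (((P * v ^ 3 - K) * (P * v - K)) / ((P * v ^ 3 - 1) * (P * v - 1))) /
            ((1 - P * v ^ 3 * K) * (1 - P * v ^ 5 * K) / ((1 - P * v ^ 3) * (1 - P * v ^ 5))))) -
      (1 - v ^ 5 * P) * (1 - v ^ 2 * P) ^ 2 * (t0 * ((K - P * v ^ 4) * (K - P * v ^ 2) /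
          ((1 - P * v ^ 4) * (1 - P * v ^ 2))) * (1 - v * K ^ 2)) =
      (-(1 - v) * (1 - P ^ 2 * v ^ 6) * (1 - P * v ^ 5) / v ^ 2) * (1 - v ^ 2 * K) ^ 2 *
          (1 - (v ^ 2 * K) ^ 2) * (1 - v ^ 2 * K / (P * v)) / (1 - P * v ^ 3 * (v ^ 2 * K)) *
        ((t0 * (1 - K / (P * v ^ 4)) / (1 - v ^ 2 * K)) /
          ((1 - 1 / (P * v ^ 4)) * (1 - 1 / (P * v ^ 2)))) * (-v) *
        ((1 - P * v ^ 2 * K) * (1 - v * K) ^ 2 * (1 - v ^ 2 * K ^ 2) /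
          ((1 - v * K / P) * (1 - P * v ^ 3 * K) * (1 - v ^ 2 * K) * (1 - v ^ 4 * K ^ 2))) -
      (-(1 - v) * (1 - P ^ 2 * v ^ 6) * (1 - P * v ^ 5) / v ^ 2) * (1 - K) ^ 2 * (1 - K ^ 2) *
          (1 - K / (P * v)) / (1 - P * v ^ 3 * K) *
        (t0 / ((1 - 1 / (P * v ^ 4)) * (1 - 1 / (P * v ^ 2)))) := by
  have b3 : P * v ^ 4 - 1 ≠ 0 := by intro h; apply a2; linear_combination -h
  have b4 : P * v ^ 2 - 1 ≠ 0 := by intro h; apply a1; linear_combination -h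
  have e1 : (1 - v * P) * (1 - v ^ 4 * P) ^ 2 * (t0 * (1 - v * K ^ 2) *
        ((1 - P * v ^ 2 * K) * (1 - P * v ^ 4 * K) / ((1 - P * v ^ 2) * (1 - P * v ^ 4)) *
          (((P * v ^ 3 - K) * (P * v - K)) / ((P * v ^ 3 - 1) * (P * v - 1))) /
            ((1 - P * v ^ 3 * K) * (1 - P * v ^ 5 * K) / ((1 - P * v ^ 3) * (1 - P * v ^ 5))))) =
      t0 * ((1 - v * K ^ 2) * (1 - v ^ 4 * P) ^ 2 * (1 - P * v ^ 2 * K) * (1 - P * v ^ 4 * K) *
        (P * v ^ 3 - K) * (P * v - K) * (1 - P * v ^ 5)) /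
        ((1 - P * v ^ 2) * (1 - P * v ^ 4) * (1 - P * v ^ 3 * K) * (1 - P * v ^ 5 * K)) := by
    have h1 : (1 - v * P) = -(P * v - 1) := by ring
    have h2 : (1 - P * v ^ 3) = -(P * v ^ 3 - 1) := by ring
    rw [h2, h1]
    generalize hB1 : 1 - P * v ^ 2 = B1 at *
    generalize hB2 : 1 - P * v ^ 4 = B2 at *
    generalize hB3 : P * v - 1 = B3 at *
    generalize hB4 : P * v ^ 3 - 1 = B4 at *
    generalize hB5 : 1 - P * v ^ 3 * K = B5 at *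
    generalize hB6 : 1 - P * v ^ 5 * K = B6 at *
    generalize hB7 : 1 - P * v ^ 5 = B7 at *
    generalize hB8 : P * v ^ 3 - K = B8 at *
    generalize hB9 : P * v - K = B9 at *
    generalize hB10 : 1 - P * v ^ 2 * K = B10 at *
    generalize hB11 : 1 - P * v ^ 4 * K = B11 at *
    generalize hB12 : 1 - v ^ 4 * P = B12 at *
    generalize hB13 : 1 - v * K ^ 2 = B13 at *
    clear hB1 hB2 hB3 hB4 hB5 hB6 hB7 hB8 hB9 hB10 hB11 hB12 hB13 h1 h2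
    field_simp
  have e2 : (1 - v ^ 5 * P) * (1 - v ^ 2 * P) ^ 2 * (t0 * ((K - P * v ^ 4) * (K - P * v ^ 2) /
          ((1 - P * v ^ 4) * (1 - P * v ^ 2))) * (1 - v * K ^ 2)) =
      t0 * ((1 - v ^ 5 * P) * (1 - v ^ 2 * P) ^ 2 * (K - P * v ^ 4) * (K - P * v ^ 2) *
        (1 - v * K ^ 2) * (1 - P * v ^ 3 * K) * (1 - P * v ^ 5 * K)) /
        ((1 - P * v ^ 2) * (1 - P * v ^ 4) * (1 - P * v ^ 3 * K) * (1 - P * v ^ 5 * K)) := by
    generalize hB1 : 1 - P * v ^ 2 = B1 at *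
    generalize hB2 : 1 - P * v ^ 4 = B2 at *
    generalize hB5 : 1 - P * v ^ 3 * K = B5 at *
    generalize hB6 : 1 - P * v ^ 5 * K = B6 at *
    generalize hB7 : 1 - v ^ 5 * P = B7 at *
    generalize hB8 : 1 - v ^ 2 * P = B8 at *
    generalize hB9 : K - P * v ^ 4 = B9 at *
    generalize hB10 : K - P * v ^ 2 = B10 at *
    generalize hB11 : 1 - v * K ^ 2 = B11 at *
    clear hB1 hB2 hB5 hB6 hB7 hB8 hB9 hB10 hB11 e1
    field_simp
  have b1 : 1 - 1 / (P * v ^ 4) = (P * v ^ 4 - 1) / (P * v ^ 4) := by field_simp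
  have b2 : 1 - 1 / (P * v ^ 2) = (P * v ^ 2 - 1) / (P * v ^ 2) := by field_simp
  have b5 : 1 - v ^ 2 * K / (P * v) = (P - v * K) / P := by field_simp
  have b6 : 1 - v * K / P = (P - v * K) / P := by field_simp
  have b7 : 1 - K / (P * v) = (P * v - K) / (P * v) := by field_simp
  have b8 : 1 - K / (P * v ^ 4) = (P * v ^ 4 - K) / (P * v ^ 4) := by field_simp
  have b9 : 1 - P * v ^ 3 * (v ^ 2 * K) = 1 - P * v ^ 5 * K := by ring
  have b10 : 1 - (v ^ 2 * K) ^ 2 = 1 - v ^ 4 * K ^ 2 := by ring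
  have hPv4 : P * v ^ 4 ≠ 0 := mul_ne_zero hP (pow_ne_zero _ hv)
  have hPv2 : P * v ^ 2 ≠ 0 := mul_ne_zero hP (pow_ne_zero _ hv)
  have hPv : P * v ≠ 0 := mul_ne_zero hP hv
  have e3 : ∀ c : F, c / v ^ 2 * (1 - v ^ 2 * K) ^ 2 *
          (1 - v ^ 4 * K ^ 2) * ((P - v * K) / P) / (1 - P * v ^ 5 * K) *
        ((t0 * ((P * v ^ 4 - K) / (P * v ^ 4)) / (1 - v ^ 2 * K)) /
          (((P * v ^ 4 - 1) / (P * v ^ 4)) * ((P * v ^ 2 - 1) / (P * v ^ 2)))) * (-v) *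
        ((1 - P * v ^ 2 * K) * (1 - v * K) ^ 2 * (1 - v ^ 2 * K ^ 2) /
          (((P - v * K) / P) * (1 - P * v ^ 3 * K) * (1 - v ^ 2 * K) * (1 - v ^ 4 * K ^ 2))) =
      t0 * (c * ((-v) * (P * v ^ 4 - K) * P * (1 - P * v ^ 2 * K) * (1 - v * K) ^ 2 *
        (1 - v ^ 2 * K ^ 2))) /
        ((1 - P * v ^ 2) * (1 - P * v ^ 4) * (1 - P * v ^ 3 * K) * (1 - P * v ^ 5 * K)) := by
    intro c
    have g1 : (1 - P * v ^ 2) = -(P * v ^ 2 - 1) := by ring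
    have g2 : (1 - P * v ^ 4) = -(P * v ^ 4 - 1) := by ring
    rw [g1, g2]
    generalize hA1 : P * v ^ 4 - 1 = A1 at *
    generalize hA2 : P * v ^ 2 - 1 = A2 at *
    generalize hA3 : 1 - P * v ^ 3 * K = A3 at *
    generalize hA4 : 1 - P * v ^ 5 * K = A4 at *
    generalize hA5 : 1 - v ^ 2 * K = A5 at *
    generalize hA6 : 1 - v ^ 4 * K ^ 2 = A6 at *
    generalize hA7 : P - v * K = A7 at *
    generalize hA8 : P * v ^ 4 - K = A8 at *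
    generalize hA9 : 1 - P * v ^ 2 * K = A9 at *
    generalize hA10 : 1 - v * K = A10 at *
    generalize hA11 : 1 - v ^ 2 * K ^ 2 = A11 at *
    clear e1 e2 b1 b2 b5 b6 b7 b8 b9 b10 g1 g2 hA1 hA2 hA3 hA4 hA5 hA6 hA7 hA8 hA9 hA10 hA11
    field_simp
  have e4 : ∀ c : F, c / v ^ 2 * (1 - K) ^ 2 * (1 - K ^ 2) *
          ((P * v - K) / (P * v)) / (1 - P * v ^ 3 * K) *
        (t0 / (((P * v ^ 4 - 1) / (P * v ^ 4)) * ((P * v ^ 2 - 1) / (P * v ^ 2)))) =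
      t0 * (c * ((1 - K) ^ 2 * (1 - K ^ 2) * (P * v - K) * (P * v ^ 3) * (1 - P * v ^ 5 * K))) /
        ((1 - P * v ^ 2) * (1 - P * v ^ 4) * (1 - P * v ^ 3 * K) * (1 - P * v ^ 5 * K)) := by
    intro c
    have g1 : (1 - P * v ^ 2) = -(P * v ^ 2 - 1) := by ring
    have g2 : (1 - P * v ^ 4) = -(P * v ^ 4 - 1) := by ring
    rw [g1, g2]
    generalize hA1 : P * v ^ 4 - 1 = A1 at *
    generalize hA2 : P * v ^ 2 - 1 = A2 at *
    generalize hA3 : 1 - P * v ^ 3 * K = A3 at *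
    generalize hA4 : 1 - P * v ^ 5 * K = A4 at *
    generalize hA8 : P * v - K = A8 at *
    generalize hA9 : 1 - K = A9 at *
    generalize hA10 : 1 - K ^ 2 = A10 at *
    clear e1 e2 b1 b2 b5 b6 b7 b8 b9 b10 g1 g2 hA1 hA2 hA3 hA4 hA8 hA9 hA10
    field_simp
  rw [b1, b2, b5, b6, b7, b8, b9, b10, e1, e2, e3, e4, ← sub_div, ← sub_div]
  congr 1
  ring

theorem reorder40 {A B L R1 R0 c0 X1 X2 X3 X4 X5 X6 X7 Y1 Y2 Y3 Y4 w R3 τ σ H : F}
    (h : A * (τ * σ * H * L * R1) - B * (τ * σ * H * R0 * L) =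
      c0 * X1 ^ 2 * X2 * X3 / X4 * ((τ * σ * H * X5 / X6) / X7) * w * R3 -
        c0 * Y1 ^ 2 * Y2 * Y3 / Y4 * (τ * σ * H / X7)) :
    A * (τ * (σ * L) * (H * R1)) - B * (τ * R0 * (σ * L) * H) =
      c0 * X1 ^ 2 * X2 * X3 / X4 * (τ * X5 / X6 / X7) * (σ * w) * (H * R3) -
        c0 * Y1 ^ 2 * Y2 * Y3 / Y4 * (τ / X7) * σ * H := by
  linear_combination h

theorem hv_alg {Z1 Z2 Z3 Z4 Z5 Z6 Z7 Y1 Y2 Y3 Y4 Y5 Y6 Y7 Y8 Y9 Y10 Y11 Y12 : F}
    (z1 : Z1 ≠ 0) (z2 : Z2 ≠ 0) (z3 : Z3 ≠ 0) (z4 : Z4 ≠ 0) (y1 : Y1 ≠ 0) (y2 : Y2 ≠ 0)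
    (y3 : Y3 ≠ 0) (y4 : Y4 ≠ 0) (y5 : Y5 ≠ 0) (y6 : Y6 ≠ 0) (y7 : Y7 ≠ 0) (y8 : Y8 ≠ 0)
    (y9 : Y9 ≠ 0) (y10 : Y10 ≠ 0) :
    (Z5 * (Y11 * Y12) / (Y5 * Y6) * Z6 ^ 2 * Z7) /
      (Z1 * ((Y1 * Y2) / (Y3 * Y4)) * (Z2 * (Y7 * Y8) / (Y9 * Y10)) * Z3 * Z4) =
    Z5 * Z6 ^ 2 * Z7 / (Z1 * Z2 * Z3 * Z4) *
      (Y11 * Y12 / (Y5 * Y6) * (Y3 * Y4 / (Y1 * Y2)) / (Y7 * Y8 / (Y9 * Y10))) := by
  field_simp

theorem s3_alg {Z Y1 Y2 Y3 Y4 Y5 Y6 : F} (y1 : Y1 ≠ 0) (y2 : Y2 ≠ 0)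
    (y3 : Y3 ≠ 0) (y4 : Y4 ≠ 0) (y5 : Y5 ≠ 0) (y6 : Y6 ≠ 0) :
    Z = Z * (Y3 / Y5 * (Y4 / Y6)) / (Y1 / Y5 * (Y2 / Y6)) * (Y1 * Y2 / (Y3 * Y4)) := by
  field_simp

theorem HV_succ {v P : F} (hP : P ≠ 0) (hd : ∀ a b : ℕ, a ≠ b → v ^ a ≠ v ^ b)
    {e : ℕ} (he : P = v ^ e) (heven : Even e) (k : ℕ) :
    HV v P (k + 1) = HV v P k *
      ((1 - P * v ^ 2 * (v ^ 2) ^ k) * (1 - v * (v ^ 2) ^ k) ^ 2 * (1 - v ^ 2 * ((v ^ 2) ^ k) ^ 2) /
        ((1 - v * (v ^ 2) ^ k / P) * (1 - P * v ^ 3 * (v ^ 2) ^ k) * (1 - v ^ 2 * (v ^ 2) ^ k) *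
          (1 - v ^ 4 * ((v ^ 2) ^ k) ^ 2))) := by
  have e1 : (((v ^ 2) ^ 2) ^ k : F) = ((v ^ 2) ^ k) ^ 2 := by
    rw [← pow_mul (v ^ 2) 2 k, ← pow_mul (v ^ 2) k 2, mul_comm]
  rw [HV, HV, poch_succ, poch_succ, poch_succ, poch_succ, poch_succ, poch_succ, poch_succ, e1]
  have e2 : v / P * (v ^ 2) ^ k = v * (v ^ 2) ^ k / P := by ring
  have e3 : P * v ^ 2 * v * (v ^ 2) ^ k = P * v ^ 3 * (v ^ 2) ^ k := by ring
  have e4 : (v ^ 2) ^ 2 * ((v ^ 2) ^ k) ^ 2 = v ^ 4 * ((v ^ 2) ^ k) ^ 2 := by ring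
  rw [e2, e3, e4]
  rw [show (poch (P * v ^ 2) (v ^ 2) k * (1 - P * v ^ 2 * (v ^ 2) ^ k) *
      (poch v (v ^ 2) k * (1 - v * (v ^ 2) ^ k)) ^ 2 *
      (poch (v ^ 2) ((v ^ 2) ^ 2) k * (1 - v ^ 2 * ((v ^ 2) ^ k) ^ 2)) : F) =
      (poch (P * v ^ 2) (v ^ 2) k * poch v (v ^ 2) k ^ 2 * poch (v ^ 2) ((v ^ 2) ^ 2) k) *
      ((1 - P * v ^ 2 * (v ^ 2) ^ k) * (1 - v * (v ^ 2) ^ k) ^ 2 * (1 - v ^ 2 * ((v ^ 2) ^ k) ^ 2)) by
      ring,
    show (poch (v / P) (v ^ 2) k * (1 - v * (v ^ 2) ^ k / P) *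
        (poch (P * v ^ 2 * v) (v ^ 2) k * (1 - P * v ^ 3 * (v ^ 2) ^ k)) *
        (poch (v ^ 2) (v ^ 2) k * (1 - v ^ 2 * (v ^ 2) ^ k)) *
        (poch ((v ^ 2) ^ 2) ((v ^ 2) ^ 2) k * (1 - v ^ 4 * ((v ^ 2) ^ k) ^ 2)) : F) =
      (poch (v / P) (v ^ 2) k * poch (P * v ^ 2 * v) (v ^ 2) k * poch (v ^ 2) (v ^ 2) k *
        poch ((v ^ 2) ^ 2) ((v ^ 2) ^ 2) k) *
      ((1 - v * (v ^ 2) ^ k / P) * (1 - P * v ^ 3 * (v ^ 2) ^ k) * (1 - v ^ 2 * (v ^ 2) ^ k) *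
          (1 - v ^ 4 * ((v ^ 2) ^ k) ^ 2)) by ring, mul_div_mul_comm]

theorem sum40 {v : F} (hv0 : v ≠ 0) (hd : ∀ a b : ℕ, a ≠ b → v ^ a ≠ v ^ b) (t N : ℕ)
    (hN : 2 * t < N) :
    ∑ k ∈ range N, TV v t k = (1 - v ^ (4 * t + 1)) *
      (poch (v ^ 2) ((v ^ 2) ^ 2) t / poch ((v ^ 2) ^ 2) ((v ^ 2) ^ 2) t) ^ 2 := by
  have hp0 : (v ^ 2 : F) ≠ 0 := pow_ne_zero _ hv0
  have hp : ∀ i : ℕ, 0 < i → (v ^ 2 : F) ^ i ≠ 1 := by
    intro i hi
    rw [← pow_mul]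
    have := hd (2 * i) 0 (by omega)
    rwa [pow_zero] at this
  have sne : ∀ a b : ℕ, a ≠ b → v ^ a - v ^ b ≠ 0 := fun a b h => sub_ne_zero.2 (hd a b h)
  have wz : ∀ t N : ℕ, 2 * t < N → ∑ k ∈ range N, TV v t k = (1 - v) *
      ∏ m ∈ range t, (((1 - v ^ 5 * (v ^ 2) ^ (2 * m)) * (1 - v ^ 2 * (v ^ 2) ^ (2 * m)) ^ 2) /
        ((1 - v * (v ^ 2) ^ (2 * m)) * (1 - v ^ 4 * (v ^ 2) ^ (2 * m)) ^ 2)) := by
    intro t
    induction t with
    | zero =>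
      intro N hN
      obtain ⟨N, rfl⟩ := Nat.exists_eq_succ_of_ne_zero (Nat.ne_of_gt hN)
      rw [Nat.succ_eq_add_one, sum_range_succ', sum_eq_zero, zero_add, range_zero, prod_empty,
        mul_one]
      · simp [TV, HV, tc, poch]
      intro k _
      rw [TV, tc_gt hp0 (by omega)]; ring
    | succ m ih =>
      intro N hN
      have ih' := ih N (by omega)
      set P : F := (v ^ 2) ^ (2 * m) with hPdef
      have hPe : P = v ^ (4 * m) := by rw [hPdef, ← pow_mul]; congr 1; ring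
      have hP0 : P ≠ 0 := pow_ne_zero _ hp0
      have z1 : ∀ a : ℕ, 0 < a → 1 - P * v ^ a ≠ 0 := by
        intro a ha
        rw [hPe, ← pow_add]
        have := sne 0 (4 * m + a) (by omega)
        rwa [pow_zero] at this
      have hA : (1 - v * P) * (1 - v ^ 4 * P) ^ 2 ≠ 0 := by
        refine mul_ne_zero ?_ (pow_ne_zero _ ?_)
        · have := z1 1 one_pos; rwa [pow_one, mul_comm] at this
        · have := z1 4 (by omega); rwa [mul_comm] at this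
      have key : ∀ k, (1 - v * P) * (1 - v ^ 4 * P) ^ 2 * TV v (m + 1) k -
          (1 - v ^ 5 * P) * (1 - v ^ 2 * P) ^ 2 * TV v m k = GV v P m (k + 1) - GV v P m k := by
        intro k
        set K : F := (v ^ 2) ^ k with hKdef
        have hKe : K = v ^ (2 * k) := by rw [hKdef, ← pow_mul]
        have hK0 : K ≠ 0 := pow_ne_zero _ hp0
        have z2 : ∀ a : ℕ, 0 < a → 1 - P * v ^ a * K ≠ 0 := by
          intro a ha
          rw [hPe, hKe, ← pow_add, ← pow_add]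
          have := sne 0 (4 * m + a + 2 * k) (by omega)
          rwa [pow_zero] at this
        have z3 : P * v ^ 3 - K ≠ 0 := by
          rw [hPe, hKe, ← pow_add]; exact sne _ _ (by omega)
        have z4 : P * v - K ≠ 0 := by
          rw [hPe, hKe, ← pow_succ]; exact sne _ _ (by omega)
        have z5 : P - v * K ≠ 0 := by
          rw [hPe, hKe, ← pow_succ']; exact sne _ _ (by omega)
        have z6 : 1 - v ^ 2 * K ≠ 0 := by
          rw [hKe, ← pow_add]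
          have := sne 0 (2 + 2 * k) (by omega)
          rwa [pow_zero] at this
        have z7 : 1 - v ^ 4 * K ^ 2 ≠ 0 := by
          rw [hKe, ← pow_mul, ← pow_add]
          have := sne 0 (4 + 2 * k * 2) (by omega)
          rwa [pow_zero] at this
        have hτ0 := tc_shift hp0 (2 * m + 1) k hp
        have hτ1 := tc_shift hp0 (2 * m) k hp
        have hτ' := tc_succ_mul hp (2 * m + 2) k
        have f1 : (v ^ 2 : F) ^ (2 * m + 1) = P * v ^ 2 := by rw [pow_succ]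
        have f2 : (v ^ 2 : F) ^ (2 * m + 1 + 1) = P * v ^ 4 := by rw [pow_succ, f1]; ring
        have f3 : (v ^ 2 : F) ^ (-((2 * m + 2 : ℕ) : ℤ)) = (P * v ^ 4)⁻¹ := by
          rw [zpow_neg, zpow_natCast, ← f2]
        rw [f2, ← hKdef] at hτ0
        rw [f1, ← hKdef] at hτ1
        rw [f3, pow_succ (v ^ 2) k, ← hKdef] at hτ'
        have ht0 : tc (v ^ 2) (2 * m) k = tc (v ^ 2) (2 * m + 2) k *
            ((K - P * v ^ 4) * (K - P * v ^ 2) / ((1 - P * v ^ 4) * (1 - P * v ^ 2))) := by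
          rw [mul_div_assoc', eq_div_iff (mul_ne_zero (z1 4 (by omega)) (z1 2 (by omega)))]
          have e3 : tc (v ^ 2) (2 * m + 1 + 1) k = tc (v ^ 2) (2 * m + 2) k := rfl
          rw [e3] at hτ0
          linear_combination (-(1 - P * v ^ 4)) * hτ1 - (K - P * v ^ 2) * hτ0
        have ht1 : tc (v ^ 2) (2 * m + 2) (k + 1) =
            tc (v ^ 2) (2 * m + 2) k * (1 - K / (P * v ^ 4)) / (1 - v ^ 2 * K) := by
          rw [eq_div_iff z6]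
          rw [show (1 - v ^ 2 * K : F) = 1 - K * v ^ 2 by ring, hτ']
          ring
        have hH := HV_succ hP0 hd hPe (by exact ⟨2 * m, by ring⟩) k
        rw [← hKdef] at hH
        have hH2 : HV v (P * v ^ 4) k = HV v P k *
            ((1 - P * v ^ 2 * K) * (1 - P * v ^ 4 * K) / ((1 - P * v ^ 2) * (1 - P * v ^ 4)) *
          (((P * v ^ 3 - K) * (P * v - K)) / ((P * v ^ 3 - 1) * (P * v - 1))) /
            ((1 - P * v ^ 3 * K) * (1 - P * v ^ 5 * K) / ((1 - P * v ^ 3) * (1 - P * v ^ 5)))) := by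
          have s1 := poch_two_shift (b := v ^ 2) (X := P * v ^ 2) k (z1 2 (by omega)) (by
            have := z1 4 (by omega)
            rwa [show P * v ^ 2 * v ^ 2 = P * v ^ 4 by ring])
          have s2 := poch_two_shift (b := v ^ 2) (X := P * v ^ 3) k (z1 3 (by omega)) (by
            have := z1 5 (by omega)
            rwa [show P * v ^ 3 * v ^ 2 = P * v ^ 5 by ring])
          have c1 : 1 - v / (P * v ^ 4) = (P * v ^ 3 - 1) / (P * v ^ 3) := by field_simp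
          have c2 : 1 - v / (P * v ^ 4) * v ^ 2 = (P * v - 1) / (P * v) := by field_simp
          have c3 : 1 - v / (P * v ^ 4) * K = (P * v ^ 3 - K) / (P * v ^ 3) := by field_simp
          have c4 : 1 - v / (P * v ^ 4) * v ^ 2 * K = (P * v - K) / (P * v) := by field_simp
          have hPv3 : P * v ^ 3 ≠ 0 := mul_ne_zero hP0 (pow_ne_zero _ hv0)
          have hPv1 : P * v ≠ 0 := mul_ne_zero hP0 hv0
          have y1 : P * v ^ 3 - 1 ≠ 0 := by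
            intro h; exact z1 3 (by omega) (by linear_combination -h)
          have y2 : P * v - 1 ≠ 0 := by
            intro h; exact z1 1 (by omega) (by linear_combination -h)
          have s3 := poch_two_shift (b := v ^ 2) (X := v / (P * v ^ 4)) k
            (by rw [c1]; exact div_ne_zero y1 hPv3) (by rw [c2]; exact div_ne_zero y2 hPv1)
          rw [← hKdef] at s1 s2 s3
          rw [show P * v ^ 2 * v ^ 2 * v ^ 2 = P * v ^ 4 * v ^ 2 by ring,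
            show P * v ^ 2 * v ^ 2 = P * v ^ 4 by ring] at s1
          rw [show P * v ^ 3 * v ^ 2 * v ^ 2 = P * v ^ 4 * v ^ 2 * v by ring,
            show P * v ^ 3 * v ^ 2 = P * v ^ 5 by ring, show P * v ^ 3 = P * v ^ 2 * v by ring] at s2
          rw [c1, c2, c3, c4, show v / (P * v ^ 4) * v ^ 2 * v ^ 2 = v / P by field_simp] at s3
          have s3' : poch (v / (P * v ^ 4)) (v ^ 2) k = poch (v / P) (v ^ 2) k *
              (((P * v ^ 3 - 1) * (P * v - 1)) / ((P * v ^ 3 - K) * (P * v - K))) := by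
            rw [s3]
            exact s3_alg y1 y2 z3 z4 hPv3 hPv1
          rw [HV, HV, s1, s2, s3', show P * v ^ 2 * v * K = P * v ^ 3 * K by ring]
          rw [show (1 - P * v ^ 2 * v : F) = 1 - P * v ^ 3 by ring]
          have n1 : poch (v / P) (v ^ 2) k ≠ 0 := poch_ne fun i _ => by
            have hx : P - v * (v ^ 2) ^ i ≠ 0 := by
              rw [hPe, ← pow_mul, ← pow_succ']; exact sne _ _ (by omega)
            intro h
            apply hx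
            have : v / P * (v ^ 2) ^ i = v * (v ^ 2) ^ i / P := by ring
            rw [this, div_eq_one_iff_eq hP0] at h
            rw [h, sub_self]
          have n2 : poch (P * v ^ 2 * v) (v ^ 2) k ≠ 0 := poch_ne fun i _ => by
            intro h
            have := sne 0 (4 * m + 3 + 2 * i) (by omega)
            apply this
            rw [pow_zero, ← h, hPe, ← pow_mul]
            ring
          have n3 := poch_self_ne hp k
          have n4 : poch ((v ^ 2) ^ 2 : F) ((v ^ 2) ^ 2) k ≠ 0 := poch_self_ne (fun i hi => by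
            rw [← pow_mul]; exact hp _ (by omega)) k
          have w1 := z1 2 (by omega)
          have w2 := z1 4 (by omega)
          have w3 := z1 3 (by omega)
          have w4 := z1 5 (by omega)
          have w5 := z2 3 (by omega)
          have w6 := z2 5 (by omega)
          exact hv_alg n1 n2 n3 n4 y1 y2 z3 z4 w1 w2 w5 w6 w3 w4
        have f4 : (v ^ 2 : F) ^ (2 * (m + 1)) = P * v ^ 4 := by
          rw [show 2 * (m + 1) = 2 * m + 1 + 1 by ring, f2]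
        have f5 : (v ^ 2 : F) ^ (k + 1) = v ^ 2 * K := by rw [pow_succ]; ring
        have hk := key40 (t0 := tc (v ^ 2) (2 * m + 2) k * (-v) ^ k * HV v P k) hv0 hP0 hK0
          (z1 2 (by omega)) (z1 4 (by omega))
          (by intro h; exact z1 1 (by omega) (by linear_combination -h))
          (by intro h; exact z1 3 (by omega) (by linear_combination -h)) z3 z4
          (z2 3 (by omega)) (z2 5 (by omega)) z6 z7 z5 (z1 3 (by omega)) (z1 5 (by omega))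
        rw [TV, TV, GV, GV, f4, show 2 * (m + 1) = 2 * m + 2 by ring, f5, ← hKdef, ← hPdef, ht0, hH2, hH,
          ht1, pow_succ (-v) k]
        exact reorder40 hk
      have hs : (1 - v * P) * (1 - v ^ 4 * P) ^ 2 * ∑ k ∈ range N, TV v (m + 1) k -
          (1 - v ^ 5 * P) * (1 - v ^ 2 * P) ^ 2 * ∑ k ∈ range N, TV v m k = 0 := by
        have g0 : GV v P m 0 = 0 := by rw [GV, pow_zero]; ring
        have gN : GV v P m N = 0 := by
          rw [GV, tc_gt hp0 (by omega)]; ring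
        rw [mul_sum, mul_sum, ← sum_sub_distrib, sum_congr rfl fun k _ => key k, sum_range_sub,
          g0, gN, sub_zero]
      rw [prod_range_succ, ← mul_assoc, ← ih', ← mul_div_assoc, eq_div_iff hA]
      linear_combination hs
  rw [wz t N hN]
  have h3 : ∀ t : ℕ, (1 - v) *
      ∏ m ∈ range t, (((1 - v ^ 5 * (v ^ 2) ^ (2 * m)) * (1 - v ^ 2 * (v ^ 2) ^ (2 * m)) ^ 2) /
        ((1 - v * (v ^ 2) ^ (2 * m)) * (1 - v ^ 4 * (v ^ 2) ^ (2 * m)) ^ 2)) =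
      (1 - v ^ (4 * t + 1)) *
      (poch (v ^ 2) ((v ^ 2) ^ 2) t / poch ((v ^ 2) ^ 2) ((v ^ 2) ^ 2) t) ^ 2 := by
    intro t
    induction t with
    | zero => simp [poch]
    | succ t ih =>
      rw [prod_range_succ, ← mul_assoc, ih, poch_succ, poch_succ]
      have y1 : 1 - v * (v ^ 2) ^ (2 * t) = 1 - v ^ (4 * t + 1) := by
        rw [← pow_mul, ← pow_succ']; congr 2; ring
      have y2 : 1 - v ^ 5 * (v ^ 2) ^ (2 * t) = 1 - v ^ (4 * (t + 1) + 1) := by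
        rw [← pow_mul, ← pow_add]; congr 2; ring
      have y3 : 1 - v ^ 2 * ((v ^ 2) ^ 2) ^ t = 1 - v ^ 2 * (v ^ 2) ^ (2 * t) := by
        rw [← pow_mul (v ^ 2) 2 t]
      have y4 : 1 - (v ^ 2) ^ 2 * ((v ^ 2) ^ 2) ^ t = 1 - v ^ 4 * (v ^ 2) ^ (2 * t) := by
        rw [← pow_mul (v ^ 2) 2 t]; ring
      rw [y1, y2, y3, y4]
      have x1 : 1 - v ^ (4 * t + 1) ≠ 0 := by
        have := sne 0 (4 * t + 1) (by omega)
        rwa [pow_zero] at this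
      have x2 : 1 - v ^ 4 * (v ^ 2) ^ (2 * t) ≠ 0 := by
        have := sne 0 (4 + 2 * (2 * t)) (by omega)
        rw [pow_zero] at this
        rwa [← pow_mul, ← pow_add]
      have x3 : poch ((v ^ 2) ^ 2 : F) ((v ^ 2) ^ 2) t ≠ 0 := poch_self_ne (fun i hi => by
        rw [← pow_mul]; exact hp _ (by omega)) t
      generalize 1 - v ^ (4 * t + 1) = Y1 at *
      generalize 1 - v ^ 4 * (v ^ 2) ^ (2 * t) = Y2 at *
      generalize poch ((v ^ 2) ^ 2 : F) ((v ^ 2) ^ 2) t = Y3 at *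
      field_simp
  exact h3 t

end

end Pool.Agent.R439
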