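import Mathlib
import Pool.Agent.R439.QBlock

set_option autoImplicit false

/-!
First-order expansions modulo `(1-q^n)^2`.
-/

namespace Pool.Agent.R439

open Finset Polynomial

variable {n : ℕ} [NeZero n]

/-- logarithmic derivative of a factor `1 - q^e Q^s` -/
noncomputable def lam (e : ℤ) : K := q ^ e / (1 - q ^ e)

theorem lam_mem {e : ℤ} (he : ¬ (n : ℤ) ∣ e) : lam e ∈ O n := by
  rw [lam, div_eq_mul_inv]; exact mul_mem (zpow_mem _) (inv_one_sub_zmem he)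

theorem lam_neg {e : ℤ} (he : e ≠ 0) : lam e + lam (-e) = -1 := by
  have h1 := one_sub_zpow_ne he
  have h2 := one_sub_zpow_ne (neg_ne_zero.2 he)
  have h3 : q ^ e * q ^ (-e) = 1 := by rw [← zpow_add₀ q_ne]; simp
  rw [lam, lam]
  field_simp
  linear_combination (-2) * h3 + h3

theorem lam_shift {e : ℤ} (he : ¬ (n : ℤ) ∣ e) (s : ℤ) : EQ n 1 (lam (e + n * s)) (lam e) := by
  have hne : ¬ (n : ℤ) ∣ e + n * s := by
    intro h; apply he
    have := dvd_sub h (dvd_mul_right (n : ℤ) s)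
    simpa using this
  have h := q_shift (n := n) e s
  rw [lam, lam]
  exact h.div one_pos ((EQ.refl (one_mem _)).sub h) (U_one_sub hne)

theorem Qs_eq (s : ℤ) : EQ n 2 (q ^ ((n : ℤ) * s)) (1 - (s : K) * w n) :=
  ⟨zpow_mem _, sub_mem (one_mem _) (mul_mem (intCast_mem _ _) w_mem), qn_zpow _⟩

theorem one_sub_exp {e : ℤ} (he : ¬ (n : ℤ) ∣ e) (s : ℤ) :
    EQ n 2 (1 - q ^ (e + n * s)) ((1 - q ^ e) * (1 + (s : K) * w n * lam e)) := by
  have h := (EQ.refl (n := n) (k := 2) (one_mem _)).sub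
    ((EQ.refl (n := n) (k := 2) (zpow_mem e)).mul (Qs_eq (n := n) s))
  rw [← zpow_add₀ q_ne] at h
  have e1 : 1 - q ^ e * (1 - (s : K) * w n) = (1 - q ^ e) * (1 + (s : K) * w n * lam e) := by
    have h1 := one_sub_zpow_ne (show e ≠ 0 by rintro rfl; exact he (dvd_zero _))
    rw [lam]; field_simp; ring
  rwa [e1] at h

/-- multiplication of first-order expansions -/
theorem exp_mul {x y : K} (hx : x ∈ O n) (hy : y ∈ O n) (s t : K) (hs : s ∈ O n) (ht : t ∈ O n) :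
    EQ n 2 ((1 + s * w n * x) * (1 + t * w n * y)) (1 + w n * (s * x + t * y)) := by
  refine ⟨mul_mem (add_mem (one_mem _) (mul_mem (mul_mem hs w_mem) hx))
    (add_mem (one_mem _) (mul_mem (mul_mem ht w_mem) hy)),
    add_mem (one_mem _) (mul_mem w_mem (add_mem (mul_mem hs hx) (mul_mem ht hy))), ?_⟩
  have : (1 + s * w n * x) * (1 + t * w n * y) - (1 + w n * (s * x + t * y)) =
      w n ^ 2 * (s * x * (t * y)) := by ring
  rw [this]
  exact ⟨_, mul_mem (mul_mem hs hx) (mul_mem ht hy), rfl⟩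

/-- sum of logarithmic derivatives -/
noncomputable def LL (e b : ℤ) (i : ℕ) : K := ∑ l ∈ range i, lam (e + b * l)

theorem LL_mem {e b : ℤ} {i : ℕ} (h : ∀ l < i, ¬ (n : ℤ) ∣ e + b * l) : LL e b i ∈ O n :=
  sum_mem fun l hl => lam_mem (h l (mem_range.1 hl))

theorem gp_exp {e : ℤ} {b : ℕ} {i : ℕ} (h : ∀ l < i, ¬ (n : ℤ) ∣ e + b * l) (t : ℤ) :
    EQ n 2 (gp n e (q ^ b) i t) (gp n e (q ^ b) i 0 * (1 + w n * ((t : K) * LL e b i))) := by
  induction i with
  | zero =>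
    simp only [gp, poch_zero, LL, range_zero, sum_empty, mul_zero, add_zero, one_mul]
    exact EQ.refl (one_mem _)
  | succ i ih =>
    have ih' := ih (fun l hl => h l (by omega))
    have hi := h i (Nat.lt_succ_self i)
    have e1 : gp n e (q ^ b) (i + 1) t = gp n e (q ^ b) i t * (1 - q ^ (e + b * i + n * t)) := by
      rw [gp, gp, poch_succ]
      congr 2
      rw [← pow_mul, ← zpow_natCast q (b * i), ← zpow_add₀ q_ne]
      congr 1; push_cast; ring
    have e2 : gp n e (q ^ b) (i + 1) 0 = gp n e (q ^ b) i 0 * (1 - q ^ (e + b * i)) := by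
      rw [gp, gp, poch_succ]
      congr 2
      rw [← pow_mul, ← zpow_natCast q (b * i), ← zpow_add₀ q_ne]
      congr 1; push_cast; ring
    have h1 := ih'.mul (one_sub_exp hi t)
    rw [e1, e2]
    refine h1.trans ?_
    have hg : gp n e (q ^ b) i 0 ∈ O n := (gp_aff (pow_mem' _) _ _).mem 0
    have hL : LL e b i ∈ O n := LL_mem fun l hl => h l (by omega)
    have h2 := exp_mul (n := n) hL (lam_mem hi) (t : K) (t : K) (intCast_mem _ _) (intCast_mem _ _)
    have h3 := (EQ.refl (n := n) (k := 2) (mul_mem hg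
      (sub_mem (one_mem _) (zpow_mem (n := n) (e + b * i))))).mul h2
    have e3 : gp n e (q ^ b) i 0 * (1 - q ^ (e + b * i)) *
        ((1 + (t : K) * w n * LL e b i) * (1 + (t : K) * w n * lam (e + b * i))) =
        gp n e (q ^ b) i 0 * (1 + w n * ((t : K) * LL e b i)) *
          ((1 - q ^ (e + b * i)) * (1 + (t : K) * w n * lam (e + b * i))) := by ring
    have e4 : gp n e (q ^ b) i 0 * (1 - q ^ (e + b * i)) *
        (1 + w n * ((t : K) * LL e b i + (t : K) * lam (e + b * i))) =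
        gp n e (q ^ b) i 0 * (1 - q ^ (e + b * i)) * (1 + w n * ((t : K) * LL e b (i + 1))) := by
      rw [LL, LL, sum_range_succ]; ring
    rw [e3, e4] at h3
    exact h3

/-- third order expansion of `q^(n s)` -/
theorem qn_zpow3 (t : ℤ) :
    I n 3 (q ^ ((n : ℤ) * t) - (1 - (t : K) * w n + (t : K) * ((t : K) - 1) / 2 * w n ^ 2)) := by
  have hq : q ^ (n : ℤ) = 1 - w n := by rw [zpow_natCast, w]; ring
  have half : ((2 : K))⁻¹ ∈ O n := by
    have := natinv_mem (n := n) 2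
    exact_mod_cast this
  induction t using Int.induction_on with
  | zero => simp [I.zero]
  | succ t ih =>
    have e : q ^ ((n : ℤ) * ((t : ℤ) + 1)) = q ^ ((n : ℤ) * (t : ℤ)) * (1 - w n) := by
      rw [mul_add, mul_one, zpow_add₀ q_ne, hq]
    have h2 : q ^ ((n : ℤ) * ((t : ℤ) + 1)) - (1 - (((t : ℤ) + 1 : ℤ) : K) * w n +
        (((t : ℤ) + 1 : ℤ) : K) * ((((t : ℤ) + 1 : ℤ) : K) - 1) / 2 * w n ^ 2) =
        (q ^ ((n : ℤ) * (t : ℤ)) - (1 - ((t : ℤ) : K) * w n +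
          ((t : ℤ) : K) * (((t : ℤ) : K) - 1) / 2 * w n ^ 2)) * (1 - w n) -
          w n ^ 3 * ((t : K) * ((t : K) - 1) * 2⁻¹) := by
      rw [e]; push_cast; ring
    rw [h2]
    refine (ih.mulR (sub_mem (one_mem _) w_mem)).sub ⟨_, ?_, rfl⟩
    exact mul_mem (mul_mem (natCast_mem _ _) (sub_mem (natCast_mem _ _) (one_mem _))) half
  | pred t ih =>
    have h0 : (1 - w n) ≠ 0 := by rw [← hq]; exact zpow_ne_zero _ q_ne
    have h0' : (1 - w n)⁻¹ ∈ O n := by
      rw [← hq, ← zpow_neg]; exact zpow_mem _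
    have e : q ^ ((n : ℤ) * (-(t : ℤ) - 1)) * (1 - w n) = q ^ ((n : ℤ) * (-(t : ℤ))) := by
      rw [← hq, ← zpow_add₀ q_ne]; congr 1; ring
    apply I.cancel h0 h0'
    have h2 : (1 - w n) * (q ^ ((n : ℤ) * (-(t : ℤ) - 1)) - (1 - ((-(t : ℤ) - 1 : ℤ) : K) * w n +
        ((-(t : ℤ) - 1 : ℤ) : K) * (((-(t : ℤ) - 1 : ℤ) : K) - 1) / 2 * w n ^ 2)) =
        (q ^ ((n : ℤ) * (-(t : ℤ))) - (1 - ((-(t : ℤ) : ℤ) : K) * w n +
          ((-(t : ℤ) : ℤ) : K) * (((-(t : ℤ) : ℤ) : K) - 1) / 2 * w n ^ 2)) +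
          w n ^ 3 * (((t : K) + 1) * ((t : K) + 2) * 2⁻¹) := by
      rw [← e]; push_cast; ring
    rw [h2]
    refine ih.add ⟨_, ?_, rfl⟩
    exact mul_mem (mul_mem (add_mem (natCast_mem _ _) (one_mem _))
      (add_mem (natCast_mem _ _) (by exact_mod_cast natCast_mem (O n) 2))) half

theorem qi_eq2 (s : ℤ) : EQ n 2 (qi n s) ((s : K) * (1 + w n * ((1 - (s : K)) / 2))) := by
  have h := qn_zpow3 (n := n) s
  have half : ((2 : K))⁻¹ ∈ O n := by
    have := natinv_mem (n := n) 2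
    exact_mod_cast this
  have h1 : I n 3 (w n * (qi n s - (s : K) * (1 + w n * ((1 - (s : K)) / 2)))) := by
    have : w n * (qi n s - (s : K) * (1 + w n * ((1 - (s : K)) / 2))) =
        -(q ^ ((n : ℤ) * s) - (1 - (s : K) * w n + (s : K) * ((s : K) - 1) / 2 * w n ^ 2)) := by
      rw [mul_sub, w_qi]; ring
    rw [this]; exact h.neg
  refine ⟨(qi_eq s).1, mul_mem (intCast_mem _ _) (add_mem (one_mem _) (mul_mem w_mem ?_)),
    I_w_mul_iff.1 h1⟩
  rw [div_eq_mul_inv]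
  exact mul_mem (sub_mem (one_mem _) (intCast_mem _ _)) half

section
variable {M r : ℕ}

theorem nd1 (hn : n = 2 * M + 1) (hr : Nat.Coprime n r) :
    ∀ l < M, ¬ (n : ℤ) ∣ (r : ℤ) + ((2 * r : ℕ) : ℤ) * l := by
  intro l hl
  refine not_dvd_aux (l := 2 * l + 1) hr (by omega) (by omega) 0 ?_
  push_cast; ring

theorem nd2 (hn : n = 2 * M + 1) (hr : Nat.Coprime n r) :
    ∀ l < M, ¬ (n : ℤ) ∣ ((2 * r : ℕ) : ℤ) + ((2 * r : ℕ) : ℤ) * l := by
  intro l hl
  refine not_dvd_aux (l := 2 * l + 2) hr (by omega) (by omega) 0 ?_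
  push_cast; ring

/-- the two half sums of logarithmic derivatives add up to `-M` -/
theorem LL_add (hn : n = 2 * M + 1) (hr : Nat.Coprime n r) :
    EQ n 1 (LL (r : ℤ) ((2 * r : ℕ) : ℤ) M + LL ((2 * r : ℕ) : ℤ) ((2 * r : ℕ) : ℤ) M) (-(M : K)) := by
  have hnz : (n : ℤ) = 2 * M + 1 := by rw [hn]; push_cast; ring
  have h1 : LL ((2 * r : ℕ) : ℤ) ((2 * r : ℕ) : ℤ) M =
      ∑ l ∈ range M, lam (((2 * r : ℕ) : ℤ) + ((2 * r : ℕ) : ℤ) * ((M - 1 - l : ℕ) : ℤ)) := by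
    rw [LL]
    exact (sum_range_reflect (fun l : ℕ => lam (((2 * r : ℕ) : ℤ) + ((2 * r : ℕ) : ℤ) * l)) M).symm
  rw [h1, LL, ← sum_add_distrib]
  have h2 : -(M : K) = ∑ l ∈ range M, (-1 : K) := by
    rw [sum_const, card_range, nsmul_eq_mul]; ring
  rw [h2]
  refine EQ.sum fun l hl => ?_
  have hl' := mem_range.1 hl
  have hnd := nd1 hn hr l hl'
  have hnd' : ¬ (n : ℤ) ∣ -((r : ℤ) + ((2 * r : ℕ) : ℤ) * l) := by rwa [dvd_neg]
  have h3 := lam_shift (n := n) hnd' (r : ℤ)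
  have e : -((r : ℤ) + ((2 * r : ℕ) : ℤ) * l) + n * r =
      ((2 * r : ℕ) : ℤ) + ((2 * r : ℕ) : ℤ) * ((M - 1 - l : ℕ) : ℤ) := by
    have : ((M - 1 - l : ℕ) : ℤ) = M - 1 - l := by omega
    rw [this, hnz]; push_cast; ring
  rw [e] at h3
  have h4 := (EQ.refl (n := n) (k := 1) (lam_mem hnd)).add h3
  rwa [lam_neg (by rintro h0; exact hnd (h0 ▸ dvd_zero _))] at h4

/-- first order coefficient of `RR` -/
noncomputable def xr (r M : ℕ) : K :=
  (r : K) * (1 / 2 + (LL ((2 * r : ℕ) : ℤ) ((2 * r : ℕ) : ℤ) M - LL (r : ℤ) ((2 * r : ℕ) : ℤ) M))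

theorem half_mem : (1 / 2 : K) ∈ O n := by
  have := natinv_mem (n := n) 2
  rw [one_div]
  exact_mod_cast this

theorem xr_mem (hn : n = 2 * M + 1) (hr : Nat.Coprime n r) : xr r M ∈ O n :=
  mul_mem (natCast_mem _ _) (add_mem half_mem (sub_mem (LL_mem (nd2 hn hr)) (LL_mem (nd1 hn hr))))

/-- inverse of a first-order expansion -/
theorem exp_inv {x : K} (hx : x ∈ O n) : U n (1 + w n * x) ∧
    EQ n 2 (1 + w n * x)⁻¹ (1 + w n * (-x)) := by
  have hm : 1 + w n * x ∈ O n := add_mem (one_mem _) (mul_mem w_mem hx)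
  have hU : U n (1 + w n * x) := by
    have : EQ n 1 (1 : K) (1 + w n * x) := ⟨one_mem _, hm, by
      have e : 1 - (1 + w n * x) = w n ^ 1 * (-x) := by ring
      rw [e]; exact ⟨-x, neg_mem hx, rfl⟩⟩
    exact this.unit one_pos U.one
  refine ⟨hU, hU.2.2, add_mem (one_mem _) (mul_mem w_mem (neg_mem hx)), ?_⟩
  have h0 := hU.1
  have : (1 + w n * x)⁻¹ - (1 + w n * (-x)) = w n ^ 2 * ((1 + w n * x)⁻¹ * x ^ 2) := by
    field_simp; ring
  rw [this]
  exact ⟨_, mul_mem hU.2.2 (pow_mem hx 2), rfl⟩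

theorem exp_mul' {x y : K} (hx : x ∈ O n) (hy : y ∈ O n) :
    EQ n 2 ((1 + w n * x) * (1 + w n * y)) (1 + w n * (x + y)) := by
  have := exp_mul (n := n) hx hy 1 1 (one_mem _) (one_mem _)
  simpa using this

theorem RR_exp (hn : n = 2 * M + 1) (hr0 : 0 < r) (hr : Nat.Coprime n r) (j : ℕ) :
    EQ n 2 (RR n r j) ((ch j : K) * (1 + w n * ((j : K) * xr r M))) := by
  have hxr := xr_mem hn hr
  induction j with
  | zero =>
    rw [RR_zero, ch_zero]
    simp only [Rat.cast_one, Nat.cast_zero, zero_mul, mul_zero, add_zero, mul_one]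
    exact EQ.refl (one_mem _)
  | succ j ih =>
    rw [RR_succ hn hr0 hr, ch_succ, Rat.cast_mul]
    have hM : M < n := by omega
    have hr' : (r : ℤ) ≠ 0 := by exact_mod_cast hr0.ne'
    have hrK : (r : K) ≠ 0 := by exact_mod_cast hr0.ne'
    set L1 : K := LL (r : ℤ) ((2 * r : ℕ) : ℤ) M with hL1
    set L2 : K := LL ((2 * r : ℕ) : ℤ) ((2 * r : ℕ) : ℤ) M with hL2
    have hL1m : L1 ∈ O n := LL_mem (nd1 hn hr)
    have hL2m : L2 ∈ O n := LL_mem (nd2 hn hr)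
    have u1 := g1_U hn hr le_rfl (r * (2 * j + 1))
    have u2 := g2_U hn hr hM (2 * j * r)
    have v1 := g1_U hn hr le_rfl 0
    have v2 := g2_U hn hr hM 0
    have a1 := gp_exp (n := n) (b := 2 * r) (nd1 hn hr) (2 * j * r)
    have a2 := gp_exp (n := n) (b := 2 * r) (nd2 hn hr) (r * (2 * j + 1))
    have a3 := gp_exp (n := n) (b := 2 * r) (nd2 hn hr) (2 * j * r)
    have a4 := gp_exp (n := n) (b := 2 * r) (nd1 hn hr) (r * (2 * j + 1))
    rw [← hL1] at a1 a4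
    rw [← hL2] at a2 a3
    have b1 := (a1.mul a2).div two_pos (a3.mul a4) (u2.mul u1)
    -- simplify the right side of b1
    have m1 : (((2 * j * r : ℤ)) : K) * L1 ∈ O n := mul_mem (intCast_mem _ _) hL1m
    have m2 : (((r * (2 * j + 1) : ℤ)) : K) * L2 ∈ O n := mul_mem (intCast_mem _ _) hL2m
    have m3 : (((2 * j * r : ℤ)) : K) * L2 ∈ O n := mul_mem (intCast_mem _ _) hL2m
    have m4 : (((r * (2 * j + 1) : ℤ)) : K) * L1 ∈ O n := mul_mem (intCast_mem _ _) hL1m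
    have c1 := exp_mul' m1 m2
    have c2 := exp_mul' m3 m4
    have c3 := exp_inv (n := n) (add_mem m3 m4)
    have c2' := c2.inv two_pos ((exp_inv m3).1.mul (exp_inv m4).1)
    have c4 := (c1.mul (c2'.trans c3.2)).trans (exp_mul' (add_mem m1 m2) (neg_mem (add_mem m3 m4)))
    have e1 : (gp n (r : ℤ) (q ^ (2 * r)) M 0 * (1 + w n * ((((2 * j * r : ℤ)) : K) * L1)) *
        (gp n (((2 * r : ℕ)) : ℤ) (q ^ (2 * r)) M 0 * (1 + w n * ((((r * (2 * j + 1) : ℤ)) : K) * L2)))) /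
        (gp n (((2 * r : ℕ)) : ℤ) (q ^ (2 * r)) M 0 * (1 + w n * ((((2 * j * r : ℤ)) : K) * L2)) *
          (gp n (r : ℤ) (q ^ (2 * r)) M 0 * (1 + w n * ((((r * (2 * j + 1) : ℤ)) : K) * L1)))) =
        (1 + w n * ((((2 * j * r : ℤ)) : K) * L1)) * (1 + w n * ((((r * (2 * j + 1) : ℤ)) : K) * L2)) *
        ((1 + w n * ((((2 * j * r : ℤ)) : K) * L2)) * (1 + w n * ((((r * (2 * j + 1) : ℤ)) : K) * L1)))⁻¹ := by
      have h1 : gp n (r : ℤ) (q ^ (2 * r)) M 0 ≠ 0 := v1.1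
      have h2 : gp n (((2 * r : ℕ)) : ℤ) (q ^ (2 * r)) M 0 ≠ 0 := v2.1
      have h3 := (exp_inv (n := n) m3).1.1
      have h4 := (exp_inv (n := n) m4).1.1
      rw [div_eq_mul_inv, mul_inv, mul_inv, mul_inv, mul_inv]
      field_simp
    rw [e1] at b1
    have b1' := b1.trans c4
    have b2 := (qi_eq2 (n := n) (r * (2 * j + 1))).div two_pos (qi_eq2 (n := n) (r * (2 * j + 2)))
      (qi_U (mul_ne_zero hr' (by positivity)))
    have m5 : (1 - (((r * (2 * j + 1) : ℤ)) : K)) / 2 ∈ O n := by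
      rw [div_eq_mul_one_div]
      exact mul_mem (sub_mem (one_mem _) (intCast_mem _ _)) half_mem
    have m6 : (1 - (((r * (2 * j + 2) : ℤ)) : K)) / 2 ∈ O n := by
      rw [div_eq_mul_one_div]
      exact mul_mem (sub_mem (one_mem _) (intCast_mem _ _)) half_mem
    have c5 := (EQ.refl (n := n) (k := 2) (show 1 + w n * ((1 - (((r * (2 * j + 1) : ℤ)) : K)) / 2) ∈ O n
      from add_mem (one_mem _) (mul_mem w_mem m5))).mul (exp_inv m6).2
    have c6 := c5.trans (exp_mul' m5 (neg_mem m6))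
    have hq2 : (((2 * j + 1) / (2 * j + 2) : ℚ) : K) ∈ O n := rat_mem _
    have c7 := (EQ.refl (n := n) (k := 2) hq2).mul c6
    have e2 : (((r * (2 * j + 1) : ℤ)) : K) * (1 + w n * ((1 - (((r * (2 * j + 1) : ℤ)) : K)) / 2)) /
        ((((r * (2 * j + 2) : ℤ)) : K) * (1 + w n * ((1 - (((r * (2 * j + 2) : ℤ)) : K)) / 2))) =
        (((2 * j + 1) / (2 * j + 2) : ℚ) : K) *
        ((1 + w n * ((1 - (((r * (2 * j + 1) : ℤ)) : K)) / 2)) *
          (1 + w n * ((1 - (((r * (2 * j + 2) : ℤ)) : K)) / 2))⁻¹) := by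
      have h2 : ((2 * j + 2 : K)) ≠ 0 := by
        have : ((2 * j + 2 : ℕ) : K) ≠ 0 := Nat.cast_ne_zero.2 (by omega)
        push_cast at this; exact this
      have h3 := (exp_inv (n := n) m6).1.1
      push_cast at h3 ⊢
      field_simp
    rw [e2] at b2
    have b2' := b2.trans c7
    have hstep := b1'.mul b2'
    have m7 : ((((2 * j * r : ℤ)) : K) * L1 + (((r * (2 * j + 1) : ℤ)) : K) * L2 +
        -((((2 * j * r : ℤ)) : K) * L2 + (((r * (2 * j + 1) : ℤ)) : K) * L1)) ∈ O n :=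
      add_mem (add_mem m1 m2) (neg_mem (add_mem m3 m4))
    have m8 : ((1 - (((r * (2 * j + 1) : ℤ)) : K)) / 2 + -((1 - (((r * (2 * j + 2) : ℤ)) : K)) / 2)) ∈ O n :=
      add_mem m5 (neg_mem m6)
    have c8 := exp_mul' (n := n) m7 m8
    have hjx : (j : K) * xr r M ∈ O n := mul_mem (natCast_mem _ _) hxr
    have hchj : (ch j : K) ∈ O n := rat_mem _
    have c9 := (EQ.refl (n := n) (k := 2) (show (ch j : K) * (((2 * j + 1) / (2 * j + 2) : ℚ) : K) ∈ O n
      from mul_mem hchj hq2)).mul (((EQ.refl (n := n) (k := 2)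
        (show 1 + w n * ((j : K) * xr r M) ∈ O n from add_mem (one_mem _) (mul_mem w_mem hjx))).mul c8).trans
        (exp_mul' hjx (add_mem m7 m8)))
    have hfin := ih.mul hstep
    refine hfin.trans ?_
    have e3 : (ch j : K) * (1 + w n * ((j : K) * xr r M)) *
        ((1 + w n * ((((2 * j * r : ℤ)) : K) * L1 + (((r * (2 * j + 1) : ℤ)) : K) * L2 +
        -((((2 * j * r : ℤ)) : K) * L2 + (((r * (2 * j + 1) : ℤ)) : K) * L1))) *
        ((((2 * j + 1) / (2 * j + 2) : ℚ) : K) *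
        (1 + w n * ((1 - (((r * (2 * j + 1) : ℤ)) : K)) / 2 + -((1 - (((r * (2 * j + 2) : ℤ)) : K)) / 2))))) =
        (ch j : K) * (((2 * j + 1) / (2 * j + 2) : ℚ) : K) * ((1 + w n * ((j : K) * xr r M)) *
        ((1 + w n * ((((2 * j * r : ℤ)) : K) * L1 + (((r * (2 * j + 1) : ℤ)) : K) * L2 +
        -((((2 * j * r : ℤ)) : K) * L2 + (((r * (2 * j + 1) : ℤ)) : K) * L1))) *
        (1 + w n * ((1 - (((r * (2 * j + 1) : ℤ)) : K)) / 2 + -((1 - (((r * (2 * j + 2) : ℤ)) : K)) / 2))))) := by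
      ring
    rw [e3]
    have e4 : (j : K) * xr r M + ((((2 * j * r : ℤ)) : K) * L1 + (((r * (2 * j + 1) : ℤ)) : K) * L2 +
        -((((2 * j * r : ℤ)) : K) * L2 + (((r * (2 * j + 1) : ℤ)) : K) * L1) +
        ((1 - (((r * (2 * j + 1) : ℤ)) : K)) / 2 + -((1 - (((r * (2 * j + 2) : ℤ)) : K)) / 2))) =
        ((j + 1 : ℕ) : K) * xr r M := by
      rw [xr, ← hL1, ← hL2]; push_cast; ring
    rw [e4] at c9
    exact c9

end

end Pool.Agent.R439
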