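import Mathlib
import Pool.Agent.R439.QLam

set_option autoImplicit false

/-!
Functions with divisible higher differences, and a reflection principle modulo `(1-q^n)^3`.
-/

namespace Pool.Agent.R439

open Finset Polynomial

section
variable {n : ℕ} [NeZero n] {A : Type*} [AddCommGroup A]

/-- `k`-fold differences are divisible by `(1-q^n)^k` -/
def An (n : ℕ) [NeZero n] : ℕ → (A → K) → Prop
  | 0, g => ∀ s, g s ∈ O n
  | k + 1, g => (∀ s, g s ∈ O n) ∧
      ∀ h : A, ∃ g' : A → K, An n k g' ∧ ∀ s, g (s + h) - g s = w n * g' s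

theorem An.mem {k : ℕ} {g : A → K} (hg : An n k g) (s : A) : g s ∈ O n := by
  cases k with
  | zero => exact hg s
  | succ k => exact hg.1 s

theorem An.mono {k : ℕ} {g : A → K} (hg : An n (k + 1) g) : An n k g := by
  induction k generalizing g with
  | zero => exact hg.1
  | succ k ih =>
    refine ⟨hg.1, fun h => ?_⟩
    obtain ⟨g', h1, h2⟩ := hg.2 h
    exact ⟨g', ih h1, h2⟩

theorem An.const (k : ℕ) {a : K} (ha : a ∈ O n) : An n k (fun _ : A => a) := by
  induction k generalizing a with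
  | zero => exact fun _ => ha
  | succ k ih =>
    refine ⟨fun _ => ha, fun h => ⟨fun _ => 0, ih (zero_mem _), fun s => by ring⟩⟩

theorem An.shift {k : ℕ} {g : A → K} (hg : An n k g) (a : A) : An n k (fun s => g (s + a)) := by
  induction k generalizing g with
  | zero => exact fun s => hg _
  | succ k ih =>
    refine ⟨fun s => hg.1 _, fun h => ?_⟩
    obtain ⟨g', h1, h2⟩ := hg.2 h
    refine ⟨fun s => g' (s + a), ih h1, fun s => ?_⟩
    have := h2 (s + a)
    rwa [show s + a + h = s + h + a by abel] at this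

theorem An.add {k : ℕ} {f g : A → K} (hf : An n k f) (hg : An n k g) :
    An n k (fun s => f s + g s) := by
  induction k generalizing f g with
  | zero => exact fun s => add_mem (hf s) (hg s)
  | succ k ih =>
    refine ⟨fun s => add_mem (hf.1 s) (hg.1 s), fun h => ?_⟩
    obtain ⟨f', a1, a2⟩ := hf.2 h
    obtain ⟨g', b1, b2⟩ := hg.2 h
    refine ⟨fun s => f' s + g' s, ih a1 b1, fun s => ?_⟩
    linear_combination a2 s + b2 s

theorem An.neg {k : ℕ} {f : A → K} (hf : An n k f) : An n k (fun s => -f s) := by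
  induction k generalizing f with
  | zero => exact fun s => neg_mem (hf s)
  | succ k ih =>
    refine ⟨fun s => neg_mem (hf.1 s), fun h => ?_⟩
    obtain ⟨f', a1, a2⟩ := hf.2 h
    refine ⟨fun s => -f' s, ih a1, fun s => ?_⟩
    linear_combination (-1 : K) * a2 s

theorem An.sub {k : ℕ} {f g : A → K} (hf : An n k f) (hg : An n k g) :
    An n k (fun s => f s - g s) := by
  have := hf.add hg.neg
  simpa only [← sub_eq_add_neg] using this

theorem An.mul {k : ℕ} {f g : A → K} (hf : An n k f) (hg : An n k g) :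
    An n k (fun s => f s * g s) := by
  induction k generalizing f g with
  | zero => exact fun s => mul_mem (hf s) (hg s)
  | succ k ih =>
    refine ⟨fun s => mul_mem (hf.1 s) (hg.1 s), fun h => ?_⟩
    obtain ⟨f', a1, a2⟩ := hf.2 h
    obtain ⟨g', b1, b2⟩ := hg.2 h
    refine ⟨fun s => f (s + h) * g' s + f' s * g s,
      (ih (hf.mono.shift h) b1).add (ih a1 hg.mono), fun s => ?_⟩
    linear_combination f (s + h) * b2 s + g s * a2 s

theorem An.pow {k : ℕ} {f : A → K} (hf : An n k f) (m : ℕ) : An n k (fun s => f s ^ m) := by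
  induction m with
  | zero => simpa using An.const k (one_mem (O n))
  | succ m ih =>
    have := ih.mul hf
    simpa only [← pow_succ] using this

theorem An.sum {ι : Type*} {k : ℕ} {t : Finset ι} {f : ι → A → K} (h : ∀ i ∈ t, An n k (f i)) :
    An n k (fun s => ∑ i ∈ t, f i s) := by
  classical
  induction t using Finset.induction_on with
  | empty => simpa using An.const k (zero_mem (O n))
  | insert a t ha ih =>
    have := (h a (mem_insert_self a t)).add (ih fun i hi => h i (mem_insert_of_mem hi))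
    simpa only [sum_insert ha] using this

theorem An.prod {ι : Type*} {k : ℕ} {t : Finset ι} {f : ι → A → K} (h : ∀ i ∈ t, An n k (f i)) :
    An n k (fun s => ∏ i ∈ t, f i s) := by
  classical
  induction t using Finset.induction_on with
  | empty => simpa using An.const k (one_mem (O n))
  | insert a t ha ih =>
    have := (h a (mem_insert_self a t)).mul (ih fun i hi => h i (mem_insert_of_mem hi))
    simpa only [prod_insert ha] using this

theorem An.inv {k : ℕ} {g : A → K} (hg : An n k g) (hU : ∀ s, U n (g s)) :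
    An n k (fun s => (g s)⁻¹) := by
  induction k with
  | zero => exact fun s => (hU s).2.2
  | succ k ih =>
    refine ⟨fun s => (hU s).2.2, fun h => ?_⟩
    obtain ⟨g', b1, b2⟩ := hg.2 h
    have ih' := ih hg.mono
    refine ⟨fun s => -((g (s + h))⁻¹ * (g s)⁻¹ * g' s), (((ih'.shift h).mul ih').mul b1).neg,
      fun s => ?_⟩
    have h1 := (hU s).1
    have h2 := (hU (s + h)).1
    have h3 := b2 s
    field_simp
    linear_combination (-1 : K) * h3

theorem An.div {k : ℕ} {f g : A → K} (hf : An n k f) (hg : An n k g) (hU : ∀ s, U n (g s)) :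
    An n k (fun s => f s / g s) := by
  have := hf.mul (hg.inv hU)
  simpa only [← div_eq_mul_inv] using this

theorem An.comp {B : Type*} [AddCommGroup B] {k : ℕ} {g : A → K} (hg : An n k g) (l : B →+ A) :
    An n k (fun s => g (l s)) := by
  induction k generalizing g with
  | zero => exact fun s => hg _
  | succ k ih =>
    refine ⟨fun s => hg.1 _, fun h => ?_⟩
    obtain ⟨g', h1, h2⟩ := hg.2 (l h)
    refine ⟨fun s => g' (l s), ih h1, fun s => ?_⟩
    beta_reduce
    rw [map_add]
    exact h2 (l s)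

theorem qi_mem (s : ℤ) : qi n s ∈ O n := (qi_eq s).1

theorem An.qpow (k : ℕ) (e : ℤ) (l : A →+ ℤ) : An n k (fun s => q ^ (e + (n : ℤ) * l s)) := by
  induction k with
  | zero => exact fun s => zpow_mem _
  | succ k ih =>
    refine ⟨fun s => zpow_mem _, fun h => ⟨fun s => -(qi n (l h)) * q ^ (e + (n : ℤ) * l s),
      (An.const k (neg_mem (qi_mem _))).mul ih, fun s => ?_⟩⟩
    have h1 := w_qi (n := n) (l h)
    have h2 : q ^ (e + (n : ℤ) * l (s + h)) = q ^ (e + (n : ℤ) * l s) * q ^ ((n : ℤ) * l h) := by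
      rw [← zpow_add₀ q_ne, map_add]; congr 1; ring
    beta_reduce
    rw [h2]
    linear_combination (q ^ (e + (n : ℤ) * l s)) * h1

theorem gp_an (k : ℕ) {B : K} (hB : B ∈ O n) (e : ℤ) (i : ℕ) :
    An n k (fun t : ℤ => gp n e B i t) := by
  unfold gp poch
  refine An.prod fun l _ => (An.const k (one_mem _)).sub ?_
  have h := An.qpow (n := n) k e (AddMonoidHom.id ℤ)
  exact h.mul (An.const k (pow_mem hB l))

theorem An.sub_I {k : ℕ} {g : A → K} (hg : An n (k + 1) g) (s t : A) : I n 1 (g s - g t) := by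
  obtain ⟨g', h1, h2⟩ := hg.2 (s - t)
  have := h2 t
  rw [add_sub_cancel] at this
  rw [this]
  exact ⟨g' t, h1.mem t, by ring⟩

theorem An.third {g : ℤ → K} (hg : An n 3 g) (s : ℤ) :
    I n 3 (g (s + 3) - 3 * g (s + 2) + 3 * g (s + 1) - g s) := by
  obtain ⟨g1, a1, b1⟩ := hg.2 1
  obtain ⟨g2, a2, b2⟩ := a1.2 1
  obtain ⟨g3, a3, b3⟩ := a2.2 1
  refine ⟨g3 s, a3.mem s, ?_⟩
  have e1 := b1 (s + 2)
  have e2 := b1 (s + 1)
  have e3 := b1 s
  have e4 := b2 (s + 1)
  have e5 := b2 s
  have e6 := b3 s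
  rw [show s + 2 + 1 = s + 3 by ring] at e1
  rw [show s + 1 + 1 = s + 2 by ring] at e2 e4
  linear_combination e1 - 2 * e2 + e3 + w n * e4 - w n * e5 + w n ^ 2 * e6

end

section
variable {n : ℕ} [NeZero n]

theorem U_two : U n (2 : K) := by
  have := U_rat (n := n) (c := 2) (by norm_num)
  simpa using this

theorem half_I {k : ℕ} {x : K} (h : I n k (2 * x)) : I n k x :=
  h.cancel (U_two (n := n)).1 (U_two (n := n)).2.2

theorem I.mul12 {x y : K} (hx : I n 2 x) (hy : I n 1 y) : I n 3 (x * y) := hx.mul hy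

/-- reflection principle -/
theorem refl_main {g C : ℤ → K} {c : K} (hg : An n 3 g) (hc : c ∈ O n)
    (hC : ∀ s : ℤ, EQ n 2 (C s) (-(1 + w n * (c * (2 * (s : K) + 1)))))
    (hr : ∀ s, g s = C s * g (-1 - s)) (s : ℤ) :
    I n 3 (g s - (2 * (s : K) + 1) * (1 + w n * (c * (s : K))) * g 0) := by
  have hg1 : ∀ s, I n 1 (g s) := by
    intro s
    apply half_I
    have h1 := hg.sub_I s (-1 - s)
    have h2 : I n 1 (C s + 1) := by
      have h3 := (hC s).2.2.mono (show 1 ≤ 2 by omega)
      have h4 : I n 1 (-(w n * (c * (2 * (s : K) + 1)))) := by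
        refine ⟨-(c * (2 * (s : K) + 1)), neg_mem (mul_mem hc (add_mem (mul_mem ?_ (intCast_mem _ _))
          (one_mem _))), by ring⟩
        exact_mod_cast natCast_mem (O n) 2
      have h5 := h3.add h4
      have e : C s - -(1 + w n * (c * (2 * (s : K) + 1))) + -(w n * (c * (2 * (s : K) + 1))) =
        C s + 1 := by ring
      rwa [e] at h5
    have h3 := h2.mulR (hg.mem (-1 - s))
    have e : 2 * g s = (g s - g (-1 - s)) + (C s + 1) * g (-1 - s) := by
      linear_combination hr s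
    rw [e]
    exact h1.add h3
  set D : ℤ → K := fun s => g s - (2 * (s : K) + 1) * (1 + w n * (c * (s : K))) * g 0 with hD
  have h3 : ∀ s, I n 3 (D (s + 3) - 3 * D (s + 2) + 3 * D (s + 1) - D s) := by
    intro s
    have h := hg.third s
    have e : D (s + 3) - 3 * D (s + 2) + 3 * D (s + 1) - D s =
        g (s + 3) - 3 * g (s + 2) + 3 * g (s + 1) - g s := by
      simp only [hD]; push_cast; ring
    rwa [e]
  have d0 : D 0 = 0 := by simp only [hD]; push_cast; ring
  have dm1 : I n 3 (D (-1)) := by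
    obtain ⟨y, hy, ey⟩ := (hC 0).2.2
    have e0 := hr 0
    have e : D (-1) = (1 - w n * c) * (w n ^ 2 * y) * g (-1) + w n ^ 2 * c ^ 2 * g (-1) := by
      simp only [hD]
      rw [show (-1 : ℤ) - 0 = -1 by ring] at e0
      push_cast at ey ⊢
      linear_combination (1 - w n * c) * e0 + (1 - w n * c) * g (-1) * ey
    rw [e]
    refine I.add ?_ ?_
    · have : I n 2 ((1 - w n * c) * (w n ^ 2 * y)) :=
        ⟨(1 - w n * c) * y, mul_mem (sub_mem (one_mem _) (mul_mem w_mem hc)) hy, by ring⟩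
      exact this.mul12 (hg1 _)
    · have : I n 2 (w n ^ 2 * c ^ 2) := ⟨c ^ 2, pow_mem hc 2, rfl⟩
      exact this.mul12 (hg1 _)
  have d1 : I n 3 (D 1) := by
    obtain ⟨y, hy, ey⟩ := (hC 1).2.2
    have e1 := hr 1
    rw [show (-1 : ℤ) - 1 = -2 by ring] at e1
    -- D 1 - C 1 * D (-2)
    have a1 : I n 3 (D 1 - C 1 * D (-2)) := by
      have e : D 1 - C 1 * D (-2) =
          (w n ^ 2 * (-3 * y * (1 - 2 * (w n * c)) - 18 * c ^ 2)) * g 0 := by
        simp only [hD]
        push_cast at ey ⊢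
        linear_combination e1 - 3 * g 0 * (1 - 2 * (w n * c)) * ey
      rw [e]
      have m3 : (3 : K) ∈ O n := by exact_mod_cast natCast_mem (O n) 3
      have m2 : (2 : K) ∈ O n := by exact_mod_cast natCast_mem (O n) 2
      have m18 : (18 : K) ∈ O n := by exact_mod_cast natCast_mem (O n) 18
      have : I n 2 (w n ^ 2 * (-3 * y * (1 - 2 * (w n * c)) - 18 * c ^ 2)) :=
        ⟨_, sub_mem (mul_mem (mul_mem (neg_mem m3) hy) (sub_mem (one_mem _)
          (mul_mem m2 (mul_mem w_mem hc)))) (mul_mem m18 (pow_mem hc 2)), rfl⟩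
      exact this.mul12 (hg1 _)
    have a2 : I n 3 (D 1 - D (-2)) := by
      have h := h3 (-2)
      norm_num at h
      rw [d0] at h
      have h' := h.sub (dm1.mulL (show (3 : K) ∈ O n by exact_mod_cast natCast_mem (O n) 3))
      have e : D 1 - 3 * 0 + 3 * D (-1) - D (-2) - 3 * D (-1) = D 1 - D (-2) := by ring
      rwa [e] at h'
    have a3 : I n 3 ((1 - C 1) * D 1) := by
      have e : (1 - C 1) * D 1 = (D 1 - C 1 * D (-2)) - C 1 * (D 1 - D (-2)) := by ring
      rw [e]
      exact a1.sub (a2.mulL (hC 1).1)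
    have hU : U n (1 - C 1) := by
      have h1 : EQ n 1 (2 : K) (1 - C 1) := by
        have m2 : (2 : K) ∈ O n := by exact_mod_cast natCast_mem (O n) 2
        refine ⟨m2, sub_mem (one_mem _) (hC 1).1, ?_⟩
        have e : 2 - (1 - C 1) = w n ^ 1 * (w n * y - c * 3) := by
          push_cast at ey
          linear_combination ey
        rw [e]
        have m3 : (3 : K) ∈ O n := by exact_mod_cast natCast_mem (O n) 3
        exact ⟨_, sub_mem (mul_mem w_mem hy) (mul_mem hc m3), rfl⟩
      exact h1.unit one_pos U_two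
    exact a3.cancel hU.1 hU.2.2
  have m3 : (3 : K) ∈ O n := by exact_mod_cast natCast_mem (O n) 3
  have up : ∀ m : ℕ, I n 3 (D ((m : ℤ) - 1)) ∧ I n 3 (D (m : ℤ)) ∧ I n 3 (D ((m : ℤ) + 1)) := by
    intro m
    induction m with
    | zero =>
      refine ⟨by simpa using dm1, by rw [Nat.cast_zero, d0]; exact I.zero, by simpa using d1⟩
    | succ m ih =>
      obtain ⟨i1, i2, i3⟩ := ih
      refine ⟨by push_cast; rwa [add_sub_cancel_right], by push_cast; exact i3, ?_⟩
      have h := h3 ((m : ℤ) - 1)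
      rw [show (m : ℤ) - 1 + 3 = m + 2 by ring, show (m : ℤ) - 1 + 2 = m + 1 by ring,
        show (m : ℤ) - 1 + 1 = m by ring] at h
      have h' := ((h.add (i3.mulL m3)).sub (i2.mulL m3)).add i1
      have e : D ((m : ℤ) + 2) - 3 * D (m + 1) + 3 * D m - D (m - 1) + 3 * D (m + 1) - 3 * D m +
        D (m - 1) = D ((m : ℤ) + 2) := by ring
      rw [e] at h'
      push_cast
      rwa [show (m : ℤ) + 1 + 1 = m + 2 by ring]
  have down : ∀ m : ℕ, I n 3 (D (-(m : ℤ) + 1)) ∧ I n 3 (D (-(m : ℤ))) ∧ I n 3 (D (-(m : ℤ) - 1)) := by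
    intro m
    induction m with
    | zero =>
      refine ⟨by simpa using d1, by rw [Nat.cast_zero, neg_zero, d0]; exact I.zero, by simpa using dm1⟩
    | succ m ih =>
      obtain ⟨i1, i2, i3⟩ := ih
      have x1 : (-((m + 1 : ℕ) : ℤ) + 1) = -(m : ℤ) := by push_cast; ring
      have x2 : (-((m + 1 : ℕ) : ℤ)) = -(m : ℤ) - 1 := by push_cast; ring
      have x3 : (-((m + 1 : ℕ) : ℤ) - 1) = -(m : ℤ) - 2 := by push_cast; ring
      refine ⟨by rwa [x1], by rwa [x2], ?_⟩
      rw [x3]
      have h := h3 (-(m : ℤ) - 2)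
      rw [show -(m : ℤ) - 2 + 3 = -m + 1 by ring, show -(m : ℤ) - 2 + 2 = -m by ring,
        show -(m : ℤ) - 2 + 1 = -m - 1 by ring] at h
      have h' := ((i1.sub (i2.mulL m3)).add (i3.mulL m3)).sub h
      have e : D (-(m : ℤ) + 1) - 3 * D (-m) + 3 * D (-m - 1) -
        (D (-(m : ℤ) + 1) - 3 * D (-m) + 3 * D (-m - 1) - D (-m - 2)) = D (-(m : ℤ) - 2) := by ring
      rwa [e] at h'
  rcases Int.le_total 0 s with hs | hs
  · obtain ⟨m, rfl⟩ := Int.eq_ofNat_of_zero_le hs
    exact (up m).2.1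
  · obtain ⟨m, hm⟩ := Int.eq_ofNat_of_zero_le (neg_nonneg.2 hs)
    have : s = -(m : ℤ) := by omega
    rw [this]
    exact (down m).2.1

/-- an even parameter does not matter modulo `(1-q^n)^3` -/
theorem even_param {T C : ℤ × ℤ → K} (hT : An n 3 T) (hev : ∀ s r, T (s, -r) = T (s, r))
    (hr : ∀ s r, T (s, r) = C (s, r) * T (-1 - s, r)) (hC1 : I n 1 (C (0, 0) + 1))
    (hC2 : I n 1 (C (0, 1) + 1)) (hC0 : C (0, 0) ∈ O n)
    (hC3 : I n 2 (C (0, 1) - C (0, 0))) : I n 3 (T (0, 1) - T (0, 0)) := by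
  obtain ⟨g1, a1, b1⟩ := hT.2 (0, 1)
  obtain ⟨g2, a2, b2⟩ := a1.2 (0, 1)
  obtain ⟨g3, a3, b3⟩ := a2.2 (1, 0)
  have key : ∀ s, 2 * (T (s, 1) - T (s, 0)) = w n ^ 2 * g2 (s, -1) := by
    intro s
    have e1 := b1 (s, 0)
    have e2 := b1 (s, -1)
    have e3 := b2 (s, -1)
    have e4 := hev s 1
    simp only [Prod.mk_add_mk, add_zero, zero_add, neg_add_cancel] at e1 e2 e3
    linear_combination e1 - e2 + w n * e3 + (-1 : K) * e4
  have k0 := key 0
  have k1 := key (-1)
  have e3 := b3 (-1, -1)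
  simp only [Prod.mk_add_mk, add_zero, neg_add_cancel] at e3
  have hd1 : I n 2 (T (-1, 1) - T (-1, 0)) := by
    apply half_I
    rw [k1]
    exact ⟨_, a2.mem _, rfl⟩
  have hd01 : I n 3 ((T (0, 1) - T (0, 0)) - (T (-1, 1) - T (-1, 0))) := by
    apply half_I
    refine ⟨g3 (-1, -1), a3.mem _, ?_⟩
    linear_combination k0 - k1 + w n ^ 2 * e3
  have r1 := hr 0 1
  have r0 := hr 0 0
  rw [sub_zero] at r1 r0
  have hT1 : I n 1 (T (-1, 1)) := by
    apply half_I
    have h1 := hT.sub_I (-1, 1) (0, 1)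
    have h2 := hC2.mulR (hT.mem (-1, 1))
    have e : 2 * T (-1, 1) = (T (-1, 1) - T (0, 1)) + (C (0, 1) + 1) * T (-1, 1) := by
      linear_combination r1
    rw [e]; exact h1.add h2
  apply half_I
  have h1 := hC3.mul12 hT1
  have h2 : I n 3 ((T (-1, 1) - T (-1, 0)) * (C (0, 0) + 1)) := hd1.mul12 hC1
  have e : 2 * (T (0, 1) - T (0, 0)) = ((T (0, 1) - T (0, 0)) - (T (-1, 1) - T (-1, 0))) +
      (C (0, 1) - C (0, 0)) * T (-1, 1) + (T (-1, 1) - T (-1, 0)) * (C (0, 0) + 1) := by
    linear_combination r1 - r0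
  rw [e]
  exact (hd01.add h1).add h2

end

end Pool.Agent.R439
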