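import Mathlib
import Pool.Agent.R439.F40A
import Pool.Agent.R439.F40B

set_option autoImplicit false

/-!
The truncated very-well-poised block sum: reflection and value modulo `(1-q^n)^3`.
-/

namespace Pool.Agent.R439

open Finset Polynomial

section
variable {n M : ℕ} [NeZero n]

/-- ratio of the shifted factorials -/
noncomputable def rr (n r i : ℕ) (t : ℤ) : K := g1 n r i t / g2 n r i t

theorem g1_s (r i : ℕ) (t : ℤ) : g1 n r (i + 1) t = g1 n r i t * (1 - q ^ ((r : ℤ) + 2 * r * i + n * t)) := by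
  rw [g1, g1, gp, gp, poch_succ, gfac]

theorem g2_s (r i : ℕ) (t : ℤ) : g2 n r (i + 1) t =
    g2 n r i t * (1 - q ^ (((2 * r : ℕ) : ℤ) + 2 * r * i + n * t)) := by
  rw [g2, g2, gp, gp, poch_succ, gfac]

theorem rr_s (r i : ℕ) (t : ℤ) : rr n r (i + 1) t = rr n r i t *
    ((1 - q ^ ((r : ℤ) + 2 * r * i + n * t)) / (1 - q ^ (((2 * r : ℕ) : ℤ) + 2 * r * i + n * t))) := by
  rw [rr, rr, g1_s, g2_s, mul_div_mul_comm]

theorem rr_U (hn : n = 2 * M + 1) {r : ℕ} (hr : Nat.Coprime n r) {i : ℕ} (hi : i ≤ M) (t : ℤ) :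
    U n (rr n r i t) := (g1_U hn hr hi t).div (g2_U hn hr (by omega) t)

theorem rr_an (hn : n = 2 * M + 1) {r : ℕ} (hr : Nat.Coprime n r) {i : ℕ} (hi : i ≤ M) (k : ℕ) :
    An n k (fun t : ℤ => rr n r i t) := by
  have hB : (q ^ (2 * r) : K) ∈ O n := pow_mem' _
  exact (gp_an k hB _ i).div (gp_an k hB _ i) (fun t => g2_U hn hr (by omega) t)

theorem flip_ratio {x y : ℤ} (hy : y ≠ 0) (r : ℕ) (h : y = x + r) :
    (1 - q ^ (-x)) / (1 - q ^ (-y)) = q ^ r * ((1 - q ^ x) / (1 - q ^ y)) := by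
  have h1 := one_sub_zpow_ne hy
  have h2 := one_sub_zpow_ne (neg_ne_zero.2 hy)
  rw [mul_div_assoc', div_eq_div_iff h2 h1]
  have e1 : q ^ (-x) * q ^ x = 1 := by rw [← zpow_add₀ q_ne]; simp
  have e2 : q ^ (-y) * q ^ y = 1 := by rw [← zpow_add₀ q_ne]; simp
  have e3 : q ^ (-x) = q ^ r * q ^ (-y) := by
    rw [← zpow_natCast q r, ← zpow_add₀ q_ne]; congr 1; omega
  have e4 : q ^ y = q ^ r * q ^ x := by
    rw [← zpow_natCast q r, ← zpow_add₀ q_ne]; congr 1; omega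
  rw [e3, e4]
  rw [e4] at e2
  linear_combination (q ^ r - 1) * e2

theorem rr_refl (hn : n = 2 * M + 1) {r : ℕ} (hr : Nat.Coprime n r) (t : ℤ) {i : ℕ} (hi : i ≤ M) :
    rr n r (M - i) t = rr n r M t * q ^ (r * i) * rr n r i (-t - r) := by
  induction i with
  | zero => simp [rr, g1, g2, gp, poch]
  | succ i ih =>
    have ih' := ih (by omega)
    have hs := rr_s (n := n) r (M - (i + 1)) t
    rw [show M - (i + 1) + 1 = M - i by omega, ih'] at hs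
    have hs2 := rr_s (n := n) r i (-t - r)
    have hnz : (n : ℤ) = 2 * M + 1 := by rw [hn]; push_cast; ring
    have hMi : ((M - (i + 1) : ℕ) : ℤ) = M - i - 1 := by omega
    set x : ℤ := (r : ℤ) + 2 * r * i + n * (-t - r) with hx
    set y : ℤ := ((2 * r : ℕ) : ℤ) + 2 * r * i + n * (-t - r) with hy
    have e1 : (r : ℤ) + 2 * r * ((M - (i + 1) : ℕ) : ℤ) + n * t = -y := by
      rw [hy, hMi, hnz]; push_cast; ring
    have e2 : ((2 * r : ℕ) : ℤ) + 2 * r * ((M - (i + 1) : ℕ) : ℤ) + n * t = -x := by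
      rw [hx, hMi, hnz]; push_cast; ring
    rw [e1, e2] at hs
    have nx : ¬ (n : ℤ) ∣ x := by
      refine not_dvd_aux (l := 2 * i + 1) hr (by omega) (by omega) (-t - r) ?_
      rw [hx]; push_cast; ring
    have ny : ¬ (n : ℤ) ∣ y := by
      refine not_dvd_aux (l := 2 * i + 2) hr (by omega) (by omega) (-t - r) ?_
      rw [hy]; push_cast; ring
    have hx0 : x ≠ 0 := by rintro h; exact nx (h ▸ dvd_zero _)
    have hy0 : y ≠ 0 := by rintro h; exact ny (h ▸ dvd_zero _)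
    have hf := flip_ratio (x := x) hy0 r (by rw [hx, hy]; push_cast; ring)
    have n1 := one_sub_zpow_ne hx0
    have n2 := one_sub_zpow_ne hy0
    have n3 := one_sub_zpow_ne (neg_ne_zero.2 hx0)
    have n4 := one_sub_zpow_ne (neg_ne_zero.2 hy0)
    rw [hs2]
    have hq : (q : K) ^ (r * (i + 1)) = q ^ (r * i) * q ^ r := by rw [mul_add, mul_one, pow_add]
    rw [hq]
    have h3 : rr n r (M - (i + 1)) t = rr n r M t * q ^ (r * i) * rr n r i (-t - r) *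
        ((1 - q ^ (-x)) / (1 - q ^ (-y))) := by
      rw [hs]
      field_simp
    rw [h3, hf]
    ring

/-- term of the block sum with shift `s` and parameter `r` -/
noncomputable def tt (n i : ℕ) (x : ℤ × ℤ) : K :=
  (-1) ^ i * (1 - q ^ (((4 * i + 1 : ℕ) : ℤ) + (n : ℤ) * (2 * x.1))) * q ^ i *
    (rr n 1 i (x.1 + x.2) * rr n 1 i (x.1 - x.2) * rr n 1 i x.1 ^ 2 * rr n 2 i (2 * x.1))

/-- truncated block sum -/
noncomputable def TT (n M : ℕ) (x : ℤ × ℤ) : K := ∑ i ∈ range (M + 1), tt n i x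

/-- reflection factor -/
noncomputable def CC (n M : ℕ) (x : ℤ × ℤ) : K :=
  (-1) ^ (M + 1) * q ^ ((M : ℤ) - 1 + (n : ℤ) * (2 * (1 + x.1))) *
    (rr n 1 M (x.1 + x.2) * rr n 1 M (x.1 - x.2) * rr n 1 M x.1 ^ 2 * rr n 2 M (2 * x.1))

theorem cop1 (n : ℕ) : Nat.Coprime n 1 := Nat.coprime_one_right n

theorem cop2 (hn : n = 2 * M + 1) : Nat.Coprime n 2 := by
  rw [Nat.coprime_two_right]; exact ⟨M, by omega⟩

theorem tt_refl (hn : n = 2 * M + 1) (s r : ℤ) {i : ℕ} (hi : i ≤ M) :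
    tt n (M - i) (s, r) = CC n M (s, r) * tt n i (-1 - s, r) := by
  have h1 := rr_refl hn (cop1 n) (s + r) hi
  have h2 := rr_refl hn (cop1 n) (s - r) hi
  have h3 := rr_refl hn (cop1 n) s hi
  have h4 := rr_refl hn (cop2 hn) (2 * s) hi
  have hMi : ((M - i : ℕ) : ℤ) = M - i := by omega
  have hnz : (n : ℤ) = 2 * M + 1 := by rw [hn]; push_cast; ring
  simp only [tt, CC]
  rw [h1, h2, h3, h4]
  rw [show -(s + r) - ((1 : ℕ) : ℤ) = -1 - s - r by push_cast; ring,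
    show -(s - r) - ((1 : ℕ) : ℤ) = -1 - s + r by push_cast; ring,
    show -s - ((1 : ℕ) : ℤ) = -1 - s by push_cast; ring,
    show -(2 * s) - ((2 : ℕ) : ℤ) = 2 * (-1 - s) by push_cast; ring]
  set y : ℤ := ((4 * i + 1 : ℕ) : ℤ) + (n : ℤ) * (2 * (-1 - s)) with hy
  have e1 : ((4 * (M - i) + 1 : ℕ) : ℤ) + (n : ℤ) * (2 * s) = -y := by
    have : ((4 * (M - i) + 1 : ℕ) : ℤ) = 4 * (M - i) + 1 := by push_cast; rw [hMi]
    rw [this, hy, hnz]; push_cast; ring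
  rw [e1]
  have e2 : (1 - q ^ (-y) : K) = -(q ^ (-y)) * (1 - q ^ y) := by
    have : q ^ (-y) * q ^ y = 1 := by rw [← zpow_add₀ q_ne]; simp
    linear_combination -this
  have e3 : ((-1 : K)) ^ (M - i) = (-1) ^ M * (-1) ^ i := by
    rw [← pow_add, show M + i = (M - i) + 2 * i by omega, pow_add, pow_mul]; simp
  have e4 : (q : K) ^ (M - i) * q ^ (-y) * (q ^ (1 * i)) ^ 4 * q ^ (2 * i) =
      q ^ ((M : ℤ) - 1 + (n : ℤ) * (2 * (1 + s))) * q ^ i := by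
    rw [← pow_mul, ← zpow_natCast q (M - i), ← zpow_natCast q (1 * i * 4), ← zpow_natCast q (2 * i),
      ← zpow_natCast q i, ← zpow_add₀ q_ne, ← zpow_add₀ q_ne, ← zpow_add₀ q_ne, ← zpow_add₀ q_ne]
    congr 1
    rw [hMi, hy]; push_cast; ring
  rw [e2, e3]
  generalize rr n 1 M (s + r) = R1
  generalize rr n 1 M (s - r) = R2
  generalize rr n 1 M s = R3
  generalize rr n 2 M (2 * s) = R4
  generalize rr n 1 i (-1 - s - r) = R5
  generalize rr n 1 i (-1 - s + r) = R6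
  generalize rr n 1 i (-1 - s) = R7
  generalize rr n 2 i (2 * (-1 - s)) = R8
  linear_combination (-((-1 : K) ^ M * (-1) ^ i * (1 - q ^ y) * R1 * R2 * R3 ^ 2 * R4 * R5 * R6 * R7 ^ 2 *
    R8)) * e4

theorem TT_refl (hn : n = 2 * M + 1) (s r : ℤ) :
    TT n M (s, r) = CC n M (s, r) * TT n M (-1 - s, r) := by
  rw [TT, TT, mul_sum, ← sum_range_reflect]
  refine sum_congr rfl fun i hi => ?_
  rw [show M + 1 - 1 - i = M - i by omega]
  exact tt_refl hn s r (by have := mem_range.1 hi; omega)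

theorem TT_even (s r : ℤ) : TT n M (s, -r) = TT n M (s, r) := by
  rw [TT, TT]
  refine sum_congr rfl fun i _ => ?_
  simp only [tt]
  rw [show s + -r = s - r by ring, show s - -r = s + r by ring]
  ring

theorem tt_an (hn : n = 2 * M + 1) {i : ℕ} (hi : i ≤ M) (k : ℕ) : An n k (fun x : ℤ × ℤ => tt n i x) := by
  have h1 := (rr_an hn (cop1 n) hi k).comp (B := ℤ × ℤ) ((AddMonoidHom.fst ℤ ℤ) + (AddMonoidHom.snd ℤ ℤ))
  have h2 := (rr_an hn (cop1 n) hi k).comp (B := ℤ × ℤ) ((AddMonoidHom.fst ℤ ℤ) - (AddMonoidHom.snd ℤ ℤ))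
  have h3 := (rr_an hn (cop1 n) hi k).comp (B := ℤ × ℤ) (AddMonoidHom.fst ℤ ℤ)
  have h4 := (rr_an hn (cop2 hn) hi k).comp (B := ℤ × ℤ)
    ((AddMonoidHom.mulLeft (2 : ℤ)).comp (AddMonoidHom.fst ℤ ℤ))
  have h5 := An.qpow (n := n) k ((4 * i + 1 : ℕ) : ℤ)
    ((AddMonoidHom.mulLeft (2 : ℤ)).comp (AddMonoidHom.fst ℤ ℤ))
  have h6 := (((An.const k (pow_mem (neg_mem (one_mem (O n))) i)).mul
    ((An.const k (one_mem (O n))).sub h5)).mul (An.const k (pow_mem' i))).mul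
    (((h1.mul h2).mul (h3.pow 2)).mul h4)
  exact h6

theorem TT_an (hn : n = 2 * M + 1) (k : ℕ) : An n k (fun x : ℤ × ℤ => TT n M x) :=
  An.sum fun _ hi => tt_an hn (by have := mem_range.1 hi; omega) k

/-- exact value at `(0, 1)` -/
theorem TT_val {t : ℕ} (hn : n = 4 * t + 1) :
    TT n (2 * t) (0, 1) = w n * (poch (q ^ 2 : K) ((q ^ 2) ^ 2) t / poch ((q ^ 2 : K) ^ 2) ((q ^ 2) ^ 2) t) ^ 2 := by
  have hd : ∀ a b : ℕ, a ≠ b → (q : K) ^ a ≠ q ^ b := by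
    intro a b hab h
    have h1 : q ^ ((a : ℤ) - b) = 1 := by
      rw [zpow_sub₀ q_ne, zpow_natCast, zpow_natCast, h, div_self (pow_ne_zero _ q_ne)]
    exact q_zpow_ne_one (by omega) h1
  have h := sum40 (v := (q : K)) q_ne hd t (2 * t + 1) (by omega)
  rw [TT, show w n = 1 - q ^ (4 * t + 1) by rw [w, hn], ← h]
  refine sum_congr rfl fun i _ => ?_
  simp only [tt, TV, HV, tc, rr, g1, g2, gp]
  have hnz : (n : ℤ) = 4 * t + 1 := by rw [hn]; push_cast; ring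
  have p1 : ((q : K) ^ 2) ^ (-((2 * t : ℕ) : ℤ)) = q ^ (((1 : ℕ) : ℤ) + (n : ℤ) * (0 - 1)) := by
    rw [← zpow_natCast q 2, ← zpow_mul]; congr 1; rw [hnz]; push_cast; ring
  have p2 : ((q : K) ^ 2) ^ (2 * t) * q ^ 2 = q ^ (((1 : ℕ) : ℤ) + (n : ℤ) * (0 + 1)) := by
    rw [← pow_mul, ← pow_add, ← zpow_natCast]; congr 1; rw [hnz]; push_cast; ring
  have p3 : (q : K) / (q ^ 2) ^ (2 * t) = q ^ (((2 * 1 : ℕ) : ℤ) + (n : ℤ) * (0 - 1)) := by
    rw [← pow_mul, div_eq_mul_inv, ← zpow_natCast, ← zpow_neg, ← zpow_one_add₀ q_ne]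
    congr 1; rw [hnz]; push_cast; ring
  have p4 : ((q : K) ^ 2) ^ (2 * t) * q ^ 2 * q = q ^ (((2 * 1 : ℕ) : ℤ) + (n : ℤ) * (0 + 1)) := by
    rw [← pow_mul, ← pow_add, ← pow_succ, ← zpow_natCast]; congr 1; rw [hnz]; push_cast; ring
  have p5 : (q : K) ^ (((1 : ℕ) : ℤ) + (n : ℤ) * 0) = q := by simp
  have p6 : (q : K) ^ (((2 * 1 : ℕ) : ℤ) + (n : ℤ) * 0) = q ^ 2 := by
    rw [mul_zero, add_zero, zpow_natCast]
  have p7 : (q : K) ^ (((2 : ℕ) : ℤ) + (n : ℤ) * (2 * 0)) = q ^ 2 := by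
    rw [mul_zero, mul_zero, add_zero, zpow_natCast]
  have p8 : (q : K) ^ (((2 * 2 : ℕ) : ℤ) + (n : ℤ) * (2 * 0)) = (q ^ 2) ^ 2 := by
    rw [mul_zero, mul_zero, add_zero, zpow_natCast, ← pow_mul]
  have p9 : (q : K) ^ (((4 * i + 1 : ℕ) : ℤ) + (n : ℤ) * (2 * 0)) = q * ((q ^ 2) ^ i) ^ 2 := by
    rw [mul_zero, mul_zero, add_zero, zpow_natCast, ← pow_mul, ← pow_mul, ← pow_succ']
    congr 1; ring
  have p10 : (q : K) ^ (2 * 1) = q ^ 2 := by rw [mul_one]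
  have p11 : (q : K) ^ (2 * 2) = (q ^ 2) ^ 2 := by rw [← pow_mul]
  rw [p1, p4, p2, p3, p5, p6, p7, p8, p9, p10, p11]
  rw [show (-q : K) ^ i = (-1) ^ i * q ^ i by rw [neg_pow]]
  generalize poch (q ^ (((1 : ℕ) : ℤ) + (n : ℤ) * (0 - 1))) (q ^ 2) i = Z1
  generalize poch (q ^ (((1 : ℕ) : ℤ) + (n : ℤ) * (0 + 1))) (q ^ 2) i = Z2
  generalize poch (q ^ (((2 * 1 : ℕ) : ℤ) + (n : ℤ) * (0 - 1))) (q ^ 2) i = Z3
  generalize poch (q ^ (((2 * 1 : ℕ) : ℤ) + (n : ℤ) * (0 + 1))) (q ^ 2) i = Z4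
  generalize poch q (q ^ 2) i = Z5
  generalize poch (q ^ 2) (q ^ 2) i = Z6
  generalize poch (q ^ 2) ((q ^ 2) ^ 2) i = Z7
  generalize poch ((q ^ 2) ^ 2) ((q ^ 2) ^ 2) i = Z8
  generalize 1 - q * ((q ^ 2) ^ i) ^ 2 = Z9
  rw [div_pow]
  generalize (-1 : K) ^ i = Z10
  generalize (q : K) ^ i = Z11
  rw [div_mul_div_comm, div_mul_div_comm, div_mul_div_comm, mul_div_assoc', div_mul_eq_mul_div,
    div_mul_div_comm]
  congr 1 <;> ring

end

end Pool.Agent.R439
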