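import Mathlib
import Pool.Agent.R439.F40C

set_option autoImplicit false

/-!
The block sums modulo `(1-q^n)^3`.
-/

namespace Pool.Agent.R439

open Finset Polynomial

section
variable {n M : ℕ} [NeZero n]

/-- first-order expansion -/
def Ex (n : ℕ) [NeZero n] (x c a : K) : Prop := c ∈ O n ∧ a ∈ O n ∧ EQ n 2 x (c * (1 + w n * a))

theorem Ex.mul {x c a y d b : K} (h : Ex n x c a) (h' : Ex n y d b) :
    Ex n (x * y) (c * d) (a + b) := by
  refine ⟨mul_mem h.1 h'.1, add_mem h.2.1 h'.2.1, (h.2.2.mul h'.2.2).trans ?_⟩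
  have h1 := exp_mul' (n := n) h.2.1 h'.2.1
  have h2 := (EQ.refl (n := n) (k := 2) (mul_mem h.1 h'.1)).mul h1
  rwa [show c * d * ((1 + w n * a) * (1 + w n * b)) = c * (1 + w n * a) * (d * (1 + w n * b)) by ring]
    at h2

theorem Ex.div {x c a y d b : K} (h : Ex n x c a) (h' : Ex n y d b) (hy : U n y) (hd : U n d) :
    Ex n (x / y) (c / d) (a - b) := by
  have hcd : c / d ∈ O n := by rw [div_eq_mul_inv]; exact mul_mem h.1 hd.2.2
  refine ⟨hcd, sub_mem h.2.1 h'.2.1, (h.2.2.div two_pos h'.2.2 hy).trans ?_⟩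
  have h1 := exp_inv (n := n) h'.2.1
  have hm : 1 + w n * a ∈ O n := add_mem (one_mem _) (mul_mem w_mem h.2.1)
  have h2 := ((EQ.refl (n := n) (k := 2) hm).mul h1.2).trans (exp_mul' h.2.1 (neg_mem h'.2.1))
  have h3 := (EQ.refl (n := n) (k := 2) hcd).mul h2
  have hd0 := hd.1
  have h10 := h1.1.1
  rw [show c / d * ((1 + w n * a) * (1 + w n * b)⁻¹) = c * (1 + w n * a) / (d * (1 + w n * b)) by
    field_simp, ← sub_eq_add_neg] at h3
  exact h3

theorem Ex.pow {x c a : K} (h : Ex n x c a) (k : ℕ) : Ex n (x ^ k) (c ^ k) (k * a) := by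
  induction k with
  | zero =>
    refine ⟨by simp [one_mem], by simp [zero_mem], ?_⟩
    simpa using EQ.refl (n := n) (k := 2) (one_mem (O n))
  | succ k ih =>
    have := ih.mul h
    rw [← pow_succ, ← pow_succ] at this
    rwa [show ((k + 1 : ℕ) : K) * a = k * a + a by push_cast; ring]

theorem Ex.const {c : K} (hc : c ∈ O n) : Ex n c c 0 :=
  ⟨hc, zero_mem _, by simpa using EQ.refl (n := n) (k := 2) hc⟩

theorem Ex.qpow (e s : ℤ) : Ex n (q ^ (e + (n : ℤ) * s)) (q ^ e) (-(s : K)) := by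
  refine ⟨zpow_mem _, neg_mem (intCast_mem _ _), ?_⟩
  have h := (EQ.refl (n := n) (k := 2) (zpow_mem e)).mul (Qs_eq (n := n) s)
  rw [← zpow_add₀ q_ne] at h
  rwa [show (1 : K) - (s : K) * w n = 1 + w n * -(s : K) by ring] at h

/-- difference of the half sums of logarithmic derivatives -/
noncomputable def dl (r M : ℕ) : K :=
  LL (r : ℤ) ((2 * r : ℕ) : ℤ) M - LL ((2 * r : ℕ) : ℤ) ((2 * r : ℕ) : ℤ) M

theorem dl_mem (hn : n = 2 * M + 1) {r : ℕ} (hr : Nat.Coprime n r) : dl r M ∈ O n :=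
  sub_mem (LL_mem (nd1 hn hr)) (LL_mem (nd2 hn hr))

theorem rr_exp (hn : n = 2 * M + 1) {r : ℕ} (hr : Nat.Coprime n r) (t : ℤ) :
    Ex n (rr n r M t) (rr n r M 0) ((t : K) * dl r M) := by
  have hB : (q ^ (2 * r) : K) ∈ O n := pow_mem' _
  have a1 := gp_exp (n := n) (b := 2 * r) (nd1 hn hr) t
  have a2 := gp_exp (n := n) (b := 2 * r) (nd2 hn hr) t
  have l1 : LL (r : ℤ) ((2 * r : ℕ) : ℤ) M ∈ O n := LL_mem (nd1 hn hr)
  have l2 : LL ((2 * r : ℕ) : ℤ) ((2 * r : ℕ) : ℤ) M ∈ O n := LL_mem (nd2 hn hr)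
  have b1 : Ex n (g1 n r M t) (g1 n r M 0) ((t : K) * LL (r : ℤ) ((2 * r : ℕ) : ℤ) M) :=
    ⟨(gp_aff hB _ _).mem 0, mul_mem (intCast_mem _ _) l1, a1⟩
  have b2 : Ex n (g2 n r M t) (g2 n r M 0) ((t : K) * LL ((2 * r : ℕ) : ℤ) ((2 * r : ℕ) : ℤ) M) :=
    ⟨(gp_aff hB _ _).mem 0, mul_mem (intCast_mem _ _) l2, a2⟩
  have b3 := b1.div b2 (g2_U hn hr (by omega) t) (g2_U hn hr (by omega) 0)
  rw [← mul_sub] at b3
  exact b3

theorem rr_mod (hn : n = 2 * M + 1) {r : ℕ} (hr : Nat.Coprime n r) (t : ℤ) :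
    EQ n 1 (rr n r M t) ((-1) ^ M * q ^ (r * M ^ 2)) := by
  have h := (g12_eq (n := n) hn r t t).div one_pos (EQ.refl (n := n) (k := 1)
    (g2_U hn hr (show M < n by omega) t).2.1) (g2_U hn hr (by omega) t)
  rwa [mul_div_assoc, div_self (g2_U hn hr (show M < n by omega) t).1, mul_one] at h

theorem CC_mod (hn : n = 2 * M + 1) (x : ℤ × ℤ) : I n 1 (CC n M x + 1) := by
  have h1 := rr_mod hn (cop1 n) (x.1 + x.2)
  have h2 := rr_mod hn (cop1 n) (x.1 - x.2)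
  have h3 := rr_mod hn (cop1 n) x.1
  have h4 := rr_mod hn (cop2 hn) (2 * x.1)
  have h5 := q_shift (n := n) ((M : ℤ) - 1) (2 * (1 + x.1))
  have hm : ((-1) ^ (M + 1) : K) ∈ O n := pow_mem (neg_mem (one_mem _)) _
  have h6 := ((EQ.refl (n := n) (k := 1) hm).mul h5).mul (((h1.mul h2).mul (h3.pow 2)).mul h4)
  have e : ((-1) ^ (M + 1) : K) * q ^ ((M : ℤ) - 1) *
      ((-1) ^ M * q ^ (1 * M ^ 2) * ((-1) ^ M * q ^ (1 * M ^ 2)) * ((-1) ^ M * q ^ (1 * M ^ 2)) ^ 2 *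
        ((-1) ^ M * q ^ (2 * M ^ 2))) = -q ^ ((n : ℤ) * (3 * M - 1)) := by
    have e1 : ((-1) ^ (M + 1) : K) * ((-1) ^ M) ^ 5 = -1 := by
      rw [← pow_mul, ← pow_add, show M + 1 + M * 5 = 2 * (3 * M) + 1 by ring, pow_succ, pow_mul]
      simp
    have e2 : (q : K) ^ ((M : ℤ) - 1) * ((q ^ (1 * M ^ 2)) ^ 4 * q ^ (2 * M ^ 2)) =
        q ^ ((n : ℤ) * (3 * M - 1)) := by
      rw [← pow_mul, ← pow_add, ← zpow_natCast, ← zpow_add₀ q_ne]
      congr 1; rw [hn]; push_cast; ring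
    rw [← e2]
    linear_combination (q ^ ((M : ℤ) - 1) * ((q ^ (1 * M ^ 2)) ^ 4 * q ^ (2 * M ^ 2))) * e1
  rw [e] at h6
  have h7 := h6.trans (Q_eq (n := n) (3 * M - 1)).neg
  have h8 := h7.2.2
  rwa [sub_neg_eq_add] at h8

/-- first-order coefficient of the reflection factor -/
noncomputable def c2 (M : ℕ) : K := -2 + 4 * dl 1 M + 2 * dl 2 M

theorem nat_mem (k : ℕ) : (k : K) ∈ O n := natCast_mem _ _

theorem c2_mem (hn : n = 2 * M + 1) : c2 M ∈ O n := by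
  have m2 : (2 : K) ∈ O n := by exact_mod_cast nat_mem (n := n) 2
  have m4 : (4 : K) ∈ O n := by exact_mod_cast nat_mem (n := n) 4
  exact add_mem (add_mem (neg_mem m2) (mul_mem m4 (dl_mem hn (cop1 n)))) (mul_mem m2 (dl_mem hn (cop2 hn)))

theorem CC_exp (hn : n = 2 * M + 1) (s : ℤ) : Ex n (CC n M (s, 0)) (CC n M (0, 0)) ((s : K) * c2 M) := by
  have h3 := rr_exp hn (cop1 n) s
  have h4 := rr_exp hn (cop2 hn) (2 * s)
  have hm : ((-1) ^ (M + 1) : K) ∈ O n := pow_mem (neg_mem (one_mem _)) _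
  have h5 := Ex.qpow (n := n) ((M : ℤ) - 1 + (n : ℤ) * 2) (2 * s)
  have h6 := ((Ex.const (n := n) hm).mul h5).mul (((h3.mul h3).mul (h3.pow 2)).mul h4)
  have e1 : CC n M (s, 0) = ((-1) ^ (M + 1) : K) * q ^ ((M : ℤ) - 1 + (n : ℤ) * 2 + (n : ℤ) * (2 * s)) *
      (rr n 1 M s * rr n 1 M s * rr n 1 M s ^ 2 * rr n 2 M (2 * s)) := by
    simp only [CC, add_zero, sub_zero]
    congr 3; ring
  have e2 : CC n M (0, 0) = ((-1) ^ (M + 1) : K) * q ^ ((M : ℤ) - 1 + (n : ℤ) * 2) *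
      (rr n 1 M 0 * rr n 1 M 0 * rr n 1 M 0 ^ 2 * rr n 2 M 0) := by
    simp only [CC, add_zero, sub_zero, mul_zero]
    congr 3
  have e3 : (s : K) * c2 M = 0 + -((2 * s : ℤ) : K) + ((s : K) * dl 1 M + (s : K) * dl 1 M +
      ((2 : ℕ) : K) * ((s : K) * dl 1 M) + ((2 * s : ℤ) : K) * dl 2 M) := by
    rw [c2]; push_cast; ring
  rw [e1, e2, e3]
  exact h6

theorem CC_exp1 (hn : n = 2 * M + 1) : Ex n (CC n M (0, 1)) (CC n M (0, 0)) 0 := by
  have h1 := rr_exp hn (cop1 n) (0 + 1)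
  have h2 := rr_exp hn (cop1 n) (0 - 1)
  have h3 := rr_exp hn (cop1 n) 0
  have h4 := rr_exp hn (cop2 hn) (2 * 0)
  have hm : ((-1) ^ (M + 1) : K) ∈ O n := pow_mem (neg_mem (one_mem _)) _
  have h5 := Ex.qpow (n := n) ((M : ℤ) - 1 + (n : ℤ) * 2) 0
  have h6 := ((Ex.const (n := n) hm).mul h5).mul (((h1.mul h2).mul (h3.pow 2)).mul h4)
  have e1 : CC n M (0, 1) = ((-1) ^ (M + 1) : K) * q ^ ((M : ℤ) - 1 + (n : ℤ) * 2 + (n : ℤ) * 0) *
      (rr n 1 M (0 + 1) * rr n 1 M (0 - 1) * rr n 1 M 0 ^ 2 * rr n 2 M (2 * 0)) := by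
    simp only [CC]
    congr 3; ring
  have e2 : CC n M (0, 0) = ((-1) ^ (M + 1) : K) * q ^ ((M : ℤ) - 1 + (n : ℤ) * 2) *
      (rr n 1 M 0 * rr n 1 M 0 * rr n 1 M 0 ^ 2 * rr n 2 M 0) := by
    simp only [CC, add_zero, sub_zero, mul_zero]
    congr 3
  have e3 : (0 : K) = 0 + -((0 : ℤ) : K) + (((0 + 1 : ℤ) : K) * dl 1 M + ((0 - 1 : ℤ) : K) * dl 1 M +
      ((2 : ℕ) : K) * (((0 : ℤ) : K) * dl 1 M) + ((2 * 0 : ℤ) : K) * dl 2 M) := by
    push_cast; ring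
  rw [e1, e2, e3]
  exact h6

theorem CC_prod (hn : n = 2 * M + 1) : CC n M (0, 0) * CC n M (-1, 0) = 1 := by
  have h1 := tt_refl hn 0 0 (le_refl M)
  have h2 := tt_refl hn (-1) 0 (Nat.zero_le M)
  rw [Nat.sub_self, show (-1 : ℤ) - 0 = -1 by ring] at h1
  rw [Nat.sub_zero, show (-1 : ℤ) - (-1) = 0 by ring] at h2
  rw [h2] at h1
  have h3 : tt n 0 (0, 0) = 1 - q := by simp [tt, rr, g1, g2, gp, poch]
  have h4 : tt n 0 (0, 0) ≠ 0 := by
    rw [h3]; have := one_sub_pow_ne (j := 1) one_ne_zero; rwa [pow_one] at this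
  apply mul_right_cancel₀ h4
  linear_combination (-1 : K) * h1

theorem CC_val (hn : n = 2 * M + 1) :
    EQ n 2 (CC n M (0, 0)) (-(1 + w n * (c2 M / 2))) := by
  have hc2 := c2_mem (M := M) hn
  have hh : c2 M / 2 ∈ O n := by rw [div_eq_mul_one_div]; exact mul_mem hc2 half_mem
  obtain ⟨y, hy, ey⟩ := CC_mod hn (0, 0)
  have h1 := (CC_exp hn (-1)).2.2.2.2
  have h2 := CC_prod hn
  have hC : CC n M (0, 0) ∈ O n := (CC_exp hn 0).1
  obtain ⟨z, hz, ez⟩ := h1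
  refine ⟨hC, neg_mem (add_mem (one_mem _) (mul_mem w_mem hh)), ?_⟩
  -- (C + 1 + wc)(C - 1 - wc) in I 2
  have h3 : I n 2 ((CC n M (0, 0) + (1 + w n * (c2 M / 2))) * (CC n M (0, 0) - (1 + w n * (c2 M / 2)))) := by
    have e : (CC n M (0, 0) + (1 + w n * (c2 M / 2))) * (CC n M (0, 0) - (1 + w n * (c2 M / 2))) =
        w n ^ 2 * (-(c2 M / 2) ^ 2 - CC n M (0, 0) * z +
          c2 M * (CC n M (0, 0) - 1) * y) := by
      have e1 : CC n M (0, 0) = w n ^ 1 * y - 1 := by linear_combination ey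
      have e2 : CC n M (0, 0) ^ 2 = 1 + w n * c2 M * CC n M (0, 0) ^ 2 - CC n M (0, 0) * (w n ^ 2 * z) := by
        push_cast at ez
        linear_combination h2 - CC n M (0, 0) * ez
      linear_combination e2 + w n * c2 M * (CC n M (0, 0) - 1) * ey
    rw [e]
    refine ⟨_, add_mem (sub_mem (neg_mem (pow_mem hh 2)) (mul_mem hC hz)) (mul_mem (mul_mem hc2
      (sub_mem hC (one_mem _))) hy), rfl⟩
  have hU : U n (CC n M (0, 0) - (1 + w n * (c2 M / 2))) := by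
    have h4 : EQ n 1 (-2 : K) (CC n M (0, 0) - (1 + w n * (c2 M / 2))) := by
      have m2 : (2 : K) ∈ O n := by exact_mod_cast nat_mem (n := n) 2
      refine ⟨neg_mem m2, sub_mem hC (add_mem (one_mem _) (mul_mem w_mem hh)), ?_⟩
      have e : -2 - (CC n M (0, 0) - (1 + w n * (c2 M / 2))) = w n ^ 1 * (c2 M / 2 - y) := by
        linear_combination (-1 : K) * ey
      rw [e]
      exact ⟨_, sub_mem hh hy, rfl⟩
    exact h4.unit one_pos U_two.neg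
  have h5 := (show I n 2 ((CC n M (0, 0) - (1 + w n * (c2 M / 2))) *
    (CC n M (0, 0) + (1 + w n * (c2 M / 2)))) by rwa [mul_comm]).cancel hU.1 hU.2.2
  rwa [sub_neg_eq_add]

theorem CC_main (hn : n = 2 * M + 1) (s : ℤ) :
    EQ n 2 (CC n M (s, 0)) (-(1 + w n * (c2 M / 2 * (2 * (s : K) + 1)))) := by
  have hc2 := c2_mem (M := M) hn
  have hh : c2 M / 2 ∈ O n := by rw [div_eq_mul_one_div]; exact mul_mem hc2 half_mem
  have h1 := (CC_exp hn s).2.2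
  have hm : 1 + w n * ((s : K) * c2 M) ∈ O n :=
    add_mem (one_mem _) (mul_mem w_mem (mul_mem (intCast_mem _ _) hc2))
  have h2 := h1.trans ((CC_val hn).mul (EQ.refl (n := n) (k := 2) hm))
  refine h2.trans ?_
  have h3 := (exp_mul' (n := n) hh (mul_mem (intCast_mem (O n) s) hc2)).neg
  rwa [show -((1 + w n * (c2 M / 2)) * (1 + w n * ((s : K) * c2 M))) =
      -(1 + w n * (c2 M / 2)) * (1 + w n * ((s : K) * c2 M)) by ring,
    show c2 M / 2 + (s : K) * c2 M = c2 M / 2 * (2 * (s : K) + 1) by ring] at h3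

/-- the block sum modulo `(1-q^n)^3` -/
theorem TT_block {t : ℕ} (hn : n = 4 * t + 1) (j : ℕ) :
    I n 3 (TT n (2 * t) ((2 * j : ℕ), 0) - (4 * (j : K) + 1) * (1 + w n * (c2 (2 * t) * j)) *
      (w n * (poch (q ^ 2 : K) ((q ^ 2) ^ 2) t / poch ((q ^ 2 : K) ^ 2) ((q ^ 2) ^ 2) t) ^ 2)) := by
  have hn' : n = 2 * (2 * t) + 1 := by omega
  have hc2 := c2_mem (M := 2 * t) hn'
  have hh : c2 (2 * t) / 2 ∈ O n := by rw [div_eq_mul_one_div]; exact mul_mem hc2 half_mem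
  have hT := TT_an (M := 2 * t) hn' 3
  have hg : An n 3 (fun s : ℤ => TT n (2 * t) (s, 0)) :=
    hT.comp (B := ℤ) (AddMonoidHom.inl ℤ ℤ)
  have h1 := refl_main (g := fun s : ℤ => TT n (2 * t) (s, 0)) (C := fun s => CC n (2 * t) (s, 0))
    hg hh (CC_main hn') (fun s => TT_refl hn' s 0) ((2 * j : ℕ) : ℤ)
  have h2 := even_param (T := TT n (2 * t)) (C := CC n (2 * t)) hT (fun s r => TT_even s r)
    (fun s r => TT_refl hn' s r) (CC_mod hn' _) (CC_mod hn' _) (CC_exp hn' 0).1 (by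
      have := (CC_exp1 hn').2.2.2.2
      rwa [mul_zero, add_zero, mul_one] at this)
  rw [TT_val hn] at h2
  have h3 : I n 3 ((4 * (j : K) + 1) * (1 + w n * (c2 (2 * t) * j)) *
      (w n * (poch (q ^ 2 : K) ((q ^ 2) ^ 2) t / poch ((q ^ 2 : K) ^ 2) ((q ^ 2) ^ 2) t) ^ 2 -
        TT n (2 * t) (0, 0))) := by
    refine h2.mulL ?_
    have m4 : (4 : K) ∈ O n := by exact_mod_cast nat_mem (n := n) 4
    exact mul_mem (add_mem (mul_mem m4 (natCast_mem _ _)) (one_mem _)) (add_mem (one_mem _)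
      (mul_mem w_mem (mul_mem hc2 (natCast_mem _ _))))
  have h4 := h1.sub h3
  convert h4 using 1
  push_cast
  ring

end

end Pool.Agent.R439
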