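import Mathlib

set_option autoImplicit false

/-!
Calculus of congruences for rational numbers that are integral at a prime.
-/

namespace Pool.Agent.R439.PL

open Finset

variable {p : ℕ} [hp : Fact p.Prime]

/-- the rationals with denominator prime to `p` -/
def Zp (p : ℕ) [hp : Fact p.Prime] : Subring ℚ where
  carrier := {x | ∃ a b : ℤ, ¬ (p : ℤ) ∣ b ∧ x = a / b}
  mul_mem' := by
    rintro x y ⟨a, b, hb, rfl⟩ ⟨c, d, hd, rfl⟩
    have hpz := Nat.prime_iff_prime_int.1 hp.out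
    refine ⟨a * c, b * d, fun h => (hpz.dvd_or_dvd h).elim hb hd, ?_⟩
    push_cast
    rw [div_mul_div_comm]
  one_mem' := by
    have hpz := Nat.prime_iff_prime_int.1 hp.out
    exact ⟨1, 1, fun h => hpz.not_dvd_one h, by norm_num⟩
  add_mem' := by
    rintro x y ⟨a, b, hb, rfl⟩ ⟨c, d, hd, rfl⟩
    have hpz := Nat.prime_iff_prime_int.1 hp.out
    refine ⟨a * d + b * c, b * d, fun h => (hpz.dvd_or_dvd h).elim hb hd, ?_⟩
    have hb0 : (b : ℚ) ≠ 0 := by
      intro h; apply hb; have : b = 0 := by exact_mod_cast h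
      rw [this]; exact dvd_zero _
    have hd0 : (d : ℚ) ≠ 0 := by
      intro h; apply hd; have : d = 0 := by exact_mod_cast h
      rw [this]; exact dvd_zero _
    push_cast
    rw [div_add_div _ _ hb0 hd0]
  zero_mem' := by
    have hpz := Nat.prime_iff_prime_int.1 hp.out
    exact ⟨0, 1, fun h => hpz.not_dvd_one h, by norm_num⟩
  neg_mem' := by
    rintro x ⟨a, b, hb, rfl⟩
    exact ⟨-a, b, hb, by push_cast; ring⟩

theorem pz : Prime (p : ℤ) := Nat.prime_iff_prime_int.1 hp.out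

theorem p_ne : (p : ℚ) ≠ 0 := by exact_mod_cast hp.out.ne_zero

theorem int_mem (a : ℤ) : (a : ℚ) ∈ Zp p := ⟨a, 1, fun h => (pz (p := p)).not_dvd_one h, by norm_num⟩

theorem nat_mem (a : ℕ) : (a : ℚ) ∈ Zp p := by exact_mod_cast int_mem (p := p) (a : ℤ)

/-- `x` is divisible by `p^k` in `Zp` -/
def I (p : ℕ) [Fact p.Prime] (k : ℕ) (x : ℚ) : Prop := ∃ y ∈ Zp p, x = (p : ℚ) ^ k * y

variable {k l : ℕ} {x y z : ℚ}

theorem I.zero : I p k 0 := ⟨0, zero_mem _, by ring⟩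

theorem I.add (hx : I p k x) (hy : I p k y) : I p k (x + y) := by
  obtain ⟨a, ha, rfl⟩ := hx
  obtain ⟨b, hb, rfl⟩ := hy
  exact ⟨a + b, add_mem ha hb, by ring⟩

theorem I.neg (hx : I p k x) : I p k (-x) := by
  obtain ⟨a, ha, rfl⟩ := hx
  exact ⟨-a, neg_mem ha, by ring⟩

theorem I.sub (hx : I p k x) (hy : I p k y) : I p k (x - y) := by
  rw [sub_eq_add_neg]; exact hx.add hy.neg

theorem I.mul (hx : I p k x) (hy : I p l y) : I p (k + l) (x * y) := by
  obtain ⟨a, ha, rfl⟩ := hx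
  obtain ⟨b, hb, rfl⟩ := hy
  exact ⟨a * b, mul_mem ha hb, by ring⟩

theorem I.mulL (hx : x ∈ Zp p) (hy : I p k y) : I p k (x * y) := by
  obtain ⟨b, hb, rfl⟩ := hy
  exact ⟨x * b, mul_mem hx hb, by ring⟩

theorem I.mulR (hx : I p k x) (hy : y ∈ Zp p) : I p k (x * y) := by
  rw [mul_comm]; exact hx.mulL hy

theorem p_mem : (p : ℚ) ∈ Zp p := nat_mem p

theorem I.mono (h : l ≤ k) (hx : I p k x) : I p l x := by
  obtain ⟨a, ha, rfl⟩ := hx
  refine ⟨(p : ℚ) ^ (k - l) * a, mul_mem (pow_mem p_mem _) ha, ?_⟩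
  rw [← mul_assoc, ← pow_add, Nat.add_sub_cancel' h]

theorem I_zero_iff : I p 0 x ↔ x ∈ Zp p := by
  constructor
  · rintro ⟨a, ha, rfl⟩; simpa using ha
  · intro h; exact ⟨x, h, by ring⟩

theorem I.mem (hx : I p k x) : x ∈ Zp p := I_zero_iff.1 (hx.mono (Nat.zero_le _))

theorem I.sum {ι : Type*} {s : Finset ι} {f : ι → ℚ} (h : ∀ i ∈ s, I p k (f i)) :
    I p k (∑ i ∈ s, f i) := by
  classical
  induction s using Finset.induction_on with
  | empty => simpa using I.zero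
  | insert a s ha ih =>
    rw [sum_insert ha]
    exact (h a (mem_insert_self _ _)).add (ih fun i hi => h i (mem_insert_of_mem hi))

theorem I_p : I p 1 (p : ℚ) := ⟨1, one_mem _, by ring⟩

theorem I_p_mul_iff : I p (k + 1) ((p : ℚ) * x) ↔ I p k x := by
  constructor
  · rintro ⟨a, ha, h⟩
    refine ⟨a, ha, ?_⟩
    have := p_ne (p := p)
    apply mul_left_cancel₀ this
    rw [h]; ring
  · intro h
    have := (I_p (p := p)).mul h
    rwa [add_comm] at this

/-- `x` is a unit of `Zp` -/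
def U (p : ℕ) [Fact p.Prime] (x : ℚ) : Prop := x ≠ 0 ∧ x ∈ Zp p ∧ x⁻¹ ∈ Zp p

theorem U.one : U p 1 := ⟨one_ne_zero, one_mem _, by rw [inv_one]; exact one_mem _⟩

theorem U.mul (hx : U p x) (hy : U p y) : U p (x * y) :=
  ⟨mul_ne_zero hx.1 hy.1, mul_mem hx.2.1 hy.2.1, by rw [mul_inv]; exact mul_mem hx.2.2 hy.2.2⟩

theorem U.inv (hx : U p x) : U p x⁻¹ :=
  ⟨inv_ne_zero hx.1, hx.2.2, by rw [inv_inv]; exact hx.2.1⟩

theorem U.div (hx : U p x) (hy : U p y) : U p (x / y) := by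
  rw [div_eq_mul_inv]; exact hx.mul hy.inv

theorem U.pow (hx : U p x) (k : ℕ) : U p (x ^ k) := by
  induction k with
  | zero => rw [pow_zero]; exact U.one
  | succ k ih => rw [pow_succ]; exact ih.mul hx

theorem U.prod {ι : Type*} {s : Finset ι} {f : ι → ℚ} (h : ∀ i ∈ s, U p (f i)) :
    U p (∏ i ∈ s, f i) := by
  classical
  induction s using Finset.induction_on with
  | empty => simpa using U.one
  | insert a s ha ih =>
    rw [prod_insert ha]
    exact (h a (mem_insert_self _ _)).mul (ih fun i hi => h i (mem_insert_of_mem hi))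

theorem U_int {a : ℤ} (ha : ¬ (p : ℤ) ∣ a) : U p (a : ℚ) := by
  refine ⟨?_, int_mem a, ⟨1, a, ha, by norm_num⟩⟩
  intro h
  apply ha
  have : a = 0 := by exact_mod_cast h
  rw [this]; exact dvd_zero _

theorem U_rat {a b : ℤ} (ha : ¬ (p : ℤ) ∣ a) (hb : ¬ (p : ℤ) ∣ b) : U p ((a : ℚ) / b) :=
  (U_int ha).div (U_int hb)

theorem U.cancel (hx : U p x) (h : I p k (x * y)) : I p k y := by
  have := h.mulL hx.2.2
  rwa [← mul_assoc, inv_mul_cancel₀ hx.1, one_mul] at this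

/-- congruence in `Zp` -/
def EQ (p : ℕ) [Fact p.Prime] (k : ℕ) (x y : ℚ) : Prop := x ∈ Zp p ∧ y ∈ Zp p ∧ I p k (x - y)

theorem EQ.refl (hx : x ∈ Zp p) : EQ p k x x := ⟨hx, hx, by rw [sub_self]; exact I.zero⟩

theorem EQ.symm (h : EQ p k x y) : EQ p k y x :=
  ⟨h.2.1, h.1, by rw [← neg_sub]; exact h.2.2.neg⟩

theorem EQ.trans (h : EQ p k x y) (h' : EQ p k y z) : EQ p k x z :=
  ⟨h.1, h'.2.1, by
    have : x - z = (x - y) + (y - z) := by ring
    rw [this]; exact h.2.2.add h'.2.2⟩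

theorem EQ.mono (hl : l ≤ k) (h : EQ p k x y) : EQ p l x y := ⟨h.1, h.2.1, h.2.2.mono hl⟩

variable {x' y' : ℚ}

theorem EQ.add (h : EQ p k x x') (h' : EQ p k y y') : EQ p k (x + y) (x' + y') :=
  ⟨add_mem h.1 h'.1, add_mem h.2.1 h'.2.1, by
    have : x + y - (x' + y') = (x - x') + (y - y') := by ring
    rw [this]; exact h.2.2.add h'.2.2⟩

theorem EQ.neg (h : EQ p k x x') : EQ p k (-x) (-x') :=
  ⟨neg_mem h.1, neg_mem h.2.1, by
    have : -x - -x' = -(x - x') := by ring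
    rw [this]; exact h.2.2.neg⟩

theorem EQ.sub (h : EQ p k x x') (h' : EQ p k y y') : EQ p k (x - y) (x' - y') := by
  rw [sub_eq_add_neg, sub_eq_add_neg]; exact h.add h'.neg

theorem EQ.mul (h : EQ p k x x') (h' : EQ p k y y') : EQ p k (x * y) (x' * y') :=
  ⟨mul_mem h.1 h'.1, mul_mem h.2.1 h'.2.1, by
    have : x * y - x' * y' = x * (y - y') + (x - x') * y' := by ring
    rw [this]; exact (h'.2.2.mulL h.1).add (h.2.2.mulR h'.2.1)⟩

theorem EQ.pow (h : EQ p k x y) (l : ℕ) : EQ p k (x ^ l) (y ^ l) := by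
  induction l with
  | zero => rw [pow_zero, pow_zero]; exact EQ.refl (one_mem _)
  | succ l ih => rw [pow_succ, pow_succ]; exact ih.mul h

theorem EQ.sum {ι : Type*} {s : Finset ι} {f g : ι → ℚ} (h : ∀ i ∈ s, EQ p k (f i) (g i)) :
    EQ p k (∑ i ∈ s, f i) (∑ i ∈ s, g i) := by
  classical
  induction s using Finset.induction_on with
  | empty => simpa using EQ.refl (zero_mem (Zp p))
  | insert a s ha ih =>
    rw [sum_insert ha, sum_insert ha]
    exact (h a (mem_insert_self _ _)).add (ih fun i hi => h i (mem_insert_of_mem hi))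

theorem EQ.prod {ι : Type*} {s : Finset ι} {f g : ι → ℚ} (h : ∀ i ∈ s, EQ p k (f i) (g i)) :
    EQ p k (∏ i ∈ s, f i) (∏ i ∈ s, g i) := by
  classical
  induction s using Finset.induction_on with
  | empty => simpa using EQ.refl (one_mem (Zp p))
  | insert a s ha ih =>
    rw [prod_insert ha, prod_insert ha]
    exact (h a (mem_insert_self _ _)).mul (ih fun i hi => h i (mem_insert_of_mem hi))

theorem not_I_one : ¬ I p 1 (1 : ℚ) := by
  rintro ⟨y, ⟨a, b, hb, rfl⟩, h⟩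
  have hb0 : (b : ℚ) ≠ 0 := by
    intro h0; apply hb; have : b = 0 := by exact_mod_cast h0
    rw [this]; exact dvd_zero _
  rw [pow_one] at h
  field_simp at h
  have h2 : (b : ℤ) = p * a := by exact_mod_cast h
  exact hb ⟨a, h2⟩

theorem U.not_I (hx : U p x) (hk : 0 < k) : ¬ I p k x := by
  intro h
  apply not_I_one (p := p)
  have := (h.mono (by omega : 1 ≤ k)).mulL hx.2.2
  rwa [inv_mul_cancel₀ hx.1] at this

theorem U_of_not_I (hx : x ∈ Zp p) (h : ¬ I p 1 x) : U p x := by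
  obtain ⟨a, b, hb, rfl⟩ := hx
  have ha : ¬ (p : ℤ) ∣ a := by
    rintro ⟨c, rfl⟩
    apply h
    refine ⟨(c : ℚ) / b, ⟨c, b, hb, rfl⟩, ?_⟩
    push_cast; ring
  exact U_rat ha hb

theorem EQ.unit (hk : 0 < k) (h : EQ p k x y) (hx : U p x) : U p y := by
  apply U_of_not_I h.2.1
  intro hy
  apply hx.not_I one_pos
  have : x = (x - y) + y := by ring
  rw [this]
  exact (h.2.2.mono hk).add hy

theorem EQ.inv (hk : 0 < k) (h : EQ p k x y) (hx : U p x) : EQ p k x⁻¹ y⁻¹ := by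
  have hy := h.unit hk hx
  refine ⟨hx.2.2, hy.2.2, ?_⟩
  have h1 := hx.1
  have h2 := hy.1
  have : x⁻¹ - y⁻¹ = (x⁻¹ * y⁻¹) * (-(x - y)) := by field_simp; ring
  rw [this]
  exact h.2.2.neg.mulL (mul_mem hx.2.2 hy.2.2)

theorem EQ.div (hk : 0 < k) (h : EQ p k x x') (h' : EQ p k y y') (hy : U p y) :
    EQ p k (x / y) (x' / y') := by
  rw [div_eq_mul_inv, div_eq_mul_inv]; exact h.mul (h'.inv hk hy)

theorem EQ.of_I (h : I p k x) : EQ p k x 0 := ⟨h.mem, zero_mem _, by rwa [sub_zero]⟩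

/-- divisibility in terms of the reduced denominator -/
theorem den_of_I (h : I p k x) : ¬ p ∣ (x / (p : ℚ) ^ k).den := by
  obtain ⟨y, ⟨a, b, hb, rfl⟩, rfl⟩ := h
  have hpk : (p : ℚ) ^ k ≠ 0 := pow_ne_zero _ p_ne
  rw [mul_div_cancel_left₀ _ hpk]
  intro h
  apply hb
  have h1 : (((a : ℚ) / b).den : ℤ) ∣ b := by
    have := Rat.den_dvd a b
    exact_mod_cast this
  exact (Int.natCast_dvd_natCast.2 h).trans h1

/-- expansion of a product of `e_j^2 - δ` -/
theorem prod_exp {ι : Type*} {s : Finset ι} {e : ι → ℚ} {δ : ℚ} (he : ∀ i ∈ s, U p (e i))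
    (hδ : I p 2 δ) : EQ p 4 (∏ i ∈ s, (e i ^ 2 - δ))
      ((∏ i ∈ s, e i ^ 2) * (1 - δ * ∑ i ∈ s, (e i ^ 2)⁻¹)) := by
  classical
  induction s using Finset.induction_on with
  | empty => simpa using EQ.refl (one_mem (Zp p))
  | insert a s ha ih =>
    have ih := ih fun i hi => he i (mem_insert_of_mem hi)
    have ua := he a (mem_insert_self _ _)
    rw [prod_insert ha, prod_insert ha, sum_insert ha]
    have hS : ∑ i ∈ s, (e i ^ 2)⁻¹ ∈ Zp p := sum_mem fun i hi =>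
      ((he i (mem_insert_of_mem hi)).pow 2).2.2
    have hP : ∏ i ∈ s, e i ^ 2 ∈ Zp p := prod_mem fun i hi =>
      ((he i (mem_insert_of_mem hi)).pow 2).2.1
    have h1 : e a ^ 2 - δ ∈ Zp p := sub_mem (ua.pow 2).2.1 hδ.mem
    have h2 := (EQ.refl (p := p) (k := 4) h1).mul ih
    refine h2.trans ⟨h2.2.1, ?_, ?_⟩
    · exact mul_mem (mul_mem (ua.pow 2).2.1 hP) (sub_mem (one_mem _)
        (mul_mem hδ.mem (add_mem (ua.pow 2).2.2 hS)))
    · have h0 := ua.1
      generalize ∏ i ∈ s, e i ^ 2 = P at *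
      generalize ∑ i ∈ s, (e i ^ 2)⁻¹ = S at *
      have : (e a ^ 2 - δ) * (P * (1 - δ * S)) - e a ^ 2 * P * (1 - δ * ((e a ^ 2)⁻¹ + S)) =
          δ * δ * (P * S) := by
        field_simp
        ring
      rw [this]
      exact (hδ.mul hδ).mulR (mul_mem hP hS)

end Pool.Agent.R439.PL
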