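import Mathlib
import Pool.Agent.R439.QBlock

set_option autoImplicit false

/-!
An exact formula for `∑_{k ≤ m} (4k+1) ((1/2)_k/k!)^4`.
-/

namespace Pool.Agent.R439.S4

open Finset Pool.Agent.R439

/-- `(1/2)_k` -/
def hf (k : ℕ) : ℚ := ∏ i ∈ range k, ((i : ℚ) + 1 / 2)

theorem hf_succ (k : ℕ) : hf (k + 1) = hf k * ((k : ℚ) + 1 / 2) := prod_range_succ _ _

theorem hf_ne (k : ℕ) : hf k ≠ 0 := by
  rw [hf, prod_ne_zero_iff]
  intro i _
  positivity

theorem ch_hf (k : ℕ) : ch k = hf k / (k.factorial : ℚ) := by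
  rw [ch, rf, hf]
  congr 1
  exact prod_congr rfl fun i _ => by ring

theorem ch_ne (k : ℕ) : ch k ≠ 0 := by
  rw [ch_hf]
  exact div_ne_zero (hf_ne k) (by positivity)

/-- the reciprocal of `z!`, zero for negative `z` -/
def gi (z : ℤ) : ℚ := if 0 ≤ z then 1 / (z.toNat.factorial : ℚ) else 0

theorem gi_neg {z : ℤ} (h : z < 0) : gi z = 0 := if_neg (by omega)

theorem gi_nat (k : ℕ) : gi k = 1 / (k.factorial : ℚ) := by
  rw [gi, if_pos (by omega), Int.toNat_natCast]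

theorem gi_rec (z : ℤ) : gi (z - 1) = z * gi z := by
  rcases lt_trichotomy z 0 with h | h | h
  · rw [gi_neg h, gi_neg (by omega), mul_zero]
  · subst h
    rw [gi_neg (by omega)]; simp
  · obtain ⟨k, hk⟩ : ∃ k : ℕ, z = k + 1 := ⟨(z - 1).toNat, by omega⟩
    subst hk
    have h1 : ((k : ℤ) + 1 - 1) = (k : ℕ) := by ring
    have h2 : ((k : ℤ) + 1) = ((k + 1 : ℕ) : ℤ) := by push_cast; ring
    rw [h1, h2, gi_nat, gi_nat, Nat.factorial_succ]
    have h3 : (k.factorial : ℚ) ≠ 0 := by positivity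
    have h4 : (k : ℚ) + 1 ≠ 0 := by positivity
    push_cast
    field_simp

/-- the pair of companion terms -/
def FF (k i : ℕ) : ℚ := (-1) ^ i * (i.factorial / hf i ^ 3) * (4 * k + 1) * ch k ^ 3 * hf (k + i) *
  gi ((k : ℤ) - i)

def GG (k j : ℕ) : ℚ := 2 * (-1) ^ j * (j.factorial / hf (j + 1) ^ 3) * ((k : ℚ) ^ 3 * ch k ^ 3) *
  hf (k + j) * gi ((k : ℤ) - j - 1)

theorem wz (k j : ℕ) : FF k j - FF k (j + 1) = GG (k + 1) j - GG k j := by
  have e1 : ((k : ℤ) - ((j + 1 : ℕ) : ℤ)) = (k : ℤ) - j - 1 := by push_cast; ring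
  have e2 : (((k + 1 : ℕ) : ℤ) - j - 1) = (k : ℤ) - j := by push_cast; ring
  have e3 := gi_rec ((k : ℤ) - j)
  rw [FF, FF, GG, GG, e1, e2, e3, show k + 1 + j = k + j + 1 by ring,
    show k + (j + 1) = k + j + 1 by ring, hf_succ (k + j), hf_succ j, Nat.factorial_succ, ch_succ]
  generalize gi ((k : ℤ) - j) = x
  generalize hf (k + j) = y
  have hz := hf_ne j
  generalize hf j = z at hz
  have h1 : ((j : ℚ) + 1 / 2) ≠ 0 := by positivity
  have h2 : (2 * (k : ℚ) + 2) ≠ 0 := by positivity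
  have h3 : (2 * (j : ℚ) + 1) ≠ 0 := by positivity
  push_cast
  rw [pow_succ (-1 : ℚ) j]
  generalize ch k = c
  generalize (j.factorial : ℚ) = f
  generalize (-1 : ℚ) ^ j = s
  have h4 : ((k : ℚ) + 1) ≠ 0 := by positivity
  have h5 : (j : ℚ) + 1 / 2 = (2 * j + 1) / 2 := by ring
  have h6 : 2 * (k : ℚ) + 2 = 2 * (k + 1) := by ring
  rw [h5, h6]
  field_simp
  ring

theorem FF_zero (k : ℕ) : FF k 0 = (4 * k + 1) * ch k ^ 4 := by
  have h0 : hf 0 = 1 := by simp [hf]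
  have h1 : ((k : ℤ) - ((0 : ℕ) : ℤ)) = (k : ℕ) := by simp
  rw [FF, h0, h1, gi_nat, add_zero]
  have h2 := ch_hf k
  rw [pow_succ (ch k) 3]
  conv_rhs => rw [h2]
  simp only [pow_zero, Nat.factorial_zero, Nat.cast_one, one_pow]
  rw [h2]
  ring

theorem sum_eq (N : ℕ) : ∑ k ∈ range N, (4 * (k : ℚ) + 1) * ch k ^ 4 = ∑ j ∈ range N, GG N j := by
  have h1 : ∀ I : ℕ, ∑ k ∈ range N, FF k 0 - ∑ k ∈ range N, FF k I = ∑ j ∈ range I, GG N j := by
    intro I
    induction I with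
    | zero => simp
    | succ I ih =>
      have h2 : ∑ k ∈ range N, FF k I - ∑ k ∈ range N, FF k (I + 1) = GG N I := by
        rw [← sum_sub_distrib]
        have h3 : ∀ k ∈ range N, FF k I - FF k (I + 1) = GG (k + 1) I - GG k I := fun k _ => wz k I
        rw [sum_congr rfl h3, sum_range_sub (fun k => GG k I)]
        have h4 : GG 0 I = 0 := by rw [GG]; simp
        rw [h4, sub_zero]
      rw [sum_range_succ, ← ih, ← h2]
      ring
  have h5 := h1 N
  have h6 : ∑ k ∈ range N, FF k N = 0 := by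
    refine sum_eq_zero fun k hk => ?_
    have := mem_range.1 hk
    rw [FF, gi_neg (by omega), mul_zero]
  rw [h6, sub_zero] at h5
  rw [← h5]
  exact sum_congr rfl fun k _ => (FF_zero k).symm

/-- the correction factor -/
def EE (n : ℚ) (j : ℕ) : ℚ := ∏ l ∈ range j, ((1 + n / (2 * l + 2)) * (1 - n / (2 * l + 1)))

theorem GG_eq (m j : ℕ) : GG (m + 1) j = (2 * m + 1) ^ 4 * ch m ^ 4 / (ch j ^ 2 * (2 * j + 1) ^ 3) *
    EE (2 * m + 1) j := by
  induction j with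
  | zero =>
    have h0 : hf 0 = 1 := by simp [hf]
    have h1 : (((m + 1 : ℕ) : ℤ) - ((0 : ℕ) : ℤ) - 1) = (m : ℕ) := by push_cast; ring
    rw [GG, h1, gi_nat, ch_zero, EE, hf_succ, h0, add_zero, hf_succ, ch_succ]
    have h2 := ch_hf m
    have h3 : hf m = ch m * m.factorial := by
      rw [h2, div_mul_cancel₀]; positivity
    rw [h3]
    have h4 : (m.factorial : ℚ) ≠ 0 := by positivity
    have h5 : (m : ℚ) + 1 ≠ 0 := by positivity
    have h6 : 2 * (m : ℚ) + 2 = 2 * (m + 1) := by ring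
    simp only [range_zero, prod_empty, pow_zero, Nat.factorial_zero, Nat.cast_one, Nat.cast_zero,
      one_pow]
    rw [h6]
    push_cast
    field_simp
  | succ j ih =>
    have h1 : (((m + 1 : ℕ) : ℤ) - ((j + 1 : ℕ) : ℤ) - 1) = (((m : ℤ)) - j) - 1 := by push_cast; ring
    have h2 : (((m + 1 : ℕ) : ℤ) - (j : ℤ) - 1) = ((m : ℤ)) - j := by push_cast; ring
    have h3 : GG (m + 1) (j + 1) = - GG (m + 1) j * ((j + 1) / (j + 3 / 2) ^ 3 * (m + 1 + j + 1 / 2) *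
        (m - j)) := by
      rw [GG, GG, h1, h2, gi_rec, show m + 1 + (j + 1) = m + 1 + j + 1 by ring, hf_succ (m + 1 + j),
        hf_succ (j + 1), Nat.factorial_succ, pow_succ (-1 : ℚ) j]
      have h4 := hf_ne (j + 1)
      push_cast
      have h5 : (j : ℚ) + 1 + 1 / 2 = (j + 3 / 2) := by ring
      have h6 : (j : ℚ) + 3 / 2 ≠ 0 := by positivity
      rw [h5, mul_pow]
      generalize (j : ℚ) + 3 / 2 = w at h6
      field_simp
    rw [h3, ih, EE, EE, prod_range_succ, ch_succ]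
    have h7 := ch_ne j
    have h8 : (2 * (j : ℚ) + 1) ≠ 0 := by positivity
    have h9 : (2 * (j : ℚ) + 2) ≠ 0 := by positivity
    have h10 : (2 * (j : ℚ) + 3) ≠ 0 := by positivity
    have h11 : (j : ℚ) + 3 / 2 = (2 * j + 3) / 2 := by ring
    have h12 : 2 * ((j : ℚ) + 1) + 1 = 2 * j + 3 := by ring
    push_cast
    rw [h11, h12]
    generalize ∏ l ∈ range j, ((1 + (2 * (m : ℚ) + 1) / (2 * l + 2)) *
      (1 - (2 * (m : ℚ) + 1) / (2 * l + 1))) = P
    field_simp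
    ring

theorem ch_prod (m : ℕ) : ch m = ∏ l ∈ range m, ((2 * (l : ℚ) + 1) / (2 * l + 2)) := by
  induction m with
  | zero => simp [ch_zero]
  | succ m ih => rw [ch_succ, prod_range_succ, ih]

theorem prod_A (m : ℕ) : ch m * ∏ l ∈ range m, (1 - (2 * (m : ℚ) + 1) / (2 * l + 1)) = (-1) ^ m := by
  have h1 : ∏ l ∈ range m, (1 - (2 * (m : ℚ) + 1) / (2 * l + 1)) =
      ∏ l ∈ range m, ((-1) * (2 * (m - l)) / (2 * (l : ℚ) + 1)) := by
    refine prod_congr rfl fun l _ => ?_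
    have : (2 * (l : ℚ) + 1) ≠ 0 := by positivity
    field_simp
    ring
  have h2 : ∏ l ∈ range m, (2 * ((m : ℚ) - l)) = ∏ l ∈ range m, (2 * (l : ℚ) + 2) := by
    rw [← prod_range_reflect (fun l => (2 * (l : ℚ) + 2)) m]
    refine prod_congr rfl fun l hl => ?_
    have h3 : ((m - 1 - l : ℕ) : ℚ) = m - 1 - l := by
      have := mem_range.1 hl
      rw [Nat.cast_sub (by omega), Nat.cast_sub (by omega)]; push_cast; ring
    rw [h3]; ring
  rw [h1, ch_prod, prod_div_distrib, prod_div_distrib, prod_mul_distrib, h2, prod_const, card_range]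
  have h3 : ∏ l ∈ range m, (2 * (l : ℚ) + 1) ≠ 0 := prod_ne_zero_iff.2 fun l _ => by positivity
  have h4 : ∏ l ∈ range m, (2 * (l : ℚ) + 2) ≠ 0 := prod_ne_zero_iff.2 fun l _ => by positivity
  field_simp

theorem prod_B (m : ℕ) : ∏ l ∈ range m, (1 - (2 * (m : ℚ) + 1) / (2 * l + 2)) = (-1) ^ m * ch m := by
  have h1 : ∏ l ∈ range m, (1 - (2 * (m : ℚ) + 1) / (2 * l + 2)) =
      ∏ l ∈ range m, ((-1) * (2 * (m - 1 - l) + 1) / (2 * (l : ℚ) + 2)) := by
    refine prod_congr rfl fun l _ => ?_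
    have : (2 * (l : ℚ) + 2) ≠ 0 := by positivity
    field_simp
    ring
  have h2 : ∏ l ∈ range m, (2 * ((m : ℚ) - 1 - l) + 1) = ∏ l ∈ range m, (2 * (l : ℚ) + 1) := by
    rw [← prod_range_reflect (fun l => (2 * (l : ℚ) + 1)) m]
    refine prod_congr rfl fun l hl => ?_
    have h3 : ((m - 1 - l : ℕ) : ℚ) = m - 1 - l := by
      have := mem_range.1 hl
      rw [Nat.cast_sub (by omega), Nat.cast_sub (by omega)]; push_cast; ring
    rw [h3]
  rw [h1, ch_prod, prod_div_distrib, prod_div_distrib, prod_mul_distrib, h2, prod_const, card_range]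
  ring

/-- the main term -/
theorem GG_top (m : ℕ) : GG (m + 1) m = (2 * (m : ℚ) + 1) *
    ∏ l ∈ range m, (1 - (2 * (m : ℚ) + 1) ^ 2 / (4 * ((l : ℚ) + 1) ^ 2)) := by
  rw [GG_eq, EE, prod_mul_distrib]
  have h1 := prod_A m
  have h2 := prod_B m
  have h3 : ∏ l ∈ range m, (1 - (2 * (m : ℚ) + 1) ^ 2 / (4 * ((l : ℚ) + 1) ^ 2)) =
      (∏ l ∈ range m, (1 + (2 * (m : ℚ) + 1) / (2 * l + 2))) *
      ∏ l ∈ range m, (1 - (2 * (m : ℚ) + 1) / (2 * l + 2)) := by
    rw [← prod_mul_distrib]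
    refine prod_congr rfl fun l _ => ?_
    have : ((l : ℚ) + 1) ≠ 0 := by positivity
    have h4 : (2 * (l : ℚ) + 2) = 2 * (l + 1) := by ring
    rw [h4]
    field_simp
    ring
  rw [h3, h2]
  have h5 : (2 * (m : ℚ) + 1) ≠ 0 := by positivity
  have h6 := ch_ne m
  generalize ∏ l ∈ range m, (1 + (2 * (m : ℚ) + 1) / (2 * l + 2)) = P
  generalize ∏ l ∈ range m, (1 - (2 * (m : ℚ) + 1) / (2 * l + 1)) = Q at h1
  rw [← h1]
  field_simp

/-- the exact formula -/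
theorem exact_formula (m : ℕ) : ∑ k ∈ range (m + 1), (4 * (k : ℚ) + 1) * ch k ^ 4 =
    (2 * (m : ℚ) + 1) * ∏ l ∈ range m, (1 - (2 * (m : ℚ) + 1) ^ 2 / (4 * ((l : ℚ) + 1) ^ 2)) +
    ∑ j ∈ range m, (2 * m + 1) ^ 4 * ch m ^ 4 / (ch j ^ 2 * (2 * j + 1) ^ 3) * EE (2 * m + 1) j := by
  rw [sum_eq, sum_range_succ, GG_top, add_comm]
  congr 1
  exact sum_congr rfl fun j _ => GG_eq m j

end Pool.Agent.R439.S4
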