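import Mathlib

set_option autoImplicit false

/-!
A closed form for the double sum `∑_t (-1)^(t+1) C(n,t)^(-3) ∑_{j ≤ t} (-1)^j C(n+1,j)^3`.
-/

namespace Pool.Agent.R439.W3

open Finset

/-- the partial alternating sums of cubes of binomial coefficients -/
def Us (n s : ℕ) : ℚ := ∑ j ∈ range s, (-1) ^ j * ((n + 1).choose j : ℚ) ^ 3

/-- the signed reciprocals -/
def bb (n t : ℕ) : ℚ := (-1) ^ (t + 1) / (n.choose t : ℚ) ^ 3

/-- the double sum -/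
def AA (n : ℕ) : ℚ := ∑ t ∈ range (n + 1), bb n t * Us n (t + 1)

/-- polynomial of the first certificate, times `(m+2)^2` -/
def NN (m s : ℚ) : ℚ := (-232 - 784 * m - 1042 * m ^ 2 - 682 * m ^ 3 - 220 * m ^ 4 - 28 * m ^ 5) +
  (414 + 1113 * m + 1107 * m ^ 2 + 483 * m ^ 3 + 78 * m ^ 4) * s +
  (-294 - 594 * m - 396 * m ^ 2 - 87 * m ^ 3) * s ^ 2 + (96 + 132 * m + 45 * m ^ 2) * s ^ 3 +
  (-12 - 9 * m) * s ^ 4

/-- polynomial of the second certificate -/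
def SS (m s : ℚ) : ℚ := (-6784 - 32480 * m - 63808 * m ^ 2 - 67424 * m ^ 3 - 41680 * m ^ 4 -
    15146 * m ^ 5 - 3006 * m ^ 6 - 252 * m ^ 7) +
  (9888 + 42216 * m + 71100 * m ^ 2 + 61338 * m ^ 3 + 28839 * m ^ 4 + 7047 * m ^ 5 +
    702 * m ^ 6) * s +
  (-5424 - 20484 * m - 28908 * m ^ 2 - 19407 * m ^ 3 - 6264 * m ^ 4 - 783 * m ^ 5) * s ^ 2 +
  (1320 + 4362 * m + 4977 * m ^ 2 + 2376 * m ^ 3 + 405 * m ^ 4) * s ^ 3 +
  (-120 - 342 * m - 297 * m ^ 2 - 81 * m ^ 3) * s ^ 4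

def ww (m : ℚ) : ℚ := 3 * (3 * m + 2) * (3 * m + 4) / (m + 2) ^ 2

def rr (m : ℚ) : ℚ := (m + 1) ^ 2 * (m + 2) * (3 * m + 2) * (3 * m + 4) /
  (m ^ 3 * (3 * m + 5) * (3 * m + 7))

theorem NN_id (m s : ℚ) : -NN m (s + 1) * (m + 2 - s) ^ 3 - NN m s * s ^ 3 =
    (m + 1) ^ 3 * (m + 2) ^ 3 * (m + 2) ^ 2 +
      3 * (3 * m + 2) * (3 * m + 4) * (m + 1 - s) ^ 3 * (m + 2 - s) ^ 3 := by
  rw [NN, NN]; ring

theorem SS_id (m s : ℚ) : -SS m (s + 1) * s ^ 3 - SS m s * (m + 1 - s) ^ 3 =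
    3 * (3 * m + 2) * (3 * m + 4) * ((m + 2 - s) * (m + 1 - s)) ^ 3 * ((3 * m + 5) * (3 * m + 7)) +
      (m + 1) ^ 2 * (m + 2) * (3 * m + 2) * (3 * m + 4) * (m + 1) ^ 3 * (m + 2) ^ 2 := by
  rw [SS, SS]; ring

/-! ### Ratios of binomial coefficients -/

theorem ch_up (n t : ℕ) : (n.choose t : ℚ) * ((n : ℚ) + 1) = ((n + 1).choose t : ℚ) * ((n : ℚ) + 1 - t) := by
  rcases le_or_gt t (n + 1) with h | h
  · have h1 := Nat.choose_mul_succ_eq n t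
    have h2 : ((n.choose t * (n + 1) : ℕ) : ℚ) = (((n + 1).choose t * (n + 1 - t) : ℕ) : ℚ) := by
      rw [h1]
    rw [Nat.cast_mul, Nat.cast_mul, Nat.cast_sub h] at h2
    push_cast at h2
    exact h2
  · rw [Nat.choose_eq_zero_of_lt h, Nat.choose_eq_zero_of_lt (by omega)]; simp

theorem ch_right (n t : ℕ) : (n.choose (t + 1) : ℚ) * ((t : ℚ) + 1) = (n.choose t : ℚ) * ((n : ℚ) - t) := by
  rcases le_or_gt t n with h | h
  · have h1 := Nat.choose_succ_right_eq n t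
    have h2 : ((n.choose (t + 1) * (t + 1) : ℕ) : ℚ) = ((n.choose t * (n - t) : ℕ) : ℚ) := by
      rw [h1]
    rw [Nat.cast_mul, Nat.cast_mul, Nat.cast_sub h] at h2
    push_cast at h2
    exact h2
  · rw [Nat.choose_eq_zero_of_lt h, Nat.choose_eq_zero_of_lt (by omega)]; simp

theorem ch_diag (n t : ℕ) : ((n + 1).choose (t + 1) : ℚ) * ((t : ℚ) + 1) =
    (n.choose t : ℚ) * ((n : ℚ) + 1) := by
  have h1 := Nat.add_one_mul_choose_eq n t
  have h2 : (((n + 1) * n.choose t : ℕ) : ℚ) = (((n + 1).choose (t + 1) * (t + 1) : ℕ) : ℚ) := by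
    rw [h1]
  push_cast at h2
  linear_combination (-1) * h2

/-! ### The first certificate -/

def GS (n s : ℕ) : ℚ := NN ((n : ℚ) + 1) s / ((n : ℚ) + 3) ^ 2 * (s : ℚ) ^ 3 * (-1) ^ s *
  ((n + 3).choose s : ℚ) ^ 3 / (((n : ℚ) + 2) * ((n : ℚ) + 3)) ^ 3

theorem T1 (n s : ℕ) : Us (n + 2) s + ww ((n : ℚ) + 1) * Us n s = GS n s := by
  induction s with
  | zero => rw [Us, Us, GS]; simp
  | succ s ih =>
    have e1 : Us (n + 2) (s + 1) = Us (n + 2) s + (-1) ^ s * ((n + 3).choose s : ℚ) ^ 3 := by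
      rw [Us, Us, sum_range_succ]
    have e2 : Us n (s + 1) = Us n s + (-1) ^ s * ((n + 1).choose s : ℚ) ^ 3 := by
      rw [Us, Us, sum_range_succ]
    have h1 := ch_up (n + 2) s
    have h2 := ch_up (n + 1) s
    have h3 := ch_right (n + 3) s
    have hn2 : (n : ℚ) + 2 ≠ 0 := by positivity
    have hn3 : (n : ℚ) + 3 ≠ 0 := by positivity
    push_cast at h1 h2 h3
    have a1 : ((n + 2).choose s : ℚ) = ((n + 3).choose s : ℚ) * ((n : ℚ) + 3 - s) / (n + 3) := by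
      rw [eq_div_iff hn3]
      rw [show n + 2 + 1 = n + 3 by ring] at h1
      linear_combination h1
    have a2 : ((n + 1).choose s : ℚ) = ((n + 3).choose s : ℚ) * ((n : ℚ) + 3 - s) * ((n : ℚ) + 2 - s) /
        ((n + 2) * (n + 3)) := by
      rw [eq_div_iff (mul_ne_zero hn2 hn3)]
      rw [show n + 1 + 1 = n + 2 by ring, a1] at h2
      field_simp at h2
      linear_combination h2
    have hs1 : (s : ℚ) + 1 ≠ 0 := by positivity
    have a3 : ((n + 3).choose (s + 1) : ℚ) = ((n + 3).choose s : ℚ) * ((n : ℚ) + 3 - s) / (s + 1) := by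
      rw [eq_div_iff hs1, h3]
    have h4 := NN_id ((n : ℚ) + 1) s
    rw [e1, e2]
    have e3 : Us (n + 2) s + (-1) ^ s * ((n + 3).choose s : ℚ) ^ 3 + ww ((n : ℚ) + 1) * (Us n s +
        (-1) ^ s * ((n + 1).choose s : ℚ) ^ 3) = GS n s + ((-1) ^ s * ((n + 3).choose s : ℚ) ^ 3 +
        ww ((n : ℚ) + 1) * ((-1) ^ s * ((n + 1).choose s : ℚ) ^ 3)) := by
      rw [← ih]; ring
    rw [e3, GS, GS, a2, a3, ww, pow_succ (-1 : ℚ) s]
    push_cast
    generalize NN ((n : ℚ) + 1) s = A at h4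
    generalize NN ((n : ℚ) + 1) ((s : ℚ) + 1) = B at h4
    generalize ((n + 3).choose s : ℚ) = C
    generalize (-1 : ℚ) ^ s = e
    rw [show (n : ℚ) + 1 + 2 = n + 3 by ring] at h4 ⊢
    rw [show (n : ℚ) + 1 + 1 = n + 2 by ring] at h4
    field_simp
    linear_combination (-(e * C ^ 3)) * h4

/-! ### The second certificate -/

def BE (n t : ℕ) : ℚ := SS ((n : ℚ) + 1) ((t : ℚ) + 1) / (((n : ℚ) + 1) ^ 3 * ((n : ℚ) + 2) ^ 3 *
    ((n : ℚ) + 3) ^ 2 * (3 * (n : ℚ) + 8) * (3 * (n : ℚ) + 10)) * (-1) ^ (t + 1) *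
    ((n : ℚ) + 1) ^ 3 / ((n + 1).choose t : ℚ) ^ 3

theorem T2 (n t : ℕ) (ht : t ≤ n) : ww ((n : ℚ) + 1) * bb (n + 2) t + rr ((n : ℚ) + 1) * bb n t =
    BE n (t + 1) - BE n t := by
  have h1 := ch_up n t
  have h2 := ch_up (n + 1) t
  have h3 := ch_right (n + 1) t
  have c0 : ((n + 1).choose t : ℚ) ≠ 0 := by
    have := Nat.choose_pos (show t ≤ n + 1 by omega)
    positivity
  have hn1 : (n : ℚ) + 1 ≠ 0 := by positivity
  have hn2 : (n : ℚ) + 2 ≠ 0 := by positivity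
  have hn3 : (n : ℚ) + 3 ≠ 0 := by positivity
  have hn8 : 3 * (n : ℚ) + 8 ≠ 0 := by positivity
  have hn10 : 3 * (n : ℚ) + 10 ≠ 0 := by positivity
  have ht1 : (t : ℚ) + 1 ≠ 0 := by positivity
  have htn : (t : ℚ) ≤ n := by exact_mod_cast ht
  have d1 : (n : ℚ) + 1 - t ≠ 0 := by
    have : (0 : ℚ) < n + 1 - t := by linarith
    exact this.ne'
  have d2 : (n : ℚ) + 2 - t ≠ 0 := by
    have : (0 : ℚ) < n + 2 - t := by linarith
    exact this.ne'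
  push_cast at h1 h2 h3
  have a1 : (n.choose t : ℚ) = ((n + 1).choose t : ℚ) * ((n : ℚ) + 1 - t) / (n + 1) := by
    rw [eq_div_iff hn1, h1]
  have a2 : ((n + 2).choose t : ℚ) = ((n + 1).choose t : ℚ) * ((n : ℚ) + 2) / (n + 2 - t) := by
    rw [eq_div_iff d2]
    rw [show n + 1 + 1 = n + 2 by ring] at h2
    linear_combination (-1) * h2
  have a3 : ((n + 1).choose (t + 1) : ℚ) = ((n + 1).choose t : ℚ) * ((n : ℚ) + 1 - t) / (t + 1) := by
    rw [eq_div_iff ht1, h3]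
  have h4 := SS_id ((n : ℚ) + 1) ((t : ℚ) + 1)
  rw [bb, bb, BE, BE, a1, a2, a3, ww, rr, pow_succ (-1 : ℚ) (t + 1), pow_succ (-1 : ℚ) t]
  push_cast
  generalize SS ((n : ℚ) + 1) ((t : ℚ) + 1) = A at h4 ⊢
  generalize SS ((n : ℚ) + 1) ((t : ℚ) + 1 + 1) = B at h4 ⊢
  generalize ((n + 1).choose t : ℚ) = C at c0
  generalize (-1 : ℚ) ^ t = e
  have f1 : (n : ℚ) + 1 + 2 = n + 3 := by ring
  have f2 : (n : ℚ) + 1 + 1 = n + 2 := by ring
  have f3 : 3 * ((n : ℚ) + 1) + 5 = 3 * n + 8 := by ring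
  have f4 : 3 * ((n : ℚ) + 1) + 7 = 3 * n + 10 := by ring
  have f5 : 3 * ((n : ℚ) + 1) + 2 = 3 * n + 5 := by ring
  have f6 : 3 * ((n : ℚ) + 1) + 4 = 3 * n + 7 := by ring
  simp only [f1, f2, f3, f4, f5, f6] at h4 ⊢
  generalize hx : (n : ℚ) + 1 - t = x at *
  generalize hy : (n : ℚ) + 2 - t = y at *
  have g1 : (n : ℚ) + 2 - ((t : ℚ) + 1) = x := by rw [← hx]; ring
  have g2 : (n : ℚ) + 3 - ((t : ℚ) + 1) = y := by rw [← hy]; ring
  rw [g1, g2] at h4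
  field_simp
  linear_combination e * h4

/-! ### The recurrence -/

theorem Us_odd (n : ℕ) (hn : Even n) : Us n (n + 2) = 0 := by
  have h1 : Us n (n + 2) = -Us n (n + 2) := by
    conv_lhs => rw [Us, ← sum_range_reflect]
    rw [Us, ← sum_neg_distrib]
    refine sum_congr rfl fun j hj => ?_
    have hj' := mem_range.1 hj
    have e1 : n + 2 - 1 - j = n + 1 - j := by omega
    have e2 : (-1 : ℚ) ^ (n + 1 - j) = -(-1) ^ j := by
      have e3 : (-1 : ℚ) ^ (n + 1 - j) * (-1) ^ j = -1 := by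
        rw [← pow_add, show n + 1 - j + j = n + 1 by omega]
        exact hn.add_one.neg_one_pow
      have e4 : ((-1 : ℚ) ^ j) * (-1) ^ j = 1 := by rw [← mul_pow]; norm_num
      linear_combination (-1 : ℚ) ^ j * e3 - (-1 : ℚ) ^ (n + 1 - j) * e4
    rw [e1, e2, Nat.choose_symm (show j ≤ n + 1 by omega)]
    ring
  linarith

theorem GS_term (n t : ℕ) (ht : t ≤ n + 2) : bb (n + 2) t * GS n (t + 1) =
    NN ((n : ℚ) + 1) ((t : ℚ) + 1) / ((n : ℚ) + 3) ^ 2 / ((n : ℚ) + 2) ^ 3 := by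
  have h1 := ch_diag (n + 2) t
  have c0 : ((n + 2).choose t : ℚ) ≠ 0 := by
    have := Nat.choose_pos ht
    positivity
  have hn2 : (n : ℚ) + 2 ≠ 0 := by positivity
  have hn3 : (n : ℚ) + 3 ≠ 0 := by positivity
  have ht1 : (t : ℚ) + 1 ≠ 0 := by positivity
  have a1 : ((n + 3).choose (t + 1) : ℚ) = ((n + 2).choose t : ℚ) * ((n : ℚ) + 3) / (t + 1) := by
    rw [eq_div_iff ht1]
    rw [show n + 2 + 1 = n + 3 by ring] at h1
    push_cast at h1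
    linear_combination h1
  rw [bb, GS, a1]
  push_cast
  generalize NN ((n : ℚ) + 1) ((t : ℚ) + 1) = A
  have e4 : ((-1 : ℚ) ^ (t + 1)) * (-1) ^ (t + 1) = 1 := by rw [← mul_pow]; norm_num
  generalize (-1 : ℚ) ^ (t + 1) = e at e4 ⊢
  field_simp
  linear_combination A * e4

theorem abel (β U a : ℕ → ℚ) (h0 : U 0 = 0) (hU : ∀ t, U (t + 1) = U t + a t) (T : ℕ) :
    ∑ t ∈ range T, (β (t + 1) - β t) * U (t + 1) = β T * U T - ∑ t ∈ range T, β t * a t := by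
  induction T with
  | zero => simp [h0]
  | succ T ih =>
    rw [sum_range_succ, sum_range_succ, ih, hU T]
    ring

theorem BE_term (n t : ℕ) (ht : t ≤ n + 1) : BE n t * ((-1) ^ t * ((n + 1).choose t : ℚ) ^ 3) =
    -(SS ((n : ℚ) + 1) ((t : ℚ) + 1) / (((n : ℚ) + 2) ^ 3 *
    ((n : ℚ) + 3) ^ 2 * (3 * (n : ℚ) + 8) * (3 * (n : ℚ) + 10))) := by
  have c0 : ((n + 1).choose t : ℚ) ≠ 0 := by
    have := Nat.choose_pos ht
    positivity
  have hn1 : (n : ℚ) + 1 ≠ 0 := by positivity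
  have hn2 : (n : ℚ) + 2 ≠ 0 := by positivity
  have hn3 : (n : ℚ) + 3 ≠ 0 := by positivity
  have hn8 : 3 * (n : ℚ) + 8 ≠ 0 := by positivity
  have hn10 : 3 * (n : ℚ) + 10 ≠ 0 := by positivity
  rw [BE, pow_succ (-1 : ℚ) t]
  have e4 : ((-1 : ℚ) ^ t) * (-1) ^ t = 1 := by rw [← mul_pow]; norm_num
  generalize SS ((n : ℚ) + 1) ((t : ℚ) + 1) = A
  generalize (-1 : ℚ) ^ t = e at e4 ⊢
  field_simp
  linear_combination (-A) * e4

theorem p1 (T : ℕ) : ∑ t ∈ range T, ((t : ℚ) + 1) = (T : ℚ) * (T + 1) / 2 := by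
  induction T with
  | zero => simp
  | succ T ih => rw [sum_range_succ, ih]; push_cast; ring

theorem p2 (T : ℕ) : ∑ t ∈ range T, ((t : ℚ) + 1) ^ 2 = (T : ℚ) * ((T : ℚ) + 1) * (2 * (T : ℚ) + 1) / 6 := by
  induction T with
  | zero => simp
  | succ T ih => rw [sum_range_succ, ih]; push_cast; ring

theorem p3 (T : ℕ) : ∑ t ∈ range T, ((t : ℚ) + 1) ^ 3 = ((T : ℚ) * ((T : ℚ) + 1) / 2) ^ 2 := by
  induction T with
  | zero => simp
  | succ T ih => rw [sum_range_succ, ih]; push_cast; ring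

theorem p4 (T : ℕ) : ∑ t ∈ range T, ((t : ℚ) + 1) ^ 4 =
    (T : ℚ) * ((T : ℚ) + 1) * (2 * (T : ℚ) + 1) * (3 * (T : ℚ) ^ 2 + 3 * (T : ℚ) - 1) / 30 := by
  induction T with
  | zero => simp
  | succ T ih => rw [sum_range_succ, ih]; push_cast; ring

theorem poly_sum (c0 c1 c2 c3 c4 : ℚ) (T : ℕ) : ∑ t ∈ range T, (c0 + c1 * ((t : ℚ) + 1) +
    c2 * ((t : ℚ) + 1) ^ 2 + c3 * ((t : ℚ) + 1) ^ 3 + c4 * ((t : ℚ) + 1) ^ 4) =
    c0 * T + c1 * (T * (T + 1) / 2) + c2 * (T * (T + 1) * (2 * T + 1) / 6) +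
      c3 * (T * (T + 1) / 2) ^ 2 + c4 * (T * (T + 1) * (2 * T + 1) * (3 * T ^ 2 + 3 * T - 1) / 30) := by
  rw [sum_add_distrib, sum_add_distrib, sum_add_distrib, sum_add_distrib, ← mul_sum, ← mul_sum,
    ← mul_sum, ← mul_sum, p1, p2, p3, p4, sum_const, card_range, nsmul_eq_mul]
  ring

theorem bracket (n : ℕ) : ∑ t ∈ range (n + 3), NN ((n : ℚ) + 1) ((t : ℚ) + 1) / ((n : ℚ) + 3) ^ 2 /
    ((n : ℚ) + 2) ^ 3 = ∑ t ∈ range (n + 2), SS ((n : ℚ) + 1) ((t : ℚ) + 1) / (((n : ℚ) + 2) ^ 3 *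
    ((n : ℚ) + 3) ^ 2 * (3 * (n : ℚ) + 8) * (3 * (n : ℚ) + 10)) := by
  have hn2 : (n : ℚ) + 2 ≠ 0 := by positivity
  have hn3 : (n : ℚ) + 3 ≠ 0 := by positivity
  have hn8 : 3 * (n : ℚ) + 8 ≠ 0 := by positivity
  have hn10 : 3 * (n : ℚ) + 10 ≠ 0 := by positivity
  rw [← sum_div, ← sum_div, ← sum_div]
  simp only [NN, SS]
  rw [poly_sum, poly_sum]
  push_cast
  field_simp
  ring

theorem AA_rec (n : ℕ) (hn : Even n) : AA (n + 2) = rr ((n : ℚ) + 1) * AA n := by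
  have hz := Us_odd n hn
  have hz1 : Us n (n + 3) = 0 := by
    have : Us n (n + 3) = Us n (n + 2) + (-1) ^ (n + 2) * ((n + 1).choose (n + 2) : ℚ) ^ 3 := by
      rw [Us, Us, sum_range_succ]
    rw [this, hz, Nat.choose_succ_self]; simp
  have hz2 : Us n (n + 2) = Us n (n + 1) + (-1) ^ (n + 1) * ((n + 1).choose (n + 1) : ℚ) ^ 3 := by
    rw [Us, Us, sum_range_succ]
  have h1 : AA (n + 2) = ∑ t ∈ range (n + 3), NN ((n : ℚ) + 1) ((t : ℚ) + 1) / ((n : ℚ) + 3) ^ 2 /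
      ((n : ℚ) + 2) ^ 3 - ∑ t ∈ range (n + 3), ww ((n : ℚ) + 1) * bb (n + 2) t * Us n (t + 1) := by
    rw [AA, ← sum_sub_distrib]
    refine sum_congr rfl fun t ht => ?_
    have ht' := mem_range.1 ht
    rw [← GS_term n t (by omega), ← T1 n (t + 1)]
    ring
  have h2 : ∑ t ∈ range (n + 3), ww ((n : ℚ) + 1) * bb (n + 2) t * Us n (t + 1) =
      ∑ t ∈ range (n + 1), ww ((n : ℚ) + 1) * bb (n + 2) t * Us n (t + 1) := by
    rw [sum_range_succ, sum_range_succ, show n + 1 + 1 = n + 2 by ring,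
      show n + 2 + 1 = n + 3 by ring, hz, hz1]
    ring
  have h3 : ∑ t ∈ range (n + 1), ww ((n : ℚ) + 1) * bb (n + 2) t * Us n (t + 1) =
      ∑ t ∈ range (n + 1), (BE n (t + 1) - BE n t) * Us n (t + 1) - rr ((n : ℚ) + 1) * AA n := by
    rw [AA, mul_sum, ← sum_sub_distrib]
    refine sum_congr rfl fun t ht => ?_
    have ht' := mem_range.1 ht
    rw [← T2 n t (by omega)]
    ring
  have h4 := abel (BE n) (Us n) (fun t => (-1) ^ t * ((n + 1).choose t : ℚ) ^ 3) (by simp [Us])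
    (fun t => by rw [Us, Us, sum_range_succ]) (n + 1)
  have h5 : ∑ t ∈ range (n + 2), SS ((n : ℚ) + 1) ((t : ℚ) + 1) / (((n : ℚ) + 2) ^ 3 *
      ((n : ℚ) + 3) ^ 2 * (3 * (n : ℚ) + 8) * (3 * (n : ℚ) + 10)) =
      -∑ t ∈ range (n + 2), BE n t * ((-1) ^ t * ((n + 1).choose t : ℚ) ^ 3) := by
    rw [← sum_neg_distrib]
    refine sum_congr rfl fun t ht => ?_
    have ht' := mem_range.1 ht
    rw [BE_term n t (by omega)]
    ring
  rw [h1, h2, h3, h4, bracket, h5, sum_range_succ _ (n + 1)]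
  have h6 : Us n (n + 1) = -((-1) ^ (n + 1) * ((n + 1).choose (n + 1) : ℚ) ^ 3) := by
    linear_combination hz - hz2
  rw [h6]
  ring

theorem AA_prod (K : ℕ) : AA (2 * K) = -∏ i ∈ range K, rr (2 * (i : ℚ) + 1) := by
  induction K with
  | zero => simp [AA, bb, Us]
  | succ K ih =>
    have h := AA_rec (2 * K) (even_two_mul K)
    rw [show 2 * (K + 1) = 2 * K + 2 by ring, h, ih, prod_range_succ]
    push_cast
    ring

end Pool.Agent.R439.W3
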