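import Mathlib
import Pool.Agent.R439.S4A
import Pool.Agent.R439.PLoc

set_option autoImplicit false

/-!
Congruences modulo `p` and `p^2` for harmonic type sums up to `m = (p-1)/2`.
-/

namespace Pool.Agent.R439.PL.S4

open Finset Pool.Agent.R439.S4

/-! ### The numbers `m!^2/((m-e)!(m+e)!)` -/

def kap (m e : ℕ) : ℚ := ∏ i ∈ range e, (((m : ℚ) - i) / (m + 1 + i))

theorem kap_zero (m : ℕ) : kap m 0 = 1 := by simp [kap]

theorem kap_succ (m e : ℕ) : kap m (e + 1) = kap m e * (((m : ℚ) - e) / (m + 1 + e)) :=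
  prod_range_succ _ _

theorem kap_rec (m e : ℕ) : kap m e * (m + 1) ^ 2 = kap (m + 1) e * ((m + 1) ^ 2 - (e : ℚ) ^ 2) := by
  induction e with
  | zero => simp [kap_zero]
  | succ e ih =>
    rw [kap_succ, kap_succ]
    have h1 : (m : ℚ) + 1 + e ≠ 0 := by positivity
    have h2 : (m : ℚ) + 1 + 1 + e ≠ 0 := by positivity
    push_cast
    field_simp
    linear_combination ((m : ℚ) + 1 + 1 + e) * (m - e) * ih

theorem kap_top (m : ℕ) : kap m (m + 1) = 0 := by rw [kap_succ]; simp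

theorem kap_alt (m : ℕ) (hm : 0 < m) (M : ℕ) : ∑ e ∈ range M, (-1) ^ (e + 1) * kap m (e + 1) =
    (-1) ^ M * (kap m M * ((m : ℚ) - M) / (2 * m)) - 1 / 2 := by
  have h0 : (m : ℚ) ≠ 0 := by positivity
  induction M with
  | zero => rw [kap_zero]; simp; field_simp; ring
  | succ M ih =>
    rw [sum_range_succ, ih, kap_succ]
    have h1 : (m : ℚ) + 1 + M ≠ 0 := by positivity
    rw [pow_succ]
    push_cast
    field_simp
    ring

theorem kap_sum (m : ℕ) (hm : 0 < m) : 2 * ∑ e ∈ range m, (-1) ^ (e + 1) * kap m (e + 1) = -1 := by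
  rw [kap_alt m hm m]; ring

theorem J_zero (m : ℕ) : ∑ e ∈ range m, 1 / ((e : ℚ) + 1) ^ 2 +
    2 * ∑ e ∈ range m, (-1) ^ (e + 1) * kap m (e + 1) / ((e : ℚ) + 1) ^ 2 = 0 := by
  induction m with
  | zero => simp
  | succ m ih =>
    have h1 : ∀ e ∈ range (m + 1), (-1 : ℚ) ^ (e + 1) * kap (m + 1) (e + 1) / ((e : ℚ) + 1) ^ 2 =
        (-1) ^ (e + 1) * kap m (e + 1) / ((e : ℚ) + 1) ^ 2 +
        (-1) ^ (e + 1) * kap (m + 1) (e + 1) * (1 / ((m : ℚ) + 1) ^ 2) := by
      intro e _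
      have h2 := kap_rec m (e + 1)
      have h3 : ((e : ℚ) + 1) ≠ 0 := by positivity
      have h4 : ((m : ℚ) + 1) ≠ 0 := by positivity
      push_cast at h2
      field_simp
      linear_combination (-1) * h2
    rw [sum_congr rfl h1, sum_add_distrib, ← sum_mul, sum_range_succ (fun e : ℕ =>
      (-1 : ℚ) ^ (e + 1) * kap m (e + 1) / ((e : ℚ) + 1) ^ 2) m, kap_top, sum_range_succ
      (fun e : ℕ => 1 / ((e : ℚ) + 1) ^ 2) m]
    have h5 := kap_sum (m + 1) (Nat.succ_pos m)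
    linear_combination ih + (1 / ((m : ℚ) + 1) ^ 2) * h5

theorem kap_fac (m e : ℕ) (he : e ≤ m) :
    kap m e * ((m - e).factorial * (m + e).factorial) = (m.factorial : ℚ) ^ 2 := by
  induction e with
  | zero => rw [kap_zero, Nat.sub_zero, add_zero]; ring
  | succ e ih =>
    have ih := ih (by omega)
    obtain ⟨t, ht⟩ : ∃ t, m = e + 1 + t := ⟨m - (e + 1), by omega⟩
    have h1 : m - (e + 1) = t := by omega
    have h2 : m - e = t + 1 := by omega
    rw [h2, Nat.factorial_succ] at ih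
    rw [h1, kap_succ, ← add_assoc, Nat.factorial_succ]
    have h3 : (m : ℚ) + 1 + e ≠ 0 := by positivity
    have h4 : (m : ℚ) - e = t + 1 := by rw [ht]; push_cast; ring
    rw [h4]
    push_cast at ih ⊢
    have h5 : (m : ℚ) + e + 1 = m + 1 + e := by ring
    rw [h5]
    field_simp
    linear_combination ih

/-! ### The telescoping sum -/

def aa (k y : ℕ) : ℚ := (-1) ^ k * (k.factorial : ℚ) ^ 2 * (y - k).factorial /
  ((k : ℚ) ^ 3 * (y + k).factorial)

theorem aa_diff (k t : ℕ) : aa (k + 1) (k + 2 + t) - aa (k + 1) (k + 1 + t) =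
    2 * (-1) ^ k * (k.factorial : ℚ) ^ 2 * t.factorial / (2 * k + 3 + t).factorial := by
  have e1 : k + 2 + t - (k + 1) = t + 1 := by omega
  have e2 : k + 1 + t - (k + 1) = t := by omega
  have e3 : k + 2 + t + (k + 1) = (2 * k + 2 + t) + 1 := by ring
  have e4 : k + 1 + t + (k + 1) = 2 * k + 2 + t := by ring
  have e5 : 2 * k + 3 + t = (2 * k + 2 + t) + 1 := by ring
  rw [aa, aa, e1, e2, e3, e4, e5, Nat.factorial_succ (2 * k + 2 + t), Nat.factorial_succ k,
    Nat.factorial_succ t, pow_succ]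
  have h1 : ((2 * k + 2 + t).factorial : ℚ) ≠ 0 := by positivity
  have h2 : ((k : ℚ) + 1) ≠ 0 := by positivity
  have h3 : (2 * (k : ℚ) + 2 + t + 1) ≠ 0 := by positivity
  push_cast
  generalize ((2 * k + 2 + t).factorial : ℚ) = f at h1
  field_simp
  ring

theorem aa_sum (y K : ℕ) (h : K < y) : ∑ k ∈ range K, (aa (k + 1) y - aa (k + 1) (y - 1)) =
    2 / (y : ℚ) ^ 3 - 2 * (-1) ^ K * (K.factorial : ℚ) ^ 2 * (y - K - 1).factorial /
      ((y : ℚ) ^ 2 * (y + K).factorial) := by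
  have hy : (y : ℚ) ≠ 0 := by
    have : 0 < y := by omega
    positivity
  induction K with
  | zero =>
    obtain ⟨z, rfl⟩ : ∃ z, y = z + 1 := ⟨y - 1, by omega⟩
    rw [sum_range_zero, Nat.sub_zero, add_zero, Nat.add_sub_cancel, Nat.factorial_succ]
    have h1 : (z.factorial : ℚ) ≠ 0 := by positivity
    have h2 : (z : ℚ) + 1 ≠ 0 := by positivity
    push_cast
    simp only [pow_zero, Nat.factorial_zero, Nat.cast_one, one_pow]
    field_simp
    ring
  | succ K ih =>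
    have ih := ih (by omega)
    obtain ⟨t, ht⟩ : ∃ t, y = K + 2 + t := ⟨y - (K + 2), by omega⟩
    have e1 : y - 1 = K + 1 + t := by omega
    have e2 : y - K - 1 = t + 1 := by omega
    have e3 : y - (K + 1) - 1 = t := by omega
    have e4 : 2 * K + 3 + t = y + K + 1 := by omega
    have e5 : y + (K + 1) = y + K + 1 := by ring
    rw [sum_range_succ, ih]
    have h1 := aa_diff K t
    rw [← ht, ← e1, e4] at h1
    rw [h1, e2, e3, e5, Nat.factorial_succ (y + K), Nat.factorial_succ t, Nat.factorial_succ K,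
      pow_succ]
    have h2 : ((y + K).factorial : ℚ) ≠ 0 := by positivity
    have h3 : ((y : ℚ) + K + 1) ≠ 0 := by positivity
    have h4 : (t : ℚ) = y - K - 2 := by rw [ht]; push_cast; ring
    push_cast
    rw [h4]
    generalize ((y + K).factorial : ℚ) = f at h2
    field_simp
    ring

/-- the difference of the sums at `2m` and at `m` -/
theorem AA_diff (m : ℕ) : ∑ k ∈ range m, aa (k + 1) (2 * m) - ∑ k ∈ range m, aa (k + 1) m =
    ∑ l ∈ range m, (2 / ((m : ℚ) + 1 + l) ^ 3 - 2 * (-1) ^ m * (m.factorial : ℚ) ^ 2 *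
      l.factorial / (((m : ℚ) + 1 + l) ^ 2 * (2 * m + 1 + l).factorial)) := by
  have h1 : ∀ L : ℕ, ∑ k ∈ range m, aa (k + 1) (m + L) - ∑ k ∈ range m, aa (k + 1) m =
      ∑ l ∈ range L, (2 / ((m : ℚ) + 1 + l) ^ 3 - 2 * (-1) ^ m * (m.factorial : ℚ) ^ 2 *
        l.factorial / (((m : ℚ) + 1 + l) ^ 2 * (2 * m + 1 + l).factorial)) := by
    intro L
    induction L with
    | zero => simp
    | succ L ih =>
      rw [sum_range_succ (n := L), ← ih]
      have h2 := aa_sum (m + (L + 1)) m (by omega)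
      have e1 : m + (L + 1) - 1 = m + L := by omega
      have e2 : m + (L + 1) - m - 1 = L := by omega
      have e3 : m + (L + 1) + m = 2 * m + 1 + L := by ring
      rw [e1, e2, e3, sum_sub_distrib] at h2
      have e4 : ((m + (L + 1) : ℕ) : ℚ) = m + 1 + L := by push_cast; ring
      rw [e4] at h2
      linear_combination h2
  have := h1 m
  rwa [← two_mul] at this

/-! ### Local expansions -/

variable {p m : ℕ} [hp : Fact p.Prime]

theorem U_nat {k : ℕ} (h0 : 0 < k) (h : k < p) : U p (k : ℚ) := by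
  have := U_int (p := p) (a := (k : ℤ)) (fun h1 => by
    have h2 : p ∣ k := by exact_mod_cast h1
    exact absurd (Nat.le_of_dvd h0 h2) (by omega))
  exact_mod_cast this

theorem U_nat' {k : ℕ} (h : ¬ p ∣ k) : U p (k : ℚ) := by
  have := U_int (p := p) (a := (k : ℤ)) (fun h1 => h (by exact_mod_cast h1))
  exact_mod_cast this

theorem U_fac {k : ℕ} (h : k < p) : U p (k.factorial : ℚ) := by
  refine U_nat' fun h1 => ?_
  exact absurd ((hp.out.dvd_factorial).1 h1) (by omega)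

/-- `∏_{i ≤ s} (1 - p²/i²)` -/
def prs (p s : ℕ) : ℚ := ∏ i ∈ range s, (1 - (p : ℚ) ^ 2 / ((i : ℚ) + 1) ^ 2)

omit hp in
theorem prs_fac (s : ℕ) (hs : s < p) : ((p + s).factorial : ℚ) =
    (p - 1 - s).factorial * p * ((-1) ^ s * (s.factorial : ℚ) ^ 2 * prs p s) := by
  induction s with
  | zero =>
    obtain ⟨t, ht⟩ : ∃ t, p = t + 1 := ⟨p - 1, by omega⟩
    rw [ht, Nat.add_sub_cancel, add_zero, Nat.sub_zero, Nat.factorial_succ]
    simp [prs]; ring
  | succ s ih =>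
    have ih := ih (by omega)
    obtain ⟨t, ht⟩ : ∃ t, p = s + 2 + t := ⟨p - (s + 2), by omega⟩
    have e1 : p - 1 - s = t + 1 := by omega
    have e2 : p - 1 - (s + 1) = t := by omega
    have e3 : p + (s + 1) = p + s + 1 := by ring
    rw [e1, Nat.factorial_succ t] at ih
    rw [e2, e3, Nat.factorial_succ, prs, prod_range_succ, ← prs, Nat.factorial_succ s, pow_succ]
    have h1 : (t : ℚ) = p - s - 2 := by rw [ht]; push_cast; ring
    push_cast at ih ⊢
    rw [ih, h1]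
    have h2 : ((s : ℚ) + 1) ≠ 0 := by positivity
    field_simp
    ring

theorem prs_eq {s : ℕ} (hs : s < p) : EQ p 2 (prs p s) 1 := by
  have h : EQ p 2 (prs p s) (∏ i ∈ range s, (1 : ℚ)) := by
    refine EQ.prod fun i hi => ?_
    have hi' := mem_range.1 hi
    have hu := U_nat (p := p) (k := i + 1) (by omega) (by omega)
    have h1 : I p 2 ((p : ℚ) ^ 2 / ((i : ℚ) + 1) ^ 2) := by
      refine ⟨(((i + 1 : ℕ) : ℚ) ^ 2)⁻¹, (hu.pow 2).2.2, ?_⟩
      push_cast; rfl
    exact ⟨sub_mem (one_mem _) h1.mem, one_mem _, by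
      have : 1 - (p : ℚ) ^ 2 / ((i : ℚ) + 1) ^ 2 - 1 = -((p : ℚ) ^ 2 / ((i : ℚ) + 1) ^ 2) := by ring
      rw [this]; exact h1.neg⟩
  rwa [prod_const_one] at h

theorem prs_U {s : ℕ} (hs : s < p) : U p (prs p s) := ((prs_eq hs).symm).unit two_pos U.one

/-- the sum at `2m = p - 1` -/
theorem aa_2m (hpm : p = 2 * m + 1) {k : ℕ} (hk : k < m) :
    p * aa (k + 1) (2 * m) = -1 / (((k : ℚ) + 1) * (p - ((k : ℚ) + 1)) * prs p k) := by
  have h1 := prs_fac (p := p) k (by omega)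
  obtain ⟨t, ht⟩ : ∃ t, p = k + 2 + t := ⟨p - (k + 2), by omega⟩
  have e1 : p - 1 - k = t + 1 := by omega
  have e2 : 2 * m - (k + 1) = t := by omega
  have e3 : 2 * m + (k + 1) = p + k := by omega
  have hu := (prs_U (p := p) (s := k) (by omega)).1
  rw [aa, e2, e3, h1, e1, Nat.factorial_succ t, Nat.factorial_succ k, pow_succ]
  have h2 : (t.factorial : ℚ) ≠ 0 := by positivity
  have h3 : (k.factorial : ℚ) ≠ 0 := by positivity
  have h4 : ((k : ℚ) + 1) ≠ 0 := by positivity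
  have h5 : ((t : ℚ) + 1) ≠ 0 := by positivity
  have h6 : (p : ℚ) - ((k : ℚ) + 1) = t + 1 := by rw [ht]; push_cast; ring
  have h7 := p_ne (p := p)
  rw [h6]
  push_cast
  generalize prs p k = w at hu
  generalize (p : ℚ) = P at h7
  field_simp

theorem e1 {k : ℕ} (hk0 : 0 < k) (hk : k < p) :
    EQ p 2 (-1 / ((k : ℚ) * (p - k))) (1 / (k : ℚ) ^ 2 + p / (k : ℚ) ^ 3) := by
  have u1 := U_nat (p := p) hk0 hk
  have u2 := U_nat (p := p) (k := p - k) (by omega) (by omega)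
  have h1 : ((p - k : ℕ) : ℚ) = p - k := by rw [Nat.cast_sub (by omega)]
  rw [h1] at u2
  have m1 : -1 / ((k : ℚ) * (p - k)) ∈ Zp p := by
    have := neg_mem (u1.mul u2).2.2
    rwa [← one_div, ← neg_div] at this
  have m2 : 1 / (k : ℚ) ^ 2 ∈ Zp p := by rw [one_div]; exact (u1.pow 2).2.2
  have m3 : (p : ℚ) / (k : ℚ) ^ 3 ∈ Zp p := by
    rw [div_eq_mul_inv]; exact mul_mem p_mem (u1.pow 3).2.2
  refine ⟨m1, add_mem m2 m3, -1 / ((k : ℚ) ^ 3 * (p - k)), ?_, ?_⟩
  · have := neg_mem ((u1.pow 3).mul u2).2.2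
    rwa [← one_div, ← neg_div] at this
  · have h2 := u1.1
    have h3 := u2.1
    field_simp
    ring

theorem e2 {k : ℕ} (hk0 : 0 < k) (hk : k < p) :
    EQ p 1 (1 / ((p : ℚ) - k) ^ 3) (-1 / (k : ℚ) ^ 3) := by
  have u1 := U_nat (p := p) hk0 hk
  have u2 := U_nat (p := p) (k := p - k) (by omega) (by omega)
  have h1 : ((p - k : ℕ) : ℚ) = p - k := by rw [Nat.cast_sub (by omega)]
  rw [h1] at u2
  refine ⟨by rw [one_div]; exact (u2.pow 3).2.2, ?_, ((p : ℚ) ^ 2 - 3 * p * k + 3 * k ^ 2) /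
    ((k : ℚ) ^ 3 * (p - k) ^ 3), ?_, ?_⟩
  · have := neg_mem (u1.pow 3).2.2
    rwa [← one_div, ← neg_div] at this
  · rw [div_eq_mul_inv]
    refine mul_mem (add_mem (sub_mem (pow_mem p_mem _) (mul_mem (mul_mem ?_ p_mem) (nat_mem k)))
      (mul_mem ?_ (pow_mem (nat_mem k) _))) ((u1.pow 3).mul (u2.pow 3)).2.2
    · exact_mod_cast nat_mem (p := p) 3
    · exact_mod_cast nat_mem (p := p) 3
  · have h2 := u1.1
    have h3 := u2.1
    field_simp
    ring

theorem e3 {k : ℕ} (hk0 : 0 < k) (hk : k < p) :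
    EQ p 2 (1 / ((p : ℚ) - k) ^ 2) (1 / (k : ℚ) ^ 2 + 2 * p / (k : ℚ) ^ 3) := by
  have u1 := U_nat (p := p) hk0 hk
  have u2 := U_nat (p := p) (k := p - k) (by omega) (by omega)
  have h1 : ((p - k : ℕ) : ℚ) = p - k := by rw [Nat.cast_sub (by omega)]
  rw [h1] at u2
  have n2 : (2 : ℚ) ∈ Zp p := by exact_mod_cast nat_mem (p := p) 2
  have n3 : (3 : ℚ) ∈ Zp p := by exact_mod_cast nat_mem (p := p) 3
  refine ⟨by rw [one_div]; exact (u2.pow 2).2.2, add_mem ?_ ?_, (3 * (k : ℚ) - 2 * p) /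
    ((k : ℚ) ^ 3 * (p - k) ^ 2), ?_, ?_⟩
  · rw [one_div]; exact (u1.pow 2).2.2
  · rw [div_eq_mul_inv]; exact mul_mem (mul_mem n2 p_mem) (u1.pow 3).2.2
  · rw [div_eq_mul_inv]
    exact mul_mem (sub_mem (mul_mem n3 (nat_mem k)) (mul_mem n2 p_mem))
      ((u1.pow 3).mul (u2.pow 2)).2.2
  · have h2 := u1.1
    have h3 := u2.1
    field_simp
    ring

theorem kap_one (hpm : p = 2 * m + 1) {e : ℕ} (he : e ≤ m) : EQ p 1 (kap m e) ((-1) ^ e) := by
  have h : EQ p 1 (kap m e) (∏ _i ∈ range e, (-1 : ℚ)) := by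
    refine EQ.prod fun i hi => ?_
    have hi' := mem_range.1 hi
    have hu := U_nat (p := p) (k := m + 1 + i) (by omega) (by omega)
    have h1 : ((m + 1 + i : ℕ) : ℚ) = m + 1 + i := by push_cast; ring
    rw [h1] at hu
    have h2 : ((m : ℚ) - i) ∈ Zp p := sub_mem (nat_mem m) (nat_mem i)
    refine ⟨by rw [div_eq_mul_inv]; exact mul_mem h2 hu.2.2, neg_mem (one_mem _), ?_⟩
    refine ⟨((m : ℚ) + 1 + i)⁻¹, hu.2.2, ?_⟩
    have h3 := hu.1
    have h4 : (p : ℚ) = 2 * m + 1 := by exact_mod_cast hpm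
    rw [h4]
    field_simp
    ring
  rwa [prod_const, card_range] at h

end Pool.Agent.R439.PL.S4
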