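import Mathlib
import Pool.Agent.R439.S4C

set_option autoImplicit false

/-!
The sum `∑ 16^j/((2j+1)^3 C(2j,j)^2)` and half harmonic sums modulo `p`.
-/

namespace Pool.Agent.R439.PL.S4

open Finset Pool.Agent.R439.S4

variable {p m : ℕ} [hp : Fact p.Prime]

/-- half harmonic sums -/
def HH (m s : ℕ) : ℚ := ∑ i ∈ range m, 1 / ((i : ℚ) + 1) ^ s

/-- the sum with reciprocals of products of binomial coefficients -/
def WW (m : ℕ) : ℚ := ∑ k ∈ range m, aa (k + 1) m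

theorem HH_mem (hpm : p = 2 * m + 1) (s : ℕ) : HH m s ∈ Zp p := by
  refine sum_mem fun i hi => ?_
  have hi' := mem_range.1 hi
  have hu := U_nat (p := p) (k := i + 1) (by omega) (by omega)
  rw [one_div]
  have := (hu.pow s).2.2
  push_cast at this
  exact this

theorem n2 : (2 : ℚ) ∈ Zp p := by exact_mod_cast nat_mem (p := p) 2
theorem n3 : (3 : ℚ) ∈ Zp p := by exact_mod_cast nat_mem (p := p) 3

/-- the term of the telescoping sum -/
theorem dd_term (hpm : p = 2 * m + 1) {e : ℕ} (he : e < m) :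
    p * (2 * (-1) ^ m * (m.factorial : ℚ) ^ 2 * (m - 1 - e).factorial /
      (((m : ℚ) + 1 + (m - 1 - e : ℕ)) ^ 2 * (2 * m + 1 + (m - 1 - e)).factorial)) =
    2 * ((-1) ^ (e + 1) * kap m (e + 1)) / (((p : ℚ) - (e + 1)) ^ 2 * prs p (m - 1 - e)) := by
  obtain ⟨t, ht⟩ : ∃ t, m = e + 1 + t := ⟨m - (e + 1), by omega⟩
  have a1 : m - 1 - e = t := by omega
  rw [a1]
  have h1 := prs_fac (p := p) t (by omega)
  have a2 : p - 1 - t = m + (e + 1) := by omega
  have a3 : 2 * m + 1 + t = p + t := by omega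
  have h2 := kap_fac m (e + 1) (by omega)
  have a4 : m - (e + 1) = t := by omega
  rw [a4] at h2
  rw [a2] at h1
  rw [a3, h1]
  have h3 : (m : ℚ) + 1 + t = p - (e + 1) := by
    rw [hpm, ht]; push_cast; ring
  rw [h3, ← h2]
  have h4 := (prs_U (p := p) (s := t) (by omega)).1
  have h5 : ((m + (e + 1)).factorial : ℚ) ≠ 0 := by positivity
  have h6 : (t.factorial : ℚ) ≠ 0 := by positivity
  have h7 := p_ne (p := p)
  have h8 : (p : ℚ) - (e + 1) ≠ 0 := by
    rw [← h3]; positivity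
  have h9 : (-1 : ℚ) ^ m = (-1) ^ (e + 1) * (-1) ^ t := by rw [← pow_add, ← ht]
  have h10 : ((-1 : ℚ) ^ t) ≠ 0 := pow_ne_zero _ (by norm_num)
  rw [h9]
  generalize (-1 : ℚ) ^ t = s at h10
  generalize (-1 : ℚ) ^ (e + 1) = s'
  generalize kap m (e + 1) = κ
  generalize prs p t = w at h4
  generalize ((m + (e + 1)).factorial : ℚ) = f at h5
  generalize (t.factorial : ℚ) = g at h6
  generalize (p : ℚ) - (e + 1) = y at h8
  generalize (p : ℚ) = P at h7
  field_simp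

/-- `p W` in terms of simple sums -/
theorem pW_eq (hpm : p = 2 * m + 1) : p * WW m =
    ∑ k ∈ range m, -1 / (((k : ℚ) + 1) * (p - ((k : ℚ) + 1)) * prs p k) -
    p * ∑ e ∈ range m, 2 / ((p : ℚ) - (e + 1)) ^ 3 +
    ∑ e ∈ range m, 2 * ((-1) ^ (e + 1) * kap m (e + 1)) /
      (((p : ℚ) - (e + 1)) ^ 2 * prs p (m - 1 - e)) := by
  have h1 := AA_diff m
  rw [← sum_range_reflect (fun l : ℕ => (2 / ((m : ℚ) + 1 + l) ^ 3 -
    2 * (-1) ^ m * (m.factorial : ℚ) ^ 2 *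
      l.factorial / (((m : ℚ) + 1 + l) ^ 2 * (2 * m + 1 + l).factorial))) m, sum_sub_distrib] at h1
  have h2 : ∑ k ∈ range m, -1 / (((k : ℚ) + 1) * (p - ((k : ℚ) + 1)) * prs p k) =
      p * ∑ k ∈ range m, aa (k + 1) (2 * m) := by
    rw [mul_sum]
    exact sum_congr rfl fun k hk => (aa_2m hpm (mem_range.1 hk)).symm
  have h3 : ∑ e ∈ range m, 2 * ((-1) ^ (e + 1) * kap m (e + 1)) /
      (((p : ℚ) - (e + 1)) ^ 2 * prs p (m - 1 - e)) = (p : ℚ) * ∑ e ∈ range m,
      (2 * (-1) ^ m * (m.factorial : ℚ) ^ 2 * (m - 1 - e).factorial /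
      (((m : ℚ) + 1 + (m - 1 - e : ℕ)) ^ 2 * (2 * m + 1 + (m - 1 - e)).factorial)) := by
    rw [mul_sum]
    exact sum_congr rfl fun k hk => (dd_term hpm (mem_range.1 hk)).symm
  have h4 : ∑ e ∈ range m, 2 / ((p : ℚ) - (e + 1)) ^ 3 =
      ∑ e ∈ range m, 2 / ((m : ℚ) + 1 + (m - 1 - e : ℕ)) ^ 3 := by
    refine sum_congr rfl fun e he => ?_
    have := mem_range.1 he
    have h5 : (m : ℚ) + 1 + (m - 1 - e : ℕ) = p - (e + 1) := by
      rw [Nat.cast_sub (by omega), Nat.cast_sub (by omega), hpm]; push_cast; ring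
    rw [h5]
  rw [h2, h3, h4, WW]
  linear_combination (-(p : ℚ)) * h1

theorem WW_mem (hpm : p = 2 * m + 1) : WW m ∈ Zp p := by
  refine sum_mem fun k hk => ?_
  have hk' := mem_range.1 hk
  have u1 := U_nat (p := p) (k := k + 1) (by omega) (by omega)
  have u2 := U_fac (p := p) (k := m + (k + 1)) (by omega)
  rw [aa, div_eq_mul_inv]
  exact mul_mem (mul_mem (mul_mem (pow_mem (neg_mem (one_mem _)) _) (pow_mem (nat_mem _) _))
    (nat_mem _)) ((u1.pow 3).mul u2).2.2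

/-- **the value of `W` modulo `p`** -/
theorem W_eq (hpm : p = 2 * m + 1) : I p 1 (WW m - 7 * HH m 3) := by
  have s1 : EQ p 2 (∑ k ∈ range m, -1 / (((k : ℚ) + 1) * (p - ((k : ℚ) + 1)) * prs p k))
      (∑ k ∈ range m, (1 / ((k : ℚ) + 1) ^ 2 + p / ((k : ℚ) + 1) ^ 3)) := by
    refine EQ.sum fun k hk => ?_
    have hk' := mem_range.1 hk
    have h1 := (e1 (p := p) (k := k + 1) (by omega) (by omega)).div two_pos
      (prs_eq (p := p) (s := k) (by omega)) (prs_U (by omega))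
    rw [div_one, div_div] at h1
    push_cast at h1
    exact h1
  have s2 : EQ p 1 (∑ e ∈ range m, 2 / ((p : ℚ) - (e + 1)) ^ 3)
      (∑ e ∈ range m, (2 * (-1 / ((e : ℚ) + 1) ^ 3))) := by
    refine EQ.sum fun k hk => ?_
    have hk' := mem_range.1 hk
    have h1 := (EQ.refl (k := 1) (n2 (p := p))).mul (e2 (p := p) (k := k + 1) (by omega) (by omega))
    rw [mul_one_div] at h1
    push_cast at h1
    exact h1
  have s3 : EQ p 2 (∑ e ∈ range m, 2 * ((-1) ^ (e + 1) * kap m (e + 1)) /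
      (((p : ℚ) - (e + 1)) ^ 2 * prs p (m - 1 - e)))
      (∑ e ∈ range m, (2 * ((-1) ^ (e + 1) * kap m (e + 1)) *
        (1 / ((e : ℚ) + 1) ^ 2 + 2 * p / ((e : ℚ) + 1) ^ 3))) := by
    refine EQ.sum fun k hk => ?_
    have hk' := mem_range.1 hk
    have h0 : kap m (k + 1) ∈ Zp p := (kap_one hpm (by omega)).1
    have h1 := (e3 (p := p) (k := k + 1) (by omega) (by omega)).div two_pos
      (prs_eq (p := p) (s := m - 1 - k) (by omega)) (prs_U (by omega))
    have h2 := (EQ.refl (k := 2) (mul_mem (n2 (p := p)) (mul_mem (pow_mem (neg_mem (one_mem _))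
      (k + 1)) h0))).mul h1
    rw [div_one, div_div, mul_one_div] at h2
    push_cast at h2
    exact h2
  have hJ := J_zero m
  have s4 : EQ p 1 (∑ e ∈ range m, (-1) ^ (e + 1) * kap m (e + 1) * (1 / ((e : ℚ) + 1) ^ 3))
      (∑ e ∈ range m, 1 / ((e : ℚ) + 1) ^ 3) := by
    refine EQ.sum fun k hk => ?_
    have hk' := mem_range.1 hk
    have hu := U_nat (p := p) (k := k + 1) (by omega) (by omega)
    have hm : 1 / ((k : ℚ) + 1) ^ 3 ∈ Zp p := by
      rw [one_div]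
      have := (hu.pow 3).2.2
      push_cast at this
      exact this
    have h1 := ((EQ.refl (k := 1) (pow_mem (neg_mem (one_mem (Zp p))) (k + 1))).mul
      (kap_one hpm (by omega : k + 1 ≤ m))).mul (EQ.refl hm)
    have h2 : ((-1 : ℚ) ^ (k + 1) * (-1) ^ (k + 1)) = 1 := by
      rw [← mul_pow]; norm_num
    rw [h2, one_mul] at h1
    exact h1
  have t1 : I p 2 (p * WW m - (∑ k ∈ range m, (1 / ((k : ℚ) + 1) ^ 2 + p / ((k : ℚ) + 1) ^ 3) -
      p * ∑ e ∈ range m, (2 * (-1 / ((e : ℚ) + 1) ^ 3)) +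
      ∑ e ∈ range m, (2 * ((-1) ^ (e + 1) * kap m (e + 1)) *
        (1 / ((e : ℚ) + 1) ^ 2 + 2 * p / ((e : ℚ) + 1) ^ 3)))) := by
    rw [pW_eq hpm]
    have := (s1.2.2.sub ((I_p (p := p)).mul s2.2.2)).add s3.2.2
    convert this using 1
    ring
  have e5 : ∑ k ∈ range m, (1 / ((k : ℚ) + 1) ^ 2 + p / ((k : ℚ) + 1) ^ 3) =
      HH m 2 + p * HH m 3 := by
    rw [sum_add_distrib, HH, HH, mul_sum]
    congr 1
    exact sum_congr rfl fun k _ => by ring
  have e6 : ∑ e ∈ range m, (2 * (-1 / ((e : ℚ) + 1) ^ 3)) = -2 * HH m 3 := by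
    rw [HH, mul_sum]
    exact sum_congr rfl fun k _ => by ring
  have e7 : ∑ e ∈ range m, (2 * ((-1) ^ (e + 1) * kap m (e + 1)) *
        (1 / ((e : ℚ) + 1) ^ 2 + 2 * p / ((e : ℚ) + 1) ^ 3)) = - HH m 2 + 4 * p *
        ∑ e ∈ range m, (-1) ^ (e + 1) * kap m (e + 1) * (1 / ((e : ℚ) + 1) ^ 3) := by
    have h1 : - HH m 2 = 2 * ∑ e ∈ range m, (-1) ^ (e + 1) * kap m (e + 1) / ((e : ℚ) + 1) ^ 2 := by
      rw [HH]; linear_combination (-1) * hJ
    rw [h1, mul_sum, mul_sum, ← sum_add_distrib]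
    exact sum_congr rfl fun k _ => by ring
  rw [e5, e6, e7] at t1
  have t2 : I p 2 (4 * (p * (∑ e ∈ range m, (-1) ^ (e + 1) * kap m (e + 1) *
      (1 / ((e : ℚ) + 1) ^ 3) - HH m 3))) := by
    have h4 : (4 : ℚ) ∈ Zp p := by exact_mod_cast nat_mem (p := p) 4
    exact ((I_p (p := p)).mul s4.2.2).mulL h4
  have t3 : I p 2 (p * (WW m - 7 * HH m 3)) := by
    have := t1.add t2
    convert this using 1
    ring
  exact I_p_mul_iff.1 t3

/-! ### From `W` to the sum over `16^j/((2j+1)^3 C(2j,j)^2)` -/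

theorem ch_U (hpm : p = 2 * m + 1) {k : ℕ} (hk : k ≤ m) : U p (ch k) := by
  rw [ch_prod]
  refine U.prod fun l hl => ?_
  have hl' := mem_range.1 hl
  have u1 := U_nat (p := p) (k := 2 * l + 1) (by omega) (by omega)
  have u2 := U_nat (p := p) (k := 2 * l + 2) (by omega) (by omega)
  have := u1.div u2
  push_cast at this
  exact this

theorem aa_ch (hpm : p = 2 * m + 1) {k : ℕ} (hk : k < m) :
    EQ p 1 (aa (k + 1) m) (1 / (((k : ℚ) + 1) ^ 3 * ch (k + 1) ^ 2)) := by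
  -- (m+k)!/(m-k)! = ∏ (m-i)(m+1+i)
  have h1 : ∀ j, j ≤ m → ((m + j).factorial : ℚ) = (m - j).factorial *
      ∏ i ∈ range j, (((m : ℚ) - i) * (m + 1 + i)) := by
    intro j
    induction j with
    | zero => intro _; simp
    | succ j ih =>
      intro hj
      have ih := ih (by omega)
      obtain ⟨t, ht⟩ : ∃ t, m = j + 1 + t := ⟨m - (j + 1), by omega⟩
      have a1 : m - (j + 1) = t := by omega
      have a2 : m - j = t + 1 := by omega
      rw [a2, Nat.factorial_succ] at ih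
      rw [a1, prod_range_succ, ← add_assoc, Nat.factorial_succ]
      have a3 : (t : ℚ) + 1 = m - j := by rw [ht]; push_cast; ring
      push_cast at ih ⊢
      rw [ih, a3]
      ring
  have h2 : EQ p 1 (∏ i ∈ range (k + 1), (((m : ℚ) - i) * (m + 1 + i)))
      ((-1) ^ (k + 1) * hf (k + 1) ^ 2) := by
    have h3 : EQ p 1 (∏ i ∈ range (k + 1), (((m : ℚ) - i) * (m + 1 + i)))
        (∏ i ∈ range (k + 1), ((-1) * (((i : ℚ) + 1 / 2) * ((i : ℚ) + 1 / 2)))) := by
      refine EQ.prod fun i hi => ?_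
      have u2 := U_nat (p := p) (k := 2) (by omega) (by omega)
      have hh : ((i : ℚ) + 1 / 2) ∈ Zp p := by
        rw [one_div]; exact add_mem (nat_mem i) u2.2.2
      refine ⟨mul_mem (sub_mem (nat_mem m) (nat_mem i))
        (add_mem (add_mem (nat_mem m) (one_mem _)) (nat_mem i)),
        mul_mem (neg_mem (one_mem _)) (mul_mem hh hh), (2 * (m : ℚ) + 1) / 4, ?_, ?_⟩
      · have u4 := u2.mul u2
        have e4 : ((2 : ℕ) : ℚ) * ((2 : ℕ) : ℚ) = 4 := by norm_num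
        rw [e4] at u4
        rw [div_eq_mul_inv]
        exact mul_mem (add_mem (mul_mem n2 (nat_mem m)) (one_mem _)) u4.2.2
      · have h4 : (p : ℚ) = 2 * m + 1 := by exact_mod_cast hpm
        rw [h4]; ring
    have h4 : ∏ i ∈ range (k + 1), ((-1) * (((i : ℚ) + 1 / 2) * ((i : ℚ) + 1 / 2))) =
        (-1) ^ (k + 1) * hf (k + 1) ^ 2 := by
      rw [prod_mul_distrib, prod_const, card_range, prod_mul_distrib, ← hf, ← pow_two]
    rwa [h4] at h3
  have h5 := h1 (k + 1) (by omega)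
  have hu := U_nat (p := p) (k := k + 1) (by omega) (by omega)
  have hf1 := U_fac (p := p) (k := k + 1) (by omega)
  have hcu := ch_U hpm (k := k + 1) (by omega)
  have hfu : U p (hf (k + 1)) := by
    have : hf (k + 1) = ch (k + 1) * (k + 1).factorial := by
      rw [ch_hf, div_mul_cancel₀]; positivity
    rw [this]; exact hcu.mul hf1
  have su : U p ((-1 : ℚ) ^ (k + 1)) := by
    refine U.pow ?_ _
    exact ⟨by norm_num, neg_mem (one_mem _), by rw [inv_neg, inv_one]; exact neg_mem (one_mem _)⟩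
  have h6 := (EQ.refl (k := 1) (mul_mem su.2.1 (hf1.pow 2).2.1)).div one_pos
    ((EQ.refl (k := 1) (hu.pow 3).2.1).mul h2)
    ((hu.pow 3).mul (h2.symm.unit one_pos (su.mul (hfu.pow 2))))
  have e8 : aa (k + 1) m = (-1) ^ (k + 1) * ((k + 1).factorial : ℚ) ^ 2 /
      (((k + 1 : ℕ) : ℚ) ^ 3 * ∏ i ∈ range (k + 1), (((m : ℚ) - i) * (m + 1 + i))) := by
    rw [aa, h5]
    have h9 : ((m - (k + 1)).factorial : ℚ) ≠ 0 := by positivity
    have h10 := (h2.symm.unit one_pos (su.mul (hfu.pow 2))).1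
    have h11 := hu.1
    generalize ∏ i ∈ range (k + 1), (((m : ℚ) - i) * (m + 1 + i)) = y at h10
    field_simp
  have e9 : 1 / (((k : ℚ) + 1) ^ 3 * ch (k + 1) ^ 2) = (-1) ^ (k + 1) * ((k + 1).factorial : ℚ) ^ 2 /
      (((k + 1 : ℕ) : ℚ) ^ 3 * ((-1) ^ (k + 1) * hf (k + 1) ^ 2)) := by
    rw [ch_hf]
    have h9 := hf1.1
    have h10 := hfu.1
    have h11 := hu.1
    have h12 := su.1
    have h13 : (k : ℚ) + 1 = ((k + 1 : ℕ) : ℚ) := by push_cast; ring
    rw [h13]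
    field_simp
  rw [e8, e9]
  exact h6

theorem ch_choose (hpm : p = 2 * m + 1) {k : ℕ} (hk : k ≤ m) :
    EQ p 1 (ch k) ((-1) ^ k * (m.choose k : ℚ)) := by
  induction k with
  | zero => rw [ch_zero]; simpa using EQ.refl (k := 1) (one_mem (Zp p))
  | succ k ih =>
    have ih := ih (by omega)
    have u1 := U_nat (p := p) (k := k + 1) (by omega) (by omega)
    have u2 := U_nat (p := p) (k := 2) (by omega) (by omega)
    have h1 : EQ p 1 ((2 * (k : ℚ) + 1) / (2 * k + 2)) (-(((m : ℚ) - k) / (k + 1))) := by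
      have u3 := (u2.mul u1)
      have e3 : ((2 : ℕ) : ℚ) * ((k + 1 : ℕ) : ℚ) = 2 * k + 2 := by push_cast; ring
      rw [e3] at u3
      have e4 : ((k + 1 : ℕ) : ℚ) = k + 1 := by push_cast; ring
      rw [e4] at u1
      refine ⟨?_, ?_, 1 / (2 * k + 2), ?_, ?_⟩
      · rw [div_eq_mul_inv]
        exact mul_mem (add_mem (mul_mem n2 (nat_mem k)) (one_mem _)) u3.2.2
      · rw [div_eq_mul_inv]
        exact neg_mem (mul_mem (sub_mem (nat_mem m) (nat_mem k)) u1.2.2)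
      · rw [one_div]; exact u3.2.2
      · have h4 : (p : ℚ) = 2 * m + 1 := by exact_mod_cast hpm
        rw [h4]
        have h5 := u1.1
        have h6 : 2 * (k : ℚ) + 2 = 2 * (k + 1) := by ring
        rw [h6]
        field_simp
        ring
    have h2 := ih.mul h1
    rw [ch_succ]
    have h3 : (m.choose (k + 1) : ℚ) = m.choose k * (((m : ℚ) - k) / (k + 1)) := by
      have h4 := Nat.choose_succ_right_eq m k
      have h5 : (m.choose (k + 1) : ℚ) * (k + 1) = m.choose k * (m - k) := by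
        have h6 : ((m - k : ℕ) : ℚ) = (m : ℚ) - k := by rw [Nat.cast_sub (by omega)]
        rw [← h6]
        exact_mod_cast h4
      have h7 : (k : ℚ) + 1 ≠ 0 := by positivity
      rw [← mul_div_assoc, eq_div_iff h7, h5]
    rw [h3, pow_succ]
    have e5 : (-1 : ℚ) ^ k * -1 * ((m.choose k : ℚ) * (((m : ℚ) - k) / (k + 1))) =
      (-1) ^ k * (m.choose k : ℚ) * -(((m : ℚ) - k) / (k + 1)) := by ring
    rw [e5]
    exact h2

theorem ch_refl (hpm : p = 2 * m + 1) {k : ℕ} (hk : k ≤ m) : EQ p 1 (ch (m - k) ^ 2) (ch k ^ 2) := by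
  have h1 := (ch_choose hpm (k := m - k) (by omega)).pow 2
  have h2 := (ch_choose hpm hk).pow 2
  rw [Nat.choose_symm hk] at h1
  have e : ((-1 : ℚ) ^ (m - k) * (m.choose k : ℚ)) ^ 2 = ((-1 : ℚ) ^ k * (m.choose k : ℚ)) ^ 2 := by
    rw [mul_pow, mul_pow, ← pow_mul, ← pow_mul, mul_comm (m - k), mul_comm k, pow_mul, pow_mul]
    norm_num
  rw [e] at h1
  exact h1.trans h2.symm

/-- the sum over `16^j/((2j+1)^3 C(2j,j)^2)` -/
def ZZ (m : ℕ) : ℚ := ∑ j ∈ range m, 1 / ((2 * (j : ℚ) + 1) ^ 3 * ch j ^ 2)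

theorem Z_W (hpm : p = 2 * m + 1) : EQ p 1 (WW m) (-8 * ZZ m) := by
  have h1 : EQ p 1 (WW m) (∑ k ∈ range m, 1 / (((k : ℚ) + 1) ^ 3 * ch (k + 1) ^ 2)) :=
    EQ.sum fun k hk => aa_ch hpm (mem_range.1 hk)
  rw [← sum_range_reflect] at h1
  refine h1.trans ?_
  rw [ZZ, mul_sum]
  refine EQ.sum fun j hj => ?_
  have hj' := mem_range.1 hj
  have a1 : m - 1 - j + 1 = m - j := by omega
  have a2 : ((m - 1 - j : ℕ) : ℚ) + 1 = (m : ℚ) - j := by
    rw [Nat.cast_sub (by omega), Nat.cast_sub (by omega)]; push_cast; ring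
  rw [a1, a2]
  have u1 := U_nat (p := p) (k := m - j) (by omega) (by omega)
  have a3 : ((m - j : ℕ) : ℚ) = (m : ℚ) - j := by rw [Nat.cast_sub (by omega)]
  rw [a3] at u1
  have u2 := U_nat (p := p) (k := 2) (by omega) (by omega)
  have u3 := U_nat (p := p) (k := 2 * j + 1) (by omega) (by omega)
  have a4 : ((2 * j + 1 : ℕ) : ℚ) = 2 * j + 1 := by push_cast; ring
  rw [a4] at u3
  have h2 : EQ p 1 ((m : ℚ) - j) (-(2 * (j : ℚ) + 1) / 2) := by
    refine ⟨u1.2.1, ?_, 1 / 2, by rw [one_div]; exact u2.2.2, ?_⟩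
    · rw [div_eq_mul_inv]; exact mul_mem (neg_mem u3.2.1) u2.2.2
    · have h4 : (p : ℚ) = 2 * m + 1 := by exact_mod_cast hpm
      rw [h4]; ring
  have h3 := ((h2.pow 3).mul (ch_refl hpm (k := j) (by omega))).inv one_pos
    ((u1.pow 3).mul ((ch_U hpm (k := m - j) (by omega)).pow 2))
  rw [one_div]
  have h4 : -8 * (1 / ((2 * (j : ℚ) + 1) ^ 3 * ch j ^ 2)) =
      ((-(2 * (j : ℚ) + 1) / 2) ^ 3 * ch j ^ 2)⁻¹ := by
    have h5 := u3.1
    have h6 := ch_ne j
    field_simp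
    ring
  rw [h4]
  exact h3

theorem ZZ_mem (hpm : p = 2 * m + 1) : ZZ m ∈ Zp p := by
  refine sum_mem fun j hj => ?_
  have hj' := mem_range.1 hj
  have u3 := U_nat (p := p) (k := 2 * j + 1) (by omega) (by omega)
  have a4 : ((2 * j + 1 : ℕ) : ℚ) = 2 * j + 1 := by push_cast; ring
  rw [a4] at u3
  rw [one_div]
  exact ((u3.pow 3).mul ((ch_U hpm (k := j) (by omega)).pow 2)).2.2

/-- **the value of `Z` modulo `p`** -/
theorem Z_eq (hpm : p = 2 * m + 1) : I p 1 (8 * ZZ m + 7 * HH m 3) := by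
  have h1 := (W_eq hpm).sub (Z_W hpm).2.2
  have h2 : WW m - 7 * HH m 3 - (WW m - -8 * ZZ m) = -(8 * ZZ m + 7 * HH m 3) := by ring
  rw [h2] at h1
  have := h1.neg
  rwa [neg_neg] at this

end Pool.Agent.R439.PL.S4
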