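import Mathlib
import Pool.Agent.R439.S4D

set_option autoImplicit false

/-!
`∑_{k ≤ (p-1)/2} 1/k^2` modulo `p^2` and `∑_{k ≤ (p-1)/2} 1/k^3` modulo `p`.
-/

namespace Pool.Agent.R439.PL.S4

open Finset Pool.Agent.R439.S4

variable {p m : ℕ} [hp : Fact p.Prime]

omit hp in
theorem split1 (m : ℕ) (f : ℕ → ℚ) : ∑ i ∈ range (2 * m), f (i + 1) =
    ∑ i ∈ range m, f (i + 1) + ∑ i ∈ range m, f (2 * m + 1 - (i + 1)) := by
  rw [two_mul, sum_range_add]
  congr 1
  rw [← sum_range_reflect]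
  refine sum_congr rfl fun i hi => ?_
  have := mem_range.1 hi
  congr 1
  omega

omit hp in
theorem split2 (m : ℕ) (f : ℕ → ℚ) : ∑ i ∈ range (2 * m), f (i + 1) =
    ∑ i ∈ range m, f (2 * (i + 1)) + ∑ i ∈ range m, f (2 * m + 1 - 2 * (i + 1)) := by
  have h : ∑ i ∈ range (2 * m), f (i + 1) = ∑ i ∈ range m, f (2 * (i + 1)) +
      ∑ i ∈ range m, f (2 * i + 1) := by
    induction m with
    | zero => simp
    | succ m ih =>
      rw [show 2 * (m + 1) = 2 * m + 1 + 1 by ring, sum_range_succ, sum_range_succ, ih,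
        sum_range_succ, sum_range_succ]
      have : 2 * (m + 1) = 2 * m + 1 + 1 := by ring
      rw [this]
      ring
  rw [h]
  congr 1
  rw [← sum_range_reflect]
  refine sum_congr rfl fun i hi => ?_
  have := mem_range.1 hi
  congr 1
  omega

theorem H2_eq (hpm : p = 2 * m + 1) : I p 2 (6 * HH m 2 + 7 * p * HH m 3) := by
  have h1 := split1 m (fun k => 1 / (k : ℚ) ^ 2)
  have h2 := split2 m (fun k => 1 / (k : ℚ) ^ 2)
  rw [h1] at h2
  have c1 : ∑ i ∈ range m, (fun k : ℕ => 1 / (k : ℚ) ^ 2) (i + 1) = HH m 2 := by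
    rw [HH]; exact sum_congr rfl fun i _ => by push_cast; ring
  have c2 : ∑ i ∈ range m, (fun k : ℕ => 1 / (k : ℚ) ^ 2) (2 * (i + 1)) = 1 / 4 * HH m 2 := by
    rw [HH, mul_sum]
    refine sum_congr rfl fun i _ => ?_
    have : (i : ℚ) + 1 ≠ 0 := by positivity
    push_cast
    field_simp
    ring
  have c3 : I p 2 (∑ i ∈ range m, (fun k : ℕ => 1 / (k : ℚ) ^ 2) (2 * m + 1 - (i + 1)) -
      (HH m 2 + 2 * p * HH m 3)) := by
    have e1 : HH m 2 + 2 * p * HH m 3 = ∑ i ∈ range m, (1 / ((i + 1 : ℕ) : ℚ) ^ 2 +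
        2 * p / ((i + 1 : ℕ) : ℚ) ^ 3) := by
      rw [HH, HH, mul_sum, ← sum_add_distrib]
      exact sum_congr rfl fun i _ => by push_cast; ring
    rw [e1]
    refine (EQ.sum fun i hi => ?_).2.2
    have hi' := mem_range.1 hi
    have h3 := S4.e3 (p := p) (k := i + 1) (by omega) (by omega)
    have h4 : ((2 * m + 1 - (i + 1) : ℕ) : ℚ) = p - ((i + 1 : ℕ) : ℚ) := by
      rw [← hpm, Nat.cast_sub (by omega)]
    show EQ p 2 (1 / ((2 * m + 1 - (i + 1) : ℕ) : ℚ) ^ 2) _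
    rw [h4]
    exact h3
  have c4 : I p 2 (∑ i ∈ range m, (fun k : ℕ => 1 / (k : ℚ) ^ 2) (2 * m + 1 - 2 * (i + 1)) -
      (1 / 4 * HH m 2 + 1 / 4 * (p * HH m 3))) := by
    have e1 : (1 / 4 * HH m 2 + 1 / 4 * (p * HH m 3)) = ∑ i ∈ range m,
        (1 / ((2 * (i + 1) : ℕ) : ℚ) ^ 2 + 2 * p / ((2 * (i + 1) : ℕ) : ℚ) ^ 3) := by
      rw [HH, HH, mul_sum, mul_sum, mul_sum, ← sum_add_distrib]
      refine sum_congr rfl fun i _ => ?_
      have : (i : ℚ) + 1 ≠ 0 := by positivity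
      push_cast
      field_simp
      ring
    rw [e1]
    refine (EQ.sum fun i hi => ?_).2.2
    have hi' := mem_range.1 hi
    have h3 := S4.e3 (p := p) (k := 2 * (i + 1)) (by omega) (by omega)
    have h4 : ((2 * m + 1 - 2 * (i + 1) : ℕ) : ℚ) = p - ((2 * (i + 1) : ℕ) : ℚ) := by
      rw [← hpm, Nat.cast_sub (by omega)]
    show EQ p 2 (1 / ((2 * m + 1 - 2 * (i + 1) : ℕ) : ℚ) ^ 2) _
    rw [h4]
    exact h3
  rw [c1, c2] at h2
  generalize ∑ i ∈ range m, (fun k : ℕ => 1 / (k : ℚ) ^ 2) (2 * m + 1 - (i + 1)) = x at h2 c3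
  generalize ∑ i ∈ range m, (fun k : ℕ => 1 / (k : ℚ) ^ 2) (2 * m + 1 - 2 * (i + 1)) = y at h2 c4
  have c5 := (c4.sub c3).mulL (x := (4 : ℚ)) (by exact_mod_cast nat_mem (p := p) 4)
  have e : 4 * (y - (1 / 4 * HH m 2 + 1 / 4 * (p * HH m 3)) - (x - (HH m 2 + 2 * p * HH m 3))) =
      6 * HH m 2 + 7 * p * HH m 3 := by linear_combination (-4) * h2
  rwa [e] at c5

/-! ### Bernoulli numbers -/

theorem bern_mem : ∀ i : ℕ, i + 1 < p → bernoulli i ∈ Zp p := by
  intro i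
  induction i using Nat.strong_induction_on with
  | _ i ih =>
    intro hi
    have h1 := sum_bernoulli (i + 1)
    rw [sum_range_succ, Nat.choose_succ_self_right] at h1
    have hu := U_nat (p := p) (k := i + 1) (by omega) hi
    have h2 : (((i + 1 : ℕ) : ℚ)) * bernoulli i ∈ Zp p := by
      have h3 : (((i + 1 : ℕ) : ℚ)) * bernoulli i = (if i + 1 = 1 then 1 else 0) -
        ∑ k ∈ range i, ((i + 1).choose k : ℚ) * bernoulli k := by
        rw [← h1]; ring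
      rw [h3]
      refine sub_mem ?_ (sum_mem fun k hk => ?_)
      · split_ifs
        · exact one_mem _
        · exact zero_mem _
      · have := mem_range.1 hk
        exact mul_mem (nat_mem _) (ih k this (by omega))
    have h4 := mul_mem hu.2.2 h2
    rwa [← mul_assoc, inv_mul_cancel₀ hu.1, one_mul] at h4

/-- sums of powers modulo `p^2` -/
theorem faul {e : ℕ} (he0 : 0 < e) (he : e + 2 ≤ p) (he2 : e + 1 < p) :
    EQ p 2 (∑ k ∈ range p, (k : ℚ) ^ e) (p * bernoulli e) := by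
  have h1 := sum_range_pow p e
  have hu := U_nat (p := p) (k := e + 1) (by omega) he2
  have hm : (p : ℚ) * bernoulli e ∈ Zp p := mul_mem p_mem (bern_mem e he2)
  refine ⟨sum_mem fun k _ => pow_mem (nat_mem k) e, hm, ?_⟩
  rw [h1, sum_range_succ]
  have e1 : e + 1 - e = 1 := by omega
  rw [e1, Nat.choose_succ_self_right, pow_one]
  have h2 : bernoulli e * ((e + 1 : ℕ) : ℚ) * (p : ℚ) / ((e : ℚ) + 1) = p * bernoulli e := by
    have : (e : ℚ) + 1 ≠ 0 := by positivity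
    push_cast
    field_simp
  rw [h2, add_sub_cancel_right]
  refine I.sum fun i hi => ?_
  have hi' := mem_range.1 hi
  obtain ⟨t, ht⟩ : ∃ t, e + 1 - i = 2 + t := ⟨e + 1 - i - 2, by omega⟩
  rw [ht, pow_add]
  refine ⟨bernoulli i * ((e + 1).choose i : ℚ) * (p : ℚ) ^ t * ((e + 1 : ℕ) : ℚ)⁻¹, ?_, ?_⟩
  · exact mul_mem (mul_mem (mul_mem (bern_mem i (by omega)) (nat_mem _)) (pow_mem p_mem _)) hu.2.2
  · push_cast
    ring

theorem pow_refl {e k : ℕ} (he : Even e) (hk : k ≤ p) :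
    I p 2 (((p - k : ℕ) : ℚ) ^ e - ((k : ℚ) ^ e - e * p * (k : ℚ) ^ (e - 1))) := by
  rcases Nat.eq_zero_or_pos e with h0 | h0
  · subst h0; simp [I.zero]
  obtain ⟨K, hK⟩ := Polynomial.powAddExpansion (-(k : ℤ)) (p : ℤ) e
  have h1 : ((p - k : ℕ) : ℚ) = ((-(k : ℤ) + (p : ℤ) : ℤ) : ℚ) := by
    rw [Nat.cast_sub hk]; push_cast; ring
  have h2 : ((p - k : ℕ) : ℚ) ^ e = ((-(k : ℤ)) ^ e + e * (-(k : ℤ)) ^ (e - 1) * p + K * (p : ℤ) ^ 2 : ℤ) := by
    rw [h1, ← hK]; push_cast; ring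
  have h3 : Odd (e - 1) := by
    obtain ⟨c, hc⟩ := he
    exact ⟨c - 1, by omega⟩
  refine ⟨(K : ℚ), int_mem K, ?_⟩
  rw [h2]
  push_cast
  rw [he.neg_pow, h3.neg_pow]
  ring

theorem H3_eq (hpm : p = 2 * m + 1) (h3 : 3 < p) : I p 1 (HH m 3 + 2 * bernoulli (p - 3)) := by
  obtain ⟨e, he⟩ : ∃ e, e = p - 3 := ⟨_, rfl⟩
  have he1 : e + 3 = p := by omega
  have hev : Even e := ⟨m - 1, by omega⟩
  have hep : 2 ≤ e := by obtain ⟨c, hc⟩ := hev; omega
  obtain ⟨P, hP⟩ : ∃ P : ℚ, P = ∑ i ∈ range m, (((i + 1 : ℕ)) : ℚ) ^ e := ⟨_, rfl⟩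
  obtain ⟨Q, hQ⟩ : ∃ Q : ℚ, Q = ∑ i ∈ range m, (((i + 1 : ℕ)) : ℚ) ^ (e - 1) := ⟨_, rfl⟩
  obtain ⟨E, hE⟩ : ∃ E : ℚ, E = ∑ i ∈ range (2 * m), (((i + 1 : ℕ)) : ℚ) ^ e := ⟨_, rfl⟩
  have mP : P ∈ Zp p := by rw [hP]; exact sum_mem fun i _ => pow_mem (nat_mem _) _
  have mQ : Q ∈ Zp p := by rw [hQ]; exact sum_mem fun i _ => pow_mem (nat_mem _) _
  have f1 : I p 2 (E - (2 * P - e * p * Q)) := by
    have h1 := split1 m (fun k => (k : ℚ) ^ e)
    have h2 : I p 2 (∑ i ∈ range m, ((2 * m + 1 - (i + 1) : ℕ) : ℚ) ^ e - (P - e * p * Q)) := by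
      rw [hP, hQ, mul_sum, ← sum_sub_distrib, ← sum_sub_distrib]
      refine I.sum fun i hi => ?_
      have hi' := mem_range.1 hi
      rw [← hpm]
      exact pow_refl hev (by omega)
    rw [hE, h1, ← hP]
    have : P + ∑ i ∈ range m, ((2 * m + 1 - (i + 1) : ℕ) : ℚ) ^ e - (2 * P - e * p * Q) =
      ∑ i ∈ range m, ((2 * m + 1 - (i + 1) : ℕ) : ℚ) ^ e - (P - e * p * Q) := by ring
    rw [this]; exact h2
  have f2 : I p 2 (E - (2 * 2 ^ e * P - e * p * (2 ^ (e - 1) * Q))) := by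
    have h1 := split2 m (fun k => (k : ℚ) ^ e)
    have h2 : I p 2 (∑ i ∈ range m, ((2 * m + 1 - 2 * (i + 1) : ℕ) : ℚ) ^ e -
        (2 ^ e * P - e * p * (2 ^ (e - 1) * Q))) := by
      rw [hP, hQ, mul_sum, mul_sum, mul_sum, ← sum_sub_distrib, ← sum_sub_distrib]
      refine I.sum fun i hi => ?_
      have hi' := mem_range.1 hi
      have h3 := pow_refl (p := p) (k := 2 * (i + 1)) hev (by omega)
      rw [← hpm]
      convert h3 using 2
      rw [Nat.cast_mul, mul_pow, mul_pow]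
      push_cast
      ring
    have h4 : ∑ i ∈ range m, ((2 * (i + 1) : ℕ) : ℚ) ^ e = 2 ^ e * P := by
      rw [hP, mul_sum]
      exact sum_congr rfl fun i _ => by rw [Nat.cast_mul, mul_pow]; push_cast; ring
    rw [hE, h1, h4]
    have : 2 ^ e * P + ∑ i ∈ range m, ((2 * m + 1 - 2 * (i + 1) : ℕ) : ℚ) ^ e -
        (2 * 2 ^ e * P - e * p * (2 ^ (e - 1) * Q)) =
      ∑ i ∈ range m, ((2 * m + 1 - 2 * (i + 1) : ℕ) : ℚ) ^ e -
        (2 ^ e * P - e * p * (2 ^ (e - 1) * Q)) := by ring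
    rw [this]; exact h2
  have f3 : I p 2 (E - p * bernoulli e) := by
    have h1 := (faul (p := p) (e := e) (by omega) (by omega) (by omega)).2.2
    have h2 : ∑ k ∈ range p, (k : ℚ) ^ e = E := by
      rw [hE]
      conv_lhs => rw [hpm, sum_range_succ']
      simp [show e ≠ 0 by omega]
    rwa [h2] at h1
  have mB : bernoulli e ∈ Zp p := bern_mem e (by omega)
  have f4 : I p 1 P := by
    have h1 : I p 1 (2 * P) := by
      have h2 := (f3.sub f1).mono (by norm_num : 1 ≤ 2)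
      have h3 : 2 * P = (E - p * bernoulli e - (E - (2 * P - e * p * Q))) +
        p * (bernoulli e + e * Q) := by ring
      rw [h3]
      exact h2.add ((I_p (p := p)).mulR (add_mem mB (mul_mem (nat_mem e) mQ)))
    have u2 := U_nat (p := p) (k := 2) (by omega) (by omega)
    exact u2.cancel h1
  have f5 : I p 1 ((2 : ℚ) ^ (e + 2) - 1) := by
    have h1 : Int.ModEq p (2 ^ (p - 1)) 1 := by
      refine Int.ModEq.pow_card_sub_one_eq_one hp.out ?_
      have : IsCoprime ((2 : ℕ) : ℤ) (p : ℤ) :=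
        Nat.isCoprime_iff_coprime.2 ((Nat.coprime_primes Nat.prime_two hp.out).2 (by omega))
      exact_mod_cast this
    have h2 := h1.symm.dvd
    obtain ⟨c, hc⟩ := h2
    have e2 : e + 2 = p - 1 := by omega
    refine ⟨(c : ℚ), int_mem c, ?_⟩
    rw [e2, pow_one]
    exact_mod_cast hc
  -- 12 P = 7 e p Q modulo p^2
  obtain ⟨a, ha⟩ : ∃ a : ℚ, a = 2 ^ (e + 2) := ⟨_, rfl⟩
  have g1 : I p 2 (12 * P - 7 * e * p * Q) := by
    have h1 := (f2.sub f1).mulL (x := (8 : ℚ)) (by exact_mod_cast nat_mem (p := p) 8)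
    have h2 : (2 : ℚ) ^ e = a / 4 := by rw [ha, pow_add]; ring
    have h3 : (2 : ℚ) ^ (e - 1) = a / 8 := by
      rw [ha, show e + 2 = (e - 1) + 3 by omega, pow_add]; ring
    rw [h2, h3] at h1
    have h4 := f4.mul f5
    have h5 := ((I_p (p := p)).mul f5).mulR (mul_mem (nat_mem (p := p) e) mQ)
    rw [← ha] at h4 h5
    have h6 := (h1.add (h4.mulL (x := (4 : ℚ)) (by exact_mod_cast nat_mem (p := p) 4))).sub h5
    have : 12 * P - 7 * e * p * Q = 8 * (E - (2 * (a / 4) * P - e * p * (a / 8 * Q)) -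
      (E - (2 * P - e * p * Q))) * 1 + 4 * (P * (a - 1)) - p * (a - 1) * (e * Q) +
        0 := by ring
    rw [this, mul_one, add_zero]
    exact h6
  have g2 : I p 2 (p * (12 * bernoulli e - 2 * e * Q)) := by
    have h1 := (g1.mulL (x := (2 : ℚ)) n2).add ((f1.sub f3).mulL (x := (12 : ℚ))
      (by exact_mod_cast nat_mem (p := p) 12))
    have : (p : ℚ) * (12 * bernoulli e - 2 * e * Q) = 2 * (12 * P - 7 * e * p * Q) +
      12 * (E - (2 * P - e * p * Q) - (E - p * bernoulli e)) := by ring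
    rw [this]; exact h1
  have g3 := I_p_mul_iff.1 g2
  have g4 : I p 1 (6 * (Q + 2 * bernoulli e)) := by
    have h1 : (e : ℚ) = p - 3 := by
      have : ((e + 3 : ℕ) : ℚ) = p := by rw [he1]
      push_cast at this
      linear_combination this
    have h2 := g3.add ((I_p (p := p)).mulR (mul_mem n2 mQ))
    have : 6 * (Q + 2 * bernoulli e) = 12 * bernoulli e - 2 * e * Q + p * (2 * Q) := by
      rw [h1]; ring
    rw [this]; exact h2
  have u6 : U p (6 : ℚ) := by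
    have u2 := U_nat (p := p) (k := 2) (by omega) (by omega)
    have u3 := U_nat (p := p) (k := 3) (by omega) (by omega)
    have := u2.mul u3
    norm_num at this
    exact this
  have g5 := u6.cancel g4
  have g6 : I p 1 (HH m 3 - Q) := by
    rw [HH, hQ, ← sum_sub_distrib]
    refine I.sum fun i hi => ?_
    have hi' := mem_range.1 hi
    have hu := U_nat (p := p) (k := i + 1) (by omega) (by omega)
    have h1 : Int.ModEq p (((i + 1 : ℕ) : ℤ) ^ (p - 1)) 1 := by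
      refine Int.ModEq.pow_card_sub_one_eq_one hp.out ?_
      rw [Nat.isCoprime_iff_coprime]
      exact (Nat.coprime_comm.1 ((Nat.Prime.coprime_iff_not_dvd hp.out).2 fun h => by
        have := Nat.le_of_dvd (by omega) h; omega))
    obtain ⟨c, hc⟩ := h1.symm.dvd
    have e2 : p - 1 = (e - 1) + 3 := by omega
    rw [e2, pow_add] at hc
    have hc' : (((i + 1 : ℕ)) : ℚ) ^ (e - 1) * (((i + 1 : ℕ)) : ℚ) ^ 3 - 1 = p * c := by
      exact_mod_cast hc
    refine ⟨-(c : ℚ) * ((((i + 1 : ℕ)) : ℚ) ^ 3)⁻¹, mul_mem (neg_mem (int_mem c)) (hu.pow 3).2.2, ?_⟩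
    have h5 := hu.1
    have h6 : (i : ℚ) + 1 = ((i + 1 : ℕ) : ℚ) := by push_cast; ring
    rw [h6]
    field_simp
    linear_combination (-1) * hc'
  rw [← he]
  have := g6.add g5
  have e9 : HH m 3 - Q + (Q + 2 * bernoulli e) = HH m 3 + 2 * bernoulli e := by ring
  rwa [e9] at this

end Pool.Agent.R439.PL.S4
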