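import Mathlib

set_option autoImplicit false

/-!
Two terminating hypergeometric evaluations (special cases of Watson's theorem).
-/

namespace Pool.Agent.R439.G3

open Finset

/-- `(1/2)_k/k!` -/
def cc (k : ℕ) : ℚ := ∏ j ∈ range k, ((j : ℚ) + 1 / 2) / ((j : ℚ) + 1)

theorem cc_succ (k : ℕ) : cc (k + 1) = cc k * (((k : ℚ) + 1 / 2) / ((k : ℚ) + 1)) :=
  prod_range_succ _ _

/-- `(-a)_k (a+1)_k/k!^2` in terms of `A = a (a+1)` -/
def BB (A : ℚ) (k : ℕ) : ℚ := ∏ j ∈ range k, ((j : ℚ) * (j + 1) - A) / ((j : ℚ) + 1) ^ 2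

theorem BB_succ (A : ℚ) (k : ℕ) : BB A (k + 1) = BB A k * (((k : ℚ) * (k + 1) - A) /
    ((k : ℚ) + 1) ^ 2) := prod_range_succ _ _

/-- the reciprocal of `z!`, zero for negative `z` -/
def gi (z : ℤ) : ℚ := if 0 ≤ z then 1 / (z.toNat.factorial : ℚ) else 0

theorem gi_neg {z : ℤ} (h : z < 0) : gi z = 0 := if_neg (by omega)

theorem gi_nat (k : ℕ) : gi k = 1 / (k.factorial : ℚ) := by
  rw [gi, if_pos (by omega), Int.toNat_natCast]

theorem gi_rec (z : ℤ) : gi (z - 1) = z * gi z := by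
  rcases lt_trichotomy z 0 with h | h | h
  · rw [gi_neg h, gi_neg (by omega), mul_zero]
  · subst h
    rw [gi_neg (by omega)]; simp
  · obtain ⟨k, hk⟩ : ∃ k : ℕ, z = k + 1 := ⟨(z - 1).toNat, by omega⟩
    subst hk
    have h1 : ((k : ℤ) + 1 - 1) = (k : ℕ) := by ring
    have h2 : ((k : ℤ) + 1) = ((k + 1 : ℕ) : ℤ) := by push_cast; ring
    rw [h1, h2, gi_nat, gi_nat, Nat.factorial_succ]
    have h3 : (k.factorial : ℚ) ≠ 0 := by positivity
    have h4 : (k : ℚ) + 1 ≠ 0 := by positivity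
    push_cast
    field_simp

/-! ### the even evaluation -/

theorem BB_nat (m k : ℕ) : BB ((m : ℚ) * (m + 1)) k = (-1) ^ k * ((m + k).factorial : ℚ) /
    ((k.factorial : ℚ) ^ 2) * gi ((m : ℤ) - k) := by
  induction k with
  | zero =>
    have h3 : (m.factorial : ℚ) ≠ 0 := by positivity
    simp only [BB, range_zero, prod_empty, pow_zero, Nat.factorial_zero, Nat.cast_one, one_pow,
      Nat.cast_zero, sub_zero, add_zero, one_mul, div_one, gi_nat]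
    field_simp
  | succ k ih =>
    rw [BB_succ, ih]
    have e1 : ((m : ℤ) - (k + 1 : ℕ)) = (m : ℤ) - k - 1 := by push_cast; ring
    rw [e1, gi_rec, ← add_assoc, Nat.factorial_succ (m + k), Nat.factorial_succ k]
    have h3 : (k.factorial : ℚ) ≠ 0 := by positivity
    have h4 : (k : ℚ) + 1 ≠ 0 := by positivity
    push_cast
    rw [pow_succ (-1 : ℚ) k]
    field_simp
    ring

/-- the certificate -/
def G1 (m k : ℕ) : ℚ := -2 * (2 * (m : ℚ) + 3) * (k : ℚ) ^ 3 * cc k * (-1) ^ k *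
  ((m + k).factorial : ℚ) / ((k.factorial : ℚ) ^ 2) * gi ((m : ℤ) + 2 - k)

theorem wz1 (m k : ℕ) : ((m : ℚ) + 2) ^ 2 * (cc k * BB (((m + 2 : ℕ) : ℚ) * ((m + 2 : ℕ) + 1)) k) -
    ((m : ℚ) + 1) ^ 2 * (cc k * BB ((m : ℚ) * (m + 1)) k) = G1 m (k + 1) - G1 m k := by
  rw [BB_nat, BB_nat, G1, G1, cc_succ]
  have e0 : (((m + 2 : ℕ) : ℤ) - k) = (m : ℤ) + 2 - k := by push_cast; ring
  have e1 : ((m : ℤ) + 2 - (k + 1 : ℕ)) = (m : ℤ) + 2 - k - 1 := by push_cast; ring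
  have e2 : (m : ℤ) - k = ((m : ℤ) + 2 - k - 1) - 1 := by ring
  have e3 : m + 2 + k = m + k + 1 + 1 := by ring
  have e4 : m + (k + 1) = m + k + 1 := by ring
  rw [e0, e1, e2, e3, e4, gi_rec ((m : ℤ) + 2 - k - 1), gi_rec ((m : ℤ) + 2 - k),
    Nat.factorial_succ (m + k + 1), Nat.factorial_succ (m + k), Nat.factorial_succ k]
  have h3 : (k.factorial : ℚ) ≠ 0 := by positivity
  have h4 : (k : ℚ) + 1 ≠ 0 := by positivity
  push_cast
  rw [pow_succ (-1 : ℚ) k]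
  generalize gi ((m : ℤ) + 2 - k) = g
  generalize cc k = c
  generalize (-1 : ℚ) ^ k = e
  generalize ((m + k).factorial : ℚ) = f
  field_simp
  ring

theorem BB_zero {m k : ℕ} (h : m < k) : BB ((m : ℚ) * (m + 1)) k = 0 := by
  rw [BB_nat, gi_neg (by omega), mul_zero]

theorem sum_even (h K : ℕ) (hK : 2 * h < K) :
    ∑ k ∈ range K, cc k * BB (((2 * h : ℕ) : ℚ) * ((2 * h : ℕ) + 1)) k = cc h ^ 2 := by
  induction h with
  | zero =>
    have : ∑ k ∈ range K, cc k * BB (((2 * 0 : ℕ) : ℚ) * ((2 * 0 : ℕ) + 1)) k =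
        ∑ k ∈ range K, if k = 0 then (1 : ℚ) else 0 := by
      refine sum_congr rfl fun k _ => ?_
      by_cases hk : k = 0
      · subst hk; simp [cc, BB]
      · rw [if_neg hk, BB_zero (by omega), mul_zero]
    rw [this, sum_ite_eq' (range K) 0]
    simp [cc, show 0 < K by omega]
  | succ h ih =>
    have ih := ih (by omega)
    have hs : ((2 * h : ℕ) + 2 : ℚ) ^ 2 * ∑ k ∈ range K, cc k *
        BB (((2 * h + 2 : ℕ) : ℚ) * ((2 * h + 2 : ℕ) + 1)) k - ((2 * h : ℕ) + 1 : ℚ) ^ 2 *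
        ∑ k ∈ range K, cc k * BB (((2 * h : ℕ) : ℚ) * ((2 * h : ℕ) + 1)) k = 0 := by
      rw [mul_sum, mul_sum, ← sum_sub_distrib, sum_congr rfl fun k _ => wz1 (2 * h) k,
        sum_range_sub]
      have h1 : G1 (2 * h) 0 = 0 := by simp [G1]
      have h2 : G1 (2 * h) K = 0 := by
        rw [G1, gi_neg (by push_cast; omega), mul_zero]
      rw [h1, h2, sub_zero]
    rw [ih] at hs
    have e : 2 * (h + 1) = 2 * h + 2 := by ring
    rw [e, cc_succ]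
    have h4 : (2 * (h : ℚ) + 2) ≠ 0 := by positivity
    have h5 : (h : ℚ) + 1 ≠ 0 := by positivity
    push_cast at hs ⊢
    have h6 : (2 * (h : ℚ) + 2) ^ 2 * (∑ k ∈ range K, cc k *
        BB ((2 * (h : ℚ) + 2) * (2 * (h : ℚ) + 2 + 1)) k) =
        (2 * (h : ℚ) + 2) ^ 2 * ((cc h * (((h : ℚ) + 1 / 2) / ((h : ℚ) + 1))) ^ 2) := by
      have e5 : (2 * (h : ℚ) + 2) ^ 2 * ((cc h * (((h : ℚ) + 1 / 2) / ((h : ℚ) + 1))) ^ 2) =
          (2 * (h : ℚ) + 1) ^ 2 * cc h ^ 2 := by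
        field_simp
      rw [e5]
      linear_combination hs
    exact mul_left_cancel₀ (pow_ne_zero 2 h4) h6

/-! ### Watson's sum with a negative integer parameter -/

/-- `(-n)_k/(-2n)_k` -/
def uu (n k : ℕ) : ℚ := ((n.factorial : ℚ) * ((2 * n - k).factorial : ℚ) / ((2 * n).factorial : ℚ)) *
  gi ((n : ℤ) - k)

/-- the right-hand side -/
def Lam (n : ℕ) (a : ℚ) : ℚ := ∏ i ∈ range n, ((2 * (i : ℚ) + 1 - a) * (2 * (i : ℚ) + 2 + a)) /
  ((2 * (i : ℚ) + 1) * (2 * (i : ℚ) + 2))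

def G2 (A : ℚ) (n k : ℕ) : ℚ := -(((n.factorial : ℚ) * ((2 * n + 1 - k).factorial : ℚ) /
  ((2 * n).factorial : ℚ)) * gi ((n : ℤ) + 1 - k)) * (k : ℚ) ^ 2 * BB A k

theorem wz2 (A : ℚ) {n k : ℕ} (hk : k ≤ n) : (2 * (n : ℚ) + 1) * (2 * n + 2) * (uu (n + 1) k * BB A k) -
    ((2 * (n : ℚ) + 1) * (2 * n + 2) - A) * (uu n k * BB A k) = G2 A n (k + 1) - G2 A n k := by
  obtain ⟨d, rfl⟩ := Nat.exists_eq_add_of_le hk
  rw [G2, G2, uu, uu, BB_succ]
  have e1 : (((k + d + 1 : ℕ) : ℤ) - k) = ((d + 1 : ℕ) : ℤ) := by push_cast; ring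
  have e2 : (((k + d : ℕ) : ℤ) - k) = ((d : ℕ) : ℤ) := by push_cast; ring
  have e3 : (((k + d : ℕ) : ℤ) + 1 - (k + 1 : ℕ)) = ((d : ℕ) : ℤ) := by push_cast; ring
  have e4 : (((k + d : ℕ) : ℤ) + 1 - k) = ((d + 1 : ℕ) : ℤ) := by push_cast; ring
  rw [e1, e2, e3, e4, gi_nat, gi_nat]
  have f1 : 2 * (k + d + 1) - k = (k + 2 * d) + 1 + 1 := by omega
  have f2 : 2 * (k + d) - k = k + 2 * d := by omega
  have f3 : 2 * (k + d) + 1 - (k + 1) = k + 2 * d := by omega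
  have f4 : 2 * (k + d) + 1 - k = (k + 2 * d) + 1 := by omega
  have f5 : 2 * (k + d + 1) = 2 * (k + d) + 1 + 1 := by ring
  rw [f1, f2, f3, f4, f5, Nat.factorial_succ (k + 2 * d + 1), Nat.factorial_succ (k + 2 * d),
    Nat.factorial_succ (2 * (k + d) + 1), Nat.factorial_succ (2 * (k + d)), Nat.factorial_succ d,
    Nat.factorial_succ (k + d)]
  have h1 : (d.factorial : ℚ) ≠ 0 := by positivity
  have h2 : ((2 * (k + d)).factorial : ℚ) ≠ 0 := by positivity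
  have h3 : (d : ℚ) + 1 ≠ 0 := by positivity
  have h4 : (k : ℚ) + 1 ≠ 0 := by positivity
  have h5 : (k : ℚ) + d + 1 ≠ 0 := by positivity
  have h6 : 2 * ((k : ℚ) + d) + 1 ≠ 0 := by positivity
  have h7 : 2 * ((k : ℚ) + d) + 1 + 1 ≠ 0 := by positivity
  push_cast
  generalize ((2 * (k + d)).factorial : ℚ) = F1 at *
  generalize ((k + 2 * d).factorial : ℚ) = F2 at *
  generalize ((k + d).factorial : ℚ) = F3 at *
  generalize (d.factorial : ℚ) = F4 at *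
  generalize BB A k = B
  field_simp
  ring

theorem wz2_top (A : ℚ) (n : ℕ) : (2 * (n : ℚ) + 1) * (2 * n + 2) * (uu (n + 1) (n + 1) * BB A (n + 1)) =
    - G2 A n (n + 1) := by
  rw [G2, uu]
  have e1 : (((n + 1 : ℕ) : ℤ) - (n + 1 : ℕ)) = ((0 : ℕ) : ℤ) := by push_cast; ring
  have e4 : ((n : ℤ) + 1 - (n + 1 : ℕ)) = ((0 : ℕ) : ℤ) := by push_cast; ring
  have f1 : 2 * (n + 1) - (n + 1) = n + 1 := by omega
  have f4 : 2 * n + 1 - (n + 1) = n := by omega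
  have f5 : 2 * (n + 1) = 2 * n + 1 + 1 := by ring
  rw [e1, e4, f1, f4, f5, gi_nat, Nat.factorial_succ n, Nat.factorial_succ (2 * n + 1),
    Nat.factorial_succ (2 * n), Nat.factorial_zero]
  have h2 : ((2 * n).factorial : ℚ) ≠ 0 := by positivity
  have h6 : 2 * (n : ℚ) + 1 ≠ 0 := by positivity
  have h7 : 2 * (n : ℚ) + 1 + 1 ≠ 0 := by positivity
  push_cast
  generalize ((2 * n).factorial : ℚ) = F1 at *
  generalize (n.factorial : ℚ) = F3 at *
  generalize BB A (n + 1) = B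
  field_simp
  ring

theorem uu_zero {n k : ℕ} (h : n < k) : uu n k = 0 := by
  rw [uu, gi_neg (by omega), mul_zero]

theorem watson (n : ℕ) (a : ℚ) : ∑ k ∈ range (n + 1), uu n k * BB (a * (a + 1)) k = Lam n a := by
  induction n with
  | zero => simp [uu, BB, Lam, gi]
  | succ n ih =>
    have hs : (2 * (n : ℚ) + 1) * (2 * n + 2) * ∑ k ∈ range (n + 1), uu (n + 1) k * BB (a * (a + 1)) k -
        ((2 * (n : ℚ) + 1) * (2 * n + 2) - a * (a + 1)) * ∑ k ∈ range (n + 1), uu n k *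
        BB (a * (a + 1)) k = G2 (a * (a + 1)) n (n + 1) := by
      rw [mul_sum, mul_sum, ← sum_sub_distrib, sum_congr rfl fun k hk => wz2 (a * (a + 1))
        (Nat.lt_succ_iff.1 (mem_range.1 hk)), sum_range_sub]
      have h1 : G2 (a * (a + 1)) n 0 = 0 := by simp [G2]
      rw [h1, sub_zero]
    rw [ih] at hs
    have ht := wz2_top (a * (a + 1)) n
    rw [sum_range_succ]
    have hL : Lam (n + 1) a = Lam n a * (((2 * (n : ℚ) + 1 - a) * (2 * (n : ℚ) + 2 + a)) /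
        ((2 * (n : ℚ) + 1) * (2 * (n : ℚ) + 2))) := prod_range_succ _ _
    have h6 : 2 * (n : ℚ) + 1 ≠ 0 := by positivity
    have h7 : 2 * (n : ℚ) + 2 ≠ 0 := by positivity
    have h8 : (2 * (n : ℚ) + 1) * (2 * n + 2) ≠ 0 := mul_ne_zero h6 h7
    apply mul_left_cancel₀ h8
    rw [hL]
    have e : (2 * (n : ℚ) + 1) * (2 * n + 2) * (Lam n a * (((2 * (n : ℚ) + 1 - a) *
        (2 * (n : ℚ) + 2 + a)) / ((2 * (n : ℚ) + 1) * (2 * (n : ℚ) + 2)))) =
        ((2 * (n : ℚ) + 1 - a) * (2 * (n : ℚ) + 2 + a)) * Lam n a := by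
      field_simp
    rw [e]
    linear_combination hs + ht

end Pool.Agent.R439.G3
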