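import Mathlib
import Pool.Agent.R439.PLoc

set_option autoImplicit false

/-!
Exact telescoping identity and p-adic analysis for the sums
`∑_{k<n} (2k+1-x) ∏_{j≤k} (1-x/j)^(2N)`, `n = N x`.
-/

namespace Pool.Agent.R439.T3

open Finset Pool.Agent.R439.PL

/-- product of `(1 - x/j)^(2N)` over `1 ≤ j ≤ k` -/
def D (x : ℚ) (N k : ℕ) : ℚ := ∏ j ∈ range k, (1 - x / ((j : ℚ) + 1)) ^ (2 * N)

theorem D_succ (x : ℚ) (N k : ℕ) : D x N (k + 1) = D x N k * (1 - x / ((k : ℚ) + 1)) ^ (2 * N) :=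
  prod_range_succ _ _

/-- the second Pade coefficient -/
def bb (N : ℚ) : ℚ := (2 * N - 1) * (N - 1) / 6

/-- Pade remainder -/
def psi (N : ℕ) (t : ℚ) : ℚ := 1 - ((N : ℚ) + 1) * t + (N + bb N) * t ^ 2 -
  (1 - t) ^ (2 * N) * (1 + ((N : ℚ) - 1) * t + bb N * t ^ 2)

theorem identity (x : ℚ) (N m : ℕ) :
    (1 - N * x) * ∑ k ∈ range (m + 1), (2 * (k : ℚ) + 1 - x) * D x N k =
      (((m : ℚ) + 1 - x) ^ 2 - ((N : ℚ) - 1) * x * (m + 1) + ((N : ℚ) - 1) * x ^ 2 +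
        bb N * x ^ 2) * D x N m - bb N * x ^ 2
      + ∑ l ∈ range m, ((l : ℚ) + 1) ^ 2 * D x N l * psi N (x / ((l : ℚ) + 1)) := by
  induction m with
  | zero =>
    simp only [D, bb, zero_add, range_one, sum_singleton, range_zero, prod_empty, sum_empty,
      Nat.cast_zero]
    ring
  | succ m ih =>
    rw [sum_range_succ, mul_add, ih, sum_range_succ _ m, D_succ]
    unfold psi
    have hm : (m : ℚ) + 1 ≠ 0 := by positivity
    generalize (1 - x / ((m : ℚ) + 1)) ^ (2 * N) = P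
    generalize D x N m = d
    generalize ∑ l ∈ range m, ((l : ℚ) + 1) ^ 2 * D x N l * (1 - ((N : ℚ) + 1) *
      (x / ((l : ℚ) + 1)) + (N + bb N) * (x / ((l : ℚ) + 1)) ^ 2 -
      (1 - x / ((l : ℚ) + 1)) ^ (2 * N) * (1 + ((N : ℚ) - 1) * (x / ((l : ℚ) + 1)) +
      bb N * (x / ((l : ℚ) + 1)) ^ 2)) = S
    generalize bb (N : ℚ) = b
    push_cast
    field_simp
    ring

theorem choose_poly (m : ℕ) :
    ((m.choose 1 : ℕ) : ℚ) = m ∧ ((m.choose 2 : ℕ) : ℚ) = m * (m - 1) / 2 ∧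
    ((m.choose 3 : ℕ) : ℚ) = m * (m - 1) * (m - 2) / 6 ∧
    ((m.choose 4 : ℕ) : ℚ) = m * (m - 1) * (m - 2) * (m - 3) / 24 ∧
    ((m.choose 5 : ℕ) : ℚ) = m * (m - 1) * (m - 2) * (m - 3) * (m - 4) / 120 ∧
    ((m.choose 6 : ℕ) : ℚ) = m * (m - 1) * (m - 2) * (m - 3) * (m - 4) * (m - 5) / 720 := by
  induction m with
  | zero => norm_num [Nat.choose]
  | succ m ih =>
    obtain ⟨h1, h2, h3, h4, h5, h6⟩ := ih
    refine ⟨?_, ?_, ?_, ?_, ?_, ?_⟩
    · rw [Nat.choose_succ_succ' m 0]; push_cast; rw [Nat.choose_zero_right, h1]; push_cast; ring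
    · rw [Nat.choose_succ_succ' m 1]; push_cast; rw [h1, h2]; ring
    · rw [Nat.choose_succ_succ' m 2]; push_cast; rw [h2, h3]; ring
    · rw [Nat.choose_succ_succ' m 3]; push_cast; rw [h3, h4]; ring
    · rw [Nat.choose_succ_succ' m 4]; push_cast; rw [h4, h5]; ring
    · rw [Nat.choose_succ_succ' m 5]; push_cast; rw [h5, h6]; ring

variable {p : ℕ} [hp : Fact p.Prime]

theorem expand {t : ℚ} (ht : t ∈ Zp p) (m : ℕ) : ∃ P ∈ Zp p, (1 - t) ^ m = 1 - (m.choose 1 : ℕ) * t +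
    (m.choose 2 : ℕ) * t ^ 2 - (m.choose 3 : ℕ) * t ^ 3 + (m.choose 4 : ℕ) * t ^ 4 -
    (m.choose 5 : ℕ) * t ^ 5 + (m.choose 6 : ℕ) * t ^ 6 + t ^ 7 * P := by
  induction m with
  | zero => exact ⟨0, zero_mem _, by norm_num [Nat.choose]⟩
  | succ m ih =>
    obtain ⟨P, hP, h⟩ := ih
    refine ⟨(1 - t) * P - (m.choose 6 : ℕ), sub_mem (mul_mem (sub_mem (one_mem _) ht) hP)
      (nat_mem _), ?_⟩
    rw [pow_succ, h, Nat.choose_succ_succ' m 0, Nat.choose_succ_succ' m 1,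
      Nat.choose_succ_succ' m 2, Nat.choose_succ_succ' m 3, Nat.choose_succ_succ' m 4,
      Nat.choose_succ_succ' m 5, Nat.choose_zero_right]
    push_cast
    ring

/-- leading coefficient of `psi` -/
def kap (N : ℚ) : ℚ := (N - 1) * (2 * N - 1) * (2 * N) * (2 * N + 1) * (2 * N + 2) / 360

theorem U_small {a : ℕ} (h5 : 5 ≤ p) (ha : 0 < a) (ha5 : a < 5) : U p (a : ℚ) := by
  have : U p ((a : ℤ) : ℚ) := U_int (by
    intro h
    have h' : p ∣ a := by exact_mod_cast h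
    have := Nat.le_of_dvd ha h'
    omega)
  exact_mod_cast this

theorem U2 (h5 : 5 ≤ p) : U p (2 : ℚ) := by
  have := U_small (p := p) (a := 2) h5 (by norm_num) (by norm_num); exact_mod_cast this
theorem U3 (h5 : 5 ≤ p) : U p (3 : ℚ) := by
  have := U_small (p := p) (a := 3) h5 (by norm_num) (by norm_num); exact_mod_cast this

theorem div_mem {a b : ℚ} (ha : a ∈ Zp p) (hb : U p b) : a / b ∈ Zp p := by
  rw [div_eq_mul_inv]; exact mul_mem ha hb.2.2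

theorem n_mem (a : ℕ) [a.AtLeastTwo] : (OfNat.ofNat a : ℚ) ∈ Zp p := by
  exact_mod_cast nat_mem (p := p) a

theorem bb_mem (h5 : 5 ≤ p) (N : ℕ) : bb N ∈ Zp p := by
  unfold bb
  have h6 : U p (6 : ℚ) := by
    have := (U2 (p := p) h5).mul (U3 h5); norm_num at this; exact this
  refine div_mem (mul_mem (sub_mem (mul_mem (n_mem 2) (nat_mem N)) (one_mem _))
    (sub_mem (nat_mem N) (one_mem _))) h6

theorem psi_expand (h5 : 5 ≤ p) (N : ℕ) {t : ℚ} (ht : t ∈ Zp p) : ∃ P ∈ Zp p,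
    psi N t = kap N * (t ^ 5 * (1 + (3 / 2 - N) * t)) + t ^ 7 * P := by
  obtain ⟨P, hP, h⟩ := expand ht (2 * N)
  obtain ⟨h1, h2, h3, h4, h5', h6⟩ := choose_poly (2 * N)
  refine ⟨-(((N : ℚ) - 1) * ((2 * N).choose 6 : ℕ) - bb N * ((2 * N).choose 5 : ℕ) +
    t * (bb N * ((2 * N).choose 6 : ℕ))) - P * (1 + ((N : ℚ) - 1) * t + bb N * t ^ 2), ?_, ?_⟩
  · have hb := bb_mem (p := p) h5 N
    have hN : (N : ℚ) - 1 ∈ Zp p := sub_mem (nat_mem N) (one_mem _)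
    exact sub_mem (neg_mem (add_mem (sub_mem (mul_mem hN (nat_mem _)) (mul_mem hb (nat_mem _)))
      (mul_mem ht (mul_mem hb (nat_mem _)))))
      (mul_mem hP (add_mem (add_mem (one_mem _) (mul_mem hN ht)) (mul_mem hb (pow_mem ht 2))))
  · unfold psi
    rw [h, h1, h2, h3, h4, h5', h6]
    unfold kap bb
    push_cast
    ring

end Pool.Agent.R439.T3
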