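import Mathlib
import Pool.Agent.R439.T3A

set_option autoImplicit false

/-!
p-adic analysis for the sums of `T3A`.
-/

namespace Pool.Agent.R439.T3

open Finset Pool.Agent.R439.PL

variable {p : ℕ} [hp : Fact p.Prime]

/-- basic data: `m + 1 = p^r`, `N = 1 + p w` -/
structure Dat (p r N m w : ℕ) : Prop where
  h5 : 5 ≤ p
  hr : 0 < r
  hm : m + 1 = p ^ r
  hN : N = 1 + p * w

variable {r N m w : ℕ}

/-- the parameter `x = p^r/N` -/
def xx (p r N : ℕ) : ℚ := (p : ℚ) ^ r / N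

/-- `t_i = x/(i+1)` -/
def tt (p r N i : ℕ) : ℚ := xx p r N / ((i : ℚ) + 1)

theorem Dat.U_N (D0 : Dat p r N m w) : U p (N : ℚ) := by
  have : U p ((N : ℤ) : ℚ) := U_int (by
    intro h
    have h' : p ∣ N := by exact_mod_cast h
    rw [D0.hN] at h'
    have := (Nat.dvd_add_left (Dvd.intro w rfl)).1 h'
    have := Nat.le_of_dvd one_pos this
    have := D0.h5
    omega)
  exact_mod_cast this

theorem Dat.N_cast (D0 : Dat p r N m w) : (N : ℚ) = 1 + p * w := by
  rw [D0.hN]; push_cast; ring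

theorem I_pow_div {r j : ℕ} (hj : 0 < j) (h : j < p ^ r) : I p 1 ((p : ℚ) ^ r / j) := by
  obtain ⟨s, j', hj', rfl⟩ := Nat.exists_eq_pow_mul_and_not_dvd hj.ne' p hp.out.ne_one
  have hs : s < r := by
    by_contra hc
    push_neg at hc
    have h1 : p ^ r ≤ p ^ s := Nat.pow_le_pow_right hp.out.pos hc
    have h2 : 0 < j' := Nat.pos_of_ne_zero (fun h => hj' (h ▸ dvd_zero _))
    have h3 : p ^ s * 1 ≤ p ^ s * j' := Nat.mul_le_mul_left _ h2
    omega
  obtain ⟨e, rfl⟩ := Nat.exists_eq_add_of_lt hs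
  have hU : U p (j' : ℚ) := by
    have : U p ((j' : ℤ) : ℚ) := U_int (by
      intro h; exact hj' (by exact_mod_cast h))
    exact_mod_cast this
  refine ⟨(p : ℚ) ^ e * (j' : ℚ)⁻¹, mul_mem (pow_mem p_mem _) hU.2.2, ?_⟩
  have h0 := hU.1
  have h1 := p_ne (p := p)
  push_cast
  field_simp
  ring

theorem Dat.tt_I (D0 : Dat p r N m w) {i : ℕ} (hi : i < m) : I p 1 (tt p r N i) := by
  have h := I_pow_div (p := p) (r := r) (j := i + 1) (Nat.succ_pos _) (by have := D0.hm; omega)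
  have e : tt p r N i = (N : ℚ)⁻¹ * ((p : ℚ) ^ r / ((i + 1 : ℕ) : ℚ)) := by
    unfold tt xx
    have := D0.U_N.1
    have h1 : ((i : ℚ) + 1) ≠ 0 := by positivity
    push_cast
    field_simp
  rw [e]
  exact h.mulL D0.U_N.2.2

theorem Dat.tt_refl (D0 : Dat p r N m w) {i : ℕ} (hi : i < m) :
    tt p r N i + tt p r N (m - 1 - i) = N * (tt p r N i * tt p r N (m - 1 - i)) := by
  unfold tt xx
  have h0 := D0.U_N.1
  have h1 : ((i : ℚ) + 1) ≠ 0 := by positivity
  obtain ⟨k, rfl⟩ : ∃ k, m = i + 1 + k := ⟨m - (i + 1), by omega⟩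
  have h2 : ((i + 1 + k - 1 - i : ℕ) : ℚ) = k := by congr 1; omega
  have hm : (p : ℚ) ^ r = (i : ℚ) + 1 + k + 1 := by
    have := D0.hm
    have h : ((i + 1 + k + 1 : ℕ) : ℚ) = ((p ^ r : ℕ) : ℚ) := by rw [this]
    push_cast at h
    exact h.symm
  rw [h2, hm]
  have h3 : ((k : ℚ) + 1) ≠ 0 := by positivity
  field_simp
  ring

/-- `t t'` for a symmetric pair -/
def zz (p r N m i : ℕ) : ℚ := tt p r N i * tt p r N (m - 1 - i)

theorem Dat.zz_I (D0 : Dat p r N m w) {i : ℕ} (hi : i < m) : I p 2 (zz p r N m i) :=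
  (D0.tt_I hi).mul (D0.tt_I (by omega))

theorem Dat.pair (D0 : Dat p r N m w) {i : ℕ} (hi : i < m) :
    (1 - tt p r N i) * (1 - tt p r N (m - 1 - i)) = 1 - ((N : ℚ) - 1) * zz p r N m i := by
  have h := D0.tt_refl hi
  unfold zz
  linear_combination -h

theorem Dat.nu_I (D0 : Dat p r N m w) : I p 1 ((N : ℚ) - 1) :=
  ⟨w, nat_mem w, by rw [D0.N_cast]; ring⟩

theorem Dat.y_I (D0 : Dat p r N m w) {i : ℕ} (hi : i < m) :
    I p 3 (((N : ℚ) - 1) * zz p r N m i) := D0.nu_I.mul (D0.zz_I hi)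

theorem D_eq (p r N k : ℕ) : D (xx p r N) N k = ∏ j ∈ range k, (1 - tt p r N j) ^ (2 * N) := rfl

theorem Dat.tt_mem (D0 : Dat p r N m w) {i : ℕ} (hi : i < m) : tt p r N i ∈ Zp p := (D0.tt_I hi).mem

theorem Dat.D_mem (D0 : Dat p r N m w) {k : ℕ} (hk : k ≤ m) : D (xx p r N) N k ∈ Zp p := by
  rw [D_eq]
  exact prod_mem fun j hj => pow_mem (sub_mem (one_mem _) (D0.tt_mem (by
    have := mem_range.1 hj; omega))) _

/-- product of the last `k` factors -/
def Rr (p r N m k : ℕ) : ℚ := ∏ j ∈ range k, (1 - tt p r N (m - 1 - j)) ^ (2 * N)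

theorem Dat.R_mem (D0 : Dat p r N m w) {k : ℕ} (hk : k ≤ m) : Rr p r N m k ∈ Zp p := by
  unfold Rr
  exact prod_mem fun j hj => pow_mem (sub_mem (one_mem _) (D0.tt_mem (by
    have := mem_range.1 hj; omega))) _

theorem D_split (p r N m : ℕ) {k : ℕ} (hk : k ≤ m) :
    D (xx p r N) N m = D (xx p r N) N (m - k) * Rr p r N m k := by
  induction k with
  | zero => simp [Rr]
  | succ k ih =>
    rw [ih (by omega)]
    have h1 : Rr p r N m (k + 1) = Rr p r N m k * (1 - tt p r N (m - 1 - k)) ^ (2 * N) :=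
      prod_range_succ _ _
    have h2 : D (xx p r N) N (m - k) = D (xx p r N) N (m - (k + 1)) *
        (1 - tt p r N (m - 1 - k)) ^ (2 * N) := by
      have e : m - k = (m - (k + 1)) + 1 := by omega
      have e2 : m - (k + 1) = m - 1 - k := by omega
      rw [e, D_eq, D_eq, prod_range_succ, e2]
    rw [h1, h2]
    ring

theorem Dat.DR (D0 : Dat p r N m w) {k : ℕ} (hk : k ≤ m) :
    D (xx p r N) N k * Rr p r N m k = (∏ j ∈ range k, (1 - ((N : ℚ) - 1) * zz p r N m j)) ^ (2 * N) := by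
  rw [D_eq, Rr, ← prod_mul_distrib, ← prod_pow]
  refine prod_congr rfl fun j hj => ?_
  rw [← mul_pow, D0.pair (by have := mem_range.1 hj; omega)]

theorem prod_one_sub {n : ℕ} {y : ℕ → ℚ} {k : ℕ} (h : ∀ i < k, I p n (y i)) :
    EQ p (2 * n) (∏ i ∈ range k, (1 - y i)) (1 - ∑ i ∈ range k, y i) := by
  induction k with
  | zero => simpa using EQ.refl (one_mem (Zp p))
  | succ k ih =>
    have ih := ih fun i hi => h i (by omega)
    have hk := h k (by omega)
    have hS : I p n (∑ i ∈ range k, y i) := I.sum fun i hi => h i (by have := mem_range.1 hi; omega)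
    rw [prod_range_succ, sum_range_succ]
    have h1 := ih.mul (EQ.refl (p := p) (k := 2 * n) (sub_mem (one_mem _) hk.mem))
    refine h1.trans ⟨h1.2.1, sub_mem (one_mem _) (add_mem hS.mem hk.mem), ?_⟩
    have e : (1 - ∑ i ∈ range k, y i) * (1 - y k) - (1 - (∑ i ∈ range k, y i + y k)) =
        (∑ i ∈ range k, y i) * y k := by ring
    rw [e, two_mul]
    exact hS.mul hk

theorem Dat.DR_one (D0 : Dat p r N m w) {k : ℕ} (hk : k ≤ m) :
    EQ p 3 (D (xx p r N) N k * Rr p r N m k) 1 := by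
  rw [D0.DR hk]
  have h := (prod_one_sub (p := p) (n := 3) (k := k) (y := fun i => ((N : ℚ) - 1) * zz p r N m i)
    fun i hi => D0.y_I (by omega)).mono (l := 3) (by norm_num)
  have h2 : EQ p 3 (1 - ∑ i ∈ range k, ((N : ℚ) - 1) * zz p r N m i) 1 := by
    have hS : I p 3 (∑ i ∈ range k, ((N : ℚ) - 1) * zz p r N m i) :=
      I.sum fun i hi => D0.y_I (by have := mem_range.1 hi; omega)
    refine ⟨sub_mem (one_mem _) hS.mem, one_mem _, ?_⟩
    have := hS.neg
    convert this using 1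
    ring
  have h3 := (h.trans h2).pow (2 * N)
  rwa [one_pow] at h3

/-! ### sum of squares -/

/-- `x/j` -/
def ta (p r N j : ℕ) : ℚ := xx p r N / (j : ℚ)

theorem ta_tt (p r N i : ℕ) : ta p r N (i + 1) = tt p r N i := by
  unfold ta tt; push_cast; rfl

theorem Dat.ta_I (D0 : Dat p r N m w) {j : ℕ} (hj : 0 < j) (hj2 : j ≤ m) : I p 1 (ta p r N j) := by
  obtain ⟨i, rfl⟩ : ∃ i, j = i + 1 := ⟨j - 1, by omega⟩
  rw [ta_tt]
  exact D0.tt_I (by omega)

theorem Dat.ta_sq (D0 : Dat p r N m w) {j k : ℕ} (hj : 0 < j) (hk : 0 < k) (h : j + k = m + 1) :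
    I p 3 (ta p r N j ^ 2 - ta p r N k ^ 2) := by
  have h1 := D0.ta_I hj (by omega)
  have h2 := D0.ta_I hk (by omega)
  have h3 : ta p r N j + ta p r N k = N * (ta p r N j * ta p r N k) := by
    obtain ⟨i, rfl⟩ : ∃ i, j = i + 1 := ⟨j - 1, by omega⟩
    have := D0.tt_refl (i := i) (by omega)
    have e : m - 1 - i + 1 = k := by omega
    rw [← ta_tt, ← ta_tt, e] at this
    exact this
  have e : ta p r N j ^ 2 - ta p r N k ^ 2 = (N * (ta p r N j * ta p r N k)) *
      (ta p r N j - ta p r N k) := by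
    rw [← h3]; ring
  rw [e]
  exact ((h1.mul h2).mulL (nat_mem N)).mul (h1.sub h2)

theorem Dat.sumsq (D0 : Dat p r N m w) : I p 3 (∑ i ∈ range m, tt p r N i ^ 2) := by
  obtain ⟨h, hh⟩ : ∃ h, m = 2 * h := by
    have h1 : ¬ 2 ∣ p := by
      intro h2
      have := (Nat.prime_dvd_prime_iff_eq Nat.prime_two hp.out).1 h2
      have := D0.h5
      omega
    have h2 : Odd (p ^ r) := by
      apply Odd.pow
      exact Nat.not_even_iff_odd.1 (fun h => h1 h.two_dvd)
    rw [← D0.hm] at h2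
    obtain ⟨c, hc⟩ := h2
    exact ⟨c, by omega⟩
  have hS1 : ∀ H : ℕ, ∑ i ∈ range (2 * H), tt p r N i ^ 2 =
      ∑ i ∈ range H, (ta p r N (2 * i + 1) ^ 2 + ta p r N (2 * i + 2) ^ 2) := by
    intro H
    induction H with
    | zero => simp
    | succ H ih =>
      have e : 2 * (H + 1) = 2 * H + 1 + 1 := by ring
      rw [e, sum_range_succ, sum_range_succ, ih, sum_range_succ, ← ta_tt, ← ta_tt]
      ring
  set S := ∑ i ∈ range m, tt p r N i ^ 2 with hSd
  set H := ∑ i ∈ range h, ta p r N (i + 1) ^ 2 with hHd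
  have hH2 : H = ∑ i ∈ range h, ta p r N (h - i) ^ 2 := by
    rw [hHd, ← sum_range_reflect]
    refine sum_congr rfl fun i hi => ?_
    have := mem_range.1 hi
    have e : h - 1 - i + 1 = h - i := by omega
    rw [e]
  have hdb : ∀ j : ℕ, 0 < j → ta p r N (2 * j) ^ 2 = ta p r N j ^ 2 / 4 := by
    intro j hj
    unfold ta
    push_cast
    have : (j : ℚ) ≠ 0 := by exact_mod_cast hj.ne'
    field_simp
    norm_num
  have hA : I p 3 (S - H / 2) := by
    have e : S - H / 2 = ∑ i ∈ range h, (ta p r N (2 * i + 1) ^ 2 - ta p r N (2 * (h - i)) ^ 2) := by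
      rw [hSd, hh, hS1 h, sum_add_distrib, sum_sub_distrib]
      have e1 : ∑ i ∈ range h, ta p r N (2 * i + 2) ^ 2 = H / 4 := by
        rw [hHd, sum_div]
        refine sum_congr rfl fun i _ => ?_
        rw [← hdb (i + 1) (Nat.succ_pos _)]
        congr 2
      have e2 : ∑ i ∈ range h, ta p r N (2 * (h - i)) ^ 2 = H / 4 := by
        rw [hH2, sum_div]
        refine sum_congr rfl fun i hi => ?_
        have := mem_range.1 hi
        rw [← hdb (h - i) (by omega)]
      rw [e1, e2]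
      ring
    rw [e]
    refine I.sum fun i hi => D0.ta_sq (by omega) (by have := mem_range.1 hi; omega) ?_
    have := mem_range.1 hi
    omega
  have hB : I p 3 (S - 2 * H) := by
    have e : S - 2 * H = ∑ i ∈ range h, (ta p r N (h + i + 1) ^ 2 - ta p r N (h - i) ^ 2) := by
      rw [hSd, hh, two_mul h, sum_range_add, sum_sub_distrib, ← hH2]
      simp only [← ta_tt]
      rw [← hHd]
      ring
    rw [e]
    refine I.sum fun i hi => D0.ta_sq (by omega) (by have := mem_range.1 hi; omega) ?_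
    have := mem_range.1 hi
    omega
  have h3 : I p 3 (3 * S) := by
    have e : 3 * S = 4 * (S - H / 2) - (S - 2 * H) := by ring
    rw [e]
    exact (hA.mulL (n_mem 4)).sub hB
  exact (U3 D0.h5).cancel h3

theorem Dat.sumz (D0 : Dat p r N m w) : I p 3 (∑ i ∈ range m, zz p r N m i) := by
  have e : ∑ i ∈ range m, zz p r N m i = ∑ i ∈ range m, (zz p r N m i + tt p r N i ^ 2) -
      ∑ i ∈ range m, tt p r N i ^ 2 := by
    rw [sum_add_distrib]; ring
  rw [e]
  refine (I.sum fun i hi => ?_).sub D0.sumsq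
  have hi := mem_range.1 hi
  have e2 : zz p r N m i + tt p r N i ^ 2 = (tt p r N i * (N * (tt p r N i * tt p r N (m - 1 - i)))) := by
    rw [← D0.tt_refl hi]
    unfold zz
    ring
  rw [e2]
  exact (D0.tt_I hi).mul (((D0.tt_I hi).mul (D0.tt_I (by omega))).mulL (nat_mem N))

theorem Dat.D_m (D0 : Dat p r N m w) : EQ p 4 (D (xx p r N) N m) 1 := by
  have h1 : D (xx p r N) N m = (∏ j ∈ range m, (1 - ((N : ℚ) - 1) * zz p r N m j)) ^ N := by
    have e : ∏ j ∈ range m, (1 - tt p r N (m - 1 - j)) = ∏ j ∈ range m, (1 - tt p r N j) :=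
      prod_range_reflect (fun j => 1 - tt p r N j) m
    rw [D_eq, prod_pow, pow_mul, sq]
    nth_rewrite 2 [← e]
    rw [← prod_mul_distrib]
    congr 1
    exact prod_congr rfl fun j hj => D0.pair (mem_range.1 hj)
  rw [h1]
  have h := (prod_one_sub (p := p) (n := 3) (k := m) (y := fun i => ((N : ℚ) - 1) * zz p r N m i)
    fun i hi => D0.y_I (by omega)).mono (l := 4) (by norm_num)
  have h2 : EQ p 4 (1 - ∑ i ∈ range m, ((N : ℚ) - 1) * zz p r N m i) 1 := by
    have hS : I p 4 (∑ i ∈ range m, ((N : ℚ) - 1) * zz p r N m i) := by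
      rw [← mul_sum]
      exact D0.nu_I.mul D0.sumz
    refine ⟨sub_mem (one_mem _) hS.mem, one_mem _, ?_⟩
    have := hS.neg
    convert this using 1
    ring
  have h3 := (h.trans h2).pow N
  rwa [one_pow] at h3

theorem Dat.D_refl (D0 : Dat p r N m w) {k : ℕ} (hk : k ≤ m) :
    EQ p 3 (D (xx p r N) N (m - k)) (D (xx p r N) N k) := by
  have h1 := D0.DR_one hk
  have h2 := D_split p r N m hk
  have h3 := D0.D_m.mono (l := 3) (by norm_num)
  have hA := D0.D_mem (k := m - k) (by omega)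
  have hB := D0.D_mem hk
  have h4 : EQ p 3 (D (xx p r N) N (m - k) * (D (xx p r N) N k * Rr p r N m k))
      (D (xx p r N) N (m - k) * 1) := (EQ.refl hA).mul h1
  have h5 : D (xx p r N) N (m - k) * (D (xx p r N) N k * Rr p r N m k) =
      D (xx p r N) N k * D (xx p r N) N m := by rw [h2]; ring
  have h6 : EQ p 3 (D (xx p r N) N k * D (xx p r N) N m) (D (xx p r N) N k * 1) :=
    (EQ.refl hB).mul h3
  rw [h5, mul_one] at h4
  rw [mul_one] at h6
  exact h4.symm.trans h6

end Pool.Agent.R439.T3
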