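import Mathlib
import Pool.Agent.R439.T3B

set_option autoImplicit false

/-!
The main estimate.
-/

namespace Pool.Agent.R439.T3

open Finset Pool.Agent.R439.PL

variable {p : ℕ} [hp : Fact p.Prime] {r N m w : ℕ}

theorem kap_mem (h5 : 5 ≤ p) (hN : N = 1 + p * w) : kap N ∈ Zp p := by
  unfold kap
  subst hN
  by_cases hp5 : p = 5
  · have e : (((1 + p * w : ℕ) : ℚ) - 1) * (2 * ((1 + p * w : ℕ) : ℚ) - 1) *
        (2 * ((1 + p * w : ℕ) : ℚ)) * (2 * ((1 + p * w : ℕ) : ℚ) + 1) *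
        (2 * ((1 + p * w : ℕ) : ℚ) + 2) / 360 = ((w * (2 * (1 + p * w) - 1) * (2 * (1 + p * w)) *
        (2 * (1 + p * w) + 1) * (2 * (1 + p * w) + 2) : ℤ) : ℚ) / (72 : ℤ) := by
      rw [hp5]; push_cast; ring
    rw [e]
    exact ⟨_, 72, by rw [hp5]; norm_num, rfl⟩
  · have h7 : 7 ≤ p := by
      by_contra h
      have : p = 6 := by omega
      rw [this] at hp
      exact absurd hp.out (by norm_num)
    have hU : U p (360 : ℚ) := by
      have : U p ((360 : ℤ) : ℚ) := U_int (by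
        intro h
        have h' : p ∣ 360 := by exact_mod_cast h
        have h2 : p ∣ 2 ^ 3 * 3 ^ 2 * 5 := by norm_num; exact h'
        rcases (hp.out.dvd_mul).1 h2 with h3 | h3
        · rcases (hp.out.dvd_mul).1 h3 with h4 | h4
          · have := Nat.le_of_dvd (by norm_num) (hp.out.dvd_of_dvd_pow h4); omega
          · have := Nat.le_of_dvd (by norm_num) (hp.out.dvd_of_dvd_pow h4); omega
        · have := Nat.le_of_dvd (by norm_num) h3; omega)
      exact_mod_cast this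
    refine div_mem ?_ hU
    have h1 : ((1 + p * w : ℕ) : ℚ) ∈ Zp p := nat_mem _
    exact mul_mem (mul_mem (mul_mem (mul_mem (sub_mem h1 (one_mem _))
      (sub_mem (mul_mem (n_mem 2) h1) (one_mem _))) (mul_mem (n_mem 2) h1))
      (add_mem (mul_mem (n_mem 2) h1) (one_mem _))) (add_mem (mul_mem (n_mem 2) h1) (n_mem 2))

/-- the algebraic core of the symmetric cancellation -/
theorem core {P a b A A' c e n v : ℚ} (hb : b = -a + P * (n * a * b)) (hn : n = 1 + P * v)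
    (hA' : A' = A * (1 - 2 * n * (P * a) + (P * a) ^ 2 * c) + P ^ 3 * e) :
    A * (P * a) ^ 3 + A' * (P * b) ^ 3 + (3 - 2 * n) * A * (P * a) ^ 4 =
      P ^ 5 * (A * a ^ 2 * c * b ^ 3 + P * e * b ^ 3
        - 3 * v * A * a ^ 4 + 6 * A * n ^ 2 * a ^ 5 +
        A * (1 - 2 * n * (P * a)) * (-(3 * a ^ 2 * n ^ 2 * a ^ 2 * b) * 0
          + (3 * a ^ 2 * (n * a) * (n * a * b) - 3 * a * (n * a * b) ^ 2 + P * (n * a * b) ^ 3))) := by
  have hb3 : b ^ 3 = -a ^ 3 - 3 * P * n * a ^ 4 + P ^ 2 * (3 * a ^ 2 * (n * a) * (n * a * b) -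
      3 * a * (n * a * b) ^ 2 + P * (n * a * b) ^ 3) := by
    have h1 : b ^ 3 = (-a + P * (n * a * b)) ^ 3 := by rw [← hb]
    have h2 : (-a + P * (n * a * b)) ^ 3 = -a ^ 3 + 3 * a ^ 2 * P * (n * a * b) -
      3 * a * P ^ 2 * (n * a * b) ^ 2 + P ^ 3 * (n * a * b) ^ 3 := by ring
    have h3 : 3 * a ^ 2 * P * (n * a * b) = 3 * a ^ 2 * P * (n * a * (-a + P * (n * a * b))) := by
      rw [← hb]
    rw [h1, h2, h3]
    ring
  rw [hA']
  generalize hW : 3 * a ^ 2 * (n * a) * (n * a * b) - 3 * a * (n * a * b) ^ 2 +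
    P * (n * a * b) ^ 3 = W at *
  have e1 : A * (P * a) ^ 3 + (A * (1 - 2 * n * (P * a) + (P * a) ^ 2 * c) + P ^ 3 * e) *
      (P * b) ^ 3 + (3 - 2 * n) * A * (P * a) ^ 4 = P ^ 3 * (A * a ^ 3 + A * (1 - 2 * n * (P * a)) *
      b ^ 3 + (3 - 2 * n) * A * P * a ^ 4) + P ^ 5 * (A * a ^ 2 * c * b ^ 3 + P * e * b ^ 3) := by
    ring
  rw [e1]
  have e2 : A * a ^ 3 + A * (1 - 2 * n * (P * a)) * b ^ 3 + (3 - 2 * n) * A * P * a ^ 4 =
      A * a ^ 3 + A * (1 - 2 * n * (P * a)) * (-a ^ 3 - 3 * P * n * a ^ 4 + P ^ 2 * W) +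
      (3 - 2 * n) * A * P * a ^ 4 := by rw [hb3]
  rw [e2, hn]
  ring

theorem Dat.pair_sum (D0 : Dat p r N m w) {i : ℕ} (hi : i < m) :
    I p 5 (D (xx p r N) N i * tt p r N i ^ 3 + D (xx p r N) N (m - 1 - i) *
      tt p r N (m - 1 - i) ^ 3 + (3 - 2 * N) * D (xx p r N) N i * tt p r N i ^ 4) := by
  obtain ⟨a, ha, hta⟩ := D0.tt_I hi
  obtain ⟨b, hb, htb⟩ := D0.tt_I (i := m - 1 - i) (by omega)
  rw [pow_one] at hta htb
  have hr := D0.tt_refl hi
  have h1 := D0.D_refl (k := i + 1) (by omega)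
  have e1 : m - (i + 1) = m - 1 - i := by omega
  rw [e1] at h1
  have hAm := D0.D_mem (k := i) (by omega)
  obtain ⟨e, he, hee⟩ := h1.2.2
  obtain ⟨c, hc, hcc⟩ := expand (D0.tt_mem hi) (2 * N)
  have hnm : (N : ℚ) ∈ Zp p := nat_mem N
  have hch : ∃ c' ∈ Zp p, (1 - tt p r N i) ^ (2 * N) = 1 - 2 * N * tt p r N i +
      tt p r N i ^ 2 * c' := by
    have ht := D0.tt_mem hi
    refine ⟨((2 * N).choose 2 : ℕ) - ((2 * N).choose 3 : ℕ) * tt p r N i +
      ((2 * N).choose 4 : ℕ) * tt p r N i ^ 2 - ((2 * N).choose 5 : ℕ) * tt p r N i ^ 3 +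
      ((2 * N).choose 6 : ℕ) * tt p r N i ^ 4 + tt p r N i ^ 5 * c, ?_, ?_⟩
    · exact add_mem (add_mem (sub_mem (add_mem (sub_mem (nat_mem _) (mul_mem (nat_mem _) ht))
        (mul_mem (nat_mem _) (pow_mem ht 2))) (mul_mem (nat_mem _) (pow_mem ht 3)))
        (mul_mem (nat_mem _) (pow_mem ht 4))) (mul_mem (pow_mem ht 5) hc)
    · rw [hcc, (choose_poly (2 * N)).1]
      push_cast
      ring
  obtain ⟨c', hc', hcc'⟩ := hch
  have hA' : D (xx p r N) N (m - 1 - i) = D (xx p r N) N i * (1 - 2 * N * ((p : ℚ) * a) +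
      ((p : ℚ) * a) ^ 2 * c') + (p : ℚ) ^ 3 * e := by
    have h2 := D_succ (xx p r N) N i
    have h3 : xx p r N / ((i : ℚ) + 1) = tt p r N i := rfl
    rw [h3, hcc', hta] at h2
    rw [← h2]
    linear_combination hee
  have hbb : b = -a + (p : ℚ) * ((N : ℚ) * a * b) := by
    rw [hta, htb] at hr
    have h0 := p_ne (p := p)
    have : (p : ℚ) * b = p * (-a + (p : ℚ) * ((N : ℚ) * a * b)) := by linear_combination hr
    exact mul_left_cancel₀ h0 this
  have hfin := core (A := D (xx p r N) N i) hbb D0.N_cast hA'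
  rw [hta, htb]
  refine ⟨_, ?_, hfin⟩
  have hP := p_mem (p := p)
  have hv : (w : ℚ) ∈ Zp p := nat_mem w
  have hnab : (N : ℚ) * a * b ∈ Zp p := mul_mem (mul_mem hnm ha) hb
  have h3 : (3 : ℚ) ∈ Zp p := n_mem 3
  have h2 : (2 : ℚ) ∈ Zp p := n_mem 2
  have h6 : (6 : ℚ) ∈ Zp p := n_mem 6
  generalize D (xx p r N) N i = A at *
  refine add_mem (add_mem (sub_mem (add_mem ?_ ?_) ?_) ?_) (mul_mem ?_ (add_mem ?_ ?_))
  · exact mul_mem (mul_mem (mul_mem hAm (pow_mem ha 2)) hc') (pow_mem hb 3)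
  · exact mul_mem (mul_mem hP he) (pow_mem hb 3)
  · exact mul_mem (mul_mem (mul_mem h3 hv) hAm) (pow_mem ha 4)
  · exact mul_mem (mul_mem (mul_mem h6 hAm) (pow_mem hnm 2)) (pow_mem ha 5)
  · exact mul_mem hAm (sub_mem (one_mem _) (mul_mem (mul_mem h2 hnm) (mul_mem hP ha)))
  · rw [mul_zero]; exact zero_mem _
  · exact add_mem (sub_mem (mul_mem (mul_mem (mul_mem h3 (pow_mem ha 2)) (mul_mem hnm ha)) hnab)
      (mul_mem (mul_mem h3 ha) (pow_mem hnab 2))) (mul_mem hP (pow_mem hnab 3))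

theorem Dat.Y_sum (D0 : Dat p r N m w) :
    I p 5 (∑ i ∈ range m, D (xx p r N) N i * (tt p r N i ^ 3 + (3 / 2 - N) * tt p r N i ^ 4)) := by
  apply (U2 D0.h5).cancel
  have e : 2 * ∑ i ∈ range m, D (xx p r N) N i * (tt p r N i ^ 3 + (3 / 2 - N) * tt p r N i ^ 4) =
      ∑ i ∈ range m, (D (xx p r N) N i * tt p r N i ^ 3 + D (xx p r N) N (m - 1 - i) *
      tt p r N (m - 1 - i) ^ 3 + (3 - 2 * N) * D (xx p r N) N i * tt p r N i ^ 4) := by
    rw [sum_add_distrib, sum_add_distrib,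
      sum_range_reflect (fun i => D (xx p r N) N i * tt p r N i ^ 3) m, mul_sum,
      ← sum_add_distrib, ← sum_add_distrib]
    refine sum_congr rfl fun i _ => ?_
    ring
  rw [e]
  exact I.sum fun i hi => D0.pair_sum (mem_range.1 hi)

theorem Dat.W_sum (D0 : Dat p r N m w) :
    I p (2 * r + 5) (∑ l ∈ range m, ((l : ℚ) + 1) ^ 2 * D (xx p r N) N l *
      psi N (xx p r N / ((l : ℚ) + 1))) := by
  have hx : xx p r N ^ 2 = (p : ℚ) ^ (2 * r) * ((N : ℚ)⁻¹) ^ 2 := by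
    unfold xx; rw [div_eq_mul_inv]; ring
  have hterm : ∀ l ∈ range m, ∃ P ∈ Zp p, ((l : ℚ) + 1) ^ 2 * D (xx p r N) N l *
      psi N (xx p r N / ((l : ℚ) + 1)) = xx p r N ^ 2 * (kap N * (D (xx p r N) N l *
      (tt p r N l ^ 3 + (3 / 2 - N) * tt p r N l ^ 4)) + tt p r N l ^ 5 * P) := by
    intro l hl
    have hl := mem_range.1 hl
    obtain ⟨P, hP, h⟩ := psi_expand D0.h5 N (D0.tt_mem hl)
    refine ⟨D (xx p r N) N l * P, mul_mem (D0.D_mem (by omega)) hP, ?_⟩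
    have h3 : xx p r N / ((l : ℚ) + 1) = tt p r N l := rfl
    rw [h3, h]
    have h4 : xx p r N = ((l : ℚ) + 1) * tt p r N l := by
      unfold tt
      have : ((l : ℚ) + 1) ≠ 0 := by positivity
      field_simp
    generalize D (xx p r N) N l = A at *
    rw [h4]
    ring
  choose! P hP hPe using hterm
  rw [sum_congr rfl hPe, ← mul_sum, sum_add_distrib, ← mul_sum, hx, mul_assoc]
  have h1 : I p 5 (kap N * ∑ i ∈ range m, D (xx p r N) N i *
      (tt p r N i ^ 3 + (3 / 2 - N) * tt p r N i ^ 4)) := D0.Y_sum.mulL (kap_mem D0.h5 D0.hN)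
  have h2 : I p 5 (∑ i ∈ range m, tt p r N i ^ 5 * P i) := I.sum fun i hi => by
    have h := D0.tt_I (mem_range.1 hi)
    have h5 : I p 5 (tt p r N i ^ 5) := by
      have := ((((h.mul h).mul h).mul h).mul h)
      have e : tt p r N i ^ 5 = tt p r N i * tt p r N i * tt p r N i * tt p r N i * tt p r N i := by
        ring
      rw [e]; exact this
    exact h5.mulR (hP i hi)
  have h3 : I p (2 * r) ((p : ℚ) ^ (2 * r)) := ⟨1, one_mem _, by ring⟩
  exact h3.mul ((h1.add h2).mulL (pow_mem D0.U_N.2.2 2))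

theorem Dat.T_sum (D0 : Dat p r N m w) :
    I p (2 * r + 5) (∑ k ∈ range (m + 1), (2 * (k : ℚ) + 1 - xx p r N) * D (xx p r N) N k) := by
  have hid := identity (xx p r N) N m
  have hn : (N : ℚ) * xx p r N = (m : ℚ) + 1 := by
    have h : ((m + 1 : ℕ) : ℚ) = ((p ^ r : ℕ) : ℚ) := by rw [D0.hm]
    push_cast at h
    unfold xx
    rw [h]
    have := D0.U_N.1
    field_simp
  have hpr : (N : ℚ) * xx p r N = (p : ℚ) ^ r := by
    unfold xx
    have := D0.U_N.1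
    field_simp
  have hA : ((m : ℚ) + 1 - xx p r N) ^ 2 - ((N : ℚ) - 1) * xx p r N * (m + 1) +
      ((N : ℚ) - 1) * xx p r N ^ 2 + bb N * xx p r N ^ 2 = bb N * xx p r N ^ 2 := by
    rw [← hn]; ring
  rw [hA] at hid
  have hU : U p (1 - (N : ℚ) * xx p r N) := by
    rw [hpr]
    have : U p (((1 - (p : ℤ) ^ r : ℤ)) : ℚ) := U_int (by
      intro h
      have h1 : (p : ℤ) ∣ (p : ℤ) ^ r := dvd_pow_self _ D0.hr.ne'
      have h2 : (p : ℤ) ∣ 1 := by
        have := dvd_add h h1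
        simpa using this
      exact (pz (p := p)).not_dvd_one h2)
    push_cast at this
    exact this
  apply hU.cancel
  rw [hid]
  refine I.add ?_ D0.W_sum
  have e : bb N * xx p r N ^ 2 * D (xx p r N) N m - bb N * xx p r N ^ 2 =
      (p : ℚ) ^ (2 * r) * (bb N * ((D (xx p r N) N m - 1) * ((N : ℚ)⁻¹) ^ 2)) := by
    have hx : xx p r N ^ 2 = (p : ℚ) ^ (2 * r) * ((N : ℚ)⁻¹) ^ 2 := by
      unfold xx; rw [div_eq_mul_inv]; ring
    rw [hx]; ring
  rw [e]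
  have h3 : I p (2 * r) ((p : ℚ) ^ (2 * r)) := ⟨1, one_mem _, by ring⟩
  have h4 : I p 1 (bb N) := by
    have e : bb N = ((N : ℚ) - 1) * ((2 * N - 1) / 6) := by unfold bb; ring
    rw [e]
    have h6 : U p (6 : ℚ) := by
      have := (U2 (p := p) D0.h5).mul (U3 D0.h5); norm_num at this; exact this
    exact D0.nu_I.mulR (div_mem (sub_mem (mul_mem (n_mem 2) (nat_mem N)) (one_mem _)) h6)
  exact h3.mul (h4.mul (D0.D_m.2.2.mulR (pow_mem D0.U_N.2.2 2)))

end Pool.Agent.R439.T3
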