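import Mathlib
import Pool.Agent.R439.G3A
import Pool.Agent.R439.T3C

set_option autoImplicit false

/-!
Second order expansions modulo `p^3`.
-/

namespace Pool.Agent.R439.G3

open Finset Pool.Agent.R439.PL Pool.Agent.R439.T3

variable {p : ℕ} [hp : Fact p.Prime]

/-- `f t = f0 + c1 t + c2 t^2` modulo `p^3` with `p ∣ c1`, `p^2 ∣ c2` -/
def Q3 (p : ℕ) [Fact p.Prime] (f : ℕ → ℚ) (f0 c1 c2 : ℚ) : Prop :=
  f0 ∈ Zp p ∧ I p 1 c1 ∧ I p 2 c2 ∧ ∀ t : ℕ, I p 3 (f t - (f0 + c1 * t + c2 * t ^ 2))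

variable {f g : ℕ → ℚ} {f0 c1 c2 g0 d1 d2 : ℚ}

theorem Q3.const {c : ℚ} (hc : c ∈ Zp p) : Q3 p (fun _ => c) c 0 0 :=
  ⟨hc, I.zero, I.zero, fun t => by
    have : c - (c + 0 * (t : ℚ) + 0 * (t : ℚ) ^ 2) = 0 := by ring
    rw [this]; exact I.zero⟩

theorem Q3.add (h : Q3 p f f0 c1 c2) (h' : Q3 p g g0 d1 d2) :
    Q3 p (fun t => f t + g t) (f0 + g0) (c1 + d1) (c2 + d2) :=
  ⟨add_mem h.1 h'.1, h.2.1.add h'.2.1, h.2.2.1.add h'.2.2.1, fun t => by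
    have := (h.2.2.2 t).add (h'.2.2.2 t)
    convert this using 1
    ring⟩

theorem Q3.smul {c : ℚ} (hc : c ∈ Zp p) (h : Q3 p f f0 c1 c2) :
    Q3 p (fun t => c * f t) (c * f0) (c * c1) (c * c2) :=
  ⟨mul_mem hc h.1, h.2.1.mulL hc, h.2.2.1.mulL hc, fun t => by
    have := (h.2.2.2 t).mulL hc
    convert this using 1
    ring⟩

theorem Q3.mul (h : Q3 p f f0 c1 c2) (h' : Q3 p g g0 d1 d2) :
    Q3 p (fun t => f t * g t) (f0 * g0) (f0 * d1 + g0 * c1) (f0 * d2 + g0 * c2 + c1 * d1) := by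
  obtain ⟨a1, a2, a3, a4⟩ := h
  obtain ⟨b1, b2, b3, b4⟩ := h'
  refine ⟨mul_mem a1 b1, (b2.mulL a1).add (a2.mulL b1), ((b3.mulL a1).add (a3.mulL b1)).add
    (a2.mul b2), fun t => ?_⟩
  have ht : (t : ℚ) ∈ Zp p := nat_mem t
  have hF : f0 + c1 * t + c2 * t ^ 2 ∈ Zp p := add_mem (add_mem a1 (mul_mem a2.mem ht))
    (mul_mem a3.mem (pow_mem ht 2))
  have hG : g t ∈ Zp p := by
    have h1 := (b4 t).mem
    have hG0 : g0 + d1 * t + d2 * t ^ 2 ∈ Zp p := add_mem (add_mem b1 (mul_mem b2.mem ht))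
      (mul_mem b3.mem (pow_mem ht 2))
    have := add_mem h1 hG0
    convert this using 1
    ring
  have e : f t * g t - (f0 * g0 + (f0 * d1 + g0 * c1) * t + (f0 * d2 + g0 * c2 + c1 * d1) * t ^ 2) =
      (f t - (f0 + c1 * t + c2 * t ^ 2)) * g t + (f0 + c1 * t + c2 * t ^ 2) *
      (g t - (g0 + d1 * t + d2 * t ^ 2)) + (c1 * d2 * t ^ 3 + c2 * d1 * t ^ 3 +
      c2 * d2 * t ^ 4) := by ring
  rw [e]
  refine (((a4 t).mulR hG).add ((b4 t).mulL hF)).add (((I.mulR ?_ (pow_mem ht 3)).add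
    (I.mulR ?_ (pow_mem ht 3))).add (I.mulR ?_ (pow_mem ht 4)))
  · exact a2.mul b3
  · exact a3.mul b2
  · exact (a3.mul b3).mono (by norm_num)

theorem Q3.quad {u v w : ℚ} (hu : u ∈ Zp p) (hv : v ∈ Zp p) (hw : w ∈ Zp p)
    (hf : ∀ t : ℕ, f t = u + (p : ℚ) * v * t + (p : ℚ) ^ 2 * w * t ^ 2) :
    Q3 p f u ((p : ℚ) * v) ((p : ℚ) ^ 2 * w) :=
  ⟨hu, ⟨v, hv, by ring⟩, ⟨w, hw, rfl⟩, fun t => by
    rw [hf, sub_self]; exact I.zero⟩

theorem Q3.prod {F : ℕ → ℕ → ℚ} {k : ℕ} (h : ∀ j < k, ∃ b0 b1 b2, Q3 p (F j) b0 b1 b2) :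
    ∃ b0 b1 b2, Q3 p (fun t => ∏ j ∈ range k, F j t) b0 b1 b2 := by
  induction k with
  | zero => exact ⟨1, 0, 0, by simpa using Q3.const (p := p) (one_mem _)⟩
  | succ k ih =>
    obtain ⟨b0, b1, b2, hb⟩ := ih fun j hj => h j (by omega)
    obtain ⟨a0, a1, a2, ha⟩ := h k (by omega)
    refine ⟨b0 * a0, b0 * a1 + a0 * b1, b0 * a2 + a0 * b2 + b1 * a1, ?_⟩
    have := hb.mul ha
    simpa only [prod_range_succ] using this

theorem Q3.unique (h2 : U p (2 : ℚ)) (h : Q3 p f f0 c1 c2) (h' : Q3 p f g0 d1 d2) :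
    I p 3 (f0 - g0) ∧ I p 3 (c1 - d1) ∧ I p 3 (c2 - d2) := by
  have e0 := (h'.2.2.2 0).sub (h.2.2.2 0)
  have e1 := (h'.2.2.2 1).sub (h.2.2.2 1)
  have e2 := (h'.2.2.2 2).sub (h.2.2.2 2)
  push_cast at e0 e1 e2
  have a0 : I p 3 (f0 - g0) := by convert e0 using 1; ring
  have a1 : I p 3 (f0 - g0 + (c1 - d1) + (c2 - d2)) := by convert e1 using 1; ring
  have a2 : I p 3 (f0 - g0 + 2 * (c1 - d1) + 4 * (c2 - d2)) := by convert e2 using 1; ring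
  have b1 : I p 3 ((c1 - d1) + (c2 - d2)) := by
    have := a1.sub a0; convert this using 1; ring
  have b2 : I p 3 (2 * (c2 - d2)) := by
    have := (a2.sub a0).sub (b1.mulL (x := 2) h2.2.1); convert this using 1; ring
  have b3 := h2.cancel b2
  refine ⟨a0, ?_, b3⟩
  have := b1.sub b3; convert this using 1; ring

/-- logarithmic form of the expansion -/
def LQ (p : ℕ) [Fact p.Prime] (f : ℕ → ℚ) (f0 x y : ℚ) : Prop :=
  U p f0 ∧ I p 1 x ∧ I p 2 y ∧ ∀ t : ℕ, I p 3 (f t - f0 * (1 + x * t + (x ^ 2 + y) / 2 * t ^ 2))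

variable {x y x' y' : ℚ}

theorem LQ.toQ3 (h2 : U p (2 : ℚ)) (h : LQ p f f0 x y) :
    Q3 p f f0 (f0 * x) (f0 * ((x ^ 2 + y) / 2)) := by
  obtain ⟨a1, a2, a3, a4⟩ := h
  refine ⟨a1.2.1, a2.mulL a1.2.1, I.mulL a1.2.1 ?_, fun t => ?_⟩
  · rw [div_eq_mul_inv]
    refine I.mulR (I.add ?_ a3) h2.2.2
    rw [sq]; exact a2.mul a2
  · have := a4 t
    convert this using 1
    ring

theorem LQ.mul (h2 : U p (2 : ℚ)) (h : LQ p f f0 x y) (h' : LQ p g g0 x' y') :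
    LQ p (fun t => f t * g t) (f0 * g0) (x + x') (y + y') := by
  have q := (h.toQ3 h2).mul (h'.toQ3 h2)
  obtain ⟨a1, a2, a3, a4⟩ := h
  obtain ⟨b1, b2, b3, b4⟩ := h'
  refine ⟨a1.mul b1, a2.add b2, a3.add b3, fun t => ?_⟩
  have := q.2.2.2 t
  convert this using 1
  ring

theorem LQ.one (h2 : U p (2 : ℚ)) : LQ p (fun _ => 1) 1 0 0 :=
  ⟨U.one, I.zero, I.zero, fun t => by
    have : (1 : ℚ) - 1 * (1 + 0 * t + (0 ^ 2 + 0) / 2 * t ^ 2) = 0 := by ring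
    rw [this]; exact I.zero⟩

theorem LQ.prod (h2 : U p (2 : ℚ)) {F : ℕ → ℕ → ℚ} {u X Y : ℕ → ℚ} {k : ℕ}
    (h : ∀ j < k, LQ p (F j) (u j) (X j) (Y j)) :
    LQ p (fun t => ∏ j ∈ range k, F j t) (∏ j ∈ range k, u j) (∑ j ∈ range k, X j)
      (∑ j ∈ range k, Y j) := by
  induction k with
  | zero => simpa using LQ.one (p := p) h2
  | succ k ih =>
    have := (ih fun j hj => h j (by omega)).mul h2 (h k (by omega))
    simpa only [prod_range_succ, sum_range_succ] using this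

theorem LQ.lin {u v : ℚ} (hu : U p u) (hv : v ∈ Zp p) (hf : ∀ t : ℕ, f t = u + (p : ℚ) * v * t) :
    LQ p f u ((p : ℚ) * v / u) (-((p : ℚ) * v / u) ^ 2) := by
  have hu0 := hu.1
  have h1 : I p 1 ((p : ℚ) * v / u) := ⟨v * u⁻¹, mul_mem hv hu.2.2, by rw [div_eq_mul_inv]; ring⟩
  refine ⟨hu, h1, ?_, fun t => ?_⟩
  · refine I.neg ?_
    rw [sq]; exact h1.mul h1
  · rw [hf]
    have : u + (p : ℚ) * v * t - u * (1 + (p : ℚ) * v / u * t +
        (((p : ℚ) * v / u) ^ 2 + -((p : ℚ) * v / u) ^ 2) / 2 * t ^ 2) = 0 := by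
      rw [add_neg_cancel]
      field_simp
      ring
    rw [this]; exact I.zero

/-! ### products of slowly varying factors -/

/-- `f t = 1 + α + β t` modulo `p^3` -/
def E3 (p : ℕ) [Fact p.Prime] (f : ℕ → ℚ) (α β : ℚ) : Prop :=
  I p 1 α ∧ I p 2 β ∧ ∀ t : ℕ, I p 3 (f t - (1 + α + β * t))

variable {α β α' β' : ℚ}

theorem E3.mul (h : E3 p f α β) (h' : E3 p g α' β') :
    E3 p (fun t => f t * g t) (α + α' + α * α') (β + β') := by
  obtain ⟨a1, a2, a3⟩ := h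
  obtain ⟨b1, b2, b3⟩ := h'
  refine ⟨(a1.add b1).add ((a1.mul b1).mono (by norm_num)), a2.add b2, fun t => ?_⟩
  have ht : (t : ℚ) ∈ Zp p := nat_mem t
  have hG : g t ∈ Zp p := by
    have h1 := (b3 t).mem
    have hG0 : 1 + α' + β' * t ∈ Zp p := add_mem (add_mem (one_mem _) b1.mem) (mul_mem b2.mem ht)
    have := add_mem h1 hG0
    convert this using 1
    ring
  have hF0 : 1 + α + β * t ∈ Zp p := add_mem (add_mem (one_mem _) a1.mem) (mul_mem a2.mem ht)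
  have e : f t * g t - (1 + (α + α' + α * α') + (β + β') * t) =
      (f t - (1 + α + β * t)) * g t + (1 + α + β * t) * (g t - (1 + α' + β' * t)) +
      (α * β' * t + β * α' * t + β * β' * t ^ 2) := by ring
  rw [e]
  refine (((a3 t).mulR hG).add ((b3 t).mulL hF0)).add (((I.mulR (a1.mul b2) ht).add
    (I.mulR (a2.mul b1) ht)).add (I.mulR ((a2.mul b2).mono (by norm_num)) (pow_mem ht 2)))

theorem E3.prod {F : ℕ → ℕ → ℚ} {Y : ℕ → ℚ} {k : ℕ}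
    (h : ∀ j < k, ∃ α, E3 p (F j) α (Y j)) :
    ∃ α, E3 p (fun t => ∏ j ∈ range k, F j t) α (∑ j ∈ range k, Y j) := by
  induction k with
  | zero => exact ⟨0, I.zero, by simpa using I.zero, fun t => by
      simpa using I.zero (p := p) (k := 3)⟩
  | succ k ih =>
    obtain ⟨α, hα⟩ := ih fun j hj => h j (by omega)
    obtain ⟨α', hα'⟩ := h k (by omega)
    refine ⟨α + α' + α * α', ?_⟩
    have := hα.mul hα'
    simpa only [prod_range_succ, sum_range_succ] using this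

theorem E3.cum (h2 : U p (2 : ℚ)) (h : E3 p f α β) (t : ℕ) :
    I p 3 (∏ i ∈ range t, f i - (1 + α * t + (β + α ^ 2) * ((t : ℚ) * (t - 1) / 2))) := by
  obtain ⟨a1, a2, a3⟩ := h
  induction t with
  | zero => simpa using I.zero (p := p) (k := 3)
  | succ t ih =>
    have ht : (t : ℚ) ∈ Zp p := nat_mem t
    have hc : (t : ℚ) * (t - 1) / 2 ∈ Zp p :=
      div_mem (mul_mem ht (sub_mem ht (one_mem _))) h2
    have hf : f t ∈ Zp p := by
      have h1 := (a3 t).mem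
      have hG0 : 1 + α + β * t ∈ Zp p := add_mem (add_mem (one_mem _) a1.mem) (mul_mem a2.mem ht)
      have := add_mem h1 hG0
      convert this using 1
      ring
    have hP : 1 + α * t + (β + α ^ 2) * ((t : ℚ) * (t - 1) / 2) ∈ Zp p :=
      add_mem (add_mem (one_mem _) (mul_mem a1.mem ht)) (mul_mem (add_mem a2.mem
        (pow_mem a1.mem 2)) hc)
    rw [prod_range_succ]
    have e : (∏ i ∈ range t, f i) * f t - (1 + α * ((t + 1 : ℕ) : ℚ) + (β + α ^ 2) *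
        (((t + 1 : ℕ) : ℚ) * (((t + 1 : ℕ) : ℚ) - 1) / 2)) =
        (∏ i ∈ range t, f i - (1 + α * t + (β + α ^ 2) * ((t : ℚ) * (t - 1) / 2))) * f t +
        (1 + α * t + (β + α ^ 2) * ((t : ℚ) * (t - 1) / 2)) * (f t - (1 + α + β * t)) +
        (α * β * (t ^ 2 + (t : ℚ) * (t - 1) / 2) + α * (α * α) * ((t : ℚ) * (t - 1) / 2) +
        β * β * (t * ((t : ℚ) * (t - 1) / 2)) + α * α * β * (t * ((t : ℚ) * (t - 1) / 2))) := by
      push_cast
      ring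
    rw [e]
    refine ((ih.mulR hf).add ((a3 t).mulL hP)).add ((((I.mulR (a1.mul a2) (add_mem (pow_mem ht 2)
      hc)).add (I.mulR (a1.mul (a1.mul a1)) hc)).add (I.mulR ((a2.mul a2).mono (by norm_num))
      (mul_mem ht hc))).add (I.mulR (((a1.mul a1).mul a2).mono (by norm_num)) (mul_mem ht hc)))

theorem E3.toLQ (h2 : U p (2 : ℚ)) (h : E3 p f α β) {c : ℚ} (hc : U p c) :
    ∃ x, LQ p (fun t => c * ∏ i ∈ range t, f i) c x β := by
  have h' := h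
  obtain ⟨a1, a2, a3⟩ := h
  have hx : I p 2 ((β + α ^ 2) / 2) := by
    rw [div_eq_mul_inv]
    refine I.mulR (a2.add ?_) h2.2.2
    rw [sq]; exact a1.mul a1
  refine ⟨α - (β + α ^ 2) / 2, hc, a1.sub (hx.mono (by norm_num)), a2, fun t => ?_⟩
  have ht : (t : ℚ) ∈ Zp p := nat_mem t
  have e : c * ∏ i ∈ range t, f i - c * (1 + (α - (β + α ^ 2) / 2) * t +
      ((α - (β + α ^ 2) / 2) ^ 2 + β) / 2 * t ^ 2) =
      c * (∏ i ∈ range t, f i - (1 + α * t + (β + α ^ 2) * ((t : ℚ) * (t - 1) / 2))) +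
      c * ((α * ((β + α ^ 2) / 2)) * t ^ 2 - ((β + α ^ 2) / 2 * ((β + α ^ 2) / 2)) / 2 * t ^ 2) := by
    ring
  rw [e]
  refine ((h'.cum h2 t).mulL hc.2.1).add (I.mulL hc.2.1 ((I.mulR (a1.mul hx) (pow_mem ht 2)).sub
    (I.mulR ?_ (pow_mem ht 2))))
  rw [div_eq_mul_inv]
  exact I.mulR ((hx.mul hx).mono (by norm_num)) h2.2.2

end Pool.Agent.R439.G3
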