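import Mathlib
import Pool.Agent.R439.G3B

set_option autoImplicit false

/-!
The congruence modulo `p^3` for natural parameters.
-/

namespace Pool.Agent.R439.G3

open Finset Pool.Agent.R439.PL Pool.Agent.R439.T3

variable {p : ℕ} [hp : Fact p.Prime]

/-- the parameters: `p = 2s+1 ≥ 5`, `h ≤ s` -/
structure Par (p s h : ℕ) : Prop where
  h5 : 5 ≤ p
  hs : p = 2 * s + 1
  hh : h ≤ s

variable {s h : ℕ}

theorem U_of {a : ℤ} (h : ¬ (p : ℤ) ∣ a) {x : ℚ} (hx : x = a) : U p x := by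
  rw [hx]; exact U_int h

theorem Uj {j : ℕ} (hj : j + 1 < p) : U p ((j : ℚ) + 1) := by
  refine U_of (a := (j + 1 : ℕ)) ?_ (by push_cast; ring)
  intro h
  have h' : p ∣ j + 1 := by exact_mod_cast h
  have := Nat.le_of_dvd (Nat.succ_pos _) h'
  omega

/-- `A = a(a+1)` for `a = 2h + 2pt` -/
def AA (p h t : ℕ) : ℚ := (2 * (h : ℚ) + 2 * p * t) * (2 * (h : ℚ) + 2 * p * t + 1)

theorem BB_Q3 {k : ℕ} (hk : k < p) : ∃ b0 b1 b2, Q3 p (fun t => BB (AA p h t) k) b0 b1 b2 := by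
  unfold BB
  refine Q3.prod (F := fun j t => ((j : ℚ) * (j + 1) - AA p h t) / ((j : ℚ) + 1) ^ 2)
    fun j hj => ?_
  have hU := (Uj (p := p) (j := j) (by omega)).pow 2
  have hj' : (j : ℚ) ∈ Zp p := nat_mem j
  have hh' : (h : ℚ) ∈ Zp p := nat_mem h
  refine ⟨_, _, _, Q3.quad (u := ((j : ℚ) * (j + 1) - 2 * h * (2 * h + 1)) / ((j : ℚ) + 1) ^ 2)
    (v := -(2 * (4 * h + 1)) / ((j : ℚ) + 1) ^ 2) (w := -4 / ((j : ℚ) + 1) ^ 2) ?_ ?_ ?_ ?_⟩
  · exact div_mem (sub_mem (mul_mem hj' (add_mem hj' (one_mem _))) (mul_mem (mul_mem (n_mem 2) hh')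
      (add_mem (mul_mem (n_mem 2) hh') (one_mem _)))) hU
  · exact div_mem (neg_mem (mul_mem (n_mem 2) (add_mem (mul_mem (n_mem 4) hh') (one_mem _)))) hU
  · exact div_mem (neg_mem (n_mem 4)) hU
  · intro t
    have := hU.1
    have h1 : (j : ℚ) + 1 ≠ 0 := by positivity
    unfold AA
    field_simp
    ring

theorem uu_prod {n k : ℕ} (hk : k ≤ 2 * n) : uu n k = ∏ j ∈ range k, ((n : ℚ) - j) / (2 * n - j) := by
  induction k with
  | zero =>
    have h1 : ((n.factorial : ℕ) : ℚ) ≠ 0 := by positivity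
    have h2 : (((2 * n).factorial : ℕ) : ℚ) ≠ 0 := by positivity
    simp only [uu, Nat.cast_zero, sub_zero, gi_nat, range_zero, prod_empty, Nat.sub_zero]
    field_simp
  | succ k ih =>
    rw [prod_range_succ, ← ih (by omega), uu, uu]
    obtain ⟨d, hd⟩ : ∃ d, 2 * n = k + 1 + d := ⟨2 * n - (k + 1), by omega⟩
    have e1 : ((n : ℤ) - (k + 1 : ℕ)) = (n : ℤ) - k - 1 := by push_cast; ring
    have e2 : 2 * n - k = d + 1 := by omega
    have e3 : 2 * n - (k + 1) = d := by omega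
    have e4 : 2 * (n : ℚ) - k = d + 1 := by
      have : ((2 * n : ℕ) : ℚ) = ((k + 1 + d : ℕ) : ℚ) := by rw [hd]
      push_cast at this
      linarith
    rw [e1, gi_rec, e2, e3, e4, Nat.factorial_succ d]
    have h1 : (((2 * n).factorial : ℕ) : ℚ) ≠ 0 := by positivity
    have h2 : (d : ℚ) + 1 ≠ 0 := by positivity
    have h3 : ((d.factorial : ℕ) : ℚ) ≠ 0 := by positivity
    push_cast
    generalize (((2 * n).factorial : ℕ) : ℚ) = F at *
    field_simp

theorem Par.cast (D : Par p s h) : (p : ℚ) = 2 * s + 1 := by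
  have := D.hs
  have h : ((p : ℕ) : ℚ) = ((2 * s + 1 : ℕ) : ℚ) := by rw [this]
  push_cast at h; exact h

theorem Par.cc_uu (D : Par p s h) {k : ℕ} (hk : k < p) : EQ p 1 (cc k) (uu s k) := by
  have := D.hs
  rw [uu_prod (by omega)]
  unfold cc
  refine EQ.prod fun j hj => ?_
  have hj := mem_range.1 hj
  have hU := Uj (p := p) (j := j) (by omega)
  have h2 := U2 (p := p) D.h5
  have hj' : (j : ℚ) ∈ Zp p := nat_mem j
  have hE1 : EQ p 1 ((j : ℚ) + 1 / 2) (-((s : ℚ) - j)) := by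
    refine ⟨add_mem hj' (div_mem (one_mem _) h2), neg_mem (sub_mem (nat_mem s) hj'), ?_⟩
    have e : (j : ℚ) + 1 / 2 - -((s : ℚ) - j) = (p : ℚ) * (1 / 2) := by rw [D.cast]; ring
    rw [e]
    exact I_p.mulR (div_mem (one_mem _) h2)
  have hE2 : EQ p 1 ((j : ℚ) + 1) (-(2 * (s : ℚ) - j)) := by
    refine ⟨hU.2.1, neg_mem (sub_mem (mul_mem (n_mem 2) (nat_mem s)) hj'), ?_⟩
    have e : (j : ℚ) + 1 - -(2 * (s : ℚ) - j) = p := by rw [D.cast]; ring
    rw [e]
    exact I_p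
  have := hE1.div one_pos hE2 hU
  rwa [neg_div_neg_eq] at this

/-- the truncated sum -/
def LL (p h t : ℕ) : ℚ := ∑ k ∈ range p, cc k * BB (AA p h t) k

theorem Lam_eq (D : Par p s h) (t : ℕ) : ∑ k ∈ range p, uu s k * BB (AA p h t) k =
    Lam s (2 * (h : ℚ) + 2 * p * t) := by
  rw [← watson s]
  have := D.hs
  have e : p = (s + 1) + s := by omega
  rw [e, sum_range_add]
  have : ∑ x ∈ range s, uu s (s + 1 + x) * BB (AA (s + 1 + s) h t) (s + 1 + x) = 0 :=
    sum_eq_zero fun x _ => by rw [uu_zero (by omega), zero_mul]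
  rw [this, add_zero]
  rfl

theorem Par.cc_mem (D : Par p s h) {k : ℕ} (hk : k < p) : cc k ∈ Zp p := (D.cc_uu hk).1

theorem Par.two (D : Par p s h) (K : ℕ) (hK : K ≤ p) : ∃ L0 l1 l2 w0 w1 w2,
    Q3 p (fun t => ∑ k ∈ range K, cc k * BB (AA p h t) k) L0 l1 l2 ∧
    Q3 p (fun t => ∑ k ∈ range K, uu s k * BB (AA p h t) k) w0 w1 w2 ∧
    I p 1 (L0 - w0) ∧ I p 2 (l1 - w1) ∧ I p 3 (l2 - w2) := by
  induction K with
  | zero =>
    refine ⟨0, 0, 0, 0, 0, 0, ?_, ?_, ?_, ?_, ?_⟩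
    · simpa using Q3.const (p := p) (zero_mem _)
    · simpa using Q3.const (p := p) (zero_mem _)
    · rw [sub_self]; exact I.zero
    · rw [sub_self]; exact I.zero
    · rw [sub_self]; exact I.zero
  | succ K ih =>
    obtain ⟨L0, l1, l2, w0, w1, w2, a1, a2, a3, a4, a5⟩ := ih (by omega)
    obtain ⟨b0, b1, b2, hb⟩ := BB_Q3 (p := p) (h := h) (k := K) (by omega)
    have hc := D.cc_uu (k := K) (by omega)
    refine ⟨L0 + cc K * b0, l1 + cc K * b1, l2 + cc K * b2, w0 + uu s K * b0, w1 + uu s K * b1,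
      w2 + uu s K * b2, ?_, ?_, ?_, ?_, ?_⟩
    · have := a1.add (hb.smul hc.1)
      simpa only [sum_range_succ] using this
    · have := a2.add (hb.smul hc.2.1)
      simpa only [sum_range_succ] using this
    · have := a3.add (hc.2.2.mulR hb.1)
      convert this using 1
      ring
    · have := a4.add (hc.2.2.mul hb.2.1)
      convert this using 1
      ring
    · have := a5.add (hc.2.2.mul hb.2.2.1)
      convert this using 1
      ring

end Pool.Agent.R439.G3
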