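import Mathlib
import Pool.Agent.R439.G3C

set_option autoImplicit false

/-!
Expansions of the two sides.
-/

namespace Pool.Agent.R439.G3

open Finset Pool.Agent.R439.PL Pool.Agent.R439.T3

variable {p : ℕ} [hp : Fact p.Prime] {s h : ℕ}

theorem U_mul_two (h5 : 5 ≤ p) {x : ℚ} (hx : U p (2 * x)) : U p x := by
  have h2 := U2 (p := p) h5
  have := h2.inv.mul hx
  have e : (2 : ℚ)⁻¹ * (2 * x) = x := by ring
  rwa [e] at this

/-- half-integers that are units -/
theorem U_half (h5 : 5 ≤ p) {a : ℤ} (ha : ¬ (p : ℤ) ∣ a) {x : ℚ} (hx : 2 * x = a) : U p x :=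
  U_mul_two h5 (U_of ha hx)

theorem not_dvd_int {a : ℤ} (h0 : a ≠ 0) (h1 : -(p : ℤ) < a) (h2 : a < p) : ¬ (p : ℤ) ∣ a := by
  rintro ⟨c, rfl⟩
  have hp0 : (0 : ℤ) < p := by exact_mod_cast hp.out.pos
  have hc : c < 1 := by
    by_contra hc
    push Not at hc
    nlinarith
  have hc2 : -1 < c := by
    by_contra hc
    push Not at hc
    nlinarith
  have : c = 0 := by omega
  rw [this, mul_zero] at h0
  exact h0 rfl

theorem Par.U1 (D : Par p s h) {i : ℕ} (hi : i < s) : U p ((i : ℚ) + 1 / 2 - h) := by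
  have := D.hs
  have := D.hh
  exact U_half D.h5 (a := 2 * (i : ℤ) + 1 - 2 * h) (not_dvd_int (by omega) (by omega) (by omega))
    (by push_cast; ring)

theorem Par.U2' (D : Par p s h) {i : ℕ} (hi : i < s) : U p ((i : ℚ) + 1 + h) := by
  have := D.hs
  have := D.hh
  exact U_of (a := (i : ℤ) + 1 + h) (not_dvd_int (by omega) (by omega) (by omega))
    (by push_cast; ring)

theorem Par.U3' (D : Par p s h) {i : ℕ} (hi : i < s) : U p ((i : ℚ) + 1 / 2) := by
  have := D.hs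
  exact U_half D.h5 (a := 2 * (i : ℤ) + 1) (not_dvd_int (by omega) (by omega) (by omega))
    (by push_cast; ring)

theorem Par.U4 (D : Par p s h) {i : ℕ} (hi : i < s) : U p ((i : ℚ) + 1) := by
  have := D.hs
  exact Uj (by omega)

theorem Lam_form (n : ℕ) (a : ℚ) : Lam n a = ∏ i ∈ range n, (((i : ℚ) + 1 / 2 - a / 2) /
    ((i : ℚ) + 1 / 2)) * (((i : ℚ) + 1 + a / 2) / ((i : ℚ) + 1)) := by
  unfold Lam
  refine prod_congr rfl fun i _ => ?_
  have h1 : (i : ℚ) + 1 ≠ 0 := by positivity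
  have h2 : (i : ℚ) + 1 / 2 ≠ 0 := by positivity
  have h3 : 2 * (i : ℚ) + 1 ≠ 0 := by positivity
  have h4 : 2 * (i : ℚ) + 2 ≠ 0 := by positivity
  field_simp

/-- the quadratic parameter on the Watson side -/
def yL (p s h : ℕ) : ℚ := ∑ i ∈ range s, (-((p : ℚ) / ((i : ℚ) + 1 / 2 - h)) ^ 2 +
  -((p : ℚ) / ((i : ℚ) + 1 + h)) ^ 2)

theorem Par.Lam_LQ (D : Par p s h) : ∃ f0 x, LQ p (fun t => Lam s (2 * (h : ℚ) + 2 * p * t)) f0 x
    (yL p s h) := by
  have h2 := U2 (p := p) D.h5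
  have key : ∀ i < s, ∃ u X, LQ p (fun t : ℕ => (((i : ℚ) + 1 / 2 - (2 * (h : ℚ) + 2 * p * t) / 2) /
      ((i : ℚ) + 1 / 2)) * (((i : ℚ) + 1 + (2 * (h : ℚ) + 2 * p * t) / 2) / ((i : ℚ) + 1))) u X
      (-((p : ℚ) / ((i : ℚ) + 1 / 2 - h)) ^ 2 + -((p : ℚ) / ((i : ℚ) + 1 + h)) ^ 2) := by
    intro i hi
    have u1 := D.U1 hi
    have u2 := D.U2' hi
    have u3 := D.U3' hi
    have u4 := D.U4 hi
    have A := LQ.lin (p := p) (f := fun t : ℕ => ((i : ℚ) + 1 / 2 - (2 * (h : ℚ) + 2 * p * t) / 2) /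
      ((i : ℚ) + 1 / 2)) (u1.div u3) (v := -1 / ((i : ℚ) + 1 / 2))
      (div_mem (neg_mem (one_mem _)) u3) (fun t => by
        have := u3.1
        field_simp
        ring)
    have B := LQ.lin (p := p) (f := fun t : ℕ => ((i : ℚ) + 1 + (2 * (h : ℚ) + 2 * p * t) / 2) /
      ((i : ℚ) + 1)) (u2.div u4) (v := 1 / ((i : ℚ) + 1))
      (div_mem (one_mem _) u4) (fun t => by
        have := u4.1
        field_simp
        ring)
    have AB := A.mul h2 B
    have e1 : (p : ℚ) * (-1 / ((i : ℚ) + 1 / 2)) / (((i : ℚ) + 1 / 2 - h) / ((i : ℚ) + 1 / 2)) =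
        -((p : ℚ) / ((i : ℚ) + 1 / 2 - h)) := by
      have := u1.1
      have := u3.1
      generalize (i : ℚ) + 1 / 2 = c at *
      field_simp
    have e2 : (p : ℚ) * (1 / ((i : ℚ) + 1)) / (((i : ℚ) + 1 + h) / ((i : ℚ) + 1)) =
        ((p : ℚ) / ((i : ℚ) + 1 + h)) := by
      have := u2.1
      have := u4.1
      field_simp
    rw [e1, e2, neg_sq] at AB
    exact ⟨_, _, AB⟩
  choose! u X hu using key
  have := LQ.prod h2 hu
  simp only [← Lam_form] at this
  exact ⟨_, _, this⟩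

/-! ### the factors of the right-hand side -/

theorem E3.congr {f : ℕ → ℚ} {α β β' : ℚ} (h : E3 p f α β) (hb : I p 3 (β - β')) : E3 p f α β' := by
  obtain ⟨a1, a2, a3⟩ := h
  refine ⟨a1, ?_, fun t => ?_⟩
  · have := a2.sub (hb.mono (l := 2) (by norm_num))
    convert this using 1
    ring
  · have := (a3 t).add (hb.mulR (nat_mem (p := p) t))
    convert this using 1
    ring

/-- factor `X/(X+p/2)` with `X = c + pt` -/
theorem E3_A (h5 : 5 ≤ p) {c : ℚ} (hc : U p c) : ∃ α, E3 p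
    (fun t => (c + p * t) / (c + p / 2 + p * t)) α ((p : ℚ) ^ 2 / 2 / c ^ 2) := by
  have h2 := U2 (p := p) h5
  have hI2 : I p 1 ((p : ℚ) / 2) := by
    rw [div_eq_mul_inv]; exact I_p.mulR h2.2.2
  have hd : U p (c + p / 2) := by
    refine EQ.unit one_pos (x := c) ⟨hc.2.1, add_mem hc.2.1 hI2.mem, ?_⟩ hc
    have := hI2.neg
    convert this using 1
    ring
  have hdt : ∀ t : ℕ, U p (c + p / 2 + p * t) := fun t => by
    refine EQ.unit one_pos (x := c + p / 2) ⟨hd.2.1, add_mem hd.2.1 (mul_mem p_mem (nat_mem t)), ?_⟩ hd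
    have := (I_p.mulR (nat_mem (p := p) t)).neg
    convert this using 1
    ring
  have main : E3 p (fun t => (c + p * t) / (c + p / 2 + p * t)) (-((p : ℚ) / 2) / (c + p / 2))
      ((p : ℚ) ^ 2 / 2 / (c + p / 2) ^ 2) := by
    refine ⟨?_, ?_, fun t => ?_⟩
    · rw [div_eq_mul_inv]; exact hI2.neg.mulR hd.2.2
    · refine ⟨1 / 2 / (c + p / 2) ^ 2, div_mem (div_mem (one_mem _) h2) (hd.pow 2), by ring⟩
    · have h0 := hd.1
      have h1 := (hdt t).1
      refine ⟨-(1 / 2 * t ^ 2 / ((c + p / 2) ^ 2 * (c + p / 2 + p * t))), ?_, ?_⟩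
      · exact neg_mem (div_mem (mul_mem (div_mem (one_mem _) h2) (pow_mem (nat_mem t) 2))
          ((hd.pow 2).mul (hdt t)))
      · beta_reduce
        have e1 : c + (p : ℚ) * t = (c + p / 2 + p * t) - p / 2 := by ring
        rw [e1]
        generalize hE : c + (p : ℚ) / 2 + p * t = E at *
        have e2 : c + (p : ℚ) / 2 = E - p * t := by rw [← hE]; ring
        rw [e2] at h0 ⊢
        field_simp
        ring
  refine ⟨_, main.congr ?_⟩
  have h0 := hd.1
  have h1 := hc.1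
  have e : (p : ℚ) ^ 2 / 2 / (c + p / 2) ^ 2 - (p : ℚ) ^ 2 / 2 / c ^ 2 =
      (p : ℚ) ^ 3 * (-(1 / 2 * (c + p / 4) / ((c + p / 2) ^ 2 * c ^ 2))) := by
    clear main hdt hd hI2 hc
    generalize hE : c + (p : ℚ) / 2 = E at *
    have e2 : (p : ℚ) = 2 * (E - c) := by rw [← hE]; ring
    rw [e2]
    field_simp
    ring
  rw [e]
  refine ⟨_, ?_, rfl⟩
  have h4 : U p (4 : ℚ) := by
    have := h2.mul h2; norm_num at this; exact this
  exact neg_mem (div_mem (mul_mem (div_mem (one_mem _) h2) (add_mem hc.2.1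
    (div_mem p_mem h4))) ((hd.pow 2).mul (hc.pow 2)))

/-- factor `(Z+p/2)/Z` with `Z = c + pt` -/
theorem E3_C (h5 : 5 ≤ p) {c : ℚ} (hc : U p c) : ∃ α, E3 p
    (fun t => (c + p / 2 + p * t) / (c + p * t)) α (-((p : ℚ) ^ 2 / 2 / c ^ 2)) := by
  have h2 := U2 (p := p) h5
  have hI2 : I p 1 ((p : ℚ) / 2) := by
    rw [div_eq_mul_inv]; exact I_p.mulR h2.2.2
  have hdt : ∀ t : ℕ, U p (c + p * t) := fun t => by
    refine EQ.unit one_pos (x := c) ⟨hc.2.1, add_mem hc.2.1 (mul_mem p_mem (nat_mem t)), ?_⟩ hc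
    have := (I_p.mulR (nat_mem (p := p) t)).neg
    convert this using 1
    ring
  refine ⟨(p : ℚ) / 2 / c, ?_, ?_, fun t => ?_⟩
  · rw [div_eq_mul_inv _ c]; exact hI2.mulR hc.2.2
  · refine ⟨-(1 / 2 / c ^ 2), neg_mem (div_mem (div_mem (one_mem _) h2) (hc.pow 2)), by ring⟩
  · have h0 := hc.1
    have h1 := (hdt t).1
    refine ⟨1 / 2 * t ^ 2 / (c ^ 2 * (c + p * t)), ?_, ?_⟩
    · exact div_mem (mul_mem (div_mem (one_mem _) h2) (pow_mem (nat_mem t) 2))
        ((hc.pow 2).mul (hdt t))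
    · beta_reduce
      have e1 : c + (p : ℚ) / 2 + p * t = (c + p * t) + p / 2 := by ring
      rw [e1]
      generalize hE : c + (p : ℚ) * t = E at *
      have e2 : c = E - p * t := by rw [← hE]; ring
      rw [e2] at h0 ⊢
      field_simp
      ring

end Pool.Agent.R439.G3
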