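import Mathlib
import Pool.Agent.R439.G3D

set_option autoImplicit false

/-!
The Gamma side as a product of ratios.
-/

namespace Pool.Agent.R439.G3

open Finset Pool.Agent.R439.PL Pool.Agent.R439.T3

variable {p : ℕ} [hp : Fact p.Prime] {s h : ℕ}

/-- `j + 1/2` unless divisible by `p` -/
def nu (p j : ℕ) : ℚ := if p ∣ 2 * j + 1 then 1 else (j : ℚ) + 1 / 2

/-- `j + 1` unless divisible by `p` -/
def de (p j : ℕ) : ℚ := if p ∣ j + 1 then 1 else (j : ℚ) + 1

/-- the product of the ratios -/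
def PP (p n : ℕ) : ℚ := ∏ j ∈ range n, nu p j / de p j

/-- the product over a block of length `p` -/
def rho (p h t : ℕ) : ℚ := ∏ j ∈ range p, nu p (h + p * t + j) / de p (h + p * t + j)

theorem PP_step (p h t : ℕ) : PP p (h + p * (t + 1)) = PP p (h + p * t) * rho p h t := by
  rw [show h + p * (t + 1) = (h + p * t) + p by ring, PP, prod_range_add]
  rfl

theorem PP_cum (p h t : ℕ) : PP p (h + p * t) = PP p h * ∏ i ∈ range t, rho p h i := by
  induction t with
  | zero => simp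
  | succ t ih => rw [PP_step, ih, prod_range_succ]; ring

theorem Par.rho_eq (D : Par p s h) (t : ℕ) : rho p h t =
    (∏ i ∈ range (s - h), (((h : ℚ) + 1 / 2 + i) + p * t) / (((h : ℚ) + 1 / 2 + i) + p / 2 + p * t)) *
    (∏ i ∈ range h, (((p : ℚ) / 2 + 1 + i) + p * t) / (((p : ℚ) / 2 + 1 + i) + p / 2 + p * t)) *
    (∏ i ∈ range s, (((i : ℚ) + 1 + h) + p / 2 + p * t) / (((i : ℚ) + 1 + h) + p * t)) := by
  have hs := D.hs
  have hh := D.hh
  have hc := D.cast
  have n1 : ∀ j < s - h, nu p (h + p * t + j) = ((h : ℚ) + 1 / 2 + j) + p * t := by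
    intro j hj
    rw [nu, if_neg]
    · push_cast; ring
    · intro hd
      have e : 2 * (h + p * t + j) + 1 = p * (2 * t) + (2 * h + 2 * j + 1) := by ring
      rw [e] at hd
      have := (Nat.dvd_add_right (Dvd.intro _ rfl)).1 hd
      have := Nat.le_of_dvd (by omega) this
      omega
  have n2 : nu p (h + p * t + (s - h)) = 1 := by
    rw [nu, if_pos]
    refine ⟨2 * t + 1, ?_⟩
    have : h + p * t + (s - h) = p * t + s := by omega
    rw [this, mul_add, mul_add]
    rw [mul_one]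
    nlinarith
  have n3 : ∀ i < s + h, nu p (h + p * t + (s - h + 1 + i)) = ((p : ℚ) / 2 + 1 + i) + p * t := by
    intro i hi
    rw [nu, if_neg]
    · have : h + p * t + (s - h + 1 + i) = p * t + s + 1 + i := by omega
      rw [this]; push_cast; rw [hc]; ring
    · intro hd
      have e : 2 * (h + p * t + (s - h + 1 + i)) + 1 = p * (2 * t) + p + 2 * (i + 1) := by
        have : h + p * t + (s - h + 1 + i) = p * t + s + 1 + i := by omega
        rw [this]; nlinarith
      rw [e] at hd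
      have := (Nat.dvd_add_right (dvd_add (Dvd.intro _ rfl) (dvd_refl p))).1 hd
      have h2 := (hp.out.dvd_mul).1 this
      rcases h2 with h2 | h2
      · have := Nat.le_of_dvd (by omega) h2
        have := D.h5
        omega
      · have := Nat.le_of_dvd (by omega) h2
        omega
  have d1 : ∀ j < p - 1 - h, de p (h + p * t + j) = ((j : ℚ) + 1 + h) + p * t := by
    intro j hj
    rw [de, if_neg]
    · push_cast; ring
    · intro hd
      have e : h + p * t + j + 1 = p * t + (h + j + 1) := by ring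
      rw [e] at hd
      have := (Nat.dvd_add_right (Dvd.intro _ rfl)).1 hd
      have := Nat.le_of_dvd (by omega) this
      omega
  have d2 : de p (h + p * t + (p - 1 - h)) = 1 := by
    rw [de, if_pos]
    refine ⟨t + 1, ?_⟩
    have : h + p * t + (p - 1 - h) + 1 = p * t + p := by omega
    rw [this, mul_add, mul_one]
  have d3 : ∀ i < h, de p (h + p * t + (p - 1 - h + 1 + i)) =
      ((p : ℚ) / 2 + 1 + i) + p / 2 + p * t := by
    intro i hi
    rw [de, if_neg]
    · have : h + p * t + (p - 1 - h + 1 + i) = p * t + p + i := by omega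
      rw [this]; push_cast; ring
    · intro hd
      have e : h + p * t + (p - 1 - h + 1 + i) + 1 = p * t + p + (i + 1) := by omega
      rw [e] at hd
      have := (Nat.dvd_add_right (dvd_add (Dvd.intro _ rfl) (dvd_refl p))).1 hd
      have := Nat.le_of_dvd (by omega) this
      omega
  have hN : ∏ j ∈ range p, nu p (h + p * t + j) =
      (∏ i ∈ range (s - h), (((h : ℚ) + 1 / 2 + i) + p * t)) *
      ((∏ i ∈ range h, (((p : ℚ) / 2 + 1 + i) + p * t)) *
      (∏ i ∈ range s, (((i : ℚ) + 1 + h) + p / 2 + p * t))) := by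
    have e : p = (s - h + 1) + (s + h) := by omega
    conv_lhs => rw [e]
    rw [prod_range_add, prod_range_succ]
    rw [← e]
    rw [n2, mul_one, prod_congr rfl fun j hj => n1 j (mem_range.1 hj),
      prod_congr rfl fun j hj => n3 j (mem_range.1 hj), add_comm s h, prod_range_add]
    congr 2
    refine prod_congr rfl fun i _ => ?_
    push_cast
    ring
  have hD : ∏ j ∈ range p, de p (h + p * t + j) =
      ((∏ i ∈ range s, (((i : ℚ) + 1 + h) + p * t)) *
      (∏ i ∈ range (s - h), (((h : ℚ) + 1 / 2 + i) + p / 2 + p * t))) *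
      (∏ i ∈ range h, (((p : ℚ) / 2 + 1 + i) + p / 2 + p * t)) := by
    have e : p = (p - 1 - h + 1) + h := by omega
    conv_lhs => rw [e]
    rw [prod_range_add, prod_range_succ]
    rw [← e]
    rw [d2, mul_one, prod_congr rfl fun j hj => d1 j (mem_range.1 hj),
      prod_congr rfl fun j hj => d3 j (mem_range.1 hj)]
    have e2 : p - 1 - h = s + (s - h) := by omega
    rw [e2, prod_range_add]
    congr 2
    refine prod_congr rfl fun i _ => ?_
    push_cast
    rw [hc]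
    ring
  rw [rho, prod_div_distrib, hN, hD, prod_div_distrib, prod_div_distrib, prod_div_distrib,
    div_mul_div_comm, div_mul_div_comm]
  congr 1
  · ring
  · ring

/-- the quadratic parameter on the Gamma side -/
def yR (p s h : ℕ) : ℚ := ∑ i ∈ range (s - h), (p : ℚ) ^ 2 / ((h : ℚ) + 1 / 2 + i) ^ 2 +
  ∑ i ∈ range h, (p : ℚ) ^ 2 / ((p : ℚ) / 2 + 1 + i) ^ 2 -
  ∑ i ∈ range s, (p : ℚ) ^ 2 / ((i : ℚ) + 1 + h) ^ 2

theorem Par.Ua (D : Par p s h) {i : ℕ} (hi : i < s - h) : U p ((h : ℚ) + 1 / 2 + i) := by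
  have := D.hs
  have := D.hh
  exact U_half D.h5 (a := 2 * (h : ℤ) + 1 + 2 * i) (not_dvd_int (by omega) (by omega) (by omega))
    (by push_cast; ring)

theorem Par.Ub (D : Par p s h) {i : ℕ} (hi : i < h) : U p ((p : ℚ) / 2 + 1 + i) := by
  have hs := D.hs
  have hh := D.hh
  refine U_half D.h5 (a := (p : ℤ) + 2 * (i + 1)) ?_ (by push_cast; ring)
  intro hd
  have h1 : (p : ℤ) ∣ 2 * ((i : ℤ) + 1) := (Int.dvd_add_right (dvd_refl _)).1 hd
  exact not_dvd_int (p := p) (a := 2 * ((i : ℤ) + 1)) (by omega) (by omega) (by omega) h1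

theorem Par.rho_E3 (D : Par p s h) : ∃ α, E3 p (fun t => rho p h t ^ 2) α (yR p s h) := by
  obtain ⟨α1, h1⟩ := E3.prod (p := p) (F := fun i t => (((h : ℚ) + 1 / 2 + i) + p * t) /
    (((h : ℚ) + 1 / 2 + i) + p / 2 + p * t)) (k := s - h) fun i hi => E3_A D.h5 (D.Ua hi)
  obtain ⟨α2, h2⟩ := E3.prod (p := p) (F := fun i t => (((p : ℚ) / 2 + 1 + i) + p * t) /
    (((p : ℚ) / 2 + 1 + i) + p / 2 + p * t)) (k := h) fun i hi => E3_A D.h5 (D.Ub hi)
  obtain ⟨α3, h3⟩ := E3.prod (p := p) (F := fun i t => (((i : ℚ) + 1 + h) + p / 2 + p * t) /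
    (((i : ℚ) + 1 + h) + p * t)) (k := s) fun i hi => E3_C D.h5 (D.U2' hi)
  have h4 := (h1.mul h2).mul h3
  have h5 := h4.mul h4
  have e : (fun t : ℕ => rho p h t ^ 2) = fun t : ℕ => ((∏ i ∈ range (s - h),
      (((h : ℚ) + 1 / 2 + i) + p * t) / (((h : ℚ) + 1 / 2 + i) + p / 2 + p * t)) *
      (∏ i ∈ range h, (((p : ℚ) / 2 + 1 + i) + p * t) / (((p : ℚ) / 2 + 1 + i) + p / 2 + p * t)) *
      (∏ i ∈ range s, (((i : ℚ) + 1 + h) + p / 2 + p * t) / (((i : ℚ) + 1 + h) + p * t))) *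
      ((∏ i ∈ range (s - h),
      (((h : ℚ) + 1 / 2 + i) + p * t) / (((h : ℚ) + 1 / 2 + i) + p / 2 + p * t)) *
      (∏ i ∈ range h, (((p : ℚ) / 2 + 1 + i) + p * t) / (((p : ℚ) / 2 + 1 + i) + p / 2 + p * t)) *
      (∏ i ∈ range s, (((i : ℚ) + 1 + h) + p / 2 + p * t) / (((i : ℚ) + 1 + h) + p * t))) := by
    funext t
    rw [D.rho_eq, sq]
  have e2 : yR p s h = (∑ j ∈ range (s - h), (p : ℚ) ^ 2 / 2 / ((h : ℚ) + 1 / 2 + j) ^ 2 +
      ∑ j ∈ range h, (p : ℚ) ^ 2 / 2 / ((p : ℚ) / 2 + 1 + j) ^ 2 +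
      ∑ j ∈ range s, -((p : ℚ) ^ 2 / 2 / ((j : ℚ) + 1 + h) ^ 2)) +
      (∑ j ∈ range (s - h), (p : ℚ) ^ 2 / 2 / ((h : ℚ) + 1 / 2 + j) ^ 2 +
      ∑ j ∈ range h, (p : ℚ) ^ 2 / 2 / ((p : ℚ) / 2 + 1 + j) ^ 2 +
      ∑ j ∈ range s, -((p : ℚ) ^ 2 / 2 / ((j : ℚ) + 1 + h) ^ 2)) := by
    have g1 : ∀ (K : ℕ) (f : ℕ → ℚ), ∑ j ∈ range K, (p : ℚ) ^ 2 / 2 / f j =
        (∑ j ∈ range K, (p : ℚ) ^ 2 / f j) / 2 := by
      intro K f
      rw [sum_div]
      exact sum_congr rfl fun j _ => by ring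
    rw [sum_neg_distrib, g1 (s - h) (fun j => ((h : ℚ) + 1 / 2 + j) ^ 2),
      g1 h (fun j => ((p : ℚ) / 2 + 1 + j) ^ 2), g1 s (fun j => ((j : ℚ) + 1 + h) ^ 2), yR]
    ring
  rw [e, e2]
  exact ⟨_, h5⟩

end Pool.Agent.R439.G3
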