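import Mathlib
import Pool.Agent.R439.G3E

set_option autoImplicit false

/-!
The main congruence for natural parameters.
-/

namespace Pool.Agent.R439.G3

open Finset Pool.Agent.R439.PL Pool.Agent.R439.T3

variable {p : ℕ} [hp : Fact p.Prime] {s h : ℕ}

/-- inverse squares of two units congruent up to sign -/
theorem inv_sq_congr {x y : ℚ} (hx : U p x) (hy : U p y) (h : I p 1 (x - y) ∨ I p 1 (x + y)) :
    I p 1 (1 / x ^ 2 - 1 / y ^ 2) := by
  have hx0 := hx.1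
  have hy0 := hy.1
  have e : 1 / x ^ 2 - 1 / y ^ 2 = -((x - y) * (x + y)) * (x⁻¹ ^ 2 * y⁻¹ ^ 2) := by
    field_simp
    ring
  rw [e]
  refine I.mulR (I.neg ?_) (mul_mem (pow_mem hx.2.2 2) (pow_mem hy.2.2 2))
  rcases h with h | h
  · exact h.mulR (add_mem hx.2.1 hy.2.1)
  · exact h.mulL (sub_mem hx.2.1 hy.2.1)

/-- sum of inverse squares up to `s` -/
theorem Par.H2 (D : Par p s h) : I p 1 (∑ i ∈ range s, 1 / ((i : ℚ) + 1) ^ 2) := by
  have hs := D.hs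
  have hc := D.cast
  have D0 : T3.Dat p 1 1 (p - 1) 0 := ⟨D.h5, one_pos, by rw [pow_one]; omega, by simp⟩
  have h1 := D0.sumsq
  have e1 : ∑ i ∈ range (p - 1), T3.tt p 1 1 i ^ 2 = (p : ℚ) ^ 2 *
      ∑ i ∈ range (p - 1), 1 / ((i : ℚ) + 1) ^ 2 := by
    rw [mul_sum]
    refine sum_congr rfl fun i _ => ?_
    unfold T3.tt T3.xx
    rw [div_pow]
    push_cast
    ring
  rw [e1] at h1
  obtain ⟨y, hy, hy2⟩ := h1
  have h0 := p_ne (p := p)
  have e2 : ∑ i ∈ range (p - 1), 1 / ((i : ℚ) + 1) ^ 2 = p * y := by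
    have : (p : ℚ) ^ 2 * ∑ i ∈ range (p - 1), 1 / ((i : ℚ) + 1) ^ 2 = (p : ℚ) ^ 2 * (p * y) := by
      rw [hy2]; ring
    exact mul_left_cancel₀ (pow_ne_zero 2 h0) this
  have h3 : I p 1 (∑ i ∈ range (p - 1), 1 / ((i : ℚ) + 1) ^ 2) := ⟨y, hy, by rw [e2]; ring⟩
  have e3 : p - 1 = s + s := by omega
  rw [e3, sum_range_add] at h3
  have h4 : I p 1 (∑ i ∈ range s, 1 / (((s + i : ℕ) : ℚ) + 1) ^ 2 -
      ∑ i ∈ range s, 1 / ((i : ℚ) + 1) ^ 2) := by
    rw [← sum_range_reflect (fun i => 1 / ((i : ℚ) + 1) ^ 2) s, ← sum_sub_distrib]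
    refine I.sum fun i hi => ?_
    have hi := mem_range.1 hi
    have u1 : U p (((s + i : ℕ) : ℚ) + 1) := Uj (by omega)
    have u2 : U p (((s - 1 - i : ℕ) : ℚ) + 1) := Uj (by omega)
    refine inv_sq_congr u1 u2 (Or.inr ?_)
    have e : ((s + i : ℕ) : ℚ) + 1 + (((s - 1 - i : ℕ) : ℚ) + 1) = p := by
      have : (((s + i) + 1 + ((s - 1 - i) + 1) : ℕ) : ℚ) = ((p : ℕ) : ℚ) := by congr 1; omega
      push_cast at this ⊢
      exact this
    rw [e]; exact I_p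
  have h5 := h3.sub h4
  apply (U2 (p := p) D.h5).cancel
  convert h5 using 1
  ring

theorem Par.yLR (D : Par p s h) : I p 3 (yL p s h - yR p s h) := by
  have hs := D.hs
  have hh := D.hh
  have hc := D.cast
  have e0 : yL p s h - yR p s h = -((p : ℚ) ^ 2 * (∑ i ∈ range s, 1 / ((i : ℚ) + 1 / 2 - h) ^ 2 +
      ∑ i ∈ range (s - h), 1 / ((h : ℚ) + 1 / 2 + i) ^ 2 +
      ∑ i ∈ range h, 1 / ((p : ℚ) / 2 + 1 + i) ^ 2)) := by
    have g1 : ∀ (K : ℕ) (f : ℕ → ℚ), ∑ j ∈ range K, (p : ℚ) ^ 2 / f j ^ 2 =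
        (p : ℚ) ^ 2 * (∑ j ∈ range K, 1 / f j ^ 2) := by
      intro K f
      rw [mul_sum]
      exact sum_congr rfl fun j _ => by ring
    have g2 : ∀ (K : ℕ) (f : ℕ → ℚ), ∑ j ∈ range K, -((p : ℚ) / f j) ^ 2 =
        -((p : ℚ) ^ 2 * (∑ j ∈ range K, 1 / f j ^ 2)) := by
      intro K f
      rw [← g1, ← sum_neg_distrib]
      exact sum_congr rfl fun j _ => by rw [div_pow]
    rw [yL, yR, sum_add_distrib, g2 s (fun i => (i : ℚ) + 1 / 2 - h),
      g2 s (fun i => (i : ℚ) + 1 + h), g1 (s - h) (fun i => (h : ℚ) + 1 / 2 + i),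
      g1 h (fun i => (p : ℚ) / 2 + 1 + i), g1 s (fun i => (i : ℚ) + 1 + h)]
    ring
  rw [e0]
  refine I.neg ?_
  have hp2 : I p 2 ((p : ℚ) ^ 2) := ⟨1, one_mem _, by ring⟩
  refine hp2.mul (l := 1) ?_
  -- first sum
  have hA : I p 1 (∑ i ∈ range s, 1 / ((i : ℚ) + 1 / 2 - h) ^ 2 -
      (∑ i ∈ range h, 1 / ((i : ℚ) + 1 / 2) ^ 2 +
       ∑ i ∈ range (s - h), 1 / ((h : ℚ) + 1 + i) ^ 2)) := by
    have e1 : ∑ i ∈ range s, 1 / ((i : ℚ) + 1 / 2 - h) ^ 2 =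
        ∑ i ∈ range h, 1 / ((i : ℚ) + 1 / 2) ^ 2 +
        ∑ i ∈ range (s - h), 1 / ((i : ℚ) + 1 / 2) ^ 2 := by
      have e2 : s = h + (s - h) := by omega
      conv_lhs => rw [e2]
      rw [sum_range_add, ← sum_range_reflect (fun i : ℕ => 1 / ((i : ℚ) + 1 / 2 - h) ^ 2) h]
      congr 1
      · refine sum_congr rfl fun i hi => ?_
        have hi := mem_range.1 hi
        have e3 : ((h - 1 - i : ℕ) : ℚ) = h - 1 - i := by
          rw [Nat.cast_sub (by omega), Nat.cast_sub (by omega)]; push_cast; ring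
        rw [e3]
        congr 1
        ring
      · refine sum_congr rfl fun i _ => ?_
        congr 2
        push_cast
        ring
    rw [e1, add_sub_add_left_eq_sub, ← sum_range_reflect (fun i : ℕ => 1 / ((h : ℚ) + 1 + i) ^ 2),
      ← sum_sub_distrib]
    refine I.sum fun i hi => ?_
    have hi := mem_range.1 hi
    have e3 : ((s - h - 1 - i : ℕ) : ℚ) = s - h - 1 - i := by
      rw [Nat.cast_sub (by omega), Nat.cast_sub (by omega), Nat.cast_sub (by omega)]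
      push_cast; ring
    rw [e3]
    refine inv_sq_congr (D.U3' (by omega)) ?_ (Or.inr ?_)
    · have : U p (((s - 1 - i : ℕ) : ℚ) + 1) := Uj (by omega)
      rw [Nat.cast_sub (by omega), Nat.cast_sub (by omega)] at this
      convert this using 1
      push_cast
      ring
    · have e : (i : ℚ) + 1 / 2 + ((h : ℚ) + 1 + (s - h - 1 - i)) = (p : ℚ) * (1 / 2) := by
        rw [hc]; ring
      rw [e]
      exact I_p.mulR (div_mem (one_mem _) (U2 D.h5))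
  -- third sum
  have hB : I p 1 (∑ i ∈ range h, 1 / ((p : ℚ) / 2 + 1 + i) ^ 2 -
      ∑ i ∈ range h, 1 / ((i : ℚ) + 1) ^ 2) := by
    rw [← sum_sub_distrib]
    refine I.sum fun i hi => ?_
    have hi := mem_range.1 hi
    refine inv_sq_congr (D.Ub hi) (D.U4 (by omega)) (Or.inl ?_)
    have e : (p : ℚ) / 2 + 1 + i - ((i : ℚ) + 1) = (p : ℚ) * (1 / 2) := by ring
    rw [e]
    exact I_p.mulR (div_mem (one_mem _) (U2 D.h5))
  -- half-integers against integers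
  have hC : I p 1 (∑ i ∈ range s, 1 / ((i : ℚ) + 1 / 2) ^ 2 -
      ∑ i ∈ range s, 1 / ((i : ℚ) + 1) ^ 2) := by
    rw [← sum_range_reflect (fun i : ℕ => 1 / ((i : ℚ) + 1) ^ 2) s, ← sum_sub_distrib]
    refine I.sum fun i hi => ?_
    have hi := mem_range.1 hi
    have u2 : U p (((s - 1 - i : ℕ) : ℚ) + 1) := Uj (by omega)
    refine inv_sq_congr (D.U3' hi) u2 (Or.inr ?_)
    rw [Nat.cast_sub (by omega), Nat.cast_sub (by omega)]
    have e : (i : ℚ) + 1 / 2 + ((s : ℚ) - (1 : ℕ) - i + 1) = (p : ℚ) * (1 / 2) := by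
      rw [hc]; push_cast; ring
    rw [e]
    exact I_p.mulR (div_mem (one_mem _) (U2 D.h5))
  have e4 : s = h + (s - h) := by omega
  have e5 : ∑ i ∈ range s, 1 / ((i : ℚ) + 1 / 2) ^ 2 = ∑ i ∈ range h, 1 / ((i : ℚ) + 1 / 2) ^ 2 +
      ∑ i ∈ range (s - h), 1 / ((h : ℚ) + 1 / 2 + i) ^ 2 := by
    conv_lhs => rw [e4]
    rw [sum_range_add]
    congr 1
    refine sum_congr rfl fun i _ => ?_
    congr 2
    push_cast
    ring
  have e6 : ∑ i ∈ range s, 1 / ((i : ℚ) + 1) ^ 2 = ∑ i ∈ range h, 1 / ((i : ℚ) + 1) ^ 2 +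
      ∑ i ∈ range (s - h), 1 / ((h : ℚ) + 1 + i) ^ 2 := by
    conv_lhs => rw [e4]
    rw [sum_range_add]
    congr 1
    refine sum_congr rfl fun i _ => ?_
    congr 2
    push_cast
    ring
  have h2 := D.H2
  have h3 := ((hA.add hB).add hC).add (h2.mulL (x := 2) (n_mem 2))
  rw [e5, e6] at h3
  convert h3 using 1
  ring

end Pool.Agent.R439.G3
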