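import Mathlib
import Pool.Agent.R439.G3F

set_option autoImplicit false

/-!
The main congruence for natural parameters, conclusion.
-/

namespace Pool.Agent.R439.G3

open Finset Pool.Agent.R439.PL Pool.Agent.R439.T3

variable {p : ℕ} [hp : Fact p.Prime] {s h : ℕ}

theorem nu_U (h5 : 5 ≤ p) (j : ℕ) : U p (nu p j) := by
  unfold nu
  by_cases hd : p ∣ 2 * j + 1
  · rw [if_pos hd]; exact U.one
  · rw [if_neg hd]
    exact U_half h5 (a := ((2 * j + 1 : ℕ) : ℤ)) (by exact_mod_cast hd) (by push_cast; ring)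

theorem de_U (j : ℕ) : U p (de p j) := by
  unfold de
  by_cases hd : p ∣ j + 1
  · rw [if_pos hd]; exact U.one
  · rw [if_neg hd]
    exact U_of (a := ((j + 1 : ℕ) : ℤ)) (by exact_mod_cast hd) (by push_cast; ring)

theorem PP_U (h5 : 5 ≤ p) (n : ℕ) : U p (PP p n) :=
  U.prod fun j _ => (nu_U h5 j).div (de_U j)

theorem Par.PP_cc (D : Par p s h) : PP p h = cc h := by
  have := D.hs
  have := D.hh
  unfold PP cc
  refine prod_congr rfl fun j hj => ?_
  have hj := mem_range.1 hj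
  rw [nu, de, if_neg, if_neg]
  · intro hd
    have := Nat.le_of_dvd (by omega) hd
    omega
  · intro hd
    have := Nat.le_of_dvd (by omega) hd
    omega

theorem sign_prod (p n : ℕ) [Fact p.Prime] : ∏ i ∈ range n, (if p ∣ i + 1 then (-1 : ℚ) else 1) =
    (-1) ^ (n / p) := by
  induction n with
  | zero => simp
  | succ n ih =>
    rw [prod_range_succ, ih, Nat.succ_div]
    by_cases h : p ∣ n + 1
    · rw [if_pos h, if_pos h, pow_succ]
    · rw [if_neg h, if_neg h, mul_one, add_zero]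

/-- the signs -/
def sg (p j : ℕ) : ℚ := (if p ∣ j + 1 then (-1 : ℚ) else 1) * (if p ∣ 2 * j + 1 then (-1 : ℚ) else 1)

theorem sg_sq (p j : ℕ) : sg p j ^ 2 = 1 := by
  unfold sg
  split_ifs <;> norm_num

theorem sg_prod (hp2 : p ≠ 2) (n : ℕ) : ∏ j ∈ range n, sg p j = (-1) ^ (2 * n / p) := by
  rw [← sign_prod p (2 * n)]
  induction n with
  | zero => simp
  | succ n ih =>
    rw [prod_range_succ, ih, show 2 * (n + 1) = 2 * n + 1 + 1 by ring, prod_range_succ,
      prod_range_succ, sg]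
    have hdv : p ∣ 2 * n + 1 + 1 ↔ p ∣ n + 1 := by
      rw [show 2 * n + 1 + 1 = 2 * (n + 1) by ring]
      constructor
      · intro h
        rcases (hp.out.dvd_mul).1 h with h | h
        · exact absurd ((Nat.prime_dvd_prime_iff_eq hp.out Nat.prime_two).1 h) hp2
        · exact h
      · intro h; exact Dvd.dvd.mul_left h 2
    simp only [hdv]
    ring

/-- `p^3 = 2M+1` -/
theorem refl_factor (h5 : 5 ≤ p) {M j : ℕ} (hM : p ^ 3 = 2 * M + 1) (hj : j < M) :
    EQ p 3 (nu p (M - 1 - j) / de p (M - 1 - j)) (sg p j * (de p j / nu p j)) := by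
  have hcM : (p : ℚ) ^ 3 = 2 * M + 1 := by
    have : ((p ^ 3 : ℕ) : ℚ) = ((2 * M + 1 : ℕ) : ℚ) := by rw [hM]
    push_cast at this; exact this
  have e3 : ((M - 1 - j : ℕ) : ℚ) = M - 1 - j := by
    rw [Nat.cast_sub (by omega), Nat.cast_sub (by omega)]; push_cast; ring
  have hp3 : p ∣ p ^ 3 := dvd_pow_self _ (by norm_num)
  have hd1 : p ∣ 2 * (M - 1 - j) + 1 ↔ p ∣ j + 1 := by
    have e : 2 * (M - 1 - j) + 1 + 2 * (j + 1) = p ^ 3 := by omega
    constructor
    · intro h
      have h1 : p ∣ 2 * (j + 1) := (Nat.dvd_add_right h).1 (e ▸ hp3)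
      rcases (hp.out.dvd_mul).1 h1 with h | h
      · have := Nat.le_of_dvd (by norm_num) h; omega
      · exact h
    · intro h
      exact (Nat.dvd_add_left (Dvd.dvd.mul_left h 2)).1 (e ▸ hp3)
  have hd2 : p ∣ M - 1 - j + 1 ↔ p ∣ 2 * j + 1 := by
    have e : 2 * (M - 1 - j + 1) + (2 * j + 1) = p ^ 3 := by omega
    constructor
    · intro h
      exact (Nat.dvd_add_right (Dvd.dvd.mul_left h 2)).1 (e ▸ hp3)
    · intro h
      have h1 : p ∣ 2 * (M - 1 - j + 1) := (Nat.dvd_add_left h).1 (e ▸ hp3)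
      rcases (hp.out.dvd_mul).1 h1 with h | h
      · have := Nat.le_of_dvd (by norm_num) h; omega
      · exact h
  have hI : I p 3 ((p : ℚ) ^ 3 * (1 / 2)) := ⟨1 / 2, div_mem (one_mem _) (U2 h5), rfl⟩
  have E1 : EQ p 3 (nu p (M - 1 - j)) (-((if p ∣ j + 1 then (-1 : ℚ) else 1) * de p j)) := by
    refine ⟨(nu_U h5 _).2.1, neg_mem (mul_mem ?_ (de_U j).2.1), ?_⟩
    · by_cases h : p ∣ j + 1
      · rw [if_pos h]; exact neg_mem (one_mem _)
      · rw [if_neg h]; exact one_mem _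
    · unfold nu de
      by_cases h : p ∣ j + 1
      · rw [if_pos (hd1.2 h), if_pos h, if_pos h]
        have : (1 : ℚ) - -(-1 * 1) = 0 := by norm_num
        rw [this]; exact I.zero
      · rw [if_neg (fun h' => h (hd1.1 h')), if_neg h, if_neg h]
        convert hI using 1
        rw [e3, hcM]
        ring
  have E2 : EQ p 3 (de p (M - 1 - j)) (-((if p ∣ 2 * j + 1 then (-1 : ℚ) else 1) * nu p j)) := by
    refine ⟨(de_U _).2.1, neg_mem (mul_mem ?_ (nu_U h5 j).2.1), ?_⟩
    · by_cases h : p ∣ 2 * j + 1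
      · rw [if_pos h]; exact neg_mem (one_mem _)
      · rw [if_neg h]; exact one_mem _
    · unfold nu de
      by_cases h : p ∣ 2 * j + 1
      · rw [if_pos (hd2.2 h), if_pos h, if_pos h]
        have : (1 : ℚ) - -(-1 * 1) = 0 := by norm_num
        rw [this]; exact I.zero
      · rw [if_neg (fun h' => h (hd2.1 h')), if_neg h, if_neg h]
        convert hI using 1
        rw [e3, hcM]
        ring
  have E3 := E1.div (by norm_num) E2 (de_U _)
  have hnu := (nu_U (p := p) h5 j).1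
  have e4 : -((if p ∣ j + 1 then (-1 : ℚ) else 1) * de p j) /
      -((if p ∣ 2 * j + 1 then (-1 : ℚ) else 1) * nu p j) = sg p j * (de p j / nu p j) := by
    unfold sg
    generalize nu p j = x at *
    by_cases h : p ∣ 2 * j + 1
    · rw [if_pos h]; field_simp
    · rw [if_neg h]; field_simp
  rwa [e4] at E3

theorem PP_refl (h5 : 5 ≤ p) {M n : ℕ} (hM : p ^ 3 = 2 * M + 1) (hn : n ≤ M) :
    EQ p 3 (PP p M) (PP p (M - n) * ((∏ j ∈ range n, sg p j) * (PP p n)⁻¹)) := by
  have hU := PP_U (p := p) h5 (M - n)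
  have key : ∀ n ≤ M, PP p M = PP p (M - n) * ∏ j ∈ range n, (nu p (M - 1 - j) / de p (M - 1 - j)) := by
    intro n hn
    induction n with
    | zero => simp
    | succ n ih =>
      rw [ih (by omega), prod_range_succ, ← mul_assoc]
      have e : M - n = (M - (n + 1)) + 1 := by omega
      have e2 : M - (n + 1) = M - 1 - n := by omega
      rw [e, PP, PP, prod_range_succ, e2]
      ring
  rw [key n hn]
  refine (EQ.refl hU.2.1).mul ?_
  have h1 := EQ.prod (p := p) (k := 3) (s := range n) (f := fun j => nu p (M - 1 - j) /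
    de p (M - 1 - j)) (g := fun j => sg p j * (de p j / nu p j)) fun j hj =>
      refl_factor h5 hM (by have := mem_range.1 hj; omega)
  rw [prod_mul_distrib] at h1
  have e5 : ∏ j ∈ range n, (de p j / nu p j) = (PP p n)⁻¹ := by
    rw [PP, ← prod_inv_distrib]
    exact prod_congr rfl fun j _ => by rw [inv_div]
  rwa [e5] at h1

theorem PP_sq_refl (h5 : 5 ≤ p) {M n : ℕ} (hM : p ^ 3 = 2 * M + 1) (hn : n ≤ M) :
    EQ p 3 (PP p (M - n) ^ 2) (PP p n ^ 2) := by
  have hU := PP_U (p := p) h5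
  have h1 := PP_refl h5 hM (le_refl M)
  rw [Nat.sub_self] at h1
  have h0 : PP p 0 = 1 := by simp [PP]
  rw [h0, one_mul, sg_prod (by omega)] at h1
  have hev : Even (2 * M / p) := by
    have h2 : 2 * M / p = p ^ 2 - 1 := by
      have e : 2 * M = p * (p ^ 2 - 1) + (p - 1) := by
        have h3 : 1 ≤ p ^ 2 := Nat.one_le_pow _ _ hp.out.pos
        have h4 : p * (p ^ 2 - 1) = p ^ 3 - p := by
          rw [Nat.mul_sub, mul_one]; congr 1; ring
        have h6 : p ≤ p ^ 3 := by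
          calc p = p ^ 1 := (pow_one p).symm
            _ ≤ p ^ 3 := Nat.pow_le_pow_right hp.out.pos (by norm_num)
        omega
      rw [e, Nat.mul_add_div hp.out.pos, Nat.div_eq_of_lt (by omega), add_zero]
    rw [h2]
    have hodd : Odd p := hp.out.odd_of_ne_two (by omega)
    have : Odd (p ^ 2) := hodd.pow
    exact Nat.Odd.sub_odd this odd_one
  rw [hev.neg_one_pow, one_mul] at h1
  have h2 : EQ p 3 (PP p M ^ 2) 1 := by
    have := h1.mul (EQ.refl (p := p) (k := 3) (hU M).2.1)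
    have e : (PP p M)⁻¹ * PP p M = 1 := inv_mul_cancel₀ (hU M).1
    rw [e, ← sq] at this
    exact this
  have h3 := (PP_refl h5 hM hn).pow 2
  have e6 : (PP p (M - n) * ((∏ j ∈ range n, sg p j) * (PP p n)⁻¹)) ^ 2 =
      PP p (M - n) ^ 2 * (PP p n ^ 2)⁻¹ := by
    have : (∏ j ∈ range n, sg p j) ^ 2 = 1 := by
      rw [← prod_pow]
      exact prod_eq_one fun j _ => sg_sq p j
    rw [mul_pow, mul_pow, this, one_mul, inv_pow]
  rw [e6] at h3
  have h4 := (h3.symm.trans h2).mul (EQ.refl (p := p) (k := 3) ((hU n).pow 2).2.1)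
  have e7 : PP p (M - n) ^ 2 * (PP p n ^ 2)⁻¹ * PP p n ^ 2 = PP p (M - n) ^ 2 := by
    rw [mul_assoc, inv_mul_cancel₀ ((hU n).pow 2).1, mul_one]
  rwa [e7, one_mul] at h4

/-- the point `a = 2h - p` -/
theorem Par.at_tau (D : Par p s h) {T : ℕ} (hT : 2 * T + 1 = p ^ 2) :
    I p 3 (LL p h T - PP p (h + p * T) ^ 2) := by
  have hs := D.hs
  have hh := D.hh
  have hc := D.cast
  obtain ⟨M, hM⟩ : ∃ M, p ^ 3 = 2 * M + 1 := by
    have hodd : Odd p := hp.out.odd_of_ne_two (by have := D.h5; omega)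
    exact hodd.pow
  have hMT : M = s + p * T := by
    have : p ^ 3 = p * p ^ 2 := by ring
    rw [← hT] at this
    have h2 : p * (2 * T + 1) = 2 * (p * T) + p := by ring
    omega
  have h1 := PP_sq_refl D.h5 hM (n := s - h) (by omega)
  have e1 : M - (s - h) = h + p * T := by omega
  have D' : Par p s (s - h) := ⟨D.h5, D.hs, by omega⟩
  rw [e1, D'.PP_cc] at h1
  have h2 : EQ p 3 (LL p h T) (cc (s - h) ^ 2) := by
    rw [← sum_even (s - h) p (by omega)]
    unfold LL
    refine EQ.sum fun k hk => ?_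
    have hk := mem_range.1 hk
    refine (EQ.refl (D.cc_mem hk)).mul ?_
    unfold BB
    refine EQ.prod fun j hj => ?_
    have hj := mem_range.1 hj
    have hU := (Uj (p := p) (j := j) (by omega)).pow 2
    have hjm : (j : ℚ) * (j + 1) ∈ Zp p := mul_mem (nat_mem j) (add_mem (nat_mem j) (one_mem _))
    have hAm : AA p h T ∈ Zp p := by
      unfold AA
      have : 2 * (h : ℚ) + 2 * p * T ∈ Zp p := add_mem (mul_mem (n_mem 2) (nat_mem h))
        (mul_mem (mul_mem (n_mem 2) p_mem) (nat_mem T))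
      exact mul_mem this (add_mem this (one_mem _))
    have hBm : ((2 * (s - h) : ℕ) : ℚ) * ((2 * (s - h) : ℕ) + 1) ∈ Zp p :=
      mul_mem (nat_mem _) (add_mem (nat_mem _) (one_mem _))
    have hE : EQ p 3 (AA p h T) (((2 * (s - h) : ℕ) : ℚ) * ((2 * (s - h) : ℕ) + 1)) := by
      refine ⟨hAm, hBm, ?_⟩
      have e2 : ((2 * (s - h) : ℕ) : ℚ) = 2 * (s - h) := by
        rw [Nat.cast_mul, Nat.cast_sub hh]; push_cast; ring
      have e3 : (2 * (T : ℚ)) = (p : ℚ) ^ 2 - 1 := by
        have : ((2 * T + 1 : ℕ) : ℚ) = ((p ^ 2 : ℕ) : ℚ) := by rw [hT]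
        push_cast at this; linarith
      have e4 : 2 * (h : ℚ) + 2 * p * T = 2 * h - p + p ^ 3 := by
        have : 2 * (p : ℚ) * T = p * (2 * T) := by ring
        rw [this, e3]; ring
      have e5 : (s : ℚ) = (p - 1) / 2 := by rw [hc]; ring
      refine ⟨2 * (2 * h - p) + 1 + p ^ 3, ?_, ?_⟩
      · exact add_mem (add_mem (mul_mem (n_mem 2) (sub_mem (mul_mem (n_mem 2) (nat_mem h)) p_mem))
          (one_mem _)) (pow_mem p_mem 3)
      · unfold AA
        rw [e4, e2, e5]
        ring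
    exact ((EQ.refl hjm).sub hE).div (by norm_num) (EQ.refl hU.2.1) hU
  exact (h2.trans h1.symm).2.2

theorem Par.main (D : Par p s h) (t : ℕ) : I p 3 (LL p h t - PP p (h + p * t) ^ 2) := by
  have h2U := U2 (p := p) D.h5
  obtain ⟨T, hT⟩ : ∃ T, 2 * T + 1 = p ^ 2 := by
    have hodd : Odd p := hp.out.odd_of_ne_two (by have := D.h5; omega)
    obtain ⟨T, hT⟩ := hodd.pow (n := 2)
    exact ⟨T, hT.symm⟩
  have hcT : 2 * (T : ℚ) = (p : ℚ) ^ 2 - 1 := by
    have : ((2 * T + 1 : ℕ) : ℚ) = ((p ^ 2 : ℕ) : ℚ) := by rw [hT]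
    push_cast at this; linarith
  obtain ⟨L0, l1, l2, w0, w1, w2, a1, a2, a3, a4, a5⟩ := D.two p le_rfl
  have a1' : Q3 p (LL p h) L0 l1 l2 := a1
  have e1 : (fun t => ∑ k ∈ range p, uu s k * BB (AA p h t) k) = fun t : ℕ =>
      Lam s (2 * (h : ℚ) + 2 * p * t) := by
    funext t; exact Lam_eq D t
  rw [e1] at a2
  obtain ⟨f0, x, hx⟩ := D.Lam_LQ
  obtain ⟨u0, u1, u2⟩ := a2.unique h2U (hx.toQ3 h2U)
  obtain ⟨α, hα⟩ := D.rho_E3
  have hPU := (PP_U (p := p) D.h5 h).pow 2
  obtain ⟨xr, hxr⟩ := hα.toLQ h2U hPU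
  have e2 : (fun t : ℕ => PP p h ^ 2 * ∏ i ∈ range t, rho p h i ^ 2) =
      fun t : ℕ => PP p (h + p * t) ^ 2 := by
    funext t; rw [PP_cum, mul_pow, prod_pow]
  rw [e2] at hxr
  have hxq := hxr.toQ3 h2U
  set R0 := PP p h ^ 2 with hR0
  -- value at zero
  have z0 : I p 3 (L0 - R0) := by
    have b1 := a1'.2.2.2 0
    have b2 : LL p h 0 = R0 := by
      have := sum_even h p (by have := D.hs; have := D.hh; omega)
      rw [hR0, D.PP_cc, ← this]
      unfold LL AA
      refine sum_congr rfl fun k _ => ?_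
      congr 2
      push_cast
      ring
    rw [b2] at b1
    have := b1.neg
    convert this using 1
    push_cast
    ring
  set X1 := l1 - R0 * xr with hX1
  set X2 := l2 - R0 * ((xr ^ 2 + yR p s h) / 2) with hX2
  have hX1p : I p 1 X1 := a1'.2.1.sub hxq.2.1
  have hX2p : I p 2 X2 := a1'.2.2.1.sub hxq.2.2.1
  have hD : ∀ t : ℕ, I p 3 (LL p h t - PP p (h + p * t) ^ 2 - (X1 * t + X2 * t ^ 2)) := by
    intro t
    have := ((a1'.2.2.2 t).sub (hxq.2.2.2 t)).add z0
    convert this using 1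
    rw [hX1, hX2]
    ring
  have hT3 : I p 3 (X1 * T + X2 * T ^ 2) := by
    have := (D.at_tau hT).sub (hD T)
    convert this using 1
    ring
  have hp2 : I p 2 ((p : ℚ) ^ 2) := ⟨1, one_mem _, by ring⟩
  have hrel : I p 3 (X2 - 2 * X1) := by
    have c1 := hT3.mulL (x := 4) (n_mem 4)
    have c2 : I p 3 (X1 * (p : ℚ) ^ 2 * 2) := (hX1p.mul hp2).mulR (n_mem 2)
    have c3 : I p 3 (X2 * (p : ℚ) ^ 2 * ((p : ℚ) ^ 2 - 2)) :=
      ((hX2p.mul hp2).mono (by norm_num)).mulR (sub_mem (pow_mem p_mem 2) (n_mem 2))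
    have := (c1.sub c2).sub c3
    convert this using 1
    have e : 4 * (X1 * (T : ℚ) + X2 * T ^ 2) = 2 * X1 * (2 * T) + X2 * (2 * T) ^ 2 := by ring
    rw [e, hcT]
    ring
  have hX1p2 : I p 2 X1 := by
    apply h2U.cancel
    have := hX2p.sub (hrel.mono (l := 2) (by norm_num))
    convert this using 1
    ring
  -- comparison of the logarithmic derivatives
  have hf0 : I p 1 (f0 - R0) := by
    have := ((z0.mono (l := 1) (by norm_num)).sub a3).sub (u0.mono (l := 1) (by norm_num))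
    convert this using 1
    ring
  have hxx : I p 2 (x - xr) := by
    have c1 : I p 2 (f0 * x - R0 * xr) := by
      have := (hX1p2.sub a4).sub (u1.mono (l := 2) (by norm_num))
      convert this using 1
      rw [hX1]
      ring
    have c2 : I p 2 ((f0 - R0) * x) := hf0.mul hx.2.1
    apply hPU.cancel
    have := c1.sub c2
    convert this using 1
    ring
  have hxs : I p 3 (x ^ 2 - xr ^ 2) := by
    have : I p 3 ((x - xr) * (x + xr)) := hxx.mul (hx.2.1.add hxr.2.1)
    convert this using 1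
    ring
  have hxy : I p 2 (x ^ 2 + yL p s h) := by
    refine I.add ?_ hx.2.2.1
    rw [sq]; exact hx.2.1.mul hx.2.1
  have hX2p3 : I p 3 X2 := by
    have c1 : I p 3 ((f0 - R0) * (x ^ 2 + yL p s h)) := hf0.mul hxy
    have c2 : I p 3 (R0 * (x ^ 2 - xr ^ 2 + (yL p s h - yR p s h))) :=
      (hxs.add D.yLR).mulL hPU.2.1
    have c3 := (a5.add u2)
    have c4 := (c3.mulL (x := 2) (n_mem 2)).add (c1.add c2)
    apply h2U.cancel
    convert c4 using 1
    rw [hX2]
    ring
  have hX1p3 : I p 3 X1 := by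
    apply h2U.cancel
    have := hX2p3.sub hrel
    convert this using 1
    ring
  have := (hD t).add ((hX1p3.mulR (nat_mem t)).add (hX2p3.mulR (pow_mem (nat_mem t) 2)))
  convert this using 1
  ring

end Pool.Agent.R439.G3
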