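import Mathlib
import Pool.Agent.R439.G3G
import Pool.Agent.H623R3.SW.Gm

set_option autoImplicit false

/-!
The Gamma side: squares of Morita's gamma function at `-n` and `n + 1/2` modulo `p^3`.
-/

namespace Pool.Agent.R439.G3

open Finset Pool.Agent.H623R3.SW

variable {p : ℕ} [hp : Fact p.Prime]

/-- the number itself unless divisible by `p` -/
def br (p : ℕ) (R : Type*) [CommRing R] (x : ℕ) : R := if p ∣ x then (1 : R) else (x : R)

theorem mg_br (R : Type*) [CommRing R] (n : ℕ) :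
    ((mg p n : ℤ) : R) = (-1) ^ n * ∏ r ∈ range n, br p R r := mg_eq R n

theorem mg_add_sq (R : Type*) [CommRing R] (m n : ℕ) :
    ((mg p (m + n) : ℤ) : R) = (-1) ^ n * ((mg p m : ℤ) : R) * ∏ r ∈ range n, br p R (m + r) := by
  rw [mg_br, mg_br, prod_range_add]
  ring

theorem br_neg {M x y : ℕ} (hM : M ≠ 0) (h : x + y = p ^ M ∨ ∃ k, x + y = p ^ M * k) :
    br p (ZMod (p ^ M)) x = (if p ∣ y then (1 : ZMod (p ^ M)) else -1) *
      br p (ZMod (p ^ M)) y := by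
  have hk : ∃ k, x + y = p ^ M * k := by
    rcases h with h | h
    · exact ⟨1, by rw [h, mul_one]⟩
    · exact h
  obtain ⟨k, hk⟩ := hk
  have hd : p ∣ x + y := by rw [hk]; exact Dvd.dvd.mul_right (dvd_pow_self p hM) k
  have hiff : p ∣ x ↔ p ∣ y := by
    constructor
    · intro h1; exact (Nat.dvd_add_right h1).1 hd
    · intro h1; exact (Nat.dvd_add_left h1).1 hd
  have hz : ((x : ℕ) : ZMod (p ^ M)) + y = 0 := by
    rw [← Nat.cast_add, hk, Nat.cast_mul, ZMod.natCast_self, zero_mul]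
  unfold br
  by_cases h1 : p ∣ y
  · rw [if_pos (hiff.2 h1), if_pos h1, if_pos h1, one_mul]
  · rw [if_neg (fun h => h1 (hiff.1 h)), if_neg h1, if_neg h1]
    linear_combination hz

theorem sq_at_neg (hp2 : p ≠ 2) {K n : ℕ} (hn : n ≤ p ^ 3 * K) :
    ((mg p (p ^ 3 * K - n) : ℤ) : ZMod (p ^ 3)) ^ 2 *
      (∏ j ∈ range n, br p (ZMod (p ^ 3)) (j + 1)) ^ 2 = 1 := by
  induction n with
  | zero =>
    have h1 : ((mg p (p ^ 3 * K - 0) : ℤ) : ZMod (p ^ 3)) = ((mg p 0 : ℤ) : ZMod (p ^ 3)) := by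
      apply mg_congr hp2
      rw [Nat.sub_zero]
      exact (Nat.modEq_zero_iff_dvd).2 (Dvd.intro _ rfl)
    rw [h1, mg_br]
    simp
  | succ n ih =>
    have ih' := ih (by omega)
    obtain ⟨x, hx⟩ : ∃ x, x = p ^ 3 * K - (n + 1) := ⟨_, rfl⟩
    have hx1 : p ^ 3 * K - n = x + 1 := by omega
    rw [hx1] at ih'
    rw [← hx]
    have h2 := mg_add_sq (p := p) (ZMod (p ^ 3)) x 1
    rw [prod_range_one, add_zero, pow_one] at h2
    have h3 := br_neg (p := p) (M := 3) (x := x) (y := n + 1) (by norm_num)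
      (Or.inr ⟨K, by omega⟩)
    have h4 : br p (ZMod (p ^ 3)) x ^ 2 = br p (ZMod (p ^ 3)) (n + 1) ^ 2 := by
      rw [h3, mul_pow]
      have : (if p ∣ n + 1 then (1 : ZMod (p ^ 3)) else -1) ^ 2 = 1 := by
        split_ifs <;> ring
      rw [this, one_mul]
    rw [h2] at ih'
    rw [prod_range_succ, mul_pow, ← h4, ← ih']
    ring

theorem p3_half {M s : ℕ} (hs : p = 2 * s + 1) (hM : p ^ 3 = 2 * M + 1) :
    (-1 : ZMod (p ^ 3)) ^ (M + 1) = (-1) ^ (s + 1) ∧ Even (M / p) := by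
  obtain ⟨r, hr⟩ : ∃ r, s * (s + 1) = 2 * r := by
    rcases Nat.even_or_odd s with ⟨k, hk⟩ | ⟨k, hk⟩
    · exact ⟨k * (s + 1), by rw [hk]; ring⟩
    · exact ⟨s * (k + 1), by rw [hk]; ring⟩
  have hp2 : p ^ 2 = 8 * r + 1 := by rw [hs]; nlinarith
  have hp3 : p ^ 3 = p * (8 * r) + p := by
    calc p ^ 3 = p * p ^ 2 := by ring
      _ = _ := by rw [hp2]; ring
  have hMv : M = p * (4 * r) + s := by
    have : 2 * M + 1 = p * (8 * r) + (2 * s + 1) := by rw [← hM, hp3, ← hs]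
    have e : p * (8 * r) = 2 * (p * (4 * r)) := by ring
    omega
  constructor
  · rw [hMv]
    have : p * (4 * r) + s + 1 = 2 * (p * (2 * r)) + (s + 1) := by ring
    rw [this, pow_add, pow_mul, neg_one_sq, one_pow, one_mul]
  · have : M / p = 4 * r := by
      rw [hMv, Nat.mul_add_div hp.out.pos, Nat.div_eq_of_lt (by omega), add_zero]
    rw [this]
    exact ⟨2 * r, by ring⟩

theorem prod_sg (R : Type*) [CommRing R] (M : ℕ) :
    ∏ i ∈ range M, (if p ∣ i + 1 then (1 : R) else -1) = (-1) ^ (M + M / p) := by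
  induction M with
  | zero => simp
  | succ M ih =>
    rw [prod_range_succ, ih]
    by_cases hd : p ∣ M + 1
    · rw [if_pos hd, mul_one, Nat.succ_div_of_dvd hd]
      rw [show M + 1 + (M / p + 1) = M + M / p + 2 by ring, pow_add _ _ 2]
      ring
    · rw [if_neg hd, Nat.succ_div_of_not_dvd hd]
      rw [show M + 1 + M / p = M + M / p + 1 by ring, pow_succ]

theorem sq_half (hp2 : p ≠ 2) {M s : ℕ} (hs : p = 2 * s + 1) (hM : p ^ 3 = 2 * M + 1) :
    ((mg p (M + 1) : ℤ) : ZMod (p ^ 3)) ^ 2 = (-1) ^ (s + 1) := by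
  obtain ⟨h1, h2⟩ := p3_half (p := p) hs hM
  have a1 : ((mg p (p ^ 3) : ℤ) : ZMod (p ^ 3)) = 1 := by
    have h1 : ((mg p (p ^ 3) : ℤ) : ZMod (p ^ 3)) = ((mg p 0 : ℤ) : ZMod (p ^ 3)) := by
      apply mg_congr hp2
      exact (Nat.modEq_zero_iff_dvd).2 dvd_rfl
    rw [h1, mg_br]
    simp
  have a2 := mg_add_sq (p := p) (ZMod (p ^ 3)) (M + 1) M
  rw [show M + 1 + M = p ^ 3 by omega, a1] at a2
  have a3 : ∏ r ∈ range M, br p (ZMod (p ^ 3)) (M + 1 + r) =
      ∏ r ∈ range M, ((if p ∣ r + 1 then (1 : ZMod (p ^ 3)) else -1) *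
        br p (ZMod (p ^ 3)) (r + 1)) := by
    rw [← prod_range_reflect (fun r => (if p ∣ r + 1 then (1 : ZMod (p ^ 3)) else -1) *
        br p (ZMod (p ^ 3)) (r + 1))]
    refine prod_congr rfl fun r hr => ?_
    have hr' := mem_range.1 hr
    apply br_neg (by norm_num)
    left
    omega
  rw [a3, prod_mul_distrib, prod_sg] at a2
  have a4 := mg_br (p := p) (ZMod (p ^ 3)) (M + 1)
  have a5 : ∏ r ∈ range (M + 1), br p (ZMod (p ^ 3)) r =
      ∏ r ∈ range M, br p (ZMod (p ^ 3)) (r + 1) := by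
    rw [prod_range_succ']
    have : br p (ZMod (p ^ 3)) 0 = 1 := if_pos (dvd_zero _)
    rw [this, mul_one]
  rw [a5] at a4
  have a6 : ((-1 : ZMod (p ^ 3)) ^ (M / p)) = 1 := h2.neg_one_pow
  rw [← h1]
  have a7 : ((-1 : ZMod (p ^ 3)) ^ M) ^ 2 = 1 := by rw [← pow_mul, mul_comm, pow_mul]; simp
  rw [pow_add, a6] at a2
  set X := ((mg p (M + 1) : ℤ) : ZMod (p ^ 3))
  set Y := ∏ r ∈ range M, br p (ZMod (p ^ 3)) (r + 1)
  set e := (-1 : ZMod (p ^ 3)) ^ M
  rw [pow_succ (-1 : ZMod (p ^ 3)) M] at a4 ⊢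
  have a4' : X = -(e * Y) := by rw [a4]; ring
  have a8 : 1 = X * Y := by
    rw [a2]
    linear_combination (X * Y) * a7
  have a9 : e * X = -Y := by
    rw [a4']
    linear_combination (-Y) * a7
  have : e * X ^ 2 = -1 := by
    calc e * X ^ 2 = (e * X) * X := by ring
      _ = -Y * X := by rw [a9]
      _ = -(X * Y) := by ring
      _ = -1 := by rw [← a8]
  calc X ^ 2 = e ^ 2 * X ^ 2 := by rw [a7, one_mul]
    _ = e * (e * X ^ 2) := by ring
    _ = e * (-1) := by rw [this]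

/-- `j + 1/2` in the `p`-adic integers unless divisible by `p` -/
noncomputable def nuZ (p : ℕ) [Fact p.Prime] (η : ℤ_[p]) (j : ℕ) : ℤ_[p] :=
  if p ∣ 2 * j + 1 then 1 else (j : ℤ_[p]) + η

/-- `j + 1` in the `p`-adic integers unless divisible by `p` -/
noncomputable def deZ (p : ℕ) [Fact p.Prime] (j : ℕ) : ℤ_[p] :=
  if p ∣ j + 1 then 1 else (j : ℤ_[p]) + 1

theorem gamma_part (hp2 : p ≠ 2) {s : ℕ} (hs : p = 2 * s + 1) {G : ℤ_[p] → ℤ_[p]}
    (hG : IsMorita p G) {η : ℤ_[p]} (hη : 2 * η = 1) (n : ℕ) {u v : ℤ_[p]}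
    (hu : (p : ℤ_[p]) ^ 3 ∣ u + n) (hv : (p : ℤ_[p]) ^ 3 ∣ v - (n + η)) :
    (p : ℤ_[p]) ^ 3 ∣ (-1) ^ (s + 1) * (G u) ^ 2 * (G v) ^ 2 * (∏ j ∈ range n, deZ p j) ^ 2 -
      (∏ j ∈ range n, nuZ p η j) ^ 2 := by
  obtain ⟨M, hM⟩ : ∃ M, p ^ 3 = 2 * M + 1 := by
    have : Odd (p ^ 3) := (hp.out.odd_of_ne_two hp2).pow
    exact this
  have hp1 : 1 ≤ p ^ 3 := Nat.one_le_pow _ _ hp.out.pos
  have hn : n ≤ p ^ 3 * (n + 1) := by nlinarith
  have hgu : PadicInt.toZModPow 3 (G u) = ((mg p (p ^ 3 * (n + 1) - n) : ℤ) : ZMod (p ^ 3)) := by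
    have h1 := morita_near hp2 hG u (p ^ 3 * (n + 1) - n)
    have h2 : (p : ℤ_[p]) ^ 3 ∣ u - ((p ^ 3 * (n + 1) - n : ℕ) : ℤ_[p]) := by
      rw [Nat.cast_sub hn]
      push_cast
      have := dvd_sub hu (Dvd.intro (n + 1 : ℤ_[p]) rfl)
      convert this using 1
      ring
    have h3 := dvd_of_norm_le _ _ h1 3 h2
    rw [pow_dvd_iff, map_sub, map_intCast, sub_eq_zero] at h3
    exact h3
  have hgv : PadicInt.toZModPow 3 (G v) = ((mg p (M + 1 + n) : ℤ) : ZMod (p ^ 3)) := by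
    have h1 := morita_near hp2 hG v (M + 1 + n)
    have h2 : (p : ℤ_[p]) ^ 3 ∣ v - ((M + 1 + n : ℕ) : ℤ_[p]) := by
      have e : (p : ℤ_[p]) ^ 3 = 2 * M + 1 := by
        exact_mod_cast congrArg (Nat.cast : ℕ → ℤ_[p]) hM
      have := dvd_sub hv (Dvd.intro (η : ℤ_[p]) rfl)
      convert this using 1
      rw [e]
      push_cast
      linear_combination (M + 1 : ℤ_[p]) * hη
    have h3 := dvd_of_norm_le _ _ h1 3 h2
    rw [pow_dvd_iff, map_sub, map_intCast, sub_eq_zero] at h3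
    exact h3
  have hde : ∀ j, PadicInt.toZModPow 3 (deZ p j) = br p (ZMod (p ^ 3)) (j + 1) := by
    intro j
    unfold deZ br
    split_ifs
    · exact map_one _
    · rw [map_add, map_natCast, map_one]; push_cast; ring
  have hnu : ∀ j, PadicInt.toZModPow 3 (nuZ p η j) = br p (ZMod (p ^ 3)) (M + 1 + j) := by
    intro j
    have hiff : p ∣ 2 * j + 1 ↔ p ∣ M + 1 + j := by
      have hpp : p ∣ p ^ 3 := dvd_pow_self p (by norm_num)
      constructor
      · intro h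
        have h1 : p ∣ 2 * (M + 1 + j) := by
          have : 2 * (M + 1 + j) = p ^ 3 + (2 * j + 1) := by omega
          rw [this]; exact dvd_add hpp h
        rcases (hp.out.dvd_mul).1 h1 with h2 | h2
        · exact absurd ((Nat.prime_dvd_prime_iff_eq hp.out Nat.prime_two).1 h2) hp2
        · exact h2
      · intro h
        have h1 : p ∣ p ^ 3 + (2 * j + 1) := by
          have : p ^ 3 + (2 * j + 1) = 2 * (M + 1 + j) := by omega
          rw [this]; exact Dvd.dvd.mul_left h 2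
        exact (Nat.dvd_add_right hpp).1 h1
    unfold nuZ br
    by_cases hd : p ∣ 2 * j + 1
    · rw [if_pos hd, if_pos (hiff.1 hd), map_one]
    · rw [if_neg hd, if_neg (fun h => hd (hiff.2 h)), map_add, map_natCast]
      have e1 : (2 : ZMod (p ^ 3)) * PadicInt.toZModPow 3 η = 1 := by
        have := congrArg (PadicInt.toZModPow 3) hη
        rw [map_mul, map_one] at this
        rw [← this, map_ofNat]
      have e2 : (2 * M + 1 : ZMod (p ^ 3)) = 0 := by
        have := congrArg (Nat.cast : ℕ → ZMod (p ^ 3)) hM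
        rw [ZMod.natCast_self] at this
        rw [this]; push_cast; ring
      push_cast
      linear_combination (M + 1 : ZMod (p ^ 3)) * e1 - (PadicInt.toZModPow 3 η) * e2
  rw [pow_dvd_iff, map_sub, map_mul, map_mul, map_mul, map_pow, map_pow, map_pow, map_pow, map_pow,
    map_prod, map_prod, map_neg, map_one, hgu, hgv]
  simp_rw [hde, hnu]
  have k1 := sq_at_neg (p := p) hp2 hn
  have k2 := sq_half (p := p) hp2 hs hM
  have k3 := mg_add_sq (p := p) (ZMod (p ^ 3)) (M + 1) n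
  rw [k3]
  have k4 : ((-1 : ZMod (p ^ 3)) ^ n) ^ 2 = 1 := by rw [← pow_mul, mul_comm, pow_mul]; simp
  have k5 : ((-1 : ZMod (p ^ 3)) ^ (s + 1)) ^ 2 = 1 := by rw [← pow_mul, mul_comm, pow_mul]; simp
  generalize ((mg p (p ^ 3 * (n + 1) - n) : ℤ) : ZMod (p ^ 3)) = A at *
  generalize ((mg p (M + 1) : ℤ) : ZMod (p ^ 3)) = B at *
  generalize ∏ j ∈ range n, br p (ZMod (p ^ 3)) (j + 1) = C at *
  generalize ∏ j ∈ range n, br p (ZMod (p ^ 3)) (M + 1 + j) = D at *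
  generalize (-1 : ZMod (p ^ 3)) ^ (s + 1) = e at *
  generalize (-1 : ZMod (p ^ 3)) ^ n = f at *
  have : e * A ^ 2 * (f * B * D) ^ 2 * C ^ 2 - D ^ 2 =
      (A ^ 2 * C ^ 2) * (f ^ 2) * (e * B ^ 2) * D ^ 2 - D ^ 2 := by ring
  rw [this, k1, k4, k2]
  linear_combination D ^ 2 * k5

end Pool.Agent.R439.G3
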