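import Mathlib
import Pool.Agent.R439.G3H

set_option autoImplicit false

/-!
Transfer to `p`-adic parameters.
-/

namespace Pool.Agent.R439.G3

open Finset Pool.Agent.R439.PL Pool.Agent.H623R3.SW

variable {p : ℕ} [hp : Fact p.Prime]

theorem unit_int {b : ℤ} (hb : ¬ (p : ℤ) ∣ b) : IsUnit (b : ℤ_[p]) := by
  rw [PadicInt.isUnit_iff]
  have h2 := PadicInt.norm_le_one (b : ℤ_[p])
  have h3 : ¬ ‖(b : ℤ_[p])‖ < 1 := by
    intro h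
    rw [PadicInt.norm_int_lt_one_iff_dvd] at h
    exact hb h
  exact le_antisymm h2 (not_lt.mp h3)

theorem cast_Zp {x : ℚ} (hx : x ∈ Zp p) : ∃ z : ℤ_[p], (x : ℚ_[p]) = (z : ℚ_[p]) := by
  obtain ⟨a, b, hb, rfl⟩ := hx
  obtain ⟨w, hw⟩ := unit_int hb
  refine ⟨(a : ℤ_[p]) * ((w⁻¹ : ℤ_[p]ˣ) : ℤ_[p]), ?_⟩
  have h1 : ((b : ℤ_[p]) : ℚ_[p]) * (((w⁻¹ : ℤ_[p]ˣ) : ℤ_[p]) : ℚ_[p]) = 1 := by
    rw [← PadicInt.coe_mul, ← hw, Units.mul_inv, PadicInt.coe_one]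
  have h2 : ((b : ℤ_[p]) : ℚ_[p]) = (b : ℚ_[p]) := PadicInt.coe_intCast b
  rw [h2] at h1
  have hb0 : (b : ℚ_[p]) ≠ 0 := left_ne_zero_of_mul_eq_one h1
  push_cast
  rw [div_eq_iff hb0]
  linear_combination (-(a : ℚ_[p])) * h1

theorem cast_I {k : ℕ} {x : ℚ} (hx : I p k x) :
    ∃ z : ℤ_[p], (x : ℚ_[p]) = (p : ℚ_[p]) ^ k * (z : ℚ_[p]) := by
  obtain ⟨y, hy, rfl⟩ := hx
  obtain ⟨z, hz⟩ := cast_Zp hy
  exact ⟨z, by push_cast; rw [hz]⟩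

/-- `(1/2)_k/k!` in a field -/
def cK (K : Type*) [Field K] (k : ℕ) : K := ∏ j ∈ range k, ((j : K) + 1 / 2) / ((j : K) + 1)

/-- `(-a)_k (a+1)_k/k!^2` in a field -/
def bK (K : Type*) [Field K] (A : K) (k : ℕ) : K :=
  ∏ j ∈ range k, ((j : K) * (j + 1) - A) / ((j : K) + 1) ^ 2

theorem asc_prod (K : Type*) [Field K] (x : K) (k : ℕ) :
    (ascPochhammer K k).eval x = ∏ j ∈ range k, (x + j) := by
  induction k with
  | zero => simp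
  | succ k ih => rw [ascPochhammer_succ_eval, ih, prod_range_succ]

theorem fact_prod (K : Type*) [Field K] (k : ℕ) : ((k.factorial : ℕ) : K) =
    ∏ j ∈ range k, ((j : K) + 1) := by
  induction k with
  | zero => simp
  | succ k ih => rw [Nat.factorial_succ, prod_range_succ, ← ih]; push_cast; ring

theorem term_eq (K : Type*) [Field K] [CharZero K] (a : K) (k : ℕ) :
    (ascPochhammer K k).eval (1 / 2) * (ascPochhammer K k).eval (-a) *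
      (ascPochhammer K k).eval (a + 1) / ((k.factorial : ℕ) : K) ^ 3 =
    cK K k * bK K (a * (a + 1)) k := by
  rw [asc_prod, asc_prod, asc_prod, fact_prod, cK, bK, ← prod_mul_distrib, ← prod_mul_distrib,
    ← prod_pow, ← prod_div_distrib, ← prod_mul_distrib]
  refine prod_congr rfl fun j _ => ?_
  have : (j : K) + 1 ≠ 0 := by exact_mod_cast Nat.succ_ne_zero j
  field_simp
  ring

theorem cast_cc (K : Type*) [Field K] [CharZero K] (k : ℕ) : ((cc k : ℚ) : K) = cK K k := by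
  unfold cc cK
  push_cast
  rfl

theorem cast_BB (K : Type*) [Field K] [CharZero K] (A : ℚ) (k : ℕ) :
    ((BB A k : ℚ) : K) = bK K (A : K) k := by
  unfold BB bK
  push_cast
  rfl

/-- the numerator polynomial -/
def PZ (R : Type*) [CommRing R] (A : R) (k : ℕ) : R := ∏ j ∈ range k, ((j : R) * (j + 1) - A)

theorem PZ_congr {R : Type*} [CommRing R] {A B q : R} (h : q ∣ A - B) (k : ℕ) :
    q ∣ PZ R A k - PZ R B k := by
  induction k with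
  | zero => simp [PZ]
  | succ k ih =>
    have e : PZ R A (k + 1) - PZ R B (k + 1) = (PZ R A k - PZ R B k) * ((k : R) * (k + 1) - A) -
        PZ R B k * (A - B) := by
      unfold PZ
      rw [prod_range_succ, prod_range_succ]
      ring
    rw [e]
    exact dvd_sub (Dvd.dvd.mul_right ih _) (Dvd.dvd.mul_left h _)

theorem inv_fact_mem {k : ℕ} (hk : k < p) : (∏ j ∈ range k, (1 / ((j : ℚ) + 1) ^ 2)) ∈ Zp p := by
  refine prod_mem fun j hj => ?_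
  have hU := (Uj (p := p) (j := j) (by have := mem_range.1 hj; omega)).pow 2
  exact T3.div_mem (one_mem _) hU

theorem bK_eq {A : ℤ_[p]} {k : ℕ} {w : ℤ_[p]}
    (hw : ((∏ j ∈ range k, (1 / ((j : ℚ) + 1) ^ 2) : ℚ) : ℚ_[p]) = (w : ℚ_[p])) :
    bK ℚ_[p] (A : ℚ_[p]) k = ((w * PZ ℤ_[p] A k : ℤ_[p]) : ℚ_[p]) := by
  rw [PadicInt.coe_mul, ← hw]
  unfold bK PZ
  have e : ((∏ j ∈ range k, ((j : ℤ_[p]) * (j + 1) - A) : ℤ_[p]) : ℚ_[p]) =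
      ∏ j ∈ range k, ((j : ℚ_[p]) * (j + 1) - (A : ℚ_[p])) := by
    have := map_prod (PadicInt.Coe.ringHom (p := p)) (fun j : ℕ => ((j : ℤ_[p]) * (j + 1) - A))
      (range k)
    have h2 : (PadicInt.Coe.ringHom (p := p)) (∏ j ∈ range k, ((j : ℤ_[p]) * (j + 1) - A)) =
      ((∏ j ∈ range k, ((j : ℤ_[p]) * (j + 1) - A) : ℤ_[p]) : ℚ_[p]) := rfl
    rw [← h2, this]
    refine prod_congr rfl fun j _ => ?_
    change (((j : ℤ_[p]) * (j + 1) - A : ℤ_[p]) : ℚ_[p]) = _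
    push_cast
    ring
  rw [e]
  push_cast
  rw [← prod_mul_distrib]
  refine prod_congr rfl fun j _ => ?_
  ring

/-- the truncated series in terms of `A = a (a + 1)` -/
def SK (p : ℕ) (K : Type*) [Field K] (A : K) : K := ∑ k ∈ range p, cK K k * bK K A k

theorem SK_congr {s : ℕ} (D : Par p s 0) {A B : ℤ_[p]} (h : (p : ℤ_[p]) ^ 3 ∣ A - B) :
    ∃ z : ℤ_[p], SK p ℚ_[p] (A : ℚ_[p]) - SK p ℚ_[p] (B : ℚ_[p]) =
      (p : ℚ_[p]) ^ 3 * (z : ℚ_[p]) := by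
  have key : ∀ k ∈ range p, ∃ z : ℤ_[p], cK ℚ_[p] k * bK ℚ_[p] (A : ℚ_[p]) k -
      cK ℚ_[p] k * bK ℚ_[p] (B : ℚ_[p]) k = (p : ℚ_[p]) ^ 3 * (z : ℚ_[p]) := by
    intro k hk
    have hk' := mem_range.1 hk
    obtain ⟨w, hw⟩ := cast_Zp (inv_fact_mem hk')
    obtain ⟨c, hc⟩ := cast_Zp (D.cc_mem hk')
    obtain ⟨y, hy⟩ := PZ_congr h k
    rw [bK_eq hw, bK_eq hw, ← cast_cc, hc]
    refine ⟨c * w * y, ?_⟩
    have h1 : ((PZ ℤ_[p] A k : ℤ_[p]) : ℚ_[p]) = ((PZ ℤ_[p] B k : ℤ_[p]) : ℚ_[p]) +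
        (p : ℚ_[p]) ^ 3 * (y : ℚ_[p]) := by
      have : PZ ℤ_[p] A k = PZ ℤ_[p] B k + (p : ℤ_[p]) ^ 3 * y := by rw [← hy]; ring
      rw [this]
      push_cast
      ring
    push_cast
    rw [h1]
    ring
  choose! z hz using key
  refine ⟨∑ k ∈ range p, z k, ?_⟩
  have h1 : ((∑ k ∈ range p, z k : ℤ_[p]) : ℚ_[p]) = ∑ k ∈ range p, (z k : ℚ_[p]) := by
    have := map_sum (PadicInt.Coe.ringHom (p := p)) z (range p)
    exact this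
  rw [h1, SK, SK, ← sum_sub_distrib, mul_sum]
  exact sum_congr rfl fun k hk => hz k hk

theorem SK_LL {h t : ℕ} : ((LL p h t : ℚ) : ℚ_[p]) =
    SK p ℚ_[p] (((2 * (h + p * t) : ℕ) : ℚ_[p]) * (((2 * (h + p * t) : ℕ) : ℚ_[p]) + 1)) := by
  unfold LL SK
  push_cast
  refine sum_congr rfl fun k _ => ?_
  rw [cast_cc, cast_BB]
  congr 2
  unfold AA
  push_cast
  ring

theorem prod_coe (f : ℕ → ℤ_[p]) (n : ℕ) :
    ((∏ j ∈ range n, f j : ℤ_[p]) : ℚ_[p]) = ∏ j ∈ range n, (f j : ℚ_[p]) :=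
  map_prod (PadicInt.Coe.ringHom (p := p)) f (range n)

theorem PP_cast {η : ℤ_[p]} (hη : 2 * η = 1) (n : ℕ) : ((PP p n : ℚ) : ℚ_[p]) =
    ((∏ j ∈ range n, nuZ p η j : ℤ_[p]) : ℚ_[p]) / ((∏ j ∈ range n, deZ p j : ℤ_[p]) : ℚ_[p]) := by
  rw [prod_coe, prod_coe, ← prod_div_distrib, PP]
  push_cast
  have h2 : (η : ℚ_[p]) = 1 / 2 := by
    have : ((2 * η : ℤ_[p]) : ℚ_[p]) = 1 := by rw [hη]; rfl
    rw [PadicInt.coe_mul] at this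
    have h3 : ((2 : ℤ_[p]) : ℚ_[p]) = 2 := rfl
    rw [h3] at this
    rw [eq_div_iff (by norm_num)]
    linear_combination this
  refine prod_congr rfl fun j _ => ?_
  congr 1
  · unfold nu nuZ
    split_ifs
    · simp
    · push_cast; rw [h2]
  · unfold de deZ
    split_ifs
    · simp
    · push_cast; rfl

theorem deZ_unit (n : ℕ) : IsUnit (∏ j ∈ range n, deZ p j) := by
  rw [IsUnit.prod_iff]
  intro j _
  unfold deZ
  split_ifs with h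
  · exact isUnit_one
  · have := unit_int (p := p) (b := ((j + 1 : ℕ) : ℤ)) (by exact_mod_cast h)
    push_cast at this
    exact this

theorem transfer (h5 : 5 ≤ p) {G : ℤ_[p] → ℤ_[p]} (hG : IsMorita p G) {η : ℤ_[p]}
    (hη : 2 * η = 1) (a : ℤ_[p]) (m : ℕ) (hm : m < p) (he : Even m) (ha : (p : ℤ_[p]) ∣ a - m) :
    ∃ z : ℤ_[p], SK p ℚ_[p] ((a : ℚ_[p]) * ((a : ℚ_[p]) + 1)) -
      (-1) ^ ((p + 1) / 2) * ((G (-(η * a)) : ℤ_[p]) : ℚ_[p]) ^ 2 *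
        ((G (η * (a + 1)) : ℤ_[p]) : ℚ_[p]) ^ 2 = (p : ℚ_[p]) ^ 3 * (z : ℚ_[p]) := by
  have hp2 : p ≠ 2 := by omega
  obtain ⟨s, hs⟩ : ∃ s, p = 2 * s + 1 := hp.out.odd_of_ne_two hp2
  obtain ⟨h, hh⟩ := he
  have D : Par p s h := ⟨h5, hs, by omega⟩
  have D0 : Par p s 0 := ⟨h5, hs, by omega⟩
  obtain ⟨y, hy⟩ := ha
  obtain ⟨t, ht⟩ : ∃ t : ℕ, (p : ℤ_[p]) ^ 2 ∣ η * y - t := by
    refine ⟨(η * y).appr 2, ?_⟩
    have := PadicInt.appr_spec 2 (η * y)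
    rwa [Ideal.mem_span_singleton] at this
  obtain ⟨q, hq⟩ := ht
  -- `a = 2 (h + p t) + 2 p^3 q`
  have hn : a = 2 * ((h + p * t : ℕ) : ℤ_[p]) + 2 * (p : ℤ_[p]) ^ 3 * q := by
    have e1 : (m : ℤ_[p]) = 2 * h := by rw [hh]; push_cast; ring
    have e2 : y = 2 * (t + (p : ℤ_[p]) ^ 2 * q) := by
      linear_combination (-y) * hη + 2 * hq
    have e3 : a = m + p * y := by linear_combination hy
    rw [e3, e1, e2]
    push_cast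
    ring
  set n := h + p * t with hnn
  have g := gamma_part hp2 hs hG hη n (u := -(η * a)) (v := η * (a + 1))
    ⟨-q, by rw [hn]; linear_combination (-(n : ℤ_[p]) - (p : ℤ_[p]) ^ 3 * q) * hη⟩
    ⟨q, by rw [hn]; linear_combination ((n : ℤ_[p]) + (p : ℤ_[p]) ^ 3 * q) * hη⟩
  obtain ⟨z3, hz3⟩ := g
  obtain ⟨w, hw⟩ := deZ_unit (p := p) n
  -- the first comparison
  obtain ⟨z1, hz1⟩ := SK_congr D0 (A := a * (a + 1)) (B := (2 * n : ℕ) * ((2 * n : ℕ) + 1)) (by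
    refine ⟨2 * q * (a + 2 * n + 1), ?_⟩
    rw [hn]
    push_cast
    ring)
  obtain ⟨z2, hz2⟩ := cast_I (D.main t)
  rw [← hnn] at hz2
  have hS : (s + 1) = (p + 1) / 2 := by omega
  rw [← hS]
  have hc : (LL p h t : ℚ_[p]) = SK p ℚ_[p] (((2 * n : ℕ) : ℤ_[p]) * (((2 * n : ℕ) : ℤ_[p]) + 1) :
      ℤ_[p]) := by
    rw [SK_LL, ← hnn]
    congr 1
  have hPP := PP_cast hη n
  obtain ⟨N, hN⟩ : ∃ N, N = ∏ j ∈ range n, nuZ p η j := ⟨_, rfl⟩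
  rw [← hN] at hz3 hPP
  rw [← hw] at hz3 hPP
  have hw1 : ((w : ℤ_[p]) : ℚ_[p]) * (((w⁻¹ : ℤ_[p]ˣ) : ℤ_[p]) : ℚ_[p]) = 1 := by
    rw [← PadicInt.coe_mul, Units.mul_inv, PadicInt.coe_one]
  have hw0 : ((w : ℤ_[p]) : ℚ_[p]) ≠ 0 := left_ne_zero_of_mul_eq_one hw1
  have hz3' : (-1) ^ (s + 1) * ((G (-(η * a)) : ℤ_[p]) : ℚ_[p]) ^ 2 *
      ((G (η * (a + 1)) : ℤ_[p]) : ℚ_[p]) ^ 2 * ((w : ℤ_[p]) : ℚ_[p]) ^ 2 - (N : ℚ_[p]) ^ 2 =
      (p : ℚ_[p]) ^ 3 * (z3 : ℚ_[p]) := by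
    have := congrArg (fun x : ℤ_[p] => (x : ℚ_[p])) hz3
    push_cast at this
    exact this
  refine ⟨z1 + z2 - z3 * ((w⁻¹ : ℤ_[p]ˣ) : ℤ_[p]) ^ 2, ?_⟩
  rw [PadicInt.coe_mul, PadicInt.coe_add, PadicInt.coe_one] at hz1
  push_cast at hz2
  rw [hc, hPP] at hz2
  have e5 : (N : ℚ_[p]) / ((w : ℤ_[p]) : ℚ_[p]) = (N : ℚ_[p]) * (((w⁻¹ : ℤ_[p]ˣ) : ℤ_[p]) : ℚ_[p]) := by
    rw [div_eq_iff hw0]
    linear_combination (-(N : ℚ_[p])) * hw1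
  rw [e5] at hz2
  push_cast
  generalize ((w : ℤ_[p]) : ℚ_[p]) = W at *
  generalize (((w⁻¹ : ℤ_[p]ˣ) : ℤ_[p]) : ℚ_[p]) = V at *
  generalize ((G (-(η * a)) : ℤ_[p]) : ℚ_[p]) = g1 at *
  generalize ((G (η * (a + 1)) : ℤ_[p]) : ℚ_[p]) = g2 at *
  generalize (-1 : ℚ_[p]) ^ (s + 1) = e at *
  linear_combination hz1 + hz2 - V ^ 2 * hz3' + (e * g1 ^ 2 * g2 ^ 2) * (W * V + 1) * hw1

end Pool.Agent.R439.G3
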