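import Mathlib
import Pool.Agent.R439.QEq

set_option autoImplicit false

/-!
Second and third order calculus in the local ring at `Φ_n`.
-/

namespace Pool.Agent.R439

open Finset Polynomial

section
variable {n : ℕ} [NeZero n]

/-- `1 - q^(n x)` -/
noncomputable def Wx (n : ℕ) (x : ℤ) : K := 1 - q ^ ((n : ℤ) * x)

theorem Wx_I (x : ℤ) : I n 1 (Wx n x) := by
  rw [Wx]; exact (Q_eq (n := n) x).symm.2.2

theorem Wx_mem (x : ℤ) : Wx n x ∈ O n := (Wx_I x).mem

omit [NeZero n] in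
theorem Wx_zero : Wx n 0 = 0 := by rw [Wx, mul_zero, zpow_zero, sub_self]

omit [NeZero n] in
theorem Wx_add (x y : ℤ) : Wx n (x + y) = Wx n x + Wx n y - Wx n x * Wx n y := by
  rw [Wx, Wx, Wx, mul_add, zpow_add₀ q_ne]; ring

theorem Wx_mul_I (x y : ℤ) : I n 2 (Wx n x * Wx n y) := (Wx_I x).mul (Wx_I y)

omit [NeZero n] in
theorem Wx_sub {x : ℤ} : Wx n x + Wx n (-x) = Wx n x * Wx n (-x) := by
  have := Wx_add (n := n) x (-x)
  rw [add_neg_cancel, Wx_zero] at this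
  linear_combination -this

theorem EQ.of_I_sub {k : ℕ} {x y : K} (hx : x ∈ O n) (hy : y ∈ O n) (h : I n k (x - y)) :
    EQ n k x y := ⟨hx, hy, h⟩

theorem EQ.lift {k l : ℕ} {z x y : K} (hz : I n l z) (h : EQ n k x y) :
    EQ n (l + k) (z * x) (z * y) :=
  ⟨mul_mem hz.mem h.1, mul_mem hz.mem h.2.1, by rw [← mul_sub]; exact hz.mul h.2.2⟩

/-- log-quadratic behaviour -/
structure LQ (n : ℕ) [NeZero n] (g : ℤ → K) (H J : K) : Prop where
  unit : ∀ x, U n (g x)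
  memH : H ∈ O n
  memJ : J ∈ O n
  eq : ∀ x y, EQ n 4 (g x * g y)
    (g (x + y) * g 0 * (1 + Wx n x * Wx n y * (H + (Wx n x + Wx n y) * J)))

variable {g g' : ℤ → K} {H J H' J' : K}

theorem eps_I {H J : K} (hH : H ∈ O n) (hJ : J ∈ O n) (x y : ℤ) :
    I n 2 (Wx n x * Wx n y * (H + (Wx n x + Wx n y) * J)) :=
  (Wx_mul_I x y).mulR (add_mem hH (mul_mem (add_mem (Wx_mem x) (Wx_mem y)) hJ))

theorem LQ.one : LQ n (fun _ => 1) 0 0 :=
  ⟨fun _ => U.one, zero_mem _, zero_mem _, fun x y => by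
    have : (1 : K) * 1 = 1 * 1 * (1 + Wx n x * Wx n y * (0 + (Wx n x + Wx n y) * 0)) := by ring
    rw [← this]; exact EQ.refl (by rw [mul_one]; exact one_mem _)⟩

theorem LQ.mul (h : LQ n g H J) (h' : LQ n g' H' J') :
    LQ n (fun x => g x * g' x) (H + H') (J + J') := by
  refine ⟨fun x => (h.unit x).mul (h'.unit x), add_mem h.memH h'.memH, add_mem h.memJ h'.memJ,
    fun x y => ?_⟩
  have e1 := (h.eq x y).mul (h'.eq x y)
  have e2 : g x * g' x * (g y * g' y) = g x * g y * (g' x * g' y) := by ring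
  rw [e2]
  refine e1.trans ?_
  have i1 := eps_I (n := n) h.memH h.memJ x y
  have i2 := eps_I (n := n) h'.memH h'.memJ x y
  have hm1 := e1.2.1
  refine EQ.of_I_sub hm1 ?_ ?_
  · exact mul_mem (mul_mem (mul_mem (h.unit _).2.1 (h'.unit _).2.1)
      (mul_mem (h.unit _).2.1 (h'.unit _).2.1)) (add_mem (one_mem _)
      (eps_I (n := n) (add_mem h.memH h'.memH) (add_mem h.memJ h'.memJ) x y).mem)
  · have : g (x + y) * g 0 * (1 + Wx n x * Wx n y * (H + (Wx n x + Wx n y) * J)) *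
        (g' (x + y) * g' 0 * (1 + Wx n x * Wx n y * (H' + (Wx n x + Wx n y) * J'))) -
        g (x + y) * g' (x + y) * (g 0 * g' 0) * (1 + Wx n x * Wx n y *
          (H + H' + (Wx n x + Wx n y) * (J + J'))) =
        (g (x + y) * g' (x + y) * (g 0 * g' 0)) *
        ((Wx n x * Wx n y * (H + (Wx n x + Wx n y) * J)) *
          (Wx n x * Wx n y * (H' + (Wx n x + Wx n y) * J'))) := by ring
    rw [this]
    exact (i1.mul i2).mulL (mul_mem (mul_mem (h.unit _).2.1 (h'.unit _).2.1)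
      (mul_mem (h.unit _).2.1 (h'.unit _).2.1))

theorem LQ.inv (h : LQ n g H J) : LQ n (fun x => (g x)⁻¹) (-H) (-J) := by
  refine ⟨fun x => (h.unit x).inv, neg_mem h.memH, neg_mem h.memJ, fun x y => ?_⟩
  have e1 := h.eq x y
  have i1 := eps_I (n := n) h.memH h.memJ x y
  have ux := h.unit x
  have uy := h.unit y
  have uxy := h.unit (x + y)
  have u0 := h.unit 0
  have e : Wx n x * Wx n y * (-H + (Wx n x + Wx n y) * -J) =
    -(Wx n x * Wx n y * (H + (Wx n x + Wx n y) * J)) := by ring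
  rw [e]
  generalize Wx n x * Wx n y * (H + (Wx n x + Wx n y) * J) = ε at *
  refine EQ.of_I_sub (mul_mem ux.2.2 uy.2.2)
    (mul_mem (mul_mem uxy.2.2 u0.2.2) (add_mem (one_mem _) (neg_mem i1.mem))) ?_
  have h1 := ux.1
  have h2 := uy.1
  have h3 := uxy.1
  have h4 := u0.1
  have key : (g x)⁻¹ * (g y)⁻¹ - (g (x + y))⁻¹ * (g 0)⁻¹ * (1 + -ε) =
      ((g x)⁻¹ * (g y)⁻¹ * ((g (x + y))⁻¹ * (g 0)⁻¹)) *
        (-(1 - ε) * (g x * g y - g (x + y) * g 0 * (1 + ε)) +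
          (g (x + y) * g 0) * (ε * ε)) := by
    field_simp
    ring
  rw [key]
  refine I.mulL (mul_mem (mul_mem ux.2.2 uy.2.2) (mul_mem uxy.2.2 u0.2.2)) ?_
  exact (e1.2.2.mulL (neg_mem (sub_mem (one_mem _) i1.mem))).add
    ((i1.mul i1).mulL (mul_mem uxy.2.1 u0.2.1))

theorem LQ.neg (h : LQ n g H J) : LQ n (fun x => g (-x)) H (H - J) := by
  refine ⟨fun x => h.unit _, h.memH, sub_mem h.memH h.memJ, fun x y => ?_⟩
  have e1 := h.eq (-x) (-y)
  have e2 : -x + -y = -(x + y) := by ring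
  rw [e2] at e1
  beta_reduce
  rw [neg_zero]
  refine e1.trans ?_
  have hm : g (-(x + y)) * g 0 ∈ O n := mul_mem (h.unit _).2.1 (h.unit _).2.1
  refine (EQ.refl hm).mul (EQ.of_I_sub (add_mem (one_mem _) (eps_I h.memH h.memJ _ _).mem)
    (add_mem (one_mem _) (eps_I h.memH (sub_mem h.memH h.memJ) _ _).mem) ?_)
  have hx := Wx_sub (n := n) (x := x)
  have hy := Wx_sub (n := n) (x := y)
  have vx := Wx_mul_I (n := n) x (-x)
  have vy := Wx_mul_I (n := n) y (-y)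
  have vxy := Wx_mul_I (n := n) x y
  have mH := h.memH
  have mJ := h.memJ
  have m1 := Wx_mem (n := n) x
  have m2 := Wx_mem (n := n) y
  have m3 := Wx_mem (n := n) (-x)
  have m4 := Wx_mem (n := n) (-y)
  have i1 := Wx_I (n := n) x
  have i2 := Wx_I (n := n) y
  -- exact relation
  have exy : Wx n (-x) * Wx n (-y) = Wx n x * Wx n y * ((1 - Wx n (-x)) * (1 - Wx n (-y))) := by
    linear_combination Wx n (-y) * hx - Wx n x * (1 - Wx n (-x)) * hy
  rw [exy]
  have e5 : Wx n (-x) = -Wx n x + Wx n x * Wx n (-x) := by linear_combination hx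
  have e6 : Wx n (-y) = -Wx n y + Wx n y * Wx n (-y) := by linear_combination hy
  generalize Wx n x * Wx n (-x) = a at *
  generalize Wx n y * Wx n (-y) = b at *
  generalize hX : Wx n x = X at *
  generalize hY : Wx n y = Y at *
  rw [e5, e6]
  have am := vx.mem
  have bm := vy.mem
  -- difference is X*Y*(element of I 2)
  have key : (1 : K) + X * Y * ((1 - (-X + a)) * (1 - (-Y + b))) * (H + (-X + a + (-Y + b)) * J) -
      (1 + X * Y * (H + (X + Y) * (H - J))) =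
      X * Y * (a * (-(1 + Y - b)) * (H + (-X + a + (-Y + b)) * J) +
        b * (-(1 + X)) * (H + (-X + a + (-Y + b)) * J) +
        (X * Y) * (H + (-X + a + (-Y + b)) * J) +
        (a + b) * (J * (1 + X + Y)) + (X * X + 2 * (X * Y) + Y * Y) * (-J)) := by
    ring
  rw [key]
  have s1 : H + (-X + a + (-Y + b)) * J ∈ O n :=
    add_mem mH (mul_mem (add_mem (add_mem (neg_mem m1) am) (add_mem (neg_mem m2) bm)) mJ)
  have one := one_mem (O n)
  have t1 : I n 2 (a * (-(1 + Y - b)) * (H + (-X + a + (-Y + b)) * J)) :=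
    (vx.mulR (neg_mem (sub_mem (add_mem one m2) bm))).mulR s1
  have t2 : I n 2 (b * (-(1 + X)) * (H + (-X + a + (-Y + b)) * J)) :=
    (vy.mulR (neg_mem (add_mem one m1))).mulR s1
  have t3 : I n 2 ((X * Y) * (H + (-X + a + (-Y + b)) * J)) := vxy.mulR s1
  have t4 : I n 2 ((a + b) * (J * (1 + X + Y))) :=
    (vx.add vy).mulR (mul_mem mJ (add_mem (add_mem one m1) m2))
  have t5 : I n 2 ((X * X + 2 * (X * Y) + Y * Y) * (-J)) := by
    refine I.mulR (((i1.mul i1).add (vxy.mulL ?_)).add (i2.mul i2)) (neg_mem mJ)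
    have := natCast_mem (O n) 2
    exact_mod_cast this
  exact vxy.mul ((((t1.add t2).add t3).add t4).add t5)

theorem LQ.base {A : K} (hA : A ∈ O n) (hU : ∀ x : ℤ, U n (1 - A * q ^ ((n : ℤ) * x))) :
    LQ n (fun x => 1 - A * q ^ ((n : ℤ) * x)) (A * (1 - A)⁻¹ ^ 2) (-(A ^ 2 * (1 - A)⁻¹ ^ 3)) := by
  have hu0 : U n (1 - A) := by simpa using hU 0
  have hi := hu0.2.2
  have mH : A * (1 - A)⁻¹ ^ 2 ∈ O n := mul_mem hA (pow_mem hi _)
  have mJ : -(A ^ 2 * (1 - A)⁻¹ ^ 3) ∈ O n := neg_mem (mul_mem (pow_mem hA _) (pow_mem hi _))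
  refine ⟨hU, mH, mJ, fun x y => ?_⟩
  rw [mul_zero, zpow_zero, mul_one]
  have hm : (1 - A * q ^ ((n : ℤ) * (x + y))) * (1 - A) ∈ O n :=
    mul_mem (hU _).2.1 hu0.2.1
  refine EQ.of_I_sub (mul_mem (hU _).2.1 (hU _).2.1)
    (mul_mem hm (add_mem (one_mem _) (eps_I mH mJ _ _).mem)) ?_
  have e1 : q ^ ((n : ℤ) * x) = 1 - Wx n x := by rw [Wx]; ring
  have e2 : q ^ ((n : ℤ) * y) = 1 - Wx n y := by rw [Wx]; ring
  have e3 : q ^ ((n : ℤ) * (x + y)) = (1 - Wx n x) * (1 - Wx n y) := by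
    rw [mul_add, zpow_add₀ q_ne, e1, e2]
  rw [e1, e2, e3]
  have m1 := Wx_mem (n := n) x
  have m2 := Wx_mem (n := n) y
  have i1 := Wx_I (n := n) x
  have i2 := Wx_I (n := n) y
  have vxy := Wx_mul_I (n := n) x y
  generalize Wx n x = X at *
  generalize Wx n y = Y at *
  have h0 := hu0.1
  have key : (1 - A * (1 - X)) * (1 - A * (1 - Y)) -
      (1 - A * ((1 - X) * (1 - Y))) * (1 - A) *
        (1 + X * Y * (A * (1 - A)⁻¹ ^ 2 + (X + Y) * -(A ^ 2 * (1 - A)⁻¹ ^ 3))) =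
      X * Y * (((X * X + 2 * (X * Y) + Y * Y) * (A ^ 3 * (1 - A)⁻¹ ^ 2)) +
        (X * Y) * ((A ^ 2 * (1 - A)⁻¹) + (X + Y) * (-(A ^ 3 * (1 - A)⁻¹ ^ 2)))) := by
    generalize hB : 1 - A = B at *
    have hA' : A = 1 - B := by rw [← hB]; ring
    rw [hA']
    field_simp
    ring
  rw [key]
  refine vxy.mul (I.add (I.mulR (((i1.mul i1).add (vxy.mulL ?_)).add (i2.mul i2)) ?_)
    (vxy.mulR ?_))
  · have := natCast_mem (O n) 2
    exact_mod_cast this
  · exact mul_mem (pow_mem hA _) (pow_mem hi _)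
  · exact add_mem (mul_mem (pow_mem hA _) hi)
      (mul_mem (add_mem m1 m2) (neg_mem (mul_mem (pow_mem hA _) (pow_mem hi _))))

theorem LQ.prod {k : ℕ} {G : ℕ → ℤ → K} {HH JJ : ℕ → K}
    (h : ∀ j < k, LQ n (G j) (HH j) (JJ j)) :
    LQ n (fun x => ∏ j ∈ range k, G j x) (∑ j ∈ range k, HH j) (∑ j ∈ range k, JJ j) := by
  induction k with
  | zero => simpa using LQ.one
  | succ k ih =>
    simp only [prod_range_succ, sum_range_succ]
    exact (ih fun j hj => h j (by omega)).mul (h k (by omega))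

/-! ### consequences -/

theorem LQ.two (h : LQ n g H J) {x y x' y' : ℤ} (hs : x + y = x' + y') :
    EQ n 2 (g x * g y) (g x' * g y') := by
  have key : ∀ x y : ℤ, EQ n 2 (g x * g y) (g (x + y) * g 0) := by
    intro x y
    have h1 := (h.eq x y).mono (l := 2) (by norm_num)
    refine h1.trans (EQ.of_I_sub h1.2.1 (mul_mem (h.unit _).2.1 (h.unit _).2.1) ?_)
    have : g (x + y) * g 0 * (1 + Wx n x * Wx n y * (H + (Wx n x + Wx n y) * J)) -
        g (x + y) * g 0 = (g (x + y) * g 0) *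
          (Wx n x * Wx n y * (H + (Wx n x + Wx n y) * J)) := by ring
    rw [this]
    exact (eps_I h.memH h.memJ x y).mulL (mul_mem (h.unit _).2.1 (h.unit _).2.1)
  have h1 := key x y
  have h2 := key x' y'
  rw [← hs] at h2
  exact h1.trans h2.symm

theorem LQ.sameSum (h : LQ n g H J) (m s : ℤ) (N : ℕ) :
    EQ n 2 (g (-m) * g (m - s * N) * (g s * g 0) ^ N) (g 0 ^ (2 * N + 2)) := by
  have h0 := (h.unit 0).2.1
  have hs := (h.unit s).2.1
  have e1 : EQ n 2 (g (-m) * g (m - s * N)) (g (-(s * N)) * g 0) := h.two (by ring)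
  have e2 : ∀ N : ℕ, EQ n 2 (g (-(s * N)) * g s ^ N) (g 0 ^ (N + 1)) := by
    intro N
    induction N with
    | zero => simpa using EQ.refl h0
    | succ N ih =>
      have a1 : EQ n 2 (g (-(s * (N + 1 : ℕ))) * g s) (g (-(s * N)) * g 0) := h.two (by push_cast; ring)
      have a2 := a1.mul (EQ.refl (pow_mem hs N))
      have a3 := ih.mul (EQ.refl h0)
      have r1 : g (-(s * (N + 1 : ℕ))) * g s * g s ^ N = g (-(s * (N + 1 : ℕ))) * g s ^ (N + 1) := by
        ring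
      have r2 : g (-(s * N)) * g 0 * g s ^ N = g (-(s * N)) * g s ^ N * g 0 := by ring
      rw [r1, r2] at a2
      have r3 : g 0 ^ (N + 1) * g 0 = g 0 ^ (N + 1 + 1) := by ring
      rw [r3] at a3
      exact a2.trans a3
  have a1 := e1.mul (EQ.refl (pow_mem (mul_mem hs h0) N))
  refine a1.trans ?_
  have a2 := (e2 N).mul (EQ.refl (pow_mem h0 (N + 1)))
  have r1 : g (-(s * N)) * g 0 * (g s * g 0) ^ N = g (-(s * N)) * g s ^ N * g 0 ^ (N + 1) := by
    rw [mul_pow]; ring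
  have r2 : g 0 ^ (N + 1) * g 0 ^ (N + 1) = g 0 ^ (2 * N + 2) := by
    rw [← pow_add]; congr 1; ring
  rw [r1, ← r2]
  exact a2

/-- `V_x = W_x W_{-x}` behaves quadratically -/
theorem V_eq (x : ℤ) : EQ n 4 (Wx n x * Wx n (-x)) ((x : K) ^ 2 * (Wx n 1 * Wx n (-1))) := by
  have hrec : ∀ x : ℤ, Wx n (x + 1) * Wx n (-(x + 1)) + Wx n (x - 1) * Wx n (-(x - 1)) =
      2 * (Wx n x * Wx n (-x)) + 2 * (Wx n 1 * Wx n (-1)) -
        (Wx n x * Wx n (-x)) * (Wx n 1 * Wx n (-1)) := by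
    intro x
    have a : ∀ y : ℤ, Wx n y * Wx n (-y) = 2 - q ^ ((n : ℤ) * y) - (q ^ ((n : ℤ) * y))⁻¹ := by
      intro y
      have hy : q ^ ((n : ℤ) * y) ≠ 0 := zpow_ne_zero _ q_ne
      rw [Wx, Wx, mul_neg, zpow_neg]
      field_simp
      ring
    rw [a, a, a, a, mul_add, mul_sub, zpow_add₀ q_ne, zpow_sub₀ q_ne]
    have h1 : q ^ ((n : ℤ) * x) ≠ 0 := zpow_ne_zero _ q_ne
    have h2 : q ^ ((n : ℤ) * 1) ≠ 0 := zpow_ne_zero _ q_ne
    field_simp
    ring
  have mv : ∀ x : ℤ, Wx n x * Wx n (-x) ∈ O n := fun x => mul_mem (Wx_mem _) (Wx_mem _)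
  have nat : ∀ k : ℕ, EQ n 4 (Wx n k * Wx n (-k)) ((k : K) ^ 2 * (Wx n 1 * Wx n (-1))) ∧
      EQ n 4 (Wx n (k + 1) * Wx n (-(k + 1))) (((k : K) + 1) ^ 2 * (Wx n 1 * Wx n (-1))) := by
    intro k
    induction k with
    | zero =>
      constructor
      · simpa [Wx_zero] using EQ.refl (zero_mem (O n))
      · simpa using EQ.refl (mv 1)
    | succ k ih =>
      refine ⟨by push_cast; exact ih.2, ?_⟩
      have h := hrec (k + 1)
      have e0 : ((k : ℤ) + 1 - 1) = k := by ring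
      rw [e0] at h
      push_cast
      have h' : Wx n ((k : ℤ) + 1 + 1) * Wx n (-((k : ℤ) + 1 + 1)) =
        2 * (Wx n (k + 1) * Wx n (-(k + 1))) + 2 * (Wx n 1 * Wx n (-1)) -
        (Wx n (k + 1) * Wx n (-(k + 1))) * (Wx n 1 * Wx n (-1)) - Wx n k * Wx n (-k) := by
        linear_combination h
      rw [h']
      have two : (2 : K) ∈ O n := by
        have := natCast_mem (O n) 2
        exact_mod_cast this
      have b1 : EQ n 4 ((Wx n (k + 1) * Wx n (-(k + 1))) * (Wx n 1 * Wx n (-1))) 0 :=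
        EQ.of_I ((Wx_mul_I _ _).mul (Wx_mul_I _ _))
      have b2 := ((((EQ.refl two).mul ih.2).add ((EQ.refl two).mul (EQ.refl (mv 1)))).sub b1).sub ih.1
      have e1 : 2 * (((k : K) + 1) ^ 2 * (Wx n 1 * Wx n (-1))) + 2 * (Wx n 1 * Wx n (-1)) - 0 -
          (k : K) ^ 2 * (Wx n 1 * Wx n (-1)) = ((k : K) + 1 + 1) ^ 2 * (Wx n 1 * Wx n (-1)) := by
        ring
      rwa [e1] at b2
  rcases le_total 0 x with hx | hx
  · obtain ⟨k, rfl⟩ := Int.eq_ofNat_of_zero_le hx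
    simpa using (nat k).1
  · obtain ⟨k, hk⟩ := Int.eq_ofNat_of_zero_le (neg_nonneg.2 hx)
    have hx' : x = -(k : ℤ) := by linarith
    subst hx'
    rw [neg_neg, mul_comm (Wx n (-(k : ℤ)))]
    simpa using (nat k).1

theorem v_I : I n 2 (Wx n 1 * Wx n (-1)) := Wx_mul_I _ _

/-- product over symmetric pairs -/
theorem LQ.sym (h : LQ n g H J) (N : ℕ) (y : ℕ → ℤ) :
    EQ n 4 (∏ i ∈ range N, (g (y i) * g (-y i)))
      (g 0 ^ (2 * N) * (1 + (Wx n 1 * Wx n (-1)) * (∑ i ∈ range N, (y i : K) ^ 2) * H)) := by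
  have h0 := (h.unit 0).2.1
  have one : ∀ y : ℤ, EQ n 4 (g y * g (-y)) (g 0 ^ 2 * (1 + (Wx n 1 * Wx n (-1)) *
      (y : K) ^ 2 * H)) := by
    intro y
    have e := h.eq y (-y)
    rw [add_neg_cancel, Wx_sub] at e
    refine e.trans ?_
    rw [← sq]
    refine (EQ.refl (pow_mem h0 2)).mul (EQ.add (EQ.refl (one_mem _)) ?_)
    have e2 : EQ n 4 (Wx n y * Wx n (-y) * (H + Wx n y * Wx n (-y) * J))
        (Wx n y * Wx n (-y) * H) := by
      refine EQ.of_I_sub (mul_mem (Wx_mul_I _ _).mem (add_mem h.memH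
        (mul_mem (Wx_mul_I _ _).mem h.memJ))) (mul_mem (Wx_mul_I _ _).mem h.memH) ?_
      have : Wx n y * Wx n (-y) * (H + Wx n y * Wx n (-y) * J) - Wx n y * Wx n (-y) * H =
        (Wx n y * Wx n (-y)) * (Wx n y * Wx n (-y)) * J := by ring
      rw [this]
      exact ((Wx_mul_I _ _).mul (Wx_mul_I _ _)).mulR h.memJ
    have e3 := (V_eq (n := n) y).mul (EQ.refl h.memH)
    have e4 : (y : K) ^ 2 * (Wx n 1 * Wx n (-1)) * H = Wx n 1 * Wx n (-1) * (y : K) ^ 2 * H := by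
      ring
    rw [e4] at e3
    exact e2.trans e3
  induction N with
  | zero => simpa using EQ.refl (one_mem (O n))
  | succ N ih =>
    rw [prod_range_succ, sum_range_succ]
    have e := ih.mul (one (y N))
    refine e.trans (EQ.of_I_sub e.2.1 ?_ ?_)
    · refine mul_mem (pow_mem h0 _) (add_mem (one_mem _) (mul_mem (mul_mem v_I.mem ?_) h.memH))
      exact add_mem (sum_mem fun i _ => pow_mem (intCast_mem _ _) _) (pow_mem (intCast_mem _ _) _)
    · have hs : ∑ i ∈ range N, (y i : K) ^ 2 ∈ O n :=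
        sum_mem fun i _ => pow_mem (intCast_mem _ _) _
      have hy : (y N : K) ^ 2 ∈ O n := pow_mem (intCast_mem _ _) _
      generalize ∑ i ∈ range N, (y i : K) ^ 2 = S at *
      generalize (y N : K) ^ 2 = z at *
      have : g 0 ^ (2 * N) * (1 + Wx n 1 * Wx n (-1) * S * H) *
          (g 0 ^ 2 * (1 + Wx n 1 * Wx n (-1) * z * H)) -
          g 0 ^ (2 * (N + 1)) * (1 + Wx n 1 * Wx n (-1) * (S + z) * H) =
          (Wx n 1 * Wx n (-1)) * (Wx n 1 * Wx n (-1)) * (g 0 ^ (2 * N + 2) * (S * z * H * H)) := by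
        ring
      rw [this]
      exact (v_I.mul v_I).mulR (mul_mem (pow_mem h0 _) (mul_mem (mul_mem (mul_mem hs hy) h.memH)
        h.memH))

end

end Pool.Agent.R439
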