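import Mathlib
import Pool.Agent.R439.Doug
import Pool.Agent.R439.PLoc

set_option autoImplicit false

/-!
The sums `∑ (6k+r) (r/3)_k^4 (2k)!/(k!^4 (2r/3)_{2k})` modulo `p^3`, for `p = 3M + r`, `r = ±1`.
-/

namespace Pool.Agent.R439.PL

open Finset

/-- `∏_{j<k} ((e+j)^2 - δ)` -/
def PP (e δ : ℚ) (k : ℕ) : ℚ := ∏ j ∈ range k, ((e + j) ^ 2 - δ)

/-- the deformed term -/
def TT (r δ : ℚ) (k : ℕ) : ℚ :=
  (6 * k + r) * (rf (r / 3) k / rf 1 k * (rf (1 / 2) k / rf (r / 3 + 1 / 2) k)) *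
    (PP (r / 3) δ k / PP 1 δ k)

theorem PP_sq (e x : ℚ) (k : ℕ) : PP e (x ^ 2) k = rf (e - x) k * rf (e + x) k := by
  rw [PP, rf, rf, ← prod_mul_distrib]
  exact prod_congr rfl fun j _ => by ring

theorem rf_reflect (x : ℚ) (M : ℕ) : rf (1 - x - M) M = (-1) ^ M * rf x M := by
  rw [rf, ← prod_range_reflect, rf]
  have : (-1 : ℚ) ^ M = ∏ _i ∈ range M, (-1 : ℚ) := by simp
  rw [this, ← prod_mul_distrib]
  refine prod_congr rfl fun i hi => ?_
  have := mem_range.1 hi
  have h : ((M - 1 - i : ℕ) : ℚ) = M - 1 - i := by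
    rw [Nat.sub_sub, Nat.cast_sub (by omega)]; push_cast; ring
  rw [h]; ring

theorem rf_split (x : ℚ) {M k : ℕ} (hk : k ≤ M) :
    rf (1 - x - M) k * rf x (M - k) = (-1) ^ k * rf x M := by
  induction k with
  | zero => simp [rf]
  | succ k ih =>
    have ih := ih (by omega)
    have h1 : rf x (M - k) = rf x (M - (k + 1)) * (x + ((M - (k + 1) : ℕ) : ℚ)) := by
      rw [← rf_succ]; congr 1; omega
    have h2 : ((M - (k + 1) : ℕ) : ℚ) = M - (k + 1) := by
      rw [Nat.cast_sub hk]; push_cast; ring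
    rw [h1, h2] at ih
    rw [rf_succ, pow_succ]
    linear_combination (-1) * ih

theorem exact_sum {r : ℤ} (hr : r = 1 ∨ r = -1) {M : ℕ} (hM : 0 < M) :
    ∑ k ∈ range (M + 1), TT r ((((3 * M + r : ℤ) : ℚ) / 3) ^ 2) k = 3 * M + r := by
  set a : ℚ := (r : ℚ) / 3 with ha
  have h3a : 3 * a = r := by rw [ha]; ring
  have hx : (((3 * M + r : ℤ) : ℚ) / 3) = a + M := by rw [ha]; push_cast; ring
  have hane : ∀ z : ℤ, a ≠ z := by
    intro z h
    have : (r : ℚ) = 3 * z := by rw [← h3a, h]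
    have h2 : r = 3 * z := by exact_mod_cast this
    rcases hr with h | h <;> omega
  have hane2 : ∀ z : ℤ, a + 1 / 2 ≠ z := by
    intro z h
    have : (2 : ℚ) * r + 3 = 6 * z := by rw [← h3a, ← h]; ring
    have h2 : 2 * r + 3 = 6 * z := by exact_mod_cast this
    rcases hr with h | h <;> omega
  have e1 : ∀ i : ℕ, a + i ≠ 0 := fun i h => hane (-(i : ℤ)) (by push_cast; linarith)
  have e2 : ∀ i : ℕ, a + 1 - (2 * a + M) + i ≠ 0 := fun i h =>
    hane (1 - (M : ℤ) + i) (by push_cast; linarith)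
  have e3 : ∀ i : ℕ, a + 1 - 1 / 2 + i ≠ 0 := fun i h =>
    hane2 (-(i : ℤ)) (by push_cast; linarith)
  have key := dougall5 e1 e2 e3 M
  have s1 : ∑ k ∈ range (M + 1), TT r ((((3 * M + r : ℤ) : ℚ) / 3) ^ 2) k =
      3 * ∑ k ∈ range (M + 1), TC a (2 * a + M) (1 / 2) M k := by
    rw [mul_sum]
    refine sum_congr rfl fun k _ => ?_
    rw [TT, PP_sq, PP_sq, hx, ← ha, TC, hC, ta]
    have g1 : a - (a + M) = -(M : ℚ) := by ring
    have g2 : a + (a + M) = 2 * a + M := by ring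
    have g3 : 1 - (a + M) = a + 1 - (2 * a + M) := by ring
    have g4 : 1 + (a + M) = a + M + 1 := by ring
    have g5 : a + 1 - 1 / 2 = a + 1 / 2 := by ring
    rw [g1, g2, g3, g4, g5]
    have : (6 * (k : ℚ) + r) = 3 * (a + 2 * k) := by rw [← h3a]; ring
    rw [this]
    simp only [div_eq_mul_inv, mul_inv]
    ring
  rw [s1, key]
  have r1 : rf (a + 1 - (2 * a + M) - 1 / 2) M = (-1) ^ M * rf (a + 1 / 2) M := by
    rw [← rf_reflect]; congr 1; ring
  have r2 : rf (a + 1 - (2 * a + M)) M = (-1) ^ M * rf a M := by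
    rw [← rf_reflect]; congr 1; ring
  have r3 : rf (a + 1 - 1 / 2) M = rf (a + 1 / 2) M := by congr 1; ring
  rw [r1, r2, r3, rf_succ]
  have n1 : rf a M ≠ 0 := rf_ne fun i _ => e1 i
  have n2 : rf (a + 1 / 2) M ≠ 0 := by
    rw [← r3]; exact rf_ne fun i _ => e3 i
  have n3 : ((-1 : ℚ)) ^ M ≠ 0 := pow_ne_zero _ (by norm_num)
  rw [← h3a]
  generalize rf (a + 1 / 2) M = X at *
  generalize rf a M = Y at *
  generalize ((-1 : ℚ)) ^ M = Z at *
  field_simp
  ring

theorem ta_choose {M k : ℕ} (hk : k ≤ M) : ta M k = (-1) ^ k * (M.choose k : ℚ) := by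
  induction k with
  | zero => simp [ta, rf]
  | succ k ih =>
    have ih := ih (by omega)
    have h1 : ((M.choose (k + 1) * (k + 1) : ℕ) : ℚ) = ((M.choose k * (M - k) : ℕ) : ℚ) := by
      rw [Nat.choose_succ_right_eq]
    push_cast [(by omega : k ≤ M)] at h1
    have h2 : (k + 1 : ℚ) ≠ 0 := by positivity
    rw [ta_succ, ih, pow_succ]
    field_simp
    linear_combination h1

/-- the model of the term modulo `p` -/
def TM (M k : ℕ) : ℚ :=
  3 * (2 * k - M) * (M.choose k : ℚ) ^ 3 * (rf (1 / 2) k * rf (1 / 2) (M - k) / rf (1 / 2) M)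

/-- `∑_{j<k} 1/(j+1)^2` -/
def ES (k : ℕ) : ℚ := ∑ j ∈ range k, ((1 + (j : ℚ)) ^ 2)⁻¹

theorem TM_anti {M k : ℕ} (hk : k ≤ M) : TM M (M - k) = -TM M k := by
  have h1 : M - (M - k) = k := by omega
  have h2 : ((M - k : ℕ) : ℚ) = M - k := Nat.cast_sub hk
  rw [TM, TM, h1, h2, Nat.choose_symm hk]
  ring

section
variable {p : ℕ} [hp : Fact p.Prime] {M : ℕ} {r : ℤ}

theorem main (hr : r = 1 ∨ r = -1) (hpM : (p : ℤ) = 3 * M + r) (hp5 : 5 ≤ p) :
    I p 3 (∑ k ∈ range (M + 1), TT r 0 k - p) := by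
  have hM0 : 0 < M := by rcases hr with h | h <;> omega
  have hprime := hp.out
  have hpodd : p % 2 = 1 := by
    rcases hprime.eq_two_or_odd with h | h
    · omega
    · exact h
  set a : ℚ := (r : ℚ) / 3 with ha
  have h3a : 3 * a = r := by rw [ha]; ring
  have n3 : ¬ (p : ℤ) ∣ 3 := fun h => by have := Int.le_of_dvd (by norm_num) h; omega
  have n2 : ¬ (p : ℤ) ∣ 2 := fun h => by have := Int.le_of_dvd (by norm_num) h; omega
  have n6 : ¬ (p : ℤ) ∣ 6 := fun h => by
    have h1 : (6 : ℤ) = 2 * 3 := by norm_num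
    rw [h1] at h
    exact ((pz (p := p)).dvd_or_dvd h).elim n2 n3
  -- units
  have u1 : ∀ j < M, U p (a + j) := by
    intro j hj
    have e : a + j = ((r + 3 * j : ℤ) : ℚ) / ((3 : ℤ) : ℚ) := by
      push_cast; rw [← h3a]; ring
    rw [e]
    refine U_rat (fun h => ?_) n3
    obtain ⟨c, hc⟩ := h
    have hc0 : c = 0 := by
      by_contra hne
      rcases lt_or_gt_of_ne hne with h1 | h1
      · have : (p : ℤ) * c ≤ -p := by nlinarith
        rcases hr with h | h <;> omega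
      · have : (p : ℤ) ≤ p * c := by nlinarith
        omega
    rw [hc0, mul_zero] at hc
    rcases hr with h | h <;> omega
  have u2 : ∀ j < M, U p (1 + (j : ℚ)) := by
    intro j hj
    have e : 1 + (j : ℚ) = ((1 + j : ℤ) : ℚ) := by push_cast; ring
    rw [e]
    refine U_int fun h => ?_
    have := Int.le_of_dvd (by positivity) h
    rcases hr with h | h <;> omega
  have u3 : ∀ j < M, U p (1 / 2 + (j : ℚ)) := by
    intro j hj
    have e : 1 / 2 + (j : ℚ) = ((2 * j + 1 : ℤ) : ℚ) / ((2 : ℤ) : ℚ) := by push_cast; ring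
    rw [e]
    refine U_rat (fun h => ?_) n2
    have := Int.le_of_dvd (by positivity) h
    rcases hr with h | h <;> omega
  have u4 : ∀ j < M, U p (a + 1 / 2 + (j : ℚ)) := by
    intro j hj
    have e : a + 1 / 2 + (j : ℚ) = ((2 * r + 3 + 6 * j : ℤ) : ℚ) / ((6 : ℤ) : ℚ) := by
      push_cast; rw [← h3a]; ring
    rw [e]
    refine U_rat (fun h => ?_) n6
    obtain ⟨c, hc⟩ := h
    have hc1 : 0 < c := by
      by_contra hne
      have : (p : ℤ) * c ≤ 0 := by nlinarith
      rcases hr with h | h <;> omega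
    have hc2 : c < 2 := by
      by_contra hne
      have : (p : ℤ) * 2 ≤ p * c := by nlinarith
      rcases hr with h | h <;> omega
    have hc3 : c = 1 := by omega
    rw [hc3, mul_one] at hc
    rcases hr with h | h <;> omega
  have urf : ∀ (x : ℚ), (∀ j < M, U p (x + j)) → ∀ k ≤ M, U p (rf x k) := by
    intro x hx k hk
    exact U.prod fun j hj => hx j (by have := mem_range.1 hj; omega)
  have ua := urf a u1
  have uo := urf 1 u2
  have uh := urf (1 / 2) u3
  have uc := urf (a + 1 / 2) u4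
  -- deformation
  set δ : ℚ := (((3 * M + r : ℤ) : ℚ) / 3) ^ 2 with hδ
  have hδ' : δ = (p : ℚ) ^ 2 * (9 : ℚ)⁻¹ := by
    rw [hδ]
    have : ((3 * M + r : ℤ) : ℚ) = p := by rw [← hpM]; push_cast; rfl
    rw [this]; ring
  have hδI : I p 2 δ := by
    refine ⟨(9 : ℚ)⁻¹, ?_, hδ'⟩
    have : U p ((9 : ℤ) : ℚ) := U_int fun h => by
      have h1 : (9 : ℤ) = 3 * 3 := by norm_num
      rw [h1] at h
      exact ((pz (p := p)).dvd_or_dvd h).elim n3 n3
    simpa using this.2.2
  -- coefficients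
  set c0 : ℕ → ℚ := fun k => (6 * k + r) * (rf a k / rf 1 k * (rf (1 / 2) k / rf (a + 1 / 2) k))
    with hc0
  have mc0 : ∀ k ≤ M, c0 k ∈ Zp p := by
    intro k hk
    refine mul_mem ?_ (mul_mem ((ua k hk).div (uo k hk)).2.1 ((uh k hk).div (uc k hk)).2.1)
    have := int_mem (p := p) (6 * k + r)
    push_cast at this; exact this
  set A : ℕ → ℚ := fun k => ∑ j ∈ range k, ((a + j) ^ 2)⁻¹ with hA
  have mA : ∀ k ≤ M, A k ∈ Zp p := fun k hk => sum_mem fun j hj =>
    ((u1 j (by have := mem_range.1 hj; omega)).pow 2).2.2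
  have mE : ∀ k ≤ M, ES k ∈ Zp p := fun k hk => sum_mem fun j hj =>
    ((u2 j (by have := mem_range.1 hj; omega)).pow 2).2.2
  have hT0 : ∀ k, TT r 0 k = c0 k * ((rf a k) ^ 2 / (rf 1 k) ^ 2) := by
    intro k
    have e1 : PP a 0 k = rf a k ^ 2 := by
      have := PP_sq a 0 k
      rw [sub_zero, add_zero] at this
      have h0 : (0 : ℚ) ^ 2 = 0 := by norm_num
      rw [h0] at this; rw [this]; ring
    have e2 : PP 1 0 k = rf 1 k ^ 2 := by
      have := PP_sq 1 0 k
      rw [sub_zero, add_zero] at this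
      have h0 : (0 : ℚ) ^ 2 = 0 := by norm_num
      rw [h0] at this; rw [this]; ring
    rw [TT, ← ha, e1, e2]
  have expand : ∀ k ≤ M, EQ p 4 (TT r δ k) (TT r 0 k * (1 - δ * (A k - ES k))) := by
    intro k hk
    have hN := prod_exp (p := p) (s := range k) (e := fun j : ℕ => a + j) (δ := δ)
      (fun j hj => u1 j (by have := mem_range.1 hj; omega)) hδI
    have hD := prod_exp (p := p) (s := range k) (e := fun j : ℕ => 1 + (j : ℚ)) (δ := δ)
      (fun j hj => u2 j (by have := mem_range.1 hj; omega)) hδI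
    have hDu : U p (∏ j ∈ range k, ((1 + (j : ℚ)) ^ 2)) := U.prod fun j hj =>
      (u2 j (by have := mem_range.1 hj; omega)).pow 2
    have h1u : U p (1 - δ * ES k) := by
      have : EQ p 1 1 (1 - δ * ES k) := ⟨one_mem _, sub_mem (one_mem _) (mul_mem hδI.mem (mE k hk)),
        by
          have : 1 - (1 - δ * ES k) = δ * ES k := by ring
          rw [this]; exact (hδI.mono (by norm_num)).mulR (mE k hk)⟩
      exact this.unit one_pos U.one
    have hDu' : U p (∏ j ∈ range k, ((1 + (j : ℚ)) ^ 2 - δ)) :=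
      hD.symm.unit (by norm_num) (hDu.mul h1u)
    have h2 := hN.div (by norm_num) hD hDu'
    have h3 := (EQ.refl (p := p) (k := 4) (mc0 k hk)).mul h2
    have e0 : TT r δ k = c0 k * ((∏ j ∈ range k, ((a + j) ^ 2 - δ)) /
        ∏ j ∈ range k, ((1 + (j : ℚ)) ^ 2 - δ)) := by
      rw [TT, ← ha]; rfl
    rw [e0]
    refine h3.trans ⟨h3.2.1, ?_, ?_⟩
    · rw [hT0]
      exact mul_mem (mul_mem (mc0 k hk) (((ua k hk).pow 2).div ((uo k hk).pow 2)).2.1)
        (sub_mem (one_mem _) (mul_mem hδI.mem (sub_mem (mA k hk) (mE k hk))))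
    · have e1 : ∏ j ∈ range k, (a + (j : ℚ)) ^ 2 = rf a k ^ 2 := by rw [prod_pow]; rfl
      have e2 : ∏ j ∈ range k, (1 + (j : ℚ)) ^ 2 = rf 1 k ^ 2 := by rw [prod_pow]; rfl
      rw [e1, e2, hT0]
      have g1 := h1u.1
      have g2 := (uo k hk).1
      have e3 : c0 k * (rf a k ^ 2 * (1 - δ * ∑ j ∈ range k, ((a + (j : ℚ)) ^ 2)⁻¹) /
          (rf 1 k ^ 2 * (1 - δ * ∑ j ∈ range k, ((1 + (j : ℚ)) ^ 2)⁻¹))) -
          c0 k * (rf a k ^ 2 / rf 1 k ^ 2) * (1 - δ * (A k - ES k)) =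
          δ * δ * (c0 k * (rf a k ^ 2 / rf 1 k ^ 2) * (-(A k - ES k) * ES k * (1 - δ * ES k)⁻¹)) := by
        change c0 k * (rf a k ^ 2 * (1 - δ * A k) / (rf 1 k ^ 2 * (1 - δ * ES k))) -
          c0 k * (rf a k ^ 2 / rf 1 k ^ 2) * (1 - δ * (A k - ES k)) = _
        generalize A k = x at *
        generalize ES k = y at *
        field_simp
        ring
      rw [e3]
      refine (hδI.mul hδI).mulR ?_
      exact mul_mem (mul_mem (mc0 k hk) (((ua k hk).pow 2).div ((uo k hk).pow 2)).2.1)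
        (mul_mem (mul_mem (neg_mem (sub_mem (mA k hk) (mE k hk))) (mE k hk)) h1u.2.2)
  -- sum
  have hsum : EQ p 4 (p : ℚ) (∑ k ∈ range (M + 1), TT r 0 k * (1 - δ * (A k - ES k))) := by
    have h1 := EQ.sum fun k (hk : k ∈ range (M + 1)) => expand k (by have := mem_range.1 hk; omega)
    rw [exact_sum hr hM0] at h1
    have : (3 * (M : ℚ) + r) = p := by
      have : ((3 * M + r : ℤ) : ℚ) = p := by rw [← hpM]; push_cast; rfl
      push_cast at this; exact this
    rwa [this] at h1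
  have hsplit : ∑ k ∈ range (M + 1), TT r 0 k * (1 - δ * (A k - ES k)) =
      ∑ k ∈ range (M + 1), TT r 0 k - δ * ∑ k ∈ range (M + 1), TT r 0 k * (A k - ES k) := by
    rw [mul_sum, ← sum_sub_distrib]
    exact sum_congr rfl fun k _ => by ring
  rw [hsplit] at hsum
  -- vanishing modulo `p`
  have haM : EQ p 1 a (-(M : ℚ)) := by
    refine ⟨?_, neg_mem (nat_mem M), ?_⟩
    · rw [ha]; exact (U_rat (p := p) (by rcases hr with h | h <;> subst h <;>
        [skip; rw [Int.dvd_neg]] <;> exact (pz (p := p)).not_dvd_one) n3 |>.2.1)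
    · have : a - -(M : ℚ) = p * (3 : ℚ)⁻¹ := by
        have h1 : (p : ℚ) = 3 * M + r := by exact_mod_cast hpM
        rw [h1, ← h3a]; ring
      rw [this]
      have : U p ((3 : ℤ) : ℚ) := U_int n3
      exact I_p.mulR (by simpa using this.2.2)
  have rfEQ : ∀ (x y : ℚ), EQ p 1 x y → ∀ k, EQ p 1 (rf x k) (rf y k) := fun x y hxy k =>
    EQ.prod fun i _ => hxy.add (EQ.refl (nat_mem i))
  have rr : ∀ k ≤ M, EQ p 1 (rf a k / rf 1 k) (ta M k) := fun k hk =>
    (rfEQ _ _ haM k).div one_pos (EQ.refl (uo k hk).2.1) (uo k hk)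
  have half : EQ p 1 (1 / 2 : ℚ) (1 / 2) := EQ.refl (by
    have := (U_rat (p := p) (a := 1) (b := 2) (pz (p := p)).not_dvd_one n2).2.1
    simpa using this)
  have ss : ∀ k ≤ M, EQ p 1 (rf (1 / 2) k / rf (a + 1 / 2) k)
      ((-1) ^ k * (rf (1 / 2) k * rf (1 / 2) (M - k) / rf (1 / 2) M)) := by
    intro k hk
    have h1 := (EQ.refl (p := p) (k := 1) (uh k hk).2.1).div one_pos
      (rfEQ _ _ (haM.add half) k) (uc k hk)
    have h2 := rf_split (1 / 2) hk
    have h3 : -(M : ℚ) + 1 / 2 = 1 - 1 / 2 - M := by ring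
    rw [h3] at h1
    have h4 := (uh (M - k) (by omega)).1
    have h5 := (uh M le_rfl).1
    have h6 : ((-1 : ℚ)) ^ k ≠ 0 := pow_ne_zero _ (by norm_num)
    have h7 : ((-1 : ℚ)) ^ k * (-1) ^ k = 1 := by rw [← mul_pow]; norm_num
    have h8 : rf (1 / 2) k / rf (1 - 1 / 2 - M) k =
        (-1) ^ k * (rf (1 / 2) k * rf (1 / 2) (M - k) / rf (1 / 2) M) := by
      have h9 : rf (1 - 1 / 2 - (M : ℚ)) k = (-1) ^ k * rf (1 / 2) M / rf (1 / 2) (M - k) := by
        rw [eq_div_iff h4, h2]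
      rw [h9]
      have h10 : ((-1 : ℚ)) ^ k = ((-1 : ℚ) ^ k)⁻¹ := by
        rw [← inv_pow]; norm_num
      rw [h10]
      generalize (-1 : ℚ) ^ k = s at *
      generalize rf (1 / 2) (M - k) = X at *
      generalize rf (1 / 2) M = Y at *
      generalize rf (1 / 2) k = W at *
      field_simp
      linear_combination W * h7
    rwa [h8] at h1
  have TTM : ∀ k ≤ M, EQ p 1 (TT r 0 k) (TM M k) := by
    intro k hk
    have h0 : EQ p 1 (6 * (k : ℚ) + r) (3 * (2 * k - M)) := by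
      have m1 : (6 * (k : ℚ) + r) ∈ Zp p := by
        have := int_mem (p := p) (6 * k + r)
        push_cast at this; exact this
      have m2 : (3 * (2 * (k : ℚ) - M)) ∈ Zp p := by
        have := int_mem (p := p) (3 * (2 * k - M))
        push_cast at this; exact this
      refine ⟨m1, m2, ?_⟩
      have : 6 * (k : ℚ) + r - 3 * (2 * k - M) = p * 1 := by
        have h1 : (p : ℚ) = 3 * M + r := by exact_mod_cast hpM
        rw [h1]; ring
      rw [this]; exact I_p.mulR (one_mem _)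
    have h1 := (h0.mul ((rr k hk).mul (ss k hk))).mul ((rr k hk).pow 2)
    have e1 : TT r 0 k = (6 * (k : ℚ) + r) * (rf a k / rf 1 k *
        (rf (1 / 2) k / rf (a + 1 / 2) k)) * (rf a k / rf 1 k) ^ 2 := by
      rw [hT0, div_pow]
    have h7 : ((-1 : ℚ)) ^ k * (-1) ^ k = 1 := by rw [← mul_pow]; norm_num
    have e2 : 3 * (2 * (k : ℚ) - M) * (ta M k * ((-1) ^ k * (rf (1 / 2) k * rf (1 / 2) (M - k) /
        rf (1 / 2) M))) * ta M k ^ 2 = TM M k := by
      rw [ta_choose hk, TM]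
      generalize (-1 : ℚ) ^ k = s at *
      have h8 : s ^ 4 = 1 := by
        have : s ^ 4 = (s * s) ^ 2 := by ring
        rw [this, h7]; norm_num
      linear_combination (3 * (2 * (k : ℚ) - M) * (M.choose k : ℚ) ^ 3 *
        (rf (1 / 2) k * rf (1 / 2) (M - k) / rf (1 / 2) M)) * h8
    rw [e1, ← e2]
    exact h1
  have HH : ∀ k ≤ M, EQ p 1 (A k - ES k) (ES M - ES (M - k) - ES k) := by
    intro k hk
    have h1 : EQ p 1 (A k) (∑ j ∈ range k, ((-(M : ℚ) + j) ^ 2)⁻¹) := by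
      refine EQ.sum fun j hj => ?_
      exact (((haM.add (EQ.refl (nat_mem j))).pow 2)).inv one_pos
        ((u1 j (by have := mem_range.1 hj; omega)).pow 2)
    have h2 : ∑ j ∈ range k, ((-(M : ℚ) + j) ^ 2)⁻¹ = ES M - ES (M - k) := by
      have : ES M = ES (M - k) + ∑ j ∈ range k, ((1 + ((M - k + j : ℕ) : ℚ)) ^ 2)⁻¹ := by
        rw [ES, ES, ← sum_range_add]
        rw [show M - k + k = M by omega]
      rw [this, add_sub_cancel_left, ← sum_range_reflect]
      refine sum_congr rfl fun j hj => ?_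
      have hj' := mem_range.1 hj
      have e1 : ((k - 1 - j : ℕ) : ℚ) = k - 1 - j := by
        rw [Nat.sub_sub, Nat.cast_sub (by omega)]; push_cast; ring
      have e2 : ((M - k + j : ℕ) : ℚ) = M - k + j := by
        push_cast [hk]; ring
      rw [e1, e2]
      congr 1
      ring
    rw [h2] at h1
    exact h1.sub (EQ.refl (mE k hk))
  have hzero : I p 1 (∑ k ∈ range (M + 1), TT r 0 k * (A k - ES k)) := by
    have h1 := EQ.sum fun k (hk : k ∈ range (M + 1)) =>
      (TTM k (by have := mem_range.1 hk; omega)).mul (HH k (by have := mem_range.1 hk; omega))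
    have h2 : ∑ k ∈ range (M + 1), TM M k * (ES M - ES (M - k) - ES k) = 0 := by
      have h3 : ∑ k ∈ range (M + 1), TM M k * (ES M - ES (M - k) - ES k) =
          -∑ k ∈ range (M + 1), TM M k * (ES M - ES (M - k) - ES k) := by
        conv_lhs => rw [← sum_range_reflect]
        rw [← sum_neg_distrib]
        refine sum_congr rfl fun k hk => ?_
        have hk' : k ≤ M := by have := mem_range.1 hk; omega
        rw [show M + 1 - 1 - k = M - k by omega, TM_anti hk', show M - (M - k) = k by omega]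
        ring
      linarith
    rw [h2] at h1
    have := h1.2.2
    rwa [sub_zero] at this
  have h1 := (hsum.2.2.mono (by norm_num : 3 ≤ 4)).neg
  have h2 : I p 3 (δ * ∑ k ∈ range (M + 1), TT r 0 k * (A k - ES k)) := hδI.mul hzero
  have e : ∑ k ∈ range (M + 1), TT r 0 k - p =
      -((p : ℚ) - (∑ k ∈ range (M + 1), TT r 0 k - δ * ∑ k ∈ range (M + 1),
        TT r 0 k * (A k - ES k))) + δ * ∑ k ∈ range (M + 1), TT r 0 k * (A k - ES k) := by ring
  rw [e]
  exact h1.add h2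

end

/-- the term of the problem in the well-poised form -/
theorem term_eq (r : ℚ) (k : ℕ) (h : ∀ i : ℕ, r / 3 + i ≠ 0) :
    (6 * k + r) * (rf (r / 3) k ^ 4 * ((2 * k).factorial : ℚ) /
      ((k.factorial : ℚ) ^ 4 * rf (2 * r / 3) (2 * k))) = TT r 0 k := by
  have e1 : ((2 * k).factorial : ℚ) = 4 ^ k * rf 1 k * rf (1 / 2) k := by
    induction k with
    | zero => simp [rf]
    | succ k ih =>
      rw [show 2 * (k + 1) = 2 * k + 1 + 1 by ring, Nat.factorial_succ, Nat.factorial_succ]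
      push_cast
      rw [ih, rf_succ, rf_succ, pow_succ]
      ring
  have e2 : rf (2 * r / 3) (2 * k) = 4 ^ k * rf (r / 3) k * rf (r / 3 + 1 / 2) k := by
    clear e1
    induction k with
    | zero => simp [rf]
    | succ k ih =>
      rw [show 2 * (k + 1) = 2 * k + 1 + 1 by ring, rf_succ, rf_succ, ih, rf_succ, rf_succ,
        pow_succ]
      push_cast
      ring
  have e3 : PP (r / 3) 0 k = rf (r / 3) k ^ 2 := by
    have := PP_sq (r / 3) 0 k
    rw [sub_zero, add_zero] at this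
    have h0 : (0 : ℚ) ^ 2 = 0 := by norm_num
    rw [h0] at this; rw [this]; ring
  have e4 : PP 1 0 k = rf 1 k ^ 2 := by
    have := PP_sq 1 0 k
    rw [sub_zero, add_zero] at this
    have h0 : (0 : ℚ) ^ 2 = 0 := by norm_num
    rw [h0] at this; rw [this]; ring
  rw [TT, e1, e2, e3, e4, ← rf_one]
  have h1 := rf_one_ne k
  have h2 : rf (r / 3) k ≠ 0 := rf_ne fun i _ => h i
  have h3 : (4 : ℚ) ^ k ≠ 0 := pow_ne_zero _ (by norm_num)
  by_cases h4 : rf (r / 3 + 1 / 2) k = 0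
  · rw [h4]; simp
  · field_simp

end Pool.Agent.R439.PL
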