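import Mathlib
import Pool.Agent.R439.QAB6

set_option autoImplicit false

/-!
Transport of the main congruence to `MvPolynomial (Fin 3) ℚ`.
-/

namespace Pool.Agent.R439.GL.AB3

open Polynomial Finset Pool.Agent.R439.GL Pool.Agent.R439.AB

/-- `ℚ[q,a,b] → ℚ[q][a][b]` -/
noncomputable def toA : MvPolynomial (Fin 3) ℚ →+* A3 :=
  MvPolynomial.eval₂Hom (jq.comp (C : ℚ →+* ℚ[X])) (fun i => if i = 0 then jq X else if i = 1 then C xa else X)

/-- `ℚ[q][a] → ℚ[q,a,b]` -/
noncomputable def fromA2 : A2 →+* MvPolynomial (Fin 3) ℚ :=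
  (eval₂RingHom (eval₂RingHom (algebraMap ℚ (MvPolynomial (Fin 3) ℚ)) (MvPolynomial.X 0))
    (MvPolynomial.X 1) : A1[X] →+* MvPolynomial (Fin 3) ℚ)

theorem fromA2_c2 (r : A1) : fromA2 (c2 r) =
    eval₂ (algebraMap ℚ (MvPolynomial (Fin 3) ℚ)) (MvPolynomial.X 0) r := by
  change eval₂ _ _ (C r : A1[X]) = _
  rw [eval₂_C]; rfl

theorem fromA2_xa : fromA2 xa = MvPolynomial.X 1 := by
  change eval₂ _ _ (X : A1[X]) = _
  rw [eval₂_X]

/-- `ℚ[q][a][b] → ℚ[q,a,b]` -/
noncomputable def fromA : A3 →+* MvPolynomial (Fin 3) ℚ := eval₂RingHom fromA2 (MvPolynomial.X 2)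

theorem fromA_jq (r : A1) : fromA (jq r) =
    eval₂ (algebraMap ℚ (MvPolynomial (Fin 3) ℚ)) (MvPolynomial.X 0) r := by
  rw [fromA, jq, RingHom.comp_apply, coe_eval₂RingHom, eval₂_C, fromA2_c2]

theorem fromA_a : fromA (C xa) = MvPolynomial.X 1 := by
  rw [fromA, coe_eval₂RingHom, eval₂_C, fromA2_xa]

theorem fromA_b : fromA X = MvPolynomial.X 2 := by
  rw [fromA, coe_eval₂RingHom, eval₂_X]

theorem toA_X0 : toA (MvPolynomial.X 0) = jq X := by
  rw [toA, MvPolynomial.eval₂Hom_X', if_pos rfl]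

theorem toA_X1 : toA (MvPolynomial.X 1) = C xa := by
  rw [toA, MvPolynomial.eval₂Hom_X', if_neg (by decide), if_pos rfl]

theorem toA_X2 : toA (MvPolynomial.X 2) = X := by
  rw [toA, MvPolynomial.eval₂Hom_X', if_neg (by decide), if_neg (by decide)]

theorem from_to : fromA.comp toA = RingHom.id _ := by
  refine MvPolynomial.ringHom_ext (fun r => ?_) (fun i => ?_)
  · have h := RingHom.congr_fun (Subsingleton.elim ((fromA.comp toA).comp
      (algebraMap ℚ (MvPolynomial (Fin 3) ℚ))) (algebraMap ℚ (MvPolynomial (Fin 3) ℚ))) r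
    simpa using h
  · fin_cases i
    · simp only [RingHom.comp_apply, RingHom.id_apply]
      change fromA (toA (MvPolynomial.X 0)) = MvPolynomial.X 0
      rw [toA_X0, fromA_jq, eval₂_X]
    · change fromA (toA (MvPolynomial.X 1)) = MvPolynomial.X 1
      rw [toA_X1, fromA_a]
    · change fromA (toA (MvPolynomial.X 2)) = MvPolynomial.X 2
      rw [toA_X2, fromA_b]

theorem to_from : toA.comp fromA = RingHom.id _ := by
  refine Polynomial.ringHom_ext' ?_ ?_
  · have h : ((toA.comp fromA).comp C : A2 →+* A3) = C := by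
      refine (Polynomial.ringHom_ext' (R := A1) (S := A3)
        (f := (((toA.comp fromA).comp C : A2 →+* A3) : A1[X] →+* A3))
        (g := ((C : A2 →+* A3) : A1[X] →+* A3)) ?_ ?_)
      · refine Polynomial.ringHom_ext' (Subsingleton.elim _ _) ?_
        change toA (fromA (C (c2 X))) = C (c2 X)
        have : (C (c2 X) : A3) = jq X := rfl
        rw [this, fromA_jq, eval₂_X, toA_X0]
      · change toA (fromA (C xa)) = C xa
        rw [fromA_a, toA_X1]
    rw [h, RingHom.id_comp]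
  · rw [RingHom.comp_apply, fromA_b, toA_X2, RingHom.id_apply]

/-- the isomorphism -/
noncomputable def eqA : MvPolynomial (Fin 3) ℚ ≃+* A3 :=
  RingEquiv.ofRingHom toA fromA to_from from_to

/-- the isomorphism of fraction fields -/
noncomputable def eqF : FractionRing (MvPolynomial (Fin 3) ℚ) ≃+* F3 :=
  IsFractionRing.ringEquivOfRingEquiv eqA

theorem eqF_am (c : MvPolynomial (Fin 3) ℚ) :
    eqF (algebraMap _ (FractionRing (MvPolynomial (Fin 3) ℚ)) c) = am (toA c) := by
  rw [eqF, IsFractionRing.ringEquivOfRingEquiv_algebraMap]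
  rfl

theorem toA_aeval (r : ℚ[X]) : toA (aeval (MvPolynomial.X 0 : MvPolynomial (Fin 3) ℚ) r) = jq r := by
  have h : (toA.comp (aeval (MvPolynomial.X 0 : MvPolynomial (Fin 3) ℚ)).toRingHom : ℚ[X] →+* A3) =
      jq := by
    refine Polynomial.ringHom_ext' (Subsingleton.elim _ _) ?_
    change toA (aeval (MvPolynomial.X 0 : MvPolynomial (Fin 3) ℚ) X) = jq X
    rw [aeval_X, toA_X0]
  exact RingHom.congr_fun h r

theorem isRelPrime_of {x y : MvPolynomial (Fin 3) ℚ} (h : IsRelPrime (toA x) (toA y)) :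
    IsRelPrime x y := by
  intro d h1 h2
  have h3 : IsUnit (toA d) := h (map_dvd toA h1) (map_dvd toA h2)
  exact (isUnit_map_iff eqA d).1 h3

end Pool.Agent.R439.GL.AB3
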