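import Mathlib
import Pool.Agent.R439.Phi5

set_option autoImplicit false

/-!
A terminating `q`-Watson sum.
-/

namespace Pool.Agent.R439

open Finset Polynomial

section
variable {F : Type*} [Field F]

/-- `(AP;p)_k (β;p^2)_k/((β;p)_k (Ap^2;p^2)_k)` with `X = A P` -/
def hw (p A β X : F) (k : ℕ) : F :=
  poch X p k * poch β (p ^ 2) k / (poch β p k * poch (A * p ^ 2) (p ^ 2) k)

/-- term of the `q`-Watson sum with `M = 2m` -/
def TW (p A β : F) (m k : ℕ) : F :=
  tc p (2 * m) k * hw p A β (A * p ^ (2 * m + 1)) k * p ^ k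

def GW (p A β : F) (m k : ℕ) : F :=
  -((1 - A * p * (p ^ (2 * m + 1)) ^ 2) * p * p ^ (2 * m + 1)) /
    ((1 - A * p ^ (2 * m + 1)) * (1 - p * p ^ (2 * m + 1))) *
    (tc p (2 * m + 2) k * (1 - p ^ k) * (1 - β * p ^ k / p) * (1 - A * (p ^ k) ^ 2) *
      hw p A β (A * p ^ (2 * m + 1)) k)

theorem qwatson {p A β : F} (hp0 : p ≠ 0) (hp : ∀ i : ℕ, 0 < i → p ^ i ≠ 1)
    (hA : ∀ i : ℕ, 0 < i → A * p ^ i ≠ 1) (hβ : ∀ i : ℕ, β * p ^ i ≠ 1) (hβ0 : β ≠ 0) (t N : ℕ)
    (hN : 2 * t < N) :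
    ∑ k ∈ range N, TW p A β t k =
      β ^ t * poch p (p ^ 2) t * poch (A * p ^ 2 / β) (p ^ 2) t /
        (poch (A * p ^ 2) (p ^ 2) t * poch (β * p) (p ^ 2) t) := by
  have h0 : TW p A β 0 0 = 1 := by simp [TW, hw, tc, poch]
  have hR : β ^ t * poch p (p ^ 2) t * poch (A * p ^ 2 / β) (p ^ 2) t /
        (poch (A * p ^ 2) (p ^ 2) t * poch (β * p) (p ^ 2) t) =
      1 * ∏ m ∈ range t, (((p ^ (2 * m + 1) - 1) * (A * p * p ^ (2 * m + 1) - β)) /
        ((1 - β * p ^ (2 * m + 1)) * (1 - A * p * p ^ (2 * m + 1)))) := by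
    rw [one_mul, poch, poch, poch, poch, ← card_range t, ← prod_const, card_range,
      ← prod_mul_distrib, ← prod_mul_distrib, ← prod_mul_distrib, ← prod_div_distrib]
    refine prod_congr rfl fun i _ => ?_
    have e : (p ^ (2 * i + 1) : F) = p * (p ^ 2) ^ i := by rw [← pow_mul, ← pow_succ']
    rw [e]
    congr 1
    · field_simp
      ring
    · ring
  rw [hR]
  -- a telescoping argument
  have wz : ∀ t N : ℕ, 2 * t < N → ∑ k ∈ range N, TW p A β t k = TW p A β 0 0 *
      ∏ m ∈ range t, (((p ^ (2 * m + 1) - 1) * (A * p * p ^ (2 * m + 1) - β)) /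
        ((1 - β * p ^ (2 * m + 1)) * (1 - A * p * p ^ (2 * m + 1)))) := by
    intro t
    induction t with
    | zero =>
      intro N hN
      obtain ⟨N, rfl⟩ := Nat.exists_eq_succ_of_ne_zero (Nat.ne_of_gt hN)
      rw [Nat.succ_eq_add_one, sum_range_succ', sum_eq_zero, zero_add, range_zero, prod_empty,
        mul_one]
      intro k _
      rw [TW, tc_gt hp0 (by omega)]; ring
    | succ m ih =>
      intro N hN
      have ih' := ih N (by omega)
      have hAm : (1 - β * p ^ (2 * m + 1)) * (1 - A * p * p ^ (2 * m + 1)) ≠ 0 := by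
        refine mul_ne_zero (sub_ne_zero.2 (hβ _).symm) (sub_ne_zero.2 ?_)
        rw [mul_assoc, ← pow_succ']
        exact (hA _ (Nat.succ_pos _)).symm
      have key : ∀ k, ((1 - β * p ^ (2 * m + 1)) * (1 - A * p * p ^ (2 * m + 1))) * TW p A β (m + 1) k -
          ((p ^ (2 * m + 1) - 1) * (A * p * p ^ (2 * m + 1) - β)) * TW p A β m k =
          GW p A β m (k + 1) - GW p A β m k := by
        intro k
        have hτ0 := tc_shift hp0 (2 * m + 1) k hp
        have hτ1 := tc_shift hp0 (2 * m) k hp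
        have hτ' := tc_succ_mul hp (2 * m + 2) k
        have e1 : p ^ (-((2 * m + 2 : ℕ) : ℤ)) = (p * p ^ (2 * m + 1))⁻¹ := by
          rw [zpow_neg, zpow_natCast, ← pow_succ']
        rw [e1] at hτ'
        have hP1 : 1 - p ^ (2 * m + 1) ≠ 0 := sub_ne_zero.2 (hp _ (Nat.succ_pos _)).symm
        have hP2 : 1 - p * p ^ (2 * m + 1) ≠ 0 := by
          rw [← pow_succ']; exact sub_ne_zero.2 (hp _ (Nat.succ_pos _)).symm
        have hk1 : 1 - p ^ (k + 1) ≠ 0 := sub_ne_zero.2 (hp _ (Nat.succ_pos _)).symm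
        have hP0 : (p ^ (2 * m + 1) : F) ≠ 0 := pow_ne_zero _ hp0
        have ht0 : tc p (2 * m) k = tc p (2 * m + 2) k * (p ^ k - p * p ^ (2 * m + 1)) *
            (p ^ k - p ^ (2 * m + 1)) / ((1 - p * p ^ (2 * m + 1)) * (1 - p ^ (2 * m + 1))) := by
          rw [eq_div_iff (mul_ne_zero hP2 hP1)]
          have e2 : (p ^ (2 * m + 1 + 1) : F) = p * p ^ (2 * m + 1) := pow_succ' _ _
          rw [e2] at hτ0
          have e3 : tc p (2 * m + 1 + 1) k = tc p (2 * m + 2) k := rfl
          rw [e3] at hτ0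
          rw [hτ0]
          linear_combination (-(1 - p * p ^ (2 * m + 1))) * hτ1
        have ht1 : tc p (2 * m + 2) (k + 1) =
            tc p (2 * m + 2) k * (1 - (p * p ^ (2 * m + 1))⁻¹ * p ^ k) / (1 - p ^ (k + 1)) := by
          rw [eq_div_iff hk1, hτ']
        have hβk : 1 - β * p ^ k ≠ 0 := sub_ne_zero.2 (hβ k).symm
        have hAk : 1 - A * p ^ 2 * (p ^ k) ^ 2 ≠ 0 := by
          rw [← pow_mul, mul_assoc, ← pow_add]
          exact sub_ne_zero.2 (hA _ (by omega)).symm
        have hq1 : poch β p k ≠ 0 := poch_ne fun i _ => hβ i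
        have hq2 : poch (A * p ^ 2) (p ^ 2) k ≠ 0 := poch_ne fun i _ => by
          rw [← pow_mul, mul_assoc, ← pow_add]; exact hA _ (by omega)
        have hH : hw p A β (A * p ^ (2 * m + 1)) (k + 1) = hw p A β (A * p ^ (2 * m + 1)) k *
            ((1 - A * p ^ (2 * m + 1) * p ^ k) * (1 - β * (p ^ k) ^ 2) /
              ((1 - β * p ^ k) * (1 - A * p ^ 2 * (p ^ k) ^ 2))) := by
          have e : ((p ^ 2) ^ k : F) = (p ^ k) ^ 2 := by rw [← pow_mul, ← pow_mul, mul_comm]
          rw [hw, hw, poch_succ, poch_succ, poch_succ, poch_succ, e]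
          field_simp
        have hX1 : 1 - A * p ^ (2 * m + 1) ≠ 0 := sub_ne_zero.2 (hA _ (by omega)).symm
        have hX2 : 1 - A * p * p ^ (2 * m + 1) ≠ 0 := by
          rw [mul_assoc, ← pow_succ']; exact sub_ne_zero.2 (hA _ (by omega)).symm
        have hH2 : hw p A β (A * p ^ (2 * (m + 1) + 1)) k = hw p A β (A * p ^ (2 * m + 1)) k *
            ((1 - A * p ^ (2 * m + 1) * p ^ k) * (1 - A * p * p ^ (2 * m + 1) * p ^ k) /
              ((1 - A * p ^ (2 * m + 1)) * (1 - A * p * p ^ (2 * m + 1)))) := by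
          have s2 : poch (A * p ^ (2 * m + 1)) p (k + 2) = poch (A * p ^ (2 * m + 1)) p k *
              (1 - A * p ^ (2 * m + 1) * p ^ k) * (1 - A * p ^ (2 * m + 1) * p ^ (k + 1)) := by
            rw [poch_succ, poch_succ]
          have s3 : poch (A * p ^ (2 * m + 1)) p (k + 2) = (1 - A * p ^ (2 * m + 1)) *
              ((1 - A * p ^ (2 * m + 1) * p) * poch (A * p ^ (2 * m + 1) * p * p) p k) := by
            rw [poch_succ', poch_succ']
          have e4 : A * p ^ (2 * (m + 1) + 1) = A * p ^ (2 * m + 1) * p * p := by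
            rw [show 2 * (m + 1) + 1 = 2 * m + 1 + 1 + 1 by ring, pow_succ, pow_succ]; ring
          have e5 : A * p ^ (2 * m + 1) * p = A * p * p ^ (2 * m + 1) := by ring
          rw [s2] at s3
          rw [hw, hw, e4]
          rw [e5] at s3 ⊢
          have e6 : A * p ^ (2 * m + 1) * p ^ (k + 1) = A * p * p ^ (2 * m + 1) * p ^ k := by
            rw [pow_succ p k]; ring
          rw [e6] at s3
          generalize poch (A * p * p ^ (2 * m + 1) * p) p k = Z at s3 ⊢
          generalize poch (A * p ^ (2 * m + 1)) p k = Z' at s3 ⊢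
          have hs3 : Z = Z' * (1 - A * p ^ (2 * m + 1) * p ^ k) *
              (1 - A * p * p ^ (2 * m + 1) * p ^ k) /
              ((1 - A * p ^ (2 * m + 1)) * (1 - A * p * p ^ (2 * m + 1))) := by
            rw [eq_div_iff (mul_ne_zero hX1 hX2)]
            linear_combination (-1 : F) * s3
          rw [hs3]
          ring
        have e7 : 2 * (m + 1) = 2 * m + 2 := by ring
        rw [TW, TW, GW, GW, hH2, e7, hH, ht0, ht1]
        generalize hw p A β (A * p ^ (2 * m + 1)) k = H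
        generalize tc p (2 * m + 2) k = τ
        have e8 : p ^ (k + 1) = p ^ k * p := pow_succ _ _
        rw [e8] at hk1 ⊢
        generalize p ^ (2 * m + 1) = P at hP1 hP2 hP0 hX1 hX2 ⊢
        generalize p ^ k = Kk at hk1 hβk hAk ⊢
        clear hτ0 hτ1 hτ' ht0 ht1 hH hH2 e1 e7 e8 hq1 hq2 hAm
        have hk1' : 1 - p * Kk ≠ 0 := by rwa [mul_comm] at hk1
        have q1 : 1 - P * p ≠ 0 := by rwa [mul_comm] at hP2
        have q2 : 1 - P * A ≠ 0 := by rwa [mul_comm] at hX1
        have q3 : 1 - A * P * p ≠ 0 := by rwa [mul_right_comm] at hX2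
        have q4 : 1 - P * A * p ≠ 0 := by rwa [mul_comm P A]
        have q5 : 1 - p * A * P ≠ 0 := by rwa [mul_comm p A]
        have q6 : 1 - p * P * A ≠ 0 := by rwa [mul_right_comm]
        have q7 : 1 - P * p * A ≠ 0 := by rwa [mul_right_comm]
        field_simp
        ring
      have hs : ((1 - β * p ^ (2 * m + 1)) * (1 - A * p * p ^ (2 * m + 1))) *
          ∑ k ∈ range N, TW p A β (m + 1) k -
          ((p ^ (2 * m + 1) - 1) * (A * p * p ^ (2 * m + 1) - β)) * ∑ k ∈ range N, TW p A β m k = 0 := by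
        have g0 : GW p A β m 0 = 0 := by rw [GW, pow_zero]; ring
        have gN : GW p A β m N = 0 := by rw [GW, tc_gt hp0 (by omega)]; ring
        rw [mul_sum, mul_sum, ← sum_sub_distrib, sum_congr rfl fun k _ => key k, sum_range_sub,
          g0, gN, sub_zero]
      rw [prod_range_succ, ← mul_assoc, ← ih', ← mul_div_assoc, eq_div_iff hAm]
      linear_combination hs
  have h := wz t N hN
  rwa [h0] at h

end

end Pool.Agent.R439
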