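import Mathlib
import Pool.Agent.R439.QH

set_option autoImplicit false

/-!
A terminating sum mixing the bases `q` and `q^2`.
-/

namespace Pool.Agent.R439

open Finset Polynomial

section
variable {F : Type*} [Field F]

/-- term of the sum -/
def FQ (b s : F) (M k : ℕ) : F :=
  (-1) ^ k * (1 - b * s * (b ^ k) ^ 3) * poch (b * s) (b ^ 2) k *
    (poch (b ^ (-(2 * M : ℤ))) (b ^ 2) k / poch (b ^ (-(2 * M : ℤ))) b k) *
    (poch (b ^ (2 * M + 2) * s) (b ^ 2) k / poch (b ^ (2 * M + 2) * s) b k) / poch b b k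

/-- common factor with `z` and `Y` -/
def CQ (b s z Y : F) (k : ℕ) : F :=
  (-1) ^ k * poch (b * s) (b ^ 2) k * (poch z (b ^ 2) k / poch z b k) *
    (poch Y (b ^ 2) k / poch Y b k) / poch b b k

/-- auxiliary telescoping term -/
def GQ (b s z Y : F) (k : ℕ) : F :=
  CQ b s z Y k * ((1 - b ^ k) * b ^ k * (z - Y) * (1 - z * b)) / ((1 - Y * b ^ k) * (1 - z * b ^ k))

theorem rs_alg {w1 w2 w3 w4 w5 w6 w7 : F} (h2 : w2 ≠ 0) (h3 : w3 ≠ 0) (h4 : w4 ≠ 0)
    (h5 : w5 ≠ 0) (h7 : w7 ≠ 0) :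
    w6 * w1 / w5 / (w7 * w2 * w3 / (w5 * w4)) = w6 / w7 * (w1 * w4 / (w2 * w3)) := by
  field_simp

theorem ratio_shift {b X : F} (k : ℕ) (h0 : 1 - X ≠ 0) (h1 : 1 - X * b ≠ 0)
    (hk : 1 - X * b ^ k ≠ 0) (hk1 : 1 - X * b ^ (k + 1) ≠ 0) (hp : poch X b k ≠ 0) :
    poch (X * b ^ 2) (b ^ 2) k / poch (X * b ^ 2) b k =
      poch X (b ^ 2) k / poch X b k * ((1 - X * (b ^ k) ^ 2) * (1 - X * b) /
        ((1 - X * b ^ k) * (1 - X * b ^ (k + 1)))) := by
  have e1 : (1 - X) * poch (X * b ^ 2) (b ^ 2) k = poch X (b ^ 2) k * (1 - X * (b ^ k) ^ 2) := by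
    rw [← poch_succ', poch_succ]; congr 3; rw [← pow_mul, ← pow_mul, mul_comm]
  have e2 : (1 - X) * ((1 - X * b) * poch (X * b ^ 2) b k) =
      poch X b k * (1 - X * b ^ k) * (1 - X * b ^ (k + 1)) := by
    have : X * b ^ 2 = X * b * b := by ring
    rw [this, ← poch_succ', ← poch_succ', poch_succ, poch_succ]
  have e1' : poch (X * b ^ 2) (b ^ 2) k = poch X (b ^ 2) k * (1 - X * (b ^ k) ^ 2) / (1 - X) := by
    rw [eq_div_iff h0, mul_comm, e1]
  have e2' : poch (X * b ^ 2) b k = poch X b k * (1 - X * b ^ k) * (1 - X * b ^ (k + 1)) /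
      ((1 - X) * (1 - X * b)) := by
    rw [eq_div_iff (mul_ne_zero h0 h1)]; linear_combination e2
  rw [e1', e2']
  exact rs_alg hk hk1 h1 h0 hp

theorem cs_alg {A B D E G H S a c d e f g : F} :
    S * (-1) * (A * a) * (B * c / (D * e)) * (E * d / (G * f)) / (H * g) =
      S * A * (B / D) * (E / G) / H * (-(a * c * d) / (e * f * g)) := by
  rw [mul_div_mul_comm B c D e, mul_div_mul_comm E d G f, div_eq_mul_inv, div_eq_mul_inv _ H,
    div_eq_mul_inv _ (e * f * g), mul_inv, mul_inv, mul_inv, div_eq_mul_inv c e,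
    div_eq_mul_inv d f]
  ring

theorem CQ_succ {b s z Y : F} (k : ℕ) :
    CQ b s z Y (k + 1) = CQ b s z Y k * (-((1 - b * s * (b ^ k) ^ 2) * (1 - z * (b ^ k) ^ 2) *
      (1 - Y * (b ^ k) ^ 2)) / ((1 - z * b ^ k) * (1 - Y * b ^ k) * (1 - b ^ (k + 1)))) := by
  have e : ((b ^ 2) ^ k : F) = (b ^ k) ^ 2 := by rw [← pow_mul, ← pow_mul, mul_comm]
  rw [CQ, CQ, poch_succ, poch_succ, poch_succ, poch_succ, poch_succ, poch_succ, e, ← pow_succ',
    pow_succ (-1 : F)]
  exact cs_alg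

theorem key_alg {z Y b x C : F} (a1 : 1 - z * x ≠ 0) (a2 : 1 - z * (x * b) ≠ 0)
    (a3 : 1 - Y * x ≠ 0) (a4 : 1 - Y * (x * b) ≠ 0) (a5 : 1 - x * b ≠ 0) (a6 : 1 - Y * b ≠ 0) :
    (1 - z * b) / (1 - Y * b) * (C * ((1 - b * (Y * z) * x ^ 3) *
      ((1 - Y * x ^ 2) * (1 - Y * b) / ((1 - Y * x) * (1 - Y * (x * b)))))) -
      C * ((1 - b * (Y * z) * x ^ 3) *
        ((1 - z * x ^ 2) * (1 - z * b) / ((1 - z * x) * (1 - z * (x * b))))) =
    C * (-((1 - b * (Y * z) * x ^ 2) * (1 - z * x ^ 2) *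
      (1 - Y * x ^ 2)) / ((1 - z * x) * (1 - Y * x) * (1 - x * b))) *
      ((1 - x * b) * (x * b) * (z - Y) * (1 - z * b)) /
        ((1 - Y * (x * b)) * (1 - z * (x * b))) -
      C * ((1 - x) * x * (z - Y) * (1 - z * b)) / ((1 - Y * x) * (1 - z * x)) := by
  have A2 : 1 - z * (x * b) = 1 - z * b * x := by ring
  have A4 : 1 - Y * (x * b) = 1 - b * Y * x := by ring
  have A5 : 1 - x * b = 1 - b * x := by ring
  have A6 : 1 - Y * b = 1 - b * Y := by ring
  rw [A2] at a2 ⊢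
  rw [A4] at a4 ⊢
  rw [A5] at a5 ⊢
  rw [A6] at a6 ⊢
  generalize h1 : 1 - z * x = u1 at *
  generalize h2 : 1 - z * b * x = u2 at *
  generalize h3 : 1 - Y * x = u3 at *
  generalize h4 : 1 - b * Y * x = u4 at *
  generalize h5 : 1 - b * x = u5 at *
  generalize h6 : 1 - b * Y = u6 at *
  field_simp
  rw [← h1, ← h2, ← h3, ← h4]
  ring

theorem last_alg {z Y b x C : F} (hx : z * x ^ 2 = 1) (hx0 : x ≠ 0) (a1 : x - 1 ≠ 0)
    (a3 : 1 - Y * x ≠ 0) (a4 : 1 - Y * (x * b) ≠ 0) (a6 : 1 - Y * b ≠ 0) :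
    (1 - z * b) / (1 - Y * b) * (C * ((1 - b * (Y * z) * x ^ 3) *
      ((1 - Y * x ^ 2) * (1 - Y * b) / ((1 - Y * x) * (1 - Y * (x * b)))))) =
    -(C * ((1 - x) * x * (z - Y) * (1 - z * b)) / ((1 - Y * x) * (1 - z * x))) := by
  have e1 : 1 - z * x = (x - 1) / x := by
    rw [eq_div_iff hx0]; linear_combination -hx
  have e2 : z - Y = (1 - Y * x ^ 2) / x ^ 2 := by
    rw [eq_div_iff (pow_ne_zero _ hx0)]; linear_combination hx
  have e3 : 1 - b * (Y * z) * x ^ 3 = 1 - Y * (x * b) := by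
    linear_combination (-b * Y * x) * hx
  have e4 : 1 - x = -(x - 1) := by ring
  rw [e1, e2, e3, e4]
  generalize 1 - z * b = w1 at *
  generalize 1 - Y * b = w2 at *
  generalize 1 - Y * x ^ 2 = w3 at *
  generalize 1 - Y * x = w4 at *
  generalize 1 - Y * (x * b) = w5 at *
  generalize x - 1 = w6 at *
  clear e1 e2 e3 e4 hx
  field_simp

theorem quad_sum {b s : F} (hb0 : b ≠ 0) (hb : ∀ i : ℕ, 0 < i → b ^ i ≠ 1)
    (hs : ∀ i : ℕ, 0 < i → b ^ i * s ≠ 1) (M : ℕ) :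
    ∑ k ∈ range (M + 1), FQ b s M k =
      (-1) ^ M * b ^ (M ^ 2) * poch (b * s) (b ^ 2) (M + 1) / poch b (b ^ 2) M := by
  induction M with
  | zero =>
    rw [zero_add, sum_range_one, FQ, poch_one]
    simp [poch]
  | succ M ih =>
    set z : F := b ^ (-(2 * (M + 1 : ℕ) : ℤ)) with hz
    set Y : F := b ^ (2 * M + 2) * s with hY
    have hzn : z * b ^ (2 * M + 2) = 1 := by
      rw [hz, ← zpow_natCast b (2 * M + 2), ← zpow_add₀ hb0]
      have : (-(2 * ((M + 1 : ℕ) : ℤ)) + ((2 * M + 2 : ℕ) : ℤ)) = 0 := by push_cast; ring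
      rw [this, zpow_zero]
    have hsY : s = Y * z := by
      rw [hY]
      linear_combination (-s) * hzn
    have hz0 : z ≠ 0 := zpow_ne_zero _ hb0
    have hzk : ∀ k < 2 * M + 2, 1 - z * b ^ k ≠ 0 := by
      intro k hk h
      have h1 : z * b ^ k = 1 := (sub_eq_zero.1 h).symm
      have h2 : b ^ (2 * M + 2 - k) = 1 := by
        have h3 : z * b ^ k * b ^ (2 * M + 2 - k) = 1 := by
          rw [mul_assoc, ← pow_add, show k + (2 * M + 2 - k) = 2 * M + 2 by omega, hzn]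
        rwa [h1, one_mul] at h3
      exact hb _ (by omega) h2
    have hYk : ∀ k, 1 - Y * b ^ k ≠ 0 := by
      intro k h
      have : b ^ (2 * M + 2 + k) * s = 1 := by
        rw [hY] at h
        rw [pow_add]; linear_combination -h
      exact hs _ (by omega) this
    have hpz : ∀ k ≤ 2 * M + 2, poch z b k ≠ 0 := fun k hk => poch_ne fun i hi =>
      fun h => hzk i (by omega) (by rw [h, sub_self])
    have hpY : ∀ k, poch Y b k ≠ 0 := fun k => poch_ne fun i _ =>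
      fun h => hYk i (by rw [h, sub_self])
    have hzq : z * b ^ 2 = b ^ (-(2 * M : ℤ)) := by
      rw [hz, ← zpow_natCast b 2, ← zpow_add₀ hb0]; congr 1; push_cast; ring
    have hYq : Y * b ^ 2 = b ^ (2 * (M + 1) + 2) * s := by
      rw [hY, show 2 * (M + 1) + 2 = 2 * M + 2 + 2 by ring, pow_add b (2 * M + 2) 2]; ring
    have hα : 1 - Y * b ≠ 0 := by simpa using hYk 1
    have hβ : 1 - z * b ≠ 0 := by simpa using hzk 1 (by omega)
    have hz1 : 1 - z ≠ 0 := by simpa using hzk 0 (by omega)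
    have hY1 : 1 - Y ≠ 0 := by simpa using hYk 0
    -- the two kinds of terms
    have f1 : ∀ k ≤ M + 1, FQ b s (M + 1) k = CQ b s z Y k * ((1 - b * s * (b ^ k) ^ 3) *
        ((1 - Y * (b ^ k) ^ 2) * (1 - Y * b) / ((1 - Y * b ^ k) * (1 - Y * b ^ (k + 1))))) := by
      intro k hk
      have h := ratio_shift (b := b) (X := Y) k hY1 hα (hYk k) (hYk (k + 1)) (hpY k)
      rw [FQ, ← hYq, h, CQ]
      have : ((-(2 * ((M + 1 : ℕ)) : ℤ))) = -(2 * (M + 1 : ℕ) : ℤ) := rfl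
      rw [← hz]
      ring
    have f0 : ∀ k ≤ M, FQ b s M k = CQ b s z Y k * ((1 - b * s * (b ^ k) ^ 3) *
        ((1 - z * (b ^ k) ^ 2) * (1 - z * b) / ((1 - z * b ^ k) * (1 - z * b ^ (k + 1))))) := by
      intro k hk
      have h := ratio_shift (b := b) (X := z) k hz1 hβ (hzk k (by omega)) (hzk (k + 1) (by omega))
        (hpz k (by omega))
      rw [FQ, ← hzq, h, CQ, hY]
      ring
    have key : ∀ k ≤ M, (1 - z * b) / (1 - Y * b) * FQ b s (M + 1) k - FQ b s M k =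
        GQ b s z Y (k + 1) - GQ b s z Y k := by
      intro k hk
      have a1 := hzk k (by omega)
      have a2 := hzk (k + 1) (by omega)
      have a3 := hYk k
      have a4 := hYk (k + 1)
      have a5 : 1 - b ^ (k + 1) ≠ 0 := sub_ne_zero.2 (hb _ (Nat.succ_pos _)).symm
      rw [f1 k (by omega), f0 k hk, GQ, GQ, CQ_succ k]
      generalize CQ b s z Y k = C
      rw [hsY]
      rw [pow_succ b k] at a2 a4 a5 ⊢
      clear hzk hYk hpz hpY f1 f0 hsY hzq hYq hzn
      generalize b ^ k = x at a1 a2 a3 a4 a5 ⊢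
      clear_value z Y
      exact key_alg a1 a2 a3 a4 a5 hα
    have last : (1 - z * b) / (1 - Y * b) * FQ b s (M + 1) (M + 1) = - GQ b s z Y (M + 1) := by
      rw [f1 (M + 1) le_rfl, GQ]
      generalize CQ b s z Y (M + 1) = C
      have a1 := hzk (M + 1) (by omega)
      have a3 := hYk (M + 1)
      have a4 := hYk (M + 1 + 1)
      have hx : z * (b ^ (M + 1)) ^ 2 = 1 := by
        rw [← pow_mul, ← hzn]; congr 2; ring
      have hx0 : b ^ (M + 1) ≠ 0 := pow_ne_zero _ hb0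
      rw [hsY]
      rw [pow_succ b (M + 1)] at a4 ⊢
      clear hzk hYk hpz hpY f1 f0 hsY hzq hYq hzn key
      generalize b ^ (M + 1) = x at a1 a3 a4 hx hx0 ⊢
      clear_value z Y
      have a1' : x - 1 ≠ 0 := by
        intro h
        apply a1
        have : x = 1 := by linear_combination h
        rw [this] at hx ⊢
        linear_combination -hx
      exact last_alg hx hx0 a1' a3 a4 hα
    have g0 : GQ b s z Y 0 = 0 := by rw [GQ, pow_zero]; ring
    have hsum : (1 - z * b) / (1 - Y * b) * ∑ k ∈ range (M + 1 + 1), FQ b s (M + 1) k =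
        ∑ k ∈ range (M + 1), FQ b s M k := by
      rw [sum_range_succ, mul_add, last, mul_sum]
      have h1 : ∑ k ∈ range (M + 1), (1 - z * b) / (1 - Y * b) * FQ b s (M + 1) k =
          ∑ k ∈ range (M + 1), FQ b s M k + (GQ b s z Y (M + 1) - GQ b s z Y 0) := by
        rw [← sum_range_sub, ← sum_add_distrib]
        refine sum_congr rfl fun k hk => ?_
        rw [← key k (by have := mem_range.1 hk; omega)]; ring
      rw [h1, g0]; ring
    have hres : ∑ k ∈ range (M + 1 + 1), FQ b s (M + 1) k =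
        (1 - Y * b) / (1 - z * b) * ∑ k ∈ range (M + 1), FQ b s M k := by
      rw [← hsum]
      generalize ∑ k ∈ range (M + 1 + 1), FQ b s (M + 1) k = S
      generalize 1 - Y * b = w1 at hα ⊢
      generalize 1 - z * b = w2 at hβ ⊢
      field_simp
    rw [hres, ih, poch_succ (b * s) (b ^ 2) (M + 1), poch_succ b (b ^ 2) M]
    have e1 : b * s * (b ^ 2) ^ (M + 1) = Y * b := by
      rw [hY, ← pow_mul, show 2 * (M + 1) = 2 * M + 2 by ring]; ring
    have e2 : b * (b ^ 2) ^ M = b ^ (2 * M + 1) := by rw [← pow_mul, ← pow_succ']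
    have e3 : z * b = (b ^ (2 * M + 1))⁻¹ := by
      have : b ^ (2 * M + 1) ≠ 0 := pow_ne_zero _ hb0
      apply eq_inv_of_mul_eq_one_left
      rw [← hzn, mul_assoc, ← pow_succ']
    have e4 : (b ^ ((M + 1) ^ 2) : F) = b ^ (M ^ 2) * b ^ (2 * M + 1) := by
      rw [← pow_add]; congr 1; ring
    have h1 : 1 - b ^ (2 * M + 1) ≠ 0 := sub_ne_zero.2 (hb _ (Nat.succ_pos _)).symm
    have h2 : (b ^ (2 * M + 1) : F) ≠ 0 := pow_ne_zero _ hb0
    have h3 : poch b (b ^ 2) M ≠ 0 := poch_ne fun i _ => by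
      rw [← pow_mul, ← pow_succ']; exact hb _ (Nat.succ_pos _)
    rw [e1, e2, e3, e4]
    have h4 : 1 - (b ^ (2 * M + 1))⁻¹ ≠ 0 := by rwa [← e3]
    have h5 : b ^ (2 * M + 1) - 1 ≠ 0 := by
      intro h; apply h1; linear_combination -h
    clear hres hsum g0 last key f0 f1 hzk hYk hpz hpY
    generalize b ^ (2 * M + 1) = x at h1 h2 h4 h5 ⊢
    have : 1 - x⁻¹ = (x - 1) / x := by field_simp
    rw [this, pow_succ]
    field_simp
    ring

end

end Pool.Agent.R439
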