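import Mathlib
import Pool.Agent.R439.S4E

set_option autoImplicit false

/-!
The sum `∑_{k ≤ (p^r-1)/2} (4k+1) ((1/2)_k/k!)^4` modulo `p^(r+4)`.
-/

namespace Pool.Agent.R439.PL.S4

open Finset Pool.Agent.R439.S4

variable {p m : ℕ} [hp : Fact p.Prime]

theorem I_pow (k : ℕ) : I p k ((p : ℚ) ^ k) := ⟨1, one_mem _, by ring⟩

theorem I_div {a r : ℕ} (ha : 0 < a) (h : a < p ^ r) : I p 1 ((p : ℚ) ^ r / a) := by
  obtain ⟨c, b, hb, hab⟩ := Nat.exists_eq_pow_mul_and_not_dvd ha.ne' p hp.out.ne_one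
  have hb0 : 0 < b := Nat.pos_of_ne_zero fun h' => by rw [h', mul_zero] at hab; omega
  have hc : c < r := by
    by_contra hcr
    have h1 : p ^ r ≤ p ^ c := Nat.pow_le_pow_right hp.out.pos (by omega)
    have h2 : p ^ c ≤ p ^ c * b := Nat.le_mul_of_pos_right _ hb0
    omega
  have hu := U_nat' hb
  obtain ⟨t, ht⟩ : ∃ t, r = c + 1 + t := ⟨r - (c + 1), by omega⟩
  refine ⟨(p : ℚ) ^ t * (b : ℚ)⁻¹, mul_mem (pow_mem p_mem _) hu.2.2, ?_⟩
  rw [hab, ht]
  have h1 := hu.1
  have h2 := p_ne (p := p)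
  push_cast
  rw [pow_add, pow_add]
  field_simp

theorem I_div2 {a r : ℕ} (ha : 0 < a) (hr : 0 < r) (h : ¬ p ^ (r - 1) ∣ a) :
    I p 2 ((p : ℚ) ^ r / a) := by
  obtain ⟨c, b, hb, hab⟩ := Nat.exists_eq_pow_mul_and_not_dvd ha.ne' p hp.out.ne_one
  have hc : c < r - 1 := by
    by_contra hcr
    apply h
    rw [hab]
    exact (pow_dvd_pow p (by omega : r - 1 ≤ c)).mul_right b
  have hu := U_nat' hb
  obtain ⟨t, ht⟩ : ∃ t, r = c + 2 + t := ⟨r - (c + 2), by omega⟩
  refine ⟨(p : ℚ) ^ t * (b : ℚ)⁻¹, mul_mem (pow_mem p_mem _) hu.2.2, ?_⟩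
  rw [hab, ht]
  have h1 := hu.1
  have h2 := p_ne (p := p)
  push_cast
  rw [pow_add, pow_add]
  field_simp

omit hp in
theorem beta (k : ℕ) : ∀ x : ℚ, 0 < x → ∑ j ∈ range (k + 1), (-1) ^ j * (k.choose j : ℚ) / (x + j) =
    k.factorial / ∏ j ∈ range (k + 1), (x + j) := by
  induction k with
  | zero => intro x _; simp
  | succ k ih =>
    intro x hx
    have h1 := ih x hx
    have h2 := ih (x + 1) (by positivity)
    rw [sum_range_succ']
    have h3 : ∑ j ∈ range (k + 1), (-1 : ℚ) ^ (j + 1) * ((k + 1).choose (j + 1) : ℚ) /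
        (x + ((j + 1 : ℕ) : ℚ)) = ∑ j ∈ range (k + 1), (-1 : ℚ) ^ (j + 1) * (k.choose (j + 1) : ℚ) /
        (x + ((j + 1 : ℕ) : ℚ)) - ∑ j ∈ range (k + 1), (-1) ^ j * (k.choose j : ℚ) / (x + 1 + j) := by
      rw [← sum_sub_distrib]
      refine sum_congr rfl fun j _ => ?_
      rw [Nat.choose_succ_succ]
      have : x + 1 + (j : ℚ) ≠ 0 := by positivity
      have h4 : x + ((j + 1 : ℕ) : ℚ) = x + 1 + j := by push_cast; ring
      rw [h4]
      push_cast
      field_simp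
      ring
    have h5 : ∑ j ∈ range (k + 1), (-1 : ℚ) ^ (j + 1) * (k.choose (j + 1) : ℚ) /
        (x + ((j + 1 : ℕ) : ℚ)) + (-1) ^ 0 * ((k + 1).choose 0 : ℚ) / (x + ((0 : ℕ) : ℚ)) =
        ∑ j ∈ range (k + 1), (-1) ^ j * (k.choose j : ℚ) / (x + j) := by
      have h6 : ((k + 1).choose 0 : ℚ) = (k.choose 0 : ℚ) := by simp
      rw [h6, ← sum_range_succ' (fun j => (-1 : ℚ) ^ j * (k.choose j : ℚ) / (x + (j : ℚ))) (k + 1),
        sum_range_succ _ (k + 1), Nat.choose_succ_self]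
      simp
    have h7 : ∏ j ∈ range (k + 1), (x + 1 + (j : ℚ)) = ∏ j ∈ range (k + 1), (x + ((j + 1 : ℕ) : ℚ)) :=
      prod_congr rfl fun j _ => by push_cast; ring
    have h8 : ∏ j ∈ range (k + 1), (x + (j : ℚ)) ≠ 0 := prod_ne_zero_iff.2 fun j _ => by positivity
    have h9 : ∏ j ∈ range (k + 1), (x + ((j + 1 : ℕ) : ℚ)) ≠ 0 :=
      prod_ne_zero_iff.2 fun j _ => by positivity
    have h10 := prod_range_succ (fun j : ℕ => x + (j : ℚ)) (k + 1)
    have h11 := prod_range_succ' (fun j : ℕ => x + (j : ℚ)) (k + 1)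
    rw [h10] at h11
    rw [h3, h10]
    rw [h7] at h2
    have h12 : x + ((k + 1 : ℕ) : ℚ) ≠ 0 := by positivity
    have h13 : x + ((0 : ℕ) : ℚ) ≠ 0 := by simp; exact hx.ne'
    have h14 : ∑ j ∈ range (k + 1), (-1 : ℚ) ^ (j + 1) * (k.choose (j + 1) : ℚ) /
        (x + ((j + 1 : ℕ) : ℚ)) - ∑ j ∈ range (k + 1), (-1) ^ j * (k.choose j : ℚ) / (x + 1 + j) +
        (-1) ^ 0 * ((k + 1).choose 0 : ℚ) / (x + ((0 : ℕ) : ℚ)) =
        k.factorial / ∏ j ∈ range (k + 1), (x + (j : ℚ)) -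
        k.factorial / ∏ j ∈ range (k + 1), (x + ((j + 1 : ℕ) : ℚ)) := by
      rw [← h1, ← h2, ← h5]; ring
    rw [h14, Nat.factorial_succ]
    generalize ∏ j ∈ range (k + 1), (x + (j : ℚ)) = A at *
    generalize ∏ j ∈ range (k + 1), (x + ((j + 1 : ℕ) : ℚ)) = B at *
    have h15 : B * x = A * (x + ((k + 1 : ℕ) : ℚ)) := by
      rw [h11]; push_cast; ring
    have h16 : x ≠ 0 := hx.ne'
    rw [← h15]
    field_simp
    push_cast at h15 ⊢
    linear_combination (k.factorial : ℚ) * h15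

omit hp in
theorem hf_fac (k : ℕ) : hf k * (4 ^ k * k.factorial) = ((2 * k).factorial : ℚ) := by
  induction k with
  | zero => simp [hf]
  | succ k ih =>
    rw [show 2 * (k + 1) = 2 * k + 1 + 1 by ring, Nat.factorial_succ, Nat.factorial_succ, hf_succ,
      Nat.factorial_succ, pow_succ]
    push_cast
    rw [← ih]
    ring

omit hp in
theorem ch_beta (k : ℕ) : 1 / ((2 * (k : ℚ) + 1) * ch k) =
    4 ^ k * ∑ j ∈ range (k + 1), (-1) ^ j * (k.choose j : ℚ) / ((k : ℚ) + 1 + j) := by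
  rw [beta k ((k : ℚ) + 1) (by positivity)]
  have h1 : (k.factorial : ℚ) * ∏ j ∈ range (k + 1), ((k : ℚ) + 1 + j) = (2 * k + 1).factorial := by
    have h2 : ∀ l : ℕ, (k.factorial : ℚ) * ∏ j ∈ range l, ((k : ℚ) + 1 + j) = (k + l).factorial := by
      intro l
      induction l with
      | zero => simp
      | succ l ih =>
        rw [prod_range_succ, ← mul_assoc, ih, ← add_assoc, Nat.factorial_succ]
        push_cast; ring
    rw [h2 (k + 1)]
    congr 2
    ring
  have h2 := hf_fac k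
  have h3 : ∏ j ∈ range (k + 1), ((k : ℚ) + 1 + j) ≠ 0 := prod_ne_zero_iff.2 fun j _ => by positivity
  rw [Nat.factorial_succ] at h1
  have h4 : (k.factorial : ℚ) ≠ 0 := by positivity
  have h5 := hf_ne k
  rw [ch_hf]
  have h6 : (2 * (k : ℚ) + 1) ≠ 0 := by positivity
  push_cast at h1
  rw [← h2] at h1
  generalize ∏ j ∈ range (k + 1), ((k : ℚ) + 1 + j) = A at *
  field_simp
  apply mul_left_cancel₀ h4
  linear_combination h1

theorem I_chdiv {k r : ℕ} (h : 2 * k + 1 < p ^ r) :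
    I p 1 ((p : ℚ) ^ r / ((2 * (k : ℚ) + 1) * ch k)) := by
  rw [← mul_one_div, ch_beta, mul_sum, mul_sum]
  refine I.sum fun j hj => ?_
  have hj' := mem_range.1 hj
  have h1 := I_div (p := p) (a := k + 1 + j) (r := r) (by omega) (by omega)
  have h2 : (p : ℚ) ^ r * (4 ^ k * ((-1) ^ j * (k.choose j : ℚ) / ((k : ℚ) + 1 + j))) =
      (4 ^ k * ((-1) ^ j * (k.choose j : ℚ))) * ((p : ℚ) ^ r / ((k + 1 + j : ℕ) : ℚ)) := by
    push_cast
    ring
  rw [h2]
  refine h1.mulL (mul_mem (pow_mem ?_ _) (mul_mem (pow_mem (neg_mem (one_mem _)) _) (nat_mem _)))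
  exact_mod_cast nat_mem (p := p) 4

omit hp in
theorem ch_C (k : ℕ) : ch k * 4 ^ k = ((2 * k).choose k : ℚ) := by
  have h1 := hf_fac k
  have h2 := Nat.choose_mul_factorial_mul_factorial (show k ≤ 2 * k by omega)
  rw [show 2 * k - k = k by omega] at h2
  have h3 : (((2 * k).choose k : ℕ) : ℚ) * k.factorial * k.factorial = (2 * k).factorial := by
    exact_mod_cast h2
  rw [ch_hf]
  have h4 : (k.factorial : ℚ) ≠ 0 := by positivity
  rw [← h1] at h3
  field_simp
  apply mul_right_cancel₀ h4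
  linear_combination (-1) * h3

theorem EQ_of_modEq {a b : ℤ} (h : a ≡ b [ZMOD p]) : EQ p 1 (a : ℚ) (b : ℚ) := by
  obtain ⟨c, hc⟩ := h.symm.dvd
  refine ⟨int_mem a, int_mem b, (c : ℚ), int_mem c, ?_⟩
  rw [pow_one]
  exact_mod_cast hc

theorem U4 (hp2 : p ≠ 2) (k : ℕ) : U p ((4 : ℚ) ^ k) := by
  have h2 : U p ((2 : ℕ) : ℚ) := U_nat' (fun h => hp2 ((Nat.prime_dvd_prime_iff_eq hp.out
    Nat.prime_two).1 h))
  have h4 := (h2.mul h2).pow k
  have e : ((2 : ℕ) : ℚ) * ((2 : ℕ) : ℚ) = 4 := by norm_num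
  rwa [e] at h4

theorem ch_mem (hp2 : p ≠ 2) (k : ℕ) : ch k ∈ Zp p := by
  have h := ch_C k
  have hu := U4 hp2 k
  have : ch k = ((2 * k).choose k : ℚ) * ((4 : ℚ) ^ k)⁻¹ := by
    rw [← h]; have := hu.1; field_simp
  rw [this]
  exact mul_mem (nat_mem _) hu.2.2

/-- Lucas congruence -/
theorem ch_lucas (hpm : p = 2 * m + 1) (hm : 0 < m) (k : ℕ) :
    EQ p 1 (ch (p * k + m)) (ch m * ch k) := by
  have hp2 : p ≠ 2 := by omega
  have h1 : EQ p 1 (((2 * (p * k + m)).choose (p * k + m) : ℕ) : ℚ)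
      (((2 * m).choose m : ℕ) * ((2 * k).choose k : ℕ) : ℚ) := by
    have h2 := Choose.choose_modEq_choose_mod_mul_choose_div (n := 2 * (p * k + m)) (k := p * k + m)
      (p := p)
    have a1 : 2 * (p * k + m) = 2 * m + p * (2 * k) := by ring
    have a2 : p * k + m = m + p * k := by ring
    have a3 : (2 * (p * k + m)) % p = 2 * m := by
      rw [a1, Nat.add_mul_mod_self_left, Nat.mod_eq_of_lt (by omega)]
    have a4 : (2 * (p * k + m)) / p = 2 * k := by
      rw [a1, Nat.add_mul_div_left _ _ hp.out.pos, Nat.div_eq_of_lt (by omega), zero_add]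
    have a5 : (p * k + m) % p = m := by
      rw [a2, Nat.add_mul_mod_self_left, Nat.mod_eq_of_lt (by omega)]
    have a6 : (p * k + m) / p = k := by
      rw [a2, Nat.add_mul_div_left _ _ hp.out.pos, Nat.div_eq_of_lt (by omega), zero_add]
    rw [a3, a4, a5, a6] at h2
    have h3 := EQ_of_modEq h2
    push_cast at h3 ⊢
    exact h3
  have h4 : EQ p 1 ((4 : ℚ) ^ (p * k + m)) (4 ^ m * 4 ^ k) := by
    have h5 : ((4 : ℤ) ^ k) ^ p ≡ 4 ^ k [ZMOD p] := by
      rw [← ZMod.intCast_eq_intCast_iff]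
      push_cast
      exact ZMod.pow_card _
    have h6 := EQ_of_modEq h5
    push_cast at h6
    have h7 := (EQ.refl (k := 1) ((U4 hp2 m).2.1)).mul h6
    have e : (4 : ℚ) ^ (p * k + m) = 4 ^ m * (4 ^ k) ^ p := by
      rw [pow_add, ← pow_mul]; ring
    rw [e]
    exact h7
  have h8 := h1.div one_pos h4 (U4 hp2 _)
  have e1 : ch (p * k + m) = (((2 * (p * k + m)).choose (p * k + m) : ℕ) : ℚ) / 4 ^ (p * k + m) := by
    rw [eq_div_iff (U4 (p := p) hp2 _).1, ch_C]
  have e2 : ch m * ch k = (((2 * m).choose m : ℕ) * ((2 * k).choose k : ℕ) : ℚ) / (4 ^ m * 4 ^ k) := by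
    rw [eq_div_iff (mul_ne_zero (U4 (p := p) hp2 _).1 (U4 (p := p) hp2 _).1), ← ch_C, ← ch_C]; ring
  rw [e1, e2]
  exact h8

/-- the indices `k` with `2k+1 = p^s (2i+1)` -/
def kk (p m : ℕ) : ℕ → ℕ → ℕ
  | 0, i => i
  | s + 1, i => p * kk p m s i + m

omit hp in
theorem kk_eq (hpm : p = 2 * m + 1) (s i : ℕ) : 2 * kk p m s i + 1 = p ^ s * (2 * i + 1) := by
  induction s with
  | zero => simp [kk]
  | succ s ih =>
    have h1 : 2 * kk p m (s + 1) i + 1 = p * (2 * kk p m s i + 1) := by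
      rw [kk]
      calc 2 * (p * kk p m s i + m) + 1 = 2 * p * kk p m s i + (2 * m + 1) := by ring
        _ = 2 * p * kk p m s i + p := by rw [← hpm]
        _ = p * (2 * kk p m s i + 1) := by ring
    rw [h1, ih, pow_succ]; ring

theorem kk_ch (hpm : p = 2 * m + 1) (hm : 0 < m) (s i : ℕ) :
    EQ p 1 (ch (kk p m s i) ^ 2) (ch i ^ 2) := by
  have hp2 : p ≠ 2 := by omega
  induction s with
  | zero => exact EQ.refl (pow_mem (ch_mem hp2 i) 2)
  | succ s ih =>
    have h1 := (ch_lucas hpm hm (kk p m s i)).pow 2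
    have h2 := (ch_choose hpm (le_refl m)).pow 2
    have e : ((-1 : ℚ) ^ m * (m.choose m : ℚ)) ^ 2 = 1 := by
      rw [mul_pow, ← pow_mul, mul_comm m 2, pow_mul]; simp
    rw [e] at h2
    have h3 := h2.mul ih
    rw [one_mul] at h3
    rw [mul_pow] at h1
    exact h1.trans h3

/-- first order expansion of a product -/
theorem prod_lin {ι : Type*} {s : Finset ι} {x : ι → ℚ} (h : ∀ i ∈ s, I p 2 (x i)) :
    I p 4 (∏ i ∈ s, (1 - x i) - (1 - ∑ i ∈ s, x i)) := by
  classical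
  induction s using Finset.induction_on with
  | empty => simp [I.zero]
  | insert a s ha ih =>
    have ih := ih fun i hi => h i (mem_insert_of_mem hi)
    have hS : I p 2 (∑ i ∈ s, x i) := I.sum fun i hi => h i (mem_insert_of_mem hi)
    have h1 := h a (mem_insert_self _ _)
    rw [prod_insert ha, sum_insert ha]
    have e : (1 - x a) * ∏ i ∈ s, (1 - x i) - (1 - (x a + ∑ i ∈ s, x i)) =
        (1 - x a) * (∏ i ∈ s, (1 - x i) - (1 - ∑ i ∈ s, x i)) + x a * ∑ i ∈ s, x i := by ring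
    rw [e]
    exact (ih.mulL (sub_mem (one_mem _) h1.mem)).add (h1.mul hS)

theorem EE_one {r j M : ℕ} (hM : p ^ r = 2 * M + 1) (hj : j ≤ M) :
    EQ p 1 (EE (2 * (M : ℚ) + 1) j) 1 := by
  have hn : (2 * (M : ℚ) + 1) = (p : ℚ) ^ r := by
    have : ((p ^ r : ℕ) : ℚ) = ((2 * M + 1 : ℕ) : ℚ) := by rw [hM]
    push_cast at this
    exact this.symm
  rw [hn]
  have h : EQ p 1 (EE ((p : ℚ) ^ r) j) (∏ _l ∈ range j, ((1 + 0 : ℚ) * (1 - 0))) := by
    refine EQ.prod fun l hl => ?_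
    have hl' := mem_range.1 hl
    have h1 := I_div (p := p) (a := 2 * l + 2) (r := r) (by omega) (by omega)
    have h2 := I_div (p := p) (a := 2 * l + 1) (r := r) (by omega) (by omega)
    push_cast at h1 h2
    exact ((EQ.refl (one_mem _)).add (EQ.of_I h1)).mul ((EQ.refl (one_mem _)).sub (EQ.of_I h2))
  simpa using h

/-- the whole sum -/
theorem S_eq (hpm : p = 2 * m + 1) (hm : 0 < m) {r M : ℕ} (hr : 0 < r) (hM : p ^ r = 2 * M + 1) :
    I p (r + 4) (∑ k ∈ range (M + 1), (4 * (k : ℚ) + 1) * ch k ^ 4 -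
      ((p : ℚ) ^ r * (1 - (p : ℚ) ^ 2 / 4 * HH m 2) + (p : ℚ) ^ (r + 3) * ZZ m)) := by
  have hp2 : p ≠ 2 := by omega
  have hn : (2 * (M : ℚ) + 1) = (p : ℚ) ^ r := by
    have : ((p ^ r : ℕ) : ℚ) = ((2 * M + 1 : ℕ) : ℚ) := by rw [hM]
    push_cast at this
    exact this.symm
  obtain ⟨s, hs⟩ : ∃ s, r = s + 1 := ⟨r - 1, by omega⟩
  have hps : p ^ r = p ^ s * p := by rw [hs, pow_succ]
  have hps0 : 0 < p ^ s := pow_pos hp.out.pos s
  have u2 : U p (2 : ℚ) := by
    have := U_nat (p := p) (k := 2) (by omega) (by omega)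
    exact_mod_cast this
  rw [exact_formula]
  -- first part
  have A : I p (r + 4) ((2 * (M : ℚ) + 1) *
      ∏ l ∈ range M, (1 - (2 * (M : ℚ) + 1) ^ 2 / (4 * ((l : ℚ) + 1) ^ 2)) -
      (p : ℚ) ^ r * (1 - (p : ℚ) ^ 2 / 4 * HH m 2)) := by
    rw [hn]
    have hx : ∀ l ∈ range M, I p 2 (((p : ℚ) ^ r) ^ 2 / (4 * ((l : ℚ) + 1) ^ 2)) := by
      intro l hl
      have hl' := mem_range.1 hl
      have h1 := I_div (p := p) (a := 2 * (l + 1)) (r := r) (by omega) (by omega)
      have h2 := h1.mul h1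
      have e : (p : ℚ) ^ r / ((2 * (l + 1) : ℕ) : ℚ) * ((p : ℚ) ^ r / ((2 * (l + 1) : ℕ) : ℚ)) =
          ((p : ℚ) ^ r) ^ 2 / (4 * ((l : ℚ) + 1) ^ 2) := by
        have : (l : ℚ) + 1 ≠ 0 := by positivity
        push_cast
        field_simp
        ring
      rwa [e] at h2
    have h1 := prod_lin hx
    have h2 : I p 4 (∑ l ∈ range M, ((p : ℚ) ^ r) ^ 2 / (4 * ((l : ℚ) + 1) ^ 2) -
        (p : ℚ) ^ 2 / 4 * HH m 2) := by
      have hsub : (range m).image (fun i => p ^ s * (i + 1) - 1) ⊆ range M := by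
        intro l hl
        obtain ⟨i, hi, rfl⟩ := mem_image.1 hl
        have hi' := mem_range.1 hi
        rw [mem_range]
        have h3 : p ^ s * (2 * (i + 1)) < p ^ s * p := Nat.mul_lt_mul_of_pos_left (by omega) hps0
        have h4 : p ^ s * (2 * (i + 1)) = 2 * (p ^ s * (i + 1)) := by ring
        have h5 : 0 < p ^ s * (i + 1) := Nat.mul_pos hps0 (Nat.succ_pos i)
        omega
      rw [← sum_sdiff hsub, sum_image]
      · have h3 : ∑ i ∈ range m, ((p : ℚ) ^ r) ^ 2 / (4 * (((p ^ s * (i + 1) - 1 : ℕ) : ℚ) + 1) ^ 2) =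
            (p : ℚ) ^ 2 / 4 * HH m 2 := by
          rw [HH, mul_sum]
          refine sum_congr rfl fun i _ => ?_
          have h5 : 0 < p ^ s * (i + 1) := Nat.mul_pos hps0 (Nat.succ_pos i)
          have h6 : ((p ^ s * (i + 1) - 1 : ℕ) : ℚ) + 1 = (p : ℚ) ^ s * (i + 1) := by
            rw [Nat.cast_sub (by omega)]; push_cast; ring
          rw [h6, hs]
          have h7 : (i : ℚ) + 1 ≠ 0 := by positivity
          have h8 := p_ne (p := p)
          rw [pow_succ (p : ℚ) s]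
          field_simp
        rw [h3, add_sub_cancel_right]
        refine I.sum fun l hl => ?_
        obtain ⟨hl1, hl2⟩ := mem_sdiff.1 hl
        have hl' := mem_range.1 hl1
        have h4 : ¬ p ^ (r - 1) ∣ l + 1 := by
          rintro ⟨c, hc⟩
          apply hl2
          rw [mem_image]
          have hs1 : r - 1 = s := by omega
          rw [hs1] at hc
          have hc0 : 0 < c := Nat.pos_of_ne_zero fun h' => by rw [h', mul_zero] at hc; omega
          refine ⟨c - 1, ?_, ?_⟩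
          · rw [mem_range]
            have h5 : p ^ s * (2 * c) < p ^ s * p := by
              have : p ^ s * (2 * c) = 2 * (p ^ s * c) := by ring
              rw [this, ← hc, ← hps]
              omega
            have h6 := Nat.lt_of_mul_lt_mul_left h5
            omega
          · rw [show c - 1 + 1 = c by omega, ← hc]; omega
        have h5 := I_div2 (p := p) (a := l + 1) (r := r) (by omega) hr h4
        have h6 := (h5.mul h5).mulR (u2.pow 2).2.2
        have e : (p : ℚ) ^ r / ((l + 1 : ℕ) : ℚ) * ((p : ℚ) ^ r / ((l + 1 : ℕ) : ℚ)) * (2 ^ 2)⁻¹ =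
            ((p : ℚ) ^ r) ^ 2 / (4 * ((l : ℚ) + 1) ^ 2) := by
          have : (l : ℚ) + 1 ≠ 0 := by positivity
          push_cast
          field_simp
          ring
        rwa [e] at h6
      · intro i _ j _ hij
        have h5 : 0 < p ^ s * (i + 1) := Nat.mul_pos hps0 (Nat.succ_pos i)
        have h6 : 0 < p ^ s * (j + 1) := Nat.mul_pos hps0 (Nat.succ_pos j)
        have hij' : p ^ s * (i + 1) - 1 = p ^ s * (j + 1) - 1 := hij
        have h7 : p ^ s * (i + 1) = p ^ s * (j + 1) := by omega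
        have := Nat.eq_of_mul_eq_mul_left hps0 h7
        omega
    have h3 := (I_pow (p := p) r).mul (h1.sub h2)
    have e : (p : ℚ) ^ r * (∏ l ∈ range M, (1 - ((p : ℚ) ^ r) ^ 2 / (4 * ((l : ℚ) + 1) ^ 2)) -
        (1 - ∑ l ∈ range M, ((p : ℚ) ^ r) ^ 2 / (4 * ((l : ℚ) + 1) ^ 2)) -
        (∑ l ∈ range M, ((p : ℚ) ^ r) ^ 2 / (4 * ((l : ℚ) + 1) ^ 2) - (p : ℚ) ^ 2 / 4 * HH m 2)) =
        (p : ℚ) ^ r * ∏ l ∈ range M, (1 - ((p : ℚ) ^ r) ^ 2 / (4 * ((l : ℚ) + 1) ^ 2)) -
        (p : ℚ) ^ r * (1 - (p : ℚ) ^ 2 / 4 * HH m 2) := by ring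
    rwa [e] at h3
  -- second part
  have hchM : EQ p 1 (ch M ^ 4) 1 := by
    have h1 : M = kk p m r 0 := by
      have := kk_eq (p := p) hpm r 0
      rw [hM] at this
      omega
    have h2 := (kk_ch hpm hm r 0).pow 2
    rw [← h1, ← pow_mul, ← pow_mul, ch_zero, one_pow] at h2
    exact h2
  have B : I p (r + 4) (∑ j ∈ range M, (2 * (M : ℚ) + 1) ^ 4 * ch M ^ 4 / (ch j ^ 2 *
      (2 * j + 1) ^ 3) * EE (2 * M + 1) j - (p : ℚ) ^ (r + 3) * ZZ m) := by
    have hsub : (range m).image (fun i => kk p m s i) ⊆ range M := by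
      intro l hl
      obtain ⟨i, hi, rfl⟩ := mem_image.1 hl
      have hi' := mem_range.1 hi
      rw [mem_range]
      have h2 := kk_eq (p := p) hpm s i
      have h3 : p ^ s * (2 * i + 1) < p ^ s * p := Nat.mul_lt_mul_of_pos_left (by omega) hps0
      omega
    rw [← sum_sdiff hsub, sum_image]
    · rw [add_sub_assoc]
      refine I.add (I.sum fun j hj => ?_) ?_
      · obtain ⟨hj1, hj2⟩ := mem_sdiff.1 hj
        have hj' := mem_range.1 hj1
        have h4 : ¬ p ^ (r - 1) ∣ 2 * j + 1 := by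
          rintro ⟨c, hc⟩
          apply hj2
          rw [mem_image]
          have hs1 : r - 1 = s := by omega
          rw [hs1] at hc
          have hc1 : c % 2 = 1 := by
            rcases Nat.mod_two_eq_zero_or_one c with h | h
            · have : (p ^ s * c) % 2 = 0 := by rw [Nat.mul_mod, h, mul_zero, Nat.zero_mod]
              omega
            · exact h
          have h5 : p ^ s * c < p ^ s * p := by rw [← hc, ← hps]; omega
          have h6 := Nat.lt_of_mul_lt_mul_left h5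
          refine ⟨c / 2, by rw [mem_range]; omega, ?_⟩
          have h7 := kk_eq (p := p) hpm s (c / 2)
          have h8 : 2 * (c / 2) + 1 = c := by omega
          rw [h8, ← hc] at h7
          omega
        have i1 := I_chdiv (p := p) (k := j) (r := r) (by omega)
        have i2 := I_div2 (p := p) (a := 2 * j + 1) (r := r) (by omega) hr h4
        have i3 := ((I_pow (p := p) r).mul ((i1.mul i1).mul i2)).mulR
          (mul_mem hchM.1 (EE_one (p := p) hM (le_of_lt hj')).1)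
        have e : (p : ℚ) ^ r * ((p : ℚ) ^ r / ((2 * (j : ℚ) + 1) * ch j) *
            ((p : ℚ) ^ r / ((2 * (j : ℚ) + 1) * ch j)) * ((p : ℚ) ^ r / ((2 * j + 1 : ℕ) : ℚ))) *
            (ch M ^ 4 * EE (2 * (M : ℚ) + 1) j) =
            (2 * (M : ℚ) + 1) ^ 4 * ch M ^ 4 / (ch j ^ 2 * (2 * j + 1) ^ 3) * EE (2 * M + 1) j := by
          have h5 : 2 * (j : ℚ) + 1 ≠ 0 := by positivity
          have h6 := ch_ne j
          rw [← hn]
          push_cast
          field_simp
        rw [e] at i3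
        exact i3
      · rw [ZZ, mul_sum, ← sum_sub_distrib]
        refine I.sum fun i hi => ?_
        have hi' := mem_range.1 hi
        obtain ⟨j, hj⟩ : ∃ j, j = kk p m s i := ⟨_, rfl⟩
        have hj1 : j < M := by
          have := hsub (mem_image_of_mem _ hi)
          rw [← hj] at this
          exact mem_range.1 this
        have h1 := kk_eq (p := p) hpm s i
        have h2 := kk_ch hpm hm s i
        rw [← hj] at h1 h2 ⊢
        have uc := ch_U hpm (k := i) (by omega)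
        have u3 := U_nat (p := p) (k := 2 * i + 1) (by omega) (by omega)
        have e3 : ((2 * i + 1 : ℕ) : ℚ) = 2 * i + 1 := by push_cast; ring
        rw [e3] at u3
        have ucj : U p (ch j ^ 2) := h2.symm.unit one_pos (uc.pow 2)
        have h3 := (hchM.mul (EE_one (p := p) hM (le_of_lt hj1))).div one_pos
          (h2.mul (EQ.refl (k := 1) (u3.pow 3).2.1)) (ucj.mul (u3.pow 3))
        rw [one_mul] at h3
        have h4 := (I_pow (p := p) (r + 3)).mul h3.2.2
        have e : (p : ℚ) ^ (r + 3) * (ch M ^ 4 * EE (2 * (M : ℚ) + 1) j /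
            (ch j ^ 2 * (2 * (i : ℚ) + 1) ^ 3) - 1 / (ch i ^ 2 * (2 * (i : ℚ) + 1) ^ 3)) =
            (2 * (M : ℚ) + 1) ^ 4 * ch M ^ 4 / (ch j ^ 2 * (2 * j + 1) ^ 3) * EE (2 * M + 1) j -
            (p : ℚ) ^ (r + 3) * (1 / ((2 * (i : ℚ) + 1) ^ 3 * ch i ^ 2)) := by
          have h5 : (2 * (j : ℚ) + 1) = (p : ℚ) ^ s * (2 * i + 1) := by
            have : ((2 * j + 1 : ℕ) : ℚ) = ((p ^ s * (2 * i + 1) : ℕ) : ℚ) := by rw [h1]
            push_cast at this
            exact this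
          rw [h5, hn, hs]
          have h6 := ch_ne j
          have h7 := ch_ne i
          have h8 := u3.1
          have h9 := p_ne (p := p)
          generalize EE ((p : ℚ) ^ (s + 1)) j = y
          rw [show s + 1 + 3 = s + 4 by ring, pow_succ (p : ℚ) s, pow_add (p : ℚ) s 4]
          field_simp
        rw [e] at h4
        exact h4
    · intro i _ j _ hij
      have h5 := kk_eq (p := p) hpm s i
      have h6 := kk_eq (p := p) hpm s j
      have hij' : kk p m s i = kk p m s j := hij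
      rw [hij', h6] at h5
      have := Nat.eq_of_mul_eq_mul_left hps0 h5
      omega
  have := A.add B
  convert this using 1
  ring

/-- **the main congruence** -/
theorem S_main (hpm : p = 2 * m + 1) (h3 : 3 < p) {r M : ℕ} (hr : 0 < r)
    (hM : p ^ r = 2 * M + 1) :
    I p (r + 4) (∑ k ∈ range (M + 1), (4 * (k : ℚ) + 1) * ch k ^ 4 -
      ((p : ℚ) ^ r + 7 / 6 * bernoulli (p - 3) * (p : ℚ) ^ (r + 3))) := by
  have h1 := S_eq hpm (by omega) hr hM
  have h2 := (I_pow (p := p) (r + 2)).mul (H2_eq hpm)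
  have h4 := (I_pow (p := p) (r + 3)).mul (Z_eq hpm)
  have h5 := (I_pow (p := p) (r + 3)).mul (H3_eq hpm h3)
  have n24 : (24 : ℚ) ∈ Zp p := by exact_mod_cast nat_mem (p := p) 24
  have n14 : (14 : ℚ) ∈ Zp p := by exact_mod_cast nat_mem (p := p) 14
  have h6 := (((h1.mulL n24).sub h2).add (h4.mulL (n3 (p := p)))).sub (h5.mulL n14)
  have u24 : U p (24 : ℚ) := by
    have a := U_nat (p := p) (k := 2) (by omega) (by omega)
    have b := U_nat (p := p) (k := 3) (by omega) (by omega)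
    have := (a.pow 3).mul b
    norm_num at this
    exact this
  refine u24.cancel ?_
  convert h6 using 1
  rw [pow_add, pow_add]
  ring

end Pool.Agent.R439.PL.S4
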