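import Mathlib
import Pool.Agent.R439.S4F

set_option autoImplicit false

/-!
The congruence in terms of reduced denominators.
-/

namespace Pool.Agent.R439.PL.S4

open Finset Pool.Agent.R439.S4

variable {p : ℕ} [hp : Fact p.Prime]

theorem exists_of_I {k : ℕ} {x : ℚ} (h : I p k x) : ∃ t : ℚ, x = (p : ℚ) ^ k * t ∧ ¬ p ∣ t.den := by
  refine ⟨x / (p : ℚ) ^ k, ?_, den_of_I h⟩
  have : (p : ℚ) ^ k ≠ 0 := pow_ne_zero _ p_ne
  field_simp

theorem I_of_den {k : ℕ} {x t : ℚ} (h : x = (p : ℚ) ^ k * t) (ht : ¬ p ∣ t.den) : I p k x := by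
  refine ⟨t, ⟨t.num, (t.den : ℤ), fun h' => ht (by exact_mod_cast h'), ?_⟩, h⟩
  have := Rat.num_div_den t
  push_cast
  exact this.symm

/-- the congruence for every prime `p > 3` and every `r ≥ 1` -/
theorem S_final {r : ℕ} (h3 : 3 < p) (hr : 0 < r) :
    I p (r + 4) (∑ k ∈ range ((p ^ r - 1) / 2 + 1), (4 * (k : ℚ) + 1) * ch k ^ 4 -
      ((p : ℚ) ^ r + 7 / 6 * bernoulli (p - 3) * (p : ℚ) ^ (r + 3))) := by
  have hodd : Odd p := hp.out.odd_of_ne_two (by omega)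
  obtain ⟨m, hm⟩ := hodd
  obtain ⟨M, hM⟩ := (hp.out.odd_of_ne_two (by omega : p ≠ 2)).pow (n := r)
  have h1 : (p ^ r - 1) / 2 + 1 = M + 1 := by omega
  rw [h1]
  exact S_main hm h3 hr hM

end Pool.Agent.R439.PL.S4
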