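import Mathlib
import Pool.Agent.R439.S4F

set_option autoImplicit false

/-!
The sums `∑ (-1)^k (4k-1) (-1/2)_k^3/k!^3`.
-/

namespace Pool.Agent.R439.PL.S5

open Finset Pool.Agent.R439.S4 Pool.Agent.R439.PL.S4

/-- `(-1/2)_k` -/
def nh (k : ℕ) : ℚ := ∏ i ∈ range k, ((i : ℚ) - 1 / 2)

theorem nh_succ (k : ℕ) : nh (k + 1) = nh k * ((k : ℚ) - 1 / 2) := prod_range_succ _ _

theorem nh_hf (k : ℕ) : nh (k + 1) = -(1 / 2) * hf k := by
  induction k with
  | zero => rw [nh_succ]; simp [nh, hf]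
  | succ k ih => rw [nh_succ, ih, hf_succ]; push_cast; ring

theorem nh_ne (k : ℕ) : nh k ≠ 0 := by
  cases k with
  | zero => simp [nh]
  | succ k => rw [nh_hf]; exact mul_ne_zero (by norm_num) (hf_ne k)

/-- the summand without the polynomial factor -/
def tt (k : ℕ) : ℚ := (-1) ^ k * (nh k / k.factorial) ^ 3

def FF (n k : ℕ) : ℚ := (-1) ^ (n + k) * (4 * n - 1) * (nh n / n.factorial) ^ 2 * nh (n + k) *
  gi ((n : ℤ) - k) / nh k ^ 2

def GG (n j : ℕ) : ℚ := 2 * (-1) ^ (n + j + 1) * ((n : ℚ) * (nh n / n.factorial)) ^ 2 * nh (n + j) *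
  gi ((n : ℤ) - j - 1) / nh (j + 1) ^ 2

theorem wz (n j : ℕ) : FF n j - FF n (j + 1) = GG (n + 1) j - GG n j := by
  have e1 : ((n : ℤ) - ((j + 1 : ℕ) : ℤ)) = (n : ℤ) - j - 1 := by push_cast; ring
  have e2 : (((n + 1 : ℕ) : ℤ) - j - 1) = (n : ℤ) - j := by push_cast; ring
  have e3 := gi_rec ((n : ℤ) - j)
  rw [FF, FF, GG, GG, e1, e2, e3, show n + 1 + j = n + j + 1 by ring,
    show n + (j + 1) = n + j + 1 by ring, nh_succ (n + j), nh_succ j, nh_succ n,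
    Nat.factorial_succ, pow_succ (-1 : ℚ) (n + j + 1), pow_succ (-1 : ℚ) (n + j)]
  have hz := nh_ne j
  have hz' : (j : ℚ) - 1 / 2 ≠ 0 := by
    have := nh_ne (j + 1)
    rw [nh_succ] at this
    exact right_ne_zero_of_mul this
  have hf1 : (n.factorial : ℚ) ≠ 0 := by positivity
  have hn : (n : ℚ) + 1 ≠ 0 := by positivity
  push_cast
  generalize gi ((n : ℤ) - j) = x
  generalize nh (n + j) = y
  generalize nh j = z at hz
  generalize nh n = w
  generalize (n.factorial : ℚ) = f at hf1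
  generalize (-1 : ℚ) ^ (n + j) = s
  obtain ⟨u, hu⟩ : ∃ u : ℚ, u = (j : ℚ) - 1 / 2 := ⟨_, rfl⟩
  have h5 : (j : ℚ) = u + 1 / 2 := by rw [hu]; ring
  rw [← hu] at hz' ⊢
  rw [h5]
  field_simp
  ring

theorem FF_zero (n : ℕ) : FF n 0 = (4 * n - 1) * tt n := by
  have h0 : nh 0 = 1 := by simp [nh]
  have h1 : ((n : ℤ) - ((0 : ℕ) : ℤ)) = (n : ℕ) := by simp
  rw [FF, h0, h1, gi_nat, add_zero, tt]
  ring

theorem sum_eq (N K : ℕ) : ∑ n ∈ range N, (4 * (n : ℚ) - 1) * tt n =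
    ∑ n ∈ range N, FF n K + ∑ j ∈ range K, GG N j := by
  induction K with
  | zero =>
    rw [range_zero, sum_empty, add_zero]
    exact sum_congr rfl fun n _ => (FF_zero n).symm
  | succ K ih =>
    have h2 : ∑ n ∈ range N, FF n K - ∑ n ∈ range N, FF n (K + 1) = GG N K := by
      rw [← sum_sub_distrib]
      have h3 : ∀ n ∈ range N, FF n K - FF n (K + 1) = GG (n + 1) K - GG n K := fun n _ => wz n K
      rw [sum_congr rfl h3, sum_range_sub (fun n => GG n K)]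
      have h4 : GG 0 K = 0 := by rw [GG]; simp
      rw [h4, sub_zero]
    rw [sum_range_succ, ih]
    linear_combination h2

/-! ### The boundary terms -/

def YY (N j : ℕ) : ℚ := hf (N + j) * gi ((N : ℤ) - j) / hf j ^ 2

theorem GG_YY (N j : ℕ) : GG (N + 1) j = (-1) ^ (N + 1 + j) * ch N ^ 2 * YY N j := by
  have e1 : (((N + 1 : ℕ) : ℤ) - j - 1) = (N : ℤ) - j := by push_cast; ring
  rw [GG, YY, e1, show N + 1 + j = N + j + 1 by ring, nh_hf (N + j), nh_hf j, nh_hf N, ch_hf,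
    Nat.factorial_succ, pow_succ (-1 : ℚ) (N + j + 1)]
  have h1 := hf_ne j
  have h2 : (N.factorial : ℚ) ≠ 0 := by positivity
  have h3 : (N : ℚ) + 1 ≠ 0 := by positivity
  push_cast
  field_simp

theorem YY_eq (N j : ℕ) : YY N j = ch N * ((-1) ^ (j + 1) / ((2 * (j : ℚ) - 1) * ch j)) *
    ∏ l ∈ range j, (-2 * ((N : ℚ) + l + 1 / 2) * (N - l) / ((2 * (l : ℚ) - 1) * (l + 1))) := by
  induction j with
  | zero =>
    have h0 : hf 0 = 1 := by simp [hf]
    have h1 : ((N : ℤ) - ((0 : ℕ) : ℤ)) = (N : ℕ) := by simp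
    rw [YY, h1, gi_nat, h0, add_zero, ch_zero, ch_hf]
    simp [div_eq_mul_inv]
  | succ j ih =>
    have h1 : ((N : ℤ) - ((j + 1 : ℕ) : ℤ)) = ((N : ℤ) - j) - 1 := by push_cast; ring
    have h2 : YY N (j + 1) = YY N j * ((N + j + 1 / 2) * (N - j) / (j + 1 / 2) ^ 2) := by
      rw [YY, YY, h1, gi_rec, ← add_assoc, hf_succ, hf_succ]
      have h3 := hf_ne j
      have h4 : (j : ℚ) + 1 / 2 ≠ 0 := by positivity
      push_cast
      generalize (j : ℚ) + 1 / 2 = u at h4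
      field_simp
    rw [h2, ih, prod_range_succ, ch_succ, pow_succ (-1 : ℚ) (j + 1)]
    have h3 : (2 * (j : ℚ) - 1) ≠ 0 := by
      intro h
      have h' : ((2 * j : ℕ) : ℚ) = ((1 : ℕ) : ℚ) := by push_cast; linear_combination h
      have : 2 * j = 1 := by exact_mod_cast h'
      omega
    have h4 : (2 * (j : ℚ) + 1) ≠ 0 := by positivity
    have h5 : (j : ℚ) + 1 ≠ 0 := by positivity
    have h6 := ch_ne j
    have h7 : 2 * (((j + 1 : ℕ) : ℚ)) - 1 = 2 * j + 1 := by push_cast; ring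
    have h8 : 2 * (j : ℚ) + 2 = 2 * (j + 1) := by ring
    have h9 : (j : ℚ) + 1 / 2 = (2 * j + 1) / 2 := by ring
    rw [h7, h8, h9]
    generalize ∏ l ∈ range j, (-2 * ((N : ℚ) + l + 1 / 2) * (N - l) / ((2 * (l : ℚ) - 1) * (l + 1))) = A
    field_simp

variable {p : ℕ} [hp : Fact p.Prime]

theorem n4 : (4 : ℚ) ∈ Zp p := by exact_mod_cast nat_mem (p := p) 4

theorem U_2 (hp2 : p ≠ 2) : U p (2 : ℚ) := by
  have h2 : U p ((2 : ℕ) : ℚ) := U_nat' (fun h => hp2 ((Nat.prime_dvd_prime_iff_eq hp.out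
    Nat.prime_two).1 h))
  exact_mod_cast h2

/-- `P/(2l-1)` is divisible by `p` -/
theorem I_odd {r l : ℕ} (hr : 0 < r) (h : 2 * l < p ^ r + 1) (hl : l ≠ 0 ∨ True) :
    I p 1 ((p : ℚ) ^ r / (2 * (l : ℚ) - 1)) := by
  rcases Nat.eq_zero_or_pos l with h0 | h0
  · subst h0
    have h1 := (I_pow (p := p) r).neg.mono (by omega : 1 ≤ r)
    have e : (p : ℚ) ^ r / (2 * ((0 : ℕ) : ℚ) - 1) = -(p : ℚ) ^ r := by
      push_cast; ring
    rw [e]; exact h1
  · have h1 := I_div (p := p) (a := 2 * l - 1) (r := r) (by omega) (by omega)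
    have e : ((2 * l - 1 : ℕ) : ℚ) = 2 * l - 1 := by
      rw [Nat.cast_sub (by omega)]; push_cast; ring
    rwa [e] at h1

/-- the main data: `P = p^r = 2m+1` -/
structure Dat (p r m : ℕ) : Prop where
  hp2 : p ≠ 2
  hr : 0 < r
  hm : 0 < m
  hP : p ^ r = 2 * m + 1

variable {r m : ℕ}

theorem Dat.cast (D : Dat p r m) : (p : ℚ) ^ r = 2 * m + 1 := by
  have := D.hP
  exact_mod_cast this

theorem Dat.ch_m (D : Dat p r m) : U p (ch m) := by
  obtain ⟨m1, hm1⟩ := hp.out.odd_of_ne_two D.hp2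
  have h0 : 0 < m1 := by
    rcases Nat.eq_zero_or_pos m1 with h | h
    · exfalso
      have := hp.out.one_lt
      omega
    · exact h
  have h1 : m = kk p m1 r 0 := by
    have := kk_eq (p := p) hm1 r 0
    rw [D.hP] at this
    omega
  have h2 := kk_ch hm1 h0 r 0
  rw [← h1, ch_zero, one_pow] at h2
  have h3 := h2.symm.unit one_pos U.one
  refine ⟨ch_ne m, ch_mem D.hp2 m, ?_⟩
  have : (ch m)⁻¹ = (ch m ^ 2)⁻¹ * ch m := by
    have := ch_ne m
    field_simp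
  rw [this]
  exact mul_mem h3.2.2 (ch_mem D.hp2 m)

theorem Dat.U_P1 (D : Dat p r m) : U p ((p : ℚ) ^ r + 1) := by
  have h1 : ¬ p ∣ p ^ r + 1 := by
    intro h
    have h2 : p ∣ p ^ r := dvd_pow_self p (by have := D.hr; omega)
    have h3 := (Nat.dvd_add_right h2).1 h
    exact hp.out.one_lt.ne' (Nat.dvd_one.1 h3)
  have := U_nat' h1
  push_cast at this
  exact this

theorem Dat.U_2P1 (D : Dat p r m) : U p (2 * (p : ℚ) ^ r - 1) := by
  have h0 : 0 < p ^ r := pow_pos hp.out.pos r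
  have h1 : ¬ p ∣ 2 * p ^ r - 1 := by
    intro h
    have h2 : p ∣ 2 * p ^ r := (dvd_pow_self p (by have := D.hr; omega)).mul_left 2
    have h3 : 2 * p ^ r = (2 * p ^ r - 1) + 1 := by omega
    rw [h3] at h2
    have h4 := (Nat.dvd_add_right h).1 h2
    exact hp.out.one_lt.ne' (Nat.dvd_one.1 h4)
  have h2 := U_nat' h1
  have e : ((2 * p ^ r - 1 : ℕ) : ℚ) = 2 * (p : ℚ) ^ r - 1 := by
    rw [Nat.cast_sub (by omega)]; push_cast; ring
  rwa [e] at h2

/-- `ch` at the two truncation points -/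
theorem Dat.ch_A (D : Dat p r m) : I p r (ch (m + 1)) := by
  have h1 : ch (m + 1) = (p : ℚ) ^ r * (ch m * ((p : ℚ) ^ r + 1)⁻¹) := by
    rw [ch_succ, D.cast]
    have : (2 * (m : ℚ) + 1 + 1) ≠ 0 := by positivity
    have e : 2 * (m : ℚ) + 2 = 2 * m + 1 + 1 := by ring
    rw [e]
    field_simp
  rw [h1]
  exact (I_pow r).mulR (mul_mem D.ch_m.2.1 D.U_P1.2.2)

theorem Dat.ch_B (D : Dat p r m) : I p r (ch (2 * m)) := by
  have h1 := ch_succ (2 * m)
  have h2 : ch (2 * m) = (p : ℚ) ^ r * (2 * ch (2 * m + 1) * (2 * (p : ℚ) ^ r - 1)⁻¹) := by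
    rw [h1, D.cast]
    have h3 : 2 * (2 * (m : ℚ) + 1) - 1 ≠ 0 := by
      have := D.U_2P1.1
      rwa [D.cast] at this
    have h4 : (4 * (m : ℚ) + 2) ≠ 0 := by positivity
    push_cast
    have e : 2 * (2 * (m : ℚ)) + 2 = 4 * m + 2 := by ring
    rw [e]
    field_simp
    ring
  rw [h2]
  exact (I_pow r).mulR (mul_mem (mul_mem n2 (ch_mem D.hp2 _)) D.U_2P1.2.2)

theorem Dat.I_Pch (D : Dat p r m) {j : ℕ} (hj : j ≤ m) : I p 1 ((p : ℚ) ^ r / ch j) := by
  rcases Nat.lt_or_ge j m with h | h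
  · have hP := D.hP
    have h1 := I_chdiv (p := p) (k := j) (r := r) (by omega)
    have h2 := h1.mulL (x := (2 * (j : ℚ) + 1)) (add_mem (mul_mem n2 (nat_mem j)) (one_mem _))
    have e : (2 * (j : ℚ) + 1) * ((p : ℚ) ^ r / ((2 * (j : ℚ) + 1) * ch j)) = (p : ℚ) ^ r / ch j := by
      have h3 := ch_ne j
      have h4 : (2 * (j : ℚ) + 1) ≠ 0 := by positivity
      field_simp
    rwa [e] at h2
  · have e : j = m := by omega
    subst e
    rw [div_eq_mul_inv]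
    exact ((I_pow r).mono D.hr).mulR D.ch_m.2.2

/-- the boundary terms are small -/
theorem Dat.GG_small (D : Dat p r m) {N j : ℕ} (hj : j ≤ m) (hN : N = m + 1 ∨ N = 2 * m) :
    I p (r + 2) (GG (N + 1) j) := by
  have hP := D.hP
  have hch : I p r (ch N) := by
    rcases hN with h | h
    · rw [h]; exact D.ch_A
    · rw [h]; exact D.ch_B
  have hprod : ∏ l ∈ range j, (-2 * ((N : ℚ) + l + 1 / 2) * (N - l) / ((2 * (l : ℚ) - 1) * (l + 1)))
      ∈ Zp p := by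
    refine prod_mem fun l hl => ?_
    have hl' := mem_range.1 hl
    have i1 : (p : ℚ) ^ r / (2 * (l : ℚ) - 1) ∈ Zp p :=
      (I_odd D.hr (by omega) (Or.inr trivial)).mem
    have i2 : (p : ℚ) ^ r / ((l : ℚ) + 1) ∈ Zp p := by
      have := (I_div (p := p) (a := l + 1) (r := r) (by omega) (by omega)).mem
      push_cast at this
      exact this
    have h3 : (2 * (l : ℚ) - 1) ≠ 0 := by
      intro h
      have h' : ((2 * l : ℕ) : ℚ) = ((1 : ℕ) : ℚ) := by push_cast; linear_combination h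
      have : 2 * l = 1 := by exact_mod_cast h'
      omega
    have h4 : (l : ℚ) + 1 ≠ 0 := by positivity
    have i3 : (2 : ℚ)⁻¹ ∈ Zp p := (U_2 D.hp2).2.2
    rcases hN with h | h
    · have e : -2 * ((N : ℚ) + l + 1 / 2) * (N - l) / ((2 * (l : ℚ) - 1) * (l + 1)) =
          (1 + (p : ℚ) ^ r / ((l : ℚ) + 1) * 2⁻¹) * (1 - (p : ℚ) ^ r / (2 * (l : ℚ) - 1)) := by
        rw [h, D.cast]
        push_cast
        field_simp
        ring
      rw [e]
      exact mul_mem (add_mem (one_mem _) (mul_mem i2 i3)) (sub_mem (one_mem _) i1)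
    · have e : -2 * ((N : ℚ) + l + 1 / 2) * (N - l) / ((2 * (l : ℚ) - 1) * (l + 1)) =
          (1 + 2 * ((p : ℚ) ^ r / (2 * (l : ℚ) - 1))) * (1 - (p : ℚ) ^ r / ((l : ℚ) + 1)) := by
        rw [h, D.cast]
        push_cast
        field_simp
        ring
      rw [e]
      exact mul_mem (add_mem (one_mem _) (mul_mem n2 i1)) (sub_mem (one_mem _) i2)
  obtain ⟨c, hc, hcN⟩ := hch
  have i4 := ((I_pow (p := p) r).mul (I_odd (l := j) D.hr (by omega) (Or.inr trivial))).mul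
    (D.I_Pch hj)
  rw [GG_YY, YY_eq]
  have e : (-1) ^ (N + 1 + j) * ch N ^ 2 * (ch N * ((-1) ^ (j + 1) / ((2 * (j : ℚ) - 1) * ch j)) *
    ∏ l ∈ range j, (-2 * ((N : ℚ) + l + 1 / 2) * (N - l) / ((2 * (l : ℚ) - 1) * (l + 1)))) =
    (p : ℚ) ^ r * ((p : ℚ) ^ r / (2 * (j : ℚ) - 1)) * ((p : ℚ) ^ r / ch j) *
      ((-1) ^ (N + 1 + j) * (-1) ^ (j + 1) * c ^ 3 *
      ∏ l ∈ range j, (-2 * ((N : ℚ) + l + 1 / 2) * (N - l) / ((2 * (l : ℚ) - 1) * (l + 1)))) := by
    rw [hcN]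
    generalize ∏ l ∈ range j, (-2 * ((N : ℚ) + l + 1 / 2) * (N - l) /
      ((2 * (l : ℚ) - 1) * (l + 1))) = A
    generalize (2 * (j : ℚ) - 1) = u
    ring
  rw [e]
  refine i4.mulR (mul_mem (mul_mem (mul_mem (pow_mem (neg_mem (one_mem _)) _)
    (pow_mem (neg_mem (one_mem _)) _)) (pow_mem hc 3)) hprod)

end Pool.Agent.R439.PL.S5
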