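import Mathlib
import Pool.Agent.R439.S5A

set_option autoImplicit false

/-!
The sums `∑ (-1)^k (4k-1)^M (-1/2)_k^3/k!^3`, `M` odd.
-/

namespace Pool.Agent.R439.PL.S5

open Finset Pool.Agent.R439.S4 Pool.Agent.R439.PL.S4

variable {p r m : ℕ} [hp : Fact p.Prime]

/-- `P/(i(2i+1) C(2i,i))` is divisible by `p` -/
theorem I_cat {i : ℕ} (hi : 0 < i) (h : 2 * i + 1 < p ^ r) :
    I p 1 ((p : ℚ) ^ r / ((i : ℚ) * (2 * i + 1) * ch i)) := by
  have h0 : (i : ℚ) ≠ 0 := by positivity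
  have h1 := I_chdiv h
  have h2 : I p 1 ((p : ℚ) ^ r / ((i : ℚ) * ch i)) := by
    have h3 : 1 / ((i : ℚ) * ch i) =
        4 ^ i * ∑ j ∈ range (i + 1), (-1) ^ j * (i.choose j : ℚ) / ((i : ℚ) + j) := by
      rw [beta i (i : ℚ) (by positivity)]
      obtain ⟨k, rfl⟩ : ∃ k, i = k + 1 := ⟨i - 1, by omega⟩
      have h4 : ∀ l : ℕ, (k.factorial : ℚ) * ∏ j ∈ range l, (((k + 1 : ℕ) : ℚ) + j) =
          (k + l).factorial := by
        intro l
        induction l with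
        | zero => simp
        | succ l ih =>
          rw [prod_range_succ, ← mul_assoc, ih, ← add_assoc, Nat.factorial_succ]
          push_cast; ring
      have h5 := h4 (k + 1 + 1)
      have h6 := hf_fac (k + 1)
      rw [show 2 * (k + 1) = k + (k + 1 + 1) by ring, ← h5] at h6
      have h7 : ∏ j ∈ range (k + 1 + 1), (((k + 1 : ℕ) : ℚ) + j) ≠ 0 :=
        prod_ne_zero_iff.2 fun j _ => by positivity
      have h8 : (k.factorial : ℚ) ≠ 0 := by positivity
      have h9 := hf_ne (k + 1)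
      rw [ch_hf]
      rw [Nat.factorial_succ] at h6 ⊢
      generalize ∏ j ∈ range (k + 1 + 1), (((k + 1 : ℕ) : ℚ) + j) = A at *
      have h10 : (k : ℚ) + 1 ≠ 0 := by positivity
      push_cast at h6 ⊢
      field_simp
      apply mul_left_cancel₀ h8
      linear_combination (-1) * h6
    rw [← mul_one_div, h3, mul_sum, mul_sum]
    refine I.sum fun j hj => ?_
    have hj' := mem_range.1 hj
    have h1 := I_div (p := p) (a := i + j) (r := r) (by omega) (by omega)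
    have h2 : (p : ℚ) ^ r * (4 ^ i * ((-1) ^ j * (i.choose j : ℚ) / ((i : ℚ) + j))) =
        (4 ^ i * ((-1) ^ j * (i.choose j : ℚ))) * ((p : ℚ) ^ r / ((i + j : ℕ) : ℚ)) := by
      push_cast
      ring
    rw [h2]
    exact h1.mulL (mul_mem (pow_mem n4 _) (mul_mem (pow_mem (neg_mem (one_mem _)) _) (nat_mem _)))
  have h3 := h2.sub (h1.mulL (n2 (p := p)))
  have e : (p : ℚ) ^ r / ((i : ℚ) * ch i) - 2 * ((p : ℚ) ^ r / ((2 * (i : ℚ) + 1) * ch i)) =
      (p : ℚ) ^ r / ((i : ℚ) * (2 * i + 1) * ch i) := by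
    have h4 := ch_ne i
    have h5 : (2 * (i : ℚ) + 1) ≠ 0 := by positivity
    field_simp
    ring
  rwa [e] at h3

/-- the numbers `ch(m+i)/(m+1+i)` -/
theorem RR_eq (D : Dat p r m) (i : ℕ) : ch (m + (i + 1)) / ((m : ℚ) + 2 + i) *
    ∏ l ∈ range (i + 2), (1 + (p : ℚ) ^ r / (2 * l + 1)) =
    (p : ℚ) ^ r / (((i + 1 : ℕ) : ℚ) * (2 * ((i + 1 : ℕ) : ℚ) + 1) * ch (i + 1)) * (ch m *
      ∏ l ∈ range i, (1 + (p : ℚ) ^ r / (2 * l + 2))) := by
  rw [D.cast]
  induction i with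
  | zero =>
    rw [← add_assoc, add_zero, ch_succ, prod_range_succ, prod_range_succ, ch_succ, ch_zero]
    have h1 : (m : ℚ) + 2 ≠ 0 := by positivity
    have h2 : (2 * (m : ℚ) + 2) ≠ 0 := by positivity
    simp only [range_zero, prod_empty]
    push_cast
    field_simp
    ring
  | succ i ih =>
    have e1 : m + (i + 1 + 1) = (m + (i + 1)) + 1 := by ring
    rw [e1, ch_succ (m + (i + 1)), prod_range_succ _ (i + 2), prod_range_succ _ i, ch_succ (i + 1)]
    have h1 : (m : ℚ) + 2 + i ≠ 0 := by positivity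
    have h2 : (m : ℚ) + 3 + i ≠ 0 := by positivity
    have h3 := ch_ne (i + 1)
    have h4 : (i : ℚ) + 1 ≠ 0 := by positivity
    have h5 : 2 * (i : ℚ) + 3 ≠ 0 := by positivity
    have h6 : 2 * (i : ℚ) + 5 ≠ 0 := by positivity
    have h7 : (i : ℚ) + 2 ≠ 0 := by positivity
    have a1 : 2 * (((m + (i + 1) : ℕ) : ℚ)) + 2 = 2 * (m + 2 + i) := by push_cast; ring
    have a2 : (m : ℚ) + 2 + ((i + 1 : ℕ) : ℚ) = m + 3 + i := by push_cast; ring
    have a3 : 2 * ((i + 2 : ℕ) : ℚ) + 1 = 2 * i + 5 := by push_cast; ring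
    have a4 : ((i + 1 + 1 : ℕ) : ℚ) = i + 2 := by push_cast; ring
    have a5 : 2 * ((i : ℚ) + 2) + 1 = 2 * i + 5 := by ring
    have a6 : 2 * ((i + 1 : ℕ) : ℚ) + 2 = 2 * (i + 2) := by push_cast; ring
    have a7 : 2 * ((i + 1 : ℕ) : ℚ) + 1 = 2 * i + 3 := by push_cast; ring
    have a8 : 2 * (i : ℚ) + 2 = 2 * (i + 1) := by ring
    have a9 : ((i + 1 : ℕ) : ℚ) = i + 1 := by push_cast; ring
    rw [a7, a9] at ih
    rw [a1, a2, a3, a4, a6, a7, a8]
    generalize ∏ l ∈ range (i + 2), (1 + (2 * (m : ℚ) + 1) / (2 * (l : ℚ) + 1)) = A at *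
    generalize ∏ l ∈ range i, (1 + (2 * (m : ℚ) + 1) / (2 * (l : ℚ) + 2)) = B at *
    generalize ch (m + (i + 1)) = c at *
    generalize ch (i + 1) = d at *
    have h8 : c * A = (2 * (m : ℚ) + 1) / ((i + 1) * (2 * i + 3) * d) * (ch m * B) * (m + 2 + i) := by
      rw [← ih]; field_simp
    have h9 : c / (m + 3 + i) * ((2 * ((m + (i + 1) : ℕ) : ℚ) + 1) / (2 * (m + 2 + i))) *
        (A * (1 + (2 * (m : ℚ) + 1) / (2 * i + 5))) = (c * A) / (m + 3 + i) *
        ((2 * ((m + (i + 1) : ℕ) : ℚ) + 1) / (2 * (m + 2 + i))) *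
        (1 + (2 * (m : ℚ) + 1) / (2 * i + 5)) := by ring
    have h10 : c * ((2 * ((m + (i + 1) : ℕ) : ℚ) + 1) / (2 * (m + 2 + i))) / (m + 3 + i) *
        (A * (1 + (2 * (m : ℚ) + 1) / (2 * i + 5))) = (c * A) / (m + 3 + i) *
        ((2 * ((m + (i + 1) : ℕ) : ℚ) + 1) / (2 * (m + 2 + i))) *
        (1 + (2 * (m : ℚ) + 1) / (2 * i + 5)) := by ring
    rw [h10, h8]
    push_cast
    field_simp
    ring

theorem RR_I (D : Dat p r m) {i : ℕ} (hi : i + 1 < m) :
    I p 1 (ch (m + (i + 1)) / ((m : ℚ) + 2 + i)) := by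
  have hP := D.hP
  have h1 := RR_eq D i
  have hu : U p (∏ l ∈ range (i + 2), (1 + (p : ℚ) ^ r / (2 * l + 1))) := by
    refine U.prod fun l hl => ?_
    have hl' := mem_range.1 hl
    have h2 := I_div (p := p) (a := 2 * l + 1) (r := r) (by omega) (by omega)
    push_cast at h2
    have h3 := (EQ.refl (k := 1) (one_mem (Zp p))).add (EQ.of_I h2)
    rw [add_zero] at h3
    exact h3.symm.unit one_pos U.one
  have hv : ∏ l ∈ range i, (1 + (p : ℚ) ^ r / (2 * l + 2)) ∈ Zp p := by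
    refine prod_mem fun l hl => ?_
    have hl' := mem_range.1 hl
    have h2 := I_div (p := p) (a := 2 * l + 2) (r := r) (by omega) (by omega)
    push_cast at h2
    exact add_mem (one_mem _) h2.mem
  have h2 := (I_cat (p := p) (r := r) (i := i + 1) (by omega) (by omega)).mulR
    (mul_mem D.ch_m.2.1 hv)
  rw [← h1, mul_comm] at h2
  exact hu.cancel h2

/-- `hf (2m+1)` -/
theorem hf_top (m : ℕ) : hf (2 * m + 1) = (-1) ^ m * ((m.factorial : ℚ) ^ 2 / 2) *
    ((2 * (m : ℚ) + 1) * ∏ l ∈ range m, (1 - (2 * (m : ℚ) + 1) ^ 2 / (4 * ((l : ℚ) + 1) ^ 2))) := by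
  rw [← GG_top, S4.GG]
  have e1 : (((m + 1 : ℕ) : ℤ) - m - 1) = ((0 : ℕ) : ℤ) := by push_cast; ring
  have e2 : m + 1 + m = 2 * m + 1 := by ring
  rw [e1, gi_nat, e2, ch_hf (m + 1), Nat.factorial_succ]
  have h1 := hf_ne (m + 1)
  have h2 : (m.factorial : ℚ) ≠ 0 := by positivity
  have h3 : (m : ℚ) + 1 ≠ 0 := by positivity
  have h4 : ((-1 : ℚ) ^ m) * (-1) ^ m = 1 := by rw [← mul_pow]; norm_num
  push_cast
  simp only [Nat.factorial_zero, Nat.cast_one]
  generalize hf (2 * m + 1) = x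
  generalize (-1 : ℚ) ^ m = s at *
  field_simp
  linear_combination (-x) * h4

/-- the terms with `n > m` -/
theorem FF_i (m i : ℕ) : FF (m + 1 + i) (m + 1) = (-1) ^ i * (4 * ((m : ℚ) + 1 + i) - 1) *
    (1 / 4 * (ch (m + i) / ((m : ℚ) + 1 + i)) ^ 2) * (-2 * (hf (2 * m + 1 + i) /
      (i.factorial * hf m ^ 2))) := by
  have e1 : (((m + 1 + i : ℕ) : ℤ) - ((m + 1 : ℕ) : ℤ)) = (i : ℕ) := by push_cast; ring
  have e2 : m + 1 + i + (m + 1) = (2 * m + 1 + i) + 1 := by ring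
  have e3 : m + 1 + i = (m + i) + 1 := by ring
  have e4 : (-1 : ℚ) ^ (2 * m + 1 + i + 1) = (-1) ^ i := by
    have : 2 * m + 1 + i + 1 = 2 * (m + 1) + i := by ring
    rw [this, pow_add, pow_mul]; norm_num
  rw [FF, e1, gi_nat, e2, e4, nh_hf, nh_hf, e3, nh_hf, ch_hf, Nat.factorial_succ]
  have h1 := hf_ne m
  have h2 : ((m + i).factorial : ℚ) ≠ 0 := by positivity
  have h3 : (m : ℚ) + i + 1 ≠ 0 := by positivity
  have h4 : (i.factorial : ℚ) ≠ 0 := by positivity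
  have h5 : (m : ℚ) + 1 + i = m + i + 1 := by ring
  push_cast
  rw [h5]
  field_simp
  ring

theorem XX_eq (D : Dat p r m) (i : ℕ) : hf (2 * m + 1 + i) / (i.factorial * hf m ^ 2) =
    hf (2 * m + 1) / hf m ^ 2 * (ch i * ∏ l ∈ range i, (1 + 2 * ((p : ℚ) ^ r / (2 * l + 1)))) := by
  rw [D.cast]
  induction i with
  | zero => simp [ch_zero]
  | succ i ih =>
    rw [← add_assoc, hf_succ, prod_range_succ, ch_succ, Nat.factorial_succ]
    have h1 := hf_ne m
    have h2 : (i.factorial : ℚ) ≠ 0 := by positivity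
    have h3 : (i : ℚ) + 1 ≠ 0 := by positivity
    have h4 : 2 * (i : ℚ) + 1 ≠ 0 := by positivity
    have a1 : 2 * (i : ℚ) + 2 = 2 * (i + 1) := by ring
    generalize ∏ l ∈ range i, (1 + 2 * ((2 * (m : ℚ) + 1) / (2 * (l : ℚ) + 1))) = A at *
    have h5 : hf (2 * m + 1 + i) = hf (2 * m + 1) * (ch i * A) * i.factorial := by
      field_simp at ih
      linear_combination ih
    rw [h5, a1]
    push_cast
    field_simp
    ring

theorem prod_m_one (D : Dat p r m) : EQ p 2 (∏ l ∈ range m,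
    (1 - (2 * (m : ℚ) + 1) ^ 2 / (4 * ((l : ℚ) + 1) ^ 2))) 1 := by
  have hP := D.hP
  rw [← D.cast]
  have h : EQ p 2 (∏ l ∈ range m, (1 - ((p : ℚ) ^ r) ^ 2 / (4 * ((l : ℚ) + 1) ^ 2)))
      (∏ _l ∈ range m, ((1 : ℚ) - 0)) := by
    refine EQ.prod fun l hl => ?_
    have hl' := mem_range.1 hl
    have h1 := I_div (p := p) (a := 2 * (l + 1)) (r := r) (by omega) (by omega)
    have h2 := h1.mul h1
    have e : (p : ℚ) ^ r / ((2 * (l + 1) : ℕ) : ℚ) * ((p : ℚ) ^ r / ((2 * (l + 1) : ℕ) : ℚ)) =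
        ((p : ℚ) ^ r) ^ 2 / (4 * ((l : ℚ) + 1) ^ 2) := by
      have : (l : ℚ) + 1 ≠ 0 := by positivity
      push_cast
      field_simp
      ring
    rw [e] at h2
    exact (EQ.refl (one_mem _)).sub (EQ.of_I h2)
  simpa using h

theorem X0_eq (D : Dat p r m) : hf (2 * m + 1) / hf m ^ 2 = (p : ℚ) ^ r * ((-1) ^ m * 2⁻¹ *
    (ch m ^ 2)⁻¹ * ∏ l ∈ range m, (1 - (2 * (m : ℚ) + 1) ^ 2 / (4 * ((l : ℚ) + 1) ^ 2))) := by
  rw [hf_top, D.cast, ch_hf]
  have h1 := hf_ne m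
  have h2 : (m.factorial : ℚ) ≠ 0 := by positivity
  field_simp

theorem FF_small (D : Dat p r m) {i : ℕ} (hi : i + 1 < m) :
    I p (r + 2) (FF (m + 1 + (i + 1)) (m + 1)) := by
  have hP := D.hP
  rw [FF_i, XX_eq D, X0_eq D]
  have h1 := RR_I D hi
  have hv : ∏ l ∈ range (i + 1), (1 + 2 * ((p : ℚ) ^ r / (2 * l + 1))) ∈ Zp p := by
    refine prod_mem fun l hl => ?_
    have hl' := mem_range.1 hl
    have h2 := I_div (p := p) (a := 2 * l + 1) (r := r) (by omega) (by omega)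
    push_cast at h2
    exact add_mem (one_mem _) (mul_mem n2 h2.mem)
  have e : (m : ℚ) + 1 + ((i + 1 : ℕ) : ℚ) = m + 2 + i := by push_cast; ring
  rw [e]
  have i4 : (1 / 4 : ℚ) ∈ Zp p := by
    have := (U4 (p := p) D.hp2 1).2.2
    rw [pow_one] at this
    rw [one_div]; exact this
  have h3 := ((I_pow (p := p) r).mul (h1.mul h1)).mulR
    (y := (-1) ^ (i + 1) * (4 * ((m : ℚ) + 2 + i) - 1) * (1 / 4) * (-2) * ((-1) ^ m * 2⁻¹ *
    (ch m ^ 2)⁻¹ * ∏ l ∈ range m, (1 - (2 * (m : ℚ) + 1) ^ 2 / (4 * ((l : ℚ) + 1) ^ 2))) *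
    (ch (i + 1) * ∏ l ∈ range (i + 1), (1 + 2 * ((p : ℚ) ^ r / (2 * l + 1))))) ?_
  · convert h3 using 1
    ring
  · refine mul_mem (mul_mem (mul_mem (mul_mem (mul_mem (pow_mem (neg_mem (one_mem _)) _)
      (sub_mem (mul_mem n4 (add_mem (add_mem (nat_mem m) n2) (nat_mem i))) (one_mem _))) i4)
      (neg_mem n2)) (mul_mem (mul_mem (mul_mem (pow_mem (neg_mem (one_mem _)) _) (U_2 D.hp2).2.2)
      (D.ch_m.pow 2).2.2) (prod_m_one D).1)) (mul_mem (ch_mem D.hp2 _) hv)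

theorem FF_main (D : Dat p r m) : I p (r + 2) (FF (m + 1) (m + 1) - (-1) * (-1) ^ m * (p : ℚ) ^ r) := by
  have h0 := FF_i m 0
  rw [add_zero, add_zero, add_zero] at h0
  simp only [pow_zero, Nat.factorial_zero, Nat.cast_one, one_mul, Nat.cast_zero, add_zero] at h0
  rw [h0, X0_eq D]
  have h1 := prod_m_one D
  have hu := D.U_P1
  have h2 : EQ p 2 (1 - ((p : ℚ) ^ r * ((p : ℚ) ^ r + 1)⁻¹) ^ 2) 1 := by
    have h3 : I p 2 (((p : ℚ) ^ r * ((p : ℚ) ^ r + 1)⁻¹) ^ 2) := by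
      have h4 := ((I_pow (p := p) r).mono D.hr).mulR hu.2.2
      rw [pow_two]; exact h4.mul h4
    have h5 := (EQ.refl (k := 2) (one_mem (Zp p))).sub (EQ.of_I h3)
    rwa [sub_zero] at h5
  have h3 := h2.mul h1
  rw [mul_one] at h3
  have h4 := ((I_pow (p := p) r).mul h3.2.2).mulL
    (mul_mem (neg_mem (one_mem (Zp p))) (pow_mem (neg_mem (one_mem (Zp p))) m))
  convert h4 using 1
  have h5 := hu.1
  have h6 := ch_ne m
  generalize ∏ l ∈ range m, (1 - (2 * (m : ℚ) + 1) ^ 2 / (4 * ((l : ℚ) + 1) ^ 2)) = A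
  rw [D.cast] at h5 ⊢
  have h7 : (m : ℚ) + 1 ≠ 0 := by positivity
  have h8 : 2 * (m : ℚ) + 1 + 1 = 2 * (m + 1) := by ring
  rw [h8]
  field_simp
  ring

/-- **the case of exponent one** -/
theorem S_one (D : Dat p r m) {N : ℕ} (hN : N = m + 1 ∨ N = 2 * m) :
    I p (r + 2) (∑ n ∈ range (N + 1), (4 * (n : ℚ) - 1) * tt n - (-1) * (-1) ^ m * (p : ℚ) ^ r) := by
  have hP := D.hP
  have hm := D.hm
  rw [sum_eq (N + 1) (m + 1)]
  have h1 : I p (r + 2) (∑ j ∈ range (m + 1), GG (N + 1) j) :=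
    I.sum fun j hj => D.GG_small (by have := mem_range.1 hj; omega) hN
  have h2 : I p (r + 2) (∑ n ∈ range (N + 1), FF n (m + 1) - FF (m + 1) (m + 1)) := by
    obtain ⟨t, ht⟩ : ∃ t, N + 1 = (m + 1) + (1 + t) ∧ (t = 0 ∨ t + 1 = m) := by
      rcases hN with h | h
      · exact ⟨0, by omega, Or.inl rfl⟩
      · exact ⟨m - 1, by omega, Or.inr (by omega)⟩
    rw [ht.1, sum_range_add _ (m + 1) (1 + t), sum_range_add _ 1 t, sum_range_one]
    have h3 : ∑ n ∈ range (m + 1), FF n (m + 1) = 0 := by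
      refine sum_eq_zero fun n hn => ?_
      have := mem_range.1 hn
      rw [FF, gi_neg (by push_cast; omega)]
      ring
    rw [h3, zero_add, add_zero, add_sub_cancel_left]
    refine I.sum fun i hi => ?_
    have hi' := mem_range.1 hi
    rw [show m + 1 + (1 + i) = m + 1 + (i + 1) by ring]
    refine FF_small D ?_
    omega
  have h3 := (h2.add h1).add (FF_main D)
  convert h3 using 1
  ring

/-! ### Higher exponents -/

def LL (j : ℕ) (x : ℚ) : ℚ := (x - 1) ^ 3 * (x + 2) ^ (2 * j) + (x + 1) ^ 3 * (x - 2) ^ (2 * j)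

theorem tt_succ (k : ℕ) : ((k : ℚ) + 1) ^ 3 * tt (k + 1) = -((k : ℚ) - 1 / 2) ^ 3 * tt k := by
  rw [tt, tt, nh_succ, Nat.factorial_succ, pow_succ (-1 : ℚ) k]
  have h1 : (k.factorial : ℚ) ≠ 0 := by positivity
  have h2 : (k : ℚ) + 1 ≠ 0 := by positivity
  push_cast
  field_simp

theorem tele (j N : ℕ) : ∑ k ∈ range N, LL j (4 * (k : ℚ) - 1) * tt k =
    -64 * ((N : ℚ) ^ 3 * (4 * (N : ℚ) - 3) ^ (2 * j) * tt N) := by
  induction N with
  | zero => simp
  | succ N ih =>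
    rw [sum_range_succ, ih, LL]
    have h1 := tt_succ N
    have e1 : 4 * ((N + 1 : ℕ) : ℚ) - 3 = 4 * N - 1 + 2 := by push_cast; ring
    have e2 : 4 * (N : ℚ) - 3 = 4 * N - 1 - 2 := by ring
    rw [e1, e2]
    push_cast
    generalize (4 * (N : ℚ) - 1 + 2) ^ (2 * j) = A
    generalize (4 * (N : ℚ) - 1 - 2) ^ (2 * j) = B
    linear_combination 64 * A * h1

theorem bd_small (D : Dat p r m) {N : ℕ} (hN : N = m + 1 ∨ N = 2 * m) (j : ℕ) :
    I p (r + 2) (∑ k ∈ range (N + 1), LL j (4 * (k : ℚ) - 1) * tt k) := by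
  have hch : I p r (ch N) := by
    rcases hN with h | h
    · rw [h]; exact D.ch_A
    · rw [h]; exact D.ch_B
  rw [tele]
  have hr := D.hr
  have e : (((N + 1 : ℕ) : ℚ)) ^ 3 * tt (N + 1) = (-1) ^ (N + 1) * (-(2⁻¹) * ch N) ^ 3 := by
    rw [tt, nh_hf, ch_hf, Nat.factorial_succ]
    have h1 : (N.factorial : ℚ) ≠ 0 := by positivity
    have h2 : (N : ℚ) + 1 ≠ 0 := by positivity
    push_cast
    field_simp
  have h1 : I p (r + 2) (ch N ^ 3) := by
    have := (hch.mul (hch.mul hch)).mono (by omega : r + 2 ≤ r + (r + r))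
    convert this using 1
    ring
  have e2 : -64 * ((((N + 1 : ℕ) : ℚ)) ^ 3 * (4 * (((N + 1 : ℕ) : ℚ)) - 3) ^ (2 * j) * tt (N + 1)) =
      ch N ^ 3 * (-(4 ^ 3) * (4 * (((N + 1 : ℕ) : ℚ)) - 3) ^ (2 * j) * ((-1) ^ (N + 1) * (-(2⁻¹)) ^ 3)) := by
    linear_combination (-64 * (4 * (((N + 1 : ℕ) : ℚ)) - 3) ^ (2 * j)) * e
  rw [e2]
  exact h1.mulR (mul_mem (mul_mem (neg_mem (pow_mem n4 3)) (pow_mem (sub_mem (mul_mem n4
    (nat_mem _)) n3) _)) (mul_mem (pow_mem (neg_mem (one_mem _)) _)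
    (pow_mem (neg_mem (U_2 D.hp2).2.2) 3)))

/-- a function of `4k-1` for which the sums are known modulo `p^(r+2)` -/
def Good (f : ℚ → ℚ) : Prop := ∃ c : ℤ, ∀ (p : ℕ) (_ : Fact p.Prime) (r m N : ℕ), Dat p r m →
  (N = m + 1 ∨ N = 2 * m) →
  I p (r + 2) (∑ k ∈ range (N + 1), f (4 * (k : ℚ) - 1) * tt k - c * (-1) ^ m * (p : ℚ) ^ r)

theorem Good.add {f g : ℚ → ℚ} (hf : Good f) (hg : Good g) : Good (fun x => f x + g x) := by
  obtain ⟨c, hc⟩ := hf
  obtain ⟨d, hd⟩ := hg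
  refine ⟨c + d, fun p hp r m N D hN => ?_⟩
  have := (hc p hp r m N D hN).add (hd p hp r m N D hN)
  convert this using 1
  have e : ∑ k ∈ range (N + 1), (f (4 * (k : ℚ) - 1) + g (4 * (k : ℚ) - 1)) * tt k =
      ∑ k ∈ range (N + 1), f (4 * (k : ℚ) - 1) * tt k +
      ∑ k ∈ range (N + 1), g (4 * (k : ℚ) - 1) * tt k := by
    rw [← sum_add_distrib]; exact sum_congr rfl fun k _ => by ring
  rw [e]
  push_cast
  ring

theorem Good.smul {f : ℚ → ℚ} (hf : Good f) (a : ℤ) : Good (fun x => a * f x) := by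
  obtain ⟨c, hc⟩ := hf
  refine ⟨a * c, fun p hp r m N D hN => ?_⟩
  have := (hc p hp r m N D hN).mulL (int_mem (p := p) a)
  convert this using 1
  have e : ∑ k ∈ range (N + 1), a * f (4 * (k : ℚ) - 1) * tt k =
      a * ∑ k ∈ range (N + 1), f (4 * (k : ℚ) - 1) * tt k := by
    rw [mul_sum]; exact sum_congr rfl fun k _ => by ring
  rw [e]
  push_cast
  ring

theorem Good.sum {ι : Type} {s : Finset ι} {f : ι → ℚ → ℚ} (h : ∀ i ∈ s, Good (f i)) :
    Good (fun x => ∑ i ∈ s, f i x) := by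
  classical
  induction s using Finset.induction_on with
  | empty =>
    refine ⟨0, fun p hp r m N D hN => ?_⟩
    simp [I.zero]
  | insert a s ha ih =>
    have h1 := (h a (mem_insert_self _ _)).add (ih fun i hi => h i (mem_insert_of_mem hi))
    simp only [sum_insert ha]
    exact h1

theorem Good_LL (j : ℕ) : Good (fun x => 1 / 2 * LL j x) := by
  refine ⟨0, fun p hp r m N D hN => ?_⟩
  have := (bd_small D hN j).mulL (U_2 D.hp2).2.2
  convert this using 1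
  have e : ∑ k ∈ range (N + 1), 1 / 2 * LL j (4 * (k : ℚ) - 1) * tt k =
      2⁻¹ * ∑ k ∈ range (N + 1), LL j (4 * (k : ℚ) - 1) * tt k := by
    rw [mul_sum]; exact sum_congr rfl fun k _ => by ring
  rw [e]
  push_cast
  ring

/-- the lower order part of `L_j(x)/2` -/
def term (j i : ℕ) (x : ℚ) : ℚ := (((2 * j).choose i * 2 ^ i : ℕ) : ℤ) *
  (if Even i then x ^ (2 * j - i) * (x ^ 3 + 3 * x) else -(x ^ (2 * j - i) * (3 * x ^ 2 + 1)))

theorem LL_sum (j : ℕ) (x : ℚ) : 1 / 2 * LL j x = ∑ i ∈ range (2 * j + 1), term j i x := by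
  have h1 : (x + 2) ^ (2 * j) = ∑ i ∈ range (2 * j + 1), 2 ^ i * x ^ (2 * j - i) * ((2 * j).choose i : ℚ) := by
    rw [add_comm, add_pow]
  have h2 : (x - 2) ^ (2 * j) = ∑ i ∈ range (2 * j + 1), (-2) ^ i * x ^ (2 * j - i) *
      ((2 * j).choose i : ℚ) := by
    rw [sub_eq_add_neg, add_comm, add_pow]
  rw [LL, h1, h2, mul_sum, mul_sum, ← sum_add_distrib, mul_sum]
  refine sum_congr rfl fun i _ => ?_
  rw [term]
  split_ifs with h
  · rw [h.neg_pow]
    push_cast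
    ring
  · rw [(Nat.not_even_iff_odd.1 h).neg_pow]
    push_cast
    ring

theorem Good_pow (j : ℕ) : Good (fun x => x ^ (2 * j + 1)) := by
  induction j using Nat.strong_induction_on with
  | _ j ih =>
    rcases Nat.eq_zero_or_pos j with h0 | h0
    · subst h0
      refine ⟨-1, fun p hp r m N D hN => ?_⟩
      have := S_one D hN
      simp only [mul_zero, zero_add, pow_one]
      push_cast
      exact this
    · obtain ⟨i, rfl⟩ : ∃ i, j = i + 1 := ⟨j - 1, by omega⟩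
      have e : (fun x : ℚ => x ^ (2 * (i + 1) + 1)) = fun x => (1 / 2 * LL i x +
          ((-3 : ℤ) : ℚ) * x ^ (2 * i + 1)) + ((-1 : ℤ) : ℚ) * ∑ l ∈ range (2 * i), term i (l + 1) x := by
        funext x
        rw [LL_sum, sum_range_succ']
        simp only [term]
        simp
        ring
      rw [e]
      refine ((Good_LL i).add ((ih i (by omega)).smul (-3))).add ((Good.sum fun l hl => ?_).smul (-1))
      have hl' := mem_range.1 hl
      unfold term
      by_cases hev : Even (l + 1)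
      · simp only [if_pos hev]
        obtain ⟨a, ha⟩ := hev
        have g1 := ih (i - a + 1) (by omega)
        have g2 := (ih (i - a) (by omega)).smul 3
        have g3 := (g1.add g2).smul (((2 * i).choose (l + 1) * 2 ^ (l + 1) : ℕ) : ℤ)
        convert g3 using 3
        have e1 : 2 * (i - a + 1) + 1 = (2 * i - (l + 1)) + 3 := by omega
        have e2 : 2 * (i - a) + 1 = (2 * i - (l + 1)) + 1 := by omega
        rw [e1, e2]
        push_cast
        ring
      · simp only [if_neg hev]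
        obtain ⟨a, ha⟩ := Nat.not_even_iff_odd.1 hev
        have g1 := (ih (i - a) (by omega)).smul (-3)
        have g2 := (ih (i - a - 1) (by omega)).smul (-1)
        have g3 := (g1.add g2).smul (((2 * i).choose (l + 1) * 2 ^ (l + 1) : ℕ) : ℤ)
        convert g3 using 3
        have e1 : 2 * (i - a) + 1 = (2 * i - (l + 1)) + 2 := by omega
        have e2 : 2 * (i - a - 1) + 1 = 2 * i - (l + 1) := by omega
        rw [e1, e2]
        push_cast
        ring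

end Pool.Agent.R439.PL.S5
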