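import Mathlib
import Pool.Agent.R439.S5B
import Pool.Agent.R439.S4G

set_option autoImplicit false

/-!
The constants `c_M` for `M = 1, 3, 5, 7, 9, 11`.
-/

namespace Pool.Agent.R439.PL.S5

open Finset Pool.Agent.R439.S4 Pool.Agent.R439.PL.S4

/-- `Good` with a given constant -/
def GoodC (f : ℚ → ℚ) (c : ℤ) : Prop := ∀ (p : ℕ) (_ : Fact p.Prime) (r m N : ℕ), Dat p r m →
  (N = m + 1 ∨ N = 2 * m) →
  I p (r + 2) (∑ k ∈ range (N + 1), f (4 * (k : ℚ) - 1) * tt k - c * (-1) ^ m * (p : ℚ) ^ r)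

theorem GoodC.add {f g : ℚ → ℚ} {c d : ℤ} (hf : GoodC f c) (hg : GoodC g d) :
    GoodC (fun x => f x + g x) (c + d) := by
  intro p hp r m N D hN
  have := (hf p hp r m N D hN).add (hg p hp r m N D hN)
  convert this using 1
  have e : ∑ k ∈ range (N + 1), (f (4 * (k : ℚ) - 1) + g (4 * (k : ℚ) - 1)) * tt k =
      ∑ k ∈ range (N + 1), f (4 * (k : ℚ) - 1) * tt k +
      ∑ k ∈ range (N + 1), g (4 * (k : ℚ) - 1) * tt k := by
    rw [← sum_add_distrib]; exact sum_congr rfl fun k _ => by ring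
  rw [e]
  push_cast
  ring

theorem GoodC.smul {f : ℚ → ℚ} {c : ℤ} (hf : GoodC f c) (a : ℤ) :
    GoodC (fun x => a * f x) (a * c) := by
  intro p hp r m N D hN
  have := (hf p hp r m N D hN).mulL (int_mem (p := p) a)
  convert this using 1
  have e : ∑ k ∈ range (N + 1), a * f (4 * (k : ℚ) - 1) * tt k =
      a * ∑ k ∈ range (N + 1), f (4 * (k : ℚ) - 1) * tt k := by
    rw [mul_sum]; exact sum_congr rfl fun k _ => by ring
  rw [e]
  push_cast
  ring

theorem GoodC_LL (j : ℕ) : GoodC (fun x => 1 / 2 * LL j x) 0 := by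
  intro p hp r m N D hN
  have := (bd_small D hN j).mulL (U_2 D.hp2).2.2
  convert this using 1
  have e : ∑ k ∈ range (N + 1), 1 / 2 * LL j (4 * (k : ℚ) - 1) * tt k =
      2⁻¹ * ∑ k ∈ range (N + 1), LL j (4 * (k : ℚ) - 1) * tt k := by
    rw [mul_sum]; exact sum_congr rfl fun k _ => by ring
  rw [e]
  push_cast
  ring

theorem G1 : GoodC (fun x => x ^ 1) (-1) := by
  intro p hp r m N D hN
  have := S_one D hN
  simp only [pow_one]
  push_cast
  exact this

theorem G3 : GoodC (fun x => x ^ 3) 3 := by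
  have h := (GoodC_LL 0).add (G1.smul (-3))
  have e : (fun x : ℚ => x ^ 3) = fun x => 1 / 2 * LL 0 x + ((-3 : ℤ) : ℚ) * x ^ 1 := by
    funext x; rw [LL]; push_cast; ring
  rw [e]; exact h

theorem G5 : GoodC (fun x => x ^ 5) 23 := by
  have h := ((GoodC_LL 1).add (G3.smul 5)).add (G1.smul (-8))
  have e : (fun x : ℚ => x ^ 5) = fun x => 1 / 2 * LL 1 x + ((5 : ℤ) : ℚ) * x ^ 3 +
      ((-8 : ℤ) : ℚ) * x ^ 1 := by
    funext x; rw [LL]; push_cast; ring
  rw [e]; exact h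

theorem G7 : GoodC (fun x => x ^ 7) (-5) := by
  have h := (((GoodC_LL 2).add (G5.smul (-3))).add (G3.smul 16)).add (G1.smul (-16))
  have e : (fun x : ℚ => x ^ 7) = fun x => 1 / 2 * LL 2 x + ((-3 : ℤ) : ℚ) * x ^ 5 +
      ((16 : ℤ) : ℚ) * x ^ 3 + ((-16 : ℤ) : ℚ) * x ^ 1 := by
    funext x; rw [LL]; push_cast; ring
  rw [e]; exact h

theorem G9 : GoodC (fun x => x ^ 9) 1647 := by
  have h := (((GoodC_LL 3).add (G7.smul (-27))).add (G5.smul 72)).add (G3.smul (-48))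
  have e : (fun x : ℚ => x ^ 9) = fun x => 1 / 2 * LL 3 x + ((-27 : ℤ) : ℚ) * x ^ 7 +
      ((72 : ℤ) : ℚ) * x ^ 5 + ((-48 : ℤ) : ℚ) * x ^ 3 := by
    funext x; rw [LL]; push_cast; ring
  rw [e]; exact h

theorem G11 : GoodC (fun x => x ^ 11) (-96973) := by
  have h := (((((GoodC_LL 4).add (G9.smul (-67))).add (G7.smul (-96))).add (G5.smul 672)).add
    (G3.smul (-768))).add (G1.smul 256)
  have e : (fun x : ℚ => x ^ 11) = fun x => 1 / 2 * LL 4 x + ((-67 : ℤ) : ℚ) * x ^ 9 +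
      ((-96 : ℤ) : ℚ) * x ^ 7 + ((672 : ℤ) : ℚ) * x ^ 5 + ((-768 : ℤ) : ℚ) * x ^ 3 +
      ((256 : ℤ) : ℚ) * x ^ 1 := by
    funext x; rw [LL]; push_cast; ring
  rw [e]; exact h

theorem exists_c : ∃ c : ℕ → ℤ, c 1 = -1 ∧ c 3 = 3 ∧ c 5 = 23 ∧ c 7 = -5 ∧ c 9 = 1647 ∧
    c 11 = -96973 ∧ ∀ M, Odd M → GoodC (fun x => x ^ M) (c M) := by
  classical
  have h : ∀ M : ℕ, ∃ c : ℤ, (M = 1 → c = -1) ∧ (M = 3 → c = 3) ∧ (M = 5 → c = 23) ∧
      (M = 7 → c = -5) ∧ (M = 9 → c = 1647) ∧ (M = 11 → c = -96973) ∧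
      (Odd M → GoodC (fun x => x ^ M) c) := by
    intro M
    by_cases h1 : M = 1
    · subst h1; exact ⟨-1, by simp, by simp, by simp, by simp, by simp, by simp, fun _ => G1⟩
    by_cases h3 : M = 3
    · subst h3; exact ⟨3, by simp, by simp, by simp, by simp, by simp, by simp, fun _ => G3⟩
    by_cases h5 : M = 5
    · subst h5; exact ⟨23, by simp, by simp, by simp, by simp, by simp, by simp, fun _ => G5⟩
    by_cases h7 : M = 7
    · subst h7; exact ⟨-5, by simp, by simp, by simp, by simp, by simp, by simp, fun _ => G7⟩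
    by_cases h9 : M = 9
    · subst h9; exact ⟨1647, by simp, by simp, by simp, by simp, by simp, by simp, fun _ => G9⟩
    by_cases h11 : M = 11
    · subst h11; exact ⟨-96973, by simp, by simp, by simp, by simp, by simp, by simp, fun _ => G11⟩
    by_cases ho : Odd M
    · obtain ⟨j, rfl⟩ := ho
      obtain ⟨c, hc⟩ := Good_pow j
      exact ⟨c, fun h => absurd h h1, fun h => absurd h h3, fun h => absurd h h5,
        fun h => absurd h h7, fun h => absurd h h9, fun h => absurd h h11, fun _ => hc⟩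
    · exact ⟨0, fun h => absurd h h1, fun h => absurd h h3, fun h => absurd h h5,
        fun h => absurd h h7, fun h => absurd h h9, fun h => absurd h h11, fun h => absurd h ho⟩
  choose c hc using h
  exact ⟨c, (hc 1).1 rfl, (hc 3).2.1 rfl, (hc 5).2.2.1 rfl, (hc 7).2.2.2.1 rfl,
    (hc 9).2.2.2.2.1 rfl, (hc 11).2.2.2.2.2.1 rfl, fun M hM => (hc M).2.2.2.2.2.2 hM⟩

/-- the sign -/
theorem sign_eq {p r m : ℕ} (hp : Odd p) (hP : p ^ r = 2 * m + 1) :
    (-1 : ℚ) ^ ((p - 1) * r / 2) = (-1) ^ m := by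
  obtain ⟨a, ha⟩ := hp
  have h1 : (p - 1) * r / 2 = a * r := by
    have : (p - 1) * r = 2 * (a * r) := by rw [ha, Nat.add_sub_cancel]; ring
    rw [this, Nat.mul_div_cancel_left _ two_pos]
  rw [h1]
  clear h1
  induction r generalizing m with
  | zero =>
    have : m = 0 := by rw [pow_zero] at hP; omega
    rw [this, mul_zero]
  | succ r ih =>
    have hodd : Odd (p ^ r) := (show Odd p from ⟨a, ha⟩).pow
    obtain ⟨b, hb⟩ := hodd
    have h2 := ih hb
    have h3 : m = 2 * (a * b) + b + a := by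
      rw [pow_succ, hb, ha] at hP
      have : (2 * b + 1) * (2 * a + 1) = 2 * (2 * (a * b) + b + a) + 1 := by ring
      omega
    rw [h3, mul_add, mul_one, pow_add, h2, pow_add, pow_add, pow_mul]
    norm_num

end Pool.Agent.R439.PL.S5
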