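import Mathlib

set_option autoImplicit false

/-!
An exact formula for the partial sums of `(205k^2+160k+32)(-1)^k C(2k,k)^5` from a WZ pair.
-/

namespace Pool.Agent.R439.V5

open Finset

/-- the summand of the companion sum (with `n = m + 1`) -/
def tt (m j : ℕ) : ℚ := 8 * ((m : ℚ) + 1) ^ 2 * ((m + 1).centralBinom : ℚ) ^ 2 * ((-1) ^ j *
  ((2 * m + 1).choose j : ℚ) * ((m + j).choose m : ℚ) ^ 2)

/-- the WZ mate -/
def gg (m j : ℕ) : ℚ := -(8 * ((m : ℚ) + 1) ^ 2 * ((m + 1).centralBinom : ℚ) ^ 2 * ((-1) ^ j *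
  ((2 * m + 3).choose j : ℚ) * ((m + j).choose m : ℚ) ^ 2) * (j : ℚ) ^ 3 *
  (((m : ℚ) + 1) * (30 * m + 41) + (21 * m + 29) * j) / ((2 * m + 2) * (2 * m + 3) * (m + 1) ^ 3))

theorem ch_up (a j : ℕ) : ((a.choose j : ℕ) : ℚ) * (a + 1) = ((a + 1).choose j : ℕ) * (a + 1 - j) := by
  rcases le_or_gt j (a + 1) with h | h
  · have h1 := Nat.choose_mul_succ_eq a j
    have h2 : ((a + 1 - j : ℕ) : ℚ) = (a : ℚ) + 1 - j := by rw [Nat.cast_sub h]; push_cast; ring
    rw [← h2]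
    exact_mod_cast h1
  · rw [Nat.choose_eq_zero_of_lt h, Nat.choose_eq_zero_of_lt (by omega)]
    simp

theorem ch_right (a j : ℕ) : ((a.choose (j + 1) : ℕ) : ℚ) * (j + 1) = (a.choose j : ℕ) * (a - j) := by
  rcases le_or_gt j a with h | h
  · have h1 := Nat.choose_succ_right_eq a j
    have h2 : ((a - j : ℕ) : ℚ) = (a : ℚ) - j := Nat.cast_sub h
    rw [← h2]
    exact_mod_cast h1
  · rw [Nat.choose_eq_zero_of_lt (by omega : a < j + 1), Nat.choose_eq_zero_of_lt h]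
    simp

/-- `C(m+1+j, m+1) (m+1) = C(m+j, m) (m+1+j)` -/
theorem ch_a (m j : ℕ) : (((m + 1 + j).choose (m + 1) : ℕ) : ℚ) * (m + 1) =
    ((m + j).choose m : ℕ) * (m + 1 + j) := by
  have h := Nat.add_one_mul_choose_eq (m + j) m
  have e : m + j + 1 = m + 1 + j := by ring
  rw [e] at h
  have : (((m + 1 + j : ℕ) : ℚ)) * ((m + j).choose m : ℕ) = ((m + 1 + j).choose (m + 1) : ℕ) *
      ((m + 1 : ℕ) : ℚ) := by exact_mod_cast h
  push_cast at this
  linear_combination -this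

/-- `C(m+j+1, m) (j+1) = C(m+j, m) (m+j+1)` -/
theorem ch_b (m j : ℕ) : (((m + (j + 1)).choose m : ℕ) : ℚ) * (j + 1) =
    ((m + j).choose m : ℕ) * (m + j + 1) := by
  have h := ch_up (m + j) m
  have e : m + (j + 1) = m + j + 1 := by ring
  rw [e]
  push_cast at h
  linear_combination -h

theorem cb_up (m : ℕ) : ((m + 2).centralBinom : ℚ) * (m + 2) =
    2 * (2 * m + 3) * ((m + 1).centralBinom : ℚ) := by
  have h := Nat.succ_mul_centralBinom_succ (m + 1)
  have : ((m + 1 + 1 : ℕ) : ℚ) * ((m + 2).centralBinom : ℕ) = 2 * (2 * (m + 1 : ℕ) + 1) *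
      ((m + 1).centralBinom : ℕ) := by exact_mod_cast h
  push_cast at this
  linear_combination this

theorem wz (m j : ℕ) : tt (m + 1) j - tt m j = gg m (j + 1) - gg m j := by
  have a1 := ch_up (2 * m + 1) j
  have a2 := ch_up (2 * m + 2) j
  have a3 := ch_right (2 * m + 3) j
  have a4 := ch_a m j
  have a5 := ch_b m j
  have a6 := cb_up m
  have e1 : 2 * (m + 1) + 1 = 2 * m + 3 := by ring
  have e2 : 2 * m + 1 + 1 = 2 * m + 2 := by ring
  have e3 : 2 * m + 2 + 1 = 2 * m + 3 := by ring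
  rw [e2] at a1
  rw [e3] at a2
  unfold tt gg
  rw [e1]
  push_cast at a1 a2 a3 a4 a5 a6 ⊢
  generalize (((2 * m + 3).choose j : ℕ) : ℚ) = A at *
  generalize (((2 * m + 3).choose (j + 1) : ℕ) : ℚ) = A' at *
  generalize (((2 * m + 2).choose j : ℕ) : ℚ) = A2 at *
  generalize (((2 * m + 1).choose j : ℕ) : ℚ) = A1 at *
  generalize (((m + j).choose m : ℕ) : ℚ) = Q at *
  generalize (((m + (j + 1)).choose m : ℕ) : ℚ) = Q' at *
  generalize (((m + 1 + j).choose (m + 1) : ℕ) : ℚ) = Q1 at *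
  generalize (((m + 1).centralBinom : ℕ) : ℚ) = Bc at *
  have e4 : m + 1 + 1 = m + 2 := by ring
  rw [e4]
  generalize (((m + 2).centralBinom : ℕ) : ℚ) = Bd at *
  rw [pow_succ (-1 : ℚ) j]
  generalize (-1 : ℚ) ^ j = s
  have hm1 : (m : ℚ) + 1 ≠ 0 := by positivity
  have hm2 : (m : ℚ) + 2 ≠ 0 := by positivity
  have hm3 : 2 * (m : ℚ) + 2 ≠ 0 := by positivity
  have hm4 : 2 * (m : ℚ) + 3 ≠ 0 := by positivity
  have hj : (j : ℚ) + 1 ≠ 0 := by positivity
  have hA2 : A2 = A * (2 * m + 3 - j) / (2 * m + 3) := by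
    rw [eq_div_iff hm4]; linear_combination a2
  have hA1 : A1 = A2 * (2 * m + 2 - j) / (2 * m + 2) := by
    rw [eq_div_iff hm3]; linear_combination a1
  have hA' : A' = A * (2 * m + 3 - j) / (j + 1) := by
    rw [eq_div_iff hj]; linear_combination a3
  have hQ1 : Q1 = Q * (m + 1 + j) / (m + 1) := by
    rw [eq_div_iff hm1]; linear_combination a4
  have hQ' : Q' = Q * (m + j + 1) / (j + 1) := by
    rw [eq_div_iff hj]; linear_combination a5
  have hBd : Bd = 2 * (2 * m + 3) * Bc / (m + 2) := by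
    rw [eq_div_iff hm2]; linear_combination a6
  rw [hA1, hA2, hA', hQ1, hQ', hBd]
  field_simp
  ring

theorem gg_zero (m : ℕ) : gg m 0 = 0 := by simp [gg]

theorem tt_zero {m j : ℕ} (h : 2 * m + 1 < j) : tt m j = 0 := by
  unfold tt
  rw [Nat.choose_eq_zero_of_lt h]
  simp

theorem gg_top (m : ℕ) : gg m (2 * m + 4) = 0 := by
  unfold gg
  rw [Nat.choose_eq_zero_of_lt (by omega : 2 * m + 3 < 2 * m + 4)]
  simp

theorem total (m : ℕ) : ∑ j ∈ range (2 * m + 2), tt m j = 0 := by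
  induction m with
  | zero =>
    simp [tt, sum_range_succ]
  | succ m ih =>
    have h1 : ∑ j ∈ range (2 * m + 4), (tt (m + 1) j - tt m j) = gg m (2 * m + 4) - gg m 0 := by
      rw [← sum_range_sub (fun j => gg m j)]
      exact sum_congr rfl fun j _ => wz m j
    rw [gg_top, gg_zero, sub_zero, sum_sub_distrib] at h1
    have h2 : ∑ j ∈ range (2 * m + 4), tt m j = ∑ j ∈ range (2 * m + 2), tt m j := by
      rw [show 2 * m + 4 = 2 * m + 3 + 1 by ring, sum_range_succ _ (2 * m + 3),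
        show 2 * m + 3 = 2 * m + 2 + 1 by ring, sum_range_succ _ (2 * m + 2),
        tt_zero (by omega), tt_zero (by omega)]
      ring
    rw [h2, ih] at h1
    rw [show 2 * (m + 1) + 2 = 2 * m + 4 by ring]
    linarith

/-- the partial sums -/
def UU (m : ℕ) : ℚ := ∑ k ∈ range (m + 1), (205 * (k : ℚ) ^ 2 + 160 * k + 32) * (-1) ^ k *
  (k.centralBinom : ℚ) ^ 5

theorem edge (m : ℕ) : tt (m + 1) (m + 1) + gg m (m + 1) =
    (205 * ((m + 1 : ℕ) : ℚ) ^ 2 + 160 * ((m + 1 : ℕ) : ℚ) + 32) * (-1) ^ (m + 1) *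
      ((m + 1).centralBinom : ℚ) ^ 5 := by
  have a6 := cb_up m
  have a1 : (((2 * m + 3).choose (m + 1) : ℕ) : ℚ) * (m + 2) =
      (2 * m + 3) * ((m + 1).centralBinom : ℚ) := by
    have h := ch_up (2 * m + 2) (m + 1)
    rw [Nat.centralBinom_eq_two_mul_choose, show 2 * (m + 1) = 2 * m + 2 by ring]
    push_cast at h
    linear_combination -h
  have a2 : (((m + (m + 1)).choose m : ℕ) : ℚ) * 2 = ((m + 1).centralBinom : ℚ) := by
    have h := Nat.add_one_mul_choose_eq (2 * m + 1) m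
    rw [Nat.centralBinom_eq_two_mul_choose, show 2 * (m + 1) = 2 * m + 1 + 1 by ring,
      show m + (m + 1) = 2 * m + 1 by ring]
    have h2 : ((2 * m + 1 + 1 : ℕ) : ℚ) * ((2 * m + 1).choose m : ℕ) =
      ((2 * m + 1 + 1).choose (m + 1) : ℕ) * ((m + 1 : ℕ) : ℚ) := by exact_mod_cast h
    push_cast at h2
    have hm : (m : ℚ) + 1 ≠ 0 := by positivity
    apply mul_right_cancel₀ hm
    linear_combination h2
  have a3 : (((m + 1 + (m + 1)).choose (m + 1) : ℕ) : ℚ) = ((m + 1).centralBinom : ℚ) := by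
    rw [Nat.centralBinom_eq_two_mul_choose, two_mul]
  unfold tt gg
  rw [show 2 * (m + 1) + 1 = 2 * m + 3 by ring, a3]
  push_cast
  have e4 : m + 1 + 1 = m + 2 := by ring
  rw [e4]
  generalize (((2 * m + 3).choose (m + 1) : ℕ) : ℚ) = A at *
  generalize (((m + (m + 1)).choose m : ℕ) : ℚ) = Q at *
  generalize (((m + 2).centralBinom : ℕ) : ℚ) = Bd at *
  generalize (((m + 1).centralBinom : ℕ) : ℚ) = Bc at *
  generalize (-1 : ℚ) ^ (m + 1) = s
  have hm1 : (m : ℚ) + 1 ≠ 0 := by positivity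
  have hm2 : (m : ℚ) + 2 ≠ 0 := by positivity
  have hm3 : 2 * (m : ℚ) + 2 ≠ 0 := by positivity
  have hm4 : 2 * (m : ℚ) + 3 ≠ 0 := by positivity
  have hA : A = (2 * m + 3) * Bc / (m + 2) := by
    rw [eq_div_iff hm2]; linear_combination a1
  have hQ : Q = Bc / 2 := by linear_combination a2 / 2
  have hBd : Bd = 2 * (2 * m + 3) * Bc / (m + 2) := by
    rw [eq_div_iff hm2]; linear_combination a6
  rw [hA, hQ, hBd]
  field_simp
  ring

theorem UU_eq (m : ℕ) : UU m = ∑ j ∈ range (m + 1), tt m j := by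
  induction m with
  | zero =>
    have h1 : Nat.centralBinom 1 = 2 := by decide
    simp [UU, tt, h1]
    norm_num
  | succ m ih =>
    have h1 : ∑ j ∈ range (m + 1), (tt (m + 1) j - tt m j) = gg m (m + 1) - gg m 0 := by
      rw [← sum_range_sub (fun j => gg m j)]
      exact sum_congr rfl fun j _ => wz m j
    rw [gg_zero, sub_zero, sum_sub_distrib, ← ih] at h1
    have h2 : UU (m + 1) = UU m + (205 * ((m + 1 : ℕ) : ℚ) ^ 2 + 160 * ((m + 1 : ℕ) : ℚ) + 32) *
      (-1) ^ (m + 1) * ((m + 1).centralBinom : ℚ) ^ 5 := by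
      unfold UU
      rw [sum_range_succ _ (m + 1)]
    rw [sum_range_succ, h2, ← edge]
    linarith

/-- the formula from the other edge -/
theorem UU_other (m : ℕ) : UU m = 8 * (((m : ℚ) + 1) * ((m + 1).centralBinom : ℚ)) ^ 2 *
    ∑ i ∈ range (m + 1), (-1) ^ i * ((2 * m + 1).choose i : ℚ) *
      ((2 * m + 1 + m - i).choose m : ℚ) ^ 2 := by
  have h := total m
  rw [show 2 * m + 2 = (m + 1) + (m + 1) by ring, sum_range_add, ← UU_eq] at h
  have h2 : ∑ j ∈ range (m + 1), tt m (m + 1 + j) =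
      ∑ i ∈ range (m + 1), tt m (m + 1 + (m + 1 - 1 - i)) := by
    rw [sum_range_reflect (fun j => tt m (m + 1 + j))]
  rw [h2] at h
  have h3 : ∑ i ∈ range (m + 1), tt m (m + 1 + (m + 1 - 1 - i)) =
      -(8 * (((m : ℚ) + 1) * ((m + 1).centralBinom : ℚ)) ^ 2 *
    ∑ i ∈ range (m + 1), (-1) ^ i * ((2 * m + 1).choose i : ℚ) *
      ((2 * m + 1 + m - i).choose m : ℚ) ^ 2) := by
    rw [mul_sum, ← sum_neg_distrib]
    refine sum_congr rfl fun i hi => ?_
    have hi' := mem_range.1 hi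
    obtain ⟨t, ht⟩ : ∃ t, m = i + t := ⟨m - i, by omega⟩
    have e1 : m + 1 + (m + 1 - 1 - i) = 2 * m + 1 - i := by omega
    have e2 : m + (2 * m + 1 - i) = 2 * m + 1 + m - i := by omega
    rw [e1]
    unfold tt
    rw [e2, Nat.choose_symm (by omega : i ≤ 2 * m + 1)]
    have e3 : (-1 : ℚ) ^ (2 * m + 1 - i) = -(-1) ^ i := by
      have : (-1 : ℚ) ^ (2 * m + 1 - i) * (-1) ^ i = -1 := by
        rw [← pow_add, Nat.sub_add_cancel (by omega), pow_succ, pow_mul]
        norm_num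
      have h4 : ((-1 : ℚ) ^ i) ^ 2 = 1 := by rw [← pow_mul, mul_comm, pow_mul]; norm_num
      have h5 : (-1 : ℚ) ^ (2 * m + 1 - i) = (-1 : ℚ) ^ (2 * m + 1 - i) * ((-1) ^ i) ^ 2 := by
        rw [h4, mul_one]
      rw [h5]
      linear_combination (-1 : ℚ) ^ i * this
    rw [e3]
    ring
  rw [h3] at h
  linarith

end Pool.Agent.R439.V5
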