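import Mathlib
import Pool.Agent.R439.V5A
import Pool.Agent.R439.S4G

set_option autoImplicit false

/-!
The half-range sum of `(205k^2+160k+32)(-1)^k C(2k,k)^5` modulo `p^6`.
-/

namespace Pool.Agent.R439.PL.V5

open Finset Pool.Agent.R439.PL.S4 Pool.Agent.R439.S4 Pool.Agent.R439.V5

variable {p m : ℕ} [hp : Fact p.Prime]

/-- the product of the two binomial coefficients -/
def XX (p m i : ℕ) : ℚ := (m.centralBinom : ℚ) * ((p + m - i).choose m : ℚ)

theorem UU_XX (hpm : p = 2 * m + 1) : UU m = 32 * (p : ℚ) ^ 2 *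
    ∑ i ∈ range (m + 1), (-1) ^ i * (p.choose i : ℚ) * XX p m i ^ 2 := by
  rw [UU_other, mul_sum, mul_sum]
  refine sum_congr rfl fun i _ => ?_
  have h : ((m : ℚ) + 1) * ((m + 1).centralBinom : ℚ) = 2 * p * (m.centralBinom : ℚ) := by
    have h := Nat.succ_mul_centralBinom_succ m
    have h2 : ((m + 1 : ℕ) : ℚ) * ((m + 1).centralBinom : ℕ) = 2 * (2 * (m : ℕ) + 1) *
      (m.centralBinom : ℕ) := by exact_mod_cast h
    have h4 : (p : ℚ) = 2 * m + 1 := by exact_mod_cast hpm
    rw [h4]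
    push_cast at h2
    linear_combination h2
  rw [h, ← hpm, XX]
  ring

theorem XX_zero (hpm : p = 2 * m + 1) : XX p m 0 = (-1) ^ m * prs p m := by
  have h1 := prs_fac (p := p) m (by omega)
  rw [show p - 1 - m = m by omega] at h1
  have h2 := Nat.choose_mul_factorial_mul_factorial (show m ≤ p + m by omega)
  rw [show p + m - m = p by omega] at h2
  have h3 := Nat.choose_mul_factorial_mul_factorial (show m ≤ 2 * m by omega)
  rw [show 2 * m - m = m by omega, ← Nat.centralBinom_eq_two_mul_choose] at h3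
  have h4 : (p.factorial : ℚ) = p * ((2 * m).factorial : ℚ) := by
    rw [hpm, Nat.factorial_succ]; push_cast; ring
  have h2' : (((p + m).choose m : ℕ) : ℚ) * m.factorial * p.factorial = (p + m).factorial := by
    exact_mod_cast h2
  have h3' : ((m.centralBinom : ℕ) : ℚ) * m.factorial * m.factorial = (2 * m).factorial := by
    exact_mod_cast h3
  unfold XX
  rw [Nat.sub_zero]
  have n1 : (m.factorial : ℚ) ≠ 0 := by positivity
  have n2 : ((2 * m).factorial : ℚ) ≠ 0 := by positivity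
  have n3 : (p : ℚ) ≠ 0 := p_ne
  rw [h4, h1] at h2'
  have h5 : (((p + m).choose m : ℕ) : ℚ) * ((2 * m).factorial : ℚ) =
      (-1) ^ m * (m.factorial : ℚ) ^ 2 * prs p m := by
    apply mul_left_cancel₀ (mul_ne_zero n1 n3)
    linear_combination h2'
  apply mul_right_cancel₀ (mul_ne_zero n1 n1)
  rw [← h3'] at h5
  have h6 : ((m.centralBinom : ℕ) : ℚ) ≠ 0 := by
    exact_mod_cast (Nat.centralBinom_pos m).ne'
  linear_combination h5

theorem XX_rec {i : ℕ} (hi : i < p) : XX p m (i + 1) * (p + m - i) = XX p m i * (p - i) := by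
  have h := ch_up (p + m - (i + 1)) m
  rw [show p + m - (i + 1) + 1 = p + m - i by omega] at h
  have e : ((p + m - (i + 1) : ℕ) : ℚ) = (p : ℚ) + m - i - 1 := by
    rw [Nat.cast_sub (by omega)]; push_cast; ring
  rw [e] at h
  unfold XX
  linear_combination (m.centralBinom : ℚ) * h

theorem prs_four (hpm : p = 2 * m + 1) : I p 4 (prs p m - (1 - (p : ℚ) ^ 2 * HH m 2)) := by
  have h := prod_lin (p := p) (s := range m) (x := fun i : ℕ => (p : ℚ) ^ 2 / ((i : ℚ) + 1) ^ 2)
    (fun i hi => by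
      have hi' := mem_range.1 hi
      have hu := U_nat (p := p) (k := i + 1) (by omega) (by omega)
      refine ⟨(((i + 1 : ℕ) : ℚ) ^ 2)⁻¹, (hu.pow 2).2.2, ?_⟩
      push_cast; rfl)
  have e2 : ∑ i ∈ range m, ((p : ℚ) ^ 2 / ((i : ℚ) + 1) ^ 2) = (p : ℚ) ^ 2 * HH m 2 := by
    unfold HH
    rw [mul_sum]
    exact sum_congr rfl fun i _ => by ring
  rw [e2] at h
  exact h

theorem X0_sq (hpm : p = 2 * m + 1) : I p 4 (XX p m 0 ^ 2 - (1 - 2 * (p : ℚ) ^ 2 * HH m 2)) := by
  have h := prs_four hpm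
  have hm := HH_mem hpm 2
  have e : (-1 : ℚ) ^ m * (-1) ^ m = 1 := by
    rw [← pow_add, ← two_mul, pow_mul]; norm_num
  have hp2 : (p : ℚ) ^ 2 ∈ Zp p := pow_mem p_mem 2
  have h0 : prs p m ∈ Zp p := ((prs_eq (p := p) (s := m) (by omega))).1
  have h1 : I p 4 ((prs p m - (1 - (p : ℚ) ^ 2 * HH m 2)) * (prs p m + (1 - (p : ℚ) ^ 2 * HH m 2))) :=
    h.mulR (add_mem h0 (sub_mem (one_mem _) (mul_mem hp2 hm)))
  have h2 : I p 4 ((p : ℚ) ^ 4 * HH m 2 ^ 2) := ⟨HH m 2 ^ 2, pow_mem hm 2, rfl⟩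
  rw [XX_zero hpm]
  have := h1.add h2
  convert this using 1
  linear_combination (prs p m) ^ 2 * e

theorem two_m (hpm : p = 2 * m + 1) : (p : ℚ) = 2 * m + 1 := by exact_mod_cast hpm

/-- `X_{j+1} = p y`, `y ≡ (-1)^(m+1)/((j+1) ch (j+1))` -/
theorem XX_y (hpm : p = 2 * m + 1) : ∀ j < m, ∃ y : ℚ, XX p m (j + 1) = p * y ∧
    EQ p 1 y ((-1) ^ (m + 1) / (((j : ℚ) + 1) * ch (j + 1))) := by
  have hc := two_m hpm
  have hu2 : m ≠ 0 → U p (2 : ℚ) := fun h => by
    have := U_nat (p := p) (k := 2) (by omega) (by omega)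
    exact_mod_cast this
  intro j
  induction j with
  | zero =>
    intro hj
    have u2 := hu2 (by omega)
    have h := XX_rec (p := p) (m := m) (i := 0) (by omega)
    rw [XX_zero hpm] at h
    have hpmU : U p ((p : ℚ) + m) := by
      have : ¬ p ∣ p + m := by
        intro hd
        have := (Nat.dvd_add_right (dvd_refl p)).1 hd
        have := Nat.le_of_dvd (by omega) this
        omega
      have := U_nat' (p := p) (k := p + m) this
      push_cast at this
      exact this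
    refine ⟨(-1) ^ m * prs p m / (p + m), ?_, ?_⟩
    · rw [← mul_div_assoc, eq_div_iff hpmU.1]
      push_cast at h
      linear_combination h
    · have e1 : EQ p 1 ((p : ℚ) + m) (-(1 / 2)) := by
        refine ⟨hpmU.2.1, neg_mem (by rw [one_div]; exact u2.2.2), 3 / 2, ?_, ?_⟩
        · rw [div_eq_mul_inv]; exact mul_mem n3 u2.2.2
        · rw [hc]; ring
      have e2 : EQ p 1 ((-1) ^ m * prs p m) ((-1) ^ m * 1) :=
        (EQ.refl (pow_mem (neg_mem (one_mem _)) m)).mul ((prs_eq (by omega)).mono (by norm_num))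
      have uh : U p (-(1 / 2) : ℚ) := e1.unit one_pos hpmU
      have e3 := e2.div one_pos e1 hpmU
      have e4 : (-1 : ℚ) ^ m * 1 / -(1 / 2) = (-1) ^ (m + 1) / ((((0 : ℕ) : ℚ) + 1) * ch (0 + 1)) := by
        have : ch (0 + 1) = 1 / 2 := by rw [ch_succ, ch_zero]; norm_num
        rw [this, pow_succ]; push_cast; ring
      rw [← e4]; exact e3
  | succ j ih =>
    intro hj
    have u2 := hu2 (by omega)
    obtain ⟨y, hy, hye⟩ := ih (by omega)
    have h := XX_rec (p := p) (m := m) (i := j + 1) (by omega)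
    rw [hy] at h
    push_cast at h
    have hU : U p ((p : ℚ) + m - (j + 1)) := by
      have h1 : ¬ p ∣ p + (m - (j + 1)) := by
        intro hd
        have := (Nat.dvd_add_right (dvd_refl p)).1 hd
        have := Nat.le_of_dvd (by omega) this
        omega
      have := U_nat' (p := p) (k := p + (m - (j + 1))) h1
      rw [Nat.cast_add, Nat.cast_sub (by omega)] at this
      push_cast at this
      convert this using 1
      ring
    refine ⟨y * (p - (j + 1)) / (p + m - (j + 1)), ?_, ?_⟩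
    · rw [← mul_div_assoc, eq_div_iff hU.1]
      linear_combination h
    · have hj' : ((j : ℚ)) ∈ Zp p := nat_mem j
      have half : (1 / 2 : ℚ) ∈ Zp p := by rw [one_div]; exact u2.2.2
      have e1 : EQ p 1 ((p : ℚ) + m - (j + 1)) (-((j : ℚ) + 3 / 2)) := by
        refine ⟨hU.2.1, neg_mem (add_mem hj' ?_), 3 / 2, ?_, ?_⟩
        · rw [div_eq_mul_inv]; exact mul_mem n3 u2.2.2
        · rw [div_eq_mul_inv]; exact mul_mem n3 u2.2.2
        · rw [hc]; ring
      have e2 : EQ p 1 ((p : ℚ) - (j + 1)) (-((j : ℚ) + 1)) := by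
        refine ⟨sub_mem p_mem (add_mem hj' (one_mem _)), neg_mem (add_mem hj' (one_mem _)), 1,
          one_mem _, by ring⟩
      have uh : U p (-((j : ℚ) + 3 / 2)) := e1.unit one_pos hU
      have e3 := (hye.mul e2).div one_pos e1 hU
      have hn0 := uh.1
      have e4 : (-1 : ℚ) ^ (m + 1) / (((j : ℚ) + 1) * ch (j + 1)) * (-((j : ℚ) + 1)) /
          (-((j : ℚ) + 3 / 2)) = (-1) ^ (m + 1) / ((((j + 1 : ℕ) : ℚ) + 1) * ch (j + 1 + 1)) := by
        rw [ch_succ (j + 1)]
        have c0 := ch_ne (j + 1)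
        have h1 : (j : ℚ) + 1 ≠ 0 := by positivity
        have h2 : (j : ℚ) + 3 / 2 ≠ 0 := by positivity
        have h3 : 2 * ((j : ℚ) + 1) + 1 ≠ 0 := by positivity
        push_cast
        field_simp
        ring
      rw [← e4]
      exact e3

/-- `(-1)^(j+1) C(p,j+1) = p κ`, `κ ≡ -1/(j+1)` -/
theorem kap_y (hpm : p = 2 * m + 1) : ∀ j < m, ∃ y : ℚ, (-1) ^ (j + 1) * (p.choose (j + 1) : ℚ) =
    p * y ∧ EQ p 1 y (-(1 / ((j : ℚ) + 1))) := by
  intro j
  induction j with
  | zero =>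
    intro _
    refine ⟨-1, ?_, ?_⟩
    · simp
    · have : (-(1 / (((0 : ℕ) : ℚ) + 1)) : ℚ) = -1 := by norm_num
      rw [this]
      exact EQ.refl (neg_mem (one_mem _))
  | succ j ih =>
    intro hj
    obtain ⟨y, hy, hye⟩ := ih (by omega)
    have h := ch_right p (j + 1)
    have hj' : ((j : ℚ)) ∈ Zp p := nat_mem j
    have u := U_nat (p := p) (k := j + 2) (by omega) (by omega)
    push_cast at u h
    have n0 := u.1
    refine ⟨-(y * (p - (j + 1)) / (j + 2)), ?_, ?_⟩
    · have h2 : (p.choose (j + 1 + 1) : ℚ) = (p.choose (j + 1) : ℚ) * (p - (j + 1)) / (j + 2) := by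
        rw [eq_div_iff n0]
        linear_combination h
      rw [h2, pow_succ]
      have h3 : (-1 : ℚ) ^ (j + 1) * -1 * ((p.choose (j + 1) : ℚ) * (p - (j + 1)) / (j + 2)) =
        -(((-1 : ℚ) ^ (j + 1) * (p.choose (j + 1) : ℚ)) * (p - (j + 1)) / (j + 2)) := by ring
      rw [h3, hy]
      ring
    · have e2 : EQ p 1 ((p : ℚ) - (j + 1)) (-((j : ℚ) + 1)) := by
        refine ⟨sub_mem p_mem (add_mem hj' (one_mem _)), neg_mem (add_mem hj' (one_mem _)), 1,
          one_mem _, by ring⟩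
      have e3 := ((hye.mul e2).div one_pos (EQ.refl u.2.1) u).neg
      have h1 : (j : ℚ) + 1 ≠ 0 := by positivity
      have h2 : (j : ℚ) + 2 ≠ 0 := by positivity
      have e4 : -(-(1 / ((j : ℚ) + 1)) * (-((j : ℚ) + 1)) / (j + 2)) =
          -(1 / (((j + 1 : ℕ) : ℚ) + 1)) := by
        push_cast
        field_simp
        ring
      rw [← e4]
      exact e3

theorem final (hpm : p = 2 * m + 1) (h3 : 3 < p) :
    I p 6 (UU m - (32 * (p : ℚ) ^ 2 + 896 / 3 * (p : ℚ) ^ 5 * bernoulli (p - 3))) := by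
  have key : I p 4 (∑ i ∈ range (m + 1), (-1) ^ i * (p.choose i : ℚ) * XX p m i ^ 2 -
      (1 - 2 * (p : ℚ) ^ 2 * HH m 2 - (p : ℚ) ^ 3 * WW m)) := by
    rw [sum_range_succ']
    have h0 := X0_sq hpm
    have h1 : I p 4 (∑ j ∈ range m, ((-1) ^ (j + 1) * (p.choose (j + 1) : ℚ) * XX p m (j + 1) ^ 2 +
        (p : ℚ) ^ 3 * aa (j + 1) m)) := by
      refine I.sum fun j hj => ?_
      have hj' := mem_range.1 hj
      obtain ⟨y, hy, hye⟩ := XX_y hpm j hj'
      obtain ⟨z, hz, hze⟩ := kap_y hpm j hj'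
      have ha := aa_ch hpm hj'
      have h4 := hze.mul (hye.pow 2)
      have e1 : (-1 : ℚ) ^ (m + 1) * (-1) ^ (m + 1) = 1 := by
        rw [← pow_add, ← two_mul, pow_mul]; norm_num
      have e2 : -(1 / ((j : ℚ) + 1)) * ((-1) ^ (m + 1) / (((j : ℚ) + 1) * ch (j + 1))) ^ 2 =
          -(1 / (((j : ℚ) + 1) ^ 3 * ch (j + 1) ^ 2)) := by
        have c0 := ch_ne (j + 1)
        have h1 : (j : ℚ) + 1 ≠ 0 := by positivity
        rw [div_pow, sq ((-1 : ℚ) ^ (m + 1)), e1]
        field_simp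
      rw [e2] at h4
      have h5 := (h4.add ha).2.2
      have h6 : I p 1 (z * y ^ 2 + aa (j + 1) m) := by
        convert h5 using 1
        ring
      rw [hz, hy]
      have h7 := (I_pow (p := p) 3).mul h6
      convert h7 using 1
      ring
    have h2 := h0.add h1
    rw [sum_add_distrib, ← mul_sum] at h2
    convert h2 using 1
    simp only [pow_zero, Nat.choose_zero_right, Nat.cast_one, one_mul, WW]
    ring
  have k2 := (I_pow (p := p) 2).mul (H2_eq hpm)
  have k3 := (I_pow (p := p) 3).mul (W_eq hpm)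
  have k4 := (I_pow (p := p) 3).mul (H3_eq hpm h3)
  have n14 : (14 : ℚ) ∈ Zp p := by exact_mod_cast nat_mem (p := p) 14
  have n96 : (32 : ℚ) ∈ Zp p := by exact_mod_cast nat_mem (p := p) 32
  have k5 : I p 4 (3 * ∑ i ∈ range (m + 1), (-1) ^ i * (p.choose i : ℚ) * XX p m i ^ 2 -
      (3 + 28 * (p : ℚ) ^ 3 * bernoulli (p - 3))) := by
    have := (((key.mulL (n3 (p := p))).sub k2).sub (k3.mulL (n3 (p := p)))).sub (k4.mulL n14)
    convert this using 1
    ring
  have k6 := ((I_pow (p := p) 2).mul k5).mulL n96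
  have u3 : U p (3 : ℚ) := by
    have := U_nat (p := p) (k := 3) (by omega) h3
    exact_mod_cast this
  apply u3.cancel
  rw [UU_XX hpm]
  convert k6 using 1
  ring

end Pool.Agent.R439.PL.V5
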