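import Mathlib
import Pool.Agent.R439.S4G
import Pool.Agent.R439.W3A

set_option autoImplicit false

/-!
The half sums `∑_{k ≤ M} C(2k,k)^3/64^k` for `2M + 1 = p^r`, `p ≡ 3 mod 4`.
-/

namespace Pool.Agent.R439.PL.W4

open Finset Pool.Agent.R439.PL.S4 Pool.Agent.R439.S4 Pool.Agent.R439.W3

/-! ### An exact evaluation -/

def TT (M k : ℕ) : ℚ := (M.choose k : ℚ) * ((M + k).choose k : ℚ) * ((-1) ^ k * ch k)

def WW (M k : ℕ) : ℚ := ((M + 2).choose k : ℚ) * ((M + k).choose k : ℚ) * ((-1) ^ k * ch k)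

def XX (M : ℕ) : ℚ := ∑ k ∈ range (M + 1), TT M k

theorem TT_lo (M k : ℕ) : TT M k * (((M : ℚ) + 1) * ((M : ℚ) + 2)) =
    WW M k * (((M : ℚ) + 2 - k) * ((M : ℚ) + 1 - k)) := by
  have h1 := ch_up M k
  have h2 := ch_up (M + 1) k
  rw [show M + 1 + 1 = M + 2 by ring] at h2
  push_cast at h1 h2
  rw [TT, WW]
  linear_combination ((M + k).choose k : ℚ) * ((-1) ^ k * ch k) * (((M : ℚ) + 2) * h1 +
    ((M : ℚ) + 1 - k) * h2)

theorem TT_hi (M k : ℕ) : TT (M + 2) k * (((M : ℚ) + 1) * ((M : ℚ) + 2)) =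
    WW M k * (((M : ℚ) + k + 1) * ((M : ℚ) + k + 2)) := by
  have h1 := ch_up (M + k) k
  have h2 := ch_up (M + k + 1) k
  rw [show M + k + 1 + 1 = M + k + 2 by ring] at h2
  push_cast at h1 h2
  rw [TT, WW, show M + 2 + k = M + k + 2 by ring]
  linear_combination (-((M + 2).choose k : ℚ)) * ((-1) ^ k * ch k) * (((M : ℚ) + 1) * h2 +
    ((M : ℚ) + k + 2) * h1)

theorem WW_succ (M k : ℕ) : WW M (k + 1) * (((k : ℚ) + 1) ^ 2 * (2 * k + 2)) =
    -(WW M k * (((M : ℚ) + 2 - k) * ((M : ℚ) + k + 1) * (2 * k + 1))) := by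
  have h1 := ch_right (M + 2) k
  have h2 := ch_diag (M + k) k
  have h3 := ch_succ k
  have h4 : 2 * (k : ℚ) + 2 ≠ 0 := by positivity
  rw [mul_div_assoc', eq_div_iff h4] at h3
  push_cast at h1 h2
  rw [WW, WW, ← add_assoc, pow_succ]
  linear_combination (-(-1 : ℚ) ^ k) * (ch (k + 1) * (2 * k + 2) * ((M + k + 1).choose (k + 1) : ℚ) *
    ((k : ℚ) + 1) * h1 + ch (k + 1) * (2 * k + 2) * ((M + 2).choose k : ℚ) * ((M : ℚ) + 2 - k) * h2 +
    ((M + 2).choose k : ℚ) * ((M : ℚ) + 2 - k) * ((M + k).choose k : ℚ) * ((M : ℚ) + k + 1) * h3)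

def HG (M k : ℕ) : ℚ := -2 * (2 * (M : ℚ) + 3) * (k : ℚ) ^ 3 / (((M : ℚ) + 1) * ((M : ℚ) + 2)) * WW M k

theorem tele (M k : ℕ) : ((M : ℚ) + 2) ^ 2 * TT (M + 2) k - ((M : ℚ) + 1) ^ 2 * TT M k =
    HG M (k + 1) - HG M k := by
  have h1 := TT_lo M k
  have h2 := TT_hi M k
  have h3 := WW_succ M k
  have c1 : (M : ℚ) + 1 ≠ 0 := by positivity
  have c2 : (M : ℚ) + 2 ≠ 0 := by positivity
  have c3 : (k : ℚ) + 1 ≠ 0 := by positivity
  rw [HG, HG]
  push_cast
  rw [div_mul_eq_mul_div, div_mul_eq_mul_div, ← sub_div, eq_div_iff (mul_ne_zero c1 c2)]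
  linear_combination ((M : ℚ) + 2) ^ 2 * h2 - ((M : ℚ) + 1) ^ 2 * h1 + (2 * (M : ℚ) + 3) * h3

theorem XX_rec (M : ℕ) : ((M : ℚ) + 2) ^ 2 * XX (M + 2) = ((M : ℚ) + 1) ^ 2 * XX M := by
  have h1 : ∑ k ∈ range (M + 3), (((M : ℚ) + 2) ^ 2 * TT (M + 2) k - ((M : ℚ) + 1) ^ 2 * TT M k) =
      HG M (M + 3) - HG M 0 := by
    rw [← sum_range_sub (fun k => HG M k)]
    exact sum_congr rfl fun k _ => tele M k
  have h2 : HG M (M + 3) = 0 := by
    rw [HG, WW, Nat.choose_eq_zero_of_lt (by omega : M + 2 < M + 3)]; simp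
  have h3 : HG M 0 = 0 := by rw [HG]; simp
  rw [h2, h3, sub_zero, sum_sub_distrib, ← mul_sum, ← mul_sum] at h1
  have h4 : ∑ k ∈ range (M + 3), TT M k = XX M := by
    rw [XX, sum_range_succ, sum_range_succ]
    have a1 : TT M (M + 1) = 0 := by rw [TT, Nat.choose_eq_zero_of_lt (by omega : M < M + 1)]; simp
    have a2 : TT M (M + 2) = 0 := by rw [TT, Nat.choose_eq_zero_of_lt (by omega : M < M + 2)]; simp
    rw [a1, a2]; ring
  rw [h4] at h1
  rw [XX, show M + 2 + 1 = M + 3 by ring]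
  linear_combination h1

theorem XX_odd (l : ℕ) : XX (2 * l + 1) = 0 := by
  induction l with
  | zero =>
    have : ch 1 = 1 / 2 := by have := ch_succ 0; rw [ch_zero] at this; simpa using this
    rw [XX, mul_zero, zero_add, sum_range_succ, sum_range_one, TT, TT, ch_zero, this]
    norm_num
  | succ l ih =>
    have h := XX_rec (2 * l + 1)
    rw [ih, mul_zero] at h
    have c : (((2 * l + 1 : ℕ) : ℚ) + 2) ^ 2 ≠ 0 := by positivity
    rw [show 2 * (l + 1) + 1 = 2 * l + 1 + 2 by ring]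
    exact (mul_eq_zero.1 h).resolve_left c

theorem XX_even (l : ℕ) : XX (2 * l) = ch l ^ 2 := by
  induction l with
  | zero => simp [XX, TT, ch_zero]
  | succ l ih =>
    have h := XX_rec (2 * l)
    rw [ih] at h
    have c : (((2 * l : ℕ) : ℚ) + 2) ≠ 0 := by positivity
    rw [show 2 * (l + 1) = 2 * l + 2 by ring, ch_succ]
    push_cast at h c
    rw [mul_pow, div_pow]
    field_simp
    linear_combination h

theorem TT_eq (M k : ℕ) : TT M k = ch k ^ 3 *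
    ∏ t ∈ range k, (1 - ((2 * (M : ℚ) + 1) / (2 * (t : ℚ) + 1)) ^ 2) := by
  induction k with
  | zero => simp [TT, ch_zero]
  | succ k ih =>
    have h1 := ch_right M k
    have h2 := ch_diag (M + k) k
    have h5 : TT M (k + 1) * (((k : ℚ) + 1) ^ 2 * (2 * k + 2)) =
        -(TT M k * (((M : ℚ) - k) * ((M : ℚ) + k + 1) * (2 * k + 1))) := by
      have h3 := ch_succ k
      have h4 : 2 * (k : ℚ) + 2 ≠ 0 := by positivity
      rw [mul_div_assoc', eq_div_iff h4] at h3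
      push_cast at h1 h2
      rw [TT, TT, ← add_assoc, pow_succ]
      linear_combination (-(-1 : ℚ) ^ k) * (ch (k + 1) * (2 * k + 2) *
        ((M + k + 1).choose (k + 1) : ℚ) *
        ((k : ℚ) + 1) * h1 + ch (k + 1) * (2 * k + 2) * (M.choose k : ℚ) * ((M : ℚ) - k) * h2 +
        (M.choose k : ℚ) * ((M : ℚ) - k) * ((M + k).choose k : ℚ) * ((M : ℚ) + k + 1) * h3)
    have c1 : (k : ℚ) + 1 ≠ 0 := by positivity
    have c2 : 2 * (k : ℚ) + 2 ≠ 0 := by positivity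
    have c3 : 2 * (k : ℚ) + 1 ≠ 0 := by positivity
    rw [prod_range_succ, ch_succ]
    have c4 : (((k : ℚ) + 1) ^ 2 * (2 * k + 2)) ≠ 0 := mul_ne_zero (pow_ne_zero _ c1) c2
    apply mul_right_cancel₀ c4
    rw [h5, ih]
    generalize ∏ t ∈ range k, (1 - ((2 * (M : ℚ) + 1) / (2 * (t : ℚ) + 1)) ^ 2) = P
    have c5 : 2 * (k : ℚ) + 2 = 2 * (k + 1) := by ring
    rw [c5]
    field_simp
    ring

/-! ### Lucas congruences -/

variable {p m : ℕ} [hp : Fact p.Prime]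

theorem ch_lucas' (hpm : p = 2 * m + 1) (hm : 0 < m) (k c : ℕ) (hc : c ≤ m) :
    EQ p 1 (ch (p * k + c)) (ch c * ch k) := by
  have hp2 : p ≠ 2 := by omega
  have h1 : EQ p 1 (((2 * (p * k + c)).choose (p * k + c) : ℕ) : ℚ)
      (((2 * c).choose c : ℕ) * ((2 * k).choose k : ℕ) : ℚ) := by
    have h2 := Choose.choose_modEq_choose_mod_mul_choose_div (n := 2 * (p * k + c)) (k := p * k + c)
      (p := p)
    have a1 : 2 * (p * k + c) = 2 * c + p * (2 * k) := by ring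
    have a2 : p * k + c = c + p * k := by ring
    have a3 : (2 * (p * k + c)) % p = 2 * c := by
      rw [a1, Nat.add_mul_mod_self_left, Nat.mod_eq_of_lt (by omega)]
    have a4 : (2 * (p * k + c)) / p = 2 * k := by
      rw [a1, Nat.add_mul_div_left _ _ hp.out.pos, Nat.div_eq_of_lt (by omega), zero_add]
    have a5 : (p * k + c) % p = c := by
      rw [a2, Nat.add_mul_mod_self_left, Nat.mod_eq_of_lt (by omega)]
    have a6 : (p * k + c) / p = k := by
      rw [a2, Nat.add_mul_div_left _ _ hp.out.pos, Nat.div_eq_of_lt (by omega), zero_add]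
    rw [a3, a4, a5, a6] at h2
    have h3 := EQ_of_modEq h2
    push_cast at h3 ⊢
    exact h3
  have h4 : EQ p 1 ((4 : ℚ) ^ (p * k + c)) (4 ^ c * 4 ^ k) := by
    have h5 : ((4 : ℤ) ^ k) ^ p ≡ 4 ^ k [ZMOD p] := by
      rw [← ZMod.intCast_eq_intCast_iff]
      push_cast
      exact ZMod.pow_card _
    have h6 := EQ_of_modEq h5
    push_cast at h6
    have h7 := (EQ.refl (k := 1) ((U4 hp2 c).2.1)).mul h6
    have e : (4 : ℚ) ^ (p * k + c) = 4 ^ c * (4 ^ k) ^ p := by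
      rw [pow_add, ← pow_mul]; ring
    rw [e]
    exact h7
  have h8 := h1.div one_pos h4 (U4 hp2 _)
  have e1 : ch (p * k + c) = (((2 * (p * k + c)).choose (p * k + c) : ℕ) : ℚ) / 4 ^ (p * k + c) := by
    rw [eq_div_iff (U4 (p := p) hp2 _).1, ch_C]
  have e2 : ch c * ch k = (((2 * c).choose c : ℕ) * ((2 * k).choose k : ℕ) : ℚ) / (4 ^ c * 4 ^ k) := by
    rw [eq_div_iff (mul_ne_zero (U4 (p := p) hp2 _).1 (U4 (p := p) hp2 _).1), ← ch_C, ← ch_C]; ring
  rw [e1, e2]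
  exact h8

theorem I_ch_of_dvd (hp2 : p ≠ 2) {e k : ℕ} (h : p ^ e ∣ (2 * k).choose k) : I p e (ch k) := by
  obtain ⟨c, hc⟩ := h
  have h1 := ch_C k
  have hu := U4 (p := p) hp2 k
  refine ⟨(c : ℚ) * ((4 : ℚ) ^ k)⁻¹, mul_mem (nat_mem c) hu.2.2, ?_⟩
  rw [hc] at h1
  push_cast at h1
  have h2 := hu.1
  field_simp
  linear_combination h1

theorem fac_choose (k b : ℕ) (hb : Nat.log p (k + k) < b) :
    (Nat.choose (2 * k) k).factorization p = #{i ∈ Ico 1 b | p ^ i ≤ k % p ^ i + k % p ^ i} := by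
  rw [two_mul]
  exact Nat.factorization_choose' hp.out hb

theorem dvd_one {k e : ℕ} (he : 0 < e) (h : p ^ e ≤ k % p ^ e + k % p ^ e) :
    p ^ 1 ∣ (2 * k).choose k := by
  rw [hp.out.pow_dvd_iff_le_factorization (Nat.choose_pos (by omega)).ne',
    fac_choose k (Nat.log p (k + k) + e + 1) (by omega)]
  rw [Nat.succ_le_iff, card_pos]
  exact ⟨e, by simp only [mem_filter, mem_Ico]; exact ⟨⟨he, by omega⟩, h⟩⟩

theorem dvd_two {k e : ℕ} (he : 1 < e) (h1 : p ^ 1 ≤ k % p ^ 1 + k % p ^ 1)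
    (h : p ^ e ≤ k % p ^ e + k % p ^ e) : p ^ 2 ∣ (2 * k).choose k := by
  rw [hp.out.pow_dvd_iff_le_factorization (Nat.choose_pos (by omega)).ne',
    fac_choose k (Nat.log p (k + k) + e + 1) (by omega)]
  have h2 : ({1, e} : Finset ℕ) ⊆ {i ∈ Ico 1 (Nat.log p (k + k) + e + 1) |
      p ^ i ≤ k % p ^ i + k % p ^ i} := by
    intro x hx
    simp only [mem_insert, mem_singleton] at hx
    simp only [mem_filter, mem_Ico]
    rcases hx with rfl | rfl
    · exact ⟨⟨le_refl _, by omega⟩, h1⟩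
    · exact ⟨⟨by omega, by omega⟩, h⟩
  have h3 := card_le_card h2
  rw [card_pair (by omega)] at h3
  exact h3

theorem ch_zero' (hpm : p = 2 * m + 1) (hm : 0 < m) (k c : ℕ) (hc : m < c) (hcp : c < p) :
    I p 1 (ch (p * k + c)) := by
  refine I_ch_of_dvd (by omega) (dvd_one (e := 1) one_pos ?_)
  have a5 : (p * k + c) % p = c := by
    rw [Nat.mul_add_mod, Nat.mod_eq_of_lt hcp]
  rw [pow_one, a5]
  omega

theorem lucas3 (hpm : p = 2 * m + 1) (hm : 0 < m) (k c : ℕ) (hcp : c < p) :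
    EQ p 1 (ch (p * k + c) ^ 3) (ch c ^ 3 * ch k ^ 3) := by
  rcases le_or_gt c m with h | h
  · have := (ch_lucas' hpm hm k c h).pow 3
    rwa [mul_pow] at this
  · have h1 := (EQ.of_I (ch_zero' hpm hm k c h hcp)).pow 3
    have h2 := (EQ.of_I (ch_zero' hpm hm 0 c h hcp)).pow 3
    rw [mul_zero, zero_add] at h2
    have h3 := h2.mul (EQ.refl (k := 1) (pow_mem (ch_mem (p := p) (by omega) k) 3))
    have e : ((0 : ℚ) ^ 3) * ch k ^ 3 = 0 ^ 3 := by ring
    rw [e] at h3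
    exact h1.trans h3.symm

/-! ### Partial sums -/

def UU (s : ℕ) : ℚ := ∑ i ∈ range s, ch i ^ 3

theorem UU_mem (hp2 : p ≠ 2) (s : ℕ) : UU s ∈ Zp p := sum_mem fun i _ => pow_mem (ch_mem hp2 i) 3

theorem UU_small (hpm : p = 2 * m + 1) (hm : 0 < m) {s : ℕ} (hs : s ≤ m + 1) :
    EQ p 1 (UU s) (Us (m - 1) s) := by
  rw [UU, Us]
  refine EQ.sum fun i hi => ?_
  have hi' := mem_range.1 hi
  have h := (ch_choose hpm (k := i) (by omega)).pow 3
  have e1 : m - 1 + 1 = m := by omega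
  rw [e1]
  have e2 : ((-1 : ℚ) ^ i * (m.choose i : ℚ)) ^ 3 = (-1) ^ i * (m.choose i : ℚ) ^ 3 := by
    rw [mul_pow, ← pow_mul, mul_comm i 3, pow_mul]; norm_num
  rwa [e2] at h

theorem UU_half (hpm : p = 2 * m + 1) (hm : Odd m) : I p 1 (UU (m + 1)) := by
  obtain ⟨a, ha⟩ := hm
  have h := UU_small (p := p) hpm (by omega) (le_refl (m + 1))
  have h1 := Us_odd (m - 1) ⟨a, by omega⟩
  rw [show m - 1 + 2 = m + 1 by omega] at h1
  rw [h1] at h
  have := h.2.2
  rwa [sub_zero] at this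

theorem UU_c (hpm : p = 2 * m + 1) (hm : Odd m) {c : ℕ} (hc : m < c) (hcp : c ≤ p) : I p 1 (UU c) := by
  have hm0 : 0 < m := hm.pos
  obtain ⟨t, ht⟩ : ∃ t, c = m + 1 + t := ⟨c - (m + 1), by omega⟩
  rw [ht, UU, sum_range_add, ← UU]
  refine (UU_half hpm hm).add (I.sum fun i hi => ?_)
  have hi' := mem_range.1 hi
  have h1 := ch_zero' hpm hm0 0 (m + 1 + i) (by omega) (by omega)
  rw [mul_zero, zero_add] at h1
  rw [show (3 : ℕ) = 2 + 1 by norm_num, pow_succ]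
  exact h1.mulL (pow_mem h1.mem 2)

theorem UU_part (hpm : p = 2 * m + 1) (hm : Odd m) (k : ℕ) {c : ℕ} (hc : m < c) (hcp : c ≤ p) :
    I p 1 (∑ i ∈ range c, ch (p * k + i) ^ 3) := by
  have hm0 : 0 < m := hm.pos
  have h1 : EQ p 1 (∑ i ∈ range c, ch (p * k + i) ^ 3) (∑ i ∈ range c, ch i ^ 3 * ch k ^ 3) :=
    EQ.sum fun i hi => lucas3 hpm hm0 k i (lt_of_lt_of_le (mem_range.1 hi) hcp)
  rw [← sum_mul, ← UU] at h1
  have h2 := (UU_c hpm hm hc hcp).mulR (pow_mem (ch_mem (p := p) (by omega) k) 3)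
  have h3 := h1.2.2.add h2
  rwa [sub_add_cancel] at h3

theorem UU_block (hpm : p = 2 * m + 1) (hm : Odd m) (k : ℕ) : I p 1 (UU (p * k)) := by
  have hm0 : 0 < m := hm.pos
  induction k with
  | zero => rw [mul_zero, UU, sum_range_zero]; exact I.zero
  | succ k ih =>
    rw [mul_add, mul_one, UU, sum_range_add, ← UU]
    exact ih.add (UU_part hpm hm k (by omega) (le_refl p))

theorem UU_big (hpm : p = 2 * m + 1) (hm : Odd m) (k : ℕ) {c : ℕ} (hc : m < c) (hcp : c ≤ p) :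
    I p 1 (UU (p * k + c)) := by
  rw [UU, sum_range_add, ← UU]
  exact (UU_block hpm hm k).add (UU_part hpm hm k hc hcp)

/-! ### The half sum modulo `p^2` -/

theorem prod_one {r M k : ℕ} (hM : p ^ r = 2 * M + 1) (hk : k ≤ M) :
    EQ p 2 (∏ t ∈ range k, (1 - ((2 * (M : ℚ) + 1) / (2 * (t : ℚ) + 1)) ^ 2)) 1 := by
  have hn : (2 * (M : ℚ) + 1) = (p : ℚ) ^ r := by
    have : ((p ^ r : ℕ) : ℚ) = ((2 * M + 1 : ℕ) : ℚ) := by rw [hM]
    push_cast at this
    exact this.symm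
  rw [hn]
  have h : EQ p 2 (∏ t ∈ range k, (1 - ((p : ℚ) ^ r / (2 * (t : ℚ) + 1)) ^ 2))
      (∏ _t ∈ range k, (1 : ℚ)) := by
    refine EQ.prod fun t ht => ?_
    have ht' := mem_range.1 ht
    have h1 := I_div (p := p) (a := 2 * t + 1) (r := r) (by omega) (by omega)
    push_cast at h1
    have h2 := h1.mul h1
    rw [← pow_two] at h2
    refine ⟨sub_mem (one_mem _) h2.mem, one_mem _, ?_⟩
    have e : 1 - ((p : ℚ) ^ r / (2 * (t : ℚ) + 1)) ^ 2 - 1 = -((p : ℚ) ^ r / (2 * (t : ℚ) + 1)) ^ 2 := by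
      ring
    rw [e]
    exact h2.neg
  rwa [prod_const_one] at h

theorem UU_XX (hp2 : p ≠ 2) {r M : ℕ} (hM : p ^ r = 2 * M + 1) : EQ p 2 (XX M) (UU (M + 1)) := by
  rw [XX, UU]
  refine EQ.sum fun k hk => ?_
  have hk' := mem_range.1 hk
  rw [TT_eq]
  have h1 := (EQ.refl (k := 2) (pow_mem (ch_mem (p := p) hp2 k) 3)).mul
    (prod_one hM (k := k) (by omega))
  rwa [mul_one] at h1

theorem I_half (hp4 : p % 4 = 3) {r M : ℕ} (hr : r ≠ 0) (hM : p ^ r = 2 * M + 1) :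
    I p 2 (UU (M + 1)) := by
  obtain ⟨m, hpm⟩ : ∃ m, p = 2 * m + 1 := ⟨p / 2, by omega⟩
  have hm0 : 0 < m := by have := hp.out.two_le; omega
  have h1 := UU_XX (p := p) (by omega) hM
  have h2 : I p 2 (XX M) := by
    rcases Nat.even_or_odd' M with ⟨l, hl | hl⟩
    · rw [hl, XX_even]
      have h3 : p ∣ 4 * (l % p) + 1 := by
        have h4 : p ∣ 4 * l + 1 := by
          rw [show 4 * l + 1 = p ^ r by omega]
          exact dvd_pow_self p hr
        have h5 : 4 * l + 1 = p * (4 * (l / p)) + (4 * (l % p) + 1) := by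
          have := Nat.div_add_mod l p
          calc 4 * l + 1 = 4 * (p * (l / p) + l % p) + 1 := by rw [this]
            _ = _ := by ring
        rw [h5] at h4
        exact (Nat.dvd_add_right (dvd_mul_right _ _)).1 h4
      have h6 : l % p < p := Nat.mod_lt _ hp.out.pos
      obtain ⟨d, hd⟩ := h3
      have h7 : m < l % p := by
        have hd4 : d < 4 := by
          by_contra hcon
          have : p * 4 ≤ p * d := Nat.mul_le_mul_left p (by omega)
          omega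
        interval_cases d <;> omega
      have h8 := ch_zero' hpm hm0 (l / p) (l % p) h7 h6
      rw [Nat.div_add_mod] at h8
      have h9 := h8.mul h8
      rwa [← pow_two] at h9
    · rw [hl, XX_odd]; exact I.zero
  have h3 := h2.sub h1.2.2
  have e : XX M - (XX M - UU (M + 1)) = UU (M + 1) := by ring
  rwa [e] at h3

end Pool.Agent.R439.PL.W4
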