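import Mathlib
import Pool.Agent.R439.W3B

set_option autoImplicit false

/-!
The convolution sums of `C(2k,k)^3/64^k` up to `p^r`, modulo `p^4`.
-/

namespace Pool.Agent.R439.PL.W4

open Finset Pool.Agent.R439.PL.S4 Pool.Agent.R439.S4 Pool.Agent.R439.W3

/-! ### Summation over triangles -/

theorem tri (x y : ℕ → ℚ) (N : ℕ) : ∑ i ∈ range N, x i * ∑ k ∈ range (N - i), y k =
    ∑ k ∈ range N, ∑ j ∈ range (k + 1), x j * y (k - j) := by
  induction N with
  | zero => simp
  | succ N ih =>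
    rw [sum_range_succ _ N, sum_range_succ _ N, ← ih, show N + 1 - N = 1 by omega, sum_range_one,
      sum_range_succ _ N, Nat.sub_self, ← add_assoc, ← sum_add_distrib]
    congr 1
    refine sum_congr rfl fun i hi => ?_
    have hi' := mem_range.1 hi
    rw [show N + 1 - i = N - i + 1 by omega, sum_range_succ]
    ring

theorem tri_swap (x y : ℕ → ℚ) (N : ℕ) : ∑ i ∈ range N, x i * ∑ k ∈ range (N - i), y k =
    ∑ i ∈ range N, y i * ∑ k ∈ range (N - i), x k := by
  rw [tri, tri]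
  refine sum_congr rfl fun k _ => ?_
  rw [← sum_range_reflect]
  refine sum_congr rfl fun j hj => ?_
  have hj' := mem_range.1 hj
  rw [show k + 1 - 1 - j = k - j by omega, show k - (k - j) = j by omega]
  ring

/-- the sum in terms of half sums -/
theorem split (M : ℕ) : ∑ i ∈ range (2 * M + 1), ch i ^ 3 * UU (2 * M + 1 - i) =
    UU (M + 1) ^ 2 + 2 * ∑ l ∈ range M, ch (M + 1 + l) ^ 3 * UU (M - l) := by
  have h1 : ∑ i ∈ range (2 * M + 1), ch i ^ 3 * UU (2 * M + 1 - i) =
      ∑ i ∈ range (M + 1), ch i ^ 3 * UU (2 * M + 1 - i) +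
      ∑ l ∈ range M, ch (M + 1 + l) ^ 3 * UU (M - l) := by
    rw [show 2 * M + 1 = (M + 1) + M by ring, sum_range_add]
    congr 1
    refine sum_congr rfl fun l hl => ?_
    have hl' := mem_range.1 hl
    rw [show M + 1 + M - (M + 1 + l) = M - l by omega]
  have h2 : ∑ i ∈ range (M + 1), ch i ^ 3 * UU (2 * M + 1 - i) = UU (M + 1) ^ 2 +
      ∑ i ∈ range (M + 1), ch i ^ 3 * ∑ l ∈ range (M - i), ch (M + 1 + l) ^ 3 := by
    have h3 : UU (M + 1) ^ 2 = ∑ i ∈ range (M + 1), ch i ^ 3 * UU (M + 1) := by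
      rw [← sum_mul, ← UU]; ring
    rw [h3, ← sum_add_distrib]
    refine sum_congr rfl fun i hi => ?_
    have hi' := mem_range.1 hi
    rw [← mul_add]
    congr 1
    rw [show 2 * M + 1 - i = M + 1 + (M - i) by omega]
    conv_lhs => rw [UU, sum_range_add, ← UU]
  have h4 : ∑ i ∈ range (M + 1), ch i ^ 3 * ∑ l ∈ range (M - i), ch (M + 1 + l) ^ 3 =
      ∑ l ∈ range M, ch (M + 1 + l) ^ 3 * UU (M - l) := by
    rw [sum_range_succ, Nat.sub_self, sum_range_zero, mul_zero, add_zero,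
      tri_swap (fun i => ch i ^ 3) (fun l => ch (M + 1 + l) ^ 3)]
    rfl
  rw [h1, h2, h4]
  ring

variable {p m : ℕ} [hp : Fact p.Prime]

/-! ### Higher powers -/

omit hp in
theorem top_carry {r M i : ℕ} (hM : p ^ r = 2 * M + 1) (hi : M < i) (hip : i < p ^ r) :
    p ^ r ≤ i % p ^ r + i % p ^ r := by
  rw [Nat.mod_eq_of_lt hip]; omega

theorem term_big (hpm : p = 2 * m + 1) (hm : Odd m) {r M l : ℕ} (hr : 1 < r)
    (hM : p ^ r = 2 * M + 1) (hl : l < M) : I p 4 (ch (M + 1 + l) ^ 3 * UU (M - l)) := by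
  have hm0 : 0 < m := hm.pos
  have hp2 : p ≠ 2 := by omega
  have ht := top_carry (i := M + 1 + l) hM (by omega) (by omega)
  rcases le_or_gt ((M + 1 + l) % p) m with h | h
  · have h1 := I_ch_of_dvd hp2 (dvd_one (p := p) (by omega) ht)
    have h2 : I p 3 (ch (M + 1 + l) ^ 3) := by
      have := (h1.mul h1).mul h1
      rw [show (3 : ℕ) = 1 + 1 + 1 by norm_num, pow_succ, pow_succ, pow_one]
      exact this
    have h3 : I p 1 (UU (M - l)) := by
      obtain ⟨s, hs⟩ : ∃ s, r = s + 1 := ⟨r - 1, by omega⟩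
      have h4 : M - l + (M + 1 + l) = p * p ^ s := by
        have : p * p ^ s = p ^ r := by rw [hs, pow_succ]; ring
        rw [this]; omega
      have h5 := Nat.div_add_mod (M + 1 + l) p
      have h6 := Nat.mod_lt (M + 1 + l) hp.out.pos
      have hL : 0 < M - l := by omega
      generalize (M + 1 + l) / p = q at h5
      generalize (M + 1 + l) % p = c at h5 h6 h
      generalize M - l = L at h4 hL ⊢
      rw [← h5] at h4
      -- L = p (p^s - q) - c
      have hq : q < p ^ s := by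
        by_contra hcon
        have h7 : p * p ^ s ≤ p * q := Nat.mul_le_mul_left p (by omega)
        omega
      obtain ⟨k, hk⟩ : ∃ k, p ^ s = q + 1 + k := ⟨p ^ s - (q + 1), by omega⟩
      rw [hk] at h4
      have h9 : L = p * k + (p - c) := by
        have : p * (q + 1 + k) = p * q + p + p * k := by ring
        omega
      rw [h9]
      exact UU_big hpm hm k (by omega) (by omega)
    exact h2.mul h3
  · have h1 := I_ch_of_dvd hp2 (dvd_two (p := p) hr (by rw [pow_one]; omega) ht)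
    have h2 : I p 4 (ch (M + 1 + l) ^ 3) := by
      have := (h1.mul h1).mulR h1.mem
      rw [pow_succ, pow_two]
      exact this
    exact h2.mulR (UU_mem hp2 _)

/-! ### The first power -/

theorem top_lin (hpm : p = 2 * m + 1) {j : ℕ} (hj : j < m) :
    EQ p 1 (ch (m + 1 + j) / p) ((-1) ^ (m + j) / ((m - 1).choose j : ℚ)) := by
  have hP : (p : ℚ) = 2 * m + 1 := by exact_mod_cast hpm
  have hp0 := p_ne (p := p)
  induction j with
  | zero =>
    have u1 : U p (2 * (m : ℚ) + 2) := by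
      have := U_nat' (p := p) (k := 2 * m + 2) (fun h => by
        have h1 : p ∣ 1 := by
          have : 2 * m + 2 = p + 1 := by omega
          rw [this] at h
          exact (Nat.dvd_add_right (dvd_refl p)).1 h
        exact hp.out.one_lt.ne' (Nat.dvd_one.1 h1))
      push_cast at this; exact this
    have h1 : ch (m + 1 + 0) / (p : ℚ) = ch m / (2 * (m : ℚ) + 2) := by
      rw [add_zero, ch_succ, hP]
      have := u1.1
      have : 2 * (m : ℚ) + 1 ≠ 0 := by positivity
      field_simp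
    have h2 : EQ p 1 (2 * (m : ℚ) + 2) 1 := by
      refine ⟨u1.2.1, one_mem _, 1, one_mem _, ?_⟩
      rw [hP]; ring
    have h3 := ch_choose hpm (le_refl m)
    rw [Nat.choose_self] at h3
    rw [h1]
    have h4 := h3.div one_pos h2 u1
    simpa using h4
  | succ j ih =>
    have ih := ih (by omega)
    have u1 : U p (2 * ((m + 1 + j : ℕ) : ℚ) + 2) := by
      have := U_nat' (p := p) (k := 2 * (m + 1 + j) + 2) (fun h => by
        have h1 : p ∣ 2 * j + 3 := by
          have : 2 * (m + 1 + j) + 2 = p + (2 * j + 3) := by omega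
          rw [this] at h
          exact (Nat.dvd_add_right (dvd_refl p)).1 h
        have := Nat.le_of_dvd (by omega) h1
        omega)
      push_cast at this ⊢; exact this
    have u2 := U_nat (p := p) (k := m - 1 - j) (by omega) (by omega)
    have e1 : ((m - 1 - j : ℕ) : ℚ) = m - 1 - j := by
      rw [Nat.cast_sub (by omega), Nat.cast_sub (by omega)]; push_cast; ring
    have h1 : ch (m + 1 + (j + 1)) / (p : ℚ) = ch (m + 1 + j) / p *
        ((2 * ((m + 1 + j : ℕ) : ℚ) + 1) / (2 * ((m + 1 + j : ℕ) : ℚ) + 2)) := by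
      rw [← add_assoc, ch_succ]; ring
    have c0 : ((m - 1).choose j : ℚ) ≠ 0 := by
      have := Nat.choose_pos (show j ≤ m - 1 by omega)
      positivity
    have h2 : ((m - 1).choose (j + 1) : ℚ) = ((m - 1).choose j : ℚ) * ((m : ℚ) - 1 - j) / (j + 1) := by
      have c1 : (j : ℚ) + 1 ≠ 0 := by positivity
      rw [eq_div_iff c1]
      have := ch_right (m - 1) j
      rw [this, Nat.cast_sub (by omega)]; push_cast; ring
    have d1 := u2.1
    rw [e1] at u2 d1
    have h3 : (-1 : ℚ) ^ (m + (j + 1)) / ((m - 1).choose (j + 1) : ℚ) =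
        (-1) ^ (m + j) / ((m - 1).choose j : ℚ) * (-(((j : ℚ) + 1) / ((m : ℚ) - 1 - j))) := by
      rw [h2, ← add_assoc, pow_succ]
      have c1 : (j : ℚ) + 1 ≠ 0 := by positivity
      field_simp
    rw [h1, h3]
    refine ih.mul ?_
    have d2 := u1.1
    refine ⟨?_, ?_, ?_⟩
    · rw [div_eq_mul_inv]
      refine mul_mem ?_ u1.2.2
      have := nat_mem (p := p) (2 * (m + 1 + j) + 1)
      push_cast at this ⊢; exact this
    · refine neg_mem ?_
      rw [div_eq_mul_inv]
      refine mul_mem ?_ u2.2.2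
      have := nat_mem (p := p) (j + 1)
      push_cast at this; exact this
    · refine ⟨((2 * ((m + 1 + j : ℕ) : ℚ) + 2) * ((m : ℚ) - 1 - j))⁻¹ * ((m + 1 + j : ℕ) : ℚ),
        mul_mem (u1.mul u2).2.2 (nat_mem _), ?_⟩
      rw [hP]
      push_cast at d2 ⊢
      field_simp
      ring

theorem I_AA (hp3 : 3 < p) (hpm : p = 2 * m + 1) (hm : Odd m) : I p 1 (AA (m - 1)) := by
  obtain ⟨K, hK⟩ := hm
  have h1 : m - 1 = 2 * K := by omega
  rw [h1, AA_prod]
  refine I.neg ?_
  have hpK : p = 4 * K + 3 := by omega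
  have hrr : ∀ i : ℕ, rr (2 * (i : ℚ) + 1) = ((2 * (i : ℚ) + 2) ^ 2 * (2 * (i : ℚ) + 3) *
      (((6 * i + 5 : ℕ) : ℚ) * ((6 * i + 7 : ℕ) : ℚ))) /
      (((2 * i + 1 : ℕ) : ℚ) ^ 3 * ((2 : ℕ) : ℚ) ^ 2 * ((3 * i + 4 : ℕ) : ℚ) * ((3 * i + 5 : ℕ) : ℚ)) := by
    intro i
    rw [rr]
    push_cast
    have a1 : 2 * (i : ℚ) + 1 ≠ 0 := by positivity
    have a2 : 3 * (i : ℚ) + 4 ≠ 0 := by positivity
    have a3 : 3 * (i : ℚ) + 5 ≠ 0 := by positivity
    have a4 : 3 * (2 * (i : ℚ) + 1) + 5 = 2 * (3 * i + 4) := by ring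
    have a5 : 3 * (2 * (i : ℚ) + 1) + 7 = 2 * (3 * i + 5) := by ring
    rw [a4, a5]
    field_simp
    ring
  have hU : ∀ i : ℕ, i < K → U p (((2 * i + 1 : ℕ) : ℚ) ^ 3 * ((2 : ℕ) : ℚ) ^ 2 * ((3 * i + 4 : ℕ) : ℚ) *
      ((3 * i + 5 : ℕ) : ℚ)) := by
    intro i hi
    exact ((((U_nat (p := p) (by omega) (by omega)).pow 3).mul
      ((U_nat (p := p) (by omega) (by omega)).pow 2)).mul
      (U_nat (p := p) (by omega) (by omega))).mul (U_nat (p := p) (by omega) (by omega))
  have hA : ∀ i : ℕ, (2 * (i : ℚ) + 2) ^ 2 * (2 * (i : ℚ) + 3) ∈ Zp p := by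
    intro i
    have b1 := nat_mem (p := p) (2 * i + 2)
    have b2 := nat_mem (p := p) (2 * i + 3)
    push_cast at b1 b2
    exact mul_mem (pow_mem b1 2) b2
  have hmem : ∀ i ∈ range K, rr (2 * (i : ℚ) + 1) ∈ Zp p := by
    intro i hi
    rw [hrr, div_eq_mul_inv]
    exact mul_mem (mul_mem (hA i) (mul_mem (nat_mem _) (nat_mem _))) (hU i (mem_range.1 hi)).2.2
  have h6 : p % 6 = 1 ∨ p % 6 = 5 := by
    have h3 : ¬ 3 ∣ p := fun h => by
      have := (Nat.prime_dvd_prime_iff_eq Nat.prime_three hp.out).1 h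
      omega
    omega
  obtain ⟨i, hi, hip⟩ : ∃ i, i < K ∧ (6 * i + 5 = p ∨ 6 * i + 7 = p) := by
    rcases h6 with h | h
    · exact ⟨(p - 7) / 6, by omega, Or.inr (by omega)⟩
    · exact ⟨(p - 5) / 6, by omega, Or.inl (by omega)⟩
  have h7 : I p 1 (rr (2 * (i : ℚ) + 1)) := by
    rw [hrr, div_eq_mul_inv]
    refine I.mulR ?_ (hU i hi).2.2
    refine I.mulL (hA i) ?_
    rcases hip with h | h
    · rw [h]; exact (I_p (p := p)).mulR (nat_mem _)
    · rw [h]; exact (I_p (p := p)).mulL (nat_mem _)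
  rw [← mul_prod_erase _ _ (mem_range.2 hi)]
  exact h7.mulR (prod_mem fun j hj => hmem j (mem_of_mem_erase hj))

theorem sum_one (hp3 : 3 < p) (hpm : p = 2 * m + 1) (hm : Odd m) :
    I p 4 (∑ l ∈ range m, ch (m + 1 + l) ^ 3 * UU (m - l)) := by
  have hm0 : 0 < m := hm.pos
  have h1 : ∑ l ∈ range m, ch (m + 1 + l) ^ 3 * UU (m - l) =
      (p : ℚ) ^ 3 * ∑ l ∈ range m, (ch (m + 1 + l) / p) ^ 3 * UU (m - l) := by
    rw [mul_sum]
    refine sum_congr rfl fun l _ => ?_
    have := p_ne (p := p)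
    field_simp
  have h2 : EQ p 1 (∑ l ∈ range m, (ch (m + 1 + l) / p) ^ 3 * UU (m - l)) (AA (m - 1)) := by
    have h3 : AA (m - 1) = ∑ l ∈ range m, ((-1) ^ (m + l) / ((m - 1).choose l : ℚ)) ^ 3 *
        Us (m - 1) (m - l) := by
      rw [AA, show m - 1 + 1 = m by omega, ← sum_range_reflect]
      refine sum_congr rfl fun l hl => ?_
      have hl' := mem_range.1 hl
      rw [bb, show m - 1 - l + 1 = m - l by omega, Nat.choose_symm (show l ≤ m - 1 by omega),
        div_pow, ← pow_mul]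
      congr 2
      have e1 : (-1 : ℚ) ^ (m - l) * (-1) ^ l = (-1) ^ m := by
        rw [← pow_add, Nat.sub_add_cancel (by omega)]
      have e2 : ((-1 : ℚ) ^ l) * (-1) ^ l = 1 := by rw [← mul_pow]; norm_num
      have e3 : (-1 : ℚ) ^ ((m + l) * 3) = (-1) ^ m * (-1) ^ l := by
        rw [mul_comm, pow_mul, pow_add]; norm_num
      rw [e3]
      linear_combination (-(-1 : ℚ) ^ (m - l)) * e2 + (-1 : ℚ) ^ l * e1
    rw [h3]
    refine EQ.sum fun l hl => ?_
    have hl' := mem_range.1 hl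
    exact ((top_lin hpm hl').pow 3).mul (UU_small hpm hm0 (by omega))
  have h4 : I p 1 (∑ l ∈ range m, (ch (m + 1 + l) / p) ^ 3 * UU (m - l)) := by
    have := h2.2.2.add (I_AA hp3 hpm hm)
    rwa [sub_add_cancel] at this
  rw [h1]
  exact (I_pow (p := p) 3).mul h4

/-! ### Conclusion -/

theorem all_r (hp3 : 3 < p) (hp4 : p % 4 = 3) {r : ℕ} (hr : 0 < r) :
    I p 4 (∑ i ∈ range (p ^ r), ch i ^ 3 * UU (p ^ r - i)) := by
  obtain ⟨m, hpm⟩ : ∃ m, p = 2 * m + 1 := ⟨p / 2, by omega⟩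
  have hm : Odd m := ⟨m / 2, by omega⟩
  obtain ⟨M, hM⟩ := (hp.out.odd_of_ne_two (by omega : p ≠ 2)).pow (n := r)
  have h1 := I_half hp4 hr.ne' hM
  rw [hM, split]
  have h2 : I p 4 (UU (M + 1) ^ 2) := by
    rw [pow_two]; exact h1.mul h1
  refine h2.add (I.mulL n2 ?_)
  rcases Nat.lt_or_ge 1 r with h | h
  · exact I.sum fun l hl => term_big hpm hm h hM (mem_range.1 hl)
  · have hr1 : r = 1 := by omega
    rw [hr1, pow_one] at hM
    have hMm : M = m := by omega
    rw [hMm]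
    exact sum_one hp3 hpm hm

end Pool.Agent.R439.PL.W4
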