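import Mathlib
import Pool.Agent.R439.LQ

set_option autoImplicit false

/-!
From the exact vanishing of paired sums to a vanishing modulo a power of `1 - q^n`.
-/

namespace Pool.Agent.R439

open Finset Polynomial

section
variable {n : ℕ} [NeZero n]

omit [NeZero n] in
theorem Wx_qi [NeZero n] (x : ℤ) : Wx n x = w n * qi n x := by rw [w_qi, Wx]

/-- cancellation of `W_a W_b` for nonzero `a`, `b` -/
theorem Wx_cancel {a b : ℤ} (ha : a ≠ 0) (hb : b ≠ 0) {k : ℕ} {z : K}
    (h : I n (k + 2) (Wx n a * Wx n b * z)) : I n k z := by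
  have ua := qi_U (n := n) ha
  have ub := qi_U (n := n) hb
  rw [Wx_qi, Wx_qi] at h
  have e : w n * qi n a * (w n * qi n b) * z = w n * (w n * (qi n a * qi n b * z)) := by ring
  rw [e] at h
  have h1 := I_w_mul_iff.1 (I_w_mul_iff.1 h)
  exact h1.cancel (ua.mul ub).1 (ua.mul ub).2.2

theorem AB {M N' : ℕ} {s m : ℤ} (hs : s + 1 ≠ 0) {g : ℕ → ℤ → K} {H J : ℕ → K}
    (hLQ : ∀ k ≤ M, LQ n (g k) (H k) (J k)) {C : ℕ → K} (hC : ∀ k ≤ M, C k ∈ O n)
    (hzero : ∀ x : ℕ → ℤ, ∑ k ∈ range (M + 1), C k * (g k (-m) * g k (m - s * (N' + 1 : ℕ)) *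
      ∏ i ∈ range (N' + 1), (g k (x i) * g k (s - x i))) = 0) :
    I n 3 (∑ k ∈ range (M + 1), C k * g k 0 ^ (2 * (N' + 1) + 2)) ∧
    (I n 1 (∑ k ∈ range (M + 1), C k * g k 0 ^ (2 * (N' + 1) + 2) * J k) →
      I n 4 (∑ k ∈ range (M + 1), C k * g k 0 ^ (2 * (N' + 1) + 2))) := by
  set T : ℕ → K := fun k => C k * g k 0 ^ (2 * (N' + 1) + 2) with hT
  have hTm : ∀ k ≤ M, T k ∈ O n := fun k hk =>
    mul_mem (hC k hk) (pow_mem ((hLQ k hk).unit 0).2.1 _)
  set v : K := Wx n 1 * Wx n (-1) with hv
  set S : K := ∑ i ∈ range (N' + 1 + 1), ((m - s * (i : ℤ) : ℤ) : K) ^ 2 with hS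
  have hSm : S ∈ O n := sum_mem fun i _ => pow_mem (intCast_mem _ _) _
  -- first relation
  have star1 : I n 4 (∑ k ∈ range (M + 1), T k + v * (S * ∑ k ∈ range (M + 1), T k * H k)) := by
    have h0 := hzero (fun i => m - s * (i : ℤ))
    have hterm : ∀ k ∈ range (M + 1), EQ n 4 (C k * (g k (-m) * g k (m - s * (N' + 1 : ℕ)) *
        ∏ i ∈ range (N' + 1), (g k (m - s * (i : ℤ)) * g k (s - (m - s * (i : ℤ))))))
        (T k * (1 + v * S * H k)) := by
      intro k hk
      have hk' : k ≤ M := by have := mem_range.1 hk; omega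
      have hq := (hLQ k hk').sym (N' + 1 + 1) (fun i => m - s * (i : ℤ))
      have e1 : g k (-m) * g k (m - s * (N' + 1 : ℕ)) *
          ∏ i ∈ range (N' + 1), (g k (m - s * (i : ℤ)) * g k (s - (m - s * (i : ℤ)))) =
          ∏ i ∈ range (N' + 1 + 1), (g k (m - s * (i : ℤ)) * g k (-(m - s * (i : ℤ)))) := by
        have p1 := prod_range_succ (fun i : ℕ => g k (m - s * (i : ℤ))) (N' + 1)
        have p2 := prod_range_succ' (fun i : ℕ => g k (-(m - s * (i : ℤ)))) (N' + 1)
        rw [prod_mul_distrib, prod_mul_distrib, p1, p2]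
        have e2 : ∀ i ∈ range (N' + 1), g k (s - (m - s * (i : ℤ))) =
            g k (-(m - s * ((i + 1 : ℕ) : ℤ))) := by
          intro i _
          congr 1; push_cast; ring
        rw [prod_congr rfl e2, Nat.cast_zero, mul_zero, sub_zero]
        generalize ∏ i ∈ range (N' + 1), g k (m - s * (i : ℤ)) = P1
        generalize ∏ i ∈ range (N' + 1), g k (-(m - s * ((i + 1 : ℕ) : ℤ))) = P2
        ring
      rw [e1]
      have h2 := (EQ.refl (n := n) (k := 4) (hC k hk')).mul hq
      have e3 : C k * (g k 0 ^ (2 * (N' + 1 + 1)) * (1 + Wx n 1 * Wx n (-1) *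
          (∑ i ∈ range (N' + 1 + 1), ((m - s * (i : ℤ) : ℤ) : K) ^ 2) * H k)) =
          T k * (1 + v * S * H k) := by
        rw [hT, hv, hS]
        ring
      rwa [e3] at h2
    have h1 := EQ.sum hterm
    rw [h0] at h1
    have e4 : ∑ k ∈ range (M + 1), T k * (1 + v * S * H k) =
        ∑ k ∈ range (M + 1), T k + v * (S * ∑ k ∈ range (M + 1), T k * H k) := by
      clear_value S v
      rw [mul_sum, mul_sum, ← sum_add_distrib]
      exact sum_congr rfl fun k _ => by ring
    rw [e4] at h1
    have := h1.2.2.neg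
    simpa using this
  -- second relation
  set S' : K := Wx n (s + 1) + Wx n (-1) with hS'
  have hS'I : I n 1 S' := (Wx_I _).add (Wx_I _)
  have star2 : I n 2 (∑ k ∈ range (M + 1), T k * (H k + S' * J k)) := by
    set D : ℕ → K := fun k => g k (-m) * g k (m - s * (N' + 1 : ℕ)) * (g k s * g k 0) ^ N' with hD
    have z1 : ∑ k ∈ range (M + 1), C k * (D k * (g k s * g k 0)) = 0 := by
      rw [← hzero (fun _ => s)]
      refine sum_congr rfl fun k _ => ?_
      rw [hD]
      simp only [sub_self, prod_const, card_range]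
      ring
    have z2 : ∑ k ∈ range (M + 1), C k * (D k * (g k (s + 1) * g k (-1))) = 0 := by
      rw [← hzero (fun i => if i = N' then s + 1 else s)]
      refine sum_congr rfl fun k _ => ?_
      rw [hD, prod_range_succ]
      have e5 : ∀ i ∈ range N', g k (if i = N' then s + 1 else s) *
          g k (s - if i = N' then s + 1 else s) = g k s * g k 0 := by
        intro i hi
        have : i ≠ N' := (mem_range.1 hi).ne
        rw [if_neg this, sub_self]
      rw [prod_congr rfl e5, if_pos rfl, prod_const, card_range]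
      have : s - (s + 1) = -1 := by ring
      rw [this]
      ring
    have hDm : ∀ k ≤ M, D k ∈ O n := fun k hk =>
      mul_mem (mul_mem ((hLQ k hk).unit _).2.1 ((hLQ k hk).unit _).2.1)
        (pow_mem (mul_mem ((hLQ k hk).unit _).2.1 ((hLQ k hk).unit _).2.1) _)
    have hterm : ∀ k ∈ range (M + 1), EQ n 4 (C k * (D k * (g k (s + 1) * g k (-1))))
        (C k * (D k * (g k s * g k 0 * (1 + Wx n (s + 1) * Wx n (-1) *
          (H k + S' * J k))))) := by
      intro k hk
      have hk' : k ≤ M := by have := mem_range.1 hk; omega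
      have h := (hLQ k hk').eq (s + 1) (-1)
      have e : s + 1 + -1 = s := by ring
      rw [e] at h
      exact (EQ.refl (hC k hk')).mul ((EQ.refl (hDm k hk')).mul h)
    have h1 := EQ.sum hterm
    rw [z2] at h1
    have e6 : ∑ k ∈ range (M + 1), C k * (D k * (g k s * g k 0 * (1 + Wx n (s + 1) * Wx n (-1) *
          (H k + S' * J k)))) = Wx n (s + 1) * Wx n (-1) *
          ∑ k ∈ range (M + 1), C k * (D k * (g k s * g k 0)) * (H k + S' * J k) := by
      have : ∑ k ∈ range (M + 1), C k * (D k * (g k s * g k 0 * (1 + Wx n (s + 1) * Wx n (-1) *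
          (H k + S' * J k)))) = ∑ k ∈ range (M + 1), C k * (D k * (g k s * g k 0)) +
          Wx n (s + 1) * Wx n (-1) *
          ∑ k ∈ range (M + 1), C k * (D k * (g k s * g k 0)) * (H k + S' * J k) := by
        rw [mul_sum, ← sum_add_distrib]
        exact sum_congr rfl fun k _ => by ring
      rw [this, z1, zero_add]
    rw [e6] at h1
    have h2 := h1.2.2.neg
    rw [zero_sub, neg_neg] at h2
    have h3 : I n 2 (∑ k ∈ range (M + 1), C k * (D k * (g k s * g k 0)) * (H k + S' * J k)) :=
      Wx_cancel hs (by norm_num) h2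
    have hterm2 : ∀ k ∈ range (M + 1), EQ n 2 (C k * (D k * (g k s * g k 0)) * (H k + S' * J k))
        (T k * (H k + S' * J k)) := by
      intro k hk
      have hk' : k ≤ M := by have := mem_range.1 hk; omega
      have h := (hLQ k hk').sameSum m s (N' + 1)
      have e : D k * (g k s * g k 0) = g k (-m) * g k (m - s * (N' + 1 : ℕ)) *
          (g k s * g k 0) ^ (N' + 1) := by
        rw [hD]; ring
      rw [e]
      exact ((EQ.refl (hC k hk')).mul h).mul (EQ.refl (add_mem (hLQ k hk').memH
        (mul_mem hS'I.mem (hLQ k hk').memJ)))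
    have h4 := (EQ.sum hterm2).2.2
    have : ∑ k ∈ range (M + 1), T k * (H k + S' * J k) =
        ∑ k ∈ range (M + 1), C k * (D k * (g k s * g k 0)) * (H k + S' * J k) -
        (∑ k ∈ range (M + 1), C k * (D k * (g k s * g k 0)) * (H k + S' * J k) -
          ∑ k ∈ range (M + 1), T k * (H k + S' * J k)) := by ring
    rw [this]
    exact h3.sub h4
  have e7 : ∑ k ∈ range (M + 1), T k * (H k + S' * J k) =
      ∑ k ∈ range (M + 1), T k * H k + S' * ∑ k ∈ range (M + 1), T k * J k := by
    rw [mul_sum, ← sum_add_distrib]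
    exact sum_congr rfl fun k _ => by ring
  rw [e7] at star2
  have hTJm : ∑ k ∈ range (M + 1), T k * J k ∈ O n := sum_mem fun k hk =>
    mul_mem (hTm k (by have := mem_range.1 hk; omega))
      (hLQ k (by have := mem_range.1 hk; omega)).memJ
  have conc : ∀ j : ℕ, I n j (∑ k ∈ range (M + 1), T k * H k) → j ≤ 2 →
      I n (j + 2) (∑ k ∈ range (M + 1), T k) := by
    intro j hj hj2
    have h1 : I n (j + 2) (v * (S * ∑ k ∈ range (M + 1), T k * H k)) := by
      have := (v_I (n := n)).mul (hj.mulL hSm)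
      rwa [add_comm] at this
    have h2 := (star1.mono (by omega : j + 2 ≤ 4)).sub h1
    rwa [add_sub_cancel_right] at h2
  constructor
  · refine conc 1 ?_ (by norm_num)
    have h1 : I n 1 (S' * ∑ k ∈ range (M + 1), T k * J k) := hS'I.mulR hTJm
    have h2 := (star2.mono (one_le_two)).sub h1
    rwa [add_sub_cancel_right] at h2
  · intro hJ
    refine conc 2 ?_ le_rfl
    have h1 : I n 2 (S' * ∑ k ∈ range (M + 1), T k * J k) := hS'I.mul hJ
    have h2 := star2.sub h1
    rwa [add_sub_cancel_right] at h2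

end

end Pool.Agent.R439
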