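import Mathlib
import Pool.Agent.R439.QH

set_option autoImplicit false

/-!
Vanishing of very-well-poised sums whose parameters are paired.
-/

namespace Pool.Agent.R439

open Finset Polynomial

section
variable {F : Type*} [Field F]

/-- the nodes -/
def lam (p a : F) (k : ℕ) : F := (p ^ k)⁻¹ + a * p ^ k

theorem lam_sub {p a : F} (hp : p ≠ 0) (k j : ℕ) :
    lam p a k - lam p a j = ((p ^ k)⁻¹ - (p ^ j)⁻¹) * (1 - a * p ^ (k + j)) := by
  have h1 : p ^ k ≠ 0 := pow_ne_zero _ hp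
  have h2 : p ^ j ≠ 0 := pow_ne_zero _ hp
  rw [lam, lam, pow_add]
  field_simp
  ring

theorem pow_inj {p : F} (hp0 : p ≠ 0) (hp : ∀ i : ℕ, 0 < i → p ^ i ≠ 1) {k j : ℕ}
    (h : p ^ k = p ^ j) : k = j := by
  rcases lt_trichotomy k j with h1 | h1 | h1
  · exfalso
    apply hp (j - k) (by omega)
    have : p ^ j = p ^ k * p ^ (j - k) := by rw [← pow_add]; congr 1; omega
    rw [this] at h
    have h2 : p ^ k ≠ 0 := pow_ne_zero _ hp0
    exact (mul_eq_left₀ h2).1 h.symm
  · exact h1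
  · exfalso
    apply hp (k - j) (by omega)
    have : p ^ k = p ^ j * p ^ (k - j) := by rw [← pow_add]; congr 1; omega
    rw [this] at h
    have h2 : p ^ j ≠ 0 := pow_ne_zero _ hp0
    exact (mul_eq_left₀ h2).1 h

theorem lam_inj {p a : F} (hp0 : p ≠ 0) (hp : ∀ i : ℕ, 0 < i → p ^ i ≠ 1)
    (ha : ∀ i : ℕ, a * p ^ i ≠ 1) {k j : ℕ} (h : lam p a k = lam p a j) : k = j := by
  have h1 := lam_sub (a := a) hp0 k j
  rw [h, sub_self] at h1
  rcases mul_eq_zero.1 h1.symm with h2 | h2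
  · exact pow_inj hp0 hp (inv_injective (sub_eq_zero.1 h2))
  · exact absurd (sub_eq_zero.1 h2).symm (ha _)

/-- the weights of the very-well-poised sum -/
def wt (p a : F) (M k : ℕ) : F :=
  (1 - a * (p ^ k) ^ 2) * (poch a p k * poch (p ^ (-(M : ℤ))) p k) /
    (poch p p k * poch (a * p ^ (M + 1)) p k)

/-- the common constant -/
def Cst (p a : F) (M : ℕ) : F := poch a p (M + 1) * ∏ i ∈ range M, (1 - (p ^ (i + 1))⁻¹)

theorem wt_mul {p a : F} (hp0 : p ≠ 0) (hp : ∀ i : ℕ, 0 < i → p ^ i ≠ 1)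
    (ha : ∀ i : ℕ, a * p ^ i ≠ 1) {M k : ℕ} (hk : k ≤ M) :
    wt p a M k * (p ^ k) ^ M * ∏ j ∈ (range (M + 1)).erase k, (lam p a k - lam p a j) =
      Cst p a M := by
  have hx : p ^ k ≠ 0 := pow_ne_zero _ hp0
  have hsplit : ∏ j ∈ (range (M + 1)).erase k, (lam p a k - lam p a j) =
      (∏ j ∈ range k, (lam p a k - lam p a j)) *
        ∏ j ∈ range (M - k), (lam p a k - lam p a (k + 1 + j)) := by
    have h1 : (range (M + 1)).erase k = range k ∪ (range (M - k)).image (fun j => k + 1 + j) := by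
      ext j
      simp only [mem_erase, mem_range, mem_union, mem_image]
      constructor
      · rintro ⟨h1, h2⟩
        rcases lt_or_gt_of_ne h1 with h | h
        · exact Or.inl h
        · exact Or.inr ⟨j - (k + 1), by omega, by omega⟩
      · rintro (h | ⟨i, h1, h2⟩) <;> omega
    have h2 : Disjoint (range k) ((range (M - k)).image (fun j => k + 1 + j)) := by
      rw [disjoint_left]
      intro j hj hj'
      simp only [mem_image, mem_range] at hj hj'
      obtain ⟨i, _, h⟩ := hj'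
      omega
    rw [h1, prod_union h2, prod_image (fun x _ y _ h => by simpa using h)]
  have hA : ∏ j ∈ range k, (lam p a k - lam p a j) =
      ((p ^ k)⁻¹) ^ k * poch p p k * poch (a * p ^ k) p k := by
    have h1 : poch p p k = ∏ j ∈ range k, (1 - p ^ (k - j)) := by
      rw [poch, ← prod_range_reflect]
      refine prod_congr rfl fun j hj => ?_
      have := mem_range.1 hj
      rw [← pow_succ']
      congr 2; omega
    rw [h1, poch]
    have h2 : ((p ^ k)⁻¹) ^ k = ∏ _j ∈ range k, (p ^ k)⁻¹ := by simp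
    rw [h2, ← prod_mul_distrib, ← prod_mul_distrib]
    refine prod_congr rfl fun j hj => ?_
    have := mem_range.1 hj
    rw [lam_sub hp0]
    have h3 : p ^ j ≠ 0 := pow_ne_zero _ hp0
    have h4 : p ^ k = p ^ (k - j) * p ^ j := by rw [← pow_add]; congr 1; omega
    have h5 : (p ^ j)⁻¹ = (p ^ k)⁻¹ * p ^ (k - j) := by
      rw [h4]
      have : p ^ (k - j) ≠ 0 := pow_ne_zero _ hp0
      field_simp
    rw [h5, pow_add]
    ring
  have hB : ∏ j ∈ range (M - k), (lam p a k - lam p a (k + 1 + j)) =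
      ((p ^ k)⁻¹) ^ (M - k) * (∏ j ∈ range (M - k), (1 - (p ^ (j + 1))⁻¹)) *
        poch (a * p ^ (2 * k + 1)) p (M - k) := by
    rw [poch]
    have h2 : ((p ^ k)⁻¹) ^ (M - k) = ∏ _j ∈ range (M - k), (p ^ k)⁻¹ := by simp
    rw [h2, ← prod_mul_distrib, ← prod_mul_distrib]
    refine prod_congr rfl fun j hj => ?_
    rw [lam_sub hp0]
    have h3 : p ^ (j + 1) ≠ 0 := pow_ne_zero _ hp0
    have h5 : (p ^ (k + 1 + j))⁻¹ = (p ^ k)⁻¹ * (p ^ (j + 1))⁻¹ := by
      rw [← mul_inv, ← pow_add]; congr 2; ring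
    have h6 : a * p ^ (k + (k + 1 + j)) = a * p ^ (2 * k + 1) * p ^ j := by
      rw [mul_assoc, ← pow_add]; congr 2; ring
    rw [h5, h6]
    ring
  have hP : poch a p k * poch (a * p ^ k) p k * (1 - a * (p ^ k) ^ 2) *
      poch (a * p ^ (2 * k + 1)) p (M - k) = poch a p (M + 1) * poch (a * p ^ (M + 1)) p k := by
    rw [← poch_add, ← pow_mul, mul_comm k 2, show k + k = 2 * k by ring, ← poch_succ, ← poch_add,
      ← poch_add]
    congr 1; omega
  have hQ : poch (p ^ (-(M : ℤ))) p k * ∏ j ∈ range (M - k), (1 - (p ^ (j + 1))⁻¹) =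
      ∏ i ∈ range M, (1 - (p ^ (i + 1))⁻¹) := by
    have h1 : poch (p ^ (-(M : ℤ))) p k = ∏ j ∈ range k, (1 - (p ^ (M - k + j + 1))⁻¹) := by
      rw [poch, ← prod_range_reflect]
      refine prod_congr rfl fun j hj => ?_
      have hj' := mem_range.1 hj
      congr 1
      rw [← zpow_natCast p (k - 1 - j), ← zpow_natCast p (M - k + j + 1), ← zpow_add₀ hp0,
        ← zpow_neg]
      congr 1
      omega
    rw [h1, mul_comm, ← prod_range_add (fun i => 1 - (p ^ (i + 1))⁻¹)]
    congr 2; omega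
  have hn1 : poch p p k ≠ 0 := poch_self_ne hp k
  have hn2 : poch (a * p ^ (M + 1)) p k ≠ 0 := poch_ne fun i _ => by
    rw [mul_assoc, ← pow_add]; exact ha _
  have hxp : (p ^ k) ^ M * (((p ^ k)⁻¹) ^ k * ((p ^ k)⁻¹) ^ (M - k)) = 1 := by
    rw [← pow_add, Nat.add_sub_cancel' hk, ← mul_pow, mul_inv_cancel₀ hx, one_pow]
  rw [hsplit, hA, hB, wt, Cst, ← hQ]
  rw [div_mul_eq_mul_div, div_mul_eq_mul_div, div_eq_iff (mul_ne_zero hn1 hn2)]
  linear_combination
    (poch (p ^ (-(M : ℤ))) p k * (∏ j ∈ range (M - k), (1 - (p ^ (j + 1))⁻¹)) * poch p p k) * hP +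
    ((1 - a * (p ^ k) ^ 2) * (poch a p k * poch (p ^ (-(M : ℤ))) p k) * poch p p k *
      poch (a * p ^ k) p k * (∏ j ∈ range (M - k), (1 - (p ^ (j + 1))⁻¹)) *
        poch (a * p ^ (2 * k + 1)) p (M - k)) * hxp

/-- the basic vanishing -/
theorem wt_zero {p a : F} (hp0 : p ≠ 0) (hp : ∀ i : ℕ, 0 < i → p ^ i ≠ 1)
    (ha : ∀ i : ℕ, a * p ^ i ≠ 1) {M : ℕ} {P : F[X]} (hP : P.natDegree < M) :
    ∑ k ∈ range (M + 1), wt p a M k * (p ^ k) ^ M * P.eval (lam p a k) = 0 := by
  have hinj : Set.InjOn (lam p a) (range (M + 1)) := fun k _ j _ h => lam_inj hp0 hp ha h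
  have hdeg : P.degree < #(range (M + 1)) := by
    rw [card_range]
    refine lt_of_le_of_lt degree_le_natDegree ?_
    exact_mod_cast (by omega : P.natDegree < M + 1)
  have h := Lagrange.coeff_eq_sum hinj hdeg
  rw [card_range, Nat.add_sub_cancel, coeff_eq_zero_of_natDegree_lt hP] at h
  have : ∑ k ∈ range (M + 1), wt p a M k * (p ^ k) ^ M * P.eval (lam p a k) =
      Cst p a M * ∑ i ∈ range (M + 1), eval (lam p a i) P /
        ∏ j ∈ (range (M + 1)).erase i, (lam p a i - lam p a j) := by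
    rw [mul_sum]
    refine sum_congr rfl fun k hk => ?_
    have hk' : k ≤ M := by have := mem_range.1 hk; omega
    have hne : ∏ j ∈ (range (M + 1)).erase k, (lam p a k - lam p a j) ≠ 0 := by
      rw [prod_ne_zero_iff]
      intro j hj
      have := mem_erase.1 hj
      exact sub_ne_zero.2 fun h => this.1 (lam_inj hp0 hp ha h).symm
    rw [← wt_mul hp0 hp ha hk']
    field_simp
  rw [this, ← h, mul_zero]

/-- `G` is `x^t` times a polynomial of degree at most `t` in the nodes -/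
def SymP (p a : F) (M t : ℕ) (G : ℕ → F) : Prop :=
  ∃ P : F[X], P.natDegree ≤ t ∧ ∀ k ≤ M, G k = (p ^ k) ^ t * P.eval (lam p a k)

theorem SymP.mul {p a : F} {M t t' : ℕ} {G G' : ℕ → F} (h : SymP p a M t G)
    (h' : SymP p a M t' G') : SymP p a M (t + t') (fun k => G k * G' k) := by
  obtain ⟨P, hP, H⟩ := h
  obtain ⟨P', hP', H'⟩ := h'
  refine ⟨P * P', (natDegree_mul_le).trans (add_le_add hP hP'), fun k hk => ?_⟩
  beta_reduce
  rw [H k hk, H' k hk, eval_mul, pow_add]
  ring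

theorem SymP.one (p a : F) (M : ℕ) : SymP p a M 0 (fun _ => 1) :=
  ⟨1, by simp, fun k _ => by simp⟩

theorem SymP.prod {p a : F} {M t N : ℕ} {G : ℕ → ℕ → F} (h : ∀ i < N, SymP p a M t (G i)) :
    SymP p a M (N * t) (fun k => ∏ i ∈ range N, G i k) := by
  induction N with
  | zero => simpa using SymP.one p a M
  | succ N ih =>
    have := (ih fun i hi => h i (by omega)).mul (h N (by omega))
    simp only [prod_range_succ]
    rwa [Nat.succ_mul]

theorem SymP.pair {p a c1 c2 : F} {M t : ℕ} (hp0 : p ≠ 0) (h : c1 * c2 * p ^ t = a * p)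
    (h1 : ∀ k ≤ M, poch c1 p k ≠ 0) (h2 : ∀ k ≤ M, poch c2 p k ≠ 0) (h1t : poch c1 p t ≠ 0)
    (h2t : poch c2 p t ≠ 0) (hc1 : c1 ≠ 0) :
    SymP p a M t (fun k => poch (c1 * p ^ t) p k / poch c1 p k *
      (poch (c2 * p ^ t) p k / poch c2 p k)) := by
  refine ⟨C ((poch c1 p t * poch c2 p t)⁻¹) *
    ∏ i ∈ range t, (X - C (c1 * p ^ i + a / (c1 * p ^ i))), ?_, fun k hk => ?_⟩
  · refine (natDegree_C_mul_le _ _).trans ?_
    refine (natDegree_prod_le _ _).trans ?_
    refine (sum_le_sum (g := fun _ => 1) fun i _ => natDegree_X_sub_C_le _).trans ?_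
    simp
  · have e1 : ∀ c : F, poch (c * p ^ t) p k * poch c p t = poch c p k * poch (c * p ^ k) p t := by
      intro c
      rw [mul_comm, ← poch_add, ← poch_add, add_comm]
    have q1 : poch (c1 * p ^ t) p k / poch c1 p k = poch (c1 * p ^ k) p t / poch c1 p t := by
      rw [div_eq_div_iff (h1 k hk) h1t, e1]; ring
    have q2 : poch (c2 * p ^ t) p k / poch c2 p k = poch (c2 * p ^ k) p t / poch c2 p t := by
      rw [div_eq_div_iff (h2 k hk) h2t, e1]; ring
    beta_reduce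
    rw [q1, q2, eval_mul, eval_C, eval_prod]
    have hx : p ^ k ≠ 0 := pow_ne_zero _ hp0
    have key : poch (c1 * p ^ k) p t * poch (c2 * p ^ k) p t =
        (p ^ k) ^ t * ∏ i ∈ range t, eval (lam p a k) (X - C (c1 * p ^ i + a / (c1 * p ^ i))) := by
      have r : poch (c2 * p ^ k) p t = ∏ i ∈ range t, (1 - c2 * p ^ k * p ^ (t - 1 - i)) := by
        rw [poch, prod_range_reflect (fun i => 1 - c2 * p ^ k * p ^ i) t]
      have r2 : (p ^ k) ^ t = ∏ _i ∈ range t, p ^ k := by simp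
      rw [r, poch, r2, ← prod_mul_distrib, ← prod_mul_distrib]
      refine prod_congr rfl fun i hi => ?_
      have hi' := mem_range.1 hi
      rw [eval_sub, eval_X, eval_C, lam]
      have hd : c1 * p ^ i ≠ 0 := mul_ne_zero hc1 (pow_ne_zero _ hp0)
      have hh : c1 * p ^ i * (c2 * p ^ (t - 1 - i)) = a := by
        have e : p ^ t = p ^ i * p ^ (t - 1 - i) * p := by
          rw [← pow_add, ← pow_succ]; congr 1; omega
        have : c1 * p ^ i * (c2 * p ^ (t - 1 - i)) * p = a * p := by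
          rw [← h, e]; ring
        exact mul_right_cancel₀ hp0 this
      have hc2 : c2 * p ^ (t - 1 - i) = a / (c1 * p ^ i) := by
        rw [eq_div_iff hd, mul_comm]; exact hh
      have e3 : c2 * p ^ k * p ^ (t - 1 - i) = a / (c1 * p ^ i) * p ^ k := by rw [← hc2]; ring
      rw [e3]
      field_simp
      ring
    rw [div_mul_div_comm, key]
    field_simp

/-- **Vanishing of paired very-well-poised sums.** -/
theorem wp_zero {p a : F} (hp0 : p ≠ 0) (hp : ∀ i : ℕ, 0 < i → p ^ i ≠ 1)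
    (ha : ∀ i : ℕ, a * p ^ i ≠ 1) {M t e : ℕ} {G : ℕ → F} (hG : SymP p a M t G) (ht : t < M)
    (he : e + t = M) :
    ∑ k ∈ range (M + 1), wt p a M k * (p ^ k) ^ e * G k = 0 := by
  obtain ⟨P, hP, H⟩ := hG
  rw [← wt_zero hp0 hp ha (lt_of_le_of_lt hP ht)]
  refine sum_congr rfl fun k hk => ?_
  rw [H k (by have := mem_range.1 hk; omega), ← he, pow_add]
  ring

end

end Pool.Agent.R439
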