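import Mathlib
import Pool.Agent.R439.WPMod
import Pool.Agent.R439.WPZero

set_option autoImplicit false

/-!
The ratios `(q^(r+nx);q^d)_k/(q^(d-nx);q^d)_k`.
-/

namespace Pool.Agent.R439

open Finset Polynomial

section
variable {n : ℕ} [NeZero n]

/-- second order coefficient of `1 - q^(e+nx)` -/
noncomputable def hA (e : ℤ) : K := q ^ e * (1 - q ^ e)⁻¹ ^ 2

/-- third order coefficient of `1 - q^(e+nx)` -/
noncomputable def jA (e : ℤ) : K := -((q ^ e) ^ 2 * (1 - q ^ e)⁻¹ ^ 3)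

theorem gpfac (e : ℤ) (d : ℕ) (l : ℕ) (t : ℤ) :
    q ^ (e + (n : ℤ) * t) * (q ^ d) ^ l = q ^ (e + d * l + (n : ℤ) * t) := by
  rw [← pow_mul, ← zpow_natCast q (d * l), ← zpow_add₀ q_ne]
  congr 1; push_cast; ring

theorem gp_U {e : ℤ} {d k : ℕ} (h : ∀ j < k, ¬ (n : ℤ) ∣ e + d * j) (t : ℤ) :
    U n (gp n e (q ^ d) k t) := by
  unfold gp poch
  refine U.prod fun l hl => ?_
  rw [gpfac]
  refine U_one_sub fun hh => h l (mem_range.1 hl) ?_
  have := dvd_sub hh (dvd_mul_right (n : ℤ) t)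
  simpa using this

theorem LQ_gp {e : ℤ} {d k : ℕ} (h : ∀ j < k, ¬ (n : ℤ) ∣ e + d * j) :
    LQ n (gp n e (q ^ d) k) (∑ j ∈ range k, hA (e + d * j)) (∑ j ∈ range k, jA (e + d * j)) := by
  unfold gp poch
  refine LQ.prod fun j hj => ?_
  have hfun : (fun x : ℤ => 1 - q ^ (e + (n : ℤ) * x) * (q ^ d) ^ j) =
      fun x : ℤ => 1 - q ^ (e + d * j) * q ^ ((n : ℤ) * x) := by
    funext x
    rw [gpfac, ← zpow_add₀ q_ne]
  have := LQ.base (n := n) (A := q ^ (e + d * j)) (zpow_mem _) (fun x => by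
    rw [← zpow_add₀ q_ne]
    refine U_one_sub fun hh => h j hj ?_
    have := dvd_sub hh (dvd_mul_right (n : ℤ) x)
    simpa using this)
  rw [hfun]
  exact this

/-- `(q^(r+nx);q^d)_k/(q^(d-nx);q^d)_k` -/
noncomputable def gk (n d : ℕ) (r : ℤ) (k : ℕ) (x : ℤ) : K :=
  gp n r (q ^ d) k x / gp n d (q ^ d) k (-x)

/-- second order coefficient of `gk` -/
noncomputable def Hk (d : ℕ) (r : ℤ) (k : ℕ) : K :=
  ∑ j ∈ range k, hA (r + d * j) + -(∑ j ∈ range k, hA ((d : ℤ) + d * j))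

/-- third order coefficient of `gk` -/
noncomputable def Jk (d : ℕ) (r : ℤ) (k : ℕ) : K :=
  ∑ j ∈ range k, jA (r + d * j) +
    -(∑ j ∈ range k, hA ((d : ℤ) + d * j) - ∑ j ∈ range k, jA ((d : ℤ) + d * j))

variable {d M : ℕ} {r m : ℤ}

theorem nd_num (hc : Nat.Coprime n d) (hM : r + d * M = m * n) (hMn : M < n) :
    ∀ j < M, ¬ (n : ℤ) ∣ r + d * j := by
  intro j hj h
  have h1 : (n : ℤ) ∣ (d : ℤ) * ((M - j : ℕ) : ℤ) := by
    have e : (d : ℤ) * ((M - j : ℕ) : ℤ) = m * n - (r + d * j) := by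
      rw [← hM, Nat.cast_sub hj.le]; ring
    rw [e]; exact dvd_sub (dvd_mul_left _ _) h
  have h2 : n ∣ d * (M - j) := by exact_mod_cast h1
  have h3 : n ∣ M - j := hc.dvd_of_dvd_mul_left h2
  exact absurd (Nat.le_of_dvd (by omega) h3) (by omega)

theorem nd_den (hc : Nat.Coprime n d) {k : ℕ} (hk : k < n) :
    ∀ j < k, ¬ (n : ℤ) ∣ (d : ℤ) + d * j := by
  intro j hj h
  have h2 : n ∣ d * (1 + j) := by
    have e : (d : ℤ) + d * j = ((d * (1 + j) : ℕ) : ℤ) := by push_cast; ring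
    rw [e] at h; exact_mod_cast h
  have h3 : n ∣ 1 + j := hc.dvd_of_dvd_mul_left h2
  exact absurd (Nat.le_of_dvd (by omega) h3) (by omega)

theorem LQ_gk (hc : Nat.Coprime n d) (hM : r + d * M = m * n) (hMn : M < n) {k : ℕ}
    (hk : k ≤ M) : LQ n (gk n d r k) (Hk d r k) (Jk d r k) := by
  have h1 := LQ_gp (n := n) (e := r) (d := d) (k := k) fun j hj =>
    nd_num hc hM hMn j (by omega)
  have h2 := LQ_gp (n := n) (e := d) (d := d) (k := k) (nd_den hc (by omega))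
  have h3 := h1.mul h2.neg.inv
  have e : (fun x => gp n r (q ^ d) k x * (gp n d (q ^ d) k (-x))⁻¹) = gk n d r k := by
    funext x
    rw [gk, div_eq_mul_inv]
  rw [e] at h3
  exact h3

/-- a pair of ratios is a polynomial in the nodes -/
theorem pair_SymP (hd : 0 < d) (hc : Nat.Coprime n d) (hMn : M < n) {t : ℕ} (htn : t < n)
    {x1 x2 : ℤ} (h : (d : ℤ) * t + d = (x1 + x2) * n + r) :
    SymP (q ^ d) (q ^ r) M t (fun k => gk n d r k x1 * gk n d r k x2) := by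
  have hp0 : (q ^ d : K) ≠ 0 := pow_ne_zero _ q_ne
  have hne : ∀ x : ℤ, ∀ k < n, poch (q ^ ((d : ℤ) + n * (-x))) (q ^ d) k ≠ 0 := by
    intro x k hk
    refine poch_ne fun j hj => ?_
    rw [gpfac]
    apply q_zpow_ne_one
    intro h0
    apply nd_den hc hk j hj
    exact ⟨x, by linarith⟩
  have key := SymP.pair (p := (q : K) ^ d) (a := q ^ r) (c1 := q ^ ((d : ℤ) + n * (-x1)))
    (c2 := q ^ ((d : ℤ) + n * (-x2))) (M := M) (t := t) hp0 (by
      rw [← pow_mul, ← zpow_natCast q (d * t), ← zpow_natCast q d, ← zpow_add₀ q_ne,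
        ← zpow_add₀ q_ne, ← zpow_add₀ q_ne]
      congr 1
      push_cast
      linear_combination h)
    (fun k hk => hne x1 k (by omega)) (fun k hk => hne x2 k (by omega)) (hne x1 t htn)
    (hne x2 t htn) (zpow_ne_zero _ q_ne)
  obtain ⟨P, hP, H⟩ := key
  refine ⟨P, hP, fun k hk => ?_⟩
  rw [← H k hk]
  beta_reduce
  have e1 : q ^ ((d : ℤ) + n * (-x1)) * ((q : K) ^ d) ^ t = q ^ (r + n * x2) := by
    rw [gpfac]; congr 1; linear_combination h
  have e2 : q ^ ((d : ℤ) + n * (-x2)) * ((q : K) ^ d) ^ t = q ^ (r + n * x1) := by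
    rw [gpfac]; congr 1; linear_combination h
  rw [e1, e2, gk, gk, gp, gp, gp, gp]
  ring

/-- a single ratio with a half-integral condition -/
theorem single_SymP (hd : 0 < d) (hc : Nat.Coprime n d) (hMn : M < n) {t : ℕ} (htn : t < n)
    {x c : ℤ} (h : 2 * ((d : ℤ) * t) + d = 2 * x * n + r) (hcc : 2 * c = r + d) (hc0 : 0 < c) :
    SymP (q ^ d) (q ^ r) M t (fun k => gk n d r k x) := by
  have hp0 : (q ^ d : K) ≠ 0 := pow_ne_zero _ q_ne
  have hne : ∀ k < n, poch (q ^ ((d : ℤ) + n * (-x))) (q ^ d) k ≠ 0 := by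
    intro k hk
    refine poch_ne fun j hj => ?_
    rw [gpfac]
    apply q_zpow_ne_one
    intro h0
    apply nd_den hc hk j hj
    exact ⟨x, by linarith⟩
  have hne2 : ∀ k, poch (q ^ c) ((q : K) ^ d) k ≠ 0 := by
    intro k
    refine poch_ne fun j hj => ?_
    rw [← pow_mul, ← zpow_natCast q (d * j), ← zpow_add₀ q_ne]
    apply q_zpow_ne_one
    positivity
  have hcx : q ^ ((d : ℤ) + n * (-x)) * ((q : K) ^ d) ^ t = q ^ c := by
    rw [gpfac]; congr 1; linarith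
  have key := SymP.pair (p := (q : K) ^ d) (a := q ^ r) (c1 := q ^ ((d : ℤ) + n * (-x)))
    (c2 := q ^ c) (M := M) (t := t) hp0 (by
      rw [mul_right_comm, hcx, ← zpow_natCast q d, ← zpow_add₀ q_ne, ← zpow_add₀ q_ne]
      congr 1
      linarith)
    (fun k hk => hne k (by omega)) (fun k _ => hne2 k) (hne t htn)
    (hne2 t) (zpow_ne_zero _ q_ne)
  obtain ⟨P, hP, H⟩ := key
  refine ⟨P, hP, fun k hk => ?_⟩
  rw [← H k hk]
  beta_reduce
  have e2 : q ^ c * ((q : K) ^ d) ^ t = q ^ (r + n * x) := by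
    rw [← pow_mul, ← zpow_natCast q (d * t), ← zpow_add₀ q_ne]; congr 1; push_cast; linarith
  rw [hcx, e2, gk, gp, gp]
  have h1 := hne2 k
  have h2 := hne k (by omega)
  field_simp

end

end Pool.Agent.R439
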