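import Mathlib
import Pool.Agent.R439.WPG

set_option autoImplicit false

/-!
The sums with all parameters equal to `q^r`, `r = 1` or `r = -1`, base `q^d`, `d ≥ 5` odd.
-/

namespace Pool.Agent.R439

open Finset Polynomial

section
variable {n : ℕ} [NeZero n]

/-! ### symmetry of the third order coefficient -/

theorem jA_shift {e : ℤ} (he : ¬ (n : ℤ) ∣ e) (t : ℤ) : EQ n 1 (jA (e + n * t)) (jA e) := by
  have h1 := q_shift (n := n) e t
  have he' : ¬ (n : ℤ) ∣ e + n * t := fun h => he (by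
    have := dvd_sub h (dvd_mul_right (n : ℤ) t)
    simpa using this)
  have h2 : EQ n 1 (1 - q ^ (e + (n : ℤ) * t)) (1 - q ^ e) := (EQ.refl (one_mem _)).sub h1
  exact ((h1.pow 2).mul ((h2.inv one_pos (U_one_sub he')).pow 3)).neg

omit [NeZero n] in
theorem jA_neg {f : ℤ} (hf : f ≠ 0) : jA (-f) = hA f - jA f := by
  have h1 : (1 - q ^ f : K) ≠ 0 := one_sub_zpow_ne hf
  have h2 : (q ^ f : K) ≠ 0 := zpow_ne_zero _ q_ne
  rw [jA, jA, hA, zpow_neg]
  have h3 : (1 - (q ^ f)⁻¹ : K) = -((1 - q ^ f) / q ^ f) := by field_simp; ring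
  rw [h3]
  field_simp
  ring

/-- partial sums of the denominators' coefficient -/
noncomputable def Ek (d k : ℕ) : K :=
  ∑ j ∈ range k, (hA ((d : ℤ) + d * j) - jA ((d : ℤ) + d * j))

variable {d M : ℕ} {r m : ℤ}

theorem Ek_mem (hc : Nat.Coprime n d) {k : ℕ} (hk : k < n) : Ek d k ∈ O n := by
  refine sum_mem fun j hj => ?_
  have h := nd_den hc hk j (mem_range.1 hj)
  have u := (U_one_sub (n := n) h).2.2
  exact sub_mem (mul_mem (zpow_mem _) (pow_mem u _))
    (neg_mem (mul_mem (pow_mem (zpow_mem _) _) (pow_mem u _)))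

theorem Jk_eq (hd : 0 < d) (hc : Nat.Coprime n d) (hM : r + d * M = m * n) (hMn : M < n) {k : ℕ}
    (hk : k ≤ M) : EQ n 1 (Jk d r k) (Ek d M - Ek d (M - k) - Ek d k) := by
  have h1 : EQ n 1 (∑ j ∈ range k, jA (r + d * j))
      (∑ j ∈ range k, (hA ((d : ℤ) * ((M - j : ℕ) : ℤ)) - jA ((d : ℤ) * ((M - j : ℕ) : ℤ)))) := by
    refine EQ.sum fun j hj => ?_
    have hj' := mem_range.1 hj
    have hc' : ((M - j : ℕ) : ℤ) = M - j := by omega
    have hnd : ¬ (n : ℤ) ∣ -((d : ℤ) * ((M - j : ℕ) : ℤ)) := by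
      rw [Int.dvd_neg]
      intro h
      have h2 : n ∣ d * (M - j) := by exact_mod_cast h
      have h3 : n ∣ M - j := hc.dvd_of_dvd_mul_left h2
      exact absurd (Nat.le_of_dvd (by omega) h3) (by omega)
    have h := jA_shift hnd m
    have e1 : -((d : ℤ) * ((M - j : ℕ) : ℤ)) + n * m = r + d * j := by
      rw [hc']; linear_combination -hM
    rw [e1, jA_neg (by rw [hc']; exact mul_ne_zero (by exact_mod_cast hd.ne') (by omega))] at h
    exact h
  have h2 : ∑ j ∈ range k, (hA ((d : ℤ) * ((M - j : ℕ) : ℤ)) - jA ((d : ℤ) * ((M - j : ℕ) : ℤ))) =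
      Ek d M - Ek d (M - k) := by
    have : Ek d M = Ek d (M - k) + ∑ j ∈ range k, (hA ((d : ℤ) + d * ((M - k + j : ℕ) : ℤ)) -
        jA ((d : ℤ) + d * ((M - k + j : ℕ) : ℤ))) := by
      rw [Ek, Ek, ← sum_range_add]
      rw [show M - k + k = M by omega]
    rw [this, add_sub_cancel_left, ← sum_range_reflect]
    refine sum_congr rfl fun j hj => ?_
    have hj' := mem_range.1 hj
    have e1 : (d : ℤ) * ((M - (k - 1 - j) : ℕ) : ℤ) = (d : ℤ) + d * ((M - k + j : ℕ) : ℤ) := by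
      have : ((M - (k - 1 - j) : ℕ) : ℤ) = 1 + ((M - k + j : ℕ) : ℤ) := by omega
      rw [this]; ring
    rw [e1]
  rw [h2] at h1
  have h3 := h1.sub (EQ.refl (n := n) (k := 1) (Ek_mem hc (by omega : k < n)))
  have h4 : Jk d r k = ∑ j ∈ range k, jA (r + d * j) - Ek d k := by
    rw [Jk, Ek, sum_sub_distrib]; ring
  rw [h4]
  exact h3

theorem Jk_sym (hd : 0 < d) (hc : Nat.Coprime n d) (hM : r + d * M = m * n) (hMn : M < n)
    {k : ℕ} (hk : k ≤ M) : EQ n 1 (Jk d r (M - k)) (Jk d r k) := by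
  have h1 := Jk_eq hd hc hM hMn (k := M - k) (by omega)
  have h2 := Jk_eq hd hc hM hMn hk
  rw [show M - (M - k) = k by omega] at h1
  have e : Ek d M - Ek d k - Ek d (M - k) = Ek d M - Ek d (M - k) - Ek d k := by ring
  rw [e] at h1
  exact h1.trans h2.symm

/-! ### symmetry of the ratios -/

section
variable {F : Type*} [Field F]

theorem rk_sym {p : F} (hp0 : p ≠ 0) (hp : ∀ i : ℕ, 0 < i → p ^ i ≠ 1) {M k : ℕ} (hk : k ≤ M) :
    poch (p ^ (-(M : ℤ))) p (M - k) / poch p p (M - k) =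
      poch (p ^ (-(M : ℤ))) p M / poch p p M * (p ^ (M + 1)) ^ k *
        (poch (p ^ (-(M : ℤ))) p k / poch p p k) := by
  induction k with
  | zero => simp [poch]
  | succ k ih =>
    have ih := ih (by omega)
    have hMk : M - k = M - (k + 1) + 1 := by omega
    have h1 := poch_self_ne hp (M - (k + 1))
    have h2 := poch_self_ne hp k
    have h3 := poch_self_ne hp M
    have hne : ∀ i : ℕ, 0 < i → 1 - p ^ i ≠ 0 := fun i hi => sub_ne_zero.2 (hp i hi).symm
    have a1 : poch (p ^ (-(M : ℤ))) p (M - k) = poch (p ^ (-(M : ℤ))) p (M - (k + 1)) *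
        (1 - (p ^ (k + 1))⁻¹) := by
      rw [hMk, poch_succ]
      congr 2
      rw [← zpow_natCast p (M - (k + 1)), ← zpow_natCast p (k + 1), ← zpow_add₀ hp0, ← zpow_neg]
      congr 1; omega
    have a2 : poch p p (M - k) = poch p p (M - (k + 1)) * (1 - p ^ (M - k)) := by
      rw [hMk, poch_succ, ← pow_succ', show M - (k + 1) + 1 = M - (k + 1) + 1 from rfl]
    have a3 : poch (p ^ (-(M : ℤ))) p (k + 1) = poch (p ^ (-(M : ℤ))) p k *
        (1 - (p ^ (M - k))⁻¹) := by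
      rw [poch_succ]
      congr 2
      rw [← zpow_natCast p k, ← zpow_natCast p (M - k), ← zpow_add₀ hp0, ← zpow_neg]
      congr 1; omega
    have a4 : poch p p (k + 1) = poch p p k * (1 - p ^ (k + 1)) := by
      rw [poch_succ, ← pow_succ']
    have a5 : p ^ (M + 1) = p ^ (M - k) * p ^ (k + 1) := by
      rw [← pow_add]; congr 1; omega
    rw [a1, a2] at ih
    rw [a3, a4, pow_succ]
    have n1 := hne (k + 1) (by omega)
    have n2 := hne (M - k) (by omega)
    have p1 : p ^ (k + 1) ≠ 0 := pow_ne_zero _ hp0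
    have p2 : p ^ (M - k) ≠ 0 := pow_ne_zero _ hp0
    have p3 : p ^ (M + 1) ≠ 0 := pow_ne_zero _ hp0
    have b1 : (1 - (p ^ (k + 1))⁻¹) = -((1 - p ^ (k + 1)) / p ^ (k + 1)) := by field_simp; ring
    have b2 : (1 - (p ^ (M - k))⁻¹) = -((1 - p ^ (M - k)) / p ^ (M - k)) := by field_simp; ring
    rw [b1] at ih
    rw [b2]
    generalize poch (p ^ (-(M : ℤ))) p (M - (k + 1)) = x1 at *
    generalize poch (p ^ (-(M : ℤ))) p k = x2 at *
    generalize poch (p ^ (-(M : ℤ))) p M = x3 at *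
    generalize poch p p (M - (k + 1)) = y1 at *
    generalize poch p p k = y2 at *
    generalize poch p p M = y3 at *
    generalize 1 - p ^ (k + 1) = z1 at *
    generalize 1 - p ^ (M - k) = z2 at *
    have ih' : x1 / y1 = x3 / y3 * (p ^ (M + 1)) ^ k * (x2 / y2) * (-(z2 * p ^ (k + 1) / z1)) := by
      rw [← ih]; field_simp
    rw [ih', a5]
    generalize p ^ (k + 1) = w1 at *
    generalize p ^ (M - k) = w2 at *
    field_simp

theorem rM_eq {p : F} (hp0 : p ≠ 0) (hp : ∀ i : ℕ, 0 < i → p ^ i ≠ 1) (M : ℕ) :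
    poch (p ^ (-(M : ℤ))) p M / poch p p M = (-1) ^ M * (p ^ (∑ i ∈ range M, (i + 1)))⁻¹ := by
  have h3 := poch_self_ne hp M
  rw [div_eq_iff h3]
  have h1 : poch (p ^ (-(M : ℤ))) p M = ∏ i ∈ range M, (-1 * (p ^ (i + 1))⁻¹ * (1 - p * p ^ i)) := by
    rw [poch, ← prod_range_reflect]
    refine prod_congr rfl fun i hi => ?_
    have hi' := mem_range.1 hi
    have e : p ^ (-(M : ℤ)) * p ^ (M - 1 - i) = (p ^ (i + 1))⁻¹ := by
      rw [← zpow_natCast p (M - 1 - i), ← zpow_natCast p (i + 1), ← zpow_add₀ hp0, ← zpow_neg]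
      congr 1; omega
    rw [e, ← pow_succ']
    have : p ^ (i + 1) ≠ 0 := pow_ne_zero _ hp0
    field_simp
    ring
  rw [h1, prod_mul_distrib, prod_mul_distrib, prod_const, card_range, prod_inv_distrib,
    prod_pow_eq_pow_sum, poch]

end

theorem half_pow {n' : ℕ} (hn : n = 2 * n') (hn' : 0 < n') : EQ n 1 (q ^ (-(n' : ℤ))) (-1) := by
  refine ⟨zpow_mem _, neg_mem (one_mem _), ?_⟩
  have hnd : ¬ (n : ℤ) ∣ (n' : ℤ) := by
    intro h
    have h2 : n ∣ n' := by exact_mod_cast h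
    exact absurd (Nat.le_of_dvd hn' h2) (by omega)
  have u := U_one_sub (n := n) hnd
  have e : q ^ (-(n' : ℤ)) - -1 = w n * (q ^ (-(n' : ℤ)) * (1 - q ^ (n' : ℤ))⁻¹) := by
    have h1 : (q ^ (n' : ℤ) : K) ≠ 0 := zpow_ne_zero _ q_ne
    have h2 := u.1
    have h3 : w n = (1 - q ^ (n' : ℤ)) * (1 + q ^ (n' : ℤ)) := by
      rw [w, hn, zpow_natCast, pow_mul']; ring
    rw [h3, zpow_neg]
    field_simp
    ring
  rw [e]
  exact I_w.mulR (mul_mem (zpow_mem _) u.2.2)

end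

end Pool.Agent.R439
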