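import Mathlib
import Pool.Agent.R439.WPA

set_option autoImplicit false

/-!
The main congruences for odd `d ≥ 5`.
-/

namespace Pool.Agent.R439

open Finset Polynomial

/-- `(q^r;q^d)_k/(q^d;q^d)_k` -/
noncomputable def rho (d : ℕ) (r : ℤ) (k : ℕ) : K := poch (q ^ r) (q ^ d) k / poch (q ^ d) (q ^ d) k

theorem gk_zero (n d : ℕ) (r : ℤ) (k : ℕ) : gk n d r k 0 = rho d r k := by
  rw [gk, rho, gp, gp, neg_zero, mul_zero, add_zero, add_zero, zpow_natCast]

/-- hypotheses -/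
structure Data (n d u M N' e : ℕ) (r s : ℤ) : Prop where
  hn : 2 ≤ n
  hd : d = 2 * (N' + 1) + 3
  hs : s = 1 ∨ s = 2
  hr : r = 1 ∨ r = -1
  hu : (d : ℤ) * u = s * n + r
  hM : M + u = n
  he : 2 * (e : ℤ) = d - 2 - r

section
variable {n d u M N' e : ℕ} {r s : ℤ} [NeZero n]

omit [NeZero n] in
theorem Data.hkey (h : Data n d u M N' e r s) : r + d * M = ((d : ℤ) - s) * n := by
  have h1 : (n : ℤ) = M + u := by exact_mod_cast h.hM.symm
  have := h.hu
  linear_combination (-1 : ℤ) * this - (d : ℤ) * h1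

omit [NeZero n] in
theorem Data.u_pos (h : Data n d u M N' e r s) : 0 < u := by
  have h1 := h.hu
  have h2 := h.hn
  rcases Nat.eq_zero_or_pos u with h0 | h0
  · exfalso
    subst h0
    rcases h.hs with hs | hs <;> rcases h.hr with hr | hr <;> subst hs <;> subst hr <;>
      simp at h1 <;> omega
  · exact h0

omit [NeZero n] in
theorem Data.u_bd (h : Data n d u M N' e r s) : 5 * (u : ℤ) ≤ 2 * n + 1 := by
  have h1 := h.hu
  have h3 : 5 * (u : ℤ) ≤ d * u := by
    have : (5 : ℤ) ≤ d := by have := h.hd; omega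
    exact mul_le_mul_of_nonneg_right this (by positivity)
  rw [h1] at h3
  rcases h.hs with hs | hs <;> rcases h.hr with hr | hr <;> subst hs <;> subst hr <;> omega

omit [NeZero n] in
theorem Data.cop (h : Data n d u M N' e r s) : Nat.Coprime n d := by
  have h1 := h.hu
  rw [Nat.Coprime]
  have h2 : ((Nat.gcd n d : ℕ) : ℤ) ∣ r := by
    have : r = d * u - s * n := by linear_combination -h1
    rw [this]
    refine dvd_sub (Dvd.dvd.mul_right ?_ _) (Dvd.dvd.mul_left ?_ _)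
    · exact_mod_cast Nat.gcd_dvd_right n d
    · exact_mod_cast Nat.gcd_dvd_left n d
  have h3 : ((Nat.gcd n d : ℕ) : ℤ) ∣ 1 := by
    rcases h.hr with hr | hr
    · rwa [hr] at h2
    · rw [hr] at h2; simpa using h2
  have h4 : Nat.gcd n d ∣ 1 := by exact_mod_cast h3
  exact Nat.dvd_one.1 h4

omit [NeZero n] in
theorem Data.M_lt (h : Data n d u M N' e r s) : M < n := by
  have := h.u_pos; have := h.hM; omega

omit [NeZero n] in
theorem Data.t2 (h : Data n d u M N' e r s) : ∃ t2 : ℕ, 2 * (t2 : ℤ) = (2 - s) * n + u - 1 := by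
  have h1 := h.hu
  have h0 := h.u_pos
  have hd : (d : ℤ) = 2 * (N' + 1) + 3 := by exact_mod_cast h.hd
  rw [hd] at h1
  have h2 : (2 * ((N' : ℤ) + 1) + 3) * u = 2 * (((N' : ℤ) + 1) * u) + 3 * u := by ring
  rw [h2] at h1
  generalize ((N' : ℤ) + 1) * u = X at h1
  rcases h.hs with hs | hs <;> rcases h.hr with hr | hr <;> subst hs <;> subst hr
  · exact ⟨(n + u - 1) / 2, by push_cast; omega⟩
  · exact ⟨(n + u - 1) / 2, by push_cast; omega⟩
  · exact ⟨(u - 1) / 2, by push_cast; omega⟩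
  · exact ⟨(u - 1) / 2, by push_cast; omega⟩

theorem Data.zero (h : Data n d u M N' e r s) (x : ℕ → ℤ) :
    ∑ k ∈ range (M + 1), (1 - q ^ (r + 2 * d * k)) * ((q ^ d) ^ k) ^ e * rho d r k *
      (gk n d r k (-((d : ℤ) - s)) * gk n d r k ((d : ℤ) - s - s * (N' + 1 : ℕ)) *
        ∏ i ∈ range (N' + 1), (gk n d r k (x i) * gk n d r k (s - x i))) = 0 := by
  obtain ⟨t2, ht2⟩ := h.t2
  have hu0 := h.u_pos
  have hub := h.u_bd
  have hMn := h.M_lt
  have hc := h.cop
  have hn := h.hn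
  have hdpos : 0 < d := by have := h.hd; omega
  have hdz : (d : ℤ) = 2 * (N' + 1) + 3 := by exact_mod_cast h.hd
  obtain ⟨u', rfl⟩ : ∃ u', u = u' + 1 := ⟨u - 1, by omega⟩
  have hu := h.hu
  have hMz : (M : ℤ) + (u' + 1) = n := by exact_mod_cast h.hM
  have he := h.he
  have hn0 : (0 : ℤ) ≤ n := by positivity
  have ht2n : t2 < n := by
    rcases h.hs with hs | hs <;> subst hs <;> push_cast at * <;> omega
  -- the polynomial part
  have S1 : SymP (q ^ d) (q ^ r) M t2 (fun k => gk n d r k ((d : ℤ) - s - s * (N' + 1 : ℕ))) := by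
    obtain ⟨c, hcc, hc0⟩ : ∃ c : ℤ, 2 * c = r + d ∧ 0 < c := by
      rcases h.hr with hr | hr <;> subst hr
      · exact ⟨N' + 3, by rw [hdz]; ring, by positivity⟩
      · exact ⟨N' + 2, by rw [hdz]; ring, by positivity⟩
    refine single_SymP hdpos hc hMn ht2n (x := (d : ℤ) - s - s * (N' + 1 : ℕ)) (c := c) ?_ hcc hc0
    push_cast
    have e1 : s * (d : ℤ) = s * (2 * (N' + 1) + 3) := by rw [hdz]
    push_cast at hu ht2
    linear_combination (d : ℤ) * ht2 + hu - (n : ℤ) * e1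
  have S2 : SymP (q ^ d) (q ^ r) M ((N' + 1) * u') (fun k => ∏ i ∈ range (N' + 1),
      (gk n d r k (x i) * gk n d r k (s - x i))) := by
    refine SymP.prod (G := fun i k => gk n d r k (x i) * gk n d r k (s - x i)) fun i _ => ?_
    refine pair_SymP hdpos hc hMn (by omega) ?_
    push_cast at hu
    linear_combination hu
  have S3 := S1.mul S2
  have hsum : e + (t2 + (N' + 1) * u') = M := by
    have : 2 * ((e : ℤ) + (t2 + (N' + 1) * u')) = 2 * M := by
      push_cast at hu ht2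
      have e1 : (d : ℤ) * (u' + 1) = (2 * (N' + 1) + 3) * (u' + 1) := by rw [hdz]
      linear_combination he + ht2 + hu - e1 + hdz - 2 * hMz
    have h2 : ((e + (t2 + (N' + 1) * u') : ℕ) : ℤ) = M := by push_cast; linarith
    exact_mod_cast h2
  have he1 : 1 ≤ e := by
    rcases h.hr with hr | hr <;> subst hr <;> rw [hdz] at he <;> omega
  have hp0 : (q ^ d : K) ≠ 0 := pow_ne_zero _ q_ne
  have hp : ∀ i : ℕ, 0 < i → ((q : K) ^ d) ^ i ≠ 1 := fun i hi => by
    rw [← pow_mul]; exact q_pow_ne_one (Nat.mul_pos hdpos hi).ne'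
  have ha : ∀ i : ℕ, q ^ r * ((q : K) ^ d) ^ i ≠ 1 := by
    intro i
    rw [← pow_mul, ← zpow_natCast q (d * i), ← zpow_add₀ q_ne]
    apply q_zpow_ne_one
    intro h0
    rcases Nat.eq_zero_or_pos i with hi | hi
    · subst hi
      rcases h.hr with hr | hr <;> subst hr <;> simp at h0
    · have : (5 : ℤ) ≤ ((d * i : ℕ) : ℤ) := by
        have h1 : 5 ≤ d := by have := h.hd; omega
        exact_mod_cast (le_trans h1 (Nat.le_mul_of_pos_right d hi))
      rcases h.hr with hr | hr <;> subst hr <;> omega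
  have key := wp_zero hp0 hp ha S3 (by omega) hsum
  rw [← key]
  refine sum_congr rfl fun k hk => ?_
  have hk' : k ≤ M := by have := mem_range.1 hk; omega
  have hkey := h.hkey
  rw [wt]
  have f1 : q ^ (r + 2 * (d : ℤ) * k) = q ^ r * (((q : K) ^ d) ^ k) ^ 2 := by
    rw [← pow_mul, ← pow_mul, ← zpow_natCast q (d * (k * 2)), ← zpow_add₀ q_ne]
    congr 1; push_cast; ring
  have f2 : gk n d r k (-((d : ℤ) - s)) = poch (((q : K) ^ d) ^ (-(M : ℤ))) (q ^ d) k /
      poch (q ^ r * ((q : K) ^ d) ^ (M + 1)) (q ^ d) k := by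
    rw [gk, gp, gp]
    have g1 : r + (n : ℤ) * -((d : ℤ) - s) = d * (-(M : ℤ)) := by linear_combination hkey
    have g2 : (d : ℤ) + (n : ℤ) * - -((d : ℤ) - s) = r + ((d * (M + 1) : ℕ) : ℤ) := by
      push_cast; linear_combination -hkey
    rw [g1, g2, zpow_mul, zpow_natCast, zpow_add₀ q_ne, zpow_natCast, pow_mul]
  rw [f1, f2, rho]
  generalize gk n d r k ((d : ℤ) - s - s * (N' + 1 : ℕ)) = G1
  generalize ∏ i ∈ range (N' + 1), (gk n d r k (x i) * gk n d r k (s - x i)) = G2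
  simp only [div_eq_mul_inv, mul_inv]
  ring

/-- the general term -/
noncomputable def TA (d : ℕ) (r : ℤ) (e k : ℕ) : K :=
  (1 - q ^ (r + 2 * d * k)) * ((q ^ d) ^ k) ^ e * rho d r k ^ d

theorem Data.rho_sym (h : Data n d u M N' e r s) {k : ℕ} (hk : k ≤ M) :
    EQ n 1 (rho d r (M - k)) ((-1) ^ M * (((q : K) ^ d) ^ (∑ i ∈ range M, (i + 1)))⁻¹ *
      (((q : K) ^ d) ^ (M + 1)) ^ k * rho d r k) := by
  have hMn := h.M_lt
  have hc := h.cop
  have hdpos : 0 < d := by have := h.hd; omega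
  have hp0 : (q ^ d : K) ≠ 0 := pow_ne_zero _ q_ne
  have hp : ∀ i : ℕ, 0 < i → ((q : K) ^ d) ^ i ≠ 1 := fun i hi => by
    rw [← pow_mul]; exact q_pow_ne_one (Nat.mul_pos hdpos hi).ne'
  have e1 : ∀ j ≤ M, EQ n 1 (rho d r j) (poch (((q : K) ^ d) ^ (-(M : ℤ))) (q ^ d) j /
      poch (q ^ d) (q ^ d) j) := by
    intro j hj
    have a1 := (gp_aff (n := n) (pow_mem' d) r j).eq_one 0 (-((d : ℤ) - s))
    have u1 := gp_U (n := n) (e := d) (d := d) (k := j) (nd_den hc (by omega)) 0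
    have a2 := a1.div one_pos (EQ.refl u1.2.1) u1
    have b1 : gp n r (q ^ d) j 0 = poch (q ^ r) (q ^ d) j := by rw [gp, mul_zero, add_zero]
    have b2 : gp n d (q ^ d) j 0 = poch (q ^ d) (q ^ d) j := by
      rw [gp, mul_zero, add_zero, zpow_natCast]
    have b3 : gp n r (q ^ d) j (-((d : ℤ) - s)) = poch (((q : K) ^ d) ^ (-(M : ℤ))) (q ^ d) j := by
      rw [gp]
      have g1 : r + (n : ℤ) * -((d : ℤ) - s) = d * (-(M : ℤ)) := by linear_combination h.hkey
      rw [g1, zpow_mul, zpow_natCast]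
    rw [b1, b2, b3] at a2
    exact a2
  have h1 := e1 (M - k) (by omega)
  rw [rk_sym hp0 hp hk, rM_eq hp0 hp] at h1
  refine h1.trans ?_
  refine (EQ.refl ?_).mul (e1 k hk).symm
  refine mul_mem (mul_mem (pow_mem (neg_mem (one_mem _)) _) ?_) (pow_mem (pow_mem (pow_mem' d) _) _)
  rw [← pow_mul, ← zpow_natCast, ← zpow_neg]
  exact zpow_mem _

theorem Data.Omega (h : Data n d u M N' e r s) (hs : s = 2) :
    EQ n 1 (q ^ (-r) * ((q ^ d) ^ M) ^ e *
      ((-1) ^ M * (((q : K) ^ d) ^ (∑ i ∈ range M, (i + 1)))⁻¹) ^ d) 1 := by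
  have hT : 2 * ∑ i ∈ range M, (i + 1) = M * (M + 1) := by
    clear h
    induction M with
    | zero => rfl
    | succ k ih => rw [sum_range_succ, mul_add, ih]; ring
  have hkey := h.hkey
  have he := h.he
  have hdz : (d : ℤ) = 2 * (N' + 1) + 3 := by exact_mod_cast h.hd
  set T := ∑ i ∈ range M, (i + 1) with hTdef
  have hTz : 2 * (T : ℤ) = M * (M + 1) := by exact_mod_cast hT
  have e0 : q ^ (-r) * ((q ^ d) ^ M) ^ e * ((-1) ^ M * (((q : K) ^ d) ^ T)⁻¹) ^ d =
      (-1) ^ (M * d) * q ^ (-r + d * M * e - d * d * T) := by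
    rw [mul_pow, ← pow_mul, ← pow_mul, ← pow_mul, ← pow_mul, inv_pow, ← pow_mul,
      ← zpow_natCast q (d * (M * e)), ← zpow_natCast q (d * T * d), ← zpow_neg]
    have : q ^ (-r) * q ^ ((d * (M * e) : ℕ) : ℤ) * ((-1) ^ (M * d) * q ^ (-((d * T * d : ℕ) : ℤ))) =
        (-1) ^ (M * d) * (q ^ (-r) * q ^ ((d * (M * e) : ℕ) : ℤ) * q ^ (-((d * T * d : ℕ) : ℤ))) := by
      ring
    rw [this, ← zpow_add₀ q_ne, ← zpow_add₀ q_ne]
    congr 2
    push_cast; ring
  have e1 : 2 * (-r + (d : ℤ) * M * e - d * d * T) = -((d * M + 2) * ((d - s) * n)) := by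
    rw [← hkey]
    linear_combination (d : ℤ) * M * he - (d : ℤ) * d * hTz
  rw [e0]
  have hdodd : d % 2 = 1 := by have := h.hd; omega
  rcases Nat.even_or_odd' M with ⟨M', hM' | hM'⟩
  · have e2 : -r + (d : ℤ) * M * e - d * d * T = n * (-((d * M' + 1) * (d - s))) := by
      have hz : (M : ℤ) = 2 * M' := by exact_mod_cast hM'
      have : 2 * (-r + (d : ℤ) * M * e - d * d * T) = 2 * (n * (-((d * M' + 1) * (d - s)))) := by
        rw [e1, hz]; ring
      linarith
    rw [e2]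
    have e3 : ((-1 : K)) ^ (M * d) = 1 := by
      rw [hM', mul_assoc, pow_mul]; norm_num
    rw [e3, one_mul]
    exact Q_eq _
  · -- `n` is even
    have hz : (M : ℤ) = 2 * M' + 1 := by exact_mod_cast hM'
    obtain ⟨n', hn'⟩ : ∃ n', n = 2 * n' := by
      have h1 : ((d : ℤ) - s) * n = 2 * ((N' + 1) * n) + n := by rw [hdz, hs]; ring
      have h2 := hkey
      rw [h1, hz, hdz] at h2
      have h3 : (2 * ((N' : ℤ) + 1) + 3) * (2 * M' + 1) =
          2 * ((2 * ((N' : ℤ) + 1) + 3) * M' + N' + 2) + 1 := by ring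
      rw [h3] at h2
      generalize (2 * ((N' : ℤ) + 1) + 3) * M' = X at h2
      generalize ((N' : ℤ) + 1) * n = Y at h2
      refine ⟨n / 2, ?_⟩
      rcases h.hr with hr | hr <;> subst hr <;> omega
    have hn'pos : 0 < n' := by have := h.hn; omega
    obtain ⟨c, hc⟩ : ∃ c : ℤ, ((d : ℤ) * M + 2) * (d - s) = 2 * c + 1 := by
      refine ⟨(d * M + 2) * (N' + 1) + ((2 * (N' + 1) + 3) * M' + N' + 3), ?_⟩
      have : ((d : ℤ) - s) = 2 * (N' + 1) + 1 := by rw [hdz, hs]; ring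
      rw [this]
      have h3 : (d : ℤ) * M = 2 * ((2 * ((N' : ℤ) + 1) + 3) * M' + N' + 2) + 1 := by
        rw [hz, hdz]; ring
      linear_combination h3
    have e2 : -r + (d : ℤ) * M * e - d * d * T = n * (-c) + -(n' : ℤ) := by
      have hnz : (n : ℤ) = 2 * n' := by exact_mod_cast hn'
      have : 2 * (-r + (d : ℤ) * M * e - d * d * T) = 2 * (n * (-c) + -(n' : ℤ)) := by
        rw [e1]
        have : ((d : ℤ) * M + 2) * ((d - s) * n) = (((d : ℤ) * M + 2) * (d - s)) * n := by ring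
        rw [this, hc]
        linear_combination (-1 : ℤ) * hnz
      linarith
    rw [e2, zpow_add₀ q_ne]
    have e3 : ((-1 : K)) ^ (M * d) = -1 := by
      apply Odd.neg_one_pow
      rw [Nat.odd_iff, Nat.mul_mod, hdodd, hM']
      omega
    rw [e3]
    have h4 := (Q_eq (n := n) (-c)).mul (half_pow hn' hn'pos)
    have h5 := (EQ.refl (n := n) (k := 1) (neg_mem (one_mem (O n)))).mul h4
    have e4 : (-1 : K) * (1 * -1) = 1 := by ring
    rwa [e4] at h5

theorem Data.TA_sym (h : Data n d u M N' e r s) (hs : s = 2) {k : ℕ} (hk : k ≤ M) :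
    EQ n 1 (TA d r e (M - k)) (-TA d r e k) := by
  have hkey := h.hkey
  have he := h.he
  have h1 := (h.rho_sym hk).pow d
  have h2 := h.Omega hs
  have hkz : ((M - k : ℕ) : ℤ) = M - k := by omega
  have h3 : EQ n 1 (1 - q ^ (r + 2 * d * ((M - k : ℕ) : ℤ)))
      (1 - q ^ (-(r + 2 * (d : ℤ) * k))) := by
    have := q_shift (n := n) (-(r + 2 * (d : ℤ) * k)) (2 * (d - s))
    have e1 : -(r + 2 * (d : ℤ) * k) + n * (2 * (d - s)) = r + 2 * d * ((M - k : ℕ) : ℤ) := by
      rw [hkz]; linear_combination (-2 : ℤ) * hkey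
    rw [e1] at this
    exact (EQ.refl (one_mem _)).sub this
  have m1 : (((q : K) ^ d) ^ (M - k)) ^ e ∈ O n := pow_mem (pow_mem (pow_mem' d) _) _
  have h4 := (h3.mul (EQ.refl (n := n) (k := 1) m1)).mul h1
  rw [TA, TA]
  refine h4.trans ?_
  have m2 : -((1 - q ^ (r + 2 * (d : ℤ) * k)) * (((q : K) ^ d) ^ k) ^ e * rho d r k ^ d) ∈ O n := by
    refine neg_mem (mul_mem (mul_mem (sub_mem (one_mem _) (zpow_mem _))
      (pow_mem (pow_mem (pow_mem' d) _) _)) (pow_mem ?_ _))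
    rw [← gk_zero n]
    exact ((LQ_gk h.cop h.hkey h.M_lt hk).unit 0).2.1
  have e5 : (1 - q ^ (-(r + 2 * (d : ℤ) * k))) * (((q : K) ^ d) ^ (M - k)) ^ e *
      ((-1) ^ M * (((q : K) ^ d) ^ (∑ i ∈ range M, (i + 1)))⁻¹ *
      (((q : K) ^ d) ^ (M + 1)) ^ k * rho d r k) ^ d =
      -((1 - q ^ (r + 2 * (d : ℤ) * k)) * (((q : K) ^ d) ^ k) ^ e * rho d r k ^ d) *
      (q ^ ((n : ℤ) * ((d - s) * d * k)) * (q ^ (-r) * ((q ^ d) ^ M) ^ e *
      ((-1) ^ M * (((q : K) ^ d) ^ (∑ i ∈ range M, (i + 1)))⁻¹) ^ d)) := by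
    generalize (-1 : K) ^ M * (((q : K) ^ d) ^ (∑ i ∈ range M, (i + 1)))⁻¹ = z
    have hne : (q ^ (r + 2 * (d : ℤ) * k) : K) ≠ 0 := zpow_ne_zero _ q_ne
    have a1 : (1 - q ^ (-(r + 2 * (d : ℤ) * k)) : K) =
        -(1 - q ^ (r + 2 * (d : ℤ) * k)) * q ^ (-(r + 2 * (d : ℤ) * k)) := by
      rw [zpow_neg]; field_simp; ring
    have a2 : q ^ (-(r + 2 * (d : ℤ) * k)) * (((q : K) ^ d) ^ (M - k)) ^ e *
        ((((q : K) ^ d) ^ (M + 1)) ^ k) ^ d =
        (((q : K) ^ d) ^ k) ^ e * (q ^ ((n : ℤ) * ((d - s) * d * k)) * (q ^ (-r) * ((q ^ d) ^ M) ^ e)) := by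
      rw [← pow_mul, ← pow_mul, ← pow_mul, ← pow_mul, ← pow_mul, ← pow_mul, ← pow_mul, ← pow_mul,
        ← pow_mul,
        ← zpow_natCast q (d * ((M - k) * e)), ← zpow_natCast q (d * ((M + 1) * (k * d))),
        ← zpow_natCast q (d * (k * e)), ← zpow_natCast q (d * (M * e)), ← zpow_add₀ q_ne,
        ← zpow_add₀ q_ne, ← zpow_add₀ q_ne, ← zpow_add₀ q_ne, ← zpow_add₀ q_ne]
      congr 1
      push_cast [hkz]
      linear_combination (d : ℤ) * k * hkey - (d : ℤ) * k * he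
    rw [a1, mul_pow, mul_pow]
    linear_combination (-(1 - q ^ (r + 2 * (d : ℤ) * k)) * z ^ d * rho d r k ^ d) * a2
  rw [e5]
  have h6 := (Q_eq (n := n) ((d - s) * d * k)).mul h2
  rw [one_mul] at h6
  have h7 := (EQ.refl (n := n) (k := 1) m2).mul h6
  rwa [mul_one] at h7

theorem Data.main (h : Data n d u M N' e r s) :
    I n 3 (∑ k ∈ range (M + 1), TA d r e k) ∧
      (s = 2 → I n 4 (∑ k ∈ range (M + 1), TA d r e k)) := by
  have hMn := h.M_lt
  have hc := h.cop
  have hs1 : s + 1 ≠ 0 := by rcases h.hs with hs | hs <;> subst hs <;> norm_num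
  have hC : ∀ k ≤ M, (1 - q ^ (r + 2 * (d : ℤ) * k)) * ((q ^ d) ^ k) ^ e * rho d r k ∈ O n := by
    intro k hk
    refine mul_mem (mul_mem (sub_mem (one_mem _) (zpow_mem _))
      (pow_mem (pow_mem (pow_mem' d) _) _)) ?_
    rw [← gk_zero n]
    exact ((LQ_gk h.cop h.hkey h.M_lt hk).unit 0).2.1
  have key := AB (n := n) (M := M) (N' := N') (s := s) (m := (d : ℤ) - s) hs1
    (g := gk n d r) (H := Hk d r) (J := Jk d r) (fun k hk => LQ_gk hc h.hkey hMn hk)
    (C := fun k => (1 - q ^ (r + 2 * (d : ℤ) * k)) * ((q ^ d) ^ k) ^ e * rho d r k) hC h.zero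
  have hT : ∀ k : ℕ, (1 - q ^ (r + 2 * (d : ℤ) * k)) * ((q ^ d) ^ k) ^ e * rho d r k *
      gk n d r k 0 ^ (2 * (N' + 1) + 2) = TA d r e k := by
    intro k
    rw [gk_zero, TA]
    have : rho d r k ^ d = rho d r k * rho d r k ^ (2 * (N' + 1) + 2) := by
      rw [← pow_succ', h.hd]
    rw [this]; ring
  simp only [hT] at key
  refine ⟨key.1, fun hs => key.2 ?_⟩
  -- antisymmetry
  have hdpos : 0 < d := by have := h.hd; omega
  have h1 : EQ n 1 (∑ k ∈ range (M + 1), TA d r e k * Jk d r k)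
      (-∑ k ∈ range (M + 1), TA d r e k * Jk d r k) := by
    have a1 : ∑ k ∈ range (M + 1), TA d r e k * Jk d r k =
        ∑ k ∈ range (M + 1), TA d r e (M - k) * Jk d r (M - k) := by
      rw [← sum_range_reflect]
      refine sum_congr rfl fun k hk => ?_
      have := mem_range.1 hk
      rw [show M + 1 - 1 - k = M - k by omega]
    have a2 : EQ n 1 (∑ k ∈ range (M + 1), TA d r e (M - k) * Jk d r (M - k))
        (∑ k ∈ range (M + 1), -TA d r e k * Jk d r k) := by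
      refine EQ.sum fun k hk => ?_
      have hk' : k ≤ M := by have := mem_range.1 hk; omega
      exact (h.TA_sym hs hk').mul (Jk_sym hdpos hc h.hkey hMn hk')
    rw [← a1] at a2
    have a3 : ∑ k ∈ range (M + 1), -TA d r e k * Jk d r k =
        -∑ k ∈ range (M + 1), TA d r e k * Jk d r k := by
      rw [← sum_neg_distrib]; exact sum_congr rfl fun k _ => by ring
    rwa [a3] at a2
  have h2 := h1.2.2
  rw [sub_neg_eq_add, ← two_mul] at h2
  exact h2.cancel two_ne_zero (by simpa using natinv_mem (n := n) 2)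

theorem Data.tail (h : Data n d u M N' e r s) {k : ℕ} (hk : M < k) (hkn : k < n) :
    I n 4 (TA d r e k) := by
  have hc := h.cop
  have hkey := h.hkey
  have u1 := gp_U (n := n) (e := d) (d := d) (k := k) (nd_den hc hkn) 0
  have b2 : gp n d (q ^ d) k 0 = poch (q ^ d) (q ^ d) k := by
    rw [gp, mul_zero, add_zero, zpow_natCast]
  rw [b2] at u1
  have h1 : I n 1 (poch (q ^ r) (q ^ d) k) := by
    rw [poch, ← mul_prod_erase (range k) _ (mem_range.2 hk)]
    refine I.mulR ?_ (prod_mem fun l _ => ?_)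
    · have : q ^ r * ((q : K) ^ d) ^ M = q ^ ((n : ℤ) * (d - s)) := by
        rw [← pow_mul, ← zpow_natCast q (d * M), ← zpow_add₀ q_ne]
        congr 1; push_cast; linear_combination hkey
      rw [this]
      exact (Q_eq (n := n) _).symm.2.2
    · exact sub_mem (one_mem _) (mul_mem (zpow_mem _) (pow_mem (pow_mem' d) _))
  have h2 : I n 1 (rho d r k) := by
    rw [rho, div_eq_mul_inv]; exact h1.mulR u1.2.2
  have h3 : ∀ j : ℕ, I n j (rho d r k ^ j) := by
    intro j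
    induction j with
    | zero => rw [pow_zero]; exact I_zero_iff.2 (one_mem _)
    | succ j ih => rw [pow_succ]; exact ih.mul h2
  rw [TA]
  refine ((h3 d).mono (by have := h.hd; omega)).mulL (mul_mem (sub_mem (one_mem _) (zpow_mem _))
      (pow_mem (pow_mem (pow_mem' d) _) _))

theorem Data.full (h : Data n d u M N' e r s) :
    I n 3 (∑ k ∈ range n, TA d r e k) ∧ (s = 2 → I n 4 (∑ k ∈ range n, TA d r e k)) := by
  have hMn := h.M_lt
  have e1 : ∑ k ∈ range n, TA d r e k = ∑ k ∈ range (M + 1), TA d r e k +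
      ∑ k ∈ range (n - (M + 1)), TA d r e (M + 1 + k) := by
    rw [← sum_range_add]; congr 2; omega
  have h1 : I n 4 (∑ k ∈ range (n - (M + 1)), TA d r e (M + 1 + k)) :=
    I.sum fun k hk => h.tail (by omega) (by have := mem_range.1 hk; omega)
  rw [e1]
  exact ⟨h.main.1.add (h1.mono (by norm_num)), fun hs => (h.main.2 hs).add h1⟩

end

end Pool.Agent.R439
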