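import Mathlib
import Pool.Agent.R439.WPB

set_option autoImplicit false

/-!
The sums with base `q^4` and five parameters `q^r` and one parameter `q^2`.
-/

namespace Pool.Agent.R439

open Finset Polynomial

section
variable {F : Type*} [Field F]

theorem well_rev {p b c : F} (hp0 : p ≠ 0) (hb0 : b ≠ 0) (hc0 : c ≠ 0) {M : ℕ}
    (h : b * c * p ^ M = p) (hc : ∀ j < M, 1 - c * p ^ j ≠ 0) {k : ℕ} (hk : k ≤ M) :
    poch b p (M - k) / poch c p (M - k) =
      poch b p M / poch c p M * (c / b) ^ k * (poch b p k / poch c p k) := by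
  induction k with
  | zero => simp [poch]
  | succ k ih =>
    have ih := ih (by omega)
    have hMk : M - k = M - (k + 1) + 1 := by omega
    have hne : ∀ j ≤ M, poch c p j ≠ 0 := fun j hj => by
      rw [poch, prod_ne_zero_iff]
      intro i hi
      exact hc i (by have := mem_range.1 hi; omega)
    have h1 := hne (M - (k + 1)) (by omega)
    have h2 := hne k (by omega)
    have h3 := hne M le_rfl
    have pk : p ^ k ≠ 0 := pow_ne_zero _ hp0
    have pk' : p ^ (M - (k + 1)) ≠ 0 := pow_ne_zero _ hp0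
    have hprod : b * c * (p ^ k * p ^ (M - (k + 1))) = 1 := by
      have : p ^ M = p ^ k * p ^ (M - (k + 1)) * p := by
        rw [← pow_add, ← pow_succ]; congr 1; omega
      rw [this] at h
      have h' : b * c * (p ^ k * p ^ (M - (k + 1))) * p = 1 * p := by linear_combination h
      exact mul_right_cancel₀ hp0 h'
    have n1 := hc k (by omega)
    have n2 := hc (M - (k + 1)) (by omega)
    have a1 : poch b p (M - k) = poch b p (M - (k + 1)) * (1 - b * p ^ (M - (k + 1))) := by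
      rw [hMk, poch_succ]
    have a2 : poch c p (M - k) = poch c p (M - (k + 1)) * (1 - c * p ^ (M - (k + 1))) := by
      rw [hMk, poch_succ]
    have b1 : 1 - b * p ^ (M - (k + 1)) = -((1 - c * p ^ k) / (c * p ^ k)) := by
      have : b * p ^ (M - (k + 1)) = 1 / (c * p ^ k) := by
        rw [eq_div_iff (mul_ne_zero hc0 pk)]; linear_combination hprod
      rw [this]; field_simp; ring
    have b2 : 1 - b * p ^ k = -((1 - c * p ^ (M - (k + 1))) * (b * p ^ k)) := by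
      linear_combination -hprod
    rw [a1, a2, b1] at ih
    rw [poch_succ, poch_succ, b2, pow_succ]
    generalize poch b p (M - (k + 1)) = x1 at *
    generalize poch c p (M - (k + 1)) = y1 at *
    generalize poch b p k = x2 at *
    generalize poch c p k = y2 at *
    generalize poch b p M = x3 at *
    generalize poch c p M = y3 at *
    generalize 1 - c * p ^ k = z1 at *
    generalize 1 - c * p ^ (M - (k + 1)) = z2 at *
    have ih' : x1 / y1 = x3 / y3 * (c / b) ^ k * (x2 / y2) * (-(z2 * (c * p ^ k) / z1)) := by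
      rw [← ih]; field_simp
    rw [ih']
    field_simp

theorem well_M {p b c : F} (hp0 : p ≠ 0) (hc0 : c ≠ 0) {M : ℕ}
    (h : b * c * p ^ M = p) (hc : ∀ j < M, 1 - c * p ^ j ≠ 0) :
    poch b p M / poch c p M = (-1) ^ M * (c ^ M * p ^ (∑ i ∈ range M, i))⁻¹ := by
  have h3 : poch c p M ≠ 0 := by
    rw [poch, prod_ne_zero_iff]
    intro i hi
    exact hc i (mem_range.1 hi)
  rw [div_eq_iff h3]
  have h1 : poch b p M = ∏ i ∈ range M, (-1 * (c * p ^ i)⁻¹ * (1 - c * p ^ i)) := by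
    rw [poch, ← prod_range_reflect]
    refine prod_congr rfl fun i hi => ?_
    have hi' := mem_range.1 hi
    have pk : p ^ i ≠ 0 := pow_ne_zero _ hp0
    have e : b * p ^ (M - 1 - i) = (c * p ^ i)⁻¹ := by
      apply eq_inv_of_mul_eq_one_left
      have : p ^ M = p ^ i * p ^ (M - 1 - i) * p := by
        rw [← pow_add, ← pow_succ]; congr 1; omega
      rw [this] at h
      have h' : b * p ^ (M - 1 - i) * (c * p ^ i) * p = 1 * p := by
        linear_combination h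
      exact mul_right_cancel₀ hp0 h'
    rw [e]
    have := mul_ne_zero hc0 pk
    field_simp
    ring
  rw [h1, prod_mul_distrib, prod_mul_distrib, prod_const, card_range, prod_inv_distrib,
    prod_mul_distrib, prod_const, card_range, prod_pow_eq_pow_sum, poch]

end

section
variable {n : ℕ} [NeZero n] {r : ℤ}

/-- the two-parameter family of terms -/
noncomputable def psi (n : ℕ) (r : ℤ) (k : ℕ) (α β : ℤ) : K :=
  (1 - q ^ (r + n * α + 8 * k)) * q ^ ((k : ℤ) * (6 - 2 * r + n * (3 * α - 6 * β))) *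
    (gp n r (q ^ 4) k β / gp n 4 (q ^ 4) k (α - β)) ^ 5 *
      (gp n 2 (q ^ 4) k β / gp n (r + 2) (q ^ 4) k (α - β))

omit [NeZero n] in
theorem psi_rev {M : ℕ} {α β : ℤ} (hM : r + n * α + 4 * M = 0)
    (h4 : ∀ j < M, (4 : ℤ) + n * (α - β) + 4 * j ≠ 0)
    (h2 : ∀ j < M, (r + 2 : ℤ) + n * (α - β) + 4 * j ≠ 0) {k : ℕ} (hk : k ≤ M) :
    psi n r (M - k) α β = -psi n r k α β := by
  have hp0 : (q ^ 4 : K) ≠ 0 := pow_ne_zero _ q_ne
  have hT : 2 * ∑ i ∈ range M, i = M * (M - 1) := by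
    rw [mul_comm]; exact sum_range_id_mul_two M
  set T := ∑ i ∈ range M, i with hTdef
  have hTz : 2 * (T : ℤ) = M * (M - 1) := by
    rcases Nat.eq_zero_or_pos M with h0 | h0
    · subst h0; simp [hTdef]
    · have : ((M - 1 : ℕ) : ℤ) = M - 1 := by omega
      rw [← this]; exact_mod_cast hT
  have ne1 : ∀ (x : ℤ) , (q ^ x : K) ≠ 0 := fun x => zpow_ne_zero _ q_ne
  have fac : ∀ (x : ℤ) (j : ℕ), (q ^ x : K) * (q ^ 4) ^ j = q ^ (x + 4 * j) := by
    intro x j
    rw [← pow_mul, ← zpow_natCast q (4 * j), ← zpow_add₀ q_ne]; congr 1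
  have c1 : ∀ j < M, (1 : K) - q ^ ((4 : ℤ) + n * (α - β)) * (q ^ 4) ^ j ≠ 0 := by
    intro j hj
    rw [fac]; exact one_sub_zpow_ne (h4 j hj)
  have c2 : ∀ j < M, (1 : K) - q ^ ((r + 2 : ℤ) + n * (α - β)) * (q ^ 4) ^ j ≠ 0 := by
    intro j hj
    rw [fac]; exact one_sub_zpow_ne (h2 j hj)
  have b1 : (q ^ (r + n * β) : K) * q ^ ((4 : ℤ) + n * (α - β)) * (q ^ 4) ^ M = q ^ 4 := by
    rw [← zpow_add₀ q_ne, fac, ← zpow_natCast q 4]; congr 1; push_cast; linear_combination hM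
  have b2 : (q ^ ((2 : ℤ) + n * β) : K) * q ^ ((r + 2 : ℤ) + n * (α - β)) * (q ^ 4) ^ M = q ^ 4 := by
    rw [← zpow_add₀ q_ne, fac, ← zpow_natCast q 4]; congr 1; push_cast; linear_combination hM
  have w1 := well_rev hp0 (ne1 _) (ne1 _) b1 c1 hk
  have w2 := well_rev hp0 (ne1 _) (ne1 _) b2 c2 hk
  have m1 := well_M hp0 (ne1 _) b1 c1
  have m2 := well_M hp0 (ne1 _) b2 c2
  rw [m1] at w1
  rw [m2] at w2
  have hkz : ((M - k : ℕ) : ℤ) = M - k := by omega
  rw [psi, psi, gp, gp, gp, gp, gp, gp, gp, gp, w1, w2]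
  generalize poch (q ^ (r + n * β)) (q ^ 4) k / poch (q ^ ((4 : ℤ) + n * (α - β))) (q ^ 4) k = R1
  generalize poch (q ^ ((2 : ℤ) + n * β)) (q ^ 4) k /
    poch (q ^ ((r + 2 : ℤ) + n * (α - β))) (q ^ 4) k = R2
  have hsq : ((-1 : K) ^ M) ^ 5 * (-1) ^ M = 1 := by
    rw [← pow_mul, ← pow_add, show M * 5 + M = 2 * (3 * M) by ring, pow_mul]; norm_num
  have e1 : (1 - q ^ (r + n * α + 8 * ((M - k : ℕ) : ℤ)) : K) =
      -(q ^ (-(r + n * α + 8 * (k : ℤ))) * (1 - q ^ (r + n * α + 8 * (k : ℤ)))) := by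
    rw [mul_sub, mul_one, ← zpow_add₀ q_ne, neg_add_cancel, zpow_zero, neg_sub, hkz]
    congr 2
    linear_combination 2 * hM
  have z1 : ((q ^ ((4 : ℤ) + n * (α - β)) : K) ^ M * (q ^ 4) ^ T)⁻¹ =
      q ^ (-(((4 : ℤ) + n * (α - β)) * M + 4 * T)) := by
    rw [← zpow_natCast (q ^ _) M, ← zpow_mul, fac, ← zpow_neg]
  have z2 : ((q ^ ((r + 2 : ℤ) + n * (α - β)) : K) ^ M * (q ^ 4) ^ T)⁻¹ =
      q ^ (-(((r + 2 : ℤ) + n * (α - β)) * M + 4 * T)) := by
    rw [← zpow_natCast (q ^ _) M, ← zpow_mul, fac, ← zpow_neg]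
  have y1 : ((q ^ ((4 : ℤ) + n * (α - β)) : K) / q ^ (r + n * β)) ^ k =
      q ^ (((4 : ℤ) + n * (α - β) - (r + n * β)) * k) := by
    rw [← zpow_sub₀ q_ne, ← zpow_natCast, ← zpow_mul]
  have y2 : ((q ^ ((r + 2 : ℤ) + n * (α - β)) : K) / q ^ ((2 : ℤ) + n * β)) ^ k =
      q ^ (((r + 2 : ℤ) + n * (α - β) - (2 + n * β)) * k) := by
    rw [← zpow_sub₀ q_ne, ← zpow_natCast, ← zpow_mul]
  rw [e1, z1, z2, y1, y2]
  have key : q ^ (-(r + n * α + 8 * (k : ℤ))) *
      q ^ (((M - k : ℕ) : ℤ) * (6 - 2 * r + n * (3 * α - 6 * β))) *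
      (q ^ (-(((4 : ℤ) + n * (α - β)) * M + 4 * T))) ^ 5 *
      (q ^ (((4 : ℤ) + n * (α - β) - (r + n * β)) * k)) ^ 5 *
      q ^ (-(((r + 2 : ℤ) + n * (α - β)) * M + 4 * T)) *
      q ^ (((r + 2 : ℤ) + n * (α - β) - (2 + n * β)) * k) =
      (q ^ ((k : ℤ) * (6 - 2 * r + n * (3 * α - 6 * β))) : K) := by
    rw [← zpow_natCast (q ^ (-(((4 : ℤ) + n * (α - β)) * M + 4 * T))) 5,
      ← zpow_natCast (q ^ (((4 : ℤ) + n * (α - β) - (r + n * β)) * k)) 5, ← zpow_mul, ← zpow_mul,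
      ← zpow_add₀ q_ne, ← zpow_add₀ q_ne, ← zpow_add₀ q_ne, ← zpow_add₀ q_ne, ← zpow_add₀ q_ne]
    congr 1
    rw [hkz]
    push_cast
    linear_combination (-1 - 3 * (M : ℤ)) * hM - 12 * hTz
  rw [mul_pow, mul_pow, mul_pow]
  generalize q ^ (-(r + n * α + 8 * (k : ℤ))) = u1 at *
  generalize q ^ (((M - k : ℕ) : ℤ) * (6 - 2 * r + n * (3 * α - 6 * β))) = u2 at *
  generalize q ^ (-(((4 : ℤ) + n * (α - β)) * M + 4 * T)) = u3 at *
  generalize q ^ (((4 : ℤ) + n * (α - β) - (r + n * β)) * k) = u4 at *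
  generalize q ^ (-(((r + 2 : ℤ) + n * (α - β)) * M + 4 * T)) = u5 at *
  generalize q ^ (((r + 2 : ℤ) + n * (α - β) - (2 + n * β)) * k) = u6 at *
  generalize (-1 : K) ^ M = sg at *
  generalize (1 - q ^ (r + n * α + 8 * (k : ℤ)) : K) = v at *
  linear_combination (-(v * sg ^ 5 * sg * R1 ^ 5 * R2)) * key -
    (v * q ^ ((k : ℤ) * (6 - 2 * r + n * (3 * α - 6 * β))) * R1 ^ 5 * R2) * hsq

omit [NeZero n] in
theorem psi_zero {M : ℕ} {α β : ℤ} (hM : r + n * α + 4 * M = 0)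
    (h4 : ∀ j < M, (4 : ℤ) + n * (α - β) + 4 * j ≠ 0)
    (h2 : ∀ j < M, (r + 2 : ℤ) + n * (α - β) + 4 * j ≠ 0) :
    ∑ k ∈ range (M + 1), psi n r k α β = 0 := by
  have h1 : ∑ k ∈ range (M + 1), psi n r k α β = -∑ k ∈ range (M + 1), psi n r k α β := by
    conv_lhs => rw [← sum_range_reflect]
    rw [← sum_neg_distrib]
    refine sum_congr rfl fun k hk => ?_
    have hk' := mem_range.1 hk
    rw [show M + 1 - 1 - k = M - k by omega]
    exact psi_rev hM h4 h2 (by omega)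
  have h3 : (2 : K) * ∑ k ∈ range (M + 1), psi n r k α β = 0 := by linear_combination h1
  exact (mul_eq_zero.1 h3).resolve_left two_ne_zero

end

end Pool.Agent.R439
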