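import Mathlib
import Pool.Agent.R439.WPC

set_option autoImplicit false

/-!
Congruences for the sums with base `q^4`.
-/

namespace Pool.Agent.R439

open Finset Polynomial

section
variable {n : ℕ} [NeZero n] {r : ℤ}

theorem Aff.comp {M M' : Type*} [AddCommGroup M] [AddCommGroup M'] {g : M → K} (hg : Aff n g)
    (φ : M' →+ M) : Aff n (fun x => g (φ x)) := by
  obtain ⟨a, ha, L, hL, H⟩ := hg
  exact ⟨a, ha, L.comp φ, fun s => hL _, fun s => H _⟩

/-- the product without the factor `j0` -/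
noncomputable def Dp (n : ℕ) (e : ℤ) (j0 k : ℕ) (t : ℤ) : K :=
  ∏ j ∈ (range k).erase j0, (1 - q ^ (e + 4 * j + n * t))

theorem gp_pole {e c : ℤ} {j0 k : ℕ} (h : e + 4 * j0 = c * n) (t : ℤ) :
    gp n e (q ^ 4) k t = (if j0 < k then 1 - q ^ ((n : ℤ) * (c + t)) else 1) * Dp n e j0 k t := by
  have fac : ∀ j : ℕ, q ^ (e + (n : ℤ) * t) * ((q : K) ^ 4) ^ j = q ^ (e + 4 * j + (n : ℤ) * t) := by
    intro j
    have := gpfac (n := n) e 4 j t
    rw [this]; push_cast; rfl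
  rw [gp, poch, Dp]
  simp only [fac]
  by_cases hj : j0 < k
  · rw [if_pos hj, ← mul_prod_erase (range k) _ (mem_range.2 hj)]
    congr 2
    congr 1
    linear_combination h
  · rw [if_neg hj, one_mul, erase_eq_of_notMem (by simpa using hj)]

theorem Dp_U {e c : ℤ} {j0 k : ℕ} (hc : Nat.Coprime n 4) (h : e + 4 * j0 = c * n) (hj0 : j0 < n)
    (hk : k ≤ n) (t : ℤ) : U n (Dp n e j0 k t) := by
  refine U.prod fun j hj => ?_
  have hj' := mem_erase.1 hj
  have hjk := mem_range.1 hj'.2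
  refine U_one_sub fun hd => ?_
  have h1 : (n : ℤ) ∣ 4 * ((j : ℤ) - j0) := by
    have h2 : (n : ℤ) ∣ e + 4 * j := by
      have := dvd_sub hd (dvd_mul_right (n : ℤ) t)
      simpa using this
    have h3 : (n : ℤ) ∣ e + 4 * j0 := ⟨c, by rw [h]; ring⟩
    have := dvd_sub h2 h3
    have e1 : e + 4 * (j : ℤ) - (e + 4 * j0) = 4 * ((j : ℤ) - j0) := by ring
    rwa [e1] at this
  have hcz : IsCoprime (n : ℤ) 4 := by
    have := Nat.isCoprime_iff_coprime.2 hc
    simpa using this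
  have h4 : (n : ℤ) ∣ (j : ℤ) - j0 := hcz.dvd_of_dvd_mul_left h1
  have h5 : (j : ℤ) - j0 = 0 := by
    apply Int.eq_zero_of_abs_lt_dvd h4
    rw [abs_lt]; constructor <;> omega
  omega

theorem Dp_aff (e : ℤ) (j0 k : ℕ) : Aff n (Dp n e j0 k) := by
  unfold Dp
  refine Aff.prod fun j _ => (Aff.const (one_mem _)).sub ?_
  exact Aff.qpow (e + 4 * j) (AddMonoidHom.id ℤ)

/-- `α` of the parameter pair -/
def pα : ℤ × ℤ →+ ℤ := AddMonoidHom.fst ℤ ℤ
/-- `β` of the parameter pair -/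
def pβ : ℤ × ℤ →+ ℤ := AddMonoidHom.snd ℤ ℤ
/-- `α - β` of the parameter pair -/
def pγ : ℤ × ℤ →+ ℤ := AddMonoidHom.fst ℤ ℤ - AddMonoidHom.snd ℤ ℤ

/-- the regularized terms -/
noncomputable def Th (n : ℕ) (r : ℤ) (j0 k : ℕ) (x : ℤ × ℤ) : K :=
  (1 - q ^ (r + 8 * k + n * pα x)) *
    q ^ ((k : ℤ) * (6 - 2 * r) + n * ((3 * k) • pα - (6 * k) • pβ) x) *
    (gp n r (q ^ 4) k (pβ x) * (gp n 4 (q ^ 4) k (pγ x))⁻¹) ^ 5 *
    (gp n 2 (q ^ 4) k (pβ x) * (Dp n (r + 2) j0 k (pγ x))⁻¹) *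
    (if j0 < k then 1 else 1 - q ^ ((n : ℤ) + n * pγ x))

omit [NeZero n] in
theorem cop4 (hodd : Odd n) : Nat.Coprime n 4 := by
  have : Nat.Coprime n (2 ^ 2) := Nat.Coprime.pow_right 2 (Nat.coprime_two_right.2 hodd)
  simpa using this

theorem Th_aff (hodd : Odd n) {j0 k : ℕ} (h : r + 2 + 4 * j0 = n) (hj0 : j0 < n) (hk : k < n) :
    Aff n (Th n r j0 k) := by
  have hc := cop4 hodd
  have u4 : ∀ t, U n (gp n 4 (q ^ 4) k t) := fun t =>
    gp_U (n := n) (e := ((4 : ℕ) : ℤ)) (d := 4) (k := k) (nd_den hc hk) t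
  have a4 : Aff n (fun t => (gp n 4 (q ^ 4) k t)⁻¹) := (gp_aff (pow_mem' 4) _ _).inv u4
  have uD : ∀ t, U n (Dp n (r + 2) j0 k t) := fun t =>
    Dp_U hc (c := 1) (by rw [h]; ring) hj0 hk.le t
  have aD : Aff n (fun t => (Dp n (r + 2) j0 k t)⁻¹) := (Dp_aff _ _ _).inv uD
  unfold Th
  refine ((((?_ : Aff n _).mul ?_).mul ?_).mul ?_).mul ?_
  · exact (Aff.const (one_mem _)).sub (Aff.qpow (r + 8 * k) pα)
  · exact Aff.qpow _ _
  · exact (((gp_aff (pow_mem' 4) r k).comp pβ).mul (a4.comp pγ)).pow 5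
  · exact ((gp_aff (pow_mem' 4) 2 k).comp pβ).mul (aD.comp pγ)
  · by_cases hj : j0 < k
    · simp only [if_pos hj]; exact Aff.const (one_mem _)
    · simp only [if_neg hj]
      exact (Aff.const (one_mem _)).sub (Aff.qpow n pγ)

theorem Th_psi {j0 k : ℕ} (h : r + 2 + 4 * j0 = n) {α β : ℤ}
    (hne : 1 + (α - β) ≠ 0) :
    Th n r j0 k (α, β) = psi n r k α β * (1 - q ^ ((n : ℤ) * (1 + (α - β)))) := by
  have h1 := gp_pole (n := n) (e := r + 2) (c := 1) (j0 := j0) (k := k) (by rw [h]; ring) (α - β)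
  have hA : pα (α, β) = α := rfl
  have hB : pβ (α, β) = β := rfl
  have hC : pγ (α, β) = α - β := rfl
  have hD : ((3 * k) • pα - (6 * k) • pβ) (α, β) = 3 * (k : ℤ) * α - 6 * k * β := by
    rw [AddMonoidHom.sub_apply, AddMonoidHom.nsmul_apply, AddMonoidHom.nsmul_apply, hA, hB]
    simp only [nsmul_eq_mul]; push_cast; ring
  have hw : (1 - q ^ ((n : ℤ) * (1 + (α - β))) : K) ≠ 0 := by
    apply one_sub_zpow_ne
    exact mul_ne_zero (by exact_mod_cast NeZero.ne n) hne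
  rw [Th, psi, h1, hA, hB, hC, hD]
  have e1 : r + 8 * (k : ℤ) + n * α = r + n * α + 8 * k := by ring
  have e2 : (k : ℤ) * (6 - 2 * r) + n * (3 * k * α - 6 * k * β) =
      (k : ℤ) * (6 - 2 * r + n * (3 * α - 6 * β)) := by ring
  have e3 : (n : ℤ) + n * (α - β) = n * (1 + (α - β)) := by ring
  rw [e1, e2, e3]
  by_cases hj : j0 < k
  · simp only [if_pos hj]
    rw [div_eq_mul_inv, div_eq_mul_inv, mul_inv]
    field_simp
  · simp only [if_neg hj]
    rw [div_eq_mul_inv, div_eq_mul_inv, one_mul]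

/-- the term of the sum -/
noncomputable def TB (r : ℤ) (k : ℕ) : K :=
  (1 - q ^ (r + 8 * k)) * q ^ ((k : ℤ) * (6 - 2 * r)) * rho 4 r k ^ 5 *
    (poch (q ^ 2) (q ^ 4) k / poch (q ^ (r + 2)) (q ^ 4) k)

omit [NeZero n] in
theorem psi_00 (k : ℕ) : psi n r k 0 0 = TB r k := by
  rw [psi, TB, rho, gp, gp, gp, gp]
  simp only [mul_zero, sub_zero, add_zero]
  have h2 : (q ^ (2 : ℤ) : K) = q ^ 2 := by norm_cast
  have h4 : (q ^ (4 : ℤ) : K) = q ^ 4 := by norm_cast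
  rw [h2, h4]

/-- hypotheses of the far case -/
structure DB (n u M j0 e : ℕ) (r : ℤ) : Prop where
  hn : 3 ≤ n
  hodd : Odd n
  hr : r = 1 ∨ r = -1
  hu : 4 * (u : ℤ) = n + r
  hM : M + u = n
  hj : r + 2 + 4 * j0 = n
  he : 2 * (e : ℤ) = 3 - r

variable {u M j0 e : ℕ}

omit [NeZero n] in
theorem DB.hkey (h : DB n u M j0 e r) : r + (4 : ℕ) * M = 3 * n := by
  have h1 : (n : ℤ) = M + u := by exact_mod_cast h.hM.symm
  have := h.hu
  push_cast
  linear_combination (-1 : ℤ) * this - 4 * h1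

omit [NeZero n] in
theorem DB.M_lt (h : DB n u M j0 e r) : M < n := by
  have h1 := h.hu; have h2 := h.hM; have h3 := h.hn
  rcases h.hr with hr | hr <;> subst hr <;> omega

omit [NeZero n] in
theorem DB.j0_lt (h : DB n u M j0 e r) : j0 < M := by
  have h1 := h.hu; have h2 := h.hM; have h3 := h.hn; have h4 := h.hj
  rcases h.hr with hr | hr <;> subst hr <;> omega

theorem DB.zero (h : DB n u M j0 e r) (x : ℕ → ℤ) :
    ∑ k ∈ range (M + 1), (w n * ((1 - q ^ (r + 8 * k)) * ((q ^ 4) ^ k) ^ e * rho 4 r k *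
      (poch (q ^ 2) (q ^ 4) k / poch (q ^ (r + 2)) (q ^ 4) k))) *
      (gk n 4 r k (-3) * gk n 4 r k (3 - 1 * ((0 + 1 : ℕ) : ℤ)) *
        ∏ i ∈ range (0 + 1), (gk n 4 r k (x i) * gk n 4 r k (1 - x i))) = 0 := by
  have hc := cop4 h.hodd
  have hMn := h.M_lt
  have hn := h.hn
  have hkey := h.hkey
  push_cast at hkey
  obtain ⟨N, hN⟩ := h.hodd
  have hNz : (n : ℤ) = 2 * N + 1 := by exact_mod_cast hN
  have hu := h.hu
  have hMz : (M : ℤ) + u = n := by exact_mod_cast h.hM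
  have he := h.he
  obtain ⟨u', rfl⟩ : ∃ u', u = u' + 1 := ⟨u - 1, by rcases h.hr with hr | hr <;> subst hr <;> omega⟩
  have hp0 : (q ^ 4 : K) ≠ 0 := pow_ne_zero _ q_ne
  have fac : ∀ (x : ℤ) (j : ℕ), (q ^ x : K) * (q ^ 4) ^ j = q ^ (x + 4 * j) := by
    intro x j
    rw [← pow_mul, ← zpow_natCast q (4 * j), ← zpow_add₀ q_ne]; congr 1
  have S1 : SymP (q ^ 4) (q ^ r) M N (fun k => gk n 4 r k 2 *
      (poch (q ^ 2) (q ^ 4) k / poch (q ^ (r + 2)) (q ^ 4) k)) := by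
    have n1 : ∀ k, poch (q ^ ((4 : ℤ) + n * (-2))) ((q : K) ^ 4) k ≠ 0 := by
      intro k
      refine poch_ne fun j _ => ?_
      rw [fac]; apply q_zpow_ne_one; rw [hNz]; ring_nf; omega
    have n2 : ∀ k, poch (q ^ (r + 2)) ((q : K) ^ 4) k ≠ 0 := by
      intro k
      refine poch_ne fun j _ => ?_
      rw [fac]; apply q_zpow_ne_one
      rcases h.hr with hr | hr <;> subst hr <;> omega
    have key := SymP.pair (p := (q : K) ^ 4) (a := q ^ r) (c1 := q ^ ((4 : ℤ) + n * (-2)))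
      (c2 := q ^ (r + 2)) (M := M) (t := N) hp0 (by
        rw [← zpow_add₀ q_ne, fac, ← zpow_natCast q 4, ← zpow_add₀ q_ne]
        congr 1
        push_cast
        linear_combination (-2 : ℤ) * hNz)
      (fun k _ => n1 k) (fun k _ => n2 k) (n1 N) (n2 N) (zpow_ne_zero _ q_ne)
    obtain ⟨P, hP, H⟩ := key
    refine ⟨P, hP, fun k hk => ?_⟩
    rw [← H k hk]
    beta_reduce
    have e1 : q ^ ((4 : ℤ) + n * (-2)) * ((q : K) ^ 4) ^ N = q ^ 2 := by
      rw [fac, ← zpow_natCast q 2]; congr 1; push_cast; linear_combination (-2 : ℤ) * hNz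
    have e2 : q ^ (r + 2) * ((q : K) ^ 4) ^ N = q ^ (r + n * 2) := by
      rw [fac]; congr 1; linear_combination (-2 : ℤ) * hNz
    rw [e1, e2, gk, gp, gp]
    push_cast
    ring
  have S2 : SymP (q ^ 4) (q ^ r) M u' (fun k => gk n 4 r k (x 0) * gk n 4 r k (1 - x 0)) := by
    refine pair_SymP (by norm_num) hc hMn (by have := h.hM; omega) ?_
    push_cast at hu ⊢
    linear_combination hu
  have S3 := S1.mul S2
  have hsum : e + (N + u') = M := by
    push_cast at hu hMz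
    have : ((e + (N + u') : ℕ) : ℤ) = M := by
      push_cast
      linarith
    exact_mod_cast this
  have he1 : 1 ≤ e := by
    rcases h.hr with hr | hr <;> subst hr <;> omega
  have hp : ∀ i : ℕ, 0 < i → ((q : K) ^ 4) ^ i ≠ 1 := fun i hi => by
    rw [← pow_mul]; exact q_pow_ne_one (by positivity)
  have ha : ∀ i : ℕ, q ^ r * ((q : K) ^ 4) ^ i ≠ 1 := by
    intro i
    rw [fac]
    apply q_zpow_ne_one
    rcases h.hr with hr | hr <;> subst hr <;> omega
  have key := wp_zero hp0 hp ha S3 (by omega) hsum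
  have key2 : w n * ∑ k ∈ range (M + 1), wt (q ^ 4) (q ^ r) M k * (((q : K) ^ 4) ^ k) ^ e *
      (gk n 4 r k 2 * (poch (q ^ 2) (q ^ 4) k / poch (q ^ (r + 2)) (q ^ 4) k) *
        (gk n 4 r k (x 0) * gk n 4 r k (1 - x 0))) = 0 := by rw [key, mul_zero]
  rw [← key2, mul_sum]
  refine sum_congr rfl fun k hk => ?_
  rw [zero_add, prod_range_one, wt]
  have f1 : q ^ (r + 8 * (k : ℤ)) = q ^ r * (((q : K) ^ 4) ^ k) ^ 2 := by
    rw [← pow_mul, ← pow_mul, ← zpow_natCast q (4 * (k * 2)), ← zpow_add₀ q_ne]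
    congr 1; push_cast; ring
  have f2 : gk n 4 r k (-3) = poch (((q : K) ^ 4) ^ (-(M : ℤ))) (q ^ 4) k /
      poch (q ^ r * ((q : K) ^ 4) ^ (M + 1)) (q ^ 4) k := by
    rw [gk, gp, gp]
    have g1 : r + (n : ℤ) * -3 = ((4 : ℕ) : ℤ) * (-(M : ℤ)) := by push_cast; linear_combination hkey
    have g2 : ((4 : ℕ) : ℤ) + (n : ℤ) * - -3 = r + ((4 * (M + 1) : ℕ) : ℤ) := by
      push_cast; linear_combination -hkey
    rw [g1, g2, zpow_mul, zpow_natCast, zpow_add₀ q_ne, zpow_natCast, pow_mul]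
  have f3 : (3 - 1 * ((1 : ℕ) : ℤ)) = 2 := by norm_num
  rw [f1, f2, f3, rho]
  generalize gk n 4 r k 2 = G1
  generalize gk n 4 r k (x 0) = G2
  generalize gk n 4 r k (1 - x 0) = G3
  simp only [div_eq_mul_inv, mul_inv]
  ring

omit [NeZero n] in
theorem DB.TB_eq (h : DB n u M j0 e r) (k : ℕ) :
    (1 - q ^ (r + 8 * (k : ℤ))) * (((q : K) ^ 4) ^ k) ^ e * rho 4 r k *
      (poch (q ^ 2) (q ^ 4) k / poch (q ^ (r + 2)) (q ^ 4) k) * gk n 4 r k 0 ^ 4 = TB r k := by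
  rw [gk_zero, TB]
  have : (((q : K) ^ 4) ^ k) ^ e = q ^ ((k : ℤ) * (6 - 2 * r)) := by
    rw [← pow_mul, ← pow_mul, ← zpow_natCast]
    congr 1
    have := h.he
    push_cast
    linear_combination (2 * (k : ℤ)) * this
  rw [this]
  ring

/-- regularity of `w` times a term, via `Th` -/
theorem DB.Th00 (h : DB n u M j0 e r) (k : ℕ) : Th n r j0 k (0, 0) = w n * TB r k := by
  rw [Th_psi h.hj (by norm_num), psi_00, w]
  simp only [sub_zero, add_zero, mul_one, zpow_natCast]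
  ring

theorem DB.Th_anti (h : DB n u M j0 e r) {k : ℕ} (hk : k ≤ M) :
    EQ n 1 (Th n r j0 (M - k) (0, 0)) (-Th n r j0 k (0, 0)) := by
  have hMn := h.M_lt
  have hj := h.j0_lt
  have hkey := h.hkey
  push_cast at hkey
  obtain ⟨N, hN⟩ := h.hodd
  have hNz : (n : ℤ) = 2 * N + 1 := by exact_mod_cast hN
  have a1 := (Th_aff (r := r) h.hodd h.hj (by omega) (by omega : M - k < n)).eq_one (0, 0) (-3, 0)
  have a2 := (Th_aff (r := r) h.hodd h.hj (by omega) (by omega : k < n)).eq_one (0, 0) (-3, 0)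
  have e1 : Th n r j0 (M - k) (-3, 0) = -Th n r j0 k (-3, 0) := by
    rw [Th_psi h.hj (by norm_num), Th_psi h.hj (by norm_num), psi_rev (M := M) ?_ ?_ ?_ hk]
    · ring
    · linear_combination hkey
    · intro j _
      rw [hNz]; ring_nf; omega
    · intro j _
      have h1 := h.hu
      rcases h.hr with hr | hr <;> subst hr <;> omega
  rw [e1] at a1
  exact a1.trans a2.symm.neg

theorem DB.main (h : DB n u M j0 e r) : I n 3 (∑ k ∈ range (M + 1), TB r k) := by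
  have hMn := h.M_lt
  have hj := h.j0_lt
  have hc := cop4 h.hodd
  have hmem : ∀ k ≤ M, w n * TB r k ∈ O n := by
    intro k hk
    rw [← h.Th00 k]
    exact (Th_aff (r := r) h.hodd h.hj (by omega) (by omega : k < n)).mem _
  have hC : ∀ k ≤ M, w n * ((1 - q ^ (r + 8 * (k : ℤ))) * (((q : K) ^ 4) ^ k) ^ e * rho 4 r k *
      (poch (q ^ 2) (q ^ 4) k / poch (q ^ (r + 2)) (q ^ 4) k)) ∈ O n := by
    intro k hk
    have u0 := (LQ_gk hc h.hkey hMn hk).unit 0
    have h1 := hmem k hk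
    rw [← h.TB_eq k] at h1
    have h2 := mul_mem h1 (u0.pow 4).2.2
    have h3 := (u0.pow 4).1
    have e1 : w n * ((1 - q ^ (r + 8 * (k : ℤ))) * (((q : K) ^ 4) ^ k) ^ e * rho 4 r k *
      (poch (q ^ 2) (q ^ 4) k / poch (q ^ (r + 2)) (q ^ 4) k) * gk n 4 r k 0 ^ 4) *
      (gk n 4 r k 0 ^ 4)⁻¹ = w n * ((1 - q ^ (r + 8 * (k : ℤ))) * (((q : K) ^ 4) ^ k) ^ e *
        rho 4 r k * (poch (q ^ 2) (q ^ 4) k / poch (q ^ (r + 2)) (q ^ 4) k)) := by
      rw [← mul_assoc, mul_assoc (w n * _), mul_inv_cancel₀ h3, mul_one]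
    rwa [e1] at h2
  have key := AB (n := n) (M := M) (N' := 0) (s := 1) (m := 3) (by norm_num)
    (g := gk n 4 r) (H := Hk 4 r) (J := Jk 4 r) (fun k hk => LQ_gk hc h.hkey hMn hk) hC h.zero
  have hT : ∀ k : ℕ, w n * ((1 - q ^ (r + 8 * (k : ℤ))) * (((q : K) ^ 4) ^ k) ^ e * rho 4 r k *
      (poch (q ^ 2) (q ^ 4) k / poch (q ^ (r + 2)) (q ^ 4) k)) *
      gk n 4 r k 0 ^ (2 * (0 + 1) + 2) = w n * TB r k := by
    intro k
    rw [← h.TB_eq k, show 2 * (0 + 1) + 2 = 4 from rfl]; ring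
  simp only [hT] at key
  have hJ : I n 1 (∑ k ∈ range (M + 1), w n * TB r k * Jk 4 r k) := by
    have h1 : EQ n 1 (∑ k ∈ range (M + 1), w n * TB r k * Jk 4 r k)
        (-∑ k ∈ range (M + 1), w n * TB r k * Jk 4 r k) := by
      have a1 : ∑ k ∈ range (M + 1), w n * TB r k * Jk 4 r k =
          ∑ k ∈ range (M + 1), w n * TB r (M - k) * Jk 4 r (M - k) := by
        rw [← sum_range_reflect]
        refine sum_congr rfl fun k hk => ?_
        rw [show M + 1 - 1 - k = M - k by omega]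
      have a2 : EQ n 1 (∑ k ∈ range (M + 1), w n * TB r (M - k) * Jk 4 r (M - k))
          (∑ k ∈ range (M + 1), -(w n * TB r k) * Jk 4 r k) := by
        refine EQ.sum fun k hk => ?_
        have hk' : k ≤ M := by have := mem_range.1 hk; omega
        have t := h.Th_anti hk'
        rw [h.Th00, h.Th00] at t
        exact t.mul (Jk_sym (by norm_num) hc h.hkey hMn hk')
      rw [← a1] at a2
      have a3 : ∑ k ∈ range (M + 1), -(w n * TB r k) * Jk 4 r k =
          -∑ k ∈ range (M + 1), w n * TB r k * Jk 4 r k := by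
        rw [← sum_neg_distrib]; exact sum_congr rfl fun k _ => by ring
      rwa [a3] at a2
    have h2 := h1.2.2
    rw [sub_neg_eq_add, ← two_mul] at h2
    exact h2.cancel two_ne_zero (by simpa using natinv_mem (n := n) 2)
  have h4 := key.2 hJ
  rw [← mul_sum] at h4
  exact I_w_mul_iff.1 h4

end

end Pool.Agent.R439
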