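import Mathlib
import Pool.Agent.R439.WPD
import Pool.Agent.R439.QBlock

set_option autoImplicit false

/-!
Block decomposition for the sums with base `q^4`.
-/

namespace Pool.Agent.R439

open Finset Polynomial

section
variable {n : ℕ} [NeZero n] {r : ℤ} {u M j0 e : ℕ}

theorem lin_pair {L : ℤ × ℤ →+ K} (x : ℤ × ℤ) : L x = (x.1 : K) * L (1, 0) + (x.2 : K) * L (0, 1) := by
  have h1 : x = x.1 • ((1, 0) : ℤ × ℤ) + x.2 • ((0, 1) : ℤ × ℤ) := by
    ext <;> simp
  conv_lhs => rw [h1]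
  rw [map_add, map_zsmul, map_zsmul, zsmul_eq_mul, zsmul_eq_mul]

theorem DB.Ths (h : DB n u M j0 e r) (x : ℤ × ℤ) :
    I n 2 (∑ k ∈ range (M + 1), Th n r j0 k x) := by
  have hMn := h.M_lt
  have hj := h.j0_lt
  have hkey := h.hkey
  push_cast at hkey
  obtain ⟨N, hN⟩ := h.hodd
  have hNz : (n : ℤ) = 2 * N + 1 := by exact_mod_cast hN
  have hA : Aff n (fun x => ∑ k ∈ range (M + 1), Th n r j0 k x) :=
    Aff.sum fun k hk => Th_aff h.hodd h.hj (by omega) (by have := mem_range.1 hk; omega)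
  obtain ⟨L, hL, -, H⟩ := hA.lin
  have h0 : I n 2 (∑ k ∈ range (M + 1), Th n r j0 k 0) := by
    have e1 : ∑ k ∈ range (M + 1), Th n r j0 k 0 = w n * ∑ k ∈ range (M + 1), TB r k := by
      rw [mul_sum]
      exact sum_congr rfl fun k _ => h.Th00 k
    rw [e1]
    exact ((I_w (n := n)).mul h.main).mono (by norm_num)
  have z0 : ∑ k ∈ range (M + 1), Th n r j0 k (-3, 0) = 0 := by
    have : ∀ k ∈ range (M + 1), Th n r j0 k (-3, 0) =
        psi n r k (-3) 0 * (1 - q ^ ((n : ℤ) * (1 + (-3 - 0)))) := fun k _ =>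
      Th_psi h.hj (by norm_num)
    rw [sum_congr rfl this, ← sum_mul, psi_zero (M := M), zero_mul]
    · linear_combination hkey
    · intro j _
      rw [hNz]; ring_nf; omega
    · intro j _
      have h1 := h.hu
      rcases h.hr with hr | hr <;> subst hr <;> omega
  have z1 : ∑ k ∈ range (M + 1), Th n r j0 k (-3, 1) = 0 := by
    have : ∀ k ∈ range (M + 1), Th n r j0 k (-3, 1) =
        psi n r k (-3) 1 * (1 - q ^ ((n : ℤ) * (1 + (-3 - 1)))) := fun k _ =>
      Th_psi h.hj (by norm_num)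
    rw [sum_congr rfl this, ← sum_mul, psi_zero (M := M), zero_mul]
    · linear_combination hkey
    · intro j hjM
      have h1 : (j : ℤ) + 1 < n := by omega
      intro h2
      have h3 : (4 : ℤ) * (1 + j) = 4 * n := by linear_combination h2
      omega
    · intro j _
      have h1 := h.hu
      rcases h.hr with hr | hr <;> subst hr <;> rw [hNz] <;> ring_nf <;> omega
  have w10 : I n 2 (w n * L (1, 0)) := by
    have h1 := H (-3, 0)
    rw [z0, lin_pair] at h1
    simp only at h1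
    have e1 : (3 : K) * (w n * L (1, 0)) =
        (0 - (∑ k ∈ range (M + 1), Th n r j0 k 0 + w n * (((-3 : ℤ) : K) * L (1, 0) +
          ((0 : ℤ) : K) * L (0, 1)))) + ∑ k ∈ range (M + 1), Th n r j0 k 0 := by
      push_cast; ring
    have h2 : I n 2 ((3 : K) * (w n * L (1, 0))) := by rw [e1]; exact h1.add h0
    exact h2.cancel three_ne_zero (by simpa using natinv_mem (n := n) 3)
  have w01 : I n 2 (w n * L (0, 1)) := by
    have h1 := H (-3, 1)
    rw [z1, lin_pair] at h1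
    simp only at h1
    have e1 : w n * L (0, 1) =
        -(0 - (∑ k ∈ range (M + 1), Th n r j0 k 0 + w n * (((-3 : ℤ) : K) * L (1, 0) +
          ((1 : ℤ) : K) * L (0, 1)))) - ∑ k ∈ range (M + 1), Th n r j0 k 0 +
          3 * (w n * L (1, 0)) := by
      push_cast; ring
    rw [e1]
    refine (h1.neg.sub h0).add (w10.mulL ?_)
    have := natCast_mem (O n) 3
    exact_mod_cast this
  have h1 := H x
  rw [lin_pair] at h1
  have e1 : ∑ k ∈ range (M + 1), Th n r j0 k x =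
      (∑ k ∈ range (M + 1), Th n r j0 k x - (∑ k ∈ range (M + 1), Th n r j0 k 0 +
        w n * ((x.1 : K) * L (1, 0) + (x.2 : K) * L (0, 1)))) +
      ∑ k ∈ range (M + 1), Th n r j0 k 0 + ((x.1 : K) * (w n * L (1, 0)) +
        (x.2 : K) * (w n * L (0, 1))) := by ring
  rw [e1]
  exact (h1.add h0).add ((w10.mulL (intCast_mem _ _)).add (w01.mulL (intCast_mem _ _)))

theorem DB.psi_block (h : DB n u M j0 e r) (l : ℕ) :
    I n 1 (∑ k ∈ range (M + 1), psi n r k (8 * l) (4 * l)) := by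
  have h1 := h.Ths (8 * (l : ℤ), 4 * (l : ℤ))
  have e0 : (1 : ℤ) + (8 * (l : ℤ) - 4 * l) = 1 + 4 * l := by ring
  have hne : (1 : ℤ) + (8 * (l : ℤ) - 4 * l) ≠ 0 := by rw [e0]; positivity
  have e1 : ∑ k ∈ range (M + 1), Th n r j0 k (8 * (l : ℤ), 4 * (l : ℤ)) =
      w n * (qi n (1 + (8 * (l : ℤ) - 4 * l)) * ∑ k ∈ range (M + 1), psi n r k (8 * l) (4 * l)) := by
    rw [← mul_assoc, w_qi, mul_sum]
    exact sum_congr rfl fun k _ => by rw [Th_psi h.hj hne]; ring
  rw [e1] at h1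
  have h2 := I_w_mul_iff.1 h1
  have u1 := qi_U (n := n) hne
  exact h2.cancel u1.1 u1.2.2

theorem psi_tail (hodd : Odd n) {c c' : ℤ} (hM : r + 4 * M = c * n) (hj : r + 2 + 4 * j0 = c' * n)
    (hj0 : j0 < n) {k : ℕ} (hk : M < k) (hkn : k < n) {α β : ℤ} (hne : c' + (α - β) ≠ 0) :
    I n 4 (psi n r k α β) := by
  have hc := cop4 hodd
  have u4 : U n (gp n 4 (q ^ 4) k (α - β)) :=
    gp_U (n := n) (e := ((4 : ℕ) : ℤ)) (d := 4) (k := k) (nd_den hc hkn) _
  have uD : U n (Dp n (r + 2) j0 k (α - β)) := Dp_U hc hj hj0 hkn.le _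
  have h1 := gp_pole (n := n) (e := r + 2) (c := c') (j0 := j0) (k := k) hj (α - β)
  have i1 : I n 1 (gp n r (q ^ 4) k β) := by
    rw [gp, poch, ← mul_prod_erase (range k) _ (mem_range.2 hk)]
    refine I.mulR ?_ (prod_mem fun l _ => ?_)
    · have : q ^ (r + (n : ℤ) * β) * ((q : K) ^ 4) ^ M = q ^ ((n : ℤ) * (c + β)) := by
        rw [← pow_mul, ← zpow_natCast q (4 * M), ← zpow_add₀ q_ne]
        congr 1; push_cast; linear_combination hM
      rw [this]
      exact (Q_eq (n := n) _).symm.2.2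
    · exact sub_mem (one_mem _) (mul_mem (zpow_mem _) (pow_mem (pow_mem' 4) _))
  have m2 : gp n 2 (q ^ 4) k β ∈ O n := by
    unfold gp poch
    exact prod_mem fun l _ => sub_mem (one_mem _) (mul_mem (zpow_mem _) (pow_mem (pow_mem' 4) _))
  have i5 : I n 5 ((gp n r (q ^ 4) k β / gp n 4 (q ^ 4) k (α - β)) ^ 5) := by
    have hb : I n 1 (gp n r (q ^ 4) k β / gp n 4 (q ^ 4) k (α - β)) := by
      rw [div_eq_mul_inv]; exact i1.mulR u4.2.2
    have : ∀ j : ℕ, I n j ((gp n r (q ^ 4) k β / gp n 4 (q ^ 4) k (α - β)) ^ j) := by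
      intro j
      induction j with
      | zero => rw [pow_zero]; exact I_zero_iff.2 (one_mem _)
      | succ j ih => rw [pow_succ]; exact ih.mul hb
    exact this 5
  have mA : (1 - q ^ (r + (n : ℤ) * α + 8 * k)) *
      q ^ ((k : ℤ) * (6 - 2 * r + n * (3 * α - 6 * β))) ∈ O n :=
    mul_mem (sub_mem (one_mem _) (zpow_mem _)) (zpow_mem _)
  rw [psi, h1]
  by_cases hjk : j0 < k
  · simp only [if_pos hjk]
    have u1 := qi_U (n := n) hne
    have e1 : w n * (qi n (c' + (α - β)) * ((1 - q ^ (r + (n : ℤ) * α + 8 * k)) *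
        q ^ ((k : ℤ) * (6 - 2 * r + n * (3 * α - 6 * β))) *
        (gp n r (q ^ 4) k β / gp n 4 (q ^ 4) k (α - β)) ^ 5 *
        (gp n 2 (q ^ 4) k β / ((1 - q ^ ((n : ℤ) * (c' + (α - β)))) *
          Dp n (r + 2) j0 k (α - β))))) =
        (1 - q ^ (r + (n : ℤ) * α + 8 * k)) *
        q ^ ((k : ℤ) * (6 - 2 * r + n * (3 * α - 6 * β))) *
        (gp n r (q ^ 4) k β / gp n 4 (q ^ 4) k (α - β)) ^ 5 *
        (gp n 2 (q ^ 4) k β * (Dp n (r + 2) j0 k (α - β))⁻¹) := by
      rw [← mul_assoc, w_qi]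
      have h3 : (1 - q ^ ((n : ℤ) * (c' + (α - β))) : K) ≠ 0 := by
        rw [← w_qi]; exact mul_ne_zero w_ne u1.1
      have h4 := uD.1
      field_simp
    have h5 : I n 5 (w n * (qi n (c' + (α - β)) * ((1 - q ^ (r + (n : ℤ) * α + 8 * k)) *
        q ^ ((k : ℤ) * (6 - 2 * r + n * (3 * α - 6 * β))) *
        (gp n r (q ^ 4) k β / gp n 4 (q ^ 4) k (α - β)) ^ 5 *
        (gp n 2 (q ^ 4) k β / ((1 - q ^ ((n : ℤ) * (c' + (α - β)))) *
          Dp n (r + 2) j0 k (α - β)))))) := by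
      rw [e1]
      exact (i5.mulL mA).mulR (mul_mem m2 uD.2.2)
    exact (I_w_mul_iff.1 h5).cancel u1.1 u1.2.2
  · simp only [if_neg hjk, one_mul]
    refine ((i5.mulL mA).mulR ?_).mono (by norm_num)
    rw [div_eq_mul_inv]
    exact mul_mem m2 uD.2.2

/-- full blocks, far case -/
theorem DB.block_full (h : DB n u M j0 e r) (l : ℕ) :
    I n 1 (∑ k ∈ range n, psi n r k (8 * l) (4 * l)) := by
  have hMn := h.M_lt
  have hj := h.j0_lt
  have hkey := h.hkey
  push_cast at hkey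
  have e1 : ∑ k ∈ range n, psi n r k (8 * l) (4 * l) =
      ∑ k ∈ range (M + 1), psi n r k (8 * l) (4 * l) +
      ∑ k ∈ range (n - (M + 1)), psi n r (M + 1 + k) (8 * l) (4 * l) := by
    rw [← sum_range_add]; congr 2; omega
  rw [e1]
  refine (h.psi_block l).add (I.sum fun k hk => ?_)
  have := mem_range.1 hk
  refine (psi_tail h.hodd (c := 3) (c' := 1) hkey (by rw [h.hj]; ring) (by omega)
    (by omega : M < M + 1 + k) (by omega) ?_).mono (by norm_num)
  have e0 : (1 : ℤ) + (8 * (l : ℤ) - 4 * l) = 1 + 4 * l := by ring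
  rw [e0]; positivity

/-- the sum up to `n`, far case -/
theorem DB.top (h : DB n u M j0 e r) : I n 3 (∑ k ∈ range n, TB r k) := by
  have hMn := h.M_lt
  have hj := h.j0_lt
  have hkey := h.hkey
  push_cast at hkey
  have e1 : ∑ k ∈ range n, TB r k = ∑ k ∈ range (M + 1), TB r k +
      ∑ k ∈ range (n - (M + 1)), TB r (M + 1 + k) := by
    rw [← sum_range_add]; congr 2; omega
  rw [e1]
  refine h.main.add (I.sum fun k hk => ?_)
  have := mem_range.1 hk
  rw [← psi_00 (n := n)]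
  exact (psi_tail h.hodd (c := 3) (c' := 1) hkey (by rw [h.hj]; ring) (by omega)
    (by omega : M < M + 1 + k) (by omega) (by norm_num)).mono (by norm_num)

/-- hypotheses of the near case -/
structure DN (n M j0 : ℕ) (r : ℤ) : Prop where
  hn : 3 ≤ n
  hodd : Odd n
  hr : r = 1 ∨ r = -1
  hM : r + 4 * (M : ℤ) = n
  hj : r + 2 + 4 * (j0 : ℤ) = 3 * n

theorem DN.block_full (h : DN n M j0 r) (l : ℕ) :
    I n 1 (∑ k ∈ range n, psi n r k (8 * l) (4 * l)) := by
  have hc := cop4 h.hodd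
  have hM := h.hM
  have hj := h.hj
  have hn := h.hn
  have hMn : M < n := by rcases h.hr with hr | hr <;> subst hr <;> omega
  have hjn : j0 < n := by rcases h.hr with hr | hr <;> subst hr <;> omega
  have hMj : M ≤ j0 := by rcases h.hr with hr | hr <;> subst hr <;> omega
  obtain ⟨N, hN⟩ := h.hodd
  have hNz : (n : ℤ) = 2 * N + 1 := by exact_mod_cast hN
  have e1 : ∑ k ∈ range n, psi n r k (8 * l) (4 * l) =
      ∑ k ∈ range (M + 1), psi n r k (8 * l) (4 * l) +
      ∑ k ∈ range (n - (M + 1)), psi n r (M + 1 + k) (8 * l) (4 * l) := by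
    rw [← sum_range_add]; congr 2; omega
  rw [e1]
  refine I.add ?_ (I.sum fun k hk => ?_)
  · have hk1 : ∀ k ∈ range (M + 1), EQ n 1 (psi n r k (8 * l) (4 * l)) (psi n r k (-1) 0) := by
      intro k hk
      have hkM : k ≤ M := by have := mem_range.1 hk; omega
      have u4 : ∀ t, U n (gp n 4 (q ^ 4) k t) := fun t =>
        gp_U (n := n) (e := ((4 : ℕ) : ℤ)) (d := 4) (k := k) (nd_den hc (by omega)) t
      have u2 : ∀ t, U n (gp n (r + 2) (q ^ 4) k t) := fun t => by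
        rw [gp_pole (n := n) (e := r + 2) (c := 3) (j0 := j0) hj, if_neg (by omega), one_mul]
        exact Dp_U hc hj hjn (by omega) t
      have a1 : ∀ x y : ℤ, EQ n 1 (1 - q ^ (r + (n : ℤ) * x + 8 * k))
          (1 - q ^ (r + (n : ℤ) * y + 8 * k)) := by
        intro x y
        refine (EQ.refl (one_mem _)).sub ?_
        have h1 := q_shift (n := n) (r + 8 * k) x
        have h2 := q_shift (n := n) (r + 8 * k) y
        have e1 : ∀ z : ℤ, r + 8 * (k : ℤ) + n * z = r + (n : ℤ) * z + 8 * k := fun z => by ring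
        rw [e1] at h1 h2
        exact h1.trans h2.symm
      have a2 : ∀ x y : ℤ, EQ n 1 (q ^ ((k : ℤ) * (6 - 2 * r + n * x)))
          (q ^ ((k : ℤ) * (6 - 2 * r + n * y))) := by
        intro x y
        have h1 := q_shift (n := n) ((k : ℤ) * (6 - 2 * r)) (k * x)
        have h2 := q_shift (n := n) ((k : ℤ) * (6 - 2 * r)) (k * y)
        have e1 : ∀ z : ℤ, (k : ℤ) * (6 - 2 * r) + n * (k * z) = (k : ℤ) * (6 - 2 * r + n * z) :=
          fun z => by ring
        rw [e1] at h1 h2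
        exact h1.trans h2.symm
      have a3 := (gp_aff (n := n) (pow_mem' 4) r k).eq_one (4 * l) 0
      have a4 := (gp_aff (n := n) (pow_mem' 4) 4 k).eq_one (8 * l - 4 * l) (-1 - 0)
      have a5 := (gp_aff (n := n) (pow_mem' 4) 2 k).eq_one (4 * l) 0
      have a6 := (gp_aff (n := n) (pow_mem' 4) (r + 2) k).eq_one (8 * l - 4 * l) (-1 - 0)
      exact (((a1 _ _).mul (a2 _ _)).mul ((a3.div one_pos a4 (u4 _)).pow 5)).mul
        (a5.div one_pos a6 (u2 _))
    have h1 := EQ.sum hk1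
    have hz : ∑ k ∈ range (M + 1), psi n r k (-1) 0 = 0 := by
      refine psi_zero (M := M) ?_ ?_ ?_
      · linear_combination hM
      · intro j _
        rw [hNz]; ring_nf; omega
      · intro j _
        rcases h.hr with hr | hr <;> subst hr <;> omega
    rw [hz] at h1
    have := h1.2.2
    rwa [sub_zero] at this
  · have := mem_range.1 hk
    refine (psi_tail h.hodd (c := 1) (c' := 3) (by rw [hM]; ring) hj hjn
      (by omega : M < M + 1 + k) (by omega) ?_).mono (by norm_num)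
    have e0 : (3 : ℤ) + (8 * (l : ℤ) - 4 * l) = 3 + 4 * l := by ring
    rw [e0]; positivity

/-- regularity of the quotients at multiples of `n` -/
theorem pref_mem (hodd : Odd n) {e1 c1 e2 c2 : ℤ} {j1 j2 : ℕ} (h1 : e1 + 4 * j1 = c1 * n)
    (hj1 : j1 < n) (h2 : e2 + 4 * j2 = c2 * n) (hj2 : j2 < n) (hc2 : ∀ l : ℕ, c2 + 4 * l ≠ 0)
    (l : ℕ) : poch (q ^ e1) ((q : K) ^ 4) (l * n) / poch (q ^ e2) (q ^ 4) (l * n) ∈ O n := by
  have hc := cop4 hodd
  induction l with
  | zero => simp [poch]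
  | succ l ih =>
    have fac : ∀ e : ℤ, poch (q ^ e * ((q : K) ^ 4) ^ (l * n)) (q ^ 4) n =
        gp n e (q ^ 4) n (4 * l) := by
      intro e
      rw [gp]
      congr 1
      rw [← pow_mul, ← zpow_natCast q (4 * (l * n)), ← zpow_add₀ q_ne]
      congr 1; push_cast; ring
    rw [Nat.succ_mul l n, poch_add, poch_add, fac, fac, gp_pole h1, gp_pole h2, if_pos hj1,
      if_pos hj2, ← w_qi, ← w_qi, mul_div_mul_comm]
    refine mul_mem ih ?_
    have u1 := Dp_U hc h1 hj1 le_rfl (4 * (l : ℤ))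
    have u2 := Dp_U hc h2 hj2 le_rfl (4 * (l : ℤ))
    have u3 := qi_U (n := n) (hc2 l)
    have hw := w_ne (n := n)
    have e : w n * qi n (c1 + 4 * l) * Dp n e1 j1 n (4 * l) /
        (w n * qi n (c2 + 4 * l) * Dp n e2 j2 n (4 * l)) =
        qi n (c1 + 4 * l) * (qi n (c2 + 4 * l))⁻¹ * (Dp n e1 j1 n (4 * l) *
          (Dp n e2 j2 n (4 * l))⁻¹) := by
      have h3 := u3.1
      have h4 := u2.1
      field_simp
    rw [e]
    exact mul_mem (mul_mem (qi_eq _).1 u3.2.2) (mul_mem u1.2.1 u2.2.2)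

/-- factor of block `l` -/
noncomputable def pfB (n : ℕ) (r : ℤ) (l : ℕ) : K :=
  q ^ (((l * n : ℕ) : ℤ) * (6 - 2 * r)) * rho 4 r (l * n) ^ 5 *
    (poch (q ^ 2) (q ^ 4) (l * n) / poch (q ^ (r + 2)) (q ^ 4) (l * n))

omit [NeZero n] in
theorem TB_block (l i : ℕ) : TB r (l * n + i) = pfB n r l * psi n r i (8 * l) (4 * l) := by
  have fac : ∀ e : ℤ, poch (q ^ e * ((q : K) ^ 4) ^ (l * n)) (q ^ 4) i =
      gp n e (q ^ 4) i (4 * l) := by
    intro e
    rw [gp]
    congr 1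
    rw [← pow_mul, ← zpow_natCast q (4 * (l * n)), ← zpow_add₀ q_ne]
    congr 1; push_cast; ring
  have f2 := fac 2
  have f4 := fac 4
  have h2 : (q ^ (2 : ℤ) : K) = q ^ 2 := by norm_cast
  have h4 : (q ^ (4 : ℤ) : K) = q ^ 4 := by norm_cast
  rw [h2] at f2
  rw [h4] at f4
  have e0 : (8 * (l : ℤ) - 4 * l) = 4 * l := by ring
  have e1 : r + 8 * ((l * n + i : ℕ) : ℤ) = r + n * (8 * l) + 8 * i := by push_cast; ring
  have e2 : q ^ (((l * n + i : ℕ) : ℤ) * (6 - 2 * r)) =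
      q ^ (((l * n : ℕ) : ℤ) * (6 - 2 * r)) *
        (q ^ ((i : ℤ) * (6 - 2 * r + n * (3 * (8 * l) - 6 * (4 * l)))) : K) := by
    rw [← zpow_add₀ q_ne]; congr 1; push_cast; ring
  rw [TB, rho, pfB, rho, psi, poch_add, poch_add, poch_add, poch_add, fac, fac, f2, f4, e0, e1, e2,
    mul_div_mul_comm, mul_div_mul_comm, mul_pow]
  ring

theorem DB.all (h : DB n u M j0 e r) (L : ℕ) : I n 1 (∑ k ∈ range (L * n), TB r k) := by
  rw [sum_blocks]
  refine I.sum fun l _ => ?_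
  have e1 : ∑ i ∈ range n, TB r (l * n + i) =
      pfB n r l * ∑ i ∈ range n, psi n r i (8 * l) (4 * l) := by
    rw [mul_sum]; exact sum_congr rfl fun i _ => TB_block l i
  rw [e1]
  refine (h.block_full l).mulL ?_
  have hn := h.hn
  have hMn := h.M_lt
  have hj := h.j0_lt
  have hkey := h.hkey
  push_cast at hkey
  obtain ⟨N, hN⟩ := h.hodd
  have hNz : (n : ℤ) = 2 * N + 1 := by exact_mod_cast hN
  refine mul_mem (mul_mem (zpow_mem _) (pow_mem ?_ _)) ?_
  · have := pref_mem h.hodd (e1 := r) (c1 := 3) (j1 := M) (e2 := 4) (c2 := 4) (j2 := n - 1) hkey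
      hMn (by push_cast [(by omega : 1 ≤ n)]; ring) (by omega) (fun l => by positivity) l
    have h4 : (q ^ (4 : ℤ) : K) = q ^ 4 := by norm_cast
    rw [h4] at this
    exact this
  · have := pref_mem h.hodd (e1 := 2) (c1 := 2) (j1 := N) (e2 := r + 2) (c2 := 1) (j2 := j0)
      (by rw [hNz]; ring) (by omega) (by rw [h.hj]; ring) (by omega) (fun l => by positivity) l
    have h4 : (q ^ (2 : ℤ) : K) = q ^ 2 := by norm_cast
    rw [h4] at this
    exact this

theorem DN.all (h : DN n M j0 r) (L : ℕ) : I n 1 (∑ k ∈ range (L * n), TB r k) := by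
  rw [sum_blocks]
  refine I.sum fun l _ => ?_
  have e1 : ∑ i ∈ range n, TB r (l * n + i) =
      pfB n r l * ∑ i ∈ range n, psi n r i (8 * l) (4 * l) := by
    rw [mul_sum]; exact sum_congr rfl fun i _ => TB_block l i
  rw [e1]
  refine (h.block_full l).mulL ?_
  have hn := h.hn
  have hM := h.hM
  have hj := h.hj
  have hMn : M < n := by rcases h.hr with hr | hr <;> subst hr <;> omega
  have hjn : j0 < n := by rcases h.hr with hr | hr <;> subst hr <;> omega
  obtain ⟨N, hN⟩ := h.hodd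
  have hNz : (n : ℤ) = 2 * N + 1 := by exact_mod_cast hN
  refine mul_mem (mul_mem (zpow_mem _) (pow_mem ?_ _)) ?_
  · have := pref_mem h.hodd (e1 := r) (c1 := 1) (j1 := M) (e2 := 4) (c2 := 4) (j2 := n - 1)
      (by rw [hM]; ring)
      hMn (by push_cast [(by omega : 1 ≤ n)]; ring) (by omega) (fun l => by positivity) l
    have h4 : (q ^ (4 : ℤ) : K) = q ^ 4 := by norm_cast
    rw [h4] at this
    exact this
  · have := pref_mem h.hodd (e1 := 2) (c1 := 2) (j1 := N) (e2 := r + 2) (c2 := 3) (j2 := j0)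
      (by rw [hNz]; ring) (by omega) hj (by omega) (fun l => by positivity) l
    have h4 : (q ^ (2 : ℤ) : K) = q ^ 2 := by norm_cast
    rw [h4] at this
    exact this

end

/-- regularity data exist for every odd `n ≥ 3` -/
theorem exists_data {n : ℕ} (hn : 3 ≤ n) (hodd : Odd n) {r : ℤ} (hr : r = 1 ∨ r = -1) :
    (((4 : ℤ) ∣ n + r) → ∃ u M j0 e, DB n u M j0 e r) ∧
    (¬ ((4 : ℤ) ∣ n + r) → ∃ M j0, DN n M j0 r) := by
  obtain ⟨N, hN⟩ := hodd
  rcases hr with hr | hr <;> subst hr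
  · constructor
    · intro h
      refine ⟨(n + 1) / 4, n - (n + 1) / 4, (n - 3) / 4, 1, ?_⟩
      refine ⟨hn, ⟨N, hN⟩, Or.inl rfl, ?_, ?_, ?_, by norm_num⟩ <;> push_cast <;> omega
    · intro h
      refine ⟨(n - 1) / 4, (3 * n - 3) / 4, ?_⟩
      refine ⟨hn, ⟨N, hN⟩, Or.inl rfl, ?_, ?_⟩ <;> push_cast <;> omega
  · constructor
    · intro h
      refine ⟨(n - 1) / 4, n - (n - 1) / 4, (n - 1) / 4, 2, ?_⟩
      refine ⟨hn, ⟨N, hN⟩, Or.inr rfl, ?_, ?_, ?_, by norm_num⟩ <;> push_cast <;> omega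
    · intro h
      refine ⟨(n + 1) / 4, (3 * n - 1) / 4, ?_⟩
      refine ⟨hn, ⟨N, hN⟩, Or.inr rfl, ?_, ?_⟩ <;> push_cast <;> omega

theorem all_TB {m : ℕ} [NeZero m] (hm : 3 ≤ m) (hodd : Odd m) {r : ℤ} (hr : r = 1 ∨ r = -1)
    (L : ℕ) : I m 1 (∑ k ∈ range (L * m), TB r k) := by
  by_cases h : (4 : ℤ) ∣ m + r
  · obtain ⟨u, M, j0, e, D⟩ := (exists_data hm hodd hr).1 h
    exact D.all L
  · obtain ⟨M, j0, D⟩ := (exists_data hm hodd hr).2 h
    exact D.all L

end Pool.Agent.R439
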